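import Pool.Agent.R918.Ks3

set_option autoImplicit false
set_option linter.unusedSectionVars false

/-!
# The commutant of the orthogonal Lie algebras in the Clifford matrices: ideals
-/

open Finset Function

universe u

namespace Pool.Agent.R918.KS

open Pool.Agent.R914.K3P

variable {K : Type u} [Field K] {B ι M : Type} [Fintype B] [DecidableEq B] [Fintype M]
  [DecidableEq M] {κ : B → ι} {L : B → Matrix M M K}

theorem conj_pair (hL : IsClifford L) {u v : B} (huv : u ≠ v) (b : B) :
    L b * (L u * L v) * L b = L u * L v ∨ L b * (L u * L v) * L b = -(L u * L v) := by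
  by_cases hbu : b = u
  · subst hbu
    right
    rw [← Matrix.mul_assoc, hL.1, Matrix.one_mul, hL.2 v b (Ne.symm huv)]
  · by_cases hbv : b = v
    · subst hbv
      right
      rw [Matrix.mul_assoc, Matrix.mul_assoc, hL.1, Matrix.mul_one, hL.2 b u hbu]
    · left
      rw [Matrix.mul_assoc, Matrix.mul_assoc, hL.2 v b (Ne.symm hbv), Matrix.mul_neg,
        Matrix.mul_neg, ← Matrix.mul_assoc (L u), hL.2 u b (Ne.symm hbu),
        Matrix.neg_mul, Matrix.mul_neg, neg_neg, Matrix.mul_assoc, ← Matrix.mul_assoc (L b),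
        hL.1, Matrix.one_mul]

/-- conjugation by `L b` preserves the commutant -/
theorem conj_mem (hL : IsClifford L) {Z : Matrix M M K} (hZ : Z ∈ Dk κ L) (b : B) :
    L b * Z * L b ∈ Dk κ L := by
  intro u v hκ huv
  have h1 : ∀ X Y : Matrix M M K, X * Y = Y * X → L b * X * L b * (L b * Y * L b) =
      L b * Y * L b * (L b * X * L b) := by
    intro X Y h
    have e : ∀ X Y : Matrix M M K, L b * X * L b * (L b * Y * L b) = L b * (X * Y) * L b := by
      intro X Y
      have : L b * X * L b * (L b * Y * L b) = L b * X * (L b * L b) * Y * L b := by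
        simp only [Matrix.mul_assoc]
      rw [this, hL.1, Matrix.mul_one]
      simp only [Matrix.mul_assoc]
    rw [e, e, h]
  have h2 := h1 Z (L u * L v) (hZ u v hκ huv)
  rcases conj_pair hL huv b with h | h
  · rwa [h] at h2
  · rw [h, Matrix.mul_neg, Matrix.neg_mul, neg_inj] at h2
    exact h2

theorem mul_mem_Dk {Z W : Matrix M M K} (hZ : Z ∈ Dk κ L) (hW : W ∈ Dk κ L) :
    Z * W ∈ Dk κ L := fun u v hκ huv => by
  rw [Matrix.mul_assoc, hW u v hκ huv, ← Matrix.mul_assoc, hZ u v hκ huv, Matrix.mul_assoc]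

theorem one_mem_Dk : (1 : Matrix M M K) ∈ Dk κ L := fun u v _ _ => by
  rw [Matrix.one_mul, Matrix.mul_one]

/-- anticommuting with the letters -/
theorem anti_word {Y : Matrix M M K} : ∀ {k : ℕ} (T : Fin k → B),
    (∀ j, Y * L (T j) = -(L (T j) * Y)) → Y * P L T = (-1 : K) ^ k • (P L T * Y) := by
  intro k
  induction k with
  | zero => intro T _; rw [P_zero, Matrix.mul_one, Matrix.one_mul, pow_zero, one_smul]
  | succ k ih =>
    intro T h
    rw [P_succ, ← Matrix.mul_assoc, h 0, Matrix.neg_mul, Matrix.mul_assoc, ih _ fun j => h j.succ,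
      Matrix.mul_smul, pow_succ, mul_neg_one, neg_smul, Matrix.mul_assoc]

/-- the product of the vectors of a block -/
theorem exists_block_word [DecidableEq ι] (i : ι) : ∃ (r : ℕ) (F : Fin r → B),
    r = (univ.filter fun b => κ b = i).card ∧
    (∀ j, κ (F j) = i) ∧ ∀ w, occ F w = if κ w = i then 1 else 0 := by
  set s : Finset B := univ.filter fun b => κ b = i with hs
  set f : Fin s.card ≃ s := s.equivFin.symm with hf
  have hmem : ∀ j, κ (f j).1 = i := fun j => by
    have h9 : (f j).1 ∈ univ.filter fun b => κ b = i := (f j).2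
    exact (Finset.mem_filter.1 h9).2
  refine ⟨s.card, fun j => (f j).1, rfl, hmem, fun w => ?_⟩
  unfold occ
  split_ifs with hb
  · rw [Finset.card_eq_one]
    have hbs : w ∈ s := by rw [hs, Finset.mem_filter]; exact ⟨Finset.mem_univ _, hb⟩
    refine ⟨f.symm ⟨w, hbs⟩, ?_⟩
    ext j
    simp only [Finset.mem_filter, Finset.mem_univ, true_and, Finset.mem_singleton]
    rw [Equiv.eq_symm_apply]
    exact ⟨fun h => Subtype.ext h, fun h => by rw [h]⟩
  · rw [Finset.card_eq_zero, Finset.filter_eq_empty_iff]
    intro j _ h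
    exact hb (by rw [← h]; exact hmem j)

/-- The center of the commutant consists of the scalars if the blocks are odd. -/
theorem center_scalar [CharZero K] [DecidableEq ι] (hL : IsClifford L)
    (hodd : ∀ i, (∃ b, κ b = i) → Odd (univ.filter fun b => κ b = i).card) {x : Matrix M M K}
    (hx : x ∈ Dk κ L) (hc : ∀ d ∈ Dk κ L, x * d = d * x) : ∃ c : K, x = c • 1 := by
  -- `x` commutes with the generators
  have key : ∀ b, L b * x * L b = x := by
    intro b
    set y := x - L b * x * L b with hy
    have hyD : y ∈ Dk κ L := Submodule.sub_mem _ hx (conj_mem hL hx b)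
    have hxc : ∀ d ∈ Dk κ L, L b * x * L b * d = d * (L b * x * L b) := by
      intro d hd
      have h1 := hc _ (conj_mem hL hd b)
      have h2 : L b * x * L b * d = L b * (x * (L b * d * L b)) * L b := by
        have : L b * (x * (L b * d * L b)) * L b = L b * x * L b * d * (L b * L b) := by
          simp only [Matrix.mul_assoc]
        rw [this, hL.1, Matrix.mul_one]
      have h3 : d * (L b * x * L b) = L b * (L b * d * L b * x) * L b := by
        have : L b * (L b * d * L b * x) * L b = (L b * L b) * d * (L b * x * L b) := by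
          simp only [Matrix.mul_assoc]
        rw [this, hL.1, Matrix.one_mul]
      rw [h2, h1, h3]
    have hyc : ∀ d ∈ Dk κ L, y * d = d * y := by
      intro d hd
      rw [hy, Matrix.sub_mul, Matrix.mul_sub, hc d hd, hxc d hd]
    have hyb : L b * y * L b = -y := by
      rw [hy, Matrix.mul_sub, Matrix.sub_mul, conj_conj hL, neg_sub]
    -- anticommutes with all letters of the block
    have hanti : ∀ c, κ c = κ b → y * L c = -(L c * y) := by
      intro c hcb
      have h1 : L c * y * L c = -y := by
        by_cases h : c = b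
        · rw [h, hyb]
        · have h2 := hyD c b hcb h
          -- `y L_c L_b = L_c L_b y`
          have h3 : L c * y * L c = L b * y * L b := by
            have e1 : L c * (y * (L c * L b)) * L b = L c * (L c * L b * y) * L b := by rw [h2]
            have e2 : L c * (y * (L c * L b)) * L b = L c * y * L c * (L b * L b) := by
              simp only [Matrix.mul_assoc]
            have e3 : L c * (L c * L b * y) * L b = (L c * L c) * (L b * y * L b) := by
              simp only [Matrix.mul_assoc]
            rw [e2, e3, hL.1, hL.1, Matrix.mul_one, Matrix.one_mul] at e1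
            exact e1
          rw [h3, hyb]
      have h4 : L c * (L c * y * L c) = y * L c := by
        have : L c * (L c * y * L c) = (L c * L c) * y * L c := by
          simp only [Matrix.mul_assoc]
        rw [this, hL.1, Matrix.one_mul]
      rw [← h4, h1, Matrix.mul_neg]
    obtain ⟨r, F, hr, hF1, hF2⟩ := exists_block_word (κ := κ) (κ b)
    have hodd' : Odd r := by rw [hr]; exact hodd _ ⟨b, rfl⟩
    have h5 : y * P L F = -(P L F * y) := by
      rw [anti_word F fun j => hanti _ (hF1 j), hodd'.neg_one_pow, neg_one_smul]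
    have hFD : P L F ∈ Dk κ L := by
      intro u v hκ huv
      have h6 := P_conj hL u F
      have h7 := P_conj hL v F
      have hocc : occ F u = occ F v := by rw [hF2, hF2, hκ]
      have h8 : P L F * L u = (-1 : K) ^ (r + occ F u) • (L u * P L F) := by
        rw [h6, smul_smul, ← pow_add, Even.neg_one_pow ⟨_, rfl⟩, one_smul]
      have h9 : P L F * L v = (-1 : K) ^ (r + occ F v) • (L v * P L F) := by
        rw [h7, smul_smul, ← pow_add, Even.neg_one_pow ⟨_, rfl⟩, one_smul]
      rw [← Matrix.mul_assoc, h8, Matrix.smul_mul, Matrix.mul_assoc, h9, Matrix.mul_smul,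
        smul_smul, hocc, ← pow_add, Even.neg_one_pow ⟨_, rfl⟩, one_smul, Matrix.mul_assoc]
    have h10 := hyc _ hFD
    have h11 : P L F * y = 0 := by
      have h12 : P L F * y = -(P L F * y) := by rw [← h10]; conv_rhs => rw [h10]; rw [← h5]
      have h13 : (2 : K) • (P L F * y) = 0 := by
        rw [two_smul]
        nth_rewrite 1 [h12]
        abel
      exact (smul_eq_zero.1 h13).resolve_left two_ne_zero
    obtain ⟨w, hw⟩ := isUnit_P hL F
    have h14 : y = 0 := by
      have h15 : (↑w⁻¹ : Matrix M M K) * (P L F * y) = y := by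
        rw [← hw, ← Matrix.mul_assoc, Units.inv_mul, Matrix.one_mul]
      rw [← h15, h11, Matrix.mul_zero]
    have h16 : x - L b * x * L b = 0 := by rw [← hy]; exact h14
    exact (sub_eq_zero.1 h16).symm
  have hcomm : ∀ b, x * L b = L b * x := by
    intro b
    have h1 : L b * (L b * x * L b) = x * L b := by
      have : L b * (L b * x * L b) = (L b * L b) * x * L b := by simp only [Matrix.mul_assoc]
      rw [this, hL.1, Matrix.one_mul]
    rw [← h1, key b]
  -- `x` commutes with everything
  have hword : ∀ {k : ℕ} (T : Fin k → B), x * P L T = P L T * x := by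
    intro k
    induction k with
    | zero => intro T; rw [P_zero, Matrix.mul_one, Matrix.one_mul]
    | succ k ih =>
      intro T
      rw [P_succ, ← Matrix.mul_assoc, hcomm, Matrix.mul_assoc, ih, Matrix.mul_assoc]
  obtain ⟨d, Z, W, hZ, hW, hd⟩ := exists_dual hL
  have hall : ∀ X : Matrix M M K, x * X = X * x := by
    intro X
    obtain ⟨Y, rfl⟩ := (Eo_bij hL hZ hW hd).2 X
    rw [Eo_apply]
    simp only [Matrix.mul_sum, Matrix.sum_mul]
    refine Finset.sum_congr rfl fun k _ => Finset.sum_congr rfl fun T _ =>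
      Finset.sum_congr rfl fun a _ => ?_
    have e1 : x * (P L T * Z a) = P L T * Z a * x := by
      rw [← Matrix.mul_assoc, hword, Matrix.mul_assoc, hc _ (isEnd_of_De (hZ a)),
        ← Matrix.mul_assoc]
    rw [Matrix.mul_smul, Matrix.smul_mul, e1]
  have h1 : x ∈ Set.range (Matrix.scalar M) := by
    refine Matrix.mem_range_scalar_of_commute_single fun i j _ => ?_
    exact (hall _).symm
  obtain ⟨c, hc'⟩ := h1
  refine ⟨c, ?_⟩
  rw [← hc', Matrix.scalar_apply, ← Matrix.smul_one_eq_diagonal]

/-- If the blocks are odd every nonzero two-sided ideal of the commutant contains `1`. -/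
theorem one_mem_ideal [CharZero K] [DecidableEq ι] [Nonempty M] (hL : IsClifford L)
    (hodd : ∀ i, (∃ b, κ b = i) → Odd (univ.filter fun b => κ b = i).card)
    (I : Submodule K (Matrix M M K)) (hI1 : ∀ x ∈ I, ∀ d ∈ Dk κ L, x * d ∈ I)
    (hI2 : ∀ x ∈ I, ∀ d ∈ Dk κ L, d * x ∈ I) {x : Matrix M M K} (hx : x ∈ I) (hxD : x ∈ Dk κ L)
    (hx0 : x ≠ 0) : (1 : Matrix M M K) ∈ I := by
  obtain ⟨d, Z, W, hZ, hW, hd, hdual⟩ := exists_dual_Dk (κ := κ) hL
  have hd' : ∀ Y ∈ Dk κ L, ∑ a, (Y * Z a).trace • W a = Y := by
    intro Y hY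
    have h1 : Y - ∑ a, (Y * Z a).trace • W a = 0 := by
      refine Dk_nondeg hL (Submodule.sub_mem _ hY (Submodule.sum_mem _ fun a _ =>
        Submodule.smul_mem _ _ (hW a))) fun V hV => ?_
      rw [Matrix.sub_mul, Matrix.trace_sub, Matrix.sum_mul, Matrix.trace_sum]
      conv_lhs => rw [← hd V hV]
      rw [Matrix.mul_sum, Matrix.trace_sum, sub_eq_zero]
      refine Finset.sum_congr rfl fun a _ => ?_
      rw [Matrix.mul_smul, Matrix.trace_smul, Matrix.smul_mul, Matrix.trace_smul, hd V hV,
        smul_eq_mul, smul_eq_mul, mul_comm]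
    exact (sub_eq_zero.1 h1).symm
  -- the averages are scalars
  have hav : ∀ y ∈ Dk κ L, ∃ c : K, ∑ a, Z a * y * W a = c • 1 := by
    intro y hy
    refine center_scalar hL hodd (Submodule.sum_mem _ fun a _ =>
      mul_mem_Dk (mul_mem_Dk (hZ a) hy) (hW a)) fun e he => ?_
    have h1 : e * ∑ a, Z a * y * W a = ∑ a, ∑ b, (W b * (e * Z a)).trace • (Z b * y * W a) := by
      rw [Matrix.mul_sum]
      refine Finset.sum_congr rfl fun a _ => ?_
      have h2 := hd _ (mul_mem_Dk he (hZ a))
      have h3 : e * (Z a * y * W a) = (e * Z a) * y * W a := by simp only [Matrix.mul_assoc]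
      rw [h3, ← h2, Matrix.sum_mul, Matrix.sum_mul]
      refine Finset.sum_congr rfl fun b _ => ?_
      rw [Matrix.smul_mul, Matrix.smul_mul, h2]
    have h4 : (∑ a, Z a * y * W a) * e =
        ∑ b, ∑ a, (W b * (e * Z a)).trace • (Z b * y * W a) := by
      rw [Matrix.sum_mul]
      refine Finset.sum_congr rfl fun b _ => ?_
      have h2 := hd' _ (mul_mem_Dk (hW b) he)
      rw [Matrix.mul_assoc, ← h2, Matrix.mul_sum]
      refine Finset.sum_congr rfl fun a _ => ?_
      rw [Matrix.mul_smul, Matrix.mul_assoc (W b)]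
    rw [h1, h4, Finset.sum_comm]
  -- the Casimir element
  have hcas : ∃ c : K, ∑ a, W a * Z a = c • 1 := by
    refine center_scalar hL hodd (Submodule.sum_mem _ fun a _ => mul_mem_Dk (hW a) (hZ a))
      fun e he => ?_
    have h1 : e * ∑ a, W a * Z a = ∑ a, ∑ b, (e * W a * Z b).trace • (W b * Z a) := by
      rw [Matrix.mul_sum]
      refine Finset.sum_congr rfl fun a _ => ?_
      have h2 := hd' _ (mul_mem_Dk he (hW a))
      rw [← Matrix.mul_assoc, ← h2, Matrix.sum_mul]
      refine Finset.sum_congr rfl fun b _ => ?_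
      rw [Matrix.smul_mul, h2]
    have h4 : (∑ a, W a * Z a) * e = ∑ b, ∑ a, (e * W a * Z b).trace • (W b * Z a) := by
      rw [Matrix.sum_mul]
      refine Finset.sum_congr rfl fun b _ => ?_
      have h2 := hd _ (mul_mem_Dk (hZ b) he)
      rw [Matrix.mul_assoc, ← h2, Matrix.mul_sum]
      refine Finset.sum_congr rfl fun a _ => ?_
      rw [Matrix.mul_smul]
      congr 1
      rw [Matrix.mul_assoc e, Matrix.trace_mul_comm e, Matrix.mul_assoc]
    rw [h1, h4, Finset.sum_comm]
  obtain ⟨c, hc⟩ := hcas
  have hN : (Fintype.card M : K) ≠ 0 := by exact_mod_cast Fintype.card_ne_zero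
  have hd0 : (d : K) ≠ 0 := by
    intro h0
    have hd00 : d = 0 := by exact_mod_cast h0
    subst hd00
    have h1 := hd 1 one_mem_Dk
    rw [Finset.univ_eq_empty, Finset.sum_empty] at h1
    exact one_ne_zero h1.symm
  have hc0 : c ≠ 0 := by
    intro h0
    have h1 := congrArg Matrix.trace hc
    rw [Matrix.trace_sum] at h1
    simp only [hdual, if_true] at h1
    rw [h0, zero_smul, Matrix.trace_zero, Finset.sum_const, Finset.card_univ, Fintype.card_fin,
      nsmul_eq_mul, mul_one] at h1
    exact hd0 h1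
  -- an element with nonzero trace
  obtain ⟨e, he, hne⟩ : ∃ e ∈ Dk κ L, (x * e).trace ≠ 0 := by
    by_contra h
    push Not at h
    exact hx0 (Dk_nondeg hL hxD h)
  obtain ⟨l, hl⟩ := hav (x * e) (mul_mem_Dk hxD he)
  have h1 : l * Fintype.card M = c * (x * e).trace := by
    have h2 := congrArg Matrix.trace hl
    rw [Matrix.trace_sum, Matrix.trace_smul, Matrix.trace_one, smul_eq_mul] at h2
    rw [← h2]
    have h3 : ∀ a, (Z a * (x * e) * W a).trace = ((W a * Z a) * (x * e)).trace := fun a => by
      rw [Matrix.trace_mul_comm, Matrix.mul_assoc]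
    simp only [h3]
    rw [← Matrix.trace_sum, ← Matrix.sum_mul, hc, Matrix.smul_mul, Matrix.one_mul,
      Matrix.trace_smul, smul_eq_mul]
  have hl0 : l ≠ 0 := by
    intro h0
    rw [h0, zero_mul] at h1
    exact mul_ne_zero hc0 hne h1.symm
  have h2 : (1 : Matrix M M K) = l⁻¹ • ∑ a, Z a * (x * e) * W a := by
    rw [hl, smul_smul, inv_mul_cancel₀ hl0, one_smul]
  rw [h2]
  exact Submodule.smul_mem _ _ (Submodule.sum_mem _ fun a _ =>
    hI1 _ (hI2 _ (hI1 _ hx e he) _ (hZ a)) _ (hW a))

end Pool.Agent.R918.KS
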