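import Pool.Agent.R918.Main
import Pool.Agent.Y102.V13
import Pool.Agent.Y102.AV19

set_option autoImplicit false
set_option linter.unusedSectionVars false
set_option linter.unusedVariables false

/-!
# Full subalgebras of Lie algebras of unitary type, acting on exterior algebras
-/

open Module Function TensorProduct

noncomputable section

namespace Pool.Agent.R918

open Pool.Agent.Y102 Pool.Agent.W516.DR Pool.Agent.H204R3.GP

section gl

variable {k n : ℕ} {R : Type} [Ring R] [Algebra ℂ R]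

/-- The Lie algebra spanned by the `a b - b a` of the same colour. -/
def glC (a b : Fin k × Fin n → R) : Submodule ℂ R :=
  Submodule.span ℂ {x | ∃ σ i j, x = a (σ, i) * b (σ, j) - b (σ, j) * a (σ, i)}

end gl

variable {k n : ℕ} {U : Type} [AddCommGroup U] [Module ℂ U]
  {a b : Fin k × Fin n → Module.End ℂ U}

theorem rhoh_single (hcar : Car a b) (p q : Fin k × Fin n) :
    rhoh a b (Matrix.single p q 2) = a p * b q - b q * a p := by
  have h1 : rho a b (Matrix.single p q 2) = (2 : ℂ) • (a p * b q) :=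
    LinearMap.ext fun u => rho_single p q 2 u
  have h2 : (Matrix.single p q (2 : ℂ)).trace = if p = q then 2 else 0 := by
    by_cases h : p = q
    · subst h
      rw [if_pos rfl, Matrix.trace_single_eq_same]
    · rw [if_neg h, Matrix.trace_single_eq_of_ne _ _ _ h]
  have h3 := hcar.ab p q
  rw [rhoh_eq, h1, h2]
  by_cases h : p = q
  · subst h
    rw [if_pos rfl] at h3 ⊢
    rw [inv_mul_cancel₀ two_ne_zero, one_smul, ← h3]
    module
  · rw [if_neg h] at h3 ⊢
    rw [mul_zero, zero_smul, sub_zero]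
    have h4 : b q * a p = -(a p * b q) := by
      rw [eq_neg_iff_add_eq_zero, add_comm]
      exact h3
    rw [h4]
    module

theorem glC_iff (hcar : Car a b) (x : Module.End ℂ U) :
    x ∈ glC a b ↔ ∃ M, IsBD M ∧ x = rhoh a b M := by
  constructor
  · intro hx
    unfold glC at hx
    induction hx using Submodule.span_induction with
    | mem x hx =>
      obtain ⟨σ, i, j, rfl⟩ := hx
      refine ⟨Matrix.single (σ, i) (σ, j) 2, fun p q hpq => ?_, (rhoh_single hcar _ _).symm⟩
      rw [Matrix.single_apply, if_neg]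
      rintro ⟨rfl, rfl⟩
      exact hpq rfl
    | zero => exact ⟨0, IsBD.zero, (map_zero _).symm⟩
    | add x y _ _ hx hy =>
      obtain ⟨M, hM, rfl⟩ := hx
      obtain ⟨N, hN, rfl⟩ := hy
      exact ⟨M + N, hM.add hN, (map_add _ _ _).symm⟩
    | smul c x _ hx =>
      obtain ⟨M, hM, rfl⟩ := hx
      exact ⟨c • M, hM.smul c, (map_smul _ _ _).symm⟩
  · rintro ⟨M, hM, rfl⟩
    have h1 : M = ∑ p, ∑ q, (2⁻¹ * M p q) • Matrix.single p q (2 : ℂ) := by
      ext r s
      rw [Matrix.sum_apply, Finset.sum_eq_single r]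
      · rw [Matrix.sum_apply, Finset.sum_eq_single s]
        · rw [Matrix.smul_apply, Matrix.single_apply, if_pos ⟨rfl, rfl⟩, smul_eq_mul]
          ring
        · intro q _ hq
          rw [Matrix.smul_apply, Matrix.single_apply, if_neg (fun h => hq h.2), smul_zero]
        · intro h; exact absurd (Finset.mem_univ _) h
      · intro p _ hp
        rw [Matrix.sum_apply]
        refine Finset.sum_eq_zero fun q _ => ?_
        rw [Matrix.smul_apply, Matrix.single_apply, if_neg (fun h => hp h.1), smul_zero]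
      · intro h; exact absurd (Finset.mem_univ _) h
    rw [h1, map_sum]
    refine Submodule.sum_mem _ fun p _ => ?_
    rw [map_sum]
    refine Submodule.sum_mem _ fun q _ => ?_
    rw [map_smul]
    by_cases hpq : p.1 = q.1
    · refine Submodule.smul_mem _ _ (Submodule.subset_span ⟨p.1, p.2, q.2, ?_⟩)
      have hq : ((p.1, q.2) : Fin k × Fin n) = q := Prod.ext hpq rfl
      rw [hq]
      exact rhoh_single hcar p q
    · rw [hM p q hpq, mul_zero, zero_smul]
      exact Submodule.zero_mem _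

section AV

variable {g : ℕ} {A : AbVar g} {𝔥 : Submodule ℚ (Module.End ℚ A.H1)}

/-- a Lie algebra of unitary type acting on exterior algebras, up to the centre -/
theorem full_unitary (h : A.Full 𝔥) (hn : Even n)
    {a b : Fin k × Fin n → Module.End ℂ (ℂ ⊗[ℚ] A.H1)} (hcar : Car a b)
    (hl : cx A.NA ≤ glC a b)
    (hgen : ∀ σ i j, a (σ, i) * b (σ, j) ∈ Algebra.adjoin ℂ (cx A.NA : Set _)) :
    (∀ X ∈ A.NA, ∀ Y ∈ A.NA, X * Y - Y * X ∈ 𝔥) ∧ (k = 1 → A.NA ≤ 𝔥) := by
  rcases subsingleton_or_nontrivial (ℂ ⊗[ℚ] A.H1) with hs | hnt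
  · have h0 : ∀ X : Module.End ℚ A.H1, X ∈ 𝔥 := by
      intro X
      refine mem_of_bc ?_
      have : X.baseChange ℂ = 0 := by
        ext x
        exact Subsingleton.elim _ _
      rw [this]
      exact Submodule.zero_mem _
    exact ⟨fun X _ Y _ => h0 _, fun _ X _ => h0 X⟩
  have hle : ∀ x ∈ cx 𝔥, ∃ M, IsBD M ∧ x = rhoh a b M := fun x hx =>
    (glC_iff hcar x).1 (hl (cx_mono h.le hx))
  have hgen' : ∀ σ i j, a (σ, i) * b (σ, j) ∈ Algebra.adjoin ℂ (cx 𝔥 : Set _) := by
    intro σ i j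
    have h1 : Algebra.adjoin ℂ (cx A.NA : Set (Module.End ℂ (ℂ ⊗[ℚ] A.H1))) ≤
        Algebra.adjoin ℂ (cx 𝔥 : Set (Module.End ℂ (ℂ ⊗[ℚ] A.H1))) :=
      Algebra.adjoin_le fun x hx => h.cx_adjoin x hx
    exact h1 (hgen σ i j)
  constructor
  · intro X hX Y hY
    refine mem_of_bc ?_
    rw [bc_br]
    obtain ⟨M, hM, h1⟩ := (glC_iff hcar _).1 (hl (bc_mem hX))
    obtain ⟨N, hN, h2⟩ := (glC_iff hcar _).1 (hl (bc_mem hY))
    rw [h1, h2]
    exact bracket_mem hcar hn hle h.cx_br' hgen' hM hN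
  · intro hk X hX
    refine mem_of_bc ?_
    obtain ⟨M, hM, h1⟩ := (glC_iff hcar _).1 (hl (bc_mem hX))
    rw [h1]
    exact one_block hk hcar hn hle h.cx_br' hgen' M

/-- the same in terms of matrices -/
theorem full_unitary' (h : A.Full 𝔥) (hn : Even n)
    {a b : Fin k × Fin n → Matrix (Fin (2 * g)) (Fin (2 * g)) ℂ}
    (haa : ∀ p q, a p * a q = -(a q * a p)) (hbb : ∀ p q, b p * b q = -(b q * b p))
    (hab : ∀ p q, a p * b q + b q * a p = if p = q then 1 else 0)
    (hl : Submodule.span ℂ {Y | ∃ X ∈ A.NA, Y = toC X} ≤ glC a b)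
    (hgen : ∀ σ i j, a (σ, i) * b (σ, j) ∈
      Algebra.adjoin ℂ (Submodule.span ℂ {Y | ∃ X ∈ A.NA, Y = toC X} : Set _)) :
    (∀ X ∈ A.NA, ∀ Y ∈ A.NA, X * Y - Y * X ∈ 𝔥) ∧ (k = 1 → A.NA ≤ 𝔥) := by
  refine full_unitary h hn (a := fun p => matE (2 * g) (a p)) (b := fun p => matE (2 * g) (b p))
    ⟨fun p q => ?_, fun p q => ?_, fun p q => ?_⟩ ?_ ?_
  · rw [← map_mul, haa p q, map_neg, map_mul]
  · rw [← map_mul, hbb p q, map_neg, map_mul]
  · rw [← map_mul, ← map_mul, ← map_add, hab p q]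
    split_ifs
    · exact map_one _
    · exact map_zero _
  · rw [← map_lie]
    refine (Submodule.map_mono hl).trans ?_
    unfold glC
    rw [Submodule.map_span]
    refine Submodule.span_mono ?_
    rintro _ ⟨_, ⟨σ, i, j, rfl⟩, rfl⟩
    refine ⟨σ, i, j, ?_⟩
    change matE (2 * g) _ = _
    rw [map_sub, map_mul, map_mul]
  · intro σ i j
    rw [← map_lie, ← map_mul]
    have h1 : ∀ x ∈ Algebra.adjoin ℂ
        (Submodule.span ℂ {Y | ∃ X ∈ A.NA, Y = toC X} : Set (Matrix (Fin (2 * g)) (Fin (2 * g)) ℂ)),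
        matE (2 * g) x ∈ Algebra.adjoin ℂ ((Submodule.span ℂ {Y | ∃ X ∈ A.NA, Y = toC X}).map
          (matE (2 * g)).toLinearMap : Set (Module.End ℂ (ℂ ⊗[ℚ] A.H1))) := by
      intro x hx
      induction hx using Algebra.adjoin_induction with
      | mem x hx => exact Algebra.subset_adjoin ⟨x, hx, rfl⟩
      | algebraMap r =>
        rw [AlgEquiv.commutes]
        exact Subalgebra.algebraMap_mem _ r
      | add x y _ _ hx hy => rw [map_add]; exact Subalgebra.add_mem _ hx hy
      | mul x y _ _ hx hy => rw [map_mul]; exact Subalgebra.mul_mem _ hx hy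
    exact h1 _ (hgen σ i j)

/-- Classes in all tensor powers, if the classes in the even tensor powers are Hodge classes. -/
theorem hodge_all_of (hA : ∀ (m : ℕ) (φ : MultilinearMap ℚ (fun _ : Fin m × Fin 2 => A.H1) ℚ),
      IsDeRhamBettiForm QBar A.dR tau m φ → IsHodgeTensor (A.per : A.H1 →+ (Fin g → ℂ)) φ)
    {r : ℕ} {w : ℤ} {c : (Fin r → Fin g ⊕ Fin g) → QBar}
    {φ : MultilinearMap ℚ (fun _ : Fin r => A.H1) ℚ} (h : Compat A.dR tau w c φ) :
    IsHodgeTensor (A.per : A.H1 →+ (Fin g → ℂ)) φ := by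
  by_cases hφ : φ = 0
  · subst hφ
    refine ⟨0, fun v => ?_, fun z _ u => ?_⟩
    · rw [MultilinearMap.zero_apply, MultilinearMap.zero_apply, Rat.cast_zero]
    · rw [MultilinearMap.zero_apply, MultilinearMap.zero_apply]
  have hw := A.weight h hφ
  rw [Fintype.card_fin] at hw
  obtain ⟨m, rfl⟩ : ∃ m : ℕ, w = m := ⟨w.toNat, by omega⟩
  have hr : r = m * 2 := by omega
  subst hr
  let e : Fin (m * 2) ≃ Fin m × Fin 2 := finProdFinEquiv.symm
  have h1 := (Compat.reindex e).2 h
  have h2 : IsDeRhamBettiForm QBar A.dR tau m (φ.domDomCongr e) := by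
    refine ⟨fun J => c (J ∘ e), fun v => ?_⟩
    have h3 := h1 v
    rw [zpow_natCast] at h3
    exact h3
  exact A.hodge_reindex e (hA m _ h2)

end AV

end Pool.Agent.R918

end
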