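import Pool.Agent.R918.Core
import Pool.Agent.Y102.SP.Kil

set_option autoImplicit false
set_option linter.unusedSectionVars false
set_option linter.unusedVariables false

/-!
# The Lie algebra of matrices attached to a Lie algebra of operators on the Fock space
-/

open Module

namespace Pool.Agent.R918

variable {k n : ℕ}

/-- block diagonal matrices -/
def IsBD (M : Matrix (Fin k × Fin n) (Fin k × Fin n) ℂ) : Prop := ∀ p q, p.1 ≠ q.1 → M p q = 0

/-- the unit matrix of a block -/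
def pj (k n : ℕ) (σ : Fin k) : Matrix (Fin k × Fin n) (Fin k × Fin n) ℂ :=
  Matrix.diagonal fun p => if p.1 = σ then 1 else 0

/-- the trace of a block -/
noncomputable def btr (σ : Fin k) :
    Matrix (Fin k × Fin n) (Fin k × Fin n) ℂ →ₗ[ℂ] ℂ :=
  Matrix.traceLinearMap _ ℂ ℂ ∘ₗ LinearMap.mulLeft ℂ (pj k n σ)

theorem btr_eq (σ : Fin k) (M : Matrix (Fin k × Fin n) (Fin k × Fin n) ℂ) :
    btr σ M = (pj k n σ * M).trace := rfl

theorem IsBD.add {M N : Matrix (Fin k × Fin n) (Fin k × Fin n) ℂ} (h : IsBD M) (h' : IsBD N) :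
    IsBD (M + N) := fun p q hpq => by rw [Matrix.add_apply, h p q hpq, h' p q hpq, add_zero]

theorem IsBD.smul {M : Matrix (Fin k × Fin n) (Fin k × Fin n) ℂ} (c : ℂ) (h : IsBD M) :
    IsBD (c • M) := fun p q hpq => by rw [Matrix.smul_apply, h p q hpq, smul_zero]

theorem IsBD.zero : IsBD (0 : Matrix (Fin k × Fin n) (Fin k × Fin n) ℂ) := fun _ _ _ => rfl

theorem IsBD.sub {M N : Matrix (Fin k × Fin n) (Fin k × Fin n) ℂ} (h : IsBD M) (h' : IsBD N) :
    IsBD (M - N) := fun p q hpq => by rw [Matrix.sub_apply, h p q hpq, h' p q hpq, sub_zero]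

theorem IsBD.mul {M N : Matrix (Fin k × Fin n) (Fin k × Fin n) ℂ} (h : IsBD M) (h' : IsBD N) :
    IsBD (M * N) := fun p q hpq => by
  rw [Matrix.mul_apply]
  refine Finset.sum_eq_zero fun r _ => ?_
  by_cases hr : p.1 = r.1
  · rw [h' r q (by rw [← hr]; exact hpq), mul_zero]
  · rw [h p r hr, zero_mul]

theorem isBD_diagonal (d : Fin k × Fin n → ℂ) : IsBD (Matrix.diagonal d) := fun p q hpq =>
  Matrix.diagonal_apply_ne _ fun h => hpq (by rw [h])

theorem isBD_pj (σ : Fin k) : IsBD (pj k n σ) := isBD_diagonal _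

theorem pj_comm (σ : Fin k) {M : Matrix (Fin k × Fin n) (Fin k × Fin n) ℂ} (h : IsBD M) :
    pj k n σ * M = M * pj k n σ := by
  ext p q
  unfold pj
  rw [Matrix.diagonal_mul, Matrix.mul_diagonal]
  by_cases hpq : p.1 = q.1
  · rw [hpq, mul_comm]
  · rw [h p q hpq, mul_zero, zero_mul]

theorem btr_comm (σ : Fin k) {M N : Matrix (Fin k × Fin n) (Fin k × Fin n) ℂ} (h : IsBD M)
    (h' : IsBD N) : btr σ (M * N) = btr σ (N * M) := by
  rw [btr_eq, btr_eq, ← mul_assoc, pj_comm σ h, mul_assoc, Matrix.trace_mul_comm, mul_assoc]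

theorem btr_pj (σ τ : Fin k) : btr σ (pj k n τ) = if σ = τ then (n : ℂ) else 0 := by
  rw [btr_eq]
  unfold pj
  rw [Matrix.diagonal_mul_diagonal, Matrix.trace_diagonal, Fintype.sum_prod_type]
  have h1 : ∀ τ' : Fin k, ∑ i : Fin n, ((if ((τ', i) : Fin k × Fin n).1 = σ then (1 : ℂ) else 0) *
      if ((τ', i) : Fin k × Fin n).1 = τ then 1 else 0) =
      if τ' = σ then (if σ = τ then (n : ℂ) else 0) else 0 := by
    intro τ'
    by_cases h : τ' = σ
    · subst h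
      by_cases h2 : τ' = τ
      · simp [h2]
      · simp [h2]
    · simp [h]
  rw [Finset.sum_congr rfl fun τ' _ => h1 τ', Finset.sum_ite_eq', if_pos (Finset.mem_univ _)]

/-- the traceless part -/
noncomputable def prj (k n : ℕ) : Matrix (Fin k × Fin n) (Fin k × Fin n) ℂ →ₗ[ℂ]
    Matrix (Fin k × Fin n) (Fin k × Fin n) ℂ :=
  LinearMap.id - ∑ σ, ((n : ℂ)⁻¹ • btr σ).smulRight (pj k n σ)

theorem prj_eq (M : Matrix (Fin k × Fin n) (Fin k × Fin n) ℂ) :
    prj k n M = M - ∑ σ, ((n : ℂ)⁻¹ * btr σ M) • pj k n σ := by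
  unfold prj
  rw [LinearMap.sub_apply, LinearMap.sum_apply]
  rfl

theorem isBD_sum {ι : Type} (s : Finset ι) (f : ι → Matrix (Fin k × Fin n) (Fin k × Fin n) ℂ)
    (h : ∀ i ∈ s, IsBD (f i)) : IsBD (∑ i ∈ s, f i) := by
  intro p q hpq
  rw [Matrix.sum_apply]
  exact Finset.sum_eq_zero fun i hi => h i hi p q hpq

theorem isBD_corr (M : Matrix (Fin k × Fin n) (Fin k × Fin n) ℂ) :
    IsBD (∑ σ, ((n : ℂ)⁻¹ * btr σ M) • pj k n σ) :=
  isBD_sum _ _ fun σ _ => (isBD_pj σ).smul _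

theorem IsBD.prj {M : Matrix (Fin k × Fin n) (Fin k × Fin n) ℂ} (h : IsBD M) :
    IsBD (prj k n M) := by
  rw [prj_eq]
  exact h.sub (isBD_corr M)

theorem btr_prj (hn : 0 < n) (σ : Fin k) (M : Matrix (Fin k × Fin n) (Fin k × Fin n) ℂ) :
    btr σ (prj k n M) = 0 := by
  rw [prj_eq, map_sub, map_sum]
  have h1 : ∀ τ, btr σ (((n : ℂ)⁻¹ * btr τ M) • pj k n τ) = if σ = τ then btr σ M else 0 := by
    intro τ
    rw [map_smul, btr_pj, smul_eq_mul]
    by_cases h : σ = τ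
    · subst h
      rw [if_pos rfl, if_pos rfl]
      have hn0 : (n : ℂ) ≠ 0 := by exact_mod_cast hn.ne'
      field_simp
    · rw [if_neg h, if_neg h, mul_zero]
  rw [Finset.sum_congr rfl fun τ _ => h1 τ, Finset.sum_ite_eq, if_pos (Finset.mem_univ _), sub_self]

theorem corr_comm (M : Matrix (Fin k × Fin n) (Fin k × Fin n) ℂ)
    {N : Matrix (Fin k × Fin n) (Fin k × Fin n) ℂ} (h : IsBD N) :
    (∑ σ, ((n : ℂ)⁻¹ * btr σ M) • pj k n σ) * N = N * ∑ σ, ((n : ℂ)⁻¹ * btr σ M) • pj k n σ := by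
  rw [Finset.sum_mul, Finset.mul_sum]
  refine Finset.sum_congr rfl fun σ _ => ?_
  rw [smul_mul_assoc, mul_smul_comm, pj_comm σ h]

theorem prj_bracket {M N : Matrix (Fin k × Fin n) (Fin k × Fin n) ℂ} (h : IsBD M) (h' : IsBD N) :
    prj k n M * prj k n N - prj k n N * prj k n M = M * N - N * M := by
  rw [prj_eq, prj_eq]
  have h1 := corr_comm M h'
  have h2 := corr_comm N h
  have h3 := corr_comm M (isBD_corr N)
  rw [sub_mul, mul_sub, mul_sub, sub_mul, mul_sub, mul_sub, h1, h2, h3]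
  abel

theorem btr_bracket (σ : Fin k) {M N : Matrix (Fin k × Fin n) (Fin k × Fin n) ℂ} (h : IsBD M)
    (h' : IsBD N) : btr σ (M * N - N * M) = 0 := by
  rw [map_sub, btr_comm σ h h', sub_self]

theorem prj_of_traceless {M : Matrix (Fin k × Fin n) (Fin k × Fin n) ℂ}
    (h : ∀ σ, btr σ M = 0) : prj k n M = M := by
  rw [prj_eq, Finset.sum_eq_zero fun σ _ => by rw [h σ, mul_zero, zero_smul], sub_zero]

variable {U : Type} [AddCommGroup U] [Module ℂ U]

/-- the action of matrices, normalized symmetrically -/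
noncomputable def rhoh (a b : Fin k × Fin n → Module.End ℂ U) :
    Matrix (Fin k × Fin n) (Fin k × Fin n) ℂ →ₗ[ℂ] Module.End ℂ U :=
  rho a b - (2⁻¹ : ℂ) • (Matrix.traceLinearMap (Fin k × Fin n) ℂ ℂ).smulRight 1

variable {a b : Fin k × Fin n → Module.End ℂ U}

theorem rhoh_eq (M : Matrix (Fin k × Fin n) (Fin k × Fin n) ℂ) :
    rhoh a b M = rho a b M - (2⁻¹ * M.trace) • 1 := by
  unfold rhoh
  rw [LinearMap.sub_apply, LinearMap.smul_apply, LinearMap.smulRight_apply, smul_smul]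
  rfl

theorem rhoh_bracket (h : Car a b) (M N : Matrix (Fin k × Fin n) (Fin k × Fin n) ℂ) :
    rhoh a b (M * N - N * M) = rhoh a b M * rhoh a b N - rhoh a b N * rhoh a b M := by
  rw [rhoh_eq, rhoh_eq, rhoh_eq, rho_bracket h, Matrix.trace_sub, Matrix.trace_mul_comm N M,
    sub_self, mul_zero, zero_smul, sub_zero]
  simp only [sub_mul, mul_sub, smul_mul_assoc, mul_smul_comm, one_mul, mul_one]
  module

/-- the Lie algebra of matrices attached to `𝔥` -/
noncomputable def mm (a b : Fin k × Fin n → Module.End ℂ U) (𝔥 : Submodule ℂ (Module.End ℂ U)) :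
    Submodule ℂ (Matrix (Fin k × Fin n) (Fin k × Fin n) ℂ) where
  carrier := {M | IsBD M ∧ rhoh a b M ∈ 𝔥}
  zero_mem' := ⟨IsBD.zero, by rw [map_zero]; exact 𝔥.zero_mem⟩
  add_mem' h h' := ⟨h.1.add h'.1, by rw [map_add]; exact 𝔥.add_mem h.2 h'.2⟩
  smul_mem' c _ h := ⟨h.1.smul c, by rw [map_smul]; exact 𝔥.smul_mem c h.2⟩

/-- the traceless parts -/
noncomputable def LL (a b : Fin k × Fin n → Module.End ℂ U) (𝔥 : Submodule ℂ (Module.End ℂ U)) :
    Submodule ℂ (Matrix (Fin k × Fin n) (Fin k × Fin n) ℂ) := (mm a b 𝔥).map (prj k n)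

theorem LL_bd {𝔥 : Submodule ℂ (Module.End ℂ U)} {x : Matrix (Fin k × Fin n) (Fin k × Fin n) ℂ}
    (hx : x ∈ LL a b 𝔥) : IsBD x := by
  obtain ⟨M, hM, rfl⟩ := hx
  exact hM.1.prj

theorem LL_btr (hn : 0 < n) {𝔥 : Submodule ℂ (Module.End ℂ U)}
    {x : Matrix (Fin k × Fin n) (Fin k × Fin n) ℂ} (hx : x ∈ LL a b 𝔥) (σ : Fin k) :
    btr σ x = 0 := by
  obtain ⟨M, hM, rfl⟩ := hx
  exact btr_prj hn σ M

theorem LL_br (h : Car a b) {𝔥 : Submodule ℂ (Module.End ℂ U)}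
    (hbr : ∀ x ∈ 𝔥, ∀ y ∈ 𝔥, x * y - y * x ∈ 𝔥)
    {x y : Matrix (Fin k × Fin n) (Fin k × Fin n) ℂ} (hx : x ∈ LL a b 𝔥) (hy : y ∈ LL a b 𝔥) :
    x * y - y * x ∈ LL a b 𝔥 ∧ rho a b (x * y - y * x) ∈ 𝔥 := by
  obtain ⟨M, hM, rfl⟩ := hx
  obtain ⟨N, hN, rfl⟩ := hy
  rw [prj_bracket hM.1 hN.1]
  have h1 : rhoh a b (M * N - N * M) ∈ 𝔥 := by
    rw [rhoh_bracket h]
    exact hbr _ hM.2 _ hN.2
  have h2 : IsBD (M * N - N * M) := (hM.1.mul hN.1).sub (hN.1.mul hM.1)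
  constructor
  · refine ⟨M * N - N * M, ⟨h2, h1⟩, ?_⟩
    exact prj_of_traceless fun σ => btr_bracket σ hM.1 hN.1
  · rw [rhoh_eq, Matrix.trace_sub, Matrix.trace_mul_comm N M, sub_self, mul_zero, zero_smul,
      sub_zero] at h1
    exact h1

/-- stability under `L` and the particle numbers implies stability under `𝔥` -/
theorem stable_h {𝔥 : Submodule ℂ (Module.End ℂ U)}
    (hle : ∀ x ∈ 𝔥, ∃ M, IsBD M ∧ x = rhoh a b M)
    (gen : ∀ σ i j, a (σ, i) * b (σ, j) ∈ Algebra.adjoin ℂ (𝔥 : Set (Module.End ℂ U)))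
    (P : Submodule ℂ U) (hP : ∀ x ∈ LL a b 𝔥, ∀ u ∈ P, rho a b x u ∈ P)
    (hN : ∀ σ, ∀ u ∈ P, rho a b (pj k n σ) u ∈ P) :
    ∀ σ i j, ∀ u ∈ P, a (σ, i) (b (σ, j) u) ∈ P := by
  have h1 : ∀ x ∈ (𝔥 : Set (Module.End ℂ U)), ∀ u ∈ P, x u ∈ P := by
    intro x hx u hu
    obtain ⟨M, hM, rfl⟩ := hle x hx
    have h2 : prj k n M ∈ LL a b 𝔥 := ⟨M, ⟨hM, hx⟩, rfl⟩
    have h3 : M = prj k n M + ∑ σ, ((n : ℂ)⁻¹ * btr σ M) • pj k n σ := by
      rw [prj_eq]; abel
    have h4 : rhoh a b M u = rho a b (prj k n M) u +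
        (∑ σ, ((n : ℂ)⁻¹ * btr σ M) • rho a b (pj k n σ) u) - (2⁻¹ * M.trace) • u := by
      rw [rhoh_eq, LinearMap.sub_apply, LinearMap.smul_apply, Module.End.one_apply]
      congr 1
      conv_lhs => rw [h3]
      rw [map_add, LinearMap.add_apply, map_sum, LinearMap.sum_apply]
      congr 1
      exact Finset.sum_congr rfl fun σ _ => by rw [map_smul, LinearMap.smul_apply]
    rw [h4]
    exact P.sub_mem (P.add_mem (hP _ h2 u hu) (P.sum_mem fun σ _ => P.smul_mem _ (hN σ u hu)))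
      (P.smul_mem _ hu)
  intro σ i j u hu
  exact Pool.Agent.Y102.SP.kil_adj _ P h1 _ (gen σ i j) u hu

/-- The blocks are irreducible. -/
theorem block_irr [Nontrivial U] (hcar : Car a b) {𝔥 : Submodule ℂ (Module.End ℂ U)}
    (hle : ∀ x ∈ 𝔥, ∃ M, IsBD M ∧ x = rhoh a b M)
    (gen : ∀ σ i j, a (σ, i) * b (σ, j) ∈ Algebra.adjoin ℂ (𝔥 : Set (Module.End ℂ U)))
    (σ : Fin k) (P : Submodule ℂ (Fin k × Fin n → ℂ)) (hPσ : ∀ w ∈ P, ∀ p, p.1 ≠ σ → w p = 0)
    (hP : ∀ x ∈ LL a b 𝔥, ∀ w ∈ P, x.mulVec w ∈ P) (hP0 : P ≠ ⊥) (i : Fin n) :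
    Pi.single (σ, i) 1 ∈ P := by
  obtain ⟨u, hu0, hu⟩ := hcar.exists_vac ∅
  have hbu : ∀ p, b p u = 0 := fun p => hu.2 p (Finset.notMem_empty p)
  let A : (Fin k × Fin n → ℂ) →ₗ[ℂ] U :=
    { toFun := fun w => ∑ p, w p • a p u
      map_add' := fun v w => by
        simp only [Pi.add_apply, add_smul, Finset.sum_add_distrib]
      map_smul' := fun c w => by
        simp only [Pi.smul_apply, smul_eq_mul, mul_smul, Finset.smul_sum, RingHom.id_apply] }
  have hA : ∀ w, A w = ∑ p, w p • a p u := fun w => rfl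
  have hbA : ∀ q w, b q (A w) = w q • u := by
    intro q w
    rw [hA, map_sum, Finset.sum_eq_single q]
    · rw [map_smul, hcar.ba_of_b (hbu q)]
    · intro p _ hp
      have h1 := hcar.abne hp u
      rw [hbu, map_zero] at h1
      rw [map_smul, neg_eq_zero.1 h1.symm, smul_zero]
    · intro h; exact absurd (Finset.mem_univ _) h
  have hrho : ∀ M w, rho a b M (A w) = A (M.mulVec w) := by
    intro M w
    rw [rho_apply, hA (M.mulVec w)]
    refine Finset.sum_congr rfl fun p _ => ?_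
    rw [Matrix.mulVec, dotProduct, Finset.sum_smul]
    refine Finset.sum_congr rfl fun q _ => ?_
    rw [hbA, map_smul, smul_smul]
  have hpj : ∀ τ, ∀ w ∈ P, (pj k n τ).mulVec w ∈ P := by
    intro τ w hw
    have h1 : (pj k n τ).mulVec w = (if σ = τ then (1 : ℂ) else 0) • w := by
      ext p
      unfold pj
      rw [Matrix.mulVec_diagonal, Pi.smul_apply, smul_eq_mul]
      by_cases hp : p.1 = σ
      · rw [hp]
      · rw [hPσ w hw p hp, mul_zero, mul_zero]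
    rw [h1]
    exact P.smul_mem _ hw
  have h1 := stable_h hle gen (P.map A)
    (by
      rintro x hx _ ⟨w, hw, rfl⟩
      rw [hrho]
      exact ⟨_, hP x hx w hw, rfl⟩)
    (by
      rintro τ _ ⟨w, hw, rfl⟩
      rw [hrho]
      exact ⟨_, hpj τ w hw, rfl⟩)
  obtain ⟨w, hw, hw0⟩ := (Submodule.ne_bot_iff P).1 hP0
  obtain ⟨p, hp⟩ : ∃ p, w p ≠ 0 := by
    by_contra hcon
    push Not at hcon
    exact hw0 (funext hcon)
  have hpσ : p.1 = σ := by
    by_contra h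
    exact hp (hPσ w hw p h)
  have h2 := h1 σ i p.2 (A w) ⟨w, hw, rfl⟩
  have hpe : (σ, p.2) = p := Prod.ext hpσ.symm rfl
  rw [hpe, hbA, map_smul] at h2
  obtain ⟨w', hw', h3⟩ := h2
  have h4 : w' = w p • Pi.single (σ, i) 1 := by
    ext q
    have h5 := congrArg (b q) h3
    rw [hbA, map_smul] at h5
    rw [Pi.smul_apply, smul_eq_mul]
    by_cases hq : q = (σ, i)
    · subst hq
      rw [hcar.ba_of_b (hbu _)] at h5
      rw [Pi.single_eq_same, mul_one]
      exact smul_left_injective ℂ hu0 h5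
    · have h6 := hcar.abne (Ne.symm hq) u
      rw [hbu, map_zero] at h6
      rw [neg_eq_zero.1 h6.symm, smul_zero] at h5
      rw [Pi.single_eq_of_ne hq, mul_zero]
      exact (smul_eq_zero.1 h5).resolve_right hu0
  have h5 : Pi.single (σ, i) 1 = (w p)⁻¹ • w' := by
    rw [h4, smul_smul, inv_mul_cancel₀ hp, one_smul]
  rw [h5]
  exact P.smul_mem _ hw'

end Pool.Agent.R918
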