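import Mathlib

set_option autoImplicit false
set_option linter.unusedSectionVars false
set_option linter.unusedVariables false

/-!
# A lemma on words: the word of the simple roots
-/

namespace Pool.Agent.R918

variable {X : Type}

/-- the number attached to a letter and a place -/
noncomputable def cc (w : ℕ → Option X) (β : X) (l : ℕ) : ℕ :=
  open Classical in
  if w l = some β then (if w (l + 1) = some β ∨ (1 ≤ l ∧ w (l - 1) = some β) then 2 else 1) else 0

/-- words of length `m` -/
structure Word (w : ℕ → Option X) (m : ℕ) : Prop where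
  zero : w 0 = none
  big : ∀ l, m < l → w l = none
  mid : ∀ l, 1 ≤ l → l ≤ m → ∃ x, w l = some x
  F : ∀ l x, w l = some x → w (l + 2) ≠ some x

theorem cc_pos {w : ℕ → Option X} {β : X} {l : ℕ} : 0 < cc w β l ↔ w l = some β := by
  classical
  unfold cc
  split_ifs with h1 h2
  · simp [h1]
  · simp [h1]
  · simp [h1]

theorem cc_zero {w : ℕ → Option X} {β : X} {l : ℕ} (h : w l ≠ some β) : cc w β l = 0 := by
  by_contra h1
  exact h (cc_pos.1 (Nat.pos_of_ne_zero h1))

theorem cc_two {w : ℕ → Option X} {β : X} {l : ℕ} (h : cc w β l = 2) :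
    w (l + 1) = some β ∨ (1 ≤ l ∧ w (l - 1) = some β) := by
  classical
  unfold cc at h
  split_ifs at h with h1 h2
  · exact h2
  · omega

theorem cc_le {w : ℕ → Option X} {β : X} {l : ℕ} : cc w β l ≤ 2 := by
  classical
  unfold cc
  split_ifs <;> omega

theorem cc_two_left {w : ℕ → Option X} {β : X} {l : ℕ} (h : w l = some β)
    (h1 : w (l + 1) = some β) : cc w β l = 2 := by
  classical
  unfold cc
  rw [if_pos h, if_pos (Or.inl h1)]

theorem cc_two_right {w : ℕ → Option X} {β : X} {l : ℕ} (h : w l = some β)
    (h1 : w (l + 1) = some β) : cc w β (l + 1) = 2 := by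
  classical
  unfold cc
  rw [if_pos h1, if_pos (Or.inr ⟨by omega, by rw [Nat.add_sub_cancel]; exact h⟩)]

/-- The numbers are determined by the equations. -/
theorem z_eq {w : ℕ → Option X} {m : ℕ} (hw : Word w m) {β : X} {z : ℕ → ℂ}
    (zs : ∀ l, w l ≠ some β → z l = 0)
    (zp : ∀ l, w (l + 1) = some β → 2 * z (l + 1) - z l - z (l + 2) = 2) (l : ℕ) :
    z l = cc w β l := by
  by_cases h : w l = some β
  · obtain ⟨i, rfl⟩ : ∃ i, l = i + 1 := by
      refine ⟨l - 1, ?_⟩
      rcases Nat.eq_zero_or_pos l with h0 | h0
      · rw [h0, hw.zero] at h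
        exact absurd h (by simp)
      · omega
    have h1 := zp i h
    by_cases hr : w (i + 2) = some β
    · have h2 := zp (i + 1) hr
      have h3 : z i = 0 := zs i fun h3 => hw.F i β h3 hr
      have h4 : z (i + 1 + 2) = 0 := zs _ (hw.F (i + 1) β h)
      rw [cc_two_left h hr]
      rw [h3] at h1
      rw [h4] at h2
      push_cast
      linear_combination (2 / 3) * h1 + (1 / 3) * h2
    · have h2 : z (i + 2) = 0 := zs _ hr
      by_cases hl : w i = some β
      · obtain ⟨j, rfl⟩ : ∃ j, i = j + 1 := by
          refine ⟨i - 1, ?_⟩
          rcases Nat.eq_zero_or_pos i with h0 | h0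
          · rw [h0, hw.zero] at hl
            exact absurd hl (by simp)
          · omega
        have h3 := zp j hl
        have h4 : z j = 0 := zs j fun h3 => hw.F j β h3 h
        rw [cc_two_right hl h]
        rw [h4] at h3
        rw [h2] at h1
        push_cast
        linear_combination (2 / 3) * h1 + (1 / 3) * h3
      · have h3 : z i = 0 := zs i hl
        have h4 : cc w β (i + 1) = 1 := by
          classical
          unfold cc
          rw [if_pos h, if_neg]
          rintro (h5 | ⟨-, h5⟩)
          · exact hr h5
          · rw [Nat.add_sub_cancel] at h5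
            exact hl h5
        rw [h4]
        rw [h2, h3] at h1
        push_cast
        linear_combination (1 / 2) * h1
  · rw [zs l h, cc_zero h, Nat.cast_zero]

/-- If a letter occurs twice then there are two equal adjacent letters. -/
theorem adjacent {w : ℕ → Option X} {m : ℕ} (hw : Word w m)
    (P : ∀ l l' x β, w (l + 1) = some x → w (l' + 1) = some x → β ≠ x →
      cc w β l + cc w β (l + 2) = cc w β l' + cc w β (l' + 2)) :
    ∀ D : ℕ, ∀ r i x, 1 ≤ D → w i = some x → w (i + D) = some x → m ≤ r + (i + D) →
      ∃ j y, w j = some y ∧ w (j + 1) = some y := by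
  intro D
  induction D using Nat.strong_induction_on with
  | _ D ihD =>
    intro r
    induction r with
    | zero =>
      intro i x hD hi hj hr
      rcases Nat.lt_or_ge D 2 with h1 | h1
      · have : D = 1 := by omega
        subst this
        exact ⟨i, x, hi, hj⟩
      rcases Nat.lt_or_ge D 3 with h2 | h2
      · have : D = 2 := by omega
        subst this
        exact absurd hj (hw.F i x hi)
      have hi1 : 1 ≤ i := by
        rcases Nat.eq_zero_or_pos i with h0 | h0
        · rw [h0, hw.zero] at hi
          exact absurd hi (by simp)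
        · exact h0
      have hjm : i + D ≤ m := by
        by_contra h
        rw [hw.big _ (not_le.1 h)] at hj
        exact absurd hj (by simp)
      obtain ⟨β, hβ⟩ := hw.mid (i + 1) (by omega) (by omega)
      by_cases hβx : β = x
      · subst hβx
        exact ⟨i, β, hi, hβ⟩
      have h3 := P (i - 1) (i + D - 1) x β (by rw [Nat.sub_add_cancel hi1]; exact hi)
        (by rw [Nat.sub_add_cancel (by omega)]; exact hj) hβx
      have h4 : i - 1 + 2 = i + 1 := by omega
      have h5 : i + D - 1 + 2 = i + D + 1 := by omega
      rw [h4, h5] at h3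
      have h6 := cc_pos.2 hβ
      have h7 : cc w β (i + D + 1) = 0 := cc_zero (by
        rw [hw.big _ (by omega)]
        simp)
      have h8 : 0 < cc w β (i + D - 1) := by omega
      have h9 := cc_pos.1 h8
      have h10 : i + D - 1 = i + 1 + (D - 2) := by omega
      rw [h10] at h9
      exact ihD (D - 2) (by omega) m (i + 1) β (by omega) hβ h9 (by omega)
    | succ r ihr =>
      intro i x hD hi hj hr
      rcases Nat.lt_or_ge D 2 with h1 | h1
      · have : D = 1 := by omega
        subst this
        exact ⟨i, x, hi, hj⟩
      rcases Nat.lt_or_ge D 3 with h2 | h2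
      · have : D = 2 := by omega
        subst this
        exact absurd hj (hw.F i x hi)
      have hi1 : 1 ≤ i := by
        rcases Nat.eq_zero_or_pos i with h0 | h0
        · rw [h0, hw.zero] at hi
          exact absurd hi (by simp)
        · exact h0
      have hjm : i + D ≤ m := by
        by_contra h
        rw [hw.big _ (not_le.1 h)] at hj
        exact absurd hj (by simp)
      obtain ⟨β, hβ⟩ := hw.mid (i + 1) (by omega) (by omega)
      by_cases hβx : β = x
      · subst hβx
        exact ⟨i, β, hi, hβ⟩
      have h3 := P (i - 1) (i + D - 1) x β (by rw [Nat.sub_add_cancel hi1]; exact hi)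
        (by rw [Nat.sub_add_cancel (by omega)]; exact hj) hβx
      have h4 : i - 1 + 2 = i + 1 := by omega
      have h5 : i + D - 1 + 2 = i + D + 1 := by omega
      rw [h4, h5] at h3
      have h6 := cc_pos.2 hβ
      by_cases h7 : w (i + D + 1) = some β
      · have h8 : i + D + 1 = i + 1 + D := by omega
        rw [h8] at h7
        exact ihr (i + 1) β hD hβ h7 (by omega)
      · have h7' : cc w β (i + D + 1) = 0 := cc_zero h7
        have h8 : 0 < cc w β (i + D - 1) := by omega
        have h9 := cc_pos.1 h8
        have h10 : i + D - 1 = i + 1 + (D - 2) := by omega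
        rw [h10] at h9
        exact ihD (D - 2) (by omega) m (i + 1) β (by omega) hβ h9 (by omega)

/-- Two equal adjacent letters are the centre of a palindrome. -/
theorem palindrome {w : ℕ → Option X} {m : ℕ} (hw : Word w m)
    (P : ∀ l l' x β, w (l + 1) = some x → w (l' + 1) = some x → β ≠ x →
      cc w β l + cc w β (l + 2) = cc w β l' + cc w β (l' + 2)) {i : ℕ} {x : X}
    (hi : w i = some x) (hi1 : w (i + 1) = some x) :
    ∀ s, s ≤ i → w (i - s) = w (i + 1 + s) := by
  have him : i ≤ m := by
    by_contra h
    rw [hw.big _ (not_le.1 h)] at hi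
    exact absurd hi (by simp)
  intro s
  induction s using Nat.strong_induction_on with
  | _ s ih =>
    intro hs
    rcases Nat.eq_zero_or_pos s with h0 | h0
    · subst h0
      rw [Nat.sub_zero, Nat.add_zero, hi, hi1]
    -- `p = l + 1`, `q = l' + 1`
    obtain ⟨l, hl⟩ : ∃ l, l = i - s := ⟨_, rfl⟩
    obtain ⟨l', hl'⟩ : ∃ l', l' = i + s - 1 := ⟨_, rfl⟩
    have e1 : i + 1 + s = l' + 2 := by omega
    rw [← hl, e1]
    have hpq : w (l + 1) = w (l' + 1) := by
      have h1 := ih (s - 1) (by omega) (by omega)
      have h2 : i - (s - 1) = l + 1 := by omega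
      have h3 : i + 1 + (s - 1) = l' + 1 := by omega
      rwa [h2, h3] at h1
    obtain ⟨γ, hγ⟩ := hw.mid (l + 1) (by omega) (by omega)
    have hγ' : w (l' + 1) = some γ := by rw [← hpq]; exact hγ
    have hin : 2 ≤ s → w (l + 2) = w l' := by
      intro h2
      have h1 := ih (s - 2) (by omega) (by omega)
      have h3 : i - (s - 2) = l + 2 := by omega
      have h4 : i + 1 + (s - 2) = l' := by omega
      rwa [h3, h4] at h1
    have h1s : s = 1 → l + 1 = i ∧ l' = i := by
      intro h
      omega
    -- from left to right
    have LR : ∀ α, w l = some α → w (l' + 2) = some α := by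
      intro α hα
      by_cases hαγ : α = γ
      · subst hαγ
        rcases Nat.lt_or_ge s 2 with h2 | h2
        · have h3 := h1s (by omega)
          exfalso
          have h4 := hw.F l α hα
          have h5 : l + 2 = l' + 1 := by omega
          rw [h5] at h4
          exact h4 hγ'
        · obtain ⟨δ, hδ⟩ := hw.mid (l + 2) (by omega) (by omega)
          have hδ' : w l' = some δ := by rw [← hin h2]; exact hδ
          have hδα : δ ≠ α := by
            rintro rfl
            exact hw.F l δ hα hδ
          have hl1 : 1 ≤ l' := by omega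
          have h3 := P (l + 1) (l' - 1) δ α hδ (by
            rw [Nat.sub_add_cancel hl1]; exact hδ') (Ne.symm hδα)
          have h4 : l' - 1 + 2 = l' + 1 := by omega
          rw [h4, cc_two_right hα hγ] at h3
          have h5 : cc w α (l + 1 + 2) = 0 := cc_zero (hw.F (l + 1) α hγ)
          have h6 : cc w α (l' - 1) = 0 := cc_zero fun h7 => by
            have h8 := hw.F (l' - 1) α h7
            rw [h4] at h8
            exact h8 hγ'
          have h7 : cc w α (l' + 1) = 2 := by omega
          rcases cc_two h7 with h8 | ⟨-, h8⟩
          · exact h8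
          · rw [Nat.add_sub_cancel, hδ'] at h8
            exact absurd (Option.some.inj h8) hδα
      · have h3 := P l l' γ α hγ hγ' hαγ
        have h4 := cc_pos.2 hα
        by_contra h5
        have h6 : cc w α (l' + 2) = 0 := cc_zero h5
        have h7 : 0 < cc w α l' := by omega
        have h8 := cc_pos.1 h7
        rcases Nat.lt_or_ge s 2 with h2 | h2
        · have h9 := h1s (by omega)
          rw [h9.2, ← h9.1, hγ] at h8
          exact hαγ (Option.some.inj h8).symm
        · rw [← hin h2] at h8
          exact hw.F l α hα h8
    -- from right to left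
    have RL : ∀ α, w (l' + 2) = some α → w l = some α := by
      intro α hα
      by_cases hαγ : α = γ
      · subst hαγ
        rcases Nat.lt_or_ge s 2 with h2 | h2
        · have h3 := h1s (by omega)
          exfalso
          refine hw.F l' α ?_ hα
          rw [h3.2, ← h3.1]
          exact hγ
        · obtain ⟨δ, hδ⟩ := hw.mid (l + 2) (by omega) (by omega)
          have hδ' : w l' = some δ := by rw [← hin h2]; exact hδ
          have hδα : δ ≠ α := by
            rintro rfl
            exact hw.F l' δ hδ' hα
          have hl1 : 1 ≤ l' := by omega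
          have h3 := P (l + 1) (l' - 1) δ α hδ (by
            rw [Nat.sub_add_cancel hl1]; exact hδ') (Ne.symm hδα)
          have h4 : l' - 1 + 2 = l' + 1 := by omega
          rw [h4, cc_two_left hγ' hα] at h3
          have h5 : cc w α (l + 1 + 2) = 0 := cc_zero (hw.F (l + 1) α hγ)
          have h6 : cc w α (l + 1) ≤ 2 := cc_le
          have h7 : cc w α (l + 1) = 2 := by omega
          rcases cc_two h7 with h8 | ⟨-, h8⟩
          · rw [hδ] at h8
            exact absurd (Option.some.inj h8) hδα
          · rw [Nat.add_sub_cancel] at h8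
            exact h8
      · have h3 := P l l' γ α hγ hγ' hαγ
        have h4 := cc_pos.2 hα
        by_contra h5
        have h6 : cc w α l = 0 := cc_zero h5
        have h7 : 0 < cc w α (l + 2) := by omega
        have h8 := cc_pos.1 h7
        rcases Nat.lt_or_ge s 2 with h2 | h2
        · have h9 := h1s (by omega)
          have h10 : l + 2 = l' + 1 := by omega
          rw [h10, hγ'] at h8
          exact hαγ (Option.some.inj h8).symm
        · rw [hin h2] at h8
          exact hw.F l' α h8 hα
    rcases hwl : w l with _ | α
    · rcases hwr : w (l' + 2) with _ | α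
      · rfl
      · have := RL α hwr
        rw [hwl] at this
        exact absurd this (by simp)
    · exact (LR α hwl).symm

/-- **The lemma on words**: if the length is odd then all letters are different. -/
theorem word_inj {w : ℕ → Option X} {m : ℕ} (hw : Word w m) (hm : Odd m)
    (P : ∀ l l' x β, w (l + 1) = some x → w (l' + 1) = some x → β ≠ x →
      cc w β l + cc w β (l + 2) = cc w β l' + cc w β (l' + 2)) {i j : ℕ} {x : X}
    (hij : i < j) (hi : w i = some x) (hj : w j = some x) : False := by
  obtain ⟨D, rfl⟩ : ∃ D, j = i + D := ⟨j - i, by omega⟩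
  obtain ⟨c, y, h1, h2⟩ := adjacent hw P D m i x (by omega) hi hj (by omega)
  have h3 := palindrome hw P h1 h2
  have hc : 1 ≤ c := by
    rcases Nat.eq_zero_or_pos c with h0 | h0
    · rw [h0, hw.zero] at h1
      exact absurd h1 (by simp)
    · exact h0
  have hcm : c ≤ m := by
    by_contra h
    rw [hw.big _ (not_le.1 h)] at h1
    exact absurd h1 (by simp)
  have h4 := h3 c le_rfl
  rw [Nat.sub_self, hw.zero] at h4
  have h5 : m < c + 1 + c := by
    by_contra h
    obtain ⟨z, hz⟩ := hw.mid (c + 1 + c) (by omega) (not_lt.1 h)
    rw [← h4] at hz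
    exact absurd hz (by simp)
  have h6 := h3 (c - 1) (by omega)
  have h7 : c - (c - 1) = 1 := by omega
  rw [h7] at h6
  obtain ⟨z, hz⟩ := hw.mid 1 le_rfl (by omega)
  have h8 : c + 1 + (c - 1) ≤ m := by
    by_contra h
    rw [hw.big _ (not_le.1 h), hz] at h6
    exact absurd h6 (by simp)
  obtain ⟨t, ht⟩ := hm
  omega

end Pool.Agent.R918
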