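import Pool.Agent.R918.Core4
import Pool.Agent.R918.Comb

set_option autoImplicit false
set_option linter.unusedSectionVars false
set_option linter.unusedVariables false

/-!
# The root vectors are the elementary matrices if the size of the blocks is even
-/

open Module

namespace Pool.Agent.R918

open Pool.Agent.Y102.SP (Root)

variable {U : Type} [AddCommGroup U] [Module ℂ U]

namespace Core

variable {k n : ℕ} {a b : Fin k × Fin n → Module.End ℂ U} {T : Type} [AddCommGroup T]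
  [Module ℂ T] (C : Core a b T)

/-- the word of the block `σ` -/
noncomputable def word (C : Core a b T) (σ : Fin k) (l : ℕ) : Option (Module.Dual ℂ T) :=
  if h : 1 ≤ l ∧ l < n then some (C.dif σ (l - 1) (by omega)) else none

theorem word_succ (σ : Fin k) (i : ℕ) (hi : i + 1 < n) :
    C.word σ (i + 1) = some (C.dif σ i hi) := by
  unfold word
  rw [dif_pos ⟨by omega, hi⟩]
  congr 1

theorem word_some {σ : Fin k} {l : ℕ} {x : Module.Dual ℂ T} (h : C.word σ l = some x) :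
    ∃ (i : ℕ) (hi : i + 1 < n), l = i + 1 ∧ C.dif σ i hi = x := by
  unfold word at h
  split_ifs at h with h1
  refine ⟨l - 1, by omega, by omega, ?_⟩
  exact Option.some.inj h

variable [Nontrivial U] [FiniteDimensional ℂ U]

theorem word_word (σ : Fin k) (hn : 1 ≤ n) : Word (C.word σ) (n - 1) where
  zero := by
    unfold word
    rw [dif_neg (by omega)]
  big l hl := by
    unfold word
    rw [dif_neg (by omega)]
  mid l h1 h2 := by
    obtain ⟨i, rfl⟩ : ∃ i, l = i + 1 := ⟨l - 1, by omega⟩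
    exact ⟨_, C.word_succ σ i (by omega)⟩
  F l x h h' := by
    obtain ⟨i, hi, rfl, h1⟩ := C.word_some h
    obtain ⟨j, hj, h2, h3⟩ := C.word_some h'
    have : j = i + 2 := by omega
    subst this
    exact C.triple σ i (by omega) (h1.trans h3.symm)

/-- the product of the two entries -/
noncomputable def zz (C : Core a b T) (σ : Fin k) (β : Module.Dual ℂ T) (l : ℕ) : ℂ :=
  if h : 1 ≤ l ∧ l < n then C.e β (σ, ⟨l - 1, by omega⟩) (σ, ⟨l, h.2⟩) *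
    C.e (-β) (σ, ⟨l, h.2⟩) (σ, ⟨l - 1, by omega⟩) else 0

theorem zz_succ (σ : Fin k) (β : Module.Dual ℂ T) (i : ℕ) (hi : i + 1 < n) :
    C.zz σ β (i + 1) = C.e β (σ, ⟨i, by omega⟩) (σ, ⟨i + 1, hi⟩) *
      C.e (-β) (σ, ⟨i + 1, hi⟩) (σ, ⟨i, by omega⟩) := by
  unfold zz
  rw [dif_pos ⟨by omega, hi⟩]
  rfl

/-- the entries of a root vector -/
theorem entry_pos {σ₀ : Fin k} {i₀ : ℕ} (hi₀ : i₀ + 1 < n) {p q : Fin k × Fin n}
    (h : C.e (C.dif σ₀ i₀ hi₀) p q ≠ 0) :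
    p.1 = σ₀ ∧ q.1 = σ₀ ∧ (q.2 : ℕ) = p.2 + 1 ∧ C.χ p - C.χ q = C.dif σ₀ i₀ hi₀ := by
  obtain ⟨hΦ, hpos, -⟩ := C.letter σ₀ i₀ hi₀
  obtain ⟨h1, h2, h3⟩ := C.tri_pos hΦ hpos h
  have e1 : q = (p.1, q.2) := Prod.ext h1.symm rfl
  have h3' : C.χ (p.1, p.2) - C.χ (p.1, q.2) = C.dif σ₀ i₀ hi₀ := by
    rw [← e1]; exact h3
  obtain ⟨h4, h5⟩ := C.only σ₀ i₀ hi₀ h2 h3'
  exact ⟨h4, h1.symm.trans h4, h5, h3⟩

theorem entry_neg {σ₀ : Fin k} {i₀ : ℕ} (hi₀ : i₀ + 1 < n) {p q : Fin k × Fin n}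
    (h : C.e (-C.dif σ₀ i₀ hi₀) p q ≠ 0) :
    p.1 = σ₀ ∧ q.1 = σ₀ ∧ (p.2 : ℕ) = q.2 + 1 ∧ C.χ q - C.χ p = C.dif σ₀ i₀ hi₀ := by
  obtain ⟨hΦ, hpos, -⟩ := C.letter σ₀ i₀ hi₀
  obtain ⟨h1, h2, h3⟩ := C.tri_neg hΦ hpos h
  have e1 : p = (q.1, p.2) := Prod.ext h1 rfl
  have h3' : C.χ (q.1, q.2) - C.χ (q.1, p.2) = C.dif σ₀ i₀ hi₀ := by
    rw [← e1]; exact h3
  obtain ⟨h4, h5⟩ := C.only σ₀ i₀ hi₀ h2 h3'
  exact ⟨h1.trans h4, h4, h5, h3⟩

theorem zz_zero {σ σ₀ : Fin k} {i₀ : ℕ} (hi₀ : i₀ + 1 < n) {l : ℕ}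
    (h : C.word σ l ≠ some (C.dif σ₀ i₀ hi₀)) : C.zz σ (C.dif σ₀ i₀ hi₀) l = 0 := by
  by_cases hl : 1 ≤ l ∧ l < n
  · obtain ⟨i, rfl⟩ : ∃ i, l = i + 1 := ⟨l - 1, by omega⟩
    rw [C.zz_succ σ _ i hl.2]
    by_contra h1
    obtain ⟨-, -, -, h2⟩ := C.entry_pos hi₀ (left_ne_zero_of_mul h1)
    apply h
    rw [C.word_succ σ i hl.2]
    exact congrArg some h2
  · unfold zz
    rw [dif_neg hl]

/-- the value of a weight at a coroot -/
theorem chi_h {σ σ₀ : Fin k} {i₀ : ℕ} (hi₀ : i₀ + 1 < n) (i : ℕ) (hi : i < n) :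
    C.χ (σ, ⟨i, hi⟩) (C.h (C.dif σ₀ i₀ hi₀)) =
      C.zz σ (C.dif σ₀ i₀ hi₀) (i + 1) - C.zz σ (C.dif σ₀ i₀ hi₀) i := by
  obtain ⟨hΦ, hpos, -⟩ := C.letter σ₀ i₀ hi₀
  have h1 := congrFun (congrFun (C.br _ hΦ) (σ, ⟨i, hi⟩)) (σ, ⟨i, hi⟩)
  rw [Matrix.diagonal_apply_eq, Matrix.sub_apply, Matrix.mul_apply, Matrix.mul_apply] at h1
  rw [← h1]
  congr 1
  · by_cases hi1 : i + 1 < n
    · rw [C.zz_succ σ _ i hi1]
      refine Finset.sum_eq_single ((σ, ⟨i + 1, hi1⟩) : Fin k × Fin n) (fun r _ hr => ?_)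
        (fun h => absurd (Finset.mem_univ _) h)
      by_contra h
      obtain ⟨g1, g2, g3, -⟩ := C.entry_pos hi₀ (left_ne_zero_of_mul h)
      apply hr
      have g1' : σ = σ₀ := g1
      exact Prod.ext (g2.trans g1'.symm) (Fin.ext g3)
    · have h2 : C.zz σ (C.dif σ₀ i₀ hi₀) (i + 1) = 0 := by
        unfold zz
        rw [dif_neg (by omega)]
      rw [h2]
      refine Finset.sum_eq_zero fun r _ => ?_
      by_contra h
      obtain ⟨g1, g2, g3, -⟩ := C.entry_pos hi₀ (left_ne_zero_of_mul h)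
      have g4 : (r.2 : ℕ) = i + 1 := g3
      have := r.2.2
      omega
  · rcases Nat.eq_zero_or_pos i with h0 | h0
    · have h2 : C.zz σ (C.dif σ₀ i₀ hi₀) i = 0 := by
        unfold zz
        rw [dif_neg (by omega)]
      rw [h2]
      refine Finset.sum_eq_zero fun r _ => ?_
      by_contra h
      obtain ⟨g1, g2, g3, -⟩ := C.entry_neg hi₀ (left_ne_zero_of_mul h)
      have g4 : i = (r.2 : ℕ) + 1 := g3
      omega
    · obtain ⟨j, rfl⟩ : ∃ j, i = j + 1 := ⟨i - 1, by omega⟩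
      rw [C.zz_succ σ _ j hi, mul_comm]
      refine Finset.sum_eq_single ((σ, ⟨j, by omega⟩) : Fin k × Fin n) (fun r _ hr => ?_)
        (fun h => absurd (Finset.mem_univ _) h)
      by_contra h
      obtain ⟨g1, g2, g3, -⟩ := C.entry_neg hi₀ (left_ne_zero_of_mul h)
      apply hr
      have g1' : σ = σ₀ := g1
      have g4 : j + 1 = (r.2 : ℕ) + 1 := g3
      exact Prod.ext (g2.trans g1'.symm) (Fin.ext (by change (r.2 : ℕ) = j; omega))

/-- the second differences -/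
theorem second {σ σ₀ : Fin k} {i₀ : ℕ} (hi₀ : i₀ + 1 < n) (i : ℕ) (hi : i + 1 < n) :
    2 * C.zz σ (C.dif σ₀ i₀ hi₀) (i + 1) - C.zz σ (C.dif σ₀ i₀ hi₀) i -
      C.zz σ (C.dif σ₀ i₀ hi₀) (i + 2) = (C.R.pr (C.dif σ₀ i₀ hi₀) (C.dif σ i hi) : ℂ) := by
  obtain ⟨hΦ, hpos, -⟩ := C.letter σ₀ i₀ hi₀
  obtain ⟨hΦ', -, -⟩ := C.letter σ i hi
  rw [← C.prh _ hΦ _ hΦ']
  have h1 := C.chi_h (σ := σ) (σ₀ := σ₀) hi₀ i (by omega)
  have h2 := C.chi_h (σ := σ) (σ₀ := σ₀) hi₀ (i + 1) hi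
  have h3 : (C.dif σ i hi) (C.h (C.dif σ₀ i₀ hi₀)) =
      C.χ (σ, ⟨i, by omega⟩) (C.h (C.dif σ₀ i₀ hi₀)) -
        C.χ (σ, ⟨i + 1, hi⟩) (C.h (C.dif σ₀ i₀ hi₀)) := rfl
  rw [h3, h1, h2]
  ring

/-- **All simple roots are different.** -/
theorem all_ne (hn : Even n) (σ : Fin k) {i j : ℕ} (hi : i + 1 < n) (hj : j + 1 < n)
    (hij : i < j) : C.dif σ i hi ≠ C.dif σ j hj := by
  intro heq
  have hw := C.word_word σ (by omega)
  have hodd : Odd (n - 1) := by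
    obtain ⟨t, ht⟩ := hn
    exact ⟨t - 1, by omega⟩
  have hz : ∀ (i₀ : ℕ) (hi₀ : i₀ + 1 < n) (l : ℕ),
      C.zz σ (C.dif σ i₀ hi₀) l = cc (C.word σ) (C.dif σ i₀ hi₀) l := by
    intro i₀ hi₀
    refine z_eq hw (fun l hl => C.zz_zero hi₀ hl) (fun l hl => ?_)
    obtain ⟨i', hi', h1, h2⟩ := C.word_some hl
    have : l = i' := by omega
    subst this
    rw [C.second (σ := σ) (σ₀ := σ) hi₀ l hi', h2, C.R.two _ (C.letter σ i₀ hi₀).1]
    norm_num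
  refine word_inj hw hodd ?_ (Nat.succ_lt_succ hij) (C.word_succ σ i hi)
    (x := C.dif σ i hi) (by rw [heq]; exact C.word_succ σ j hj)
  intro l l' x β hl hl' hβ
  obtain ⟨l1, hl1, h1, h2⟩ := C.word_some hl
  obtain ⟨l2, hl2, h3, h4⟩ := C.word_some hl'
  have : l = l1 := by omega
  subst this
  have : l' = l2 := by omega
  subst this
  by_cases hβ' : ∃ (i₀ : ℕ) (hi₀ : i₀ + 1 < n), C.dif σ i₀ hi₀ = β
  · obtain ⟨i₀, hi₀, rfl⟩ := hβ'
    have s1 := C.second (σ := σ) (σ₀ := σ) hi₀ l hl1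
    have s2 := C.second (σ := σ) (σ₀ := σ) hi₀ l' hl2
    rw [h2] at s1
    rw [h4, ← s1, hz, hz, hz, hz, hz, hz] at s2
    have z1 : cc (C.word σ) (C.dif σ i₀ hi₀) (l + 1) = 0 := cc_zero (by
      rw [hl]
      exact fun h => hβ (Option.some.inj h).symm)
    have z2 : cc (C.word σ) (C.dif σ i₀ hi₀) (l' + 1) = 0 := cc_zero (by
      rw [hl']
      exact fun h => hβ (Option.some.inj h).symm)
    rw [z1, z2] at s2
    have s3 : ((cc (C.word σ) (C.dif σ i₀ hi₀) l + cc (C.word σ) (C.dif σ i₀ hi₀) (l + 2) : ℕ) : ℂ) =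
        ((cc (C.word σ) (C.dif σ i₀ hi₀) l' + cc (C.word σ) (C.dif σ i₀ hi₀) (l' + 2) : ℕ) : ℂ) := by
      push_cast
      linear_combination s2
    exact_mod_cast s3
  · have hno : ∀ l, cc (C.word σ) β l = 0 := by
      intro l
      refine cc_zero fun h => hβ' ?_
      obtain ⟨i', hi', -, h6⟩ := C.word_some h
      exact ⟨i', hi', h6⟩
    rw [hno, hno, hno, hno]

/-- The elementary matrices which move one place are in the Lie algebra. -/
theorem units (hn : Even n) (σ : Fin k) (i : ℕ) (hi : i + 1 < n) :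
    Matrix.single ((σ, ⟨i, by omega⟩) : Fin k × Fin n) ((σ, ⟨i + 1, hi⟩) : Fin k × Fin n) (1 : ℂ) ∈
        C.L ∧
      Matrix.single ((σ, ⟨i + 1, hi⟩) : Fin k × Fin n) ((σ, ⟨i, by omega⟩) : Fin k × Fin n)
        (1 : ℂ) ∈ C.L := by
  obtain ⟨hΦ, hpos, hne⟩ := C.letter σ i hi
  have huniq : ∀ p : Fin k × Fin n, p.1 = σ → ∀ (hp : (p.2 : ℕ) + 1 < n),
      C.dif σ p.2 hp = C.dif σ i hi → (p.2 : ℕ) = i := by
    intro p hp1 hp h
    rcases lt_trichotomy (p.2 : ℕ) i with h1 | h1 | h1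
    · exact absurd h (C.all_ne hn σ hp hi h1)
    · exact h1
    · exact absurd h.symm (C.all_ne hn σ hi hp h1)
  set p : Fin k × Fin n := (σ, ⟨i, by omega⟩) with hp
  set q : Fin k × Fin n := (σ, ⟨i + 1, hi⟩) with hq
  have hpos' : ∀ r s, C.e (C.dif σ i hi) r s ≠ 0 → r = p ∧ s = q := by
    intro r s h
    obtain ⟨h1, h2, h3, h4⟩ := C.entry_pos hi h
    have hr : (r.2 : ℕ) + 1 < n := by rw [← h3]; exact s.2.2
    have e1 : C.dif σ r.2 hr = C.dif σ i hi := by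
      rw [← h4]
      unfold dif
      congr 2
      · exact Prod.ext h1.symm rfl
      · exact Prod.ext h2.symm (Fin.ext h3.symm)
    have e2 := huniq r h1 hr e1
    exact ⟨Prod.ext h1 (Fin.ext e2), Prod.ext h2 (Fin.ext (by
      change (s.2 : ℕ) = i + 1
      omega))⟩
  have hneg' : ∀ r s, C.e (-C.dif σ i hi) r s ≠ 0 → r = q ∧ s = p := by
    intro r s h
    obtain ⟨h1, h2, h3, h4⟩ := C.entry_neg hi h
    have hr : (s.2 : ℕ) + 1 < n := by rw [← h3]; exact r.2.2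
    have e1 : C.dif σ s.2 hr = C.dif σ i hi := by
      rw [← h4]
      unfold dif
      congr 2
      · exact Prod.ext h2.symm rfl
      · exact Prod.ext h1.symm (Fin.ext h3.symm)
    have e2 := huniq s h2 hr e1
    exact ⟨Prod.ext h1 (Fin.ext (by
      change (r.2 : ℕ) = i + 1
      omega)), Prod.ext h2 (Fin.ext e2)⟩
  have mk : ∀ (M : Matrix (Fin k × Fin n) (Fin k × Fin n) ℂ) (r s : Fin k × Fin n),
      M ∈ C.L → M ≠ 0 → (∀ r' s', M r' s' ≠ 0 → r' = r ∧ s' = s) →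
      Matrix.single r s (1 : ℂ) ∈ C.L := by
    intro M r s hM hM0 h
    have h1 : M r s ≠ 0 := by
      intro h1
      apply hM0
      ext r' s'
      rw [Matrix.zero_apply]
      by_contra h2
      obtain ⟨rfl, rfl⟩ := h r' s' h2
      exact h2 h1
    have h2 : Matrix.single r s (1 : ℂ) = (M r s)⁻¹ • M := by
      ext r' s'
      rw [Matrix.smul_apply, smul_eq_mul]
      by_cases h3 : M r' s' = 0
      · rw [h3, mul_zero, Matrix.single_apply, if_neg]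
        rintro ⟨rfl, rfl⟩
        exact h1 h3
      · obtain ⟨rfl, rfl⟩ := h r' s' h3
        rw [Matrix.single_apply, if_pos ⟨rfl, rfl⟩, inv_mul_cancel₀ h3]
    rw [h2]
    exact C.L.smul_mem _ hM
  refine ⟨mk _ p q (C.mem _ hΦ) (C.ene _ hΦ) hpos', mk _ q p (C.mem _ (C.R.neg _ hΦ))
    (C.ene _ (C.R.neg _ hΦ)) hneg'⟩

end Core

end Pool.Agent.R918
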