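import Pool.Agent.R918.Kill
import Pool.Agent.R918.Core5
import Pool.Agent.Y102.SP.Fun

set_option autoImplicit false
set_option linter.unusedSectionVars false
set_option linter.unusedVariables false

/-!
# Change of basis and the construction of the root data
-/

open Module

namespace Pool.Agent.R918

open Pool.Agent.Y102.SP (Root AbsRoot usp exists_absRoot avoid)

attribute [local instance 100] LieRing.ofAssociativeRing

section change

variable {U : Type} [AddCommGroup U] [Module ℂ U] {J : Type} [Fintype J] [DecidableEq J]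

/-- the new creation operators -/
noncomputable def ca (g : Matrix J J ℂ) (a : J → Module.End ℂ U) (q : J) : Module.End ℂ U :=
  ∑ p, g p q • a p

/-- the new annihilation operators -/
noncomputable def cb (g' : Matrix J J ℂ) (b : J → Module.End ℂ U) (q : J) : Module.End ℂ U :=
  ∑ p, g' q p • b p

variable {a b : J → Module.End ℂ U} {g g' : Matrix J J ℂ}

theorem ca_mul_cb (q r : J) : ca g a q * cb g' b r = ∑ p, ∑ s, (g p q * g' r s) • (a p * b s) := by
  unfold ca cb
  rw [Finset.sum_mul]
  refine Finset.sum_congr rfl fun p _ => ?_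
  rw [Finset.mul_sum]
  exact Finset.sum_congr rfl fun s _ => by rw [smul_mul_smul_comm]

theorem car_change (h : Car a b) (hg : g' * g = 1) : Car (ca g a) (cb g' b) where
  aa p q := by
    unfold ca
    rw [Finset.sum_mul, Finset.sum_mul, ← Finset.sum_neg_distrib]
    simp only [Finset.mul_sum]
    rw [Finset.sum_comm]
    refine Finset.sum_congr rfl fun r _ => ?_
    rw [← Finset.sum_neg_distrib]
    refine Finset.sum_congr rfl fun s _ => ?_
    rw [smul_mul_smul_comm, smul_mul_smul_comm, h.aa s r, smul_neg, mul_comm]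
  bb p q := by
    unfold cb
    rw [Finset.sum_mul, Finset.sum_mul, ← Finset.sum_neg_distrib]
    simp only [Finset.mul_sum]
    rw [Finset.sum_comm]
    refine Finset.sum_congr rfl fun r _ => ?_
    rw [← Finset.sum_neg_distrib]
    refine Finset.sum_congr rfl fun s _ => ?_
    rw [smul_mul_smul_comm, smul_mul_smul_comm, h.bb s r, smul_neg, mul_comm]
  ab q r := by
    have h1 : cb g' b r * ca g a q = ∑ p, ∑ s, (g p q * g' r s) • (b s * a p) := by
      unfold ca cb
      rw [Finset.sum_mul, Finset.sum_comm]
      refine Finset.sum_congr rfl fun s _ => ?_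
      rw [Finset.mul_sum]
      exact Finset.sum_congr rfl fun p _ => by rw [smul_mul_smul_comm, mul_comm]
    rw [ca_mul_cb, h1, ← Finset.sum_add_distrib]
    have h2 : ∀ p, ∑ s, (g p q * g' r s) • (a p * b s) + ∑ s, (g p q * g' r s) • (b s * a p) =
        (g' r p * g p q) • 1 := by
      intro p
      rw [← Finset.sum_add_distrib, Finset.sum_eq_single p]
      · rw [← smul_add, h.ab, if_pos rfl, mul_comm]
      · intro s _ hs
        rw [← smul_add, h.ab, if_neg (Ne.symm hs), smul_zero]
      · intro h; exact absurd (Finset.mem_univ _) h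
    rw [Finset.sum_congr rfl fun p _ => h2 p, ← Finset.sum_smul, ← Matrix.mul_apply, hg,
      Matrix.one_apply]
    by_cases hqr : q = r
    · rw [if_pos hqr.symm, if_pos hqr, one_smul]
    · rw [if_neg (Ne.symm hqr), if_neg hqr, zero_smul]

theorem rho_change (M : Matrix J J ℂ) : rho (ca g a) (cb g' b) M = rho a b (g * M * g') := by
  have h1 : rho (ca g a) (cb g' b) M = ∑ q, ∑ r, M q r • (ca g a q * cb g' b r) := rfl
  have h2 : rho a b (g * M * g') = ∑ p, ∑ s, (g * M * g') p s • (a p * b s) := rfl
  rw [h1, h2]
  have h3 : ∀ q r, M q r • (ca g a q * cb g' b r) =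
      ∑ p, ∑ s, (g p q * M q r * g' r s) • (a p * b s) := by
    intro q r
    rw [ca_mul_cb, Finset.smul_sum]
    refine Finset.sum_congr rfl fun p _ => ?_
    rw [Finset.smul_sum]
    refine Finset.sum_congr rfl fun s _ => ?_
    rw [smul_smul]
    congr 1
    ring
  have h4 : ∀ p s, (g * M * g') p s • (a p * b s) =
      ∑ r, ∑ q, (g p q * M q r * g' r s) • (a p * b s) := by
    intro p s
    rw [Matrix.mul_apply, Finset.sum_smul]
    refine Finset.sum_congr rfl fun r _ => ?_
    rw [Matrix.mul_apply, Finset.sum_mul, Finset.sum_smul]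
  rw [Finset.sum_congr rfl fun q _ => Finset.sum_congr rfl fun r _ => h3 q r,
    Finset.sum_congr rfl fun p _ => Finset.sum_congr rfl fun s _ => h4 p s]
  calc ∑ q, ∑ r, ∑ p, ∑ s, (g p q * M q r * g' r s) • (a p * b s)
      = ∑ q, ∑ p, ∑ r, ∑ s, (g p q * M q r * g' r s) • (a p * b s) :=
        Finset.sum_congr rfl fun q _ => Finset.sum_comm
    _ = ∑ p, ∑ q, ∑ r, ∑ s, (g p q * M q r * g' r s) • (a p * b s) := Finset.sum_comm
    _ = ∑ p, ∑ q, ∑ s, ∑ r, (g p q * M q r * g' r s) • (a p * b s) :=
        Finset.sum_congr rfl fun p _ => Finset.sum_congr rfl fun q _ => Finset.sum_comm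
    _ = ∑ p, ∑ s, ∑ q, ∑ r, (g p q * M q r * g' r s) • (a p * b s) :=
        Finset.sum_congr rfl fun p _ => Finset.sum_comm
    _ = ∑ p, ∑ s, ∑ r, ∑ q, (g p q * M q r * g' r s) • (a p * b s) :=
        Finset.sum_congr rfl fun p _ => Finset.sum_congr rfl fun s _ => Finset.sum_comm

end change

variable {k n : ℕ} {U : Type} [AddCommGroup U] [Module ℂ U]
  {a b : Fin k × Fin n → Module.End ℂ U}

/-- **The elementary matrices are in the Lie algebra**, in a suitable basis. -/
theorem exists_units [Nontrivial U] [FiniteDimensional ℂ U] (hcar : Car a b) (hn : Even n)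
    {L : Submodule ℂ (Matrix (Fin k × Fin n) (Fin k × Fin n) ℂ)} (h : Good L)
    (st : ∀ P : Submodule ℂ U, (∀ x ∈ L, ∀ u ∈ P, rho a b x u ∈ P) →
      (∀ σ, ∀ u ∈ P, rho a b (pj k n σ) u ∈ P) → ∀ σ i j, ∀ u ∈ P, a (σ, i) (b (σ, j) u) ∈ P) :
    ∃ g g' : Matrix (Fin k × Fin n) (Fin k × Fin n) ℂ, IsBD g ∧ IsBD g' ∧ g * g' = 1 ∧
      g' * g = 1 ∧ ∀ (σ : Fin k) (i : ℕ) (hi : i + 1 < n),
        g * Matrix.single ((σ, ⟨i, by omega⟩) : Fin k × Fin n)
          ((σ, ⟨i + 1, hi⟩) : Fin k × Fin n) (1 : ℂ) * g' ∈ L ∧
        g * Matrix.single ((σ, ⟨i + 1, hi⟩) : Fin k × Fin n)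
          ((σ, ⟨i, by omega⟩) : Fin k × Fin n) (1 : ℂ) * g' ∈ L := by
  have := h.killing
  obtain ⟨T, i1, i2, ⟨A⟩⟩ := exists_absRoot (LV L h.br)
  choose B χ0 hB using fun σ => h.exists_basis A σ
  obtain ⟨φ, -, hφ⟩ := avoid A.R.fin (⊥ : Submodule ℚ (Module.Dual ℂ T))
  have hφ' : ∀ α ∈ A.R.Φ, φ α ≠ 0 := fun α hα => hφ α hα fun h0 => by
    rw [Submodule.mem_bot] at h0
    rw [h0] at hα
    exact A.R.zero hα
  let pm : Fin k → Equiv.Perm (Fin n) := fun σ => Tuple.sort fun i => -φ (χ0 σ i)
  let B' : Fin k → Basis (Fin n) ℂ (Fin n → ℂ) := fun σ => (B σ).reindex (pm σ).symm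
  have hB'i : ∀ σ i, B' σ i = B σ (pm σ i) := fun σ i => by
    rw [Basis.reindex_apply, Equiv.symm_symm]
  let χ : Fin k × Fin n → Module.Dual ℂ T := fun p => χ0 p.1 (pm p.1 p.2)
  have hχ : ∀ p, χ p = χ0 p.1 (pm p.1 p.2) := fun p => rfl
  have hanti : ∀ σ i j, i ≤ j → φ (χ (σ, j)) ≤ φ (χ (σ, i)) := by
    intro σ i j hij
    have h1 := Tuple.monotone_sort (fun i => -φ (χ0 σ i)) hij
    have h2 : -φ (χ0 σ (pm σ i)) ≤ -φ (χ0 σ (pm σ j)) := h1
    rw [hχ, hχ]
    linarith
  obtain ⟨g, hg⟩ : ∃ g : Matrix (Fin k × Fin n) (Fin k × Fin n) ℂ,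
      ∀ p q, g p q = if p.1 = q.1 then B' q.1 q.2 p.2 else 0 :=
    ⟨Matrix.of fun p q => if p.1 = q.1 then B' q.1 q.2 p.2 else 0, fun p q => rfl⟩
  obtain ⟨g', hg'⟩ : ∃ g' : Matrix (Fin k × Fin n) (Fin k × Fin n) ℂ,
      ∀ p q, g' p q = if p.1 = q.1 then (B' p.1).repr (Pi.single q.2 1) p.2 else 0 :=
    ⟨Matrix.of fun p q => if p.1 = q.1 then (B' p.1).repr (Pi.single q.2 1) p.2 else 0,
      fun p q => rfl⟩
  have hgg' : g * g' = 1 := by
    ext p q
    rw [Matrix.mul_apply, Matrix.one_apply, Fintype.sum_prod_type, Finset.sum_eq_single p.1]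
    · by_cases hpq : p.1 = q.1
      · have h1 : ∀ i, g p (p.1, i) * g' (p.1, i) q =
            ((B' p.1).repr (Pi.single q.2 1) i • B' p.1 i) p.2 := by
          intro i
          rw [hg, hg', if_pos rfl, if_pos hpq, Pi.smul_apply, smul_eq_mul, mul_comm]
        rw [Finset.sum_congr rfl fun i _ => h1 i, ← Finset.sum_apply, (B' p.1).sum_repr,
          Pi.single_apply]
        by_cases hpq2 : p.2 = q.2
        · rw [if_pos hpq2, if_pos (Prod.ext hpq hpq2)]
        · rw [if_neg hpq2, if_neg (fun h => hpq2 (by rw [h]))]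
      · rw [if_neg (fun h => hpq (by rw [h]))]
        refine Finset.sum_eq_zero fun i _ => ?_
        rw [hg', if_neg hpq, mul_zero]
    · intro τ _ hτ
      refine Finset.sum_eq_zero fun i _ => ?_
      rw [hg, if_neg (Ne.symm hτ), zero_mul]
    · intro h; exact absurd (Finset.mem_univ _) h
  have hg'g : g' * g = 1 := mul_eq_one_comm.1 hgg'
  have hgbd : IsBD g := fun p q hpq => by rw [hg, if_neg hpq]
  have hg'bd : IsBD g' := fun p q hpq => by rw [hg', if_neg hpq]
  -- the matrices
  let mt : T → Matrix (Fin k × Fin n) (Fin k × Fin n) ℂ := fun t => LinearMap.toMatrix' (A.ι t).1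
  let me : Module.Dual ℂ T → Matrix (Fin k × Fin n) (Fin k × Fin n) ℂ :=
    fun α => LinearMap.toMatrix' (A.e α).1
  have hlie : ∀ x y : LV L h.br, LinearMap.toMatrix' (⁅x, y⁆ : LV L h.br).1 =
      LinearMap.toMatrix' x.1 * LinearMap.toMatrix' y.1 -
        LinearMap.toMatrix' y.1 * LinearMap.toMatrix' x.1 := by
    intro x y
    have h1 : (⁅x, y⁆ : LV L h.br).1 = x.1 * y.1 - y.1 * x.1 := rfl
    rw [h1, map_sub, LinearMap.toMatrix'_mul, LinearMap.toMatrix'_mul]
  have hmt : ∀ t, mt t * g = g * Matrix.diagonal fun p => χ p t := by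
    intro t
    ext p q
    rw [Matrix.mul_diagonal]
    have h1 : (mt t * g) p q = (A.ι t).1 (fun r => g r q) p := by
      rw [Matrix.mul_apply]
      have h2 := congrFun (h.lv_apply (x := (A.ι t).1) fun r => g r q) p
      rw [h2]
      rfl
    have h3 : (fun r => g r q) = Good.ext' k n q.1 (B q.1 (pm q.1 q.2)) := by
      ext r
      rw [hg, Good.ext'_apply, hB'i]
    rw [h1, h3, hB, Pi.smul_apply, smul_eq_mul, ← h3, hχ, mul_comm]
  have hconj : ∀ t, g' * mt t * g = Matrix.diagonal fun p => χ p t := by
    intro t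
    rw [mul_assoc, hmt, ← mul_assoc, hg'g, one_mul]
  have hmul : ∀ x y : Matrix (Fin k × Fin n) (Fin k × Fin n) ℂ,
      g' * (x * y) * g = (g' * x * g) * (g' * y * g) := by
    intro x y
    calc g' * (x * y) * g = g' * x * 1 * y * g := by rw [mul_one]; simp only [mul_assoc]
      _ = g' * x * (g * g') * y * g := by rw [hgg']
      _ = (g' * x * g) * (g' * y * g) := by simp only [mul_assoc]
  have hmul' : ∀ x y : Matrix (Fin k × Fin n) (Fin k × Fin n) ℂ,
      g * (x * y) * g' = (g * x * g') * (g * y * g') := by
    intro x y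
    calc g * (x * y) * g' = g * x * 1 * y * g' := by rw [mul_one]; simp only [mul_assoc]
      _ = g * x * (g' * g) * y * g' := by rw [hg'g]
      _ = (g * x * g') * (g * y * g') := by simp only [mul_assoc]
  have hinv : ∀ x : Matrix (Fin k × Fin n) (Fin k × Fin n) ℂ, g' * (g * x * g') * g = x := by
    intro x
    calc g' * (g * x * g') * g = (g' * g) * x * (g' * g) := by simp only [mul_assoc]
      _ = x := by rw [hg'g, one_mul, mul_one]
  have hinv' : ∀ x : Matrix (Fin k × Fin n) (Fin k × Fin n) ℂ, g * (g' * x * g) * g' = x := by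
    intro x
    calc g * (g' * x * g) * g' = (g * g') * x * (g * g') := by simp only [mul_assoc]
      _ = x := by rw [hgg', one_mul, mul_one]
  have hsub : ∀ x y : Matrix (Fin k × Fin n) (Fin k × Fin n) ℂ,
      g' * (x - y) * g = g' * x * g - g' * y * g := fun x y => by rw [mul_sub, sub_mul]
  have hwt : ∀ α ∈ A.R.Φ, ∀ t, (Matrix.diagonal fun p => χ p t) * (g' * me α * g) -
      (g' * me α * g) * (Matrix.diagonal fun p => χ p t) = α t • (g' * me α * g) := by
    intro α hα t
    have h1 := congrArg (fun x : LV L h.br => LinearMap.toMatrix' x.1) (A.wt α hα t)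
    have h2 : mt t * me α - me α * mt t = α t • me α := by
      have h3 : LinearMap.toMatrix' (α t • A.e α : LV L h.br).1 = α t • me α := by
        change LinearMap.toMatrix' (α t • (A.e α).1) = _
        rw [map_smul]
      rw [← h3, ← h1]
      exact (hlie _ _).symm
    rw [← hconj, ← hmul, ← hmul, ← hsub, h2, mul_smul_comm, smul_mul_assoc]
  let C : Core (ca g a) (cb g' b) T :=
    { car := car_change hcar hg'g
      R := A.R
      χ := χ
      e := fun α => g' * me α * g
      h := A.h
      φ := φ
      L := { carrier := {x | g * x * g' ∈ L}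
             zero_mem' := by
               change g * 0 * g' ∈ L
               rw [mul_zero, zero_mul]; exact L.zero_mem
             add_mem' := fun {x y} hx hy => by
               change g * (x + y) * g' ∈ L
               rw [mul_add, add_mul]; exact L.add_mem hx hy
             smul_mem' := fun c x hx => by
               change g * (c • x) * g' ∈ L
               rw [mul_smul_comm, smul_mul_assoc]; exact L.smul_mem c hx }
      wt := by
        intro α hα p q hne
        have hbd : IsBD (g' * me α * g) := (hg'bd.mul (h.bd _ (A.e α).2)).mul hgbd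
        refine ⟨by_contra fun h1 => hne (hbd p q h1), LinearMap.ext fun t => ?_⟩
        have h1 := congrFun (congrFun (hwt α hα t) p) q
        rw [Matrix.sub_apply, Matrix.diagonal_mul, Matrix.mul_diagonal, Matrix.smul_apply,
          smul_eq_mul] at h1
        have h2 : (χ p t - χ q t) * (g' * me α * g) p q = α t * (g' * me α * g) p q := by
          rw [← h1]; ring
        exact mul_right_cancel₀ hne h2
      br := by
        intro α hα
        have h1 := congrArg (fun x : LV L h.br => LinearMap.toMatrix' x.1) (A.br α hα)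
        have h2 : me α * me (-α) - me (-α) * me α = mt (A.h α) := by
          rw [← hlie]
          exact h1
        rw [← hmul, ← hmul, ← hsub, h2, hconj]
      prh := fun α hα β hβ => A.prh α hα β (A.rat α hα β hβ)
      add1 := by
        intro α hα β hβ hαβ
        obtain ⟨c, hc⟩ := A.add1 α hα β hβ hαβ
        refine ⟨c, ?_⟩
        have h1 := congrArg (fun x : LV L h.br => LinearMap.toMatrix' x.1) hc
        have h2 : me α * me β - me β * me α = c • me (α + β) := by
          rw [← hlie]
          refine h1.trans ?_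
          change LinearMap.toMatrix' (c • (A.e (α + β)).1) = _
          rw [map_smul]
        rw [← hmul, ← hmul, ← hsub, h2, mul_smul_comm, smul_mul_assoc]
      ene := by
        intro α hα h0
        have h1 : me α = 0 := by rw [← hinv' (me α), h0, mul_zero, zero_mul]
        have h2 : (A.e α).1 = 0 := (LinearEquiv.map_eq_zero_iff LinearMap.toMatrix').1 h1
        exact A.ene α hα (Subtype.ext h2)
      gen := hφ'
      anti := hanti
      mem := by
        intro α hα
        change g * (g' * me α * g) * g' ∈ L
        rw [hinv']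
        exact (A.e α).2
      Lbr := by
        intro x hx y hy
        change g * (x * y - y * x) * g' ∈ L
        rw [mul_sub, sub_mul, hmul', hmul']
        exact h.br _ hx _ hy
      Lspan := by
        intro x hx
        have hx' : Matrix.toLin' (g * x * g') ∈ LV L h.br := by
          rw [mem_LV, LinearMap.toMatrix'_toLin']
          exact hx
        have h1 : (⟨Matrix.toLin' (g * x * g'), hx'⟩ : LV L h.br) ∈
            LinearMap.range A.ι ⊔ Submodule.span ℂ (A.e '' A.R.Φ) := A.span trivial
        obtain ⟨y, ⟨t, rfl⟩, z, hz, h2⟩ := Submodule.mem_sup.1 h1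
        refine ⟨t, ?_⟩
        have h3 : g * x * g' = mt t + LinearMap.toMatrix' z.1 := by
          have h4 := congrArg (fun f : LV L h.br => LinearMap.toMatrix' f.1) h2
          have h5 : LinearMap.toMatrix' (A.ι t + z : LV L h.br).1 =
              mt t + LinearMap.toMatrix' z.1 := by
            change LinearMap.toMatrix' ((A.ι t).1 + z.1) = _
            rw [map_add]
          rw [← h5]
          refine Eq.trans ?_ h4.symm
          exact (LinearMap.toMatrix'_toLin' _).symm
        have h4 : x - Matrix.diagonal (fun p => χ p t) = g' * LinearMap.toMatrix' z.1 * g := by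
          have h5 := hinv x
          rw [h3, mul_add, add_mul, hconj] at h5
          rw [← h5]
          abel
        rw [h4]
        clear h4 h3 h2 h1
        induction hz using Submodule.span_induction with
        | mem z hz =>
          obtain ⟨α, hα, rfl⟩ := hz
          exact Submodule.subset_span ⟨α, hα, rfl⟩
        | zero =>
          change g' * LinearMap.toMatrix' 0 * g ∈ _
          rw [map_zero, mul_zero, zero_mul]
          exact Submodule.zero_mem _
        | add y z _ _ hy hz =>
          change g' * LinearMap.toMatrix' (y.1 + z.1) * g ∈ _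
          rw [map_add, mul_add, add_mul]
          exact Submodule.add_mem _ hy hz
        | smul c z _ hz =>
          change g' * LinearMap.toMatrix' (c • z.1) * g ∈ _
          rw [map_smul, mul_smul_comm, smul_mul_assoc]
          exact Submodule.smul_mem _ c hz
      stable := by
        intro P hP hN
        have h1 := st P (fun x hx u hu => by
          have h2 := hP (g' * x * g) (by
            change g * (g' * x * g) * g' ∈ L
            rw [hinv']
            exact hx) u hu
          rw [rho_change, hinv'] at h2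
          exact h2) (fun σ u hu => by
          have h2 := hN σ u hu
          rw [rho_change] at h2
          have h3 : g * pj k n σ * g' = pj k n σ := by
            rw [← pj_comm σ hgbd, mul_assoc, hgg', mul_one]
          have h4 : (Matrix.diagonal fun p : Fin k × Fin n => if p.1 = σ then (1 : ℂ) else 0) =
            pj k n σ := rfl
          rw [h4, h3] at h2
          exact h2)
        intro σ i j u hu
        have h2 : ca g a (σ, i) (cb g' b (σ, j) u) =
            ∑ p, ∑ s, (g p (σ, i) * g' (σ, j) s) • a p (b s u) := by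
          rw [← Module.End.mul_apply, ca_mul_cb, LinearMap.sum_apply]
          refine Finset.sum_congr rfl fun p _ => ?_
          rw [LinearMap.sum_apply]
          rfl
        rw [h2]
        refine P.sum_mem fun p _ => P.sum_mem fun s _ => ?_
        by_cases hp : p.1 = σ
        · by_cases hs : s.1 = σ
          · have hpe : p = (σ, p.2) := Prod.ext hp rfl
            have hse : s = (σ, s.2) := Prod.ext hs rfl
            rw [hpe, hse]
            exact P.smul_mem _ (h1 σ p.2 s.2 u hu)
          · rw [hg'bd (σ, j) s (Ne.symm hs), mul_zero, zero_smul]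
            exact P.zero_mem
        · rw [hgbd p (σ, i) hp, zero_mul, zero_smul]
          exact P.zero_mem }
  exact ⟨g, g', hgbd, hg'bd, hgg', hg'g, fun σ i hi => C.units hn σ i hi⟩

end Pool.Agent.R918
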