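import Mathlib

set_option autoImplicit false
set_option linter.unusedSectionVars false

/-!
# Canonical anticommutation relations: vacuum vectors and the second quantization of matrices
-/

open Module

namespace Pool.Agent.R918

variable {U : Type} [AddCommGroup U] [Module ℂ U]
variable {J : Type} [DecidableEq J]

/-- The canonical anticommutation relations. -/
structure Car (a b : J → Module.End ℂ U) : Prop where
  aa : ∀ p q, a p * a q = -(a q * a p)
  bb : ∀ p q, b p * b q = -(b q * b p)
  ab : ∀ p q, a p * b q + b q * a p = if p = q then 1 else 0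

/-- `u` is a vector with the occupation numbers given by `S`. -/
def Vac (a b : J → Module.End ℂ U) (S : Finset J) (u : U) : Prop :=
  (∀ p ∈ S, a p u = 0) ∧ ∀ p, p ∉ S → b p u = 0

/-- `f` is a functional with the occupation numbers given by `S`. -/
def Cov (a b : J → Module.End ℂ U) (S : Finset J) (f : Module.Dual ℂ U) : Prop :=
  (∀ p, p ∉ S → ∀ w, f (a p w) = 0) ∧ ∀ p ∈ S, ∀ w, f (b p w) = 0

variable {a b : J → Module.End ℂ U}

namespace Car

theorem aa' (h : Car a b) (p q : J) (u : U) : a p (a q u) = -(a q (a p u)) :=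
  LinearMap.congr_fun (h.aa p q) u

theorem bb' (h : Car a b) (p q : J) (u : U) : b p (b q u) = -(b q (b p u)) :=
  LinearMap.congr_fun (h.bb p q) u

theorem ab' (h : Car a b) (p q : J) (u : U) :
    a p (b q u) + b q (a p u) = if p = q then u else 0 := by
  have h1 := LinearMap.congr_fun (h.ab p q) u
  rw [LinearMap.add_apply, Module.End.mul_apply, Module.End.mul_apply] at h1
  rw [h1]
  split_ifs
  · rfl
  · rfl

theorem abne (h : Car a b) {p q : J} (hpq : p ≠ q) (u : U) : a p (b q u) = -(b q (a p u)) := by
  have h1 := h.ab' p q u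
  rw [if_neg hpq] at h1
  exact eq_neg_of_add_eq_zero_left h1

theorem aasq (h : Car a b) (p : J) (u : U) : a p (a p u) = 0 := by
  have h1 := h.aa' p p u
  have h2 : (2 : ℂ) • a p (a p u) = 0 := by
    rw [two_smul]
    nth_rewrite 1 [h1]
    exact neg_add_cancel _
  exact (smul_eq_zero.1 h2).resolve_left two_ne_zero

theorem bbsq (h : Car a b) (p : J) (u : U) : b p (b p u) = 0 := by
  have h1 := h.bb' p p u
  have h2 : (2 : ℂ) • b p (b p u) = 0 := by
    rw [two_smul]
    nth_rewrite 1 [h1]
    exact neg_add_cancel _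
  exact (smul_eq_zero.1 h2).resolve_left two_ne_zero

/-- `a b` on a vector with `p` occupied -/
theorem ab_of_a (h : Car a b) {p : J} {u : U} (hu : a p u = 0) : a p (b p u) = u := by
  have h1 := h.ab' p p u
  rwa [if_pos rfl, hu, map_zero, add_zero] at h1

theorem ba_of_b (h : Car a b) {p : J} {u : U} (hu : b p u = 0) : b p (a p u) = u := by
  have h1 := h.ab' p p u
  rwa [if_pos rfl, hu, map_zero, zero_add] at h1

/-- There are vacuum vectors. -/
theorem exists_vac [Fintype J] [Nontrivial U] (h : Car a b) (S : Finset J) :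
    ∃ u, u ≠ 0 ∧ Vac a b S u := by
  have h0 : ∀ Q : Finset J, ∃ u, u ≠ 0 ∧ ∀ p ∈ Q, b p u = 0 := by
    intro Q
    induction Q using Finset.induction_on with
    | empty =>
      obtain ⟨u, hu⟩ := exists_ne (0 : U)
      exact ⟨u, hu, fun p hp => absurd hp (Finset.notMem_empty p)⟩
    | insert q Q _ ih =>
      obtain ⟨u, hu, h1⟩ := ih
      by_cases h2 : b q u = 0
      · refine ⟨u, hu, fun p hp => ?_⟩
        rcases Finset.mem_insert.1 hp with rfl | hp
        · exact h2
        · exact h1 p hp
      · refine ⟨b q u, h2, fun p hp => ?_⟩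
        rcases Finset.mem_insert.1 hp with rfl | hp
        · exact h.bbsq p u
        · rw [h.bb', h1 p hp, map_zero, neg_zero]
  induction S using Finset.induction_on with
  | empty =>
    obtain ⟨u, hu, h1⟩ := h0 Finset.univ
    exact ⟨u, hu, fun p hp => absurd hp (Finset.notMem_empty p), fun p _ => h1 p (Finset.mem_univ p)⟩
  | insert q S hq ih =>
    obtain ⟨u, hu, h1, h2⟩ := ih
    refine ⟨a q u, fun h3 => hu ?_, fun p hp => ?_, fun p hp => ?_⟩
    · rw [← h.ba_of_b (h2 q hq), h3, map_zero]
    · rcases Finset.mem_insert.1 hp with rfl | hp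
      · exact h.aasq p u
      · rw [h.aa', h1 p hp, map_zero, neg_zero]
    · rw [Finset.mem_insert, not_or] at hp
      have h3 := h.abne (Ne.symm hp.1) u
      rw [h2 p hp.2, map_zero] at h3
      rw [← neg_eq_zero]
      exact h3.symm

/-- There are vacuum functionals. -/
theorem exists_cov [Fintype J] (h : Car a b) {S : Finset J} {u : U} (hu : Vac a b S u)
    (hu0 : u ≠ 0) : ∃ f, Cov a b S f ∧ f u = 1 := by
  have h0 : ∀ Q : Finset J, ∃ f : Module.Dual ℂ U, f u = 1 ∧
      ∀ p ∈ Q, (p ∉ S → ∀ w, f (a p w) = 0) ∧ (p ∈ S → ∀ w, f (b p w) = 0) := by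
    intro Q
    induction Q using Finset.induction_on with
    | empty =>
      obtain ⟨f, hf⟩ := Module.Projective.exists_dual_ne_zero ℂ hu0
      refine ⟨(f u)⁻¹ • f, ?_, fun p hp => absurd hp (Finset.notMem_empty p)⟩
      rw [LinearMap.smul_apply, smul_eq_mul, inv_mul_cancel₀ hf]
    | insert q Q hq ih =>
      obtain ⟨f, hf, h1⟩ := ih
      by_cases hqS : q ∈ S
      · refine ⟨f ∘ₗ (a q * b q), ?_, fun p hp => ?_⟩
        · rw [LinearMap.comp_apply, Module.End.mul_apply, h.ab_of_a (hu.1 q hqS), hf]
        · by_cases hpq : p = q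
          · subst hpq
            refine ⟨fun h2 => absurd hqS h2, fun _ w => ?_⟩
            rw [LinearMap.comp_apply, Module.End.mul_apply, h.bbsq, map_zero, map_zero]
          · have hpQ : p ∈ Q := (Finset.mem_insert.1 hp).resolve_left hpq
            refine ⟨fun h2 w => ?_, fun h2 w => ?_⟩
            · have h3 : b q (a p w) = -(a p (b q w)) := by
                rw [h.abne hpq, neg_neg]
              rw [LinearMap.comp_apply, Module.End.mul_apply, h3, map_neg, h.aa', neg_neg,
                (h1 p hpQ).1 h2]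
            · rw [LinearMap.comp_apply, Module.End.mul_apply, h.bb' q p, map_neg,
                h.abne (Ne.symm hpq), neg_neg, (h1 p hpQ).2 h2]
      · refine ⟨f ∘ₗ (b q * a q), ?_, fun p hp => ?_⟩
        · rw [LinearMap.comp_apply, Module.End.mul_apply, h.ba_of_b (hu.2 q hqS), hf]
        · by_cases hpq : p = q
          · subst hpq
            refine ⟨fun _ w => ?_, fun h2 => absurd h2 hqS⟩
            rw [LinearMap.comp_apply, Module.End.mul_apply, h.aasq, map_zero, map_zero]
          · have hpQ : p ∈ Q := (Finset.mem_insert.1 hp).resolve_left hpq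
            refine ⟨fun h2 w => ?_, fun h2 w => ?_⟩
            · have h3 : b q (a p (a q w)) = -(a p (b q (a q w))) := by
                rw [h.abne hpq, neg_neg]
              rw [LinearMap.comp_apply, Module.End.mul_apply, h.aa' q p, map_neg, h3, neg_neg,
                (h1 p hpQ).1 h2]
            · rw [LinearMap.comp_apply, Module.End.mul_apply, h.abne (Ne.symm hpq), map_neg,
                h.bb' q p, neg_neg, (h1 p hpQ).2 h2]
  obtain ⟨f, hf, h1⟩ := h0 Finset.univ
  exact ⟨f, ⟨fun p hp => (h1 p (Finset.mem_univ p)).1 hp,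
    fun p hp => (h1 p (Finset.mem_univ p)).2 hp⟩, hf⟩

end Car

/-- The action of matrices. -/
noncomputable def rho [Fintype J] (a b : J → Module.End ℂ U) :
    Matrix J J ℂ →ₗ[ℂ] Module.End ℂ U where
  toFun M := ∑ p, ∑ q, M p q • (a p * b q)
  map_add' M N := by
    simp only [Matrix.add_apply, add_smul, Finset.sum_add_distrib]
  map_smul' c M := by
    simp only [Matrix.smul_apply, smul_eq_mul, mul_smul, Finset.smul_sum, RingHom.id_apply]

section rho

variable [Fintype J]

theorem rho_apply (M : Matrix J J ℂ) (u : U) :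
    rho a b M u = ∑ p, ∑ q, M p q • a p (b q u) := by
  change (∑ p, ∑ q, M p q • (a p * b q)) u = _
  simp only [LinearMap.sum_apply, LinearMap.smul_apply, Module.End.mul_apply]

theorem rho_single (p q : J) (c : ℂ) (u : U) :
    rho a b (Matrix.single p q c) u = c • a p (b q u) := by
  rw [rho_apply, Finset.sum_eq_single p, Finset.sum_eq_single q]
  · have h1 : Matrix.single p q c p q = c := by simp
    rw [h1]
  · intro r _ hr
    have h1 : Matrix.single p q c p r = 0 := by simp [Matrix.single_apply, Ne.symm hr]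
    rw [h1, zero_smul]
  · intro h; exact absurd (Finset.mem_univ _) h
  · intro r _ hr
    refine Finset.sum_eq_zero fun s _ => ?_
    have h1 : Matrix.single p q c r s = 0 := by simp [Matrix.single_apply, Ne.symm hr]
    rw [h1, zero_smul]
  · intro h; exact absurd (Finset.mem_univ _) h

theorem rho_a (h : Car a b) (M : Matrix J J ℂ) (r : J) (u : U) :
    rho a b M (a r u) = a r (rho a b M u) + ∑ p, M p r • a p u := by
  have h1 : ∀ p q, M p q • a p (b q (a r u)) =
      M p q • a r (a p (b q u)) + if q = r then M p q • a p u else 0 := by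
    intro p q
    have h2 : b q (a r u) = (if r = q then u else 0) - a r (b q u) := by
      rw [← h.ab' r q u]; abel
    rw [h2, map_sub, h.aa' p r, sub_neg_eq_add, smul_add, add_comm]
    congr 1
    by_cases hq : q = r
    · rw [if_pos hq, if_pos hq.symm]
    · rw [if_neg hq, if_neg (Ne.symm hq), map_zero, smul_zero]
  rw [rho_apply, rho_apply, map_sum, ← Finset.sum_add_distrib]
  refine Finset.sum_congr rfl fun p _ => ?_
  rw [Finset.sum_congr rfl fun q _ => h1 p q, Finset.sum_add_distrib, Finset.sum_ite_eq',
    if_pos (Finset.mem_univ _), map_sum]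
  congr 1
  exact Finset.sum_congr rfl fun q _ => by rw [map_smul]

theorem rho_b (h : Car a b) (M : Matrix J J ℂ) (r : J) (u : U) :
    rho a b M (b r u) = b r (rho a b M u) - ∑ q, M r q • b q u := by
  have h1 : ∀ q p, M p q • a p (b q (b r u)) =
      M p q • b r (a p (b q u)) - if p = r then M p q • b q u else 0 := by
    intro q p
    have h2 : a p (b r (b q u)) = (if p = r then b q u else 0) - b r (a p (b q u)) := by
      rw [← h.ab' p r (b q u)]; abel
    rw [h.bb' q r, map_neg, h2, neg_sub, smul_sub]
    congr 1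
    by_cases hp : p = r
    · rw [if_pos hp, if_pos hp]
    · rw [if_neg hp, if_neg hp, smul_zero]
  rw [rho_apply, rho_apply, map_sum, Finset.sum_comm]
  have h3 : ∑ p, b r (∑ q, M p q • a p (b q u)) = ∑ q, ∑ p, M p q • b r (a p (b q u)) := by
    rw [Finset.sum_comm]
    refine Finset.sum_congr rfl fun p _ => ?_
    rw [map_sum]
    exact Finset.sum_congr rfl fun q _ => by rw [map_smul]
  rw [h3, ← Finset.sum_sub_distrib]
  refine Finset.sum_congr rfl fun q _ => ?_
  rw [Finset.sum_congr rfl fun p _ => h1 q p, Finset.sum_sub_distrib, Finset.sum_ite_eq',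
    if_pos (Finset.mem_univ _)]

theorem rho_bracket (h : Car a b) (M N : Matrix J J ℂ) :
    rho a b (M * N - N * M) = rho a b M * rho a b N - rho a b N * rho a b M := by
  refine LinearMap.ext fun u => ?_
  rw [LinearMap.sub_apply, Module.End.mul_apply, Module.End.mul_apply, map_sub,
    LinearMap.sub_apply]
  have h1 : rho a b M (rho a b N u) = rho a b N (rho a b M u) +
      (∑ p, ∑ q, N p q • ∑ r, M r p • a r (b q u)) -
        ∑ p, ∑ q, N p q • a p (∑ r, M q r • b r u) := by
    rw [rho_apply N u, rho_apply N (rho a b M u), map_sum, ← Finset.sum_add_distrib,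
      ← Finset.sum_sub_distrib]
    refine Finset.sum_congr rfl fun p _ => ?_
    rw [map_sum, ← Finset.sum_add_distrib, ← Finset.sum_sub_distrib]
    refine Finset.sum_congr rfl fun q _ => ?_
    rw [map_smul, rho_a h, rho_b h, map_sub, smul_add, smul_sub]
    abel
  have h2 : rho a b (M * N) u = ∑ p, ∑ q, N p q • ∑ r, M r p • a r (b q u) := by
    rw [rho_apply]
    have e1 : ∀ p q, (M * N) p q • a p (b q u) = ∑ r, (M p r * N r q) • a p (b q u) := by
      intro p q
      rw [Matrix.mul_apply, Finset.sum_smul]
    rw [Finset.sum_congr rfl fun p _ => Finset.sum_congr rfl fun q _ => e1 p q]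
    have e2 : ∀ p q, N p q • ∑ r, M r p • a r (b q u) = ∑ r, (M r p * N p q) • a r (b q u) := by
      intro p q
      rw [Finset.smul_sum]
      exact Finset.sum_congr rfl fun r _ => by rw [smul_smul, mul_comm]
    rw [Finset.sum_congr rfl fun p _ => Finset.sum_congr rfl fun q _ => e2 p q]
    calc ∑ p, ∑ q, ∑ r, (M p r * N r q) • a p (b q u)
        = ∑ p, ∑ r, ∑ q, (M p r * N r q) • a p (b q u) :=
          Finset.sum_congr rfl fun p _ => Finset.sum_comm
      _ = ∑ r, ∑ p, ∑ q, (M p r * N r q) • a p (b q u) := Finset.sum_comm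
      _ = ∑ r, ∑ q, ∑ p, (M p r * N r q) • a p (b q u) :=
          Finset.sum_congr rfl fun r _ => Finset.sum_comm
  have h3 : rho a b (N * M) u = ∑ p, ∑ q, N p q • a p (∑ r, M q r • b r u) := by
    rw [rho_apply]
    have e1 : ∀ p q, (N * M) p q • a p (b q u) = ∑ r, (N p r * M r q) • a p (b q u) := by
      intro p q
      rw [Matrix.mul_apply, Finset.sum_smul]
    rw [Finset.sum_congr rfl fun p _ => Finset.sum_congr rfl fun q _ => e1 p q]
    refine Finset.sum_congr rfl fun p _ => ?_
    rw [Finset.sum_comm]
    refine Finset.sum_congr rfl fun q _ => ?_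
    rw [map_sum, Finset.smul_sum]
    exact Finset.sum_congr rfl fun r _ => by rw [map_smul, smul_smul]
  rw [h1, h2, h3]
  abel

end rho

end Pool.Agent.R918
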