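import Pool.Agent.R918.MidAV

set_option autoImplicit false
set_option linter.unusedSectionVars false
set_option linter.unusedVariables false

/-!
# Abelian varieties of middle exterior type, in terms of matrices
-/

open Module Function TensorProduct Matrix

noncomputable section

namespace Pool.Agent.R918

open Pool.Agent.Y102 Pool.Agent.W516.DR Pool.Agent.H204R3.GP

/-- the identification of `ℂ ^ n` with the complexification of `ℚ ^ n` -/
def eqv (n : ℕ) : (Fin n → ℂ) ≃ₗ[ℂ] (ℂ ⊗[ℚ] (Fin n → ℚ)) :=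
  (Algebra.TensorProduct.basis ℂ (Pi.basisFun ℚ (Fin n))).equivFun.symm

theorem matE_eqv (n : ℕ) (M : Matrix (Fin n) (Fin n) ℂ) (v : Fin n → ℂ) :
    matE n M (eqv n v) = eqv n (M.mulVec v) := by
  unfold matE eqv
  have h1 : (LinearMap.toMatrixAlgEquiv (Algebra.TensorProduct.basis ℂ
      (Pi.basisFun ℚ (Fin n)))).symm M = Matrix.toLin
        (Algebra.TensorProduct.basis ℂ (Pi.basisFun ℚ (Fin n)))
        (Algebra.TensorProduct.basis ℂ (Pi.basisFun ℚ (Fin n))) M := rfl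
  have h2 : ⇑((Algebra.TensorProduct.basis ℂ (Pi.basisFun ℚ (Fin n))).repr
      ((Algebra.TensorProduct.basis ℂ (Pi.basisFun ℚ (Fin n))).equivFun.symm v)) = v := by
    rw [← Basis.equivFun_apply, LinearEquiv.apply_symm_apply]
  rw [h1, Matrix.toLin_apply, h2, Basis.equivFun_symm_apply]

variable {N k n r : ℕ}

/-- The second quantization of `x`, for the colour `σ`. -/
def quant (a b : Fin k → Fin n → Matrix (Fin N) (Fin N) ℂ) (σ : Fin k)
    (x : Matrix (Fin n) (Fin n) ℂ) : Matrix (Fin N) (Fin N) ℂ :=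
  ∑ i, ∑ j, x i j • (a σ i * b σ j)

/-- operators -/
def opl (a : Fin k → Fin n → Matrix (Fin N) (Fin N) ℂ) (p : Fin k × Fin n) :
    Module.End ℂ (Fin N → ℂ) := Matrix.toLinAlgEquiv' (a p.1 p.2)

/-- the block of a matrix -/
def blk (M : Matrix (Fin k × Fin n) (Fin k × Fin n) ℂ) (σ : Fin k) : Matrix (Fin n) (Fin n) ℂ :=
  Matrix.of fun i j => M (σ, i) (σ, j)

/-- the matrix with one block -/
def emb (σ : Fin k) (x : Matrix (Fin n) (Fin n) ℂ) :
    Matrix (Fin k × Fin n) (Fin k × Fin n) ℂ :=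
  Matrix.of fun p q => if p.1 = σ ∧ q.1 = σ then x p.2 q.2 else 0

variable {a b : Fin k → Fin n → Matrix (Fin N) (Fin N) ℂ}

theorem rho_blk {M : Matrix (Fin k × Fin n) (Fin k × Fin n) ℂ} (hM : IsBD M) :
    rho (opl a) (opl b) M = ∑ σ, Matrix.toLinAlgEquiv' (quant a b σ (blk M σ)) := by
  have h1 : rho (opl a) (opl b) M = ∑ p, ∑ q, M p q • (opl a p * opl b q) := rfl
  rw [h1, Fintype.sum_prod_type]
  refine Finset.sum_congr rfl fun σ _ => ?_
  unfold quant
  rw [map_sum]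
  refine Finset.sum_congr rfl fun i _ => ?_
  rw [map_sum, Fintype.sum_prod_type, Finset.sum_eq_single σ]
  · refine Finset.sum_congr rfl fun j _ => ?_
    rw [map_smul, map_mul]
    rfl
  · intro τ _ hτ
    refine Finset.sum_eq_zero fun j _ => ?_
    rw [hM _ _ (Ne.symm hτ), zero_smul]
  · intro h; exact absurd (Finset.mem_univ _) h

theorem blk_emb (σ τ : Fin k) (x : Matrix (Fin n) (Fin n) ℂ) :
    blk (emb σ x) τ = if τ = σ then x else 0 := by
  ext i j
  change (if τ = σ ∧ τ = σ then x i j else 0) = _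
  by_cases h : τ = σ
  · rw [if_pos ⟨h, h⟩, if_pos h]
  · rw [if_neg (fun h' => h h'.1), if_neg h]
    rfl

theorem quant_zero (σ : Fin k) : quant a b σ 0 = 0 := by
  unfold quant
  refine Finset.sum_eq_zero fun i _ => Finset.sum_eq_zero fun j _ => ?_
  rw [Matrix.zero_apply, zero_smul]

theorem rho_emb (σ : Fin k) (x : Matrix (Fin n) (Fin n) ℂ) :
    rho (opl a) (opl b) (emb σ x) = Matrix.toLinAlgEquiv' (quant a b σ x) := by
  have hbd : IsBD (emb σ x) := by
    intro p q hpq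
    change (if p.1 = σ ∧ q.1 = σ then x p.2 q.2 else 0) = 0
    rw [if_neg]
    rintro ⟨h1, h2⟩
    exact hpq (h1.trans h2.symm)
  rw [rho_blk hbd, Finset.sum_eq_single σ]
  · rw [blk_emb, if_pos rfl]
  · intro τ _ hτ
    rw [blk_emb, if_neg hτ, quant_zero, map_zero]
  · intro h; exact absurd (Finset.mem_univ _) h

theorem isBD_emb (σ : Fin k) (x : Matrix (Fin n) (Fin n) ℂ) : IsBD (emb σ x) := by
  intro p q hpq
  change (if p.1 = σ ∧ q.1 = σ then x p.2 q.2 else 0) = 0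
  rw [if_neg]
  rintro ⟨h1, h2⟩
  exact hpq (h1.trans h2.symm)

theorem btr_blk (σ : Fin k) (M : Matrix (Fin k × Fin n) (Fin k × Fin n) ℂ) :
    btr σ M = (blk M σ).trace := by
  rw [btr_sum]
  rfl

theorem nn_quant (σ : Fin k) : nn (opl a) (opl b) σ = Matrix.toLinAlgEquiv' (quant a b σ 1) := by
  unfold nn quant
  rw [map_sum]
  refine Finset.sum_congr rfl fun i _ => ?_
  rw [map_sum, Finset.sum_eq_single i]
  · rw [Matrix.one_apply_eq, one_smul, map_mul]
    rfl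
  · intro j _ hj
    rw [Matrix.one_apply_ne (Ne.symm hj), zero_smul, map_zero]
  · intro h; exact absurd (Finset.mem_univ _) h

/-- the projection -/
def PP (P : Matrix (Fin r) (Fin N) ℂ) : (Fin N → ℂ) →ₗ[ℂ] (ℂ ⊗[ℚ] (Fin r → ℚ)) :=
  (eqv r).toLinearMap ∘ₗ Matrix.toLin' P

/-- the inclusion -/
def QQ (Q : Matrix (Fin N) (Fin r) ℂ) : (ℂ ⊗[ℚ] (Fin r → ℚ)) →ₗ[ℂ] (Fin N → ℂ) :=
  Matrix.toLin' Q ∘ₗ (eqv r).symm.toLinearMap

variable {P : Matrix (Fin r) (Fin N) ℂ} {Q : Matrix (Fin N) (Fin r) ℂ}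

theorem PP_apply (v : Fin N → ℂ) : PP P v = eqv r (P.mulVec v) := rfl

theorem QQ_eqv (w : Fin r → ℂ) : QQ Q (eqv r w) = Q.mulVec w := by
  change Matrix.toLin' Q ((eqv r).symm (eqv r w)) = _
  rw [LinearEquiv.symm_apply_apply]
  rfl

theorem cmp_PQ (X : Matrix (Fin N) (Fin N) ℂ) :
    cmp (PP P) (QQ Q) (Matrix.toLinAlgEquiv' X) = matE r (P * X * Q) := by
  refine LinearMap.ext fun x => ?_
  obtain ⟨w, rfl⟩ := (eqv r).surjective x
  rw [cmp_apply, QQ_eqv, matE_eqv, PP_apply, ← Matrix.mulVec_mulVec, ← Matrix.mulVec_mulVec]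
  rfl

theorem midSet_of {m : ℕ} (hm : 2 * m = n) (hPQ : P * Q = 1)
    (hQ : ∀ v, (∃ w, v = Q.mulVec w) ↔ ∀ σ, (quant a b σ 1).mulVec v = (m : ℂ) • v) :
    MidSet (opl a) (opl b) (PP P) (QQ Q) where
  pq x := by
    obtain ⟨w, rfl⟩ := (eqv r).surjective x
    rw [QQ_eqv, PP_apply, Matrix.mulVec_mulVec, hPQ, Matrix.one_mulVec]
  mid x τ := by
    obtain ⟨w, rfl⟩ := (eqv r).surjective x
    have h1 := (hQ (Q.mulVec w)).1 ⟨w, rfl⟩ τ
    rw [QQ_eqv, nn_quant]
    change (2 : ℂ) • (quant a b τ 1).mulVec (Q.mulVec w) = _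
    rw [h1, smul_smul, ← hm]
    push_cast
    rfl
  qp u hu := by
    have h1 : ∀ σ, (quant a b σ 1).mulVec u = (m : ℂ) • u := by
      intro σ
      have h2 := hu σ
      rw [nn_quant] at h2
      have h3 : (2 : ℂ) • (quant a b σ 1).mulVec u = (2 : ℂ) • ((m : ℂ) • u) := by
        refine h2.trans ?_
        rw [smul_smul, ← hm]
        push_cast
        rfl
      exact smul_right_injective _ (two_ne_zero (α := ℂ)) h3
    obtain ⟨w, rfl⟩ := (hQ u).2 h1
    rw [PP_apply, QQ_eqv, Matrix.mulVec_mulVec, Matrix.mulVec_mulVec, Matrix.mul_assoc, hPQ,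
      Matrix.mul_one]

theorem car_opl
    (haa : ∀ σ i τ j, a σ i * a τ j = -(a τ j * a σ i))
    (hbb : ∀ σ i τ j, b σ i * b τ j = -(b τ j * b σ i))
    (hab : ∀ σ i τ j, a σ i * b τ j + b τ j * a σ i = if σ = τ ∧ i = j then 1 else 0) :
    Car (opl a) (opl b) where
  aa p q := by
    unfold opl
    rw [← map_mul, haa, map_neg, map_mul]
  bb p q := by
    unfold opl
    rw [← map_mul, hbb, map_neg, map_mul]
  ab p q := by
    unfold opl
    rw [← map_mul, ← map_mul, ← map_add, hab]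
    by_cases hpq : p = q
    · rw [if_pos hpq, if_pos ⟨congrArg Prod.fst hpq, congrArg Prod.snd hpq⟩, map_one]
    · rw [if_neg hpq, if_neg (fun h => hpq (Prod.ext h.1 h.2)), map_zero]

theorem slC_eq : (Submodule.span ℂ {Y | ∃ σ x, Matrix.trace x = 0 ∧
    Y = P * quant a b σ x * Q}).map (matE r).toLinearMap =
      slC (opl a) (opl b) (PP P) (QQ Q) := by
  refine le_antisymm ?_ ?_
  · rw [Submodule.map_span, Submodule.span_le]
    rintro _ ⟨_, ⟨σ, x, hx, rfl⟩, rfl⟩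
    refine ⟨emb σ x, isBD_emb σ x, fun τ => ?_, ?_⟩
    · rw [btr_blk, blk_emb]
      by_cases h : τ = σ
      · rw [if_pos h, hx]
      · rw [if_neg h, Matrix.trace_zero]
    · rw [rho_emb, cmp_PQ]
      rfl
  · rintro _ ⟨M, hM, htr, rfl⟩
    rw [rho_blk hM, map_sum]
    refine Submodule.sum_mem _ fun σ _ => ?_
    rw [cmp_PQ]
    exact ⟨_, Submodule.subset_span ⟨σ, blk M σ, by rw [← btr_blk, htr], rfl⟩, rfl⟩

section AV

variable {g : ℕ} {A : AbVar g}

/-- every algebraic group which contains the periods, for abelian varieties of middle exterior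
type -/
theorem middle_lie' {m : ℕ} {a b : Fin k → Fin (2 * m) → Matrix (Fin N) (Fin N) ℂ}
    {P : Matrix (Fin (2 * g)) (Fin N) ℂ} {Q : Matrix (Fin N) (Fin (2 * g)) ℂ}
    (haa : ∀ σ i τ j, a σ i * a τ j = -(a τ j * a σ i))
    (hbb : ∀ σ i τ j, b σ i * b τ j = -(b τ j * b σ i))
    (hab : ∀ σ i τ j, a σ i * b τ j + b τ j * a σ i = if σ = τ ∧ i = j then 1 else 0)
    (hPQ : P * Q = 1)
    (hQ : ∀ v, (∃ w, v = Q.mulVec w) ↔ ∀ σ, (quant a b σ 1).mulVec v = (m : ℂ) • v)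
    (hl : Submodule.span ℂ {Y | ∃ X ∈ A.NA, Y = toC X} =
      Submodule.span ℂ {Y | ∃ σ x, Matrix.trace x = 0 ∧ Y = P * quant a b σ x * Q})
    {H : Set (Matrix (Fin (2 * g)) (Fin (2 * g)) ℂ)} (h : Pool.Agent.R917.Pt A H) :
    A.NA ≤ Pool.Agent.R917.lieQ H ∧ (1 : Module.End ℚ A.H1) ∈ Pool.Agent.R917.lieQ H := by
  refine middle_lie rfl (car_opl haa hbb hab) (midSet_of rfl hPQ hQ) ?_ h
  rw [← map_lie, hl, slC_eq]

end AV

end Pool.Agent.R918

end
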