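import Pool.Agent.R918.Rep
import Pool.Agent.R918.MidMat

set_option autoImplicit false
set_option linter.unusedSectionVars false
set_option linter.unusedVariables false

/-!
# Algebraic groups which contain the periods: the centre of the Lie algebra of the Hodge group
-/

open Module Function TensorProduct Matrix

noncomputable section

namespace Pool.Agent.R918

open Pool.Agent.Y102 Pool.Agent.W516.DR Pool.Agent.H204R3.GP

variable {g : ℕ} {A : AbVar g}

/-- The eigenvalues of the central elements are purely imaginary. -/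
theorem re_eigen {X : Module.End ℚ A.H1} (hX : X ∈ A.CN) {v : Fin (2 * g) → ℂ} (hv : v ≠ 0)
    {z : ℂ} (h : (toC X).mulVec v = z • v) : z.re = 0 := by
  obtain ⟨M, hM⟩ := A.hodgeEnd_of_comm fun Y hY => hX.2 Y (A.MA_le_NA hY)
  have hs := A.NA_skew hX.1
  have hsk : ∀ u v, A.E (M u) v = -A.E u (M v) := by
    have h2 : A.E.comp (M.restrictScalars ℝ) = -(A.E.flip.comp (M.restrictScalars ℝ)).flip := by
      refine A.ext_per fun u => A.ext_per fun v => ?_
      change A.E (M (A.per u)) (A.per v) = -A.E (A.per u) (M (A.per v))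
      rw [hM, hM, ← A.om_coe, ← A.om_coe, ← Rat.cast_neg]
      congr 1
      linear_combination hs u v
    intro u v
    exact congrArg (fun F : (Fin g → ℂ) →ₗ[ℝ] (Fin g → ℂ) →ₗ[ℝ] ℝ => F u v) h2
  have hPF : ∀ u v, A.PF (M u) v = -A.PF u (M v) := fun u v => by
    rw [A.PF_apply, A.PF_apply, hsk, map_smul]
  have hP0 : ∀ u, A.PF (M u) u = 0 := by
    intro u
    have h1 := hPF u u
    rw [A.PF_symm u (M u)] at h1
    linarith
  have hMl : ∀ j, M (A.lam j) = ∑ i, ((X (Pi.single j 1) i : ℚ) : ℝ) • A.lam i := by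
    intro j
    rw [← A.per_bas, hM]
    conv_lhs => rw [← A.lam.sum_repr (A.per (X (A.bas j)))]
    refine Finset.sum_congr rfl fun i _ => ?_
    rw [A.repr_per]
    congr 2
    unfold AbVar.bas
    rw [Pi.basisFun_apply]
  have hMr : ∀ f : Fin (2 * g) → ℝ, M (∑ j, f j • A.lam j) =
      ∑ i, (∑ j, ((X (Pi.single j 1) i : ℚ) : ℝ) * f j) • A.lam i := by
    intro f
    rw [map_sum]
    have h1 : ∀ j, M (f j • A.lam j) =
        ∑ i, (((X (Pi.single j 1) i : ℚ) : ℝ) * f j) • A.lam i := by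
      intro j
      have h2 : M (f j • A.lam j) = f j • M (A.lam j) :=
        (M.restrictScalars ℝ).map_smul (f j) (A.lam j)
      rw [h2, hMl, Finset.smul_sum]
      refine Finset.sum_congr rfl fun i _ => ?_
      rw [smul_smul, mul_comm]
    rw [Finset.sum_congr rfl fun j _ => h1 j, Finset.sum_comm]
    refine Finset.sum_congr rfl fun i _ => ?_
    rw [Finset.sum_smul]
  have hc : ∀ i, ∑ j, ((X (Pi.single j 1) i : ℚ) : ℂ) * v j = z * v i := by
    intro i
    exact congrFun h i
  have hre : ∀ i, ∑ j, ((X (Pi.single j 1) i : ℚ) : ℝ) * (v j).re =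
      z.re * (v i).re - z.im * (v i).im := by
    intro i
    have h1 := congrArg Complex.re (hc i)
    rw [Complex.re_sum, Complex.mul_re] at h1
    rw [← h1]
    refine Finset.sum_congr rfl fun j _ => ?_
    rw [Complex.mul_re, Complex.ratCast_re, Complex.ratCast_im, zero_mul, sub_zero]
  have him : ∀ i, ∑ j, ((X (Pi.single j 1) i : ℚ) : ℝ) * (v j).im =
      z.re * (v i).im + z.im * (v i).re := by
    intro i
    have h1 := congrArg Complex.im (hc i)
    rw [Complex.im_sum, Complex.mul_im] at h1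
    rw [← h1]
    refine Finset.sum_congr rfl fun j _ => ?_
    rw [Complex.mul_im, Complex.ratCast_re, Complex.ratCast_im, zero_mul, add_zero]
  obtain ⟨a, ha⟩ : ∃ a, a = ∑ j, (v j).re • A.lam j := ⟨_, rfl⟩
  obtain ⟨b, hb⟩ : ∃ b, b = ∑ j, (v j).im • A.lam j := ⟨_, rfl⟩
  have hMa : M a = z.re • a - z.im • b := by
    rw [ha, hb, hMr, Finset.smul_sum, Finset.smul_sum, ← Finset.sum_sub_distrib]
    refine Finset.sum_congr rfl fun i _ => ?_
    rw [hre, smul_smul, smul_smul, ← sub_smul]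
  have hMb : M b = z.re • b + z.im • a := by
    rw [ha, hb, hMr, Finset.smul_sum, Finset.smul_sum, ← Finset.sum_add_distrib]
    refine Finset.sum_congr rfl fun i _ => ?_
    rw [him, smul_smul, smul_smul, ← add_smul]
  have h1 := hP0 a
  have h2 := hP0 b
  rw [hMa, map_sub, LinearMap.sub_apply, map_smul, map_smul, LinearMap.smul_apply,
    LinearMap.smul_apply, smul_eq_mul, smul_eq_mul] at h1
  rw [hMb, map_add, LinearMap.add_apply, map_smul, map_smul, LinearMap.smul_apply,
    LinearMap.smul_apply, smul_eq_mul, smul_eq_mul, A.PF_symm a b] at h2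
  have h3 : z.re * (A.PF a a + A.PF b b) = 0 := by linarith
  refine (mul_eq_zero.1 h3).resolve_right ?_
  have hnn : ∀ u, 0 ≤ A.PF u u := by
    intro u
    by_cases hu : u = 0
    · rw [hu, map_zero]
    · exact (A.PF_pos hu).le
  intro h4
  have h5 : a = 0 := by
    by_contra hne
    linarith [A.PF_pos hne, hnn b]
  have h6 : b = 0 := by
    by_contra hne
    linarith [A.PF_pos hne, hnn a]
  apply hv
  funext j
  have h7 := Fintype.linearIndependent_iff.1 A.lam.linearIndependent _ (ha.symm.trans h5) j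
  have h8 := Fintype.linearIndependent_iff.1 A.lam.linearIndependent _ (hb.symm.trans h6) j
  exact Complex.ext h7 h8

/-- The simultaneous eigenvectors of the central elements, as a matrix. -/
theorem exists_diag (A : AbVar g) : ∃ (S S' : Matrix (Fin (2 * g)) (Fin (2 * g)) ℂ)
    (χ : Fin (2 * g) → (A.ZA →ₗ[ℚ] ℂ)), S * S' = 1 ∧ S' * S = 1 ∧
    (∀ R : A.ZA, toC (R : Module.End ℚ A.H1) * S = S * Matrix.diagonal (fun i => χ i R)) ∧
    ∀ i, ∃ j, χ j = -χ i := by
  obtain ⟨n, b, χ, hb⟩ := A.exists_basis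
  have hn : n = 2 * g := by
    have h1 : finrank ℂ (ℂ ⊗[ℚ] A.H1) = n := by
      rw [Module.finrank_eq_card_basis b, Fintype.card_fin]
    have h2 : finrank ℂ (ℂ ⊗[ℚ] A.H1) = 2 * g := by
      rw [Module.finrank_baseChange]
      exact Module.finrank_fin_fun ℚ
    omega
  subst hn
  let b' : Basis (Fin (2 * g)) ℂ (Fin (2 * g) → ℂ) := b.map (eqv (2 * g)).symm
  let S : Matrix (Fin (2 * g)) (Fin (2 * g)) ℂ := (Pi.basisFun ℂ (Fin (2 * g))).toMatrix b'
  let S' : Matrix (Fin (2 * g)) (Fin (2 * g)) ℂ := b'.toMatrix (Pi.basisFun ℂ (Fin (2 * g)))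
  have hS : ∀ i j, S i j = b' j i := fun i j => rfl
  refine ⟨S, S', χ, Basis.toMatrix_mul_toMatrix_flip _ _, Basis.toMatrix_mul_toMatrix_flip _ _,
    fun R => ?_, fun i => A.exists_neg hb i⟩
  ext i k
  have h1 : (toC (R : Module.End ℚ A.H1)).mulVec (b' k) = χ k R • b' k := by
    apply (eqv (2 * g)).injective
    rw [← matE_eqv, matE_toC, map_smul]
    change (R : Module.End ℚ A.H1).baseChange ℂ ((eqv (2 * g)) ((eqv (2 * g)).symm (b k))) =
      χ k R • (eqv (2 * g)) ((eqv (2 * g)).symm (b k))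
    rw [LinearEquiv.apply_symm_apply]
    exact hb k R
  rw [Matrix.mul_diagonal]
  refine (congrFun h1 i).trans ?_
  rw [Pi.smul_apply, smul_eq_mul]
  exact mul_comm _ _

theorem dom_fintype {W : Type} [AddCommGroup W] [Module ℚ W] {X Y : Module.End ℚ W} (h : Dom X Y)
    {κ : Type} [Fintype κ] (v : κ → ℂ ⊗[ℚ] W) (x y : κ → ℂ) (h0 : ∀ k, v k ≠ 0)
    (hx : ∀ k, X.baseChange ℂ (v k) = x k • v k) (hy : ∀ k, Y.baseChange ℂ (v k) = y k • v k)
    (hs : ∑ k, x k = 0) : ∑ k, y k = 0 := by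
  let e : κ ≃ Fin (Fintype.card κ) := Fintype.equivFin κ
  have h1 := h _ (fun k => v (e.symm k)) (fun k => x (e.symm k)) (fun k => y (e.symm k))
    (fun k => h0 _) (fun k => hx _) (fun k => hy _) (by
      rw [← hs]
      exact Equiv.sum_comp e.symm x)
  rw [← h1]
  exact (Equiv.sum_comp e.symm y).symm

theorem sum_sigma_fin {n : ℕ} (α : Fin n → ℕ) (f : Fin n → ℂ) :
    ∑ k : (Σ i, Fin (α i)), f k.1 = ∑ i, (α i : ℂ) * f i := by
  rw [Fintype.sum_sigma]
  refine Finset.sum_congr rfl fun i _ => ?_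
  change ∑ _k : Fin (α i), f i = _
  rw [Finset.sum_const, Finset.card_univ, Fintype.card_fin, nsmul_eq_mul]

open Pool.Agent.TH119.MX in
/-- Central elements whose relations are implied by the relations of a central element which is, up
to a scalar, in the Lie algebra of an algebraic group. -/
theorem mem_of_dom {H : Set (Matrix (Fin (2 * g)) (Fin (2 * g)) ℂ)}
    (hH : AlgGrp Pool.Agent.R917.QQ H) {X Y : Module.End ℚ A.H1} (hX : X ∈ A.CN) {c : ℚ}
    (hXc : X + c • (1 : Module.End ℚ A.H1) ∈ Pool.Agent.R917.lieQ H) (hY : Y ∈ A.CN)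
    (hdom : Dom X Y) : Y ∈ Pool.Agent.R917.lieQ H := by
  obtain ⟨S, S', χ, h1, h2, hd, hneg⟩ := exists_diag A
  obtain ⟨x, hx⟩ : ∃ x : Fin (2 * g) → ℂ, ∀ i, x i = χ i ⟨X, A.CN_le_ZA hX⟩ := ⟨_, fun i => rfl⟩
  obtain ⟨y, hy⟩ : ∃ y : Fin (2 * g) → ℂ, ∀ i, y i = χ i ⟨Y, A.CN_le_ZA hY⟩ := ⟨_, fun i => rfl⟩
  have hXd : toC X * S = S * Matrix.diagonal x := by
    rw [show x = _ from funext hx]
    exact hd ⟨X, A.CN_le_ZA hX⟩
  have hYd : toC Y * S = S * Matrix.diagonal y := by
    rw [show y = _ from funext hy]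
    exact hd ⟨Y, A.CN_le_ZA hY⟩
  obtain ⟨w, hw⟩ : ∃ w : Fin (2 * g) → Fin (2 * g) → ℂ, ∀ i j, w i j = S j i :=
    ⟨_, fun i j => rfl⟩
  have hw0 : ∀ i, w i ≠ 0 := by
    intro i h0
    have h3 := congrFun (congrFun h2 i) i
    rw [Matrix.mul_apply, Matrix.one_apply_eq] at h3
    apply one_ne_zero (α := ℂ)
    rw [← h3]
    refine Finset.sum_eq_zero fun j _ => ?_
    rw [← hw i j, h0, Pi.zero_apply, mul_zero]
  have hev : ∀ (Z : Matrix (Fin (2 * g)) (Fin (2 * g)) ℂ) (z : Fin (2 * g) → ℂ),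
      Z * S = S * Matrix.diagonal z → ∀ i, Z.mulVec (w i) = z i • w i := by
    intro Z z hZ i
    funext j
    have h3 := congrFun (congrFun hZ j) i
    rw [Matrix.mul_diagonal, Matrix.mul_apply] at h3
    have h4 : (Z.mulVec (w i)) j = ∑ k, Z j k * S k i := by
      change ∑ k, Z j k * w i k = _
      exact Finset.sum_congr rfl fun k _ => by rw [hw]
    rw [h4, h3, Pi.smul_apply, smul_eq_mul, hw]
    ring
  have hre : ∀ i, (x i).re = 0 := fun i => re_eigen hX (hw0 i) (hev _ _ hXd i)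
  choose neg hneg using hneg
  have hxn : ∀ i, x (neg i) = -x i := by
    intro i
    rw [hx, hx, hneg, LinearMap.neg_apply]
  have hyn : ∀ i, y (neg i) = -y i := by
    intro i
    rw [hy, hy, hneg, LinearMap.neg_apply]
  have hbc : ∀ (Z : Module.End ℚ A.H1) (z : Fin (2 * g) → ℂ), toC Z * S = S * Matrix.diagonal z →
      ∀ i, Z.baseChange ℂ (eqv (2 * g) (w i)) = z i • eqv (2 * g) (w i) := by
    intro Z z hZ i
    have h3 := matE_eqv (2 * g) (toC Z) (w i)
    rw [matE_toC, hev _ _ hZ i, map_smul] at h3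
    exact h3
  have hrel : ∀ α β : Fin (2 * g) → ℕ, ∑ i, (α i : ℂ) * (x i + c) = ∑ i, (β i : ℂ) * (x i + c) →
      ∑ i, (α i : ℂ) * y i = ∑ i, (β i : ℂ) * y i := by
    intro α β hαβ
    have h3 : ∀ α : Fin (2 * g) → ℕ, ∑ i, (α i : ℂ) * (x i + c) =
        ∑ i, (α i : ℂ) * x i + (c : ℂ) * ((∑ i, α i : ℕ) : ℂ) := by
      intro α
      push_cast
      rw [Finset.mul_sum, ← Finset.sum_add_distrib]
      refine Finset.sum_congr rfl fun i _ => ?_
      ring
    rw [h3, h3] at hαβ
    have h4 : ∀ α : Fin (2 * g) → ℕ, (∑ i, (α i : ℂ) * x i).re = 0 := by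
      intro α
      rw [Complex.re_sum]
      refine Finset.sum_eq_zero fun i _ => ?_
      rw [Complex.mul_re, hre, mul_zero, Complex.natCast_im, zero_mul, sub_zero]
    have h5 : (c : ℂ) * ((∑ i, α i : ℕ) : ℂ) = (c : ℂ) * ((∑ i, β i : ℕ) : ℂ) := by
      have h6 := congrArg Complex.re hαβ
      rw [Complex.add_re, Complex.add_re, h4, h4, zero_add, zero_add] at h6
      refine Complex.ext h6 ?_
      rw [Complex.mul_im, Complex.mul_im, Complex.natCast_im, Complex.natCast_im,
        Complex.ratCast_im]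
      ring
    have h6 : ∑ i, (α i : ℂ) * x i = ∑ i, (β i : ℂ) * x i := by
      rw [h5] at hαβ
      exact add_right_cancel hαβ
    have h7 := dom_fintype hdom (κ := (Σ i, Fin (α i)) ⊕ (Σ i, Fin (β i)))
      (Sum.elim (fun k => eqv (2 * g) (w k.1)) (fun k => eqv (2 * g) (w (neg k.1))))
      (Sum.elim (fun k => x k.1) (fun k => x (neg k.1)))
      (Sum.elim (fun k => y k.1) (fun k => y (neg k.1)))
      (by
        rintro (k | k) h0
        · exact hw0 k.1 ((LinearEquiv.map_eq_zero_iff _).1 h0)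
        · exact hw0 (neg k.1) ((LinearEquiv.map_eq_zero_iff _).1 h0))
      (by
        rintro (k | k)
        · exact hbc _ _ hXd _
        · exact hbc _ _ hXd _)
      (by
        rintro (k | k)
        · exact hbc _ _ hYd _
        · exact hbc _ _ hYd _)
      (by
        rw [Fintype.sum_sum_type]
        change ∑ k : (Σ i, Fin (α i)), x k.1 + ∑ k : (Σ i, Fin (β i)), x (neg k.1) = 0
        rw [sum_sigma_fin α x, sum_sigma_fin β fun i => x (neg i), h6,
          ← Finset.sum_add_distrib]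
        refine Finset.sum_eq_zero fun i _ => ?_
        rw [hxn]
        ring)
    rw [Fintype.sum_sum_type] at h7
    change ∑ k : (Σ i, Fin (α i)), y k.1 + ∑ k : (Σ i, Fin (β i)), y (neg k.1) = 0 at h7
    rw [sum_sigma_fin α y, sum_sigma_fin β fun i => y (neg i)] at h7
    have h8 : ∑ i, (β i : ℂ) * y (neg i) = -∑ i, (β i : ℂ) * y i := by
      rw [← Finset.sum_neg_distrib]
      refine Finset.sum_congr rfl fun i _ => ?_
      rw [hyn]
      ring
    rw [h8] at h7
    exact add_neg_eq_zero.1 h7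
  -- the transposed matrices
  have hT1 : S'ᵀ * Sᵀ = 1 := by rw [← Matrix.transpose_mul, h1, Matrix.transpose_one]
  have hT2 : Sᵀ * S'ᵀ = 1 := by rw [← Matrix.transpose_mul, h2, Matrix.transpose_one]
  have hXt : (toC (X + c • (1 : Module.End ℚ A.H1)))ᵀ =
      S'ᵀ * Matrix.diagonal (fun i => x i + c) * Sᵀ := by
    have h3 : toC (X + c • (1 : Module.End ℚ A.H1)) * S = S * Matrix.diagonal (fun i => x i + c) := by
      rw [Pool.Agent.R917.toC_add, Pool.Agent.R917.toC_smul, Pool.Agent.R917.toC_one, add_mul, hXd,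
        smul_mul_assoc, one_mul, ← Matrix.diagonal_add, mul_add]
      congr 1
      ext i j
      rw [Matrix.mul_diagonal, Matrix.smul_apply, smul_eq_mul, mul_comm]
    have h4 : toC (X + c • (1 : Module.End ℚ A.H1)) =
        S * Matrix.diagonal (fun i => x i + c) * S' := by
      rw [← h3, Matrix.mul_assoc, h1, Matrix.mul_one]
    rw [h4, Matrix.transpose_mul, Matrix.transpose_mul, Matrix.diagonal_transpose,
      Matrix.mul_assoc]
  have hYt : (toC Y)ᵀ = S'ᵀ * Matrix.diagonal y * Sᵀ := by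
    have h4 : toC Y = S * Matrix.diagonal y * S' := by
      rw [← hYd, Matrix.mul_assoc, h1, Matrix.mul_one]
    rw [h4, Matrix.transpose_mul, Matrix.transpose_mul, Matrix.diagonal_transpose,
      Matrix.mul_assoc]
  have hXe : ∀ t : ℂ, S'ᵀ * Matrix.diagonal (fun i => Complex.exp (t * (x i + c))) * Sᵀ ∈ H := by
    intro t
    rw [← exp_diag hT1 hT2, ← hXt]
    exact Pool.Agent.R917.exp_mem hH fun d => (hXc d).smul t
  have hYe := replica hH hT1 hT2 _ _ hrel hXe
  intro d
  refine stab_of_exp hH (fun t => ?_) d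
  rw [hYt, exp_diag hT1 hT2]
  exact hYe t

end Pool.Agent.R918

end
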