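import Pool.Agent.R918.Car
import Pool.Agent.Y102.SP.Defs

set_option autoImplicit false
set_option linter.unusedSectionVars false

/-!
# Lie algebras of matrices with a root decomposition which act irreducibly on the exterior powers
-/

open Module

namespace Pool.Agent.R918

open Pool.Agent.Y102.SP (Root)

variable {U : Type} [AddCommGroup U] [Module ℂ U]

/-- A Lie algebra `L` of block diagonal matrices (`k` blocks of size `n`) with a root decomposition;
the basis consists of weight vectors, ordered by a generic functional `φ`, and the subspaces of the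
Fock space which are stable under `L` and the particle numbers are stable under all matrices. -/
structure Core {k n : ℕ} (a b : Fin k × Fin n → Module.End ℂ U) (T : Type) [AddCommGroup T]
    [Module ℂ T] where
  car : Car a b
  R : Root (Module.Dual ℂ T)
  χ : Fin k × Fin n → Module.Dual ℂ T
  e : Module.Dual ℂ T → Matrix (Fin k × Fin n) (Fin k × Fin n) ℂ
  h : Module.Dual ℂ T → T
  φ : Module.Dual ℂ T →ₗ[ℚ] ℚ
  L : Submodule ℂ (Matrix (Fin k × Fin n) (Fin k × Fin n) ℂ)
  wt : ∀ α ∈ R.Φ, ∀ p q, e α p q ≠ 0 → p.1 = q.1 ∧ χ p - χ q = α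
  br : ∀ α ∈ R.Φ, e α * e (-α) - e (-α) * e α = Matrix.diagonal fun p => χ p (h α)
  prh : ∀ α ∈ R.Φ, ∀ β ∈ R.Φ, β (h α) = (R.pr α β : ℂ)
  add1 : ∀ α ∈ R.Φ, ∀ β ∈ R.Φ, α + β ∈ R.Φ → ∃ c : ℂ, e α * e β - e β * e α = c • e (α + β)
  ene : ∀ α ∈ R.Φ, e α ≠ 0
  gen : ∀ α ∈ R.Φ, φ α ≠ 0
  anti : ∀ σ i j, i ≤ j → φ (χ (σ, j)) ≤ φ (χ (σ, i))
  mem : ∀ α ∈ R.Φ, e α ∈ L
  Lbr : ∀ x ∈ L, ∀ y ∈ L, x * y - y * x ∈ L
  Lspan : ∀ x ∈ L, ∃ t : T, x - Matrix.diagonal (fun p => χ p t) ∈ Submodule.span ℂ (e '' R.Φ)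
  stable : ∀ P : Submodule ℂ U, (∀ x ∈ L, ∀ u ∈ P, rho a b x u ∈ P) →
    (∀ σ, ∀ u ∈ P, rho a b (Matrix.diagonal fun p => if p.1 = σ then 1 else 0) u ∈ P) →
    ∀ σ i j, ∀ u ∈ P, a (σ, i) (b (σ, j) u) ∈ P

/-- sets closed under going down in a block -/
def Std {k n : ℕ} (S : Finset (Fin k × Fin n)) : Prop :=
  ∀ p ∈ S, ∀ q : Fin k × Fin n, q.1 = p.1 → q.2 ≤ p.2 → q ∈ S

namespace Core

variable {k n : ℕ} {a b : Fin k × Fin n → Module.End ℂ U} {T : Type} [AddCommGroup T]
  [Module ℂ T] (C : Core a b T)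

include C

theorem tri_neg {α : Module.Dual ℂ T} (hα : α ∈ C.R.Φ) (hp : 0 < C.φ α) {p q : Fin k × Fin n}
    (h : C.e (-α) p q ≠ 0) : p.1 = q.1 ∧ q.2 < p.2 ∧ C.χ q - C.χ p = α := by
  obtain ⟨h1, h2⟩ := C.wt _ (C.R.neg α hα) p q h
  have h3 : C.χ q - C.χ p = α := by rw [← neg_sub, h2, neg_neg]
  refine ⟨h1, ?_, h3⟩
  by_contra h4
  have h5 := C.anti q.1 p.2 q.2 (not_lt.1 h4)
  have e1 : (q.1, p.2) = p := Prod.ext h1.symm rfl
  rw [e1] at h5
  have h6 := congrArg C.φ h3
  rw [map_sub] at h6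
  have h7 : C.φ (C.χ q) ≤ C.φ (C.χ p) := h5
  linarith

theorem tri_pos {α : Module.Dual ℂ T} (hα : α ∈ C.R.Φ) (hp : 0 < C.φ α) {p q : Fin k × Fin n}
    (h : C.e α p q ≠ 0) : p.1 = q.1 ∧ p.2 < q.2 ∧ C.χ p - C.χ q = α := by
  obtain ⟨h1, h2⟩ := C.wt _ hα p q h
  refine ⟨h1, ?_, h2⟩
  by_contra h4
  have h5 := C.anti p.1 q.2 p.2 (not_lt.1 h4)
  have e1 : (p.1, q.2) = q := Prod.ext h1 rfl
  rw [e1] at h5
  have h6 := congrArg C.φ h2
  rw [map_sub] at h6
  have h7 : C.φ (C.χ p) ≤ C.φ (C.χ q) := h5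
  linarith

theorem vac_pos {S : Finset (Fin k × Fin n)} (hS : Std S) {u : U} (hu : Vac a b S u)
    {α : Module.Dual ℂ T} (hα : α ∈ C.R.Φ) (hp : 0 < C.φ α) : rho a b (C.e α) u = 0 := by
  rw [rho_apply]
  refine Finset.sum_eq_zero fun p _ => Finset.sum_eq_zero fun q _ => ?_
  by_cases h : C.e α p q = 0
  · rw [h, zero_smul]
  · obtain ⟨h1, h2, -⟩ := C.tri_pos hα hp h
    have hpq : p ≠ q := fun h3 => absurd h2 (by rw [h3]; exact lt_irrefl _)
    by_cases hq : q ∈ S
    · rw [C.car.abne hpq, hu.1 p (hS q hq p h1 h2.le), map_zero, neg_zero, smul_zero]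
    · rw [hu.2 q hq, map_zero, smul_zero]

theorem cov_neg {S : Finset (Fin k × Fin n)} (hS : Std S) {f : Module.Dual ℂ U}
    (hf : Cov a b S f) {α : Module.Dual ℂ T} (hα : α ∈ C.R.Φ) (hp : 0 < C.φ α) (w : U) :
    f (rho a b (C.e (-α)) w) = 0 := by
  rw [rho_apply, map_sum]
  refine Finset.sum_eq_zero fun p _ => ?_
  rw [map_sum]
  refine Finset.sum_eq_zero fun q _ => ?_
  rw [map_smul]
  by_cases h : C.e (-α) p q = 0
  · rw [h, zero_smul]
  · obtain ⟨h1, h2, -⟩ := C.tri_neg hα hp h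
    have hpq : p ≠ q := fun h3 => absurd h2 (by rw [h3]; exact lt_irrefl _)
    by_cases hq : p ∈ S
    · rw [C.car.abne hpq, map_neg, hf.2 q (hS p hq q h1.symm h2.le), neg_zero, smul_zero]
    · rw [hf.1 p hq, smul_zero]

omit C in
theorem vac_diag (hcar : Car a b) {S : Finset (Fin k × Fin n)} {u : U} (hu : Vac a b S u)
    (c : Fin k × Fin n → ℂ) : rho a b (Matrix.diagonal c) u = (∑ p ∈ S, c p) • u := by
  classical
  rw [rho_apply, Finset.sum_smul, ← Finset.sum_subset (Finset.subset_univ S)]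
  · refine Finset.sum_congr rfl fun p hp => ?_
    rw [Finset.sum_eq_single p]
    · rw [Matrix.diagonal_apply_eq, hcar.ab_of_a (hu.1 p hp)]
    · intro q _ hq
      rw [Matrix.diagonal_apply_ne _ (Ne.symm hq), zero_smul]
    · intro h; exact absurd (Finset.mem_univ _) h
  · intro p _ hp
    refine Finset.sum_eq_zero fun q _ => ?_
    by_cases hq : p = q
    · subst hq
      rw [hu.2 p hp, map_zero, smul_zero]
    · rw [Matrix.diagonal_apply_ne _ hq, zero_smul]

/-- The key lemma: functionals which vanish on `u` and on the images of the lowering operators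
vanish on all vectors obtained from `u` by moving one particle. -/
theorem key {S : Finset (Fin k × Fin n)} (hS : Std S) {u : U} (hu : Vac a b S u)
    (F : Module.Dual ℂ U) (hF : F u = 0)
    (hY : ∀ α ∈ C.R.Φ, 0 < C.φ α → ∀ w, F (rho a b (C.e (-α)) w) = 0) (σ : Fin k) (i j : Fin n) :
    F (a (σ, i) (b (σ, j) u)) = 0 := by
  let fam : Set (Submodule ℂ U) :=
    {P | u ∈ P ∧ ∀ α ∈ C.R.Φ, 0 < C.φ α → ∀ w ∈ P, rho a b (C.e (-α)) w ∈ P}
  let N : Submodule ℂ U := sInf fam
  have huN : u ∈ N := Submodule.mem_sInf.2 fun P hP => hP.1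
  have hYN : ∀ α ∈ C.R.Φ, 0 < C.φ α → ∀ w ∈ N, rho a b (C.e (-α)) w ∈ N :=
    fun α hα hp w hw => Submodule.mem_sInf.2 fun P hP =>
      hP.2 α hα hp w (Submodule.mem_sInf.1 hw P hP)
  let M : Submodule ℂ U :=
    { carrier := {w | w ∈ N ∧ ∀ x ∈ C.L, rho a b x w ∈ N}
      zero_mem' := ⟨N.zero_mem, fun x _ => by rw [map_zero]; exact N.zero_mem⟩
      add_mem' := fun {v w} hv hw => ⟨N.add_mem hv.1 hw.1, fun x hx => by
        rw [map_add]; exact N.add_mem (hv.2 x hx) (hw.2 x hx)⟩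
      smul_mem' := fun c w hw => ⟨N.smul_mem c hw.1, fun x hx => by
        rw [map_smul]; exact N.smul_mem c (hw.2 x hx)⟩ }
  have hM : N ≤ M := by
    refine sInf_le ⟨⟨huN, fun x hx => ?_⟩, fun α hα hp w hw => ⟨hYN α hα hp w hw.1,
      fun x hx => ?_⟩⟩
    · obtain ⟨t, ht⟩ := C.Lspan x hx
      have h1 : ∀ z ∈ Submodule.span ℂ (C.e '' C.R.Φ), rho a b z u ∈ N := by
        intro z hz
        induction hz using Submodule.span_induction with
        | mem z hz =>
          obtain ⟨α, hα, rfl⟩ := hz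
          rcases lt_or_gt_of_ne (C.gen α hα) with h | h
          · have h2 := hYN (-α) (C.R.neg α hα) (by rw [map_neg]; linarith) u huN
            rwa [neg_neg] at h2
          · rw [C.vac_pos hS hu hα h]
            exact N.zero_mem
        | zero => rw [map_zero, LinearMap.zero_apply]; exact N.zero_mem
        | add y z _ _ hy hz => rw [map_add, LinearMap.add_apply]; exact N.add_mem hy hz
        | smul c z _ hz => rw [map_smul, LinearMap.smul_apply]; exact N.smul_mem c hz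
      have h2 : x = Matrix.diagonal (fun p => C.χ p t) +
          (x - Matrix.diagonal (fun p => C.χ p t)) := by abel
      rw [h2, map_add, LinearMap.add_apply, vac_diag C.car hu]
      exact N.add_mem (N.smul_mem _ huN) (h1 _ ht)
    · have h1 : rho a b x (rho a b (C.e (-α)) w) = rho a b (C.e (-α)) (rho a b x w) +
          rho a b (x * C.e (-α) - C.e (-α) * x) w := by
        rw [rho_bracket C.car, LinearMap.sub_apply, Module.End.mul_apply, Module.End.mul_apply]
        abel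
      rw [h1]
      exact N.add_mem (hYN α hα hp _ (hw.2 x hx))
        (hw.2 _ (C.Lbr x hx _ (C.mem _ (C.R.neg α hα))))
  have hnum : ∀ σ, ∀ w ∈ N, rho a b (Matrix.diagonal fun p => if p.1 = σ then 1 else 0) w ∈ N := by
    intro σ
    obtain ⟨c, hc⟩ : ∃ c : ℂ,
        rho a b (Matrix.diagonal fun p => if p.1 = σ then 1 else 0) u = c • u :=
      ⟨_, vac_diag C.car hu _⟩
    let E : Submodule ℂ U := LinearMap.ker
      (rho a b (Matrix.diagonal fun p => if p.1 = σ then 1 else 0) - c • LinearMap.id)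
    have hE : ∀ w, w ∈ E ↔
        rho a b (Matrix.diagonal fun p => if p.1 = σ then 1 else 0) w = c • w := by
      intro w
      rw [LinearMap.mem_ker, LinearMap.sub_apply, LinearMap.smul_apply, LinearMap.id_apply,
        sub_eq_zero]
    have h1 : N ≤ E := by
      refine sInf_le ⟨(hE u).2 hc, fun α hα hp w hw => (hE _).2 ?_⟩
      have h2 : (Matrix.diagonal fun p : Fin k × Fin n => if p.1 = σ then (1 : ℂ) else 0) *
          C.e (-α) - C.e (-α) * (Matrix.diagonal fun p => if p.1 = σ then (1 : ℂ) else 0) = 0 := by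
        ext p q
        rw [Matrix.sub_apply, Matrix.diagonal_mul, Matrix.mul_diagonal, Matrix.zero_apply]
        by_cases h : C.e (-α) p q = 0
        · rw [h, mul_zero, zero_mul, sub_zero]
        · rw [(C.wt _ (C.R.neg α hα) p q h).1]
          ring
      have h3 := rho_bracket C.car
        (Matrix.diagonal fun p : Fin k × Fin n => if p.1 = σ then (1 : ℂ) else 0) (C.e (-α))
      rw [h2, map_zero] at h3
      have h4 := LinearMap.congr_fun h3 w
      rw [LinearMap.sub_apply, Module.End.mul_apply, Module.End.mul_apply, LinearMap.zero_apply,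
        (hE w).1 hw, map_smul] at h4
      exact (sub_eq_zero.1 h4.symm)
    intro w hw
    rw [(hE w).1 (h1 hw)]
    exact N.smul_mem c hw
  have h1 := C.stable N (fun x hx w hw => (hM hw).2 x hx) hnum σ i j u huN
  have h2 : N ≤ LinearMap.ker F := sInf_le ⟨hF, fun α hα hp w _ => hY α hα hp w⟩
  exact h2 h1

/-- the formula for the composition with a lowering operator -/
theorem low {S : Finset (Fin k × Fin n)} (hS : Std S) {f : Module.Dual ℂ U}
    (hf : Cov a b S f) {α : Module.Dual ℂ T} (hα : α ∈ C.R.Φ) (hp : 0 < C.φ α)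
    (p q : Fin k × Fin n) (w : U) :
    f (a p (b q (rho a b (C.e (-α)) w))) =
      (∑ r, C.e (-α) q r * f (a p (b r w))) - ∑ r, C.e (-α) r p * f (a r (b q w)) := by
  have h1 : b q (rho a b (C.e (-α)) w) = rho a b (C.e (-α)) (b q w) +
      ∑ r, C.e (-α) q r • b r w := by
    rw [rho_b C.car]; abel
  have h2 : a p (rho a b (C.e (-α)) (b q w)) = rho a b (C.e (-α)) (a p (b q w)) -
      ∑ r, C.e (-α) r p • a r (b q w) := by
    rw [rho_a C.car]; abel
  rw [h1, map_add, h2, map_add, map_sub, C.cov_neg hS hf hα hp, zero_sub, map_sum, map_sum,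
    map_sum, ← sub_eq_neg_add]
  congr 1
  · exact Finset.sum_congr rfl fun r _ => by rw [map_smul, map_smul, smul_eq_mul]
  · exact Finset.sum_congr rfl fun r _ => by rw [map_smul, smul_eq_mul]

omit C in
/-- one particle moved and moved back -/
theorem cov_ab (hcar : Car a b) {S : Finset (Fin k × Fin n)} {f : Module.Dual ℂ U}
    (hf : Cov a b S f) {p q : Fin k × Fin n} (hp : p ∈ S) (hq : q ∈ S) (w : U) :
    f (a p (b q w)) = if p = q then f w else 0 := by
  have h1 : a p (b q w) = (if p = q then w else 0) - b q (a p w) := by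
    rw [← hcar.ab' p q w]; abel
  rw [h1, map_sub, hf.2 q hq, sub_zero]
  split_ifs
  · rfl
  · exact map_zero f

/-- a particle moved from the last occupied place to the first empty place -/
theorem low_one {S : Finset (Fin k × Fin n)} (hS : Std S) {f : Module.Dual ℂ U}
    (hf : Cov a b S f) {α : Module.Dual ℂ T} (hα : α ∈ C.R.Φ) (hp : 0 < C.φ α)
    {p q : Fin k × Fin n} (hpS : p ∈ S) (h1 : ∀ r : Fin k × Fin n, r.1 = p.1 → p.2 < r.2 → r ∉ S)
    (h2 : ∀ r : Fin k × Fin n, r.1 = q.1 → r.2 < q.2 → r ∈ S) (w : U) :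
    f (a p (b q (rho a b (C.e (-α)) w))) = C.e (-α) q p * f w := by
  rw [C.low hS hf hα hp]
  have e1 : ∑ r, C.e (-α) r p * f (a r (b q w)) = 0 := by
    refine Finset.sum_eq_zero fun r _ => ?_
    by_cases h : C.e (-α) r p = 0
    · rw [h, zero_mul]
    · obtain ⟨h3, h4, -⟩ := C.tri_neg hα hp h
      rw [hf.1 r (h1 r h3 h4), mul_zero]
  rw [e1, sub_zero, Finset.sum_eq_single p]
  · rw [cov_ab C.car hf hpS hpS, if_pos rfl]
  · intro r _ hr
    by_cases h : C.e (-α) q r = 0
    · rw [h, zero_mul]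
    · obtain ⟨h3, h4, -⟩ := C.tri_neg hα hp h
      rw [cov_ab C.car hf hpS (h2 r h3.symm h4), if_neg (Ne.symm hr), mul_zero]
  · intro h; exact absurd (Finset.mem_univ _) h

end Core

end Pool.Agent.R918
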