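import Pool.Agent.R918.Core

set_option autoImplicit false
set_option linter.unusedSectionVars false
set_option linter.unusedVariables false

/-!
# The differences of consecutive weights are roots
-/

open Module

namespace Pool.Agent.R918

open Pool.Agent.Y102.SP (Root)

variable {U : Type} [AddCommGroup U] [Module ℂ U]

namespace Core

variable {k n : ℕ} {a b : Fin k × Fin n → Module.End ℂ U} {T : Type} [AddCommGroup T]
  [Module ℂ T] (C : Core a b T)

/-- the particles of the block `σ` in the places up to `i` -/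
def SI (k n : ℕ) (σ : Fin k) (i : ℕ) : Finset (Fin k × Fin n) :=
  Finset.univ.filter fun p => p.1 = σ ∧ (p.2 : ℕ) ≤ i

theorem mem_SI {σ : Fin k} {i : ℕ} {p : Fin k × Fin n} :
    p ∈ SI k n σ i ↔ p.1 = σ ∧ (p.2 : ℕ) ≤ i := by
  unfold SI
  rw [Finset.mem_filter, and_iff_right (Finset.mem_univ _)]

theorem std_SI (σ : Fin k) (i : ℕ) : Std (SI k n σ i) := by
  intro p hp q h1 h2
  rw [mem_SI] at hp ⊢
  exact ⟨h1.trans hp.1, le_trans h2 hp.2⟩

theorem std_union {S S' : Finset (Fin k × Fin n)} (h : Std S) (h' : Std S') : Std (S ∪ S') := by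
  intro p hp q h1 h2
  rw [Finset.mem_union] at hp ⊢
  exact hp.imp (fun hp => h p hp q h1 h2) fun hp => h' p hp q h1 h2

include C

/-- moving one particle by one place and back -/
theorem back {S : Finset (Fin k × Fin n)} {u : U} (hu : Vac a b S u) {p q : Fin k × Fin n}
    (hp : p ∈ S) (hq : q ∉ S) : a p (b q (a q (b p u))) = u := by
  have h1 : b q (b p u) = 0 := by rw [C.car.bb', hu.2 q hq, map_zero, neg_zero]
  rw [C.car.ba_of_b h1, C.car.ab_of_a (hu.1 p hp)]

/-- the difference of consecutive weights -/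
def dif (σ : Fin k) (i : ℕ) (hi : i + 1 < n) : Module.Dual ℂ T :=
  C.χ (σ, ⟨i, Nat.lt_of_succ_lt hi⟩) - C.χ (σ, ⟨i + 1, hi⟩)

/-- The differences of consecutive weights are positive roots, and the root vector moves the
particle. -/
theorem letter [Nontrivial U] (σ : Fin k) (i : ℕ) (hi : i + 1 < n) :
    C.dif σ i hi ∈ C.R.Φ ∧ 0 < C.φ (C.dif σ i hi) ∧
      C.e (-C.dif σ i hi) (σ, ⟨i + 1, hi⟩) (σ, ⟨i, Nat.lt_of_succ_lt hi⟩) ≠ 0 := by
  obtain ⟨u, hu0, hu⟩ := C.car.exists_vac (SI k n σ i)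
  obtain ⟨f, hf, hfu⟩ := C.car.exists_cov hu hu0
  set p : Fin k × Fin n := (σ, ⟨i, Nat.lt_of_succ_lt hi⟩) with hp
  set q : Fin k × Fin n := (σ, ⟨i + 1, hi⟩) with hq
  have hpS : p ∈ SI k n σ i := mem_SI.2 ⟨rfl, le_refl _⟩
  have hqS : q ∉ SI k n σ i := fun h => absurd (mem_SI.1 h).2 (by simp [hq])
  by_contra hcon
  have hcon' : ∀ α ∈ C.R.Φ, 0 < C.φ α → C.e (-α) q p = 0 := by
    intro α hα hpos
    by_contra h
    obtain ⟨-, -, h3⟩ := C.tri_neg hα hpos h
    apply hcon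
    have h4 : C.dif σ i hi = α := h3
    rw [h4]
    exact ⟨hα, hpos, h⟩
  have h1 := C.key (std_SI σ i) hu (f ∘ₗ a p ∘ₗ b q) ?_ ?_ σ ⟨i + 1, hi⟩
    ⟨i, Nat.lt_of_succ_lt hi⟩
  · have h2 : (f ∘ₗ a p ∘ₗ b q) (a q (b p u)) = 0 := h1
    rw [LinearMap.comp_apply, LinearMap.comp_apply, C.back hu hpS hqS, hfu] at h2
    exact one_ne_zero h2
  · rw [LinearMap.comp_apply, LinearMap.comp_apply, hu.2 q hqS, map_zero, map_zero]
  · intro α hα hpos w
    rw [LinearMap.comp_apply, LinearMap.comp_apply, C.low_one (std_SI σ i) hf hα hpos hpS ?_ ?_ w,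
      hcon' α hα hpos, zero_mul]
    · intro r h3 h4 h5
      have h6 : i < (r.2 : ℕ) := h4
      have h7 := (mem_SI.1 h5).2
      omega
    · intro r h3 h4
      have h6 : (r.2 : ℕ) < i + 1 := h4
      exact mem_SI.2 ⟨h3, by omega⟩

/-- The differences in different blocks are different. -/
theorem cross [Nontrivial U] {σ τ : Fin k} (hστ : σ ≠ τ) (i j : ℕ) (hi : i + 1 < n)
    (hj : j + 1 < n) : C.dif σ i hi ≠ C.dif τ j hj := by
  intro heq
  obtain ⟨hd1, hd2, hs⟩ := C.letter σ i hi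
  obtain ⟨-, -, ht⟩ := C.letter τ j hj
  rw [← heq] at ht
  have hstd : Std (SI k n σ i ∪ SI k n τ j) := std_union (std_SI σ i) (std_SI τ j)
  obtain ⟨u, hu0, hu⟩ := C.car.exists_vac (SI k n σ i ∪ SI k n τ j)
  obtain ⟨f, hf, hfu⟩ := C.car.exists_cov hu hu0
  have hmem : ∀ r : Fin k × Fin n, r ∈ SI k n σ i ∪ SI k n τ j ↔
      (r.1 = σ ∧ (r.2 : ℕ) ≤ i) ∨ (r.1 = τ ∧ (r.2 : ℕ) ≤ j) := by
    intro r
    rw [Finset.mem_union, mem_SI, mem_SI]
  set p : Fin k × Fin n := (σ, ⟨i, Nat.lt_of_succ_lt hi⟩) with hp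
  set q : Fin k × Fin n := (σ, ⟨i + 1, hi⟩) with hq
  set p' : Fin k × Fin n := (τ, ⟨j, Nat.lt_of_succ_lt hj⟩) with hp'
  set q' : Fin k × Fin n := (τ, ⟨j + 1, hj⟩) with hq'
  have hpS : p ∈ SI k n σ i ∪ SI k n τ j := (hmem p).2 (Or.inl ⟨rfl, le_refl _⟩)
  have hpS' : p' ∈ SI k n σ i ∪ SI k n τ j := (hmem p').2 (Or.inr ⟨rfl, le_refl _⟩)
  have hqS : q ∉ SI k n σ i ∪ SI k n τ j := by
    intro h
    rcases (hmem q).1 h with ⟨_, h⟩ | ⟨h, _⟩
    · simp [hq] at h
    · exact hστ h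
  have hqS' : q' ∉ SI k n σ i ∪ SI k n τ j := by
    intro h
    rcases (hmem q').1 h with ⟨h, _⟩ | ⟨_, h⟩
    · exact hστ h.symm
    · simp [hq'] at h
  set s := C.e (-C.dif σ i hi) q p with hsdef
  set t := C.e (-C.dif σ i hi) q' p' with htdef
  have h1 := C.key hstd hu (t • (f ∘ₗ a p ∘ₗ b q) - s • (f ∘ₗ a p' ∘ₗ b q')) ?_ ?_ σ ⟨i + 1, hi⟩
    ⟨i, Nat.lt_of_succ_lt hi⟩
  · have h2 : (t • (f ∘ₗ a p ∘ₗ b q) - s • (f ∘ₗ a p' ∘ₗ b q')) (a q (b p u)) = 0 := h1
    rw [LinearMap.sub_apply, LinearMap.smul_apply, LinearMap.smul_apply, LinearMap.comp_apply,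
      LinearMap.comp_apply, LinearMap.comp_apply, LinearMap.comp_apply, C.back hu hpS hqS,
      hfu] at h2
    have hne : q ≠ q' := fun h => hστ (congrArg Prod.fst h)
    have hne2 : a q (b p u) = -(b p (a q u)) := C.car.abne (fun h => by
      have h5 := congrArg (fun r : Fin k × Fin n => (r.2 : ℕ)) h
      simp [hp, hq] at h5) u
    have h3 : b q' (a q (b p u)) = 0 := by
      have h4 : b q' (a q (b p u)) = -(a q (b q' (b p u))) := by
        rw [C.car.abne hne, neg_neg]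
      rw [h4, C.car.bb' q' p, hu.2 q' hqS', map_zero, neg_zero, map_zero, neg_zero]
    rw [h3, map_zero, map_zero, smul_zero, sub_zero, smul_eq_mul, mul_one] at h2
    exact ht h2
  · rw [LinearMap.sub_apply, LinearMap.smul_apply, LinearMap.smul_apply, LinearMap.comp_apply,
      LinearMap.comp_apply, LinearMap.comp_apply, LinearMap.comp_apply, hu.2 q hqS,
      hu.2 q' hqS', map_zero, map_zero, map_zero, map_zero, smul_zero, smul_zero, sub_zero]
  · intro α hα hpos w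
    rw [LinearMap.sub_apply, LinearMap.smul_apply, LinearMap.smul_apply, LinearMap.comp_apply,
      LinearMap.comp_apply, LinearMap.comp_apply, LinearMap.comp_apply,
      C.low_one hstd hf hα hpos hpS ?_ ?_ w, C.low_one hstd hf hα hpos hpS' ?_ ?_ w]
    · have h2 : t * C.e (-α) q p = s * C.e (-α) q' p' := by
        by_cases hα' : C.dif σ i hi = α
        · rw [← hα', ← hsdef, ← htdef, mul_comm]
        · have e1 : C.e (-α) q p = 0 := by
            by_contra h
            exact hα' (C.tri_neg hα hpos h).2.2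
          have e2 : C.e (-α) q' p' = 0 := by
            by_contra h
            exact hα' (heq.trans (C.tri_neg hα hpos h).2.2)
          rw [e1, e2, mul_zero, mul_zero]
      rw [smul_eq_mul, smul_eq_mul]
      linear_combination (f w) * h2
    · intro r h3 h4 h5
      have h3' : r.1 = τ := h3
      have h6 : j < (r.2 : ℕ) := h4
      rcases (hmem r).1 h5 with h7 | h7
      · exact hστ (h7.1.symm.trans h3')
      · omega
    · intro r h3 h4
      have h6 : (r.2 : ℕ) < j + 1 := h4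
      exact (hmem r).2 (Or.inr ⟨h3, by omega⟩)
    · intro r h3 h4 h5
      have h3' : r.1 = σ := h3
      have h6 : i < (r.2 : ℕ) := h4
      rcases (hmem r).1 h5 with h7 | h7
      · omega
      · exact hστ (h3'.symm.trans h7.1)
    · intro r h3 h4
      have h6 : (r.2 : ℕ) < i + 1 := h4
      exact (hmem r).2 (Or.inl ⟨h3, by omega⟩)

/-- The weights of a block are strictly decreasing. -/
theorem strict [Nontrivial U] (σ : Fin k) {i j : Fin n} (hij : i < j) :
    C.φ (C.χ (σ, j)) < C.φ (C.χ (σ, i)) := by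
  have hi : (i : ℕ) + 1 < n := lt_of_le_of_lt (Nat.succ_le_of_lt hij) j.2
  obtain ⟨-, h1, -⟩ := C.letter σ i hi
  have h2 : C.φ (C.χ (σ, ⟨i + 1, hi⟩)) < C.φ (C.χ (σ, i)) := by
    unfold dif at h1
    rw [map_sub] at h1
    have h3 : C.φ (C.χ (σ, (⟨(i : ℕ), Nat.lt_of_succ_lt hi⟩ : Fin n))) = C.φ (C.χ (σ, i)) := rfl
    rw [h3] at h1
    linarith
  exact lt_of_le_of_lt (C.anti σ ⟨i + 1, hi⟩ j (Nat.succ_le_of_lt hij)) h2

end Core

end Pool.Agent.R918
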