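import Pool.Agent.R918.Core2

set_option autoImplicit false
set_option linter.unusedSectionVars false
set_option linter.unusedVariables false

/-!
# The pattern `x y x` does not occur
-/

open Module

namespace Pool.Agent.R918

open Pool.Agent.Y102.SP (Root)

variable {U : Type} [AddCommGroup U] [Module ℂ U]

namespace Core

variable {k n : ℕ} {a b : Fin k × Fin n → Module.End ℂ U} {T : Type} [AddCommGroup T]
  [Module ℂ T] (C : Core a b T)

include C

theorem low_two {σ : Fin k} {i : ℕ} (hi : i + 3 < n) {f : Module.Dual ℂ U}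
    (hf : Cov a b (SI k n σ (i + 1)) f) {α : Module.Dual ℂ T} (hα : α ∈ C.R.Φ)
    (hpos : 0 < C.φ α) {p1 p2 p3 : Fin k × Fin n} (h1 : p1 = (σ, ⟨i + 1, by omega⟩))
    (h2 : p2 = (σ, ⟨i + 2, by omega⟩)) (h3 : p3 = (σ, ⟨i + 3, hi⟩)) (w : U) :
    f (a p1 (b p3 (rho a b (C.e (-α)) w))) =
      C.e (-α) p3 p2 * f (a p1 (b p2 w)) + C.e (-α) p3 p1 * f w := by
  have hp1 : p1 ∈ SI k n σ (i + 1) := mem_SI.2 (by rw [h1]; exact ⟨rfl, le_refl _⟩)
  rw [C.low (std_SI σ (i + 1)) hf hα hpos]
  have e1 : ∑ r, C.e (-α) r p1 * f (a r (b p3 w)) = 0 := by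
    refine Finset.sum_eq_zero fun r _ => ?_
    by_cases h : C.e (-α) r p1 = 0
    · rw [h, zero_mul]
    · obtain ⟨h4, h5, -⟩ := C.tri_neg hα hpos h
      have h6 : i + 1 < (r.2 : ℕ) := by rw [h1] at h5; exact h5
      rw [hf.1 r (fun h => absurd (mem_SI.1 h).2 (by omega)), mul_zero]
  have e2 : ∀ r, C.e (-α) p3 r * f (a p1 (b r w)) =
      (if r = p2 then C.e (-α) p3 p2 * f (a p1 (b p2 w)) else 0) +
        if r = p1 then C.e (-α) p3 p1 * f w else 0 := by
    intro r
    by_cases hr2 : r = p2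
    · rw [if_pos hr2, if_neg, add_zero, hr2]
      rw [hr2, h1, h2]
      intro h
      have h5 := congrArg (fun r : Fin k × Fin n => (r.2 : ℕ)) h
      simp at h5
    · rw [if_neg hr2, zero_add]
      by_cases h : C.e (-α) p3 r = 0
      · rw [h, zero_mul]
        by_cases hr1 : r = p1
        · rw [if_pos hr1, ← hr1, h, zero_mul]
        · rw [if_neg hr1]
      · obtain ⟨h4, h5, -⟩ := C.tri_neg hα hpos h
        have h6 : (r.2 : ℕ) < i + 3 := by rw [h3] at h5; exact h5
        have h7 : r.1 = σ := by rw [← h4, h3]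
        have h8 : (r.2 : ℕ) ≠ i + 2 := by
          intro h8
          apply hr2
          rw [h2]
          exact Prod.ext h7 (Fin.ext h8)
        have hr : r ∈ SI k n σ (i + 1) := mem_SI.2 ⟨h7, by omega⟩
        rw [cov_ab C.car hf hp1 hr]
        by_cases hr1 : r = p1
        · rw [if_pos hr1.symm, if_pos hr1, hr1]
        · rw [if_neg (Ne.symm hr1), if_neg hr1, mul_zero]
  rw [e1, sub_zero, Finset.sum_congr rfl fun r _ => e2 r, Finset.sum_add_distrib,
    Finset.sum_ite_eq', Finset.sum_ite_eq', if_pos (Finset.mem_univ _),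
    if_pos (Finset.mem_univ _)]

theorem low_two' {σ : Fin k} {i : ℕ} (hi : i + 3 < n) {f : Module.Dual ℂ U}
    (hf : Cov a b (SI k n σ (i + 1)) f) {α : Module.Dual ℂ T} (hα : α ∈ C.R.Φ)
    (hpos : 0 < C.φ α) {p0 p1 p2 : Fin k × Fin n} (h0 : p0 = (σ, ⟨i, by omega⟩))
    (h1 : p1 = (σ, ⟨i + 1, by omega⟩)) (h2 : p2 = (σ, ⟨i + 2, by omega⟩)) (w : U) :
    f (a p0 (b p2 (rho a b (C.e (-α)) w))) =
      C.e (-α) p2 p0 * f w - C.e (-α) p1 p0 * f (a p1 (b p2 w)) := by
  have hp0 : p0 ∈ SI k n σ (i + 1) := mem_SI.2 (by rw [h0]; exact ⟨rfl, Nat.le_succ _⟩)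
  rw [C.low (std_SI σ (i + 1)) hf hα hpos]
  congr 1
  · rw [Finset.sum_eq_single p0]
    · rw [cov_ab C.car hf hp0 hp0, if_pos rfl]
    · intro r _ hr
      by_cases h : C.e (-α) p2 r = 0
      · rw [h, zero_mul]
      · obtain ⟨h4, h5, -⟩ := C.tri_neg hα hpos h
        have h6 : (r.2 : ℕ) < i + 2 := by rw [h2] at h5; exact h5
        have h7 : r.1 = σ := by rw [← h4, h2]
        have hr' : r ∈ SI k n σ (i + 1) := mem_SI.2 ⟨h7, by omega⟩
        rw [cov_ab C.car hf hp0 hr', if_neg (Ne.symm hr), mul_zero]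
    · intro h; exact absurd (Finset.mem_univ _) h
  · rw [Finset.sum_eq_single p1]
    · intro r _ hr
      by_cases h : C.e (-α) r p0 = 0
      · rw [h, zero_mul]
      · obtain ⟨h4, h5, -⟩ := C.tri_neg hα hpos h
        have h6 : i < (r.2 : ℕ) := by rw [h0] at h5; exact h5
        have h7 : r.1 = σ := by rw [h4, h0]
        have h8 : (r.2 : ℕ) ≠ i + 1 := by
          intro h8
          apply hr
          rw [h1]
          exact Prod.ext h7 (Fin.ext h8)
        rw [hf.1 r (fun h => absurd (mem_SI.1 h).2 (by omega)), mul_zero]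
    · intro h; exact absurd (Finset.mem_univ _) h

/-- The pattern `x y x` does not occur. -/
theorem triple [Nontrivial U] (σ : Fin k) (i : ℕ) (hi : i + 3 < n) :
    C.dif σ i (by omega) ≠ C.dif σ (i + 2) hi := by
  intro heq
  obtain ⟨hβ, hβpos, ht⟩ := C.letter σ i (by omega)
  obtain ⟨-, -, hs⟩ := C.letter σ (i + 2) hi
  rw [← heq] at hs
  obtain ⟨hγ, hγpos, hC0⟩ := C.letter σ (i + 1) (by omega)
  obtain ⟨u, hu0, hu⟩ := C.car.exists_vac (SI k n σ (i + 1))
  obtain ⟨f, hf, hfu⟩ := C.car.exists_cov hu hu0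
  set p0 : Fin k × Fin n := (σ, ⟨i, by omega⟩) with hp0
  set p1 : Fin k × Fin n := (σ, ⟨i + 1, by omega⟩) with hp1
  set p2 : Fin k × Fin n := (σ, ⟨i + 2, by omega⟩) with hp2
  set p3 : Fin k × Fin n := (σ, ⟨i + 3, hi⟩) with hp3
  set β := C.dif σ i (by omega) with hβdef
  set γ := C.dif σ (i + 1) (by omega) with hγdef
  have hb : C.χ p0 - C.χ p1 = β := rfl
  have hc : C.χ p1 - C.χ p2 = γ := rfl
  have hb' : C.χ p2 - C.χ p3 = β := heq.symm
  have hs' : C.e (-β) p3 p2 ≠ 0 := hs
  have ht' : C.e (-β) p1 p0 ≠ 0 := ht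
  have hC0' : C.e (-γ) p2 p1 ≠ 0 := hC0
  clear hs ht hC0
  have hp1S : p1 ∈ SI k n σ (i + 1) := mem_SI.2 ⟨rfl, le_refl _⟩
  have hp2S : p2 ∉ SI k n σ (i + 1) := fun h => absurd (mem_SI.1 h).2 (by simp [hp2])
  have hp3S : p3 ∉ SI k n σ (i + 1) := fun h => absurd (mem_SI.1 h).2 (by simp [hp3])
  -- the second coefficient
  have hco : ∀ α ∈ C.R.Φ, 0 < C.φ α →
      C.e (-β) p1 p0 * C.e (-α) p3 p1 + C.e (-β) p3 p2 * C.e (-α) p2 p0 = 0 := by
    intro α hα hpos
    by_cases hα' : β + γ = α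
    · by_cases hβγ : β = γ
      · exfalso
        have h1 : (2 : ℚ) • β ∈ C.R.Φ := by
          rw [two_smul]
          nth_rewrite 2 [hβγ]
          rw [hα']
          exact hα
        rcases C.R.red β hβ 2 h1 with h | h
        · norm_num at h
        · norm_num at h
      · obtain ⟨c, hc'⟩ := C.add1 (-β) (C.R.neg β hβ) (-γ) (C.R.neg γ hγ) (by
          have h1 : -β + -γ = -α := by rw [← hα']; abel
          rw [h1]
          exact C.R.neg α hα)
        have h1 : -β + -γ = -α := by rw [← hα']; abel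
        rw [h1] at hc'
        have m1 := congrFun (congrFun hc' p3) p1
        have m2 := congrFun (congrFun hc' p2) p0
        rw [Matrix.sub_apply, Matrix.mul_apply, Matrix.mul_apply, Matrix.smul_apply,
          smul_eq_mul] at m1 m2
        have s1 : ∑ r, C.e (-β) p3 r * C.e (-γ) r p1 = C.e (-β) p3 p2 * C.e (-γ) p2 p1 := by
          refine Finset.sum_eq_single p2 (fun r _ hr => ?_)
            (fun h => absurd (Finset.mem_univ _) h)
          by_contra h
          obtain ⟨g1, g2, -⟩ := C.tri_neg hβ hβpos (left_ne_zero_of_mul h)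
          obtain ⟨g3, g4, -⟩ := C.tri_neg hγ hγpos (right_ne_zero_of_mul h)
          apply hr
          have g5 : (r.2 : ℕ) < i + 3 := g2
          have g6 : i + 1 < (r.2 : ℕ) := g4
          exact Prod.ext g3 (Fin.ext (by change (r.2 : ℕ) = i + 2; omega))
        have s2 : ∑ r, C.e (-γ) p3 r * C.e (-β) r p1 = 0 := by
          refine Finset.sum_eq_zero fun r _ => ?_
          by_contra h
          obtain ⟨g1, g2, g7⟩ := C.tri_neg hγ hγpos (left_ne_zero_of_mul h)
          obtain ⟨g3, g4, -⟩ := C.tri_neg hβ hβpos (right_ne_zero_of_mul h)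
          have g5 : (r.2 : ℕ) < i + 3 := g2
          have g6 : i + 1 < (r.2 : ℕ) := g4
          have hr : r = p2 := Prod.ext g3 (Fin.ext (by change (r.2 : ℕ) = i + 2; omega))
          rw [hr] at g7
          exact hβγ (hb'.symm.trans g7)
        have s3 : ∑ r, C.e (-β) p2 r * C.e (-γ) r p0 = 0 := by
          refine Finset.sum_eq_zero fun r _ => ?_
          by_contra h
          obtain ⟨g1, g2, -⟩ := C.tri_neg hβ hβpos (left_ne_zero_of_mul h)
          obtain ⟨g3, g4, g7⟩ := C.tri_neg hγ hγpos (right_ne_zero_of_mul h)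
          have g5 : (r.2 : ℕ) < i + 2 := g2
          have g6 : i < (r.2 : ℕ) := g4
          have hr : r = p1 := Prod.ext g3 (Fin.ext (by change (r.2 : ℕ) = i + 1; omega))
          rw [hr] at g7
          exact hβγ (hb.symm.trans g7)
        have s4 : ∑ r, C.e (-γ) p2 r * C.e (-β) r p0 = C.e (-γ) p2 p1 * C.e (-β) p1 p0 := by
          refine Finset.sum_eq_single p1 (fun r _ hr => ?_)
            (fun h => absurd (Finset.mem_univ _) h)
          by_contra h
          obtain ⟨g1, g2, -⟩ := C.tri_neg hγ hγpos (left_ne_zero_of_mul h)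
          obtain ⟨g3, g4, -⟩ := C.tri_neg hβ hβpos (right_ne_zero_of_mul h)
          apply hr
          have g5 : (r.2 : ℕ) < i + 2 := g2
          have g6 : i < (r.2 : ℕ) := g4
          exact Prod.ext g3 (Fin.ext (by change (r.2 : ℕ) = i + 1; omega))
        rw [s1, s2, sub_zero] at m1
        rw [s3, s4, zero_sub] at m2
        have hc0 : c ≠ 0 := by
          rintro rfl
          rw [zero_mul] at m1
          exact mul_ne_zero hs' hC0' m1
        refine (mul_eq_zero.1 ?_).resolve_left hc0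
        linear_combination (-C.e (-β) p1 p0) * m1 - C.e (-β) p3 p2 * m2
    · have e1 : C.e (-α) p3 p1 = 0 := by
        by_contra h
        apply hα'
        rw [← (C.tri_neg hα hpos h).2.2, ← hc, ← hb']
        abel
      have e2 : C.e (-α) p2 p0 = 0 := by
        by_contra h
        apply hα'
        rw [← (C.tri_neg hα hpos h).2.2, ← hc, ← hb]
        abel
      rw [e1, e2, mul_zero, mul_zero, add_zero]
  have hco1 : ∀ α ∈ C.R.Φ, 0 < C.φ α →
      C.e (-β) p1 p0 * C.e (-α) p3 p2 = C.e (-β) p3 p2 * C.e (-α) p1 p0 := by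
    intro α hα hpos
    by_cases hα' : β = α
    · rw [← hα', mul_comm]
    · have e1 : C.e (-α) p3 p2 = 0 := by
        by_contra h
        exact hα' (hb'.symm.trans (C.tri_neg hα hpos h).2.2)
      have e2 : C.e (-α) p1 p0 = 0 := by
        by_contra h
        exact hα' (hb.symm.trans (C.tri_neg hα hpos h).2.2)
      rw [e1, e2, mul_zero, mul_zero]
  have h1 := C.key (std_SI σ (i + 1)) hu (C.e (-β) p1 p0 • (f ∘ₗ a p1 ∘ₗ b p3) +
    C.e (-β) p3 p2 • (f ∘ₗ a p0 ∘ₗ b p2)) ?_ ?_ σ ⟨i + 3, hi⟩ ⟨i + 1, by omega⟩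
  · have h2 : (C.e (-β) p1 p0 • (f ∘ₗ a p1 ∘ₗ b p3) +
      C.e (-β) p3 p2 • (f ∘ₗ a p0 ∘ₗ b p2)) (a p3 (b p1 u)) = 0 := h1
    rw [LinearMap.add_apply, LinearMap.smul_apply, LinearMap.smul_apply, LinearMap.comp_apply,
      LinearMap.comp_apply, LinearMap.comp_apply, LinearMap.comp_apply, C.back hu hp1S hp3S,
      hfu] at h2
    have hne : p3 ≠ p2 := fun h => by
      have h5 := congrArg (fun r : Fin k × Fin n => (r.2 : ℕ)) h
      simp [hp2, hp3] at h5
    have h3 : b p2 (a p3 (b p1 u)) = 0 := by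
      have h4 : b p2 (a p3 (b p1 u)) = -(a p3 (b p2 (b p1 u))) := by
        rw [C.car.abne hne, neg_neg]
      rw [h4, C.car.bb' p2 p1, hu.2 p2 hp2S, map_zero, neg_zero, map_zero, neg_zero]
    rw [h3, map_zero, map_zero, smul_zero, add_zero, smul_eq_mul, mul_one] at h2
    exact ht' h2
  · rw [LinearMap.add_apply, LinearMap.smul_apply, LinearMap.smul_apply, LinearMap.comp_apply,
      LinearMap.comp_apply, LinearMap.comp_apply, LinearMap.comp_apply, hu.2 p3 hp3S,
      hu.2 p2 hp2S, map_zero, map_zero, map_zero, map_zero, smul_zero, smul_zero, add_zero]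
  · intro α hα hpos w
    rw [LinearMap.add_apply, LinearMap.smul_apply, LinearMap.smul_apply, LinearMap.comp_apply,
      LinearMap.comp_apply, LinearMap.comp_apply, LinearMap.comp_apply,
      C.low_two hi hf hα hpos hp1 hp2 hp3 w, C.low_two' hi hf hα hpos hp0 hp1 hp2 w,
      smul_eq_mul, smul_eq_mul]
    linear_combination (f w) * hco α hα hpos + (f (a p1 (b p2 w))) * hco1 α hα hpos

end Core

end Pool.Agent.R918
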