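import Pool.Agent.R918.Core3

set_option autoImplicit false
set_option linter.unusedSectionVars false
set_option linter.unusedVariables false

/-!
# The differences of consecutive weights are simple roots
-/

open Module

namespace Pool.Agent.R918

open Pool.Agent.Y102.SP (Root)

attribute [local instance 100] LieRing.ofAssociativeRing

/-- the eigenvalue of a primitive vector is a natural number -/
theorem sl2_nat {V : Type} [AddCommGroup V] [Module ℂ V] [FiniteDimensional ℂ V]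
    {x y h : Module.End ℂ V} (h1 : x * y - y * x = h) (h2 : h * x - x * h = (2 : ℂ) • x)
    (h3 : h * y - y * h = -((2 : ℂ) • y)) {v : V} {μ : ℂ} (hv : v ≠ 0) (hx : x v = 0)
    (hh : h v = μ • v) : ∃ m : ℕ, μ = m := by
  by_cases h0 : h = 0
  · refine ⟨0, ?_⟩
    rw [h0, LinearMap.zero_apply] at hh
    have h4 := (smul_eq_zero.1 hh.symm).resolve_right hv
    rw [h4, Nat.cast_zero]
  · have t : IsSl2Triple h x y :=
      { h_ne_zero := h0
        lie_e_f := h1
        lie_h_e_nsmul := by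
          change h * x - x * h = _
          rw [h2, two_smul, two_nsmul]
        lie_h_f_nsmul := by
          change h * y - y * h = _
          rw [h3, two_smul, two_nsmul] }
    have P : t.HasPrimitiveVectorWith v μ :=
      { ne_zero := hv
        lie_h := hh
        lie_e := hx }
    exact P.exists_nat

variable {U : Type} [AddCommGroup U] [Module ℂ U]

namespace Core

variable {k n : ℕ} {a b : Fin k × Fin n → Module.End ℂ U} {T : Type} [AddCommGroup T]
  [Module ℂ T] (C : Core a b T)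

include C

/-- the commutator with a diagonal matrix -/
theorem diag_comm {α : Module.Dual ℂ T} (hα : α ∈ C.R.Φ) (t : T) :
    (Matrix.diagonal fun p => C.χ p t) * C.e α - C.e α * (Matrix.diagonal fun p => C.χ p t) =
      α t • C.e α := by
  ext p q
  rw [Matrix.sub_apply, Matrix.diagonal_mul, Matrix.mul_diagonal, Matrix.smul_apply, smul_eq_mul]
  by_cases h : C.e α p q = 0
  · rw [h, mul_zero, mul_zero, zero_mul, sub_zero]
  · have h1 := LinearMap.congr_fun (C.wt α hα p q h).2 t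
    rw [LinearMap.sub_apply] at h1
    rw [← h1]
    ring

theorem rho_diag_comm {α : Module.Dual ℂ T} (hα : α ∈ C.R.Φ) (t : T) :
    rho a b (Matrix.diagonal fun p => C.χ p t) * rho a b (C.e α) -
      rho a b (C.e α) * rho a b (Matrix.diagonal fun p => C.χ p t) = α t • rho a b (C.e α) := by
  rw [← rho_bracket C.car, C.diag_comm hα, map_smul]

/-- the image of a vacuum vector under a lowering operator -/
theorem lower_vac {S : Finset (Fin k × Fin n)} (hS : Std S) {u : U} (hu : Vac a b S u)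
    {α : Module.Dual ℂ T} (hα : α ∈ C.R.Φ) (hpos : 0 < C.φ α) {v : U} (N : Submodule ℂ U)
    (hN : ∀ p q : Fin k × Fin n, p ∉ S → q ∈ S → p.1 = q.1 → C.χ q - C.χ p = α →
      a p (b q u) ∈ N) : rho a b (C.e (-α)) u ∈ N := by
  rw [rho_apply]
  refine Submodule.sum_mem _ fun p _ => Submodule.sum_mem _ fun q _ => ?_
  by_cases h : C.e (-α) p q = 0
  · rw [h, zero_smul]
    exact N.zero_mem
  · obtain ⟨h1, h2, h3⟩ := C.tri_neg hα hpos h
    refine N.smul_mem _ ?_
    have hpq : p ≠ q := fun h3 => absurd h2 (by rw [h3]; exact lt_irrefl _)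
    by_cases hq : q ∈ S
    · by_cases hp : p ∈ S
      · rw [C.car.abne hpq, hu.1 p hp, map_zero, neg_zero]
        exact N.zero_mem
      · exact hN p q hp hq h1 h3
    · rw [hu.2 q hq, map_zero]
      exact N.zero_mem

/-- a jump from the places up to `i` to the places after `i` is at least the jump from `i` to
`i + 1` -/
theorem jump [Nontrivial U] {σ : Fin k} {i : ℕ} (hi : i + 1 < n) {p q : Fin k × Fin n}
    (hp : p ∉ SI k n σ i) (hq : q ∈ SI k n σ i) (hpq : p.1 = q.1) :
    C.φ (C.dif σ i hi) ≤ C.φ (C.χ q - C.χ p) ∧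
      (C.φ (C.dif σ i hi) = C.φ (C.χ q - C.χ p) →
        q = (σ, ⟨i, Nat.lt_of_succ_lt hi⟩) ∧ p = (σ, ⟨i + 1, hi⟩)) := by
  rw [mem_SI] at hp hq
  have hp1 : p.1 = σ := hpq.trans hq.1
  have hp2 : i < (p.2 : ℕ) := by
    by_contra h
    exact hp ⟨hp1, not_lt.1 h⟩
  have hpe : p = (σ, p.2) := Prod.ext hp1 rfl
  have hqe : q = (σ, q.2) := Prod.ext hq.1 rfl
  have e1 : C.φ (C.χ (σ, ⟨i, Nat.lt_of_succ_lt hi⟩)) ≤ C.φ (C.χ q) := by
    rw [hqe]; exact C.anti σ _ _ hq.2
  have e2 : C.φ (C.χ p) ≤ C.φ (C.χ (σ, ⟨i + 1, hi⟩)) := by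
    rw [hpe]; exact C.anti σ _ _ hp2
  unfold dif
  rw [map_sub, map_sub]
  refine ⟨by linarith, fun h => ?_⟩
  constructor
  · by_contra hne
    have h1 : q.2 < (⟨i, Nat.lt_of_succ_lt hi⟩ : Fin n) := by
      refine lt_of_le_of_ne hq.2 fun h2 => hne ?_
      rw [hqe, h2]
    have h2 := C.strict σ h1
    rw [← hqe] at h2
    linarith
  · by_contra hne
    have h1 : (⟨i + 1, hi⟩ : Fin n) < p.2 := by
      refine lt_of_le_of_ne hp2 fun h2 => hne ?_
      rw [hpe, ← h2]
    have h2 := C.strict σ h1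
    rw [← hpe] at h2
    linarith

theorem simple_aux [Nontrivial U] [FiniteDimensional ℂ U] (σ : Fin k) (i : ℕ) (hi : i + 1 < n)
    {β₁ β₂ : Module.Dual ℂ T} (h1 : β₁ ∈ C.R.Φ) (h2 : β₂ ∈ C.R.Φ) (p1 : 0 < C.φ β₁)
    (p2 : 0 < C.φ β₂) (hd : C.dif σ i hi = β₁ + β₂) : C.R.pr β₁ (C.dif σ i hi) ≤ 0 := by
  obtain ⟨hdΦ, hdpos, hne⟩ := C.letter σ i hi
  obtain ⟨u, hu0, hu⟩ := C.car.exists_vac (SI k n σ i)
  obtain ⟨f, hf, hfu⟩ := C.car.exists_cov hu hu0
  set d := C.dif σ i hi with hddef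
  set p : Fin k × Fin n := (σ, ⟨i, Nat.lt_of_succ_lt hi⟩) with hp
  set q : Fin k × Fin n := (σ, ⟨i + 1, hi⟩) with hq
  have hpS : p ∈ SI k n σ i := mem_SI.2 ⟨rfl, le_refl _⟩
  have hqS : q ∉ SI k n σ i := fun h => absurd (mem_SI.1 h).2 (by simp [hq])
  have hchi : C.χ p - C.χ q = d := rfl
  have hφd : C.φ d = C.φ β₁ + C.φ β₂ := by rw [hd, map_add]
  have hv0 : a q (b p u) ≠ 0 := by
    intro h
    have h3 := C.back hu hpS hqS
    rw [h, map_zero, map_zero] at h3
    exact hu0 h3.symm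
  -- the lowering operators of `β₁`, `β₂` kill `u`
  have hkill : ∀ β ∈ C.R.Φ, 0 < C.φ β → C.φ β < C.φ d → rho a b (C.e (-β)) u = 0 := by
    intro β hβ hpos hlt
    have h3 := C.lower_vac (std_SI σ i) hu hβ hpos (v := u) ⊥ (fun r s hr hs hrs hchi' => by
      exfalso
      have h4 := (C.jump hi hr hs hrs).1
      rw [hchi'] at h4
      linarith)
    exact (Submodule.mem_bot ℂ).1 h3
  -- the lowering operator of `d`
  have hd1 : ∃ c : ℂ, c • a q (b p u) = rho a b (C.e (-d)) u := by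
    refine Submodule.mem_span_singleton.1 (C.lower_vac (std_SI σ i) hu hdΦ hdpos (v := u) _
      (fun r s hr hs hrs hchi' => ?_))
    obtain ⟨h4, h5⟩ := (C.jump hi hr hs hrs).2 (by rw [hchi'])
    rw [h4, h5]
    exact Submodule.mem_span_singleton_self _
  obtain ⟨c, hc⟩ := hd1
  have hc0 : c ≠ 0 := by
    rintro rfl
    rw [zero_smul] at hc
    have h3 := C.low_one (std_SI σ i) hf hdΦ hdpos (p := p) (q := q) hpS ?_ ?_ u
    · rw [← hc, map_zero, map_zero, map_zero, hfu, mul_one] at h3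
      exact hne h3.symm
    · intro r h3 h4 h5
      have h6 : i < (r.2 : ℕ) := h4
      have h7 := (mem_SI.1 h5).2
      omega
    · intro r h3 h4
      have h6 : (r.2 : ℕ) < i + 1 := h4
      exact mem_SI.2 ⟨h3, by omega⟩
  -- the raising operator of `β₁` kills the new vector
  have hX : rho a b (C.e β₁) (a q (b p u)) = 0 := by
    obtain ⟨c', hc'⟩ := C.add1 (-d) (C.R.neg d hdΦ) β₁ h1 (by
      have h3 : -d + β₁ = -β₂ := by rw [hd]; abel
      rw [h3]
      exact C.R.neg β₂ h2)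
    have h3 : -d + β₁ = -β₂ := by rw [hd]; abel
    rw [h3] at hc'
    have h4 := rho_bracket C.car (C.e (-d)) (C.e β₁)
    rw [hc', map_smul] at h4
    have h5 := LinearMap.congr_fun h4 u
    rw [LinearMap.sub_apply, Module.End.mul_apply, Module.End.mul_apply, LinearMap.smul_apply,
      hkill β₂ h2 p2 (by linarith), smul_zero, C.vac_pos (std_SI σ i) hu h1 p1, map_zero,
      zero_sub, ← hc, map_smul] at h5
    have h6 : c • rho a b (C.e β₁) (a q (b p u)) = 0 := neg_eq_zero.1 h5.symm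
    exact (smul_eq_zero.1 h6).resolve_left hc0
  -- the weight of the new vector
  have hHu : rho a b (Matrix.diagonal fun p => C.χ p (C.h β₁)) u = 0 := by
    rw [← C.br β₁ h1, rho_bracket C.car, LinearMap.sub_apply, Module.End.mul_apply,
      Module.End.mul_apply, hkill β₁ h1 p1 (by linarith), C.vac_pos (std_SI σ i) hu h1 p1,
      map_zero, map_zero, sub_zero]
  have hH : rho a b (Matrix.diagonal fun p => C.χ p (C.h β₁)) (a q (b p u)) =
      (-(C.R.pr β₁ d : ℂ)) • a q (b p u) := by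
    rw [rho_a C.car, rho_b C.car, hHu, map_zero, zero_sub]
    have e1 : ∑ r, (Matrix.diagonal fun p => C.χ p (C.h β₁)) p r • b r u =
        C.χ p (C.h β₁) • b p u := by
      rw [Finset.sum_eq_single p]
      · rw [Matrix.diagonal_apply_eq]
      · intro r _ hr
        rw [Matrix.diagonal_apply_ne _ (Ne.symm hr), zero_smul]
      · intro h; exact absurd (Finset.mem_univ _) h
    have e2 : ∑ r, (Matrix.diagonal fun p => C.χ p (C.h β₁)) r q • a r (b p u) =
        C.χ q (C.h β₁) • a q (b p u) := by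
      rw [Finset.sum_eq_single q]
      · rw [Matrix.diagonal_apply_eq]
      · intro r _ hr
        rw [Matrix.diagonal_apply_ne _ hr, zero_smul]
      · intro h; exact absurd (Finset.mem_univ _) h
    rw [e1, e2, map_neg, map_smul, ← C.prh β₁ h1 d hdΦ, ← hchi, LinearMap.sub_apply]
    module
  have h22 : β₁ (C.h β₁) = 2 := by
    rw [C.prh β₁ h1 β₁ h1, C.R.two β₁ h1]
    norm_num
  obtain ⟨m, hm⟩ := sl2_nat (V := U) (x := rho a b (C.e β₁)) (y := rho a b (C.e (-β₁)))
    (h := rho a b (Matrix.diagonal fun p => C.χ p (C.h β₁)))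
    (by rw [← rho_bracket C.car, C.br β₁ h1])
    (by rw [C.rho_diag_comm h1, h22])
    (by rw [C.rho_diag_comm (C.R.neg β₁ h1), LinearMap.neg_apply, h22, neg_smul]) hv0 hX hH
  have h3 : -(C.R.pr β₁ d) = (m : ℚ) := by exact_mod_cast hm
  have h4 : (0 : ℚ) ≤ m := Nat.cast_nonneg m
  linarith

/-- The differences of consecutive weights are not sums of two positive roots. -/
theorem simple [Nontrivial U] [FiniteDimensional ℂ U] (σ : Fin k) (i : ℕ) (hi : i + 1 < n)
    {β₁ β₂ : Module.Dual ℂ T} (h1 : β₁ ∈ C.R.Φ) (h2 : β₂ ∈ C.R.Φ) (p1 : 0 < C.φ β₁)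
    (p2 : 0 < C.φ β₂) : C.dif σ i hi ≠ β₁ + β₂ := by
  intro hd
  obtain ⟨hdΦ, hdpos, -⟩ := C.letter σ i hi
  have a1 := C.simple_aux σ i hi h1 h2 p1 p2 hd
  have a2 := C.simple_aux σ i hi h2 h1 p2 p1 (by rw [hd, add_comm])
  have hφd : C.φ (C.dif σ i hi) = C.φ β₁ + C.φ β₂ := by rw [hd, map_add]
  have h3 : C.R.pr (C.dif σ i hi) β₁ + C.R.pr (C.dif σ i hi) β₂ = 2 := by
    rw [← map_add, ← hd, C.R.two _ hdΦ]
  have key : ∀ β ∈ C.R.Φ, 0 < C.φ β → C.φ β < C.φ (C.dif σ i hi) →
      C.R.pr β (C.dif σ i hi) ≤ 0 → C.R.pr (C.dif σ i hi) β ≤ 0 := by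
    intro β hβ hpos hlt hle
    rcases C.R.cox _ hdΦ β hβ (fun h => by rw [h] at hlt; exact lt_irrefl _ hlt)
      (fun h => by rw [h, map_neg] at hpos; linarith) with h | ⟨h, -⟩
    · rw [h.1]
    · by_contra hcon
      push Not at hcon
      have h5 := mul_nonpos_of_nonneg_of_nonpos hcon.le hle
      linarith
  have b1 := key β₁ h1 p1 (by linarith) a1
  have b2 := key β₂ h2 p2 (by linarith) a2
  linarith

/-- A consecutive difference is the difference of two weights only if they are consecutive weights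
of the same block. -/
theorem only [Nontrivial U] [FiniteDimensional ℂ U] (σ : Fin k) (i : ℕ) (hi : i + 1 < n)
    {τ : Fin k} {i' j' : Fin n} (hij : i' < j')
    (h : C.χ (τ, i') - C.χ (τ, j') = C.dif σ i hi) : τ = σ ∧ (j' : ℕ) = i' + 1 := by
  obtain ⟨hdΦ, hdpos, -⟩ := C.letter σ i hi
  have hj : (j' : ℕ) = i' + 1 := by
    by_contra hne
    have hlt : (i' : ℕ) + 1 < j' := lt_of_le_of_ne (Nat.succ_le_of_lt hij) (Ne.symm hne)
    have hjn := j'.2
    -- the telescoping sum
    let x : ℕ → Module.Dual ℂ T := fun m => if hm : m < n then C.χ (τ, ⟨m, hm⟩) else 0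
    have hx : ∀ m (hm : m < n), x m = C.χ (τ, ⟨m, hm⟩) := fun m hm => dif_pos hm
    have hsum : ∑ m ∈ Finset.Ico (i' : ℕ) j', (x m - x (m + 1)) = C.dif σ i hi := by
      rw [← h, Finset.sum_Ico_eq_sub _ (Nat.le_of_lt hij)]
      rw [Finset.sum_range_sub', Finset.sum_range_sub', hx _ i'.2, hx _ j'.2]
      abel
    have hpr : ∃ m ∈ Finset.Ico (i' : ℕ) j', 0 < C.R.pr (C.dif σ i hi) (x m - x (m + 1)) := by
      by_contra hcon
      push Not at hcon
      have h1 := Finset.sum_nonpos hcon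
      rw [← map_sum, hsum, C.R.two _ hdΦ] at h1
      norm_num at h1
    obtain ⟨m, hm, hmpos⟩ := hpr
    rw [Finset.mem_Ico] at hm
    have hmn : m + 1 < n := by omega
    have hdm : x m - x (m + 1) = C.dif τ m hmn := by
      rw [hx m (by omega), hx (m + 1) hmn]
      rfl
    rw [hdm] at hmpos
    obtain ⟨hmΦ, hmp, -⟩ := C.letter τ m hmn
    have hφ : C.φ (C.dif τ m hmn) < C.φ (C.dif σ i hi) := by
      rw [← h]
      unfold dif
      rw [map_sub, map_sub]
      have e1 : C.φ (C.χ (τ, ⟨m, Nat.lt_of_succ_lt hmn⟩)) ≤ C.φ (C.χ (τ, i')) :=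
        C.anti τ _ _ hm.1
      have e2 : C.φ (C.χ (τ, j')) ≤ C.φ (C.χ (τ, ⟨m + 1, hmn⟩)) := C.anti τ _ _ hm.2
      by_cases hcase : (i' : ℕ) = m
      · have h5 : (⟨m + 1, hmn⟩ : Fin n) < j' := by
          change m + 1 < (j' : ℕ)
          omega
        have h6 := C.strict τ h5
        linarith
      · have h5 : i' < (⟨m, Nat.lt_of_succ_lt hmn⟩ : Fin n) := by
          change (i' : ℕ) < m
          omega
        have h6 := C.strict τ h5
        linarith
    have hne1 : C.dif τ m hmn ≠ C.dif σ i hi := fun h5 => by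
      rw [h5] at hφ
      exact lt_irrefl _ hφ
    have h5 := C.R.add _ (C.R.neg _ hdΦ) (C.dif τ m hmn) hmΦ (by rw [neg_neg]; exact hne1)
      (by rw [C.R.pneg _ hdΦ]; linarith)
    have h6 := C.R.neg _ h5
    refine C.simple σ i hi h6 hmΦ ?_ hmp ?_
    · rw [map_neg, map_add, map_neg]
      linarith
    · abel
  refine ⟨?_, hj⟩
  by_contra hne
  have hjn := j'.2
  refine C.cross hne i' i (by omega) hi ?_
  rw [← h]
  unfold dif
  have e1 : (⟨(i' : ℕ) + 1, by omega⟩ : Fin n) = j' := Fin.ext hj.symm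
  rw [e1]

end Core

end Pool.Agent.R918
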