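import Pool.Agent.R913.Adj.Weight
import Pool.Agent.R913.Adj.Main
import Pool.Agent.Y925.RM.Weyl
import Pool.Agent.Y914.RM.Jord

set_option autoImplicit false
set_option linter.unusedSectionVars false
set_option linter.unusedVariables false

/-!
# The Tate conjecture for endomorphisms and the Lie algebra of the Tate tensors
-/

open Module TensorProduct

noncomputable section

namespace Pool.Agent.R918.Ell

open Pool.Agent.Y114.RM Pool.Agent.Y114.TF Pool.Agent.H204R3.GP Pool.Agent.R913.Adj Pool.Agent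

section dens

variable {K V : Type} [Field K] [AddCommGroup V] [Module K V] [FiniteDimensional K V]

/-- **Double commutant.** -/
theorem mem_adjoin_of_comm {S : Submodule K (End K V)}
    (hS : ∀ U : Submodule K V, (∀ X ∈ S, ∀ u ∈ U, X u ∈ U) →
      ∃ U' : Submodule K V, (∀ X ∈ S, ∀ u ∈ U', X u ∈ U') ∧ IsCompl U U')
    {T : End K V} (hT : ∀ P : End K V, (∀ X ∈ S, X * P = P * X) → T * P = P * T) :
    T ∈ Algebra.adjoin K (S : Set (End K V)) := by
  set R := Algebra.adjoin K (S : Set (End K V)) with hR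
  have hsm : ∀ (r : R) (v : V), r • v = r.1 v := fun r v => rfl
  have hss : IsSemisimpleModule R V := by
    rw [isSemisimpleModule_iff]
    refine ⟨fun N => ?_⟩
    let N' : Submodule K V :=
      { carrier := N
        zero_mem' := N.zero_mem
        add_mem' := fun {a b} ha hb => N.add_mem ha hb
        smul_mem' := fun c v hv => by
          have h1 := N.smul_mem (algebraMap K R c) hv
          have h2 : (algebraMap K R c) • v = c • v := by
            rw [hsm]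
            rfl
          rw [← h2]
          exact h1 }
    obtain ⟨U', hU', hc⟩ := hS N' fun X hX u hu => by
      have h1 := N.smul_mem (⟨X, Algebra.subset_adjoin hX⟩ : R) hu
      exact h1
    have stab : ∀ r ∈ R, ∀ v ∈ U', r v ∈ U' := by
      intro r hr
      refine Algebra.adjoin_induction (p := fun r _ => ∀ v ∈ U', r v ∈ U') ?_ ?_ ?_ ?_ hr
      · intro X hX v hv
        exact hU' X hX v hv
      · intro c v hv
        exact U'.smul_mem c hv
      · intro a b _ _ ha hb v hv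
        exact U'.add_mem (ha v hv) (hb v hv)
      · intro a b _ _ ha hb v hv
        exact ha _ (hb v hv)
    let M : Submodule R V :=
      { carrier := U'
        zero_mem' := U'.zero_mem
        add_mem' := fun {a b} ha hb => U'.add_mem ha hb
        smul_mem' := fun r v hv => stab r.1 r.2 v hv }
    refine ⟨M, ?_⟩
    rw [isCompl_iff, disjoint_iff, codisjoint_iff, eq_bot_iff, eq_top_iff]
    constructor
    · rintro v ⟨hv, hv'⟩
      have h1 : v ∈ N' ⊓ U' := ⟨hv, hv'⟩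
      rw [hc.inf_eq_bot, Submodule.mem_bot] at h1
      rw [h1]
      exact Submodule.zero_mem _
    · intro v _
      have h1 : v ∈ N' ⊔ U' := by rw [hc.sup_eq_top]; exact Submodule.mem_top
      obtain ⟨a, ha, b, hb, rfl⟩ := Submodule.mem_sup.1 h1
      exact Submodule.add_mem _ (Submodule.mem_sup_left ha) (Submodule.mem_sup_right hb)
  let f : Module.End (Module.End R V) V :=
    { toFun := T
      map_add' := fun a b => map_add T a b
      map_smul' := fun g m => by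
        let P : End K V :=
          { toFun := g
            map_add' := fun a b => map_add g a b
            map_smul' := fun c v => by
              have h1 := g.map_smul (algebraMap K R c) v
              have h2 : ∀ w : V, (algebraMap K R c) • w = c • w := fun w => by
                rw [hsm]
                rfl
              rw [h2, h2] at h1
              exact h1 }
        have h1 := hT P fun X hX => by
          refine LinearMap.ext fun v => ?_
          have h2 := g.map_smul (⟨X, Algebra.subset_adjoin hX⟩ : R) v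
          exact h2.symm
        exact LinearMap.congr_fun h1 m }
  obtain ⟨s, hs⟩ := Module.Finite.fg_top (R := K) (M := V)
  obtain ⟨r, hr⟩ := jacobson_density f s
  have h1 : T = r.1 := by
    refine LinearMap.ext fun v => ?_
    have hv : v ∈ Submodule.span K (s : Set V) := by rw [hs]; exact Submodule.mem_top
    induction hv using Submodule.span_induction with
    | mem x hx => exact hr x hx
    | zero => rw [map_zero, map_zero]
    | add a b _ _ ha hb => rw [map_add, map_add, ha, hb]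
    | smul c a _ ha => rw [map_smul, map_smul, ha]
  rw [h1]
  exact r.2

end dens

/-- The Tate conjecture for endomorphisms: the endomorphisms which commute with a subgroup of
finite index of `Γ` commute with `𝔤`. -/
def EndTate {k V Γ : Type} [Field k] [AddCommGroup V] [Module k V] [Group Γ]
    (ρ : Representation k Γ V) (𝔤 : Submodule k (End k V)) : Prop :=
  ∀ P : End k V, (∃ Δ : Subgroup Γ, Δ.FiniteIndex ∧ ∀ γ ∈ Δ, P * ρ γ = ρ γ * P) →
    ∀ X ∈ 𝔤, X * P = P * X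

section main

variable {ι : Type} [Fintype ι] [DecidableEq ι] {n : ι → ℕ} {ℓ : ℕ} [hℓ : Fact ℓ.Prime]
  {Γ : Type} [Group Γ] [TopologicalSpace Γ] [IsTopologicalGroup Γ] [CompactSpace Γ]

/-- The Lie algebra of the Tate tensors generates, over the complex numbers, the same associative
algebra as the motivic Lie algebra. -/
theorem exists_L [Algebra ℚ_[ℓ] ℂ] (ρ : ∀ i, Representation ℚ_[ℓ] Γ (Fin (n i) → ℚ_[ℓ]))
    (hρ : ∀ i, Continuous fun g => LinearMap.toMatrix' (ρ i g))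
    {𝔤 : Submodule ℚ_[ℓ] (End ℚ_[ℓ] (∀ i, Fin (n i) → ℚ_[ℓ]))} (h𝔤 : IsMotivic ρ 𝔤)
    (hss : FiniteIndexSemisimple (sumRep ρ)) (hE : EndTate (sumRep ρ) 𝔤) :
    ∃ L : Submodule ℚ_[ℓ] (End ℚ_[ℓ] (∀ i, Fin (n i) → ℚ_[ℓ])), L ≤ 𝔤 ∧
      (∀ X, X ∈ L ↔ ∀ (m : ℕ) (φ : Tensor ℚ_[ℓ] (∀ i, Fin (n i) → ℚ_[ℓ]) m),
        TateTensor (sumRep ρ) φ → KillsTensor X φ) ∧ IsLie (bcS ℂ L) ∧
      ∀ x ∈ bcS ℂ 𝔤, x ∈ Algebra.adjoin ℂ (bcS ℂ L : Set (End ℂ _)) := by
  obtain ⟨L, hL, hLie, hAd, -⟩ := Y41.RM.lieL' ℚ_[ℓ] (∀ i, Fin (n i) → ℚ_[ℓ]) Γ (sumRep ρ)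
  have hnd : NonDeg L := nonDeg_of_semisimple hss hL hLie hAd
  have hLG : L ≤ 𝔤 := fun X hX => h𝔤.algebraic X fun m φ h =>
    ((hL X).1 hX).2 m φ (h𝔤.tate m φ h)
  obtain ⟨b1, b2, b3, -, -, -⟩ := Y809.RM.BC.bc ℚ_[ℓ] ℂ (∀ i, Fin (n i) → ℚ_[ℓ]) L
  have hLie' := b2 hLie
  have hnd' := b3 hnd
  have hcl : ∀ X, (∀ (m : ℕ) (φ : Tensor ℚ_[ℓ] (∀ i, Fin (n i) → ℚ_[ℓ]) m),
      (∀ Y ∈ L, KillsTensor Y φ) → KillsTensor X φ) → X ∈ L := fun X hX =>
    (hL X).2 (Pool.Agent.R913.Adj.mem_LT_of_semisimple (sumRep ρ) hss fun m φ hφ =>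
      hX m φ fun Y hY => ((hL Y).1 hY).2 m φ hφ)
  -- central elements are diagonalizable
  have hdiag : ∀ z ∈ bcS ℂ L, (∀ X ∈ bcS ℂ L, z * X = X * z) → ⨆ μ, End.eigenspace z μ = ⊤ := by
    intro z hz hzc
    obtain ⟨s, hs, h1, h2, h3⟩ := Y914.RM.jord ℚ_[ℓ] ℂ (∀ i, Fin (n i) → ℚ_[ℓ]) L hcl z hz
    have h4 : z - s = 0 := by
      refine hnd' _ (Submodule.sub_mem _ hz hs) fun Y hY => ?_
      have h5 : (z - s) * Y = Y * (z - s) := by
        rw [sub_mul, mul_sub, hzc Y hY, h3 Y (hzc Y hY)]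
      have h6 : IsNilpotent ((z - s) * Y) := by
        obtain ⟨N, hN⟩ := h2
        refine ⟨N, ?_⟩
        have hc : Commute (z - s) Y := h5
        rw [hc.mul_pow, hN, zero_mul]
      exact (LinearMap.isNilpotent_trace_of_isNilpotent h6).eq_zero
    rw [sub_eq_zero.1 h4]
    exact h1
  have hcomp : ∀ U : Submodule ℂ (ℂ ⊗[ℚ_[ℓ]] (∀ i, Fin (n i) → ℚ_[ℓ])),
      (∀ X ∈ bcS ℂ L, ∀ u ∈ U, X u ∈ U) →
      ∃ U' : Submodule ℂ (ℂ ⊗[ℚ_[ℓ]] (∀ i, Fin (n i) → ℚ_[ℓ])),
        (∀ X ∈ bcS ℂ L, ∀ u ∈ U', X u ∈ U') ∧ IsCompl U U' := by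
    intro U hU
    obtain ⟨P, hP1, hP2, hP3⟩ := Y925.RM.Weyl.weyl ℂ _ (bcS ℂ L) hLie' hnd' hdiag U hU
    refine ⟨LinearMap.ker P, fun X hX u hu => ?_, ?_⟩
    · rw [LinearMap.mem_ker] at hu ⊢
      have h1 := LinearMap.congr_fun (hP1 X hX) u
      rw [Module.End.mul_apply, Module.End.mul_apply, hu, map_zero] at h1
      exact h1.symm
    · rw [isCompl_iff, disjoint_iff, codisjoint_iff, eq_bot_iff, eq_top_iff]
      constructor
      · rintro u ⟨hu, hu'⟩
        have h1 := hP3 u hu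
        rw [LinearMap.mem_ker.1 hu'] at h1
        rw [← h1]
        exact Submodule.zero_mem _
      · intro u _
        have h1 : u = P u + (u - P u) := by abel
        rw [h1]
        refine Submodule.add_mem _ (Submodule.mem_sup_left (hP2 u))
          (Submodule.mem_sup_right (LinearMap.mem_ker.2 ?_))
        rw [map_sub, hP3 _ (hP2 u), sub_self]
  obtain ⟨Δ, hΔ, hcΔ⟩ := Y220.RM.tfr ℓ ι n Γ ρ hρ (comm L) (comm_conj hAd) (comm_order hL)
  refine ⟨L, hLG, fun X => ⟨fun hX => ((hL X).1 hX).2, fun hX =>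
    (hL X).2 (Pool.Agent.R913.Adj.mem_LT_of_semisimple (sumRep ρ) hss hX)⟩, hLie', fun x hx => ?_⟩
  refine mem_adjoin_of_comm hcomp fun P hP => ?_
  have hPc : ∀ π : ℂ →ₗ[ℚ_[ℓ]] ℚ_[ℓ], ∀ X ∈ 𝔤, X * pM π P = pM π P * X := by
    intro π
    have h1 : ∀ X ∈ L, X * pM π P = pM π P * X := by
      intro X hX
      rw [← Y809.RM.BC.pM_bc_mul, ← Y809.RM.BC.pM_mul_bc, hP _ (Submodule.subset_span ⟨X, hX, rfl⟩)]
    exact hE _ ⟨Δ, hΔ, fun γ hγ => (hcΔ γ hγ _ h1).symm⟩
  have key : ∀ X ∈ 𝔤, X.baseChange ℂ * P = P * X.baseChange ℂ := by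
    intro X hX
    refine Y809.RM.BC.eq_of_pM _ _ fun π => ?_
    rw [Y809.RM.BC.pM_bc_mul, Y809.RM.BC.pM_mul_bc, hPc π X hX]
  induction hx using Submodule.span_induction with
  | mem x hx =>
    obtain ⟨X, hX, rfl⟩ := hx
    exact key X hX
  | zero => rw [zero_mul, mul_zero]
  | add a b _ _ ha hb => rw [add_mul, mul_add, ha, hb]
  | smul c a _ ha => rw [smul_mul_assoc, mul_smul_comm, ha]

/-- The conclusion: if the base change of `L` is everything, all Tate tensors are killed by the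
motivic Lie algebra. -/
theorem tate_of_eq [Algebra ℚ_[ℓ] ℂ] {ρ : ∀ i, Representation ℚ_[ℓ] Γ (Fin (n i) → ℚ_[ℓ])}
    {𝔤 L : Submodule ℚ_[ℓ] (End ℚ_[ℓ] (∀ i, Fin (n i) → ℚ_[ℓ]))} (h𝔤 : IsMotivic ρ 𝔤)
    (hL : ∀ X ∈ L, ∀ (m : ℕ) (φ : Tensor ℚ_[ℓ] (∀ i, Fin (n i) → ℚ_[ℓ]) m),
        TateTensor (sumRep ρ) φ → KillsTensor X φ)
    (h : bcS ℂ 𝔤 ≤ bcS ℂ L) (m : ℕ) (φ : Tensor ℚ_[ℓ] (∀ i, Fin (n i) → ℚ_[ℓ]) m) :
    TateTensor (sumRep ρ) φ ↔ ∀ X ∈ 𝔤, KillsTensor X φ := by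
  refine ⟨fun hφ X hX => hL X ?_ m φ hφ, fun hφ => h𝔤.tate m φ hφ⟩
  have h1 := h (Submodule.subset_span ⟨X, hX, rfl⟩)
  obtain ⟨π, hπ⟩ := exists_pi ℚ_[ℓ] ℂ
  have h2 := (Y809.RM.BC.mem_bcS L _).1 h1 π
  rw [Y809.RM.BC.pM_bc, hπ, one_smul] at h2
  exact h2

end main

end Pool.Agent.R918.Ell

end
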