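import Pool.Agent.R918.Mid5
import Pool.Agent.R918.AV
import Pool.Agent.R917.SpinPt

set_option autoImplicit false
set_option linter.unusedSectionVars false
set_option linter.unusedVariables false

/-!
# Abelian varieties of middle exterior type
-/

open Module Function TensorProduct Matrix

noncomputable section

namespace Pool.Agent.R918

open Pool.Agent.Y102 Pool.Agent.W516.DR Pool.Agent.H204R3.GP

section slm

variable {k n : ℕ} {U : Type} [AddCommGroup U] [Module ℂ U]
  {a b : Fin k × Fin n → Module.End ℂ U} {H : Type} [AddCommGroup H] [Module ℂ H]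
  {P : U →ₗ[ℂ] H} {Q : H →ₗ[ℂ] U}

/-- The sum of the Lie algebras `sl(n)`, acting on the middle part. -/
def slC (a b : Fin k × Fin n → Module.End ℂ U) (P : U →ₗ[ℂ] H) (Q : H →ₗ[ℂ] U) :
    Submodule ℂ (Module.End ℂ H) where
  carrier := {x | ∃ M, IsBD M ∧ (∀ σ, btr σ M = 0) ∧ x = cmp P Q (rho a b M)}
  zero_mem' := ⟨0, IsBD.zero, fun σ => map_zero _, by rw [map_zero, map_zero]⟩
  add_mem' := by
    rintro _ _ ⟨M, h1, h2, rfl⟩ ⟨N, h3, h4, rfl⟩
    exact ⟨M + N, h1.add h3, fun σ => by rw [map_add, h2, h4, add_zero], by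
      rw [map_add, map_add]⟩
  smul_mem' := by
    rintro c _ ⟨M, h1, h2, rfl⟩
    exact ⟨c • M, h1.smul c, fun σ => by rw [map_smul, h2, smul_zero], by
      rw [map_smul, map_smul]⟩

theorem mem_slC {x : Module.End ℂ H} : x ∈ slC a b P Q ↔
    ∃ M, IsBD M ∧ (∀ σ, btr σ M = 0) ∧ x = cmp P Q (rho a b M) := Iff.rfl

theorem slC_br (h : Car a b) (hs : MidSet a b P Q) : ∀ x ∈ slC a b P Q, ∀ y ∈ slC a b P Q,
    x * y - y * x ∈ slC a b P Q := by
  rintro _ ⟨M, h1, h2, rfl⟩ _ ⟨N, h3, h4, rfl⟩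
  refine ⟨M * N - N * M, (h1.mul h3).sub (h3.mul h1), fun σ => btr_bracket σ h1 h3, ?_⟩
  rw [rho_bracket h, map_sub, hs.cmp_mul _ (nn_rho_comm h h3), hs.cmp_mul _ (nn_rho_comm h h1)]

theorem btr_single {p q : Fin k × Fin n} (hpq : p ≠ q) (σ : Fin k) :
    btr σ (Matrix.single p q (1 : ℂ)) = 0 := by
  rw [btr_sum]
  refine Finset.sum_eq_zero fun i _ => ?_
  rw [Matrix.single_apply, if_neg]
  rintro ⟨h1, h2⟩
  exact hpq (h1.trans h2.symm)

theorem slC_gen (h : Car a b) (hs : MidSet a b P Q) (σ : Fin k) (i j : Fin n) :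
    cmp P Q (a (σ, i) * b (σ, j)) ∈ Algebra.adjoin ℂ (slC a b P Q : Set (Module.End ℂ H)) := by
  have hr : ∀ i j : Fin n, rho a b (Matrix.single ((σ, i) : Fin k × Fin n) (σ, j) 1) =
      a (σ, i) * b (σ, j) := by
    intro i j
    refine LinearMap.ext fun u => ?_
    rw [rho_single, one_smul, Module.End.mul_apply]
  by_cases hij : i = j
  · subst hij
    have hn : (n : ℂ) ≠ 0 := by
      have := i.2
      have h1 : n ≠ 0 := by omega
      exact_mod_cast h1
    have h1 : ∀ l : Fin n, cmp P Q (a (σ, i) * b (σ, i)) - cmp P Q (a (σ, l) * b (σ, l)) ∈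
        Algebra.adjoin ℂ (slC a b P Q : Set (Module.End ℂ H)) := by
      intro l
      by_cases hil : i = l
      · rw [hil, sub_self]
        exact Subalgebra.zero_mem _
      · refine Algebra.subset_adjoin ⟨Matrix.single (σ, i) (σ, i) 1 -
          Matrix.single (σ, l) (σ, l) 1, (isBD_single σ i i 1).sub (isBD_single σ l l 1), ?_, ?_⟩
        · intro τ
          rw [← single_br' ((σ, i) : Fin k × Fin n) (σ, l)]
          exact btr_bracket τ (isBD_single σ i l 1) (isBD_single σ l i 1)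
        · rw [map_sub, map_sub, hr, hr]
    have h2 : (n : ℂ) • cmp P Q (a (σ, i) * b (σ, i)) =
        (∑ l : Fin n, (cmp P Q (a (σ, i) * b (σ, i)) - cmp P Q (a (σ, l) * b (σ, l)))) +
          ((n : ℂ) * 2⁻¹) • 1 := by
      have h3 : ∑ l : Fin n, cmp P Q (a (σ, l) * b (σ, l)) = ((n : ℂ) * 2⁻¹) • 1 := by
        rw [← map_sum]
        refine LinearMap.ext fun x => ?_
        have h4 := hs.mid x σ
        have h5 : nn a b σ (Q x) = ((n : ℂ) * 2⁻¹) • Q x := by
          rw [mul_comm, mul_smul, ← h4, smul_smul, inv_mul_cancel₀ two_ne_zero, one_smul]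
        change P (nn a b σ (Q x)) = _
        rw [h5, map_smul, hs.pq]
        rfl
      rw [Finset.sum_sub_distrib, h3, Finset.sum_const, Finset.card_univ, Fintype.card_fin,
        Nat.cast_smul_eq_nsmul, sub_add_cancel]
    have h3 : cmp P Q (a (σ, i) * b (σ, i)) = (n : ℂ)⁻¹ • ((n : ℂ) •
        cmp P Q (a (σ, i) * b (σ, i))) := by
      rw [smul_smul, inv_mul_cancel₀ hn, one_smul]
    rw [h3, h2]
    exact Subalgebra.smul_mem _ (Subalgebra.add_mem _ (Subalgebra.sum_mem _ fun l _ => h1 l)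
      (Subalgebra.smul_mem _ (Subalgebra.one_mem _) _)) _
  · refine Algebra.subset_adjoin ⟨Matrix.single (σ, i) (σ, j) 1, isBD_single σ i j 1, ?_, ?_⟩
    · exact btr_single fun h => hij (congrArg Prod.snd h)
    · rw [hr]

/-- the Lie algebra is perfect -/
theorem slC_perfect (h : Car a b) (hs : MidSet a b P Q) (hn : 0 < n) : slC a b P Q ≤
    Submodule.span ℂ {z | ∃ x ∈ slC a b P Q, ∃ y ∈ slC a b P Q, z = x * y - y * x} := by
  let S := Submodule.span ℂ {z | ∃ x ∈ slC a b P Q, ∃ y ∈ slC a b P Q, z = x * y - y * x}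
  let L : Submodule ℂ (Matrix (Fin k × Fin n) (Fin k × Fin n) ℂ) :=
    { carrier := {M | IsBD M ∧ (∀ σ, btr σ M = 0) ∧ cmp P Q (rho a b M) ∈ S}
      zero_mem' := ⟨IsBD.zero, fun σ => map_zero _, by rw [map_zero, map_zero]; exact S.zero_mem⟩
      add_mem' := fun h h' => ⟨h.1.add h'.1, fun σ => by rw [map_add, h.2.1, h'.2.1, add_zero],
        by rw [map_add, map_add]; exact S.add_mem h.2.2 h'.2.2⟩
      smul_mem' := fun c _ h => ⟨h.1.smul c, fun σ => by rw [map_smul, h.2.1, smul_zero],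
        by rw [map_smul, map_smul]; exact S.smul_mem c h.2.2⟩ }
  have hL : ∀ M, M ∈ L ↔ IsBD M ∧ (∀ σ, btr σ M = 0) ∧ cmp P Q (rho a b M) ∈ S := fun M => Iff.rfl
  have key : ∀ M N : Matrix (Fin k × Fin n) (Fin k × Fin n) ℂ, IsBD M → (∀ σ, btr σ M = 0) →
      IsBD N → (∀ σ, btr σ N = 0) → M * N - N * M ∈ L := by
    intro M N h1 h2 h3 h4
    refine (hL _).2 ⟨(h1.mul h3).sub (h3.mul h1), fun σ => btr_bracket σ h1 h3,
      Submodule.subset_span ⟨cmp P Q (rho a b M), ⟨M, h1, h2, rfl⟩, cmp P Q (rho a b N),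
        ⟨N, h3, h4, rfl⟩, ?_⟩⟩
    rw [rho_bracket h, map_sub, hs.cmp_mul _ (nn_rho_comm h h3),
      hs.cmp_mul _ (nn_rho_comm h h1)]
  have hsg : ∀ (σ : Fin k) (i j : Fin n), i ≠ j →
      Matrix.single ((σ, i) : Fin k × Fin n) (σ, j) (1 : ℂ) ∈ L := by
    intro σ i j hij
    have hpq : ((σ, i) : Fin k × Fin n) ≠ (σ, j) := fun h => hij (congrArg Prod.snd h)
    have hD := single_br' ((σ, i) : Fin k × Fin n) (σ, j)
    have e1 : (Matrix.single ((σ, i) : Fin k × Fin n) (σ, i) (1 : ℂ) -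
        Matrix.single (σ, j) (σ, j) 1) * Matrix.single (σ, i) (σ, j) 1 -
        Matrix.single (σ, i) (σ, j) 1 * (Matrix.single (σ, i) (σ, i) (1 : ℂ) -
          Matrix.single (σ, j) (σ, j) 1) = (2 : ℂ) • Matrix.single (σ, i) (σ, j) 1 := by
      rw [sub_mul, mul_sub, Matrix.single_mul_single_same, Matrix.single_mul_single_same,
        Matrix.single_mul_single_of_ne _ _ _ _ (Ne.symm hpq),
        Matrix.single_mul_single_of_ne _ _ _ _ (Ne.symm hpq), mul_one]
      module
    have h1 := key (Matrix.single (σ, i) (σ, i) (1 : ℂ) - Matrix.single (σ, j) (σ, j) 1)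
      (Matrix.single (σ, i) (σ, j) 1) ((isBD_single σ i i 1).sub (isBD_single σ j j 1))
      (fun τ => by
        rw [← hD]
        exact btr_bracket τ (isBD_single σ i j 1) (isBD_single σ j i 1))
      (isBD_single σ i j 1) (btr_single hpq)
    rw [e1] at h1
    have h2 := L.smul_mem (2⁻¹ : ℂ) h1
    rwa [smul_smul, inv_mul_cancel₀ two_ne_zero, one_smul] at h2
  rintro _ ⟨M, h1, h2, rfl⟩
  have h3 : M ∈ L := all_of_units hn (g := 1) (g' := 1)
    (fun x hx y hy => key x y ((hL x).1 hx).1 ((hL x).1 hx).2.1 ((hL y).1 hy).1 ((hL y).1 hy).2.1)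
    (fun p q hpq => Matrix.one_apply_ne fun h => hpq (by rw [h]))
    (fun p q hpq => Matrix.one_apply_ne fun h => hpq (by rw [h])) (one_mul 1) (one_mul 1)
    (fun σ i hi => by
      rw [one_mul, one_mul, mul_one, mul_one]
      exact ⟨hsg σ _ _ fun h => by
        have h5 : i = i + 1 := congrArg Fin.val h
        omega, hsg σ _ _ fun h => by
        have h5 : i + 1 = i := congrArg Fin.val h
        omega⟩) M h1 h2
  exact ((hL M).1 h3).2.2

end slm

section AV

variable {g : ℕ} {A : AbVar g} {𝔥 : Submodule ℚ (Module.End ℚ A.H1)}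
  {k n : ℕ} {U : Type} [AddCommGroup U] [Module ℂ U] {a b : Fin k × Fin n → Module.End ℂ U}
  {P : U →ₗ[ℂ] (ℂ ⊗[ℚ] A.H1)} {Q : (ℂ ⊗[ℚ] A.H1) →ₗ[ℂ] U}

/-- full subalgebras of Lie algebras of middle exterior type -/
theorem full_middle (h : A.Full 𝔥) {m : ℕ} (hm : 2 * m = n) [FiniteDimensional ℂ U]
    (hcar : Car a b) (hs : MidSet a b P Q) (hl : cx A.NA = slC a b P Q) : A.NA ≤ 𝔥 := by
  rcases subsingleton_or_nontrivial (ℂ ⊗[ℚ] A.H1) with hsub | hnt
  · intro X _
    refine mem_of_bc ?_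
    have : X.baseChange ℂ = 0 := by
      ext x
      exact Subsingleton.elim _ _
    rw [this]
    exact Submodule.zero_mem _
  have hmid : MidHyp a b P Q (cx 𝔥) :=
    { car := hcar
      ms := hs
      hle := by
        intro x hx
        have h1 := cx_mono h.le hx
        rw [hl] at h1
        exact h1
      hbr := h.cx_br'
      gen := by
        intro σ i j
        have h1 : Algebra.adjoin ℂ (cx A.NA : Set (Module.End ℂ (ℂ ⊗[ℚ] A.H1))) ≤
            Algebra.adjoin ℂ (cx 𝔥 : Set (Module.End ℂ (ℂ ⊗[ℚ] A.H1))) :=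
          Algebra.adjoin_le fun x hx => h.cx_adjoin x hx
        refine h1 ?_
        rw [hl]
        exact slC_gen hcar hs σ i j }
  intro X hX
  refine mem_of_bc ?_
  have h1 := bc_mem hX
  rw [hl] at h1
  obtain ⟨M, h2, h3, h4⟩ := h1
  rw [h4]
  exact hmid.all_mem hm M h2 h3

/-- every algebraic group which contains the periods -/
theorem middle_lie {m : ℕ} (hm : 2 * m = n) [FiniteDimensional ℂ U]
    (hcar : Car a b) (hs : MidSet a b P Q) (hl : cx A.NA = slC a b P Q)
    {H : Set (Matrix (Fin (2 * g)) (Fin (2 * g)) ℂ)} (h : Pool.Agent.R917.Pt A H) :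
    A.NA ≤ Pool.Agent.R917.lieQ H ∧ (1 : Module.End ℚ A.H1) ∈ Pool.Agent.R917.lieQ H := by
  refine h.lie (fun hf => full_middle hf hm hcar hs hl) ?_
  rcases Nat.eq_zero_or_pos n with hn0 | hn0
  · intro X hX
    have h1 := bc_mem hX
    rw [hl] at h1
    obtain ⟨M, -, -, h4⟩ := h1
    have hM : M = 0 := by
      ext p q
      have := p.2.2
      omega
    rw [hM, map_zero, map_zero] at h4
    refine mem_of_bc ?_
    rw [h4]
    exact Submodule.zero_mem _
  · refine Pool.Agent.R917.perfect_of ?_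
    rw [hl]
    exact slC_perfect hcar hs hn0

end AV

end Pool.Agent.R918

end
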