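import Pool.Agent.R918.SpF
import Pool.Agent.R918.MidMat

set_option autoImplicit false
set_option linter.unusedSectionVars false
set_option linter.unusedVariables false

/-!
# Products of abelian varieties of spin type
-/

open Module Function TensorProduct Matrix

noncomputable section

namespace Pool.Agent.R918.Sp

open Pool.Agent.Y102 Pool.Agent.Y102.SP Pool.Agent.W516.DR Pool.Agent.H204R3.GP

section perf

variable {m : ℕ} {H : Type} [AddCommGroup H] [Module ℂ H] {U : Fin m → Type}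
  [∀ i, AddCommGroup (U i)] [∀ i, Module ℂ (U i)] {P : ∀ i, H →ₗ[ℂ] U i} {Q : ∀ i, U i →ₗ[ℂ] H}
  {r : Fin m → ℕ} {E : ∀ i, Fin (r i) → Module.End ℂ (U i)}

theorem ib_mem_soB (i : Fin m) {x : Module.End ℂ (U i)} (hx : x ∈ soE (E i)) :
    ib P Q i x ∈ soB P Q E := by
  have h1 : soE (E i) ≤ (soB P Q E).comap (ib P Q i) := by
    refine Submodule.span_le.2 ?_
    rintro _ ⟨a, b, hab, rfl⟩
    exact Submodule.subset_span ⟨i, a, b, hab, rfl⟩
  exact h1 hx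

theorem soB_perfect (D : Dec P Q) [∀ i, FiniteDimensional ℂ (U i)] [∀ i, Nontrivial (U i)] (hE : ∀ i, CE (E i))
    (hr : ∀ i, 3 ≤ r i) : soB P Q E ≤
      Submodule.span ℂ {z | ∃ x ∈ soB P Q E, ∃ y ∈ soB P Q E, z = x * y - y * x} := by
  refine Submodule.span_le.2 ?_
  rintro _ ⟨i, a, b, hab, rfl⟩
  have h1 : soE (E i) ≤ (Submodule.span ℂ
      {z | ∃ x ∈ soB P Q E, ∃ y ∈ soB P Q E, z = x * y - y * x}).comap (ib P Q i) := by
    refine (so_perfect (hr i) (hE i)).trans (Submodule.span_le.2 ?_)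
    rintro _ ⟨x, hx, y, hy, rfl⟩
    refine Submodule.subset_span ⟨ib P Q i x, ib_mem_soB i hx, ib P Q i y, ib_mem_soB i hy, ?_⟩
    rw [map_sub, ib_mul D, ib_mul D]
  exact h1 (Submodule.subset_span ⟨a, b, hab, rfl⟩)

end perf

/-- A decomposition and operators, in terms of matrices. -/
structure Blk {g m : ℕ} {d r : Fin m → ℕ} (P : ∀ i, Matrix (Fin (d i)) (Fin (2 * g)) ℂ)
    (Q : ∀ i, Matrix (Fin (2 * g)) (Fin (d i)) ℂ)
    (E : ∀ i, Fin (r i) → Matrix (Fin (d i)) (Fin (d i)) ℂ) : Prop where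
  pos : ∀ i, 0 < d i
  same : ∀ i, P i * Q i = 1
  diff : ∀ i j, i ≠ j → P i * Q j = 0
  sum : ∑ i, Q i * P i = 1
  sq : ∀ i a, E i a * E i a = 1
  anti : ∀ i a b, a ≠ b → E i a * E i b = -(E i b * E i a)

variable {g m : ℕ} {d r : Fin m → ℕ} {P : ∀ i, Matrix (Fin (d i)) (Fin (2 * g)) ℂ}
    {Q : ∀ i, Matrix (Fin (2 * g)) (Fin (d i)) ℂ}
    {E : ∀ i, Fin (r i) → Matrix (Fin (d i)) (Fin (d i)) ℂ}

/-- the projections -/
def Pm (P : ∀ i, Matrix (Fin (d i)) (Fin (2 * g)) ℂ) (i : Fin m) :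
    (ℂ ⊗[ℚ] (Fin (2 * g) → ℚ)) →ₗ[ℂ] (Fin (d i) → ℂ) :=
  Matrix.toLin' (P i) ∘ₗ (eqv (2 * g)).symm.toLinearMap

/-- the inclusions -/
def Qm (Q : ∀ i, Matrix (Fin (2 * g)) (Fin (d i)) ℂ) (i : Fin m) :
    (Fin (d i) → ℂ) →ₗ[ℂ] (ℂ ⊗[ℚ] (Fin (2 * g) → ℚ)) :=
  (eqv (2 * g)).toLinearMap ∘ₗ Matrix.toLin' (Q i)

/-- the operators -/
def Em (E : ∀ i, Fin (r i) → Matrix (Fin (d i)) (Fin (d i)) ℂ) (i : Fin m) (a : Fin (r i)) :
    Module.End ℂ (Fin (d i) → ℂ) := Matrix.toLinAlgEquiv' (E i a)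

theorem Qm_apply (i : Fin m) (u : Fin (d i) → ℂ) : Qm Q i u = eqv (2 * g) ((Q i).mulVec u) := rfl

theorem Pm_eqv (i : Fin m) (v : Fin (2 * g) → ℂ) : Pm P i (eqv (2 * g) v) = (P i).mulVec v := by
  change Matrix.toLin' (P i) ((eqv (2 * g)).symm (eqv (2 * g) v)) = _
  rw [LinearEquiv.symm_apply_apply]
  rfl

theorem dec_of (h : Blk P Q E) : Dec (Pm P) (Qm Q) where
  same i u := by
    rw [Qm_apply, Pm_eqv, Matrix.mulVec_mulVec, h.same, Matrix.one_mulVec]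
  diff i j hij u := by
    rw [Qm_apply, Pm_eqv, Matrix.mulVec_mulVec, h.diff i j hij, Matrix.zero_mulVec]
  sum x := by
    obtain ⟨v, rfl⟩ := (eqv (2 * g)).surjective x
    have h1 : ∀ i, Qm Q i (Pm P i (eqv (2 * g) v)) = eqv (2 * g) ((Q i * P i).mulVec v) := by
      intro i
      rw [Pm_eqv, Qm_apply, Matrix.mulVec_mulVec]
    simp only [h1]
    rw [← map_sum, ← Matrix.sum_mulVec, h.sum, Matrix.one_mulVec]

theorem ce_of (h : Blk P Q E) (i : Fin m) : CE (Em E i) where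
  sq a := by
    unfold Em
    rw [← map_mul, h.sq, map_one]
  anti a b hab := by
    unfold Em
    rw [← map_mul, h.anti i a b hab, map_neg, map_mul]

theorem ib_mat (i : Fin m) (a b : Fin (r i)) :
    ib (Pm P) (Qm Q) i (Em E i a * Em E i b) = matE (2 * g) (Q i * (E i a * E i b) * P i) := by
  refine LinearMap.ext fun x => ?_
  obtain ⟨v, rfl⟩ := (eqv (2 * g)).surjective x
  rw [ib_apply, Pm_eqv, Qm_apply, matE_eqv]
  congr 1
  change (Q i).mulVec ((E i a).mulVec ((E i b).mulVec ((P i).mulVec v))) = _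
  rw [Matrix.mulVec_mulVec, Matrix.mulVec_mulVec, Matrix.mulVec_mulVec]
  congr 1
  simp only [Matrix.mul_assoc]

theorem soB_eq : (Submodule.span ℂ {Y | ∃ i a b, a ≠ b ∧
    Y = Q i * (E i a * E i b) * P i}).map (matE (2 * g)).toLinearMap =
      soB (Pm P) (Qm Q) (Em E) := by
  rw [Submodule.map_span]
  unfold soB
  congr 1
  ext x
  constructor
  · rintro ⟨_, ⟨i, a, b, hab, rfl⟩, rfl⟩
    exact ⟨i, a, b, hab, (ib_mat i a b).symm⟩
  · rintro ⟨i, a, b, hab, rfl⟩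
    exact ⟨_, ⟨i, a, b, hab, rfl⟩, (ib_mat i a b).symm⟩

section AV

variable {A : AbVar g} {𝔥 : Submodule ℚ (Module.End ℚ A.H1)}

/-- full subalgebras -/
theorem full_sum (h : A.Full 𝔥) (hB : Blk P Q E) (hr : ∀ i, 6 ≤ r i)
    (h8 : ∀ i j, i ≠ j → r i = 8 → r j ≠ 8)
    (hl : cx A.NA = soB (Pm P) (Qm Q) (Em E)) : A.NA ≤ 𝔥 := by
  have : ∀ i, Nontrivial (Fin (d i) → ℂ) := fun i => by
    have : Nonempty (Fin (d i)) := ⟨⟨0, hB.pos i⟩⟩
    infer_instance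
  have hhyp : SpHyp (Pm P) (Qm Q) (Em E) (cx 𝔥) :=
    { dec := dec_of hB
      ce := ce_of hB
      le := by
        intro x hx
        have h1 := cx_mono h.le hx
        rw [hl] at h1
        exact h1
      br := h.cx_br'
      gen := by
        intro i a b hab
        refine h.cx_adjoin _ ?_
        rw [hl]
        exact Submodule.subset_span ⟨i, a, b, hab, rfl⟩ }
  intro X hX
  refine mem_of_bc ?_
  have h1 := bc_mem hX
  rw [hl] at h1
  exact hhyp.all hr h8 h1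

/-- every algebraic group which contains the periods -/
theorem sum_lie (hB : Blk P Q E) (hr : ∀ i, 6 ≤ r i)
    (h8 : ∀ i j, i ≠ j → r i = 8 → r j ≠ 8)
    (hl : Submodule.span ℂ {Y | ∃ X ∈ A.NA, Y = toC X} =
      Submodule.span ℂ {Y | ∃ i a b, a ≠ b ∧ Y = Q i * (E i a * E i b) * P i})
    {H : Set (Matrix (Fin (2 * g)) (Fin (2 * g)) ℂ)} (h : Pool.Agent.R917.Pt A H) :
    A.NA ≤ Pool.Agent.R917.lieQ H ∧ (1 : Module.End ℚ A.H1) ∈ Pool.Agent.R917.lieQ H := by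
  have : ∀ i, Nontrivial (Fin (d i) → ℂ) := fun i => by
    have : Nonempty (Fin (d i)) := ⟨⟨0, hB.pos i⟩⟩
    infer_instance
  have hl' : cx A.NA = soB (Pm P) (Qm Q) (Em E) := by
    rw [← map_lie, hl, soB_eq]
  refine h.lie (fun hf => full_sum hf hB hr h8 hl') ?_
  refine Pool.Agent.R917.perfect_of ?_
  rw [hl']
  exact soB_perfect (dec_of hB) (ce_of hB) fun i => by
    have := hr i
    omega

end AV

end Pool.Agent.R918.Sp

end
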