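import Pool.Agent.R918.Ell
import Pool.Agent.R918.MidAV
import Pool.Agent.R918.SpG
import Pool.Agent.Y114.TF.Local2

set_option autoImplicit false
set_option linter.unusedSectionVars false
set_option linter.unusedVariables false

/-!
# Rigid types of motivic Lie algebras
-/

open Module TensorProduct

noncomputable section

namespace Pool.Agent.R918.Ell

open Pool.Agent.Y114.RM Pool.Agent.Y114.TF Pool.Agent.H204R3.GP Pool.Agent.R913.Adj Pool.Agent

/-- All subalgebras which generate the same associative algebra are equal to the Lie algebra. -/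
structure Rig {H : Type} [AddCommGroup H] [Module ℂ H] (𝔰 : Submodule ℂ (End ℂ H)) : Prop where
  br : ∀ x ∈ 𝔰, ∀ y ∈ 𝔰, x * y - y * x ∈ 𝔰
  all : ∀ 𝔥 ≤ 𝔰, (∀ x ∈ 𝔥, ∀ y ∈ 𝔥, x * y - y * x ∈ 𝔥) →
    (∀ x ∈ 𝔰, x ∈ Algebra.adjoin ℂ (𝔥 : Set (End ℂ H))) → 𝔰 ≤ 𝔥

theorem Rig.weight {H : Type} [AddCommGroup H] [Module ℂ H] {𝔰 L G : Submodule ℂ (End ℂ H)}
    (hs : Rig 𝔰) (hLie : ∀ x ∈ L, ∀ y ∈ L, x * y - y * x ∈ L) (hmono : L ≤ G)
    (hg : G = 𝔰 ⊔ Submodule.span ℂ {1}) (h1 : (1 : End ℂ H) ∈ L)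
    (hadj : ∀ x ∈ G, x ∈ Algebra.adjoin ℂ (L : Set (End ℂ H))) : G ≤ L := by
  have h5 : 𝔰 ≤ L := by
    refine le_trans (hs.all (L ⊓ 𝔰) inf_le_right (fun x hx y hy =>
      ⟨hLie x hx.1 y hy.1, hs.br x hx.2 y hy.2⟩) fun x hx => ?_) inf_le_left
    have h6 : x ∈ Algebra.adjoin ℂ (L : Set (End ℂ H)) :=
      hadj x (by rw [hg]; exact Submodule.mem_sup_left hx)
    refine (Algebra.adjoin_le (S := Algebra.adjoin ℂ ((L ⊓ 𝔰 : Submodule ℂ _) :
      Set (End ℂ H))) fun y hy => ?_) h6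
    have h7 : y ∈ 𝔰 ⊔ Submodule.span ℂ {1} := by
      rw [← hg]
      exact hmono hy
    obtain ⟨s, hs', t, ht, rfl⟩ := Submodule.mem_sup.1 h7
    obtain ⟨c, rfl⟩ := Submodule.mem_span_singleton.1 ht
    refine Subalgebra.add_mem _ (Algebra.subset_adjoin ⟨?_, hs'⟩)
      (Subalgebra.smul_mem _ (Subalgebra.one_mem _) c)
    have h8 := Submodule.sub_mem _ hy (Submodule.smul_mem _ c h1)
    rwa [add_sub_cancel_right] at h8
  rw [hg]
  refine sup_le h5 (Submodule.span_le.2 ?_)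
  rintro _ rfl
  exact h1

section main

variable {ι : Type} [Fintype ι] [DecidableEq ι] {n : ι → ℕ} {ℓ : ℕ} [hℓ : Fact ℓ.Prime]
  {Γ : Type} [Group Γ] [TopologicalSpace Γ] [IsTopologicalGroup Γ] [CompactSpace Γ]

theorem weightOp_const (w : ℤ) : weightOp (k := ℚ_[ℓ]) (fun i : ι => Fin (n i) → ℚ_[ℓ])
    (fun _ => w) = (w : ℚ_[ℓ]) • 1 := by
  refine LinearMap.ext fun x => funext fun i => ?_
  rfl

theorem tate_of_rig [Algebra ℚ_[ℓ] ℂ] (ρ : ∀ i, Representation ℚ_[ℓ] Γ (Fin (n i) → ℚ_[ℓ]))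
    (hρ : ∀ i, Continuous fun g => LinearMap.toMatrix' (ρ i g))
    {𝔤 : Submodule ℚ_[ℓ] (End ℚ_[ℓ] (∀ i, Fin (n i) → ℚ_[ℓ]))} (h𝔤 : IsMotivic ρ 𝔤)
    (hss : FiniteIndexSemisimple (sumRep ρ)) (hE : EndTate (sumRep ρ) 𝔤)
    {𝔰 : Submodule ℂ (End ℂ (ℂ ⊗[ℚ_[ℓ]] (∀ i, Fin (n i) → ℚ_[ℓ])))} (hs : Rig 𝔰) (w : ℤ)
    (hw : w ≠ 0 → ∃ γ, ActsPurely ρ (fun _ => w) γ)
    (hg : bcS ℂ 𝔤 = 𝔰 ⊔ if w = 0 then ⊥ else Submodule.span ℂ {1}) (m : ℕ)
    (φ : Tensor ℚ_[ℓ] (∀ i, Fin (n i) → ℚ_[ℓ]) m) :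
    TateTensor (sumRep ρ) φ ↔ ∀ X ∈ 𝔤, KillsTensor X φ := by
  obtain ⟨L, hLG, hL, hLie, hadj⟩ := exists_L ρ hρ h𝔤 hss hE
  have hmono : bcS ℂ L ≤ bcS ℂ 𝔤 := bcS_mono hLG
  refine tate_of_eq h𝔤 (fun X hX => (hL X).1 hX) ?_ m φ
  by_cases hw0 : w = 0
  · rw [if_pos hw0, sup_bot_eq] at hg
    rw [hg]
    exact hs.all _ (by rw [← hg]; exact hmono) hLie fun x hx => hadj x (by rw [hg]; exact hx)
  · rw [if_neg hw0] at hg
    obtain ⟨γ, hγ⟩ := hw hw0
    have h1 : (1 : End ℂ (ℂ ⊗[ℚ_[ℓ]] (∀ i, Fin (n i) → ℚ_[ℓ]))) ∈ bcS ℂ L := by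
      have h2 : weightOp (k := ℚ_[ℓ]) (fun i : ι => Fin (n i) → ℚ_[ℓ]) (fun _ => w) ∈ L :=
        (hL _).2 fun m φ hφ => weight_kills ρ hss hγ m φ hφ
      rw [weightOp_const] at h2
      have h3 := L.smul_mem (w : ℚ_[ℓ])⁻¹ h2
      rw [smul_smul, inv_mul_cancel₀ (by exact_mod_cast hw0), one_smul] at h3
      have h4 : (1 : End ℚ_[ℓ] (∀ i, Fin (n i) → ℚ_[ℓ])).baseChange ℂ ∈ bcS ℂ L :=
        Submodule.subset_span ⟨1, h3, rfl⟩
      rwa [bc_one] at h4
    exact hs.weight hLie hmono hg h1 hadj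

/-- The converse. -/
theorem endTate_of_tate {k V : Type} [Field k] [AddCommGroup V] [Module k V] {Γ : Type} [Group Γ]
    (ρ : Representation k Γ V) {𝔤 : Submodule k (End k V)}
    (h : ∀ (m : ℕ) (φ : Tensor k V m), TateTensor ρ φ ↔ ∀ X ∈ 𝔤, KillsTensor X φ) :
    EndTate ρ 𝔤 := by
  rintro P ⟨Δ, hΔ, hP⟩ X hX
  exact Pool.Agent.R913.Adj.tate_comm ρ (fun m φ hφ => (h m φ).1 hφ X hX) hΔ hP

/-- `f` has `deg f` different roots in an extension field, and no quotient of two different roots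
is a root of unity. -/
def NeatPoly {k : Type} [Field k] (f : Polynomial k) : Prop :=
  ∃ (Ω : Type) (_ : Field Ω) (_ : Algebra k Ω) (s : Finset Ω),
    (∀ a ∈ s, Polynomial.aeval a f = 0) ∧ s.card = f.natDegree ∧
    ∀ N : ℕ, 0 < N → ∀ a ∈ s, ∀ b ∈ s, a ^ N = b ^ N → a = b

/-- Conditions on characteristic polynomials. -/
def GoodPolys {k : Type} [Field k] {ι : Type} [Fintype ι] {V : ι → Type}
    [∀ i, AddCommGroup (V i)] [∀ i, Module k (V i)] [∀ i, FiniteDimensional k (V i)] {Γ : Type}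
    [Group Γ] (ρ : ∀ i, Representation k Γ (V i)) : Prop :=
  (∃ γ : Γ, (∀ i, Irreducible (ρ i γ).charpoly) ∧
    (∀ i j, i ≠ j → (ρ i γ).charpoly ≠ (ρ j γ).charpoly) ∧ NeatPoly (∏ i, (ρ i γ).charpoly)) ∧
  ∀ i, ∃ γ : Γ, NeatPoly (ρ i γ).charpoly ∧ ∃ β, (ρ i γ).charpoly.IsRoot β

theorem of_goodPolys {k : Type} [Field k] [CharZero k] {ι : Type} [Fintype ι] [DecidableEq ι] {V : ι → Type}
    [∀ i, AddCommGroup (V i)] [∀ i, Module k (V i)] [∀ i, FiniteDimensional k (V i)] {Γ : Type}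
    [Group Γ] (ρ : ∀ i, Representation k Γ (V i)) {𝔤 : Submodule k (End k (∀ i, V i))}
    (hp : ∀ X ∈ 𝔤, ∀ x i, X x i = X (Pi.single i (x i)) i) (h : GoodPolys ρ) :
    FiniteIndexSemisimple (sumRep ρ) ∧ EndTate (sumRep ρ) 𝔤 := by
  obtain ⟨⟨γ, h1, h2, Ω, i1, i2, s, h3, h4, h5⟩, h6⟩ := h
  have hch : (sumRep ρ γ).charpoly = ∏ i, (ρ i γ).charpoly := charpoly_piEnd h1 h2
  rw [← hch] at h3 h4
  refine ⟨semisimple_sum ρ γ h1 h2 s h3 h4 h5, ?_⟩
  rintro P ⟨Δ, hΔ, hP⟩ X hX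
  obtain ⟨c, hc⟩ := commutant_sum ρ γ h1 h2 s h3 h4 h5 (fun i => by
    obtain ⟨γ', ⟨Ω', j1, j2, s', a1, a2, a3⟩, β, hβ⟩ := h6 i
    exact ⟨γ', β, Ω', j1, j2, s', a1, a2, a3, hβ⟩) Δ hΔ P
    (fun g hg x => LinearMap.congr_fun (hP g hg) x)
  refine LinearMap.ext fun x => funext fun i => ?_
  rw [Module.End.mul_apply, Module.End.mul_apply, hc, hp X hX (P x), hc, hp X hX x]
  have e1 : (Pi.single i (c i • x i) : ∀ i, V i) = c i • Pi.single i (x i) := by
    rw [Pi.single_smul]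
  rw [e1, map_smul, Pi.smul_apply]

end main

section types

variable {H : Type} [AddCommGroup H] [Module ℂ H]

/-- middle exterior type -/
theorem rig_mid {k m : ℕ} {U : Type} [AddCommGroup U] [Module ℂ U] [FiniteDimensional ℂ U]
    {a b : Fin k × Fin (2 * m) → Module.End ℂ U} {P : U →ₗ[ℂ] H} {Q : H →ₗ[ℂ] U}
    [FiniteDimensional ℂ H] (hcar : Car a b) (hs : MidSet a b P Q) : Rig (slC a b P Q) where
  br := slC_br hcar hs
  all 𝔥 hle hbr hadj := by
    rcases subsingleton_or_nontrivial H with hsub | hnt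
    · intro x _
      have : x = 0 := LinearMap.ext fun v => Subsingleton.elim _ _
      rw [this]
      exact Submodule.zero_mem _
    have hmid : MidHyp a b P Q 𝔥 :=
      { car := hcar
        ms := hs
        hle := fun x hx => hle hx
        hbr := hbr
        gen := fun σ i j => by
          have h1 := slC_gen hcar hs σ i j
          exact (Algebra.adjoin_le fun x hx => hadj x hx) h1 }
    rintro _ ⟨M, h2, h3, rfl⟩
    exact hmid.all_mem rfl M h2 h3

theorem gen_br {N k : ℕ} {E : Fin N → End ℂ H} {c : Fin N → Fin k} (hE : Y102.SP.CE E)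
    {i j p q : Fin N} (hij : i ≠ j) (hpq : p ≠ q) (h1 : c i = c j) (h2 : c p = c q) :
    E i * E j * (E p * E q) - E p * E q * (E i * E j) ∈ Y102.SP.soC E c := by
  have hm : ∀ a b, a ≠ b → c a = c b → E a * E b ∈ Y102.SP.soC E c := fun a b hab h =>
    Submodule.subset_span ⟨a, b, hab, h, rfl⟩
  have hsq : ∀ a (x : End ℂ H), E a * (E a * x) = x := fun a x => by
    rw [← mul_assoc, hE.sq, one_mul]
  have han : ∀ a b, a ≠ b → ∀ x : End ℂ H, E a * (E b * x) = -(E b * (E a * x)) := by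
    intro a b hab x
    rw [← mul_assoc, hE.anti a b hab, neg_mul, mul_assoc]
  by_cases hpi : p = i
  · subst hpi
    by_cases hqj : q = j
    · subst hqj
      rw [sub_self]
      exact Submodule.zero_mem _
    · have e : E p * E j * (E p * E q) - E p * E q * (E p * E j) = (-2 : ℂ) • (E j * E q) := by
        simp only [mul_assoc]
        rw [han j p (Ne.symm hij), mul_neg, hsq, han q p (Ne.symm hpq), mul_neg, hsq,
          hE.anti q j hqj]
        module
      rw [e]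
      exact Submodule.smul_mem _ _ (hm j q (Ne.symm hqj) (h1.symm.trans h2))
  by_cases hpj : p = j
  · subst hpj
    by_cases hqi : q = i
    · subst hqi
      have e : E q * E p * (E p * E q) - E p * E q * (E q * E p) = 0 := by
        simp only [mul_assoc]
        rw [hsq, hsq, hE.sq, hE.sq, sub_self]
      rw [e]
      exact Submodule.zero_mem _
    · have e : E i * E p * (E p * E q) - E p * E q * (E i * E p) = (2 : ℂ) • (E i * E q) := by
        simp only [mul_assoc]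
        rw [hsq, hE.anti i p hij, mul_neg, han q p (Ne.symm hpq), mul_neg, mul_neg, hsq, neg_neg,
          hE.anti q i hqi]
        module
      rw [e]
      exact Submodule.smul_mem _ _ (hm i q (Ne.symm hqi) (h1.trans h2))
  by_cases hqi : q = i
  · subst hqi
    have e : E q * E j * (E p * E q) - E p * E q * (E q * E j) = (2 : ℂ) • (E j * E p) := by
      simp only [mul_assoc]
      rw [hsq, hE.anti p q hpi, mul_neg, han j q (Ne.symm hij), mul_neg, mul_neg, hsq, neg_neg,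
        hE.anti p j hpj]
      module
    rw [e]
    exact Submodule.smul_mem _ _ (hm j p (Ne.symm hpj) (h1.symm.trans h2.symm))
  by_cases hqj : q = j
  · subst hqj
    have e : E i * E q * (E p * E q) - E p * E q * (E i * E q) = (-2 : ℂ) • (E i * E p) := by
      simp only [mul_assoc]
      rw [hE.anti p q hpq, mul_neg, mul_neg, hsq, hE.anti i q hij, mul_neg, mul_neg, hsq,
        hE.anti p i hpi]
      module
    rw [e]
    exact Submodule.smul_mem _ _ (hm i p (Ne.symm hpi) (h1.trans h2.symm))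
  have e : E i * E j * (E p * E q) - E p * E q * (E i * E j) = 0 := by
    simp only [mul_assoc]
    rw [han j p (Ne.symm hpj), hE.anti j q (Ne.symm hqj), mul_neg, mul_neg, mul_neg, neg_neg,
      han i p (Ne.symm hpi), han i q (Ne.symm hqi), mul_neg, neg_neg, sub_self]
  rw [e]
  exact Submodule.zero_mem _

theorem soC_br {N k : ℕ} {E : Fin N → End ℂ H} {c : Fin N → Fin k} (hE : Y102.SP.CE E) :
    ∀ x ∈ Y102.SP.soC E c, ∀ y ∈ Y102.SP.soC E c, x * y - y * x ∈ Y102.SP.soC E c := by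
  intro x hx y hy
  have h0 : ∀ y ∈ Y102.SP.soC E c, ∀ i j, i ≠ j → c i = c j →
      E i * E j * y - y * (E i * E j) ∈ Y102.SP.soC E c := by
    intro y hy i j hij hc
    unfold Y102.SP.soC at hy
    induction hy using Submodule.span_induction with
    | mem y hy =>
      obtain ⟨p, q, hpq, hc', rfl⟩ := hy
      exact gen_br hE hij hpq hc hc'
    | zero => rw [mul_zero, zero_mul, sub_zero]; exact Submodule.zero_mem _
    | add a b _ _ ha hb =>
      rw [mul_add, add_mul, add_sub_add_comm]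
      exact Submodule.add_mem _ ha hb
    | smul t a _ ha =>
      rw [mul_smul_comm, smul_mul_assoc, ← smul_sub]
      exact Submodule.smul_mem _ _ ha
  unfold Y102.SP.soC at hx
  induction hx using Submodule.span_induction with
  | mem x hx =>
    obtain ⟨i, j, hij, hc, rfl⟩ := hx
    exact h0 y hy i j hij hc
  | zero => rw [mul_zero, zero_mul, sub_zero]; exact Submodule.zero_mem _
  | add a b _ _ ha hb =>
    rw [mul_add, add_mul, add_sub_add_comm]
    exact Submodule.add_mem _ ha hb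
  | smul t a _ ha =>
    rw [mul_smul_comm, smul_mul_assoc, ← smul_sub]
    exact Submodule.smul_mem _ _ ha

/-- spin type -/
theorem rig_spin [FiniteDimensional ℂ H] {N k : ℕ} {E : Fin N → End ℂ H} {c : Fin N → Fin k}
    (hE : Y102.SP.CE E) (hc : ∀ i, 6 ≤ (Finset.univ.filter fun j => c j = c i).card) :
    Rig (Y102.SP.soC E c) where
  br := soC_br hE
  all 𝔥 hle hbr hadj := by
    rcases subsingleton_or_nontrivial H with hsub | hnt
    · intro x _
      have : x = 0 := LinearMap.ext fun v => Subsingleton.elim _ _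
      rw [this]
      exact Submodule.zero_mem _
    refine Y102.SP.main_col hE hc 𝔥 hle hbr fun i j hij => ?_
    by_cases h : i = j
    · subst h
      rw [hE.sq]
      exact Subalgebra.one_mem _
    · exact hadj _ (Submodule.subset_span ⟨i, j, h, hij, rfl⟩)

end types

end Pool.Agent.R918.Ell

end
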