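import Pool.Agent.R918.Ell2

set_option autoImplicit false
set_option linter.unusedSectionVars false
set_option linter.unusedVariables false

/-!
# Rigid types: sums of spin representations; types in terms of matrices
-/

open Module TensorProduct

noncomputable section

namespace Pool.Agent.R918.Ell

open Pool.Agent.Y114.RM Pool.Agent.Y114.TF Pool.Agent.H204R3.GP Pool.Agent.R913.Adj Pool.Agent
open Pool.Agent.Y102.SP Pool.Agent.R918.Sp

theorem soE_eq {U : Type} [AddCommGroup U] [Module ℂ U] {r : ℕ} (E : Fin r → End ℂ U) :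
    soE E = soC E (fun _ => (0 : Fin 1)) := by
  unfold soE soC
  congr 1
  ext x
  constructor
  · rintro ⟨a, b, hab, rfl⟩
    exact ⟨a, b, hab, rfl, rfl⟩
  · rintro ⟨a, b, hab, -, rfl⟩
    exact ⟨a, b, hab, rfl⟩

theorem soE_br {U : Type} [AddCommGroup U] [Module ℂ U] {r : ℕ} {E : Fin r → End ℂ U}
    (hE : CE E) : ∀ x ∈ soE E, ∀ y ∈ soE E, x * y - y * x ∈ soE E := by
  rw [soE_eq]
  exact soC_br hE

variable {m : ℕ} {H : Type} [AddCommGroup H] [Module ℂ H] {U : Fin m → Type}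
  [∀ i, AddCommGroup (U i)] [∀ i, Module ℂ (U i)] {P : ∀ i, H →ₗ[ℂ] U i} {Q : ∀ i, U i →ₗ[ℂ] H}
  {r : Fin m → ℕ} {E : ∀ i, Fin (r i) → Module.End ℂ (U i)}

theorem soB_of (D : Dec P Q) {x : Module.End ℂ H} (hx : Sp.Diag P Q x)
    (h : ∀ i, pb P Q i x ∈ soE (E i)) : x ∈ soB P Q E := by
  rw [← sum_ib D hx]
  exact Submodule.sum_mem _ fun i _ => ib_mem_soB i (h i)

theorem soB_br (D : Dec P Q) (hE : ∀ i, CE (E i)) :
    ∀ x ∈ soB P Q E, ∀ y ∈ soB P Q E, x * y - y * x ∈ soB P Q E := by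
  intro x hx y hy
  obtain ⟨hx1, hx2⟩ := soB_prop D hx
  obtain ⟨hy1, hy2⟩ := soB_prop D hy
  have a1 := diag_mul D hx1 hy1
  have a2 := diag_mul D hy1 hx1
  refine soB_of D ?_ fun i => ?_
  · have h1 := diag_add D a1.1 (diag_smul D (-1) a2.1)
    have h2 : x * y - y * x = x * y + (-1 : ℂ) • (y * x) := by
      rw [neg_one_smul, sub_eq_add_neg]
    rw [h2]
    exact h1
  · rw [map_sub, a1.2 i, a2.2 i]
    exact soE_br (hE i) _ (hx2 i) _ (hy2 i)

/-- sums of spin representations -/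
theorem rig_sum [FiniteDimensional ℂ H] [∀ i, FiniteDimensional ℂ (U i)] [∀ i, Nontrivial (U i)]
    (D : Dec P Q) (hE : ∀ i, CE (E i))
    (hr : ∀ i, 6 ≤ r i) (h8 : ∀ i j, i ≠ j → r i = 8 → r j ≠ 8) : Rig (soB P Q E) where
  br := soB_br D hE
  all 𝔥 hle hbr hadj := by
    have h : SpHyp P Q E 𝔥 :=
      { dec := D
        ce := hE
        le := hle
        br := hbr
        gen := fun i a b hab => hadj _ (Submodule.subset_span ⟨i, a, b, hab, rfl⟩) }
    exact h.all hr h8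

section quant

variable {H U : Type} [AddCommGroup H] [Module ℂ H] [AddCommGroup U] [Module ℂ U] {k n : ℕ}

/-- The second quantization of `x`, for the colour `σ`. -/
def quant (a b : Fin k → Fin n → End ℂ U) (σ : Fin k) (x : Matrix (Fin n) (Fin n) ℂ) : End ℂ U :=
  ∑ i, ∑ j, x i j • (a σ i * b σ j)

/-- operators -/
def opp (a : Fin k → Fin n → End ℂ U) (p : Fin k × Fin n) : End ℂ U := a p.1 p.2

variable {a b : Fin k → Fin n → End ℂ U}

theorem rho_blk {M : Matrix (Fin k × Fin n) (Fin k × Fin n) ℂ} (hM : IsBD M) :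
    rho (opp a) (opp b) M = ∑ σ, quant a b σ (blk M σ) := by
  have h1 : rho (opp a) (opp b) M = ∑ p, ∑ q, M p q • (opp a p * opp b q) := rfl
  rw [h1, Fintype.sum_prod_type]
  refine Finset.sum_congr rfl fun σ _ => ?_
  unfold quant
  refine Finset.sum_congr rfl fun i _ => ?_
  rw [Fintype.sum_prod_type, Finset.sum_eq_single σ]
  · rfl
  · intro τ _ hτ
    refine Finset.sum_eq_zero fun j _ => ?_
    rw [hM _ _ (Ne.symm hτ), zero_smul]
  · intro h; exact absurd (Finset.mem_univ _) h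

theorem quant_zero (σ : Fin k) : quant a b σ 0 = 0 := by
  unfold quant
  refine Finset.sum_eq_zero fun i _ => Finset.sum_eq_zero fun j _ => ?_
  rw [Matrix.zero_apply, zero_smul]

theorem rho_emb (σ : Fin k) (x : Matrix (Fin n) (Fin n) ℂ) :
    rho (opp a) (opp b) (emb σ x) = quant a b σ x := by
  rw [rho_blk (isBD_emb σ x), Finset.sum_eq_single σ]
  · rw [blk_emb, if_pos rfl]
  · intro τ _ hτ
    rw [blk_emb, if_neg hτ, quant_zero]
  · intro h; exact absurd (Finset.mem_univ _) h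

theorem nn_quant (σ : Fin k) : nn (opp a) (opp b) σ = quant a b σ 1 := by
  unfold nn quant
  refine Finset.sum_congr rfl fun i _ => ?_
  rw [Finset.sum_eq_single i]
  · rw [Matrix.one_apply_eq, one_smul]
    rfl
  · intro j _ hj
    rw [Matrix.one_apply_ne (Ne.symm hj), zero_smul]
  · intro h; exact absurd (Finset.mem_univ _) h

variable {P : U →ₗ[ℂ] H} {Q : H →ₗ[ℂ] U}

theorem midSet_of {m : ℕ} (hm : 2 * m = n) (hPQ : ∀ x, P (Q x) = x)
    (hQ : ∀ v, (∃ w, v = Q w) ↔ ∀ σ, quant a b σ 1 v = (m : ℂ) • v) :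
    MidSet (opp a) (opp b) P Q where
  pq := hPQ
  mid x τ := by
    have h1 := (hQ (Q x)).1 ⟨x, rfl⟩ τ
    rw [nn_quant, h1, smul_smul, ← hm]
    push_cast
    rfl
  qp u hu := by
    have h1 : ∀ σ, quant a b σ 1 u = (m : ℂ) • u := by
      intro σ
      have h2 := hu σ
      rw [nn_quant] at h2
      have h3 : (2 : ℂ) • quant a b σ 1 u = (2 : ℂ) • ((m : ℂ) • u) := by
        refine h2.trans ?_
        rw [smul_smul, ← hm]
        push_cast
        rfl
      exact smul_right_injective _ (two_ne_zero (α := ℂ)) h3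
    obtain ⟨w, rfl⟩ := (hQ u).2 h1
    rw [hPQ]

theorem car_opp
    (haa : ∀ σ i τ j, a σ i * a τ j = -(a τ j * a σ i))
    (hbb : ∀ σ i τ j, b σ i * b τ j = -(b τ j * b σ i))
    (hab : ∀ σ i τ j, a σ i * b τ j + b τ j * a σ i = if σ = τ ∧ i = j then 1 else 0) :
    Car (opp a) (opp b) where
  aa p q := haa _ _ _ _
  bb p q := hbb _ _ _ _
  ab p q := by
    unfold opp
    rw [hab]
    by_cases hpq : p = q
    · rw [if_pos hpq, if_pos ⟨congrArg Prod.fst hpq, congrArg Prod.snd hpq⟩]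
    · rw [if_neg hpq, if_neg (fun h => hpq (Prod.ext h.1 h.2))]

theorem slC_eq : Submodule.span ℂ {Y | ∃ σ x, Matrix.trace x = 0 ∧
    Y = P ∘ₗ quant a b σ x ∘ₗ Q} = slC (opp a) (opp b) P Q := by
  refine le_antisymm ?_ ?_
  · rw [Submodule.span_le]
    rintro _ ⟨σ, x, hx, rfl⟩
    refine ⟨emb σ x, isBD_emb σ x, fun τ => ?_, ?_⟩
    · rw [btr_blk, blk_emb]
      by_cases h : τ = σ
      · rw [if_pos h, hx]
      · rw [if_neg h, Matrix.trace_zero]
    · rw [rho_emb]
      rfl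
  · rintro _ ⟨M, hM, htr, rfl⟩
    rw [rho_blk hM, map_sum]
    exact Submodule.sum_mem _ fun σ _ =>
      Submodule.subset_span ⟨σ, blk M σ, by rw [← btr_blk, htr], rfl⟩

end quant

end Pool.Agent.R918.Ell

end
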