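import Pool.Agent.R918.Alg

set_option autoImplicit false
set_option linter.unusedSectionVars false
set_option linter.unusedVariables false

/-!
# The Lie algebra of the traceless parts is semisimple
-/

open Module

namespace Pool.Agent.R918

open Pool.Agent.Y102.SP (Root AbsRoot usp kil_eig exists_absRoot)

attribute [local instance 100] LieRing.ofAssociativeRing

variable {k n : ℕ}

/-- The Lie algebra as a Lie algebra of endomorphisms. -/
noncomputable def LV (L : Submodule ℂ (Matrix (Fin k × Fin n) (Fin k × Fin n) ℂ))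
    (hbr : ∀ x ∈ L, ∀ y ∈ L, x * y - y * x ∈ L) :
    LieSubalgebra ℂ (Module.End ℂ (Fin k × Fin n → ℂ)) where
  carrier := {x | LinearMap.toMatrix' x ∈ L}
  zero_mem' := by
    change LinearMap.toMatrix' 0 ∈ L
    rw [map_zero]; exact L.zero_mem
  add_mem' := fun {x y} hx hy => by
    change LinearMap.toMatrix' (x + y) ∈ L
    rw [map_add]; exact L.add_mem hx hy
  smul_mem' := fun c x hx => by
    change LinearMap.toMatrix' (c • x) ∈ L
    rw [map_smul]; exact L.smul_mem c hx
  lie_mem' := fun {x y} hx hy => by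
    change LinearMap.toMatrix' (x * y - y * x) ∈ L
    rw [map_sub, LinearMap.toMatrix'_mul, LinearMap.toMatrix'_mul]
    exact hbr _ hx _ hy

theorem mem_LV {L : Submodule ℂ (Matrix (Fin k × Fin n) (Fin k × Fin n) ℂ)}
    {hbr : ∀ x ∈ L, ∀ y ∈ L, x * y - y * x ∈ L} {x : Module.End ℂ (Fin k × Fin n → ℂ)} :
    x ∈ LV L hbr ↔ LinearMap.toMatrix' x ∈ L := Iff.rfl

/-- the hypotheses on the Lie algebra of matrices -/
structure Good (L : Submodule ℂ (Matrix (Fin k × Fin n) (Fin k × Fin n) ℂ)) : Prop where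
  pos : 0 < n
  bd : ∀ x ∈ L, IsBD x
  tr : ∀ x ∈ L, ∀ σ, btr σ x = 0
  br : ∀ x ∈ L, ∀ y ∈ L, x * y - y * x ∈ L
  irr : ∀ (σ : Fin k) (P : Submodule ℂ (Fin k × Fin n → ℂ)),
    (∀ w ∈ P, ∀ p, p.1 ≠ σ → w p = 0) → (∀ x ∈ L, ∀ w ∈ P, x.mulVec w ∈ P) → P ≠ ⊥ →
    ∀ i : Fin n, Pi.single (σ, i) 1 ∈ P

namespace Good

variable {L : Submodule ℂ (Matrix (Fin k × Fin n) (Fin k × Fin n) ℂ)} (h : Good L)
include h

theorem lv_apply {x : Module.End ℂ (Fin k × Fin n → ℂ)} (w : Fin k × Fin n → ℂ) :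
    x w = (LinearMap.toMatrix' x).mulVec w := (LinearMap.toMatrix'_mulVec x w).symm

theorem block {x : Module.End ℂ (Fin k × Fin n → ℂ)} (hx : x ∈ LV L h.br) {σ : Fin k}
    {w : Fin k × Fin n → ℂ} (hw : ∀ p, p.1 ≠ σ → w p = 0) : ∀ p, p.1 ≠ σ → x w p = 0 := by
  intro p hp
  rw [h.lv_apply, Matrix.mulVec, dotProduct]
  refine Finset.sum_eq_zero fun q _ => ?_
  by_cases hq : q.1 = σ
  · rw [h.bd _ hx p q (by rw [hq]; exact hp), zero_mul]
  · rw [hw q hq, mul_zero]

/-- the block as a Lie submodule -/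
noncomputable def NN (σ : Fin k) : LieSubmodule ℂ (LV L h.br) (Fin k × Fin n → ℂ) where
  carrier := {w : Fin k × Fin n → ℂ | ∀ p : Fin k × Fin n, p.1 ≠ σ → w p = 0}
  zero_mem' := fun _ _ => rfl
  add_mem' := fun {v w} hv hw p hp => by rw [Pi.add_apply, hv p hp, hw p hp, add_zero]
  smul_mem' := fun c w hw p hp => by rw [Pi.smul_apply, hw p hp, smul_zero]
  lie_mem := fun {x w} hw => by exact h.block (σ := σ) x.2 (w := w) hw

theorem single_mem (σ : Fin k) (i : Fin n) : (Pi.single (σ, i) 1 : Fin k × Fin n → ℂ) ∈ h.NN σ := by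
  intro p hp
  exact Pi.single_eq_of_ne (fun h1 => hp (by rw [h1])) 1

open LieAlgebra LieModule in
theorem killing : LieAlgebra.IsKilling ℂ (LV L h.br) := by
  have key : ∀ y ∈ radical ℂ (LV L h.br), ∀ σ i,
      y.1 (Pi.single (σ, i) 1 : Fin k × Fin n → ℂ) = 0 := by
    intro y hy σ
    have hnt : Nontrivial (h.NN σ) := by
      refine nontrivial_of_ne (⟨Pi.single (σ, ⟨0, h.pos⟩) 1, h.single_mem σ _⟩ : h.NN σ) 0 ?_
      intro h1
      have h2 := congrFun (congrArg Subtype.val h1) (σ, ⟨0, h.pos⟩)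
      simp at h2
    obtain ⟨χ, hχ⟩ := exists_nontrivial_weightSpace_of_isSolvable ℂ (radical ℂ (LV L h.br)) (h.NN σ)
    let P' : LieSubmodule ℂ (LV L h.br) (h.NN σ) := weightSpaceOfIsLieTower ℂ (h.NN σ) χ
    have hP' : ∀ v : h.NN σ, v ∈ P' ↔ ∀ y : radical ℂ (LV L h.br), ⁅y, v⁆ = χ y • v := fun v =>
      mem_weightSpace _ v
    let P : Submodule ℂ (Fin k × Fin n → ℂ) :=
      P'.toSubmodule.map ((h.NN σ).incl : h.NN σ →ₗ[ℂ] (Fin k × Fin n → ℂ))
    have hPσ : ∀ w ∈ P, ∀ p, p.1 ≠ σ → w p = 0 := by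
      rintro _ ⟨v, _, rfl⟩
      exact v.2
    have hPL : ∀ x ∈ L, ∀ w ∈ P, x.mulVec w ∈ P := by
      rintro x hx _ ⟨v, hv, rfl⟩
      have hx' : Matrix.toLin' x ∈ LV L h.br := by
        rw [mem_LV, LinearMap.toMatrix'_toLin']
        exact hx
      exact ⟨⁅(⟨Matrix.toLin' x, hx'⟩ : LV L h.br), v⁆, P'.lie_mem hv, rfl⟩
    have hPχ : ∀ y (hy : y ∈ radical ℂ (LV L h.br)), ∀ u ∈ P, y.1 u = χ ⟨y, hy⟩ • u := by
      rintro y hy _ ⟨v, hv, rfl⟩
      have h1 := (hP' v).1 hv ⟨y, hy⟩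
      exact congrArg Subtype.val h1
    have hP0 : P ≠ ⊥ := by
      obtain ⟨v, hv⟩ := exists_ne (0 : weightSpace (h.NN σ) χ)
      intro h0
      have h1 : v.1.1 ∈ P := ⟨v.1, v.2, rfl⟩
      rw [h0, Submodule.mem_bot] at h1
      exact hv (Subtype.ext (Subtype.ext h1))
    have hone := h.irr σ P hPσ hPL hP0
    have hs : ∀ i, y.1 (Pi.single (σ, i) 1 : Fin k × Fin n → ℂ) =
        χ ⟨y, hy⟩ • (Pi.single (σ, i) 1 : Fin k × Fin n → ℂ) := fun i =>
      hPχ y hy _ (hone i)
    have ht := h.tr _ y.2 σ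
    have hchi : χ ⟨y, hy⟩ = 0 := by
      have h1 : btr σ (LinearMap.toMatrix' y.1) = ∑ i : Fin n, χ ⟨y, hy⟩ := by
        rw [btr_eq]
        unfold pj Matrix.trace
        rw [Fintype.sum_prod_type, Finset.sum_eq_single σ]
        · refine Finset.sum_congr rfl fun i _ => ?_
          rw [Matrix.diag_apply, Matrix.diagonal_mul, if_pos rfl, one_mul,
            LinearMap.toMatrix'_apply]
          have h2 : (fun j => if j = (σ, i) then (1 : ℂ) else 0) =
              (Pi.single (σ, i) 1 : Fin k × Fin n → ℂ) := by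
            ext j
            rw [Pi.single_apply]
          first
          | rw [h2, hs i, Pi.smul_apply, Pi.single_eq_same, smul_eq_mul, mul_one]
          | rw [hs i, Pi.smul_apply, Pi.single_eq_same, smul_eq_mul, mul_one]
        · intro τ _ hτ
          refine Finset.sum_eq_zero fun i _ => ?_
          rw [Matrix.diag_apply, Matrix.diagonal_mul, if_neg hτ, zero_mul]
        · intro h; exact absurd (Finset.mem_univ _) h
      rw [ht, Finset.sum_const, Finset.card_univ, Fintype.card_fin, nsmul_eq_mul] at h1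
      have hn : (n : ℂ) ≠ 0 := by exact_mod_cast h.pos.ne'
      exact (mul_eq_zero.1 h1.symm).resolve_left hn
    intro i
    rw [hs i, hchi, zero_smul]
  have : HasTrivialRadical ℂ (LV L h.br) := by
    constructor
    rw [eq_bot_iff]
    intro y hy
    have h1 : y.1 = 0 := by
      refine (Pi.basisFun ℂ (Fin k × Fin n)).ext fun p => ?_
      rw [Pi.basisFun_apply, LinearMap.zero_apply]
      exact key y hy p.1 p.2
    rw [LieSubmodule.mem_bot]
    exact Subtype.ext h1
  infer_instance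

/-- extension by zero of a vector of a block -/
noncomputable def ext' (k n : ℕ) (σ : Fin k) : (Fin n → ℂ) →ₗ[ℂ] (Fin k × Fin n → ℂ) where
  toFun w p := if p.1 = σ then w p.2 else 0
  map_add' v w := by
    ext p
    by_cases hp : p.1 = σ
    · simp [hp]
    · simp [hp]
  map_smul' c w := by
    ext p
    by_cases hp : p.1 = σ
    · simp [hp]
    · simp [hp]

omit h in
theorem ext'_apply (σ : Fin k) (w : Fin n → ℂ) (p : Fin k × Fin n) :
    ext' k n σ w p = if p.1 = σ then w p.2 else 0 := rfl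

omit h in
theorem ext'_single (σ : Fin k) (i : Fin n) :
    ext' k n σ (Pi.single i 1) = Pi.single (σ, i) 1 := by
  ext p
  rw [ext'_apply, Pi.single_apply, Pi.single_apply]
  by_cases hp : p.1 = σ
  · by_cases hi : p.2 = i
    · rw [if_pos hp, if_pos hi, if_pos (Prod.ext hp hi)]
    · rw [if_pos hp, if_neg hi, if_neg (fun h => hi (by rw [h]))]
  · rw [if_neg hp, if_neg (fun h => hp (by rw [h]))]

/-- There are bases of the blocks consisting of weight vectors. -/
theorem exists_basis {T : Type} [AddCommGroup T] [Module ℂ T] (A : AbsRoot (LV L h.br) T)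
    (σ : Fin k) : ∃ (B : Basis (Fin n) ℂ (Fin n → ℂ)) (χ : Fin n → Module.Dual ℂ T),
      ∀ i t, (A.ι t).1 (ext' k n σ (B i)) = χ i t • ext' k n σ (B i) := by
  classical
  let ι : T →ₗ[ℂ] Module.End ℂ (Fin k × Fin n → ℂ) := (LV L h.br).toSubmodule.subtype ∘ₗ A.ι
  have hι : ∀ t, ι t = (A.ι t).1 := fun t => rfl
  have comm : ∀ s t, ι s * ι t = ι t * ι s := by
    intro s t
    have h1 := congrArg Subtype.val (A.comm s t)
    have h2 : (⁅A.ι s, A.ι t⁆ : LV L h.br).1 = (A.ι s).1 * (A.ι t).1 - (A.ι t).1 * (A.ι s).1 := rfl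
    rw [h2] at h1
    exact sub_eq_zero.1 h1
  let Q : Submodule ℂ (Fin k × Fin n → ℂ) := ⨆ χ, (usp ι χ ⊓ (h.NN σ).toSubmodule)
  have hQle : ∀ χ w, w ∈ usp ι χ → w ∈ h.NN σ → w ∈ Q := fun χ w h1 h2 =>
    Submodule.mem_iSup_of_mem χ ⟨h1, h2⟩
  have hQσ : ∀ w ∈ Q, ∀ p, p.1 ≠ σ → w p = 0 := by
    have h1 : Q ≤ (h.NN σ).toSubmodule := iSup_le fun χ => inf_le_right
    exact fun w hw => h1 hw
  have hQ0 : Q ≠ ⊥ := by
    have hne : (h.NN σ).toSubmodule ≠ ⊥ := by
      intro h0
      have h1 : (Pi.single (σ, ⟨0, h.pos⟩) 1 : Fin k × Fin n → ℂ) ∈ (h.NN σ).toSubmodule :=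
        h.single_mem σ _
      rw [h0, Submodule.mem_bot] at h1
      have h2 := congrFun h1 (σ, ⟨0, h.pos⟩)
      simp at h2
    obtain ⟨χ, u, hu, hu0, hu1⟩ := kil_eig ι comm _ (h.NN σ).toSubmodule le_rfl hne
      fun t u hu => h.block (A.ι t).2 hu
    intro h0
    have h1 := hQle χ u hu1 hu
    rw [h0, Submodule.mem_bot] at h1
    exact hu0 h1
  have hQι : ∀ t, ∀ u ∈ Q, ι t u ∈ Q := by
    intro t u hu
    induction hu using Submodule.iSup_induction' with
    | mem χ u hu =>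
      rw [hu.1 t]
      exact Submodule.smul_mem _ _ (hQle χ u hu.1 hu.2)
    | zero => rw [map_zero]; exact Submodule.zero_mem _
    | add u v _ _ hu hv => rw [map_add]; exact Submodule.add_mem _ hu hv
  have hQe : ∀ α ∈ A.R.Φ, ∀ u ∈ Q, (A.e α).1 u ∈ Q := by
    intro α hα u hu
    induction hu using Submodule.iSup_induction' with
    | mem χ u hu =>
      refine hQle (χ + α) _ (fun t => ?_) (h.block (A.e α).2 hu.2)
      have h0 := congrArg Subtype.val (A.wt α hα t)
      have h2 : (⁅A.ι t, A.e α⁆ : LV L h.br).1 = (A.ι t).1 * (A.e α).1 - (A.e α).1 * (A.ι t).1 := rfl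
      rw [h2] at h0
      have h1 := LinearMap.congr_fun h0 u
      have h3 : (α t • A.e α).1 = α t • (A.e α).1 := rfl
      have h4 : (A.ι t).1 u = χ t • u := hu.1 t
      rw [h3, LinearMap.sub_apply, Module.End.mul_apply, Module.End.mul_apply, h4, map_smul,
        LinearMap.smul_apply, sub_eq_iff_eq_add] at h1
      rw [hι, h1, LinearMap.add_apply, add_smul, add_comm]
    | zero => rw [map_zero]; exact Submodule.zero_mem _
    | add u v _ _ hu hv => rw [map_add]; exact Submodule.add_mem _ hu hv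
  have hQL : ∀ x ∈ L, ∀ w ∈ Q, x.mulVec w ∈ Q := by
    intro x hx w hw
    have hx' : Matrix.toLin' x ∈ LV L h.br := by
      rw [mem_LV, LinearMap.toMatrix'_toLin']
      exact hx
    have h1 : (⟨Matrix.toLin' x, hx'⟩ : LV L h.br) ∈
        LinearMap.range A.ι ⊔ Submodule.span ℂ (A.e '' A.R.Φ) := A.span trivial
    obtain ⟨y, ⟨t, rfl⟩, z, hz, h2⟩ := Submodule.mem_sup.1 h1
    have h3 : x.mulVec w = (A.ι t).1 w + z.1 w := by
      have h4 := congrArg (fun f : LV L h.br => f.1 w) h2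
      exact h4.symm
    rw [h3]
    refine Submodule.add_mem _ (hQι t w hw) ?_
    clear h3 h2 h1
    induction hz using Submodule.span_induction with
    | mem z hz =>
      obtain ⟨α, hα, rfl⟩ := hz
      exact hQe α hα w hw
    | zero => exact Submodule.zero_mem _
    | add y z _ _ hy hz => exact Submodule.add_mem _ hy hz
    | smul c z _ hz => exact Submodule.smul_mem _ c hz
  have hone := h.irr σ Q hQσ hQL hQ0
  -- the spanning set
  let s : Set (Fin n → ℂ) := {w | ∃ χ, ext' k n σ w ∈ usp ι χ}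
  have hres : ∀ v ∈ h.NN σ, ext' k n σ (fun i => v (σ, i)) = v := by
    intro v hv
    ext p
    rw [ext'_apply]
    by_cases hp : p.1 = σ
    · rw [if_pos hp]
      have : (σ, p.2) = p := Prod.ext hp.symm rfl
      rw [this]
    · rw [if_neg hp, hv p hp]
  have hQs : Q ≤ (Submodule.span ℂ s).map (ext' k n σ) := by
    refine iSup_le fun χ v hv => ?_
    refine ⟨fun i => v (σ, i), Submodule.subset_span ⟨χ, ?_⟩, hres v hv.2⟩
    rw [hres v hv.2]
    exact hv.1
  have hinj : Function.Injective (ext' k n σ) := by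
    intro v w hvw
    ext i
    have h1 := congrFun hvw (σ, i)
    rw [ext'_apply, ext'_apply, if_pos rfl, if_pos rfl] at h1
    exact h1
  have hs : ⊤ ≤ Submodule.span ℂ s := by
    intro w _
    have hw : w = ∑ i, w i • Pi.single i (1 : ℂ) := by
      ext j
      simp [Finset.sum_apply, Pi.single_apply]
    rw [hw]
    refine Submodule.sum_mem _ fun i _ => Submodule.smul_mem _ _ ?_
    obtain ⟨w', hw', h1⟩ := hQs (hone i)
    have h2 : w' = Pi.single i 1 := hinj (by rw [h1, ext'_single])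
    rw [← h2]
    exact hw'
  let b := Basis.ofSpan hs
  have hb : ∀ i, ∃ χ, ext' k n σ (b i) ∈ usp ι χ := fun i => Basis.ofSpan_subset hs ⟨i, rfl⟩
  have hfin : Finite ((linearIndepOn_empty ℂ (id : (Fin n → ℂ) → (Fin n → ℂ))).extend
    (Set.empty_subset s)) := Module.Finite.finite_basis b
  have hft := Fintype.ofFinite ((linearIndepOn_empty ℂ (id : (Fin n → ℂ) → (Fin n → ℂ))).extend
    (Set.empty_subset s))
  have hcard : Fintype.card ((linearIndepOn_empty ℂ (id : (Fin n → ℂ) → (Fin n → ℂ))).extend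
      (Set.empty_subset s)) = n := by
    rw [← Module.finrank_eq_card_basis b, Module.finrank_fin_fun]
  let eq := Fintype.equivFinOfCardEq hcard
  choose χ hχ using hb
  refine ⟨b.reindex eq, fun i => χ (eq.symm i), fun i t => ?_⟩
  rw [Basis.reindex_apply]
  exact hχ (eq.symm i) t

end Good

end Pool.Agent.R918
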