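import Pool.Agent.R918.KsDefs
import Pool.Agent.R914.K3P.KS

set_option autoImplicit false
set_option linter.unusedSectionVars false

/-!
# Mixed systems: products and traces
-/

open Finset Function

universe u

namespace Pool.Agent.R918.KS

open Pool.Agent.R914.K3P

variable {K : Type u} [Field K] {B ι M : Type} [Fintype B] [DecidableEq B] [Fintype M]
  [DecidableEq M] {κ : B → ι} {L : B → Matrix M M K} {𝒜 : MixedSystem K B M}

theorem sum_empty_fun {X : Type} [Fintype X] {Y : Type*} [AddCommMonoid Y] (f : (Empty → X) → Y) :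
    ∑ R : Empty → X, f R = f Empty.elim := by
  rw [Fintype.sum_eq_single Empty.elim]
  intro R hR
  exact absurd (funext fun x => x.elim) hR

theorem sum_unit_fun {X : Type} [Fintype X] {Y : Type*} [AddCommMonoid Y] (f : (Unit → X) → Y) :
    ∑ R : Unit → X, f R = ∑ x, f fun _ => x :=
  Fintype.sum_equiv (Equiv.funUnique Unit X) _ _ fun R => by
    congr 1

/-- renaming, with an equation -/
theorem ren {S S' U U' : Type} [Finite S] [Finite S'] [Finite U] [Finite U'] (e : S ≃ S')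
    (f : U ≃ U') {t : MixedForm K B M S U} (ht : t ∈ 𝒜.A S U) {t' : MixedForm K B M S' U'}
    (h : ∀ J Q, t' J Q = t (J ∘ e) (Q ∘ f)) : t' ∈ 𝒜.A S' U' := by
  have h1 := 𝒜.rename e f t ht
  convert h1 using 1
  funext J Q
  exact h J Q

/-- composition, with an equation -/
theorem cmp {S C S' U D U' : Type} [Finite S] [Fintype C] [DecidableEq C] [Finite S'] [Finite U]
    [Fintype D] [DecidableEq D] [Finite U'] {t : MixedForm K B M (S ⊕ C) (U ⊕ D)}
    {s : MixedForm K B M (C ⊕ S') (D ⊕ U')} (ht : t ∈ 𝒜.A (S ⊕ C) (U ⊕ D))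
    (hs : s ∈ 𝒜.A (C ⊕ S') (D ⊕ U')) {r : MixedForm K B M (S ⊕ S') (U ⊕ U')}
    (h : ∀ J Q, r J Q = ∑ I : C → B, ∑ R : D → M × M,
      t (Sum.elim (J ∘ Sum.inl) I) (Sum.elim (Q ∘ Sum.inl) R) *
      s (Sum.elim I (J ∘ Sum.inr)) (Sum.elim (Prod.swap ∘ R) (Q ∘ Sum.inr))) :
    r ∈ 𝒜.A (S ⊕ S') (U ⊕ U') := by
  have h1 := 𝒜.comp t s ht hs
  convert h1 using 1
  funext J Q
  exact h J Q

theorem mem_congr {S U : Type} {t t' : MixedForm K B M S U} (ht : t ∈ 𝒜.A S U) (h : t' = t) :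
    t' ∈ 𝒜.A S U := by rw [h]; exact ht

/-- **Products.** -/
theorem mul_mem {S S' : Type} [Finite S] [Finite S'] {F : (S → B) → Matrix M M K}
    {F' : (S' → B) → Matrix M M K} (hF : matrixForm F ∈ 𝒜.A S Unit)
    (hF' : matrixForm F' ∈ 𝒜.A S' Unit) :
    matrixForm (fun J : S ⊕ S' → B => F (J ∘ Sum.inl) * F' (J ∘ Sum.inr)) ∈
      𝒜.A (S ⊕ S') Unit := by
  -- first factor
  have a1 : (fun J Q => matrixForm F (J ∘ Sum.inl) (Q ∘ Sum.inr) :
      MixedForm K B M (S ⊕ Empty) (Empty ⊕ Unit)) ∈ 𝒜.A (S ⊕ Empty) (Empty ⊕ Unit) :=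
    ren (Equiv.sumEmpty S Empty).symm (Equiv.emptySum Empty Unit).symm hF fun J Q => rfl
  have a2 : (fun J Q => traceThree K B M (fun x => x.elim)
      ![Q (Sum.inl ()), Q (Sum.inr 0), Q (Sum.inr 1)] :
      MixedForm K B M (Empty ⊕ Empty) (Unit ⊕ Fin 2)) ∈ 𝒜.A (Empty ⊕ Empty) (Unit ⊕ Fin 2) := by
    refine ren (Equiv.sumEmpty Empty Empty).symm
      (⟨fun i => ![Sum.inl (), Sum.inr 0, Sum.inr 1] i, fun x => Sum.elim (fun _ => 0)
        (fun i => i.succ) x, fun i => by fin_cases i <;> rfl,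
        fun x => by rcases x with x | x
                    · rfl
                    · fin_cases x <;> rfl⟩ : Fin 3 ≃ Unit ⊕ Fin 2) 𝒜.trace fun J Q => ?_
    congr 1
    · funext x; exact x.elim
    · funext i; fin_cases i <;> rfl
  have a3 : (fun J Q => F (J ∘ Sum.inl) (Q (Sum.inr 1)).2 (Q (Sum.inr 0)).1 *
      (if (Q (Sum.inr 0)).2 = (Q (Sum.inr 1)).1 then 1 else 0) :
      MixedForm K B M (S ⊕ Empty) (Empty ⊕ Fin 2)) ∈ 𝒜.A (S ⊕ Empty) (Empty ⊕ Fin 2) := by
    refine cmp a1 a2 fun J Q => ?_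
    rw [sum_empty_fun, sum_unit_fun, Fintype.sum_eq_single
      ((Q (Sum.inr 0)).1, (Q (Sum.inr 1)).2)]
    · simp only [matrixForm, traceThree, comp_apply, Sum.elim_inr, Sum.elim_inl, Prod.swap,
        Matrix.cons_val_zero, Matrix.cons_val_one, Matrix.cons_val]
      simp
    · intro R hR
      simp only [matrixForm, traceThree, comp_apply, Sum.elim_inr, Sum.elim_inl, Prod.swap,
        Matrix.cons_val_zero, Matrix.cons_val_one, Matrix.cons_val]
      rw [if_neg, mul_zero]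
      rintro ⟨h1, -, h3⟩
      exact hR (Prod.ext h1 h3.symm)
  have b1 : (fun J Q => matrixForm F' (J ∘ Sum.inl) (Q ∘ Sum.inr) :
      MixedForm K B M (S' ⊕ Empty) (Empty ⊕ Unit)) ∈ 𝒜.A (S' ⊕ Empty) (Empty ⊕ Unit) :=
    ren (Equiv.sumEmpty S' Empty).symm (Equiv.emptySum Empty Unit).symm hF' fun J Q => rfl
  have b2 : (fun J Q => F (J ∘ Sum.inr) (Q (Sum.inr ())).2 (Q (Sum.inl ())).1 *
      (if (Q (Sum.inl ())).2 = (Q (Sum.inr ())).1 then 1 else 0) :
      MixedForm K B M (Empty ⊕ S) (Unit ⊕ Unit)) ∈ 𝒜.A (Empty ⊕ S) (Unit ⊕ Unit) :=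
    ren ((Equiv.sumEmpty S Empty).trans (Equiv.emptySum Empty S).symm)
      (⟨fun x => Sum.elim (fun e => e.elim) (fun i => if i = 0 then Sum.inl () else Sum.inr ()) x,
        fun x => Sum.elim (fun _ => Sum.inr 0) (fun _ => Sum.inr 1) x,
        fun x => by rcases x with x | x
                    · exact x.elim
                    · fin_cases x <;> rfl, fun x => by rcases x with x | x <;> rfl⟩ :
        Empty ⊕ Fin 2 ≃ Unit ⊕ Unit) a3 fun J Q => rfl
  have b3 : (fun J Q => (F (J ∘ Sum.inr) * F' (J ∘ Sum.inl)) (Q (Sum.inr ())).2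
      (Q (Sum.inr ())).1 : MixedForm K B M (S' ⊕ S) (Empty ⊕ Unit)) ∈
      𝒜.A (S' ⊕ S) (Empty ⊕ Unit) := by
    refine cmp b1 b2 fun J Q => ?_
    rw [sum_empty_fun, sum_unit_fun, Fintype.sum_prod_type, Fintype.sum_eq_single
      (Q (Sum.inr ())).1]
    · rw [Matrix.mul_apply]
      refine Finset.sum_congr rfl fun x _ => ?_
      simp only [matrixForm, comp_apply, Sum.elim_inr, Sum.elim_inl, Prod.swap]
      simp [mul_comm, comp_def]
    · intro R hR
      refine Finset.sum_eq_zero fun x _ => ?_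
      simp only [matrixForm, comp_apply, Sum.elim_inr, Sum.elim_inl, Prod.swap]
      rw [if_neg hR, mul_zero, mul_zero]
  exact ren (Equiv.sumComm S' S) (Equiv.emptySum Empty Unit) b3 fun J Q => rfl

/-- **Traces.** -/
theorem trace_mem {S : Type} [Finite S] {F : (S → B) → Matrix M M K}
    (hF : matrixForm F ∈ 𝒜.A S Unit)
    (h1 : matrixForm (fun _ : Empty → B => (1 : Matrix M M K)) ∈ 𝒜.A Empty Unit) :
    (fun J _ => (F J).trace : MixedForm K B M S Empty) ∈ 𝒜.A S Empty := by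
  have a1 : (fun J Q => matrixForm F (J ∘ Sum.inl) (Q ∘ Sum.inr) :
      MixedForm K B M (S ⊕ Empty) (Empty ⊕ Unit)) ∈ 𝒜.A (S ⊕ Empty) (Empty ⊕ Unit) :=
    ren (Equiv.sumEmpty S Empty).symm (Equiv.emptySum Empty Unit).symm hF fun J Q => rfl
  have a2 : (fun J Q => matrixForm (fun _ : Empty → B => (1 : Matrix M M K)) (J ∘ Sum.inl)
      (Q ∘ Sum.inl) : MixedForm K B M (Empty ⊕ Empty) (Unit ⊕ Empty)) ∈
      𝒜.A (Empty ⊕ Empty) (Unit ⊕ Empty) :=
    ren (Equiv.sumEmpty Empty Empty).symm (Equiv.sumEmpty Unit Empty).symm h1 fun J Q => rfl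
  have a3 : (fun J Q => (F (J ∘ Sum.inl)).trace : MixedForm K B M (S ⊕ Empty) (Empty ⊕ Empty)) ∈
      𝒜.A (S ⊕ Empty) (Empty ⊕ Empty) := by
    refine cmp a1 a2 fun J Q => ?_
    rw [sum_empty_fun, sum_unit_fun, Fintype.sum_prod_type]
    simp only [matrixForm, comp_apply, Sum.elim_inr, Sum.elim_inl, Prod.swap, Matrix.one_apply]
    simp only [Matrix.trace, Matrix.diag]
    refine Finset.sum_congr rfl fun x _ => ?_
    simp [comp_def]
  exact ren (Equiv.sumEmpty S Empty) (Equiv.sumEmpty Empty Empty) a3 fun J Q => rfl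

/-- Words in the Kuga-Satake form. -/
theorem word_mem (hE : EndomorphismsAlgebraic κ L 𝒜)
    (hL : matrixForm (fun J : Unit → B => L (J ())) ∈ 𝒜.A Unit Unit) {Z : Matrix M M K}
    (hZ : IsEnd κ L Z) (m : ℕ) :
    matrixForm (fun J : Fin m → B => P L J * Z) ∈ 𝒜.A (Fin m) Unit := by
  induction m with
  | zero =>
    refine ren (Equiv.equivOfIsEmpty Empty (Fin 0)) (Equiv.refl Unit) (hE Z hZ) fun J Q => ?_
    simp only [matrixForm, P_zero, one_mul]
    rfl
  | succ m ih =>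
    refine ren (((Equiv.sumComm Unit (Fin m)).trans (Equiv.optionEquivSumPUnit (Fin m)).symm).trans
      (finSuccEquiv m).symm) (Equiv.refl Unit) (mul_mem hL ih) fun J Q => ?_
    simp only [matrixForm, P_succ, Matrix.mul_assoc]
    rfl

/-- forms without matrix variables as mixed forms -/
def incl (K : Type u) [Field K] (B M S : Type) : Form K B S →ₗ[K] MixedForm K B M S Empty where
  toFun t J _ := t J
  map_add' _ _ := rfl
  map_smul' _ _ := rfl

/-- The system of the forms without matrix variables. -/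
def vsys (𝒜 : MixedSystem K B M) : System K B where
  A S := (𝒜.A S Empty).comap (incl K B M S)
  const := 𝒜.const
  scalar := 𝒜.scalar
  rename {S S'} _ _ e t ht := ren e (Equiv.refl Empty) ht fun _ _ => rfl
  comp {S U S'} _ _ _ _ t s ht hs := by
    have a1 : (fun J Q => t J : MixedForm K B M (S ⊕ U) (Empty ⊕ Empty)) ∈
        𝒜.A (S ⊕ U) (Empty ⊕ Empty) :=
      ren (Equiv.refl _) (Equiv.sumEmpty Empty Empty).symm ht fun J Q => rfl
    have a2 : (fun J Q => s J : MixedForm K B M (U ⊕ S') (Empty ⊕ Empty)) ∈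
        𝒜.A (U ⊕ S') (Empty ⊕ Empty) :=
      ren (Equiv.refl _) (Equiv.sumEmpty Empty Empty).symm hs fun J Q => rfl
    refine ren (Equiv.refl _) (Equiv.sumEmpty Empty Empty) (cmp (r := fun J _ =>
      Pool.Agent.R914.K3P.comp t s J) a1 a2 fun J Q => ?_) fun J Q => rfl
    unfold Pool.Agent.R914.K3P.comp
    exact Finset.sum_congr rfl fun I _ => by rw [sum_empty_fun]

theorem mem_vsys {S : Type} {t : Form K B S} :
    t ∈ (vsys 𝒜).A S ↔ (fun J _ => t J : MixedForm K B M S Empty) ∈ 𝒜.A S Empty := Iff.rfl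

theorem isEnd_one : IsEnd κ L (1 : Matrix M M K) := fun u v _ _ => by rw [one_mul, mul_one]

theorem algebraic_vsys (hE : EndomorphismsAlgebraic κ L 𝒜)
    (hL : matrixForm (fun J : Unit → B => L (J ())) ∈ 𝒜.A Unit Unit) :
    IsAlgebraicKugaSatake κ (vsys 𝒜) L := fun Z hZ m => by
  rw [mem_vsys]
  exact trace_mem (word_mem hE hL hZ m) (hE 1 isEnd_one)

end Pool.Agent.R918.KS
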