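import Pool.Agent.R918.Ks9

set_option autoImplicit false
set_option linter.unusedSectionVars false

/-!
# An odd number of commuting involutions
-/

open Finset Function Kronecker

universe u

namespace Pool.Agent.R918.KS

open Pool.Agent.R914.K3P

/-- the polynomial with value `(-1) ^ k (n - 2 k)` at `(n - 2 k) ^ 2` -/
theorem exists_poly {K : Type u} [Field K] [CharZero K] {n : ℕ} (hn : Odd n) :
    ∃ p : Polynomial K, ∀ k : ℕ, k ≤ n →
      p.eval (((n : K) - 2 * k) ^ 2) * (-1) ^ k = (n : K) - 2 * k := by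
  classical
  let f : K → K := fun x => if h : ∃ k : ℕ, k ≤ n ∧ x = ((n : K) - 2 * k) ^ 2 then
    (-1) ^ h.choose * ((n : K) - 2 * h.choose) else 0
  refine ⟨Lagrange.interpolate ((Finset.range (n + 1)).image fun k : ℕ => ((n : K) - 2 * k) ^ 2)
    id f, fun k hk => ?_⟩
  have h1 : ((n : K) - 2 * k) ^ 2 ∈ (Finset.range (n + 1)).image fun k : ℕ =>
      ((n : K) - 2 * k) ^ 2 :=
    Finset.mem_image.2 ⟨k, Finset.mem_range.2 (Nat.lt_succ_of_le hk), rfl⟩
  have h2 := Lagrange.eval_interpolate_at_node (v := id) f (Function.injective_id.injOn) h1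
  rw [id] at h2
  rw [h2]
  have hex : ∃ l : ℕ, l ≤ n ∧ ((n : K) - 2 * k) ^ 2 = ((n : K) - 2 * l) ^ 2 := ⟨k, hk, rfl⟩
  have h3 : f (((n : K) - 2 * k) ^ 2) = (-1) ^ hex.choose * ((n : K) - 2 * hex.choose) :=
    dif_pos hex
  rw [h3]
  obtain ⟨hl, hl2⟩ := hex.choose_spec
  set l := hex.choose
  rcases sq_eq_sq_iff_eq_or_eq_neg.1 hl2 with h | h
  · have h4 : (k : K) = l := by linear_combination (-1 / 2 : K) * h
    have h5 : k = l := by exact_mod_cast h4
    rw [← h5]
    have h6 : ((-1 : K) ^ k) * (-1) ^ k = 1 := by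
      rw [← mul_pow, neg_one_mul, neg_neg, one_pow]
    linear_combination ((n : K) - 2 * k) * h6
  · have h4 : (k : K) + l = n := by linear_combination (-1 / 2 : K) * h
    have h5 : k + l = n := by exact_mod_cast h4
    have h6 : ((-1 : K) ^ l) * (-1) ^ k = -1 := by
      rw [← pow_add, add_comm, h5, hn.neg_one_pow]
    linear_combination ((n : K) - 2 * l) * h6 - h

theorem exists_m {K : Type u} [Field K] {B : Type} [DecidableEq B] {χ : B → K} (s : Finset B)
    (hχ : ∀ b ∈ s, χ b = 1 ∨ χ b = -1) : ∃ m : ℕ, m ≤ s.card ∧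
    ∑ b ∈ s, χ b = (s.card : K) - 2 * m ∧ ∏ b ∈ s, χ b = (-1) ^ m := by
  induction s using Finset.induction_on with
  | empty => exact ⟨0, le_refl _, by simp, by simp⟩
  | insert b s hb ih =>
    obtain ⟨m, h1, h2, h3⟩ := ih fun c hc => hχ c (Finset.mem_insert_of_mem hc)
    rw [Finset.sum_insert hb, Finset.prod_insert hb, Finset.card_insert_of_notMem hb]
    rcases hχ b (Finset.mem_insert_self b s) with h | h
    · refine ⟨m, by omega, ?_, ?_⟩
      · rw [h, h2]; push_cast; ring
      · rw [h, h3, one_mul]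
    · refine ⟨m + 1, by omega, ?_, ?_⟩
      · rw [h, h2]; push_cast; ring
      · rw [h, h3, pow_succ]; ring

section inv

variable {K : Type u} [Field K] {A : Type*} [Ring A] [Algebra K A] {B : Type} [DecidableEq B]

theorem span_inv [CharZero K] {k : B → A} (h1 : ∀ b, k b * k b = 1)
    (h2 : ∀ b c, k b * k c = k c * k b) (s : Finset B) : ∀ y : A,
    y ∈ Submodule.span K {z : A | ∀ b ∈ s, k b * z = z ∨ k b * z = -z} := by
  induction s using Finset.induction_on with
  | empty => intro X; exact Submodule.subset_span fun b hb => absurd hb (Finset.notMem_empty _)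
  | insert b s hb ih =>
    intro X
    refine (Submodule.span_le.2 ?_ : _ ≤ Submodule.span K {Y : A | ∀ c ∈ insert b s,
      k c * Y = Y ∨ k c * Y = -Y}) (ih X)
    intro Y hY
    have h2' : (2 : K) ≠ 0 := two_ne_zero
    have e : Y = (2 : K)⁻¹ • (Y + k b * Y) + (2 : K)⁻¹ • (Y - k b * Y) := by
      rw [← smul_add]
      have : Y + k b * Y + (Y - k b * Y) = (2 : K) • Y := by rw [two_smul]; abel
      rw [this, smul_smul, inv_mul_cancel₀ h2', one_smul]
    have key : ∀ ε : K, (ε = 1 ∨ ε = -1) → Y + ε • (k b * Y) ∈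
        {Y : A | ∀ c ∈ insert b s, k c * Y = Y ∨ k c * Y = -Y} := by
      intro ε hε c hc
      have hexp : k c * (Y + ε • (k b * Y)) = k c * Y + ε • (k b * (k c * Y)) := by
        rw [mul_add, mul_smul_comm, ← mul_assoc, h2 c b, mul_assoc]
      rcases Finset.mem_insert.1 hc with rfl | hcs
      · rw [hexp]
        rw [← mul_assoc (k c) (k c), h1, one_mul]
        rcases hε with rfl | rfl
        · left; rw [one_smul, one_smul, add_comm]
        · right; rw [neg_one_smul, neg_one_smul]; abel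
      · rw [hexp]
        rcases hY c hcs with h | h
        · left; rw [h]
        · right; rw [h, mul_neg, smul_neg]; abel
    rw [e]
    refine Submodule.add_mem _ (Submodule.smul_mem _ _ (Submodule.subset_span ?_))
      (Submodule.smul_mem _ _ (Submodule.subset_span ?_))
    · have := key 1 (Or.inl rfl)
      rwa [one_smul] at this
    · have := key (-1) (Or.inr rfl)
      rwa [neg_one_smul, ← sub_eq_add_neg] at this

theorem aeval_mul {x z : A} {c : K} (h : x * z = c • z) (p : Polynomial K) :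
    Polynomial.aeval x p * z = p.eval c • z := by
  have hk : ∀ k : ℕ, x ^ k * z = c ^ k • z := by
    intro k
    induction k with
    | zero => simp
    | succ k ih => rw [pow_succ, mul_assoc, h, mul_smul_comm, ih, smul_smul, pow_succ, mul_comm]
  rw [Polynomial.aeval_eq_sum_range, Polynomial.eval_eq_sum_range, Finset.sum_mul,
    Finset.sum_smul]
  refine Finset.sum_congr rfl fun k _ => ?_
  rw [smul_mul_assoc, hk, smul_smul]

/-- **The sum of an odd number of commuting involutions is a polynomial in its square, times the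
product of the involutions.** -/
theorem sum_inv_eq [CharZero K] {k : B → A} (h1 : ∀ b, k b * k b = 1)
    (h2 : ∀ b c, k b * k c = k c * k b) {s : Finset B} (hs : Odd s.card) {W : A}
    (hW : ∀ (χ : B → K) (z : A), (∀ b ∈ s, χ b = 1 ∨ χ b = -1) → (∀ b ∈ s, k b * z = χ b • z) →
      W * z = (∏ b ∈ s, χ b) • z) :
    ∃ p : Polynomial K, ∑ b ∈ s, k b = Polynomial.aeval ((∑ b ∈ s, k b) * ∑ b ∈ s, k b) p * W := by
  obtain ⟨p, hp⟩ := exists_poly (K := K) hs
  refine ⟨p, ?_⟩
  have key : ∀ y : A, (∑ b ∈ s, k b) * y =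
      Polynomial.aeval ((∑ b ∈ s, k b) * ∑ b ∈ s, k b) p * W * y := by
    intro y
    refine Submodule.span_induction (p := fun y _ => (∑ b ∈ s, k b) * y =
      Polynomial.aeval ((∑ b ∈ s, k b) * ∑ b ∈ s, k b) p * W * y) ?_ ?_ ?_ ?_ (span_inv (K := K) h1 h2 s y)
    · intro z hz
      classical
      let χ : B → K := fun b => if k b * z = z then 1 else -1
      have hχ : ∀ b ∈ s, χ b = 1 ∨ χ b = -1 := by
        intro b _
        by_cases h : k b * z = z
        · left; exact if_pos h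
        · right; exact if_neg h
      have hz' : ∀ b ∈ s, k b * z = χ b • z := by
        intro b hb
        by_cases h : k b * z = z
        · have h3 : χ b = 1 := if_pos h
          rw [h3, one_smul, h]
        · have h3 : χ b = -1 := if_neg h
          rw [h3, neg_one_smul]
          exact (hz b hb).resolve_left h
      obtain ⟨m, hm, e1, e2⟩ := exists_m s hχ
      have f1 : (∑ b ∈ s, k b) * z = ((s.card : K) - 2 * m) • z := by
        rw [Finset.sum_mul, Finset.sum_congr rfl hz', ← Finset.sum_smul, e1]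
      have f2 : ((∑ b ∈ s, k b) * ∑ b ∈ s, k b) * z = (((s.card : K) - 2 * m) ^ 2) • z := by
        rw [mul_assoc, f1, mul_smul_comm, f1, smul_smul, sq]
      rw [mul_assoc, hW χ z hχ hz', mul_smul_comm, aeval_mul f2, smul_smul, f1, e2,
        mul_comm ((-1 : K) ^ m), hp m hm]
    · rw [mul_zero, mul_zero]
    · intro a b _ _ ha hb
      rw [mul_add, mul_add, ha, hb]
    · intro c a _ ha
      rw [mul_smul_comm, mul_smul_comm, ha]
  have := key 1
  rwa [mul_one, mul_one] at this

end inv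

section word

variable {K : Type u} [Field K] {B ι M : Type} [Fintype B] [DecidableEq B] [Fintype M]
  [DecidableEq M] {κ : B → ι} {L : B → Matrix M M K}

/-- the involutions on `H ⊗ H` -/
def kk (L : B → Matrix M M K) (b : B) : Matrix (M × M) (M × M) K := L b ⊗ₖ L b

theorem kk_sq (hL : IsClifford L) (b : B) : kk L b * kk L b = 1 := by
  unfold kk
  rw [← Matrix.mul_kronecker_mul, hL.1, Matrix.one_kronecker_one]

theorem kk_comm (hL : IsClifford L) (b c : B) : kk L b * kk L c = kk L c * kk L b := by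
  by_cases h : b = c
  · rw [h]
  · unfold kk
    rw [← Matrix.mul_kronecker_mul, ← Matrix.mul_kronecker_mul, hL.2 b c h]
    ext i j
    simp [Matrix.kroneckerMap_apply]

theorem P_kk {m : ℕ} (T : Fin m → B) : P (kk L) T = P L T ⊗ₖ P L T := by
  induction m with
  | zero => rw [P_zero, P_zero, Matrix.one_kronecker_one]
  | succ m ih => rw [P_succ, P_succ, ih, Matrix.mul_kronecker_mul]; rfl

theorem P_eigen {N : Type} [Fintype N] [DecidableEq N] {L' : B → Matrix N N K} {χ : B → K}
    {z : Matrix N N K} : ∀ {m : ℕ} (T : Fin m → B), (∀ j, L' (T j) * z = χ (T j) • z) →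
      P L' T * z = (∏ j, χ (T j)) • z := by
  intro m
  induction m with
  | zero => intro T _; rw [P_zero, Matrix.one_mul, Fin.prod_univ_zero, one_smul]
  | succ m ih =>
    intro T h
    rw [P_succ, Matrix.mul_assoc, ih _ fun j => h j.succ, Matrix.mul_smul, h 0, smul_smul,
      Fin.prod_univ_succ, mul_comm]

/-- the block word is in the commutant -/
theorem block_word_mem [DecidableEq ι] (hL : IsClifford L) {i : ι} {r : ℕ} {F : Fin r → B}
    (hF2 : ∀ w, occ F w = if κ w = i then 1 else 0) : IsEnd κ L (P L F) := by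
  intro u v hκ huv
  have h6 := P_conj hL u F
  have h7 := P_conj hL v F
  have hocc : occ F u = occ F v := by rw [hF2, hF2, hκ]
  have h8 : P L F * L u = (-1 : K) ^ (r + occ F u) • (L u * P L F) := by
    rw [h6, smul_smul, ← pow_add, Even.neg_one_pow ⟨_, rfl⟩, one_smul]
  have h9 : P L F * L v = (-1 : K) ^ (r + occ F v) • (L v * P L F) := by
    rw [h7, smul_smul, ← pow_add, Even.neg_one_pow ⟨_, rfl⟩, one_smul]
  rw [← Matrix.mul_assoc, h8, Matrix.smul_mul, Matrix.mul_assoc, h9, Matrix.mul_smul,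
    smul_smul, hocc, ← pow_add, Even.neg_one_pow ⟨_, rfl⟩, one_smul, Matrix.mul_assoc]

theorem prod_block_word [DecidableEq ι] {i : ι} {r : ℕ} {F : Fin r → B}
    (hF2 : ∀ w, occ F w = if κ w = i then 1 else 0) (χ : B → K) :
    ∏ j, χ (F j) = ∏ b ∈ univ.filter (fun b => κ b = i), χ b := by
  rw [← Finset.prod_fiberwise' univ F χ, Finset.prod_filter]
  refine Finset.prod_congr rfl fun b _ => ?_
  rw [Finset.prod_const]
  have h := hF2 b
  unfold occ at h
  rw [h]
  split_ifs
  · rw [pow_one]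
  · rw [pow_zero]

/-- **The sum over a block.** -/
theorem block_sum_eq [CharZero K] [DecidableEq ι] (hL : IsClifford L) {i : ι}
    (hodd : Odd (univ.filter fun b => κ b = i).card) :
    ∃ ω, IsEnd κ L ω ∧ ∃ p : Polynomial K,
      ∑ b ∈ univ.filter (fun b => κ b = i), kk L b =
        Polynomial.aeval ((∑ b ∈ univ.filter (fun b => κ b = i), kk L b) *
          ∑ b ∈ univ.filter (fun b => κ b = i), kk L b) p * (ω ⊗ₖ ω) := by
  obtain ⟨r, F, hr, hF1, hF2⟩ := exists_block_word (κ := κ) i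
  refine ⟨P L F, block_word_mem hL hF2, ?_⟩
  refine sum_inv_eq (kk_sq hL) (kk_comm hL) hodd fun χ z hχ hz => ?_
  rw [← P_kk, P_eigen F fun j => hz _ (Finset.mem_filter.2 ⟨Finset.mem_univ _, hF1 j⟩),
    prod_block_word hF2]

end word

section gen

variable {K : Type u} [Field K] {B ι M : Type} [Fintype B] [DecidableEq B] [Fintype M]
  [DecidableEq M] {κ : B → ι} {L : B → Matrix M M K} {𝒜 : MixedSystem K B M}

/-- the span of the contractions of two equal forms -/
def gen (𝒜 : MixedSystem K B M) : Submodule K (Matrix (M × M) (M × M) K) :=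
  Submodule.span K {A | ∃ (S : Type) (_ : Fintype S) (_ : DecidableEq S)
    (F : (S → B) → Matrix M M K), matrixForm F ∈ 𝒜.A S Unit ∧ A = ∑ J, F J ⊗ₖ F J}

theorem gen_of {S : Type} [i1 : Fintype S] [i2 : DecidableEq S] {F : (S → B) → Matrix M M K}
    (h : matrixForm F ∈ 𝒜.A S Unit) : ∑ J, F J ⊗ₖ F J ∈ gen 𝒜 :=
  Submodule.subset_span ⟨S, i1, i2, F, h, rfl⟩

theorem gen_mul {S : Type} [Fintype S] [DecidableEq S] {R : (S → B) → Matrix M M K}
    (h : matrixForm R ∈ 𝒜.A S Unit) {A : Matrix (M × M) (M × M) K} (hA : A ∈ gen 𝒜) :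
    (∑ J, R J ⊗ₖ R J) * A ∈ gen 𝒜 := by
  refine Submodule.span_induction (p := fun A _ => (∑ J, R J ⊗ₖ R J) * A ∈ gen 𝒜) ?_ ?_ ?_ ?_ hA
  · rintro _ ⟨S', i1, i2, F, hF, rfl⟩
    have h1 := gen_of (mul_mem h hF)
    have h2 : (∑ J, R J ⊗ₖ R J) * ∑ J, F J ⊗ₖ F J = ∑ J : S ⊕ S' → B,
        (R (J ∘ Sum.inl) * F (J ∘ Sum.inr)) ⊗ₖ (R (J ∘ Sum.inl) * F (J ∘ Sum.inr)) := by
      rw [← (Equiv.sumArrowEquivProdArrow S S' B).symm.sum_comp, Fintype.sum_prod_type,
        Finset.sum_mul]
      refine Finset.sum_congr rfl fun J _ => ?_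
      rw [Finset.mul_sum]
      refine Finset.sum_congr rfl fun J' _ => ?_
      rw [← Matrix.mul_kronecker_mul]
      rfl
    rw [h2]
    exact h1
  · rw [Matrix.mul_zero]; exact Submodule.zero_mem _
  · intro a b _ _ ha hb
    rw [Matrix.mul_add]
    exact Submodule.add_mem _ ha hb
  · intro c a _ ha
    rw [Matrix.mul_smul]
    exact Submodule.smul_mem _ _ ha

theorem gen_poly {X : Matrix (M × M) (M × M) K} (hX : ∀ A ∈ gen 𝒜, X * A ∈ gen 𝒜)
    {A : Matrix (M × M) (M × M) K} (hA : A ∈ gen 𝒜) (p : Polynomial K) :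
    Polynomial.aeval X p * A ∈ gen 𝒜 := by
  have hk : ∀ k : ℕ, X ^ k * A ∈ gen 𝒜 := by
    intro k
    induction k with
    | zero => rw [pow_zero, Matrix.one_mul]; exact hA
    | succ k ih => rw [pow_succ', Matrix.mul_assoc]; exact hX _ ih
  rw [Polynomial.aeval_eq_sum_range, Finset.sum_mul]
  refine Submodule.sum_mem _ fun k _ => ?_
  rw [smul_mul_assoc]
  exact Submodule.smul_mem _ _ (hk k)

theorem gen_form {A : Matrix (M × M) (M × M) K} (hA : A ∈ gen 𝒜) :
    (fun _ Q => A ((Q (Sum.inl ())).2, (Q (Sum.inr ())).2) ((Q (Sum.inl ())).1, (Q (Sum.inr ())).1) :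
      MixedForm K B M Empty (Unit ⊕ Unit)) ∈ 𝒜.A Empty (Unit ⊕ Unit) := by
  refine Submodule.span_induction (p := fun A _ => (fun _ Q => A ((Q (Sum.inl ())).2,
    (Q (Sum.inr ())).2) ((Q (Sum.inl ())).1, (Q (Sum.inr ())).1) :
      MixedForm K B M Empty (Unit ⊕ Unit)) ∈ 𝒜.A Empty (Unit ⊕ Unit)) ?_ ?_ ?_ ?_ hA
  · rintro _ ⟨S, i1, i2, F, hF, rfl⟩
    have a1 : (fun J Q => matrixForm F (J ∘ Sum.inr) (Q ∘ Sum.inl) :
        MixedForm K B M (Empty ⊕ S) (Unit ⊕ Empty)) ∈ 𝒜.A (Empty ⊕ S) (Unit ⊕ Empty) :=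
      ren (Equiv.emptySum Empty S).symm (Equiv.sumEmpty Unit Empty).symm hF fun J Q => rfl
    have a2 : (fun J Q => matrixForm F (J ∘ Sum.inl) (Q ∘ Sum.inr) :
        MixedForm K B M (S ⊕ Empty) (Empty ⊕ Unit)) ∈ 𝒜.A (S ⊕ Empty) (Empty ⊕ Unit) :=
      ren (Equiv.sumEmpty S Empty).symm (Equiv.emptySum Empty Unit).symm hF fun J Q => rfl
    have a3 : (fun _ Q => (∑ J, F J ⊗ₖ F J) ((Q (Sum.inl ())).2, (Q (Sum.inr ())).2)
        ((Q (Sum.inl ())).1, (Q (Sum.inr ())).1) :
        MixedForm K B M (Empty ⊕ Empty) (Unit ⊕ Unit)) ∈ 𝒜.A (Empty ⊕ Empty) (Unit ⊕ Unit) := by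
      refine cmp a1 a2 fun J Q => ?_
      rw [Matrix.sum_apply]
      refine Finset.sum_congr rfl fun I _ => ?_
      rw [sum_empty_fun]
      rfl
    exact ren (Equiv.sumEmpty Empty Empty) (Equiv.refl _) a3 fun J Q => rfl
  · exact Submodule.zero_mem _
  · intro a b _ _ ha hb
    exact Submodule.add_mem _ ha hb
  · intro c a _ ha
    exact Submodule.smul_mem _ c ha

end gen

end Pool.Agent.R918.KS
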