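import Pool.Agent.R918.Ks10

set_option autoImplicit false
set_option linter.unusedSectionVars false

/-!
# Forms in two vectors and a matrix
-/

open Finset Function Kronecker

universe u

namespace Pool.Agent.R918.KS

open Pool.Agent.R914.K3P

variable {K : Type u} [Field K] {B ι M : Type} [Fintype B] [DecidableEq B] [Fintype M]
  [DecidableEq M] {κ : B → ι} {L : B → Matrix M M K} {𝒜 : MixedSystem K B M}

/-- the matrices of a form in two vectors and a matrix -/
def fm2 (f : MixedForm K B M (Unit ⊕ Unit) Unit) (a b : B) : Matrix M M K :=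
  Matrix.of fun n m => f (Sum.elim (fun _ => a) (fun _ => b)) (fun _ => (m, n))

/-- antisymmetrization -/
def asym (f : MixedForm K B M (Unit ⊕ Unit) Unit) : MixedForm K B M (Unit ⊕ Unit) Unit :=
  fun J Q => f J Q - f (J ∘ Equiv.sumComm Unit Unit) Q

theorem asym_mem {f : MixedForm K B M (Unit ⊕ Unit) Unit} (hf : f ∈ 𝒜.A (Unit ⊕ Unit) Unit) :
    asym f ∈ 𝒜.A (Unit ⊕ Unit) Unit :=
  Submodule.sub_mem _ hf (ren (Equiv.sumComm Unit Unit) (Equiv.refl Unit) hf fun _ _ => rfl)

theorem fm2_asym (f : MixedForm K B M (Unit ⊕ Unit) Unit) (a b : B) :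
    fm2 (asym f) a b = fm2 f a b - fm2 f b a := by
  ext n m
  simp only [fm2, asym, Matrix.of_apply, Matrix.sub_apply]
  congr 2
  funext x
  rcases x with x | x <;> rfl

theorem fm2_apply {f : MixedForm K B M (Unit ⊕ Unit) Unit} (J : Unit ⊕ Unit → B)
    (Q : Unit → M × M) : f J Q = fm2 f (J (Sum.inl ())) (J (Sum.inr ())) (Q ()).2 (Q ()).1 := by
  simp only [fm2, Matrix.of_apply]
  congr 1
  funext x
  rcases x with x | x <;> rfl

/-- a slice -/
def slice (g : MixedForm K B M (Unit ⊕ Unit) Unit) (b : B) : MixedForm K B M Unit Unit :=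
  fun J Q => g (Sum.elim J (fun _ => b)) Q

theorem formMatrix_slice (g : MixedForm K B M (Unit ⊕ Unit) Unit) (a b : B) :
    formMatrix (slice g b) a = fm2 g a b := rfl

theorem slice_killed {g : MixedForm K B M (Unit ⊕ Unit) Unit} (hg : MixedKilled κ L g) (b : B) :
    MixedKilled (fun x => (κ x, decide (x = b))) L (slice g b) := by
  intro u v hκ huv J Q
  have h1 : κ u = κ v := congrArg Prod.fst hκ
  have h2 : decide (u = b) = decide (v = b) := congrArg Prod.snd hκ
  have h3 : (u = b ↔ v = b) := decide_eq_decide.1 h2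
  have hub : ¬ u = b := fun h => huv (by rw [h, h3.1 h])
  have hvb : ¬ v = b := fun h => hub (h3.2 h)
  have h := hg u v h1 huv (Sum.elim J (fun _ => b)) Q
  rw [Fintype.sum_sum_type] at h
  have e1 : ∑ x : Unit, ((if (Sum.elim J (fun _ : Unit => b)) (Sum.inr x) = v then
      g (update (Sum.elim J (fun _ : Unit => b)) (Sum.inr x) u) Q else 0) -
      (if (Sum.elim J (fun _ : Unit => b)) (Sum.inr x) = u then
      g (update (Sum.elim J (fun _ : Unit => b)) (Sum.inr x) v) Q else 0)) = 0 := by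
    refine Finset.sum_eq_zero fun x _ => ?_
    rw [Sum.elim_inr, if_neg (Ne.symm hvb), if_neg (Ne.symm hub), sub_zero]
  rw [e1, add_zero] at h
  refine Eq.trans ?_ h
  congr 1
  congr 1
  refine Finset.sum_congr rfl fun j _ => ?_
  simp only [slice, Sum.elim_inl, Sum.update_elim_inl]

theorem exists_eta [CharZero K] [DecidableEq ι] (hL : IsClifford L)
    {g : MixedForm K B M (Unit ⊕ Unit) Unit}
    (hg : MixedKilled κ L g) (hs : ∀ a b, fm2 g a b = -fm2 g b a) {i : ι}
    (hi : 3 ≤ (univ.filter fun b => κ b = i).card) :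
    ∃ η ∈ Dk κ L, ∀ a b, κ a = i → κ b = i → a ≠ b → fm2 g a b = L a * L b * η := by
  have hex : ∀ u v : B, ∃ b, κ b = i ∧ b ≠ u ∧ b ≠ v := by
    intro u v
    have h1 : ({u, v} : Finset B).card < (univ.filter fun b => κ b = i).card :=
      lt_of_le_of_lt Finset.card_le_two (by omega)
    obtain ⟨b, h2, h3⟩ := Finset.exists_mem_notMem_of_card_lt_card h1
    rw [Finset.mem_filter] at h2
    simp only [Finset.mem_insert, Finset.mem_singleton, not_or] at h3
    exact ⟨b, h2.2, h3.1, h3.2⟩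
  have h1 : ∀ b, ∃ δ ∈ Dk (fun x => (κ x, decide (x = b))) L, ∀ a, κ a = i → a ≠ b →
      fm2 g a b = L a * δ := by
    intro b
    obtain ⟨a0, ha0, hab, -⟩ := hex b b
    obtain ⟨δ, hδ, h⟩ := exists_delta hL (slice_killed hg b) a0
    refine ⟨δ, hδ, fun a ha hab' => ?_⟩
    rw [← formMatrix_slice]
    refine h a ?_
    simp only [ha, ha0, hab, hab', decide_false]
  choose δ hδ1 hδ2 using h1
  obtain ⟨b0, hb0, -⟩ := hex (hex (Classical.choice ⟨(Finset.card_pos.1 (by omega : 0 <
    (univ.filter fun b => κ b = i).card)).choose⟩) (Classical.choice ⟨(Finset.card_pos.1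
    (by omega : 0 < (univ.filter fun b => κ b = i).card)).choose⟩)).choose
    (Finset.card_pos.1 (by omega : 0 < (univ.filter fun b => κ b = i).card)).choose
  have h2 : ∀ b, κ b = i → L b * δ b = L b0 * δ b0 := by
    intro b hb
    by_cases h : b = b0
    · rw [h]
    · have e1 := hδ2 b0 b hb h
      have e2 := hδ2 b b0 hb0 (Ne.symm h)
      have e3 : L b0 * δ b = -(L b * δ b0) := by rw [← e1, ← e2, hs b b0, neg_neg]
      have e4 : δ b = L b * (L b0 * δ b0) := by
        have e5 : L b0 * (L b0 * δ b) = L b0 * -(L b * δ b0) := by rw [e3]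
        rw [← Matrix.mul_assoc, hL.1, Matrix.one_mul] at e5
        rw [e5, Matrix.mul_neg, ← Matrix.mul_assoc, hL.2 b0 b (Ne.symm h), Matrix.neg_mul, neg_neg,
          Matrix.mul_assoc]
      rw [e4, ← Matrix.mul_assoc, hL.1, Matrix.one_mul]
  refine ⟨L b0 * δ b0, ?_, fun a b ha hb hab => ?_⟩
  · intro u v hκ huv
    obtain ⟨b, hb, hbu, hbv⟩ := hex u v
    rw [← h2 b hb]
    have e1 := hδ1 b u v (by simp only [hκ, Ne.symm hbu, Ne.symm hbv, decide_false]) huv
    have e2 : L u * L v * L b = L b * (L u * L v) := by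
      rw [Matrix.mul_assoc, hL.2 v b (Ne.symm hbv), Matrix.mul_neg, ← Matrix.mul_assoc,
        hL.2 u b (Ne.symm hbu), Matrix.neg_mul, neg_neg, Matrix.mul_assoc]
    rw [Matrix.mul_assoc, e1, ← Matrix.mul_assoc, ← e2, Matrix.mul_assoc]
  · rw [← h2 b hb, hδ2 b a ha hab, Matrix.mul_assoc (L a) (L b), ← Matrix.mul_assoc (L b) (L b),
      hL.1, Matrix.one_mul]

section ideal

variable [DecidableEq ι]

/-- pairs of vectors of the block -/
def pr (κ : B → ι) (L : B → Matrix M M K) (i : ι) (Y : Matrix M M K) (J : Unit ⊕ Unit → B) :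
    Matrix M M K :=
  if κ (J (Sum.inl ())) = i ∧ κ (J (Sum.inr ())) = i ∧ J (Sum.inl ()) ≠ J (Sum.inr ()) then
    L (J (Sum.inl ())) * L (J (Sum.inr ())) * Y else 0

/-- the elements which give algebraic forms -/
def idl2 (𝒜 : MixedSystem K B M) (κ : B → ι) (L : B → Matrix M M K) (i : ι) :
    Submodule K (Matrix M M K) where
  carrier := {Y | matrixForm (pr κ L i Y) ∈ 𝒜.A (Unit ⊕ Unit) Unit}
  zero_mem' := by
    refine mem_congr (Submodule.zero_mem _) ?_
    funext J Q
    simp [matrixForm, pr]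
  add_mem' {X Y} hX hY := by
    refine mem_congr (Submodule.add_mem _ hX hY) ?_
    funext J Q
    simp only [matrixForm, pr, Pi.add_apply, Matrix.mul_add]
    split_ifs <;> simp
  smul_mem' c X hX := by
    refine mem_congr (Submodule.smul_mem _ c hX) ?_
    funext J Q
    simp only [matrixForm, pr, Pi.smul_apply, Matrix.mul_smul]
    split_ifs <;> simp

theorem mem_idl2 {i : ι} {Y : Matrix M M K} : Y ∈ idl2 𝒜 κ L i ↔
    matrixForm (pr κ L i Y) ∈ 𝒜.A (Unit ⊕ Unit) Unit := Iff.rfl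

theorem idl2_right (hE : EndomorphismsAlgebraic κ L 𝒜) {i : ι} {Y d : Matrix M M K}
    (hY : Y ∈ idl2 𝒜 κ L i) (hd : d ∈ Dk κ L) : Y * d ∈ idl2 𝒜 κ L i := by
  rw [mem_idl2] at hY ⊢
  refine ren (Equiv.sumEmpty (Unit ⊕ Unit) Empty) (Equiv.refl Unit) (mul_mem hY (hE d hd))
    fun J Q => ?_
  simp only [matrixForm]
  have e : pr κ L i (Y * d) J = pr κ L i Y J * d := by
    unfold pr
    split_ifs
    · simp only [Matrix.mul_assoc]
    · rw [Matrix.zero_mul]
  rw [e]
  rfl

theorem idl2_left (hE : EndomorphismsAlgebraic κ L 𝒜) {i : ι} {Y d : Matrix M M K}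
    (hY : Y ∈ idl2 𝒜 κ L i) (hd : d ∈ Dk κ L) : d * Y ∈ idl2 𝒜 κ L i := by
  rw [mem_idl2] at hY ⊢
  refine ren (Equiv.emptySum Empty (Unit ⊕ Unit)) (Equiv.refl Unit) (mul_mem (hE d hd) hY)
    fun J Q => ?_
  simp only [matrixForm]
  have e : pr κ L i (d * Y) J = d * pr κ L i Y J := by
    unfold pr
    split_ifs with h
    · have h1 := hd (J (Sum.inl ())) (J (Sum.inr ())) (h.1.trans h.2.1.symm) h.2.2
      rw [← Matrix.mul_assoc, ← h1]
      simp only [Matrix.mul_assoc]
    · rw [Matrix.mul_zero]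
  rw [e]
  rfl

/-- restriction of the first vector variable to a block -/
theorem restrict_first {i : ι} (hP : blockForm K M κ i ∈ 𝒜.A Bool Empty) {S U : Type} [Finite S]
    [Finite U] {f : MixedForm K B M (Unit ⊕ S) U} (hf : f ∈ 𝒜.A (Unit ⊕ S) U) :
    (fun J Q => if κ (J (Sum.inl ())) = i then f J Q else 0 : MixedForm K B M (Unit ⊕ S) U) ∈
      𝒜.A (Unit ⊕ S) U := by
  have a1 : (fun J Q => blockForm K M κ i (fun x => if x = true then J (Sum.inl ()) else
      J (Sum.inr ())) Empty.elim :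
      MixedForm K B M (Unit ⊕ Unit) (Empty ⊕ Empty)) ∈ 𝒜.A (Unit ⊕ Unit) (Empty ⊕ Empty) := by
    refine ren (⟨fun x => if x = true then Sum.inl () else Sum.inr (),
      fun x => Sum.elim (fun _ => true) (fun _ => false) x, fun x => by cases x <;> rfl,
      fun x => by rcases x with x | x <;> rfl⟩ : Bool ≃ Unit ⊕ Unit)
      (Equiv.sumEmpty Empty Empty).symm hP fun J Q => ?_
    congr 1
    · funext x
      cases x <;> rfl
    · funext x
      exact x.elim
  have a2 : (fun J Q => f J (Q ∘ Sum.inr) :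
      MixedForm K B M (Unit ⊕ S) (Empty ⊕ U)) ∈ 𝒜.A (Unit ⊕ S) (Empty ⊕ U) :=
    ren (Equiv.refl _) (Equiv.emptySum Empty U).symm hf fun J Q => rfl
  have a3 : (fun J Q => if κ (J (Sum.inl ())) = i then f J (Q ∘ Sum.inr) else 0 :
      MixedForm K B M (Unit ⊕ S) (Empty ⊕ U)) ∈ 𝒜.A (Unit ⊕ S) (Empty ⊕ U) := by
    refine cmp a1 a2 fun J Q => ?_
    rw [sum_unit_fun]
    simp only [sum_empty_fun]
    rw [Fintype.sum_eq_single (J (Sum.inl ()))]
    · simp only [blockForm, comp_apply, Sum.elim_inl, Sum.elim_inr, if_true,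
        Bool.false_eq_true, if_false, true_and]
      have e : (Sum.elim (fun _ : Unit => J (Sum.inl ())) (J ∘ Sum.inr)) = J := by
        funext x
        rcases x with x | x <;> rfl
      rw [e]
      split_ifs with h
      · rw [one_mul]
        rfl
      · rw [zero_mul]
    · intro x hx
      simp only [blockForm, comp_apply, Sum.elim_inl, Sum.elim_inr, if_true,
        Bool.false_eq_true, if_false]
      rw [if_neg, zero_mul]
      rintro ⟨h, -⟩
      exact hx h.symm
  exact ren (Equiv.refl _) (Equiv.emptySum Empty U) a3 fun J Q => rfl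

theorem restrict_both {i : ι} (hP : blockForm K M κ i ∈ 𝒜.A Bool Empty)
    {f : MixedForm K B M (Unit ⊕ Unit) Unit} (hf : f ∈ 𝒜.A (Unit ⊕ Unit) Unit) :
    (fun J Q => if κ (J (Sum.inl ())) = i ∧ κ (J (Sum.inr ())) = i then f J Q else 0 :
      MixedForm K B M (Unit ⊕ Unit) Unit) ∈ 𝒜.A (Unit ⊕ Unit) Unit := by
  have h1 := restrict_first hP hf
  have h2 : (fun J Q => if κ (J (Sum.inr ())) = i then f (J ∘ Equiv.sumComm Unit Unit) Q else 0 :
      MixedForm K B M (Unit ⊕ Unit) Unit) ∈ 𝒜.A (Unit ⊕ Unit) Unit :=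
    ren (Equiv.sumComm Unit Unit) (Equiv.refl _) h1 fun J Q => rfl
  have h3 := restrict_first hP h2
  refine ren (Equiv.sumComm Unit Unit) (Equiv.refl _) h3 fun J Q => ?_
  have e : (J ∘ Equiv.sumComm Unit Unit) ∘ Equiv.sumComm Unit Unit = J := by
    funext x
    rcases x with x | x <;> rfl
  rw [e]
  simp only [comp_apply, Equiv.sumComm_apply, Sum.swap_inl, Sum.swap_inr]
  by_cases h1 : κ (J (Sum.inl ())) = i <;> by_cases h2 : κ (J (Sum.inr ())) = i <;>
    simp [h1, h2]

/-- **The pairs of a block.** -/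
theorem one_mem_idl2 [CharZero K] [Nonempty M] (hL : IsClifford L)
    (hE : EndomorphismsAlgebraic κ L 𝒜)
    (hodd : ∀ i, (∃ b, κ b = i) → Odd (univ.filter fun b => κ b = i).card) {i : ι}
    (hP : blockForm K M κ i ∈ 𝒜.A Bool Empty)
    {f : MixedForm K B M (Unit ⊕ Unit) Unit} (hf : f ∈ 𝒜.A (Unit ⊕ Unit) Unit)
    (hk : MixedKilled κ L (asym f)) (hi : 3 ≤ (univ.filter fun b => κ b = i).card)
    {u v : B} (hu : κ u = i) (hv : κ v = i) (huv : u ≠ v) (hne : fm2 (asym f) u v ≠ 0) :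
    (1 : Matrix M M K) ∈ idl2 𝒜 κ L i := by
  have hs : ∀ a b, fm2 (asym f) a b = -fm2 (asym f) b a := fun a b => by
    rw [fm2_asym, fm2_asym, neg_sub]
  obtain ⟨η, h1, h2⟩ := exists_eta hL hk hs hi
  have h3 : η ∈ idl2 𝒜 κ L i := by
    rw [mem_idl2]
    refine mem_congr (restrict_both hP (asym_mem hf)) ?_
    funext J Q
    rw [fm2_apply (f := asym f)]
    simp only [matrixForm, pr]
    by_cases ha : κ (J (Sum.inl ())) = i
    · by_cases hb : κ (J (Sum.inr ())) = i
      · by_cases hab : J (Sum.inl ()) = J (Sum.inr ())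
        · rw [if_neg (fun h => h.2.2 hab), if_pos ⟨ha, hb⟩, hab, fm2_asym, sub_self]
        · rw [if_pos ⟨ha, hb, hab⟩, if_pos ⟨ha, hb⟩, h2 _ _ ha hb hab]
      · rw [if_neg (fun h => hb h.2.1), if_neg (fun h => hb h.2)]
        rfl
    · rw [if_neg (fun h => ha h.1), if_neg (fun h => ha h.1)]
      rfl
  refine one_mem_ideal hL hodd _ (fun x hx d hd => idl2_right hE hx hd)
    (fun x hx d hd => idl2_left hE hx hd) h3 h1 fun h0 => hne ?_
  rw [h2 u v hu hv huv, h0, Matrix.mul_zero]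

theorem one_mem_idl2_of_le {i : ι} (hi : (univ.filter fun b => κ b = i).card ≤ 1) :
    (1 : Matrix M M K) ∈ idl2 𝒜 κ L i := by
  rw [mem_idl2]
  refine mem_congr (Submodule.zero_mem _) ?_
  funext J Q
  simp only [matrixForm, pr]
  rw [if_neg]
  · rfl
  · rintro ⟨h1, h2, h3⟩
    exact h3 (Finset.card_le_one.1 hi _ (Finset.mem_filter.2 ⟨Finset.mem_univ _, h1⟩) _
      (Finset.mem_filter.2 ⟨Finset.mem_univ _, h2⟩))

/-- **The Casimir form of a block.** -/
theorem block_gen [CharZero K] (hL : IsClifford L) (hE : EndomorphismsAlgebraic κ L 𝒜) {i : ι}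
    (hodd : Odd (univ.filter fun b => κ b = i).card) (h : (1 : Matrix M M K) ∈ idl2 𝒜 κ L i) :
    ∑ b ∈ univ.filter (fun b => κ b = i), kk L b ∈ gen 𝒜 := by
  obtain ⟨ω, hω, p, hp⟩ := block_sum_eq hL hodd
  rw [hp]
  have h1 : ω ⊗ₖ ω ∈ gen 𝒜 := by
    have h2 := gen_of (𝒜 := 𝒜) (hE ω hω)
    rwa [sum_empty_fun] at h2
  refine gen_poly (fun A hA => ?_) h1 p
  have h3 : (∑ b ∈ univ.filter (fun b => κ b = i), kk L b) *
      ∑ b ∈ univ.filter (fun b => κ b = i), kk L b =
      ∑ J, pr κ L i 1 J ⊗ₖ pr κ L i 1 J +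
        ((univ.filter fun b => κ b = i).card : K) • (1 : Matrix (M × M) (M × M) K) := by
    have e1 : ∑ J, pr κ L i 1 J ⊗ₖ pr κ L i 1 J = ∑ a, ∑ b, if κ a = i ∧ κ b = i ∧ a ≠ b then
        kk L a * kk L b else 0 := by
      rw [sum_two]
      refine Finset.sum_congr rfl fun a _ => Finset.sum_congr rfl fun b _ => ?_
      simp only [pr, Sum.elim_inl, Sum.elim_inr, Matrix.mul_one]
      split_ifs with h
      · unfold kk
        rw [Matrix.mul_kronecker_mul]
      · exact Matrix.zero_kronecker _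
    rw [e1, Finset.sum_filter, Finset.sum_mul]
    have e2 : ((univ.filter fun b => κ b = i).card : K) • (1 : Matrix (M × M) (M × M) K) =
        ∑ a, if κ a = i then (1 : Matrix (M × M) (M × M) K) else 0 := by
      rw [← Finset.sum_filter, Finset.sum_const, Nat.cast_smul_eq_nsmul]
    rw [e2, ← Finset.sum_add_distrib]
    refine Finset.sum_congr rfl fun a _ => ?_
    rw [Finset.mul_sum]
    by_cases ha : κ a = i
    · rw [if_pos ha]
      rw [← Finset.sum_erase_add _ _ (Finset.mem_univ a),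
        ← Finset.sum_erase_add _ _ (Finset.mem_univ a)]
      rw [if_pos ha, kk_sq hL, if_neg (fun h => h.2.2 rfl), add_zero, if_pos ha]
      congr 1
      refine Finset.sum_congr rfl fun b hb => ?_
      have hab : a ≠ b := Ne.symm (Finset.ne_of_mem_erase hb)
      by_cases hb' : κ b = i
      · rw [if_pos hb', if_pos ⟨ha, hb', hab⟩]
      · rw [if_neg hb', if_neg (fun h => hb' h.2.1), mul_zero]
    · rw [if_neg ha, if_neg ha, add_zero]
      refine Finset.sum_congr rfl fun b _ => ?_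
      rw [zero_mul]
      exact (if_neg fun h => ha h.1).symm
  rw [h3, Matrix.add_mul, Matrix.smul_mul, Matrix.one_mul]
  exact Submodule.add_mem _ (gen_mul h hA) (Submodule.smul_mem _ _ hA)

end ideal

end Pool.Agent.R918.KS
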