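import Pool.Agent.R918.Ks11

set_option autoImplicit false
set_option linter.unusedSectionVars false

/-!
# Motivated by the Kuga-Satake variety: main theorem
-/

open Finset Function Kronecker

universe u

namespace Pool.Agent.R918.KS

open Pool.Agent.R914.K3P

variable {K : Type u} [Field K] {B ι M : Type} [Fintype B] [DecidableEq B] [Fintype M]
  [DecidableEq M] {κ : B → ι} {L : B → Matrix M M K} {𝒜 : MixedSystem K B M}

/-- forms without vector variables as mixed forms -/
def inclE (K : Type u) [Field K] (B M U : Type) : EndForm K M U →ₗ[K] MixedForm K B M Empty U where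
  toFun t _ Q := t Q
  map_add' _ _ := rfl
  map_smul' _ _ := rfl

/-- The system of the forms without vector variables. -/
def esys (𝒜 : MixedSystem K B M) : EndSystem K M where
  A U := (𝒜.A Empty U).comap (inclE K B M U)
  const := 𝒜.const
  trace := 𝒜.trace
  rename {U U'} _ _ f t ht := ren (Equiv.refl Empty) f ht fun _ _ => rfl
  comp {U D U'} _ _ _ _ t s ht hs := by
    have a1 : (fun _ Q => t Q : MixedForm K B M (Empty ⊕ Empty) (U ⊕ D)) ∈
        𝒜.A (Empty ⊕ Empty) (U ⊕ D) :=
      ren (Equiv.sumEmpty Empty Empty).symm (Equiv.refl _) ht fun _ _ => rfl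
    have a2 : (fun _ Q => s Q : MixedForm K B M (Empty ⊕ Empty) (D ⊕ U')) ∈
        𝒜.A (Empty ⊕ Empty) (D ⊕ U') :=
      ren (Equiv.sumEmpty Empty Empty).symm (Equiv.refl _) hs fun _ _ => rfl
    refine ren (Equiv.sumEmpty Empty Empty) (Equiv.refl _) (cmp (r := fun _ Q =>
      endComp t s Q) a1 a2 fun J Q => ?_) fun _ _ => rfl
    unfold endComp
    rw [sum_empty_fun]

theorem mem_esys {U : Type} {t : EndForm K M U} :
    t ∈ (esys 𝒜).A U ↔ (fun _ Q => t Q : MixedForm K B M Empty U) ∈ 𝒜.A Empty U := Iff.rfl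

theorem esys_endo (hE : EndomorphismsAlgebraic κ L 𝒜) : EndAlgebraic κ L (esys 𝒜) :=
  fun Z hZ => hE Z hZ

theorem esys_casimir (h : ∑ b, kk L b ∈ gen 𝒜) : casimirForm L ∈ (esys 𝒜).A Bool := by
  rw [mem_esys]
  refine ren (Equiv.refl Empty) (⟨fun x => Sum.elim (fun _ => true) (fun _ => false) x,
    fun x => if x = true then Sum.inl () else Sum.inr (),
    fun x => by rcases x with x | x <;> rfl, fun x => by cases x <;> rfl⟩ :
      Unit ⊕ Unit ≃ Bool) (gen_form h) fun J Q => ?_
  rw [Matrix.sum_apply]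
  rfl

/-- the contraction of one vector variable of two killed forms is killed -/
theorem killed_pair {U U' : Type} [Fintype U] [DecidableEq U] [Fintype U'] [DecidableEq U']
    {s : MixedForm K B M Unit U} {F : MixedForm K B M Unit U'} (hs : MixedKilled κ L s)
    (hF : MixedKilled κ L F) : EndKilled κ L (fun Q : U ⊕ U' → M × M =>
      ∑ b, s (fun _ => b) (Q ∘ Sum.inl) * F (fun _ => b) (Q ∘ Sum.inr)) := by
  intro u v hκ huv Q
  have key : ∀ {V : Type} [Fintype V] [DecidableEq V] {s : MixedForm K B M Unit V},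
      MixedKilled κ L s → ∀ (b : B) (R : V → M × M), ∑ w, ∑ p,
        ((L u * L v) p (R w).1 * s (fun _ => b) (update R w (p, (R w).2)) -
        (L u * L v) (R w).2 p * s (fun _ => b) (update R w ((R w).1, p))) =
        -2 * ((if b = v then s (fun _ => u) R else 0) - (if b = u then s (fun _ => v) R else 0)) := by
    intro V _ _ s hs b R
    have h2 := hs u v hκ huv (fun _ => b) R
    simp only [Finset.univ_unique, Finset.sum_singleton] at h2
    have e1 : ∀ x : B, update (fun _ : Unit => b) default x = fun _ => x := fun x => by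
      funext y; rw [Subsingleton.elim y default, update_self]
    simp only [e1] at h2
    linear_combination h2
  rw [Fintype.sum_sum_type]
  simp only [update_comp_inl, update_comp_inl', update_comp_inr, update_comp_inr']
  have f1 : ∑ w, ∑ p, ((L u * L v) p (Q (Sum.inl w)).1 * ∑ b, s (fun _ => b)
      (update (Q ∘ Sum.inl) w (p, (Q (Sum.inl w)).2)) * F (fun _ => b) (Q ∘ Sum.inr) -
      (L u * L v) (Q (Sum.inl w)).2 p * ∑ b, s (fun _ => b)
      (update (Q ∘ Sum.inl) w ((Q (Sum.inl w)).1, p)) * F (fun _ => b) (Q ∘ Sum.inr)) =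
      ∑ b, (-2 * ((if b = v then s (fun _ => u) (Q ∘ Sum.inl) else 0) -
        (if b = u then s (fun _ => v) (Q ∘ Sum.inl) else 0))) * F (fun _ => b) (Q ∘ Sum.inr) := by
    simp only [← key hs, Finset.sum_mul]
    conv_rhs => rw [Finset.sum_comm]
    refine Finset.sum_congr rfl fun w _ => ?_
    conv_rhs => rw [Finset.sum_comm]
    refine Finset.sum_congr rfl fun p _ => ?_
    rw [Finset.mul_sum, Finset.mul_sum, ← Finset.sum_sub_distrib]
    refine Finset.sum_congr rfl fun b _ => ?_
    simp only [comp_apply]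
    ring
  have f2 : ∑ w, ∑ p, ((L u * L v) p (Q (Sum.inr w)).1 * ∑ b, s (fun _ => b) (Q ∘ Sum.inl) *
      F (fun _ => b) (update (Q ∘ Sum.inr) w (p, (Q (Sum.inr w)).2)) -
      (L u * L v) (Q (Sum.inr w)).2 p * ∑ b, s (fun _ => b) (Q ∘ Sum.inl) *
      F (fun _ => b) (update (Q ∘ Sum.inr) w ((Q (Sum.inr w)).1, p))) =
      ∑ b, s (fun _ => b) (Q ∘ Sum.inl) * (-2 * ((if b = v then F (fun _ => u) (Q ∘ Sum.inr) else 0) -
        (if b = u then F (fun _ => v) (Q ∘ Sum.inr) else 0))) := by
    simp only [← key hF, Finset.mul_sum]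
    conv_rhs => rw [Finset.sum_comm]
    refine Finset.sum_congr rfl fun w _ => ?_
    conv_rhs => rw [Finset.sum_comm]
    refine Finset.sum_congr rfl fun p _ => ?_
    rw [← Finset.sum_sub_distrib]
    refine Finset.sum_congr rfl fun b _ => ?_
    simp only [comp_apply]
    ring
  rw [f1, f2]
  simp only [mul_sub, sub_mul, Finset.sum_sub_distrib, mul_ite, ite_mul, mul_zero, zero_mul,
    Finset.sum_ite_eq', Finset.mem_univ, if_true]
  ring

section main

variable [DecidableEq ι]

/-- the Kuga-Satake form of a block -/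
def ksBlock (κ : B → ι) (L : B → Matrix M M K) (i : ι) : MixedForm K B M Unit Unit :=
  matrixForm (fun J : Unit → B => if κ (J ()) = i then L (J ()) * 1 else 0)

theorem ksBlock_killed (hL : IsClifford L) (i : ι) : MixedKilled κ L (ksBlock κ L i) := by
  intro u v hκ huv J Q
  have h := killed_ks (κ := κ) hL u v hκ huv J Q
  simp only [Finset.univ_unique, Finset.sum_singleton] at h ⊢
  have e1 : ∀ x : B, update J default x () = x := fun x => by
    rw [show (() : Unit) = default from rfl, update_self]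
  simp only [ksBlock, matrixForm, e1, Matrix.mul_one] at h ⊢
  by_cases hJ : κ (J ()) = i
  · have e2 : ∀ x : M × M, ((if κ (J ()) = i then L (J ()) else 0) : Matrix M M K) = L (J ()) :=
      fun _ => if_pos hJ
    simp only [if_pos hJ]
    by_cases h1 : J () = v
    · have h2 : κ v = i := h1 ▸ hJ
      have h3 : κ u = i := hκ.trans h2
      simp only [h2, h3, if_true]
      exact h
    · by_cases h4 : J () = u
      · have h3 : κ u = i := h4 ▸ hJ
        have h2 : κ v = i := hκ.symm.trans h3
        simp only [h2, h3, if_true]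
        exact h
      · have h5 : J default = J () := rfl
        rw [h5, if_neg h1, if_neg h4] at h ⊢
        exact h
  · simp only [if_neg hJ, Matrix.zero_apply, mul_zero, sub_zero, Finset.sum_const_zero, add_zero]
    have h5 : J default = J () := rfl
    rw [h5]
    by_cases h1 : J () = v
    · have h2 : ¬ κ v = i := h1 ▸ hJ
      have h3 : ¬ κ u = i := fun h => h2 (hκ.symm.trans h)
      simp [h2, h3]
    · by_cases h4 : J () = u
      · have h3 : ¬ κ u = i := h4 ▸ hJ
        have h2 : ¬ κ v = i := fun h => h3 (hκ.trans h)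
        simp [h2, h3]
      · simp [h1, h4]

/-- **Main theorem.** -/
theorem ks_of_motivated [CharZero K] [Fintype ι] [Nonempty M] (hL : IsClifford L)
    (hH : AlgebraicIsHodge κ L 𝒜) (hE : EndomorphismsAlgebraic κ L 𝒜)
    (hodd : ∀ i, (∃ b, κ b = i) → Odd (univ.filter fun b => κ b = i).card)
    (hP : ∀ i, blockForm K M κ i ∈ 𝒜.A Bool Empty) (h : IsMotivated κ 𝒜) :
    KugaSatakeAlgebraic L 𝒜 := by
  -- the Casimir form
  have h1 : ∀ i, ∑ b ∈ univ.filter (fun b => κ b = i), kk L b ∈ gen 𝒜 := by
    intro i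
    by_cases hi : ∃ b, κ b = i
    · refine block_gen hL hE (hodd i hi) ?_
      by_cases hc : (univ.filter fun b => κ b = i).card ≤ 1
      · exact one_mem_idl2_of_le hc
      · have hc3 : 3 ≤ (univ.filter fun b => κ b = i).card := by
          obtain ⟨k, hk⟩ := hodd i hi
          omega
        obtain ⟨U, i1, i2, t, ht, s, hs, hts⟩ := h i
        obtain ⟨v, hv, u, hu, hne⟩ := Finset.one_lt_card.1 (by omega :
          1 < (univ.filter fun b => κ b = i).card)
        rw [Finset.mem_filter] at hu hv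
        have hκ : κ u = κ v := hu.2.trans hv.2.symm
        refine one_mem_idl2 hL hE hodd (hP i) (act_mem ht hs) (hH _ _ _ (asym_mem (act_mem ht hs)))
          hc3 hv.2 hu.2 hne fun h0 => ?_
        have hd : dop (L u * L v) u v t = 0 := (killed_dop.1 (hH _ _ t ht)) u v hκ (Ne.symm hne)
        have g1 := act_lie (s := s) hd v u
        have g2 := act_lie (s := s) hd u v
        rw [if_pos rfl, if_neg hne, sub_zero, hts u u hu.2 hu.2, if_pos rfl] at g1
        rw [if_neg (Ne.symm hne), if_pos rfl, zero_sub, hts v v hv.2 hv.2, if_pos rfl] at g2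
        rw [fm2_asym, sub_eq_zero] at h0
        have g3 : ∀ m n, act t s (Sum.elim (fun _ => v) (fun _ => u)) (fun _ => (m, n)) =
            act t s (Sum.elim (fun _ => u) (fun _ => v)) (fun _ => (m, n)) := fun m n =>
          congrFun (congrFun h0 n) m
        simp only [g3] at g1
        rw [g1] at g2
        have g4 : (4 : K) = 0 := by linear_combination -g2
        exact absurd g4 (by norm_num)
    · have h2 : (univ.filter fun b => κ b = i) = ∅ := by
        rw [Finset.filter_eq_empty_iff]
        intro b _ hb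
        exact hi ⟨b, hb⟩
      rw [h2, Finset.sum_empty]
      exact Submodule.zero_mem _
  have h2 : ∑ b, kk L b ∈ gen 𝒜 := by
    rw [← Finset.sum_fiberwise univ κ]
    exact Submodule.sum_mem _ fun i _ => h1 i
  have h3 := end_all hL (esys_endo hE) (esys_casimir h2)
  -- the Kuga-Satake form of a block
  refine ks_mem (κ := κ) fun i _ => ?_
  rw [mem_idl]
  obtain ⟨U, i1, i2, t, ht, s, hs, hts⟩ := h i
  have h4 := h3 _ _ (killed_pair (hH _ _ s hs) (ksBlock_killed hL i))
  rw [mem_esys] at h4
  have a0 : (fun J Q => if κ (J (Sum.inl ())) = i then t (J ∘ Sum.inl) (Q ∘ Sum.inr) else 0 :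
      MixedForm K B M (Unit ⊕ Empty) (Empty ⊕ U)) ∈ 𝒜.A (Unit ⊕ Empty) (Empty ⊕ U) := by
    refine restrict_first (hP i) (f := fun J Q => t (J ∘ Sum.inl) (Q ∘ Sum.inr)) ?_
    exact ren (Equiv.sumEmpty Unit Empty).symm (Equiv.emptySum Empty U).symm ht fun J Q => rfl
  have a1 : (fun _ Q => ∑ b, s (fun _ => b) (Q ∘ Sum.inl) * ksBlock κ L i (fun _ => b)
      (Q ∘ Sum.inr) : MixedForm K B M (Empty ⊕ Empty) (U ⊕ Unit)) ∈
      𝒜.A (Empty ⊕ Empty) (U ⊕ Unit) :=
    ren (Equiv.sumEmpty Empty Empty).symm (Equiv.refl _) h4 fun J Q => rfl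
  have a2 : (fun J Q => ksBlock κ L i (J ∘ Sum.inl) (Q ∘ Sum.inr) :
      MixedForm K B M (Unit ⊕ Empty) (Empty ⊕ Unit)) ∈ 𝒜.A (Unit ⊕ Empty) (Empty ⊕ Unit) := by
    refine cmp a0 a1 fun J Q => ?_
    rw [sum_empty_fun]
    simp only [Sum.elim_inl, comp_apply]
    have e1 : ∀ R : U → M × M, (Sum.elim (Q ∘ Sum.inl) R) ∘ Sum.inr = R := fun R => rfl
    have e2 : (Sum.elim (J ∘ Sum.inl) (Empty.elim : Empty → B)) ∘ Sum.inl =
      fun _ => J (Sum.inl ()) := rfl
    have e3 : ∀ R : U → M × M, (Sum.elim (Prod.swap ∘ R) (Q ∘ Sum.inr)) ∘ Sum.inl =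
      Prod.swap ∘ R := fun R => rfl
    have e4 : ∀ R : U → M × M, (Sum.elim (Prod.swap ∘ R) (Q ∘ Sum.inr)) ∘ Sum.inr =
      (Q ∘ Sum.inr : Unit → M × M) := fun R => rfl
    simp only [e1, e2, e3, e4]
    by_cases hJ : κ (J (Sum.inl ())) = i
    · simp only [if_pos hJ, Finset.mul_sum]
      rw [Finset.sum_comm]
      have e5 : ∀ b, ∑ R : U → M × M, t (fun _ => J (Sum.inl ())) R *
          (s (fun _ => b) (Prod.swap ∘ R) * ksBlock κ L i (fun _ => b) (Q ∘ Sum.inr)) =
          contraction t s (J (Sum.inl ())) b * ksBlock κ L i (fun _ => b) (Q ∘ Sum.inr) := by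
        intro b
        unfold contraction
        rw [Finset.sum_mul]
        refine Finset.sum_congr rfl fun R _ => ?_
        ring
      simp only [e5]
      rw [Fintype.sum_eq_single (J (Sum.inl ()))]
      · rw [hts _ _ hJ hJ, if_pos rfl, one_mul]
        rfl
      · intro b hb
        by_cases hb' : κ b = i
        · rw [hts _ _ hJ hb', if_neg (Ne.symm hb), zero_mul]
        · simp only [ksBlock, matrixForm, if_neg hb', Matrix.zero_apply, mul_zero]
    · simp only [if_neg hJ, zero_mul, Finset.sum_const_zero]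
      simp only [ksBlock, matrixForm, comp_apply, if_neg hJ, Matrix.zero_apply]
  exact ren (Equiv.sumEmpty Unit Empty) (Equiv.emptySum Empty Unit) a2 fun J Q => rfl

end main

end Pool.Agent.R918.KS
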