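import Pool.Agent.R918.Ks12

set_option autoImplicit false
set_option linter.unusedSectionVars false

/-!
# Motivated by the Kuga-Satake variety: equivalences
-/

open Finset Function Kronecker

universe u

namespace Pool.Agent.R918.KS

open Pool.Agent.R914.K3P

variable {K : Type u} [Field K] {B ι M : Type} [Fintype B] [DecidableEq B] [Fintype M]
  [DecidableEq M] {κ : B → ι} {L : B → Matrix M M K} {𝒜 : MixedSystem K B M}

theorem motivated_of_ks [CharZero K] [Nonempty M] (hL : IsClifford L)
    (h : KugaSatakeAlgebraic L 𝒜) : IsMotivated κ 𝒜 := by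
  intro i
  refine ⟨Unit, inferInstance, inferInstance, _, h, _,
    Submodule.smul_mem _ (Fintype.card M : K)⁻¹ h, fun b c _ _ => ?_⟩
  have hM : (Fintype.card M : K) ≠ 0 := by exact_mod_cast Fintype.card_ne_zero
  unfold contraction
  rw [sum_unit_fun]
  have h1 : ∀ x : M × M, matrixForm (fun J : Unit → B => L (J ())) (fun _ => b) (fun _ => x) *
      ((Fintype.card M : K)⁻¹ • matrixForm (fun J : Unit → B => L (J ()))) (fun _ => c)
        (Prod.swap ∘ fun _ => x) = (Fintype.card M : K)⁻¹ * (L b x.2 x.1 * L c x.1 x.2) := by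
    intro x
    simp only [matrixForm, Pi.smul_apply, smul_eq_mul, comp_apply, Prod.swap]
    ring
  simp only [h1]
  rw [← Finset.mul_sum, Fintype.sum_prod_type_right]
  have h2 : ∑ y, ∑ x, L b y x * L c x y = (L b * L c).trace := by
    simp only [Matrix.trace, Matrix.diag, Matrix.mul_apply]
  rw [h2, trace_LL hL]
  split_ifs
  · rw [inv_mul_cancel₀ hM]
  · rw [mul_zero]

section U

variable {U : Type} [Fintype U] [DecidableEq U]

theorem contraction_mem {t s : MixedForm K B M Unit U} (ht : t ∈ 𝒜.A Unit U)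
    (hs : s ∈ 𝒜.A Unit U) : (fun J _ => contraction t s (J (Sum.inl ())) (J (Sum.inr ())) :
      MixedForm K B M (Unit ⊕ Unit) Empty) ∈ 𝒜.A (Unit ⊕ Unit) Empty := by
  have a1 : (fun J Q => t (J ∘ Sum.inl) (Q ∘ Sum.inr) :
      MixedForm K B M (Unit ⊕ Empty) (Empty ⊕ U)) ∈ 𝒜.A (Unit ⊕ Empty) (Empty ⊕ U) :=
    ren (Equiv.sumEmpty Unit Empty).symm (Equiv.emptySum Empty U).symm ht fun J Q => rfl
  have a2 : (fun J Q => s (J ∘ Sum.inr) (Q ∘ Sum.inl) :
      MixedForm K B M (Empty ⊕ Unit) (U ⊕ Empty)) ∈ 𝒜.A (Empty ⊕ Unit) (U ⊕ Empty) :=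
    ren (Equiv.emptySum Empty Unit).symm (Equiv.sumEmpty U Empty).symm hs fun J Q => rfl
  have a3 : (fun J _ => contraction t s (J (Sum.inl ())) (J (Sum.inr ())) :
      MixedForm K B M (Unit ⊕ Unit) (Empty ⊕ Empty)) ∈ 𝒜.A (Unit ⊕ Unit) (Empty ⊕ Empty) := by
    refine cmp a1 a2 fun J Q => ?_
    rw [sum_empty_fun]
    rfl
  exact ren (Equiv.refl _) (Equiv.sumEmpty Empty Empty) a3 fun J Q => rfl

theorem contraction_rel {t s : MixedForm K B M Unit U}
    (hk : MixedKilled κ L (fun J _ => contraction t s (J (Sum.inl ())) (J (Sum.inr ())) :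
      MixedForm K B M (Unit ⊕ Unit) Empty)) {u v : B} (hκ : κ u = κ v) (huv : u ≠ v) (a b : B) :
    2 * (((if a = v then contraction t s u b else 0) - (if a = u then contraction t s v b else 0)) +
      ((if b = v then contraction t s a u else 0) - (if b = u then contraction t s a v else 0))) =
      0 := by
  have h := hk u v hκ huv (Sum.elim (fun _ => a) (fun _ => b)) Empty.elim
  rw [Finset.univ_eq_empty (α := Empty), Finset.sum_empty, add_zero, Fintype.sum_sum_type] at h
  simp only [Finset.univ_unique, Finset.sum_singleton, Sum.update_elim_inl, Sum.update_elim_inr,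
    Sum.elim_inl, Sum.elim_inr] at h
  have e1 : ∀ c x : B, update (fun _ : Unit => c) default x () = x := fun c x => by
    rw [show (() : Unit) = default from rfl, update_self]
  simp only [e1] at h
  exact h

theorem contraction_scalar [CharZero K] [DecidableEq ι] {i : ι}
    (hodd : Odd (univ.filter fun b => κ b = i).card) {t s : MixedForm K B M Unit U}
    (hk : MixedKilled κ L (fun J _ => contraction t s (J (Sum.inl ())) (J (Sum.inr ())) :
      MixedForm K B M (Unit ⊕ Unit) Empty)) : ∃ c : K, ∀ a b, κ a = i → κ b = i →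
      contraction t s a b = if a = b then c else 0 := by
  obtain ⟨k, hc⟩ := hodd
  obtain ⟨b0, hb0⟩ := Finset.card_pos.1 (by omega : 0 < (univ.filter fun b => κ b = i).card)
  rw [Finset.mem_filter] at hb0
  have hdiag : ∀ a, κ a = i → contraction t s a a = contraction t s b0 b0 := by
    intro a ha
    by_cases h : a = b0
    · rw [h]
    · have h1 := contraction_rel hk (hb0.2.trans ha.symm) (Ne.symm h) b0 a
      simp only [if_neg (Ne.symm h), if_true, if_neg h] at h1
      have h2 := (mul_eq_zero.1 h1).resolve_left two_ne_zero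
      linear_combination -h2
  refine ⟨contraction t s b0 b0, fun a b ha hb => ?_⟩
  by_cases hab : a = b
  · subst hab
    rw [if_pos rfl, hdiag a ha]
  · rw [if_neg hab]
    have h1 : ({a, b} : Finset B).card < (univ.filter fun b => κ b = i).card := by
      have h2 : ({a, b} : Finset B).card ≤ (univ.filter fun b => κ b = i).card := by
        refine Finset.card_le_card ?_
        intro x hx
        simp only [Finset.mem_insert, Finset.mem_singleton] at hx
        rw [Finset.mem_filter]
        rcases hx with rfl | rfl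
        · exact ⟨Finset.mem_univ _, ha⟩
        · exact ⟨Finset.mem_univ _, hb⟩
      rw [Finset.card_pair hab] at h2 ⊢
      omega
    obtain ⟨v, hv, hv2⟩ := Finset.exists_mem_notMem_of_card_lt_card h1
    rw [Finset.mem_filter] at hv
    simp only [Finset.mem_insert, Finset.mem_singleton, not_or] at hv2
    have h3 := contraction_rel hk (ha.trans hv.2.symm) (Ne.symm hv2.1) v b
    simp only [if_true, if_neg hv2.1, if_neg (Ne.symm hv2.2), if_neg (Ne.symm hab), sub_zero,
      add_zero] at h3
    exact (mul_eq_zero.1 h3).resolve_left two_ne_zero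

end U

theorem motivated_of_some [CharZero K] [DecidableEq ι] (hH : AlgebraicIsHodge κ L 𝒜)
    (hodd : ∀ i, (∃ b, κ b = i) → Odd (univ.filter fun b => κ b = i).card)
    (hP : ∀ i, blockForm K M κ i ∈ 𝒜.A Bool Empty) (hN : NumericalIsHomological 𝒜)
    (h : HasSomeCorrespondence κ 𝒜) : IsMotivated κ 𝒜 := by
  intro i
  by_cases hi : ∃ b, κ b = i
  · obtain ⟨b0, hb0⟩ := hi
    obtain ⟨U, i1, i2, t, ht, c, hc, Q0, hne⟩ := h b0
    rw [hb0] at hc
    have a0 : (fun J Q => if κ (J (Sum.inl ())) = i then t (J ∘ Sum.inl) Q else 0 :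
        MixedForm K B M (Unit ⊕ Empty) U) ∈ 𝒜.A (Unit ⊕ Empty) U := by
      refine restrict_first (hP i) (f := fun J Q => t (J ∘ Sum.inl) Q) ?_
      exact ren (Equiv.sumEmpty Unit Empty).symm (Equiv.refl U) ht fun J Q => rfl
    have ht' : (fun J Q => if κ (J ()) = i then t J Q else 0 : MixedForm K B M Unit U) ∈
        𝒜.A Unit U := ren (Equiv.sumEmpty Unit Empty) (Equiv.refl U) a0 fun J Q => rfl
    set t' : MixedForm K B M Unit U := fun J Q => if κ (J ()) = i then t J Q else 0 with ht'd
    have hne' : t' ≠ 0 := by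
      intro h0
      have h1 := congrFun (congrFun h0 (fun _ => c)) Q0
      simp only [ht'd, hc, if_true] at h1
      exact hne h1
    obtain ⟨s, hs, hsum⟩ := hN U t' ht' hne'
    obtain ⟨x, hx⟩ := contraction_scalar (κ := κ) (L := L) (hodd i ⟨b0, hb0⟩)
      (hH _ _ _ (contraction_mem ht' hs))
    have hz : ∀ b, ¬ κ b = i → contraction t' s b b = 0 := by
      intro b hb
      unfold contraction
      refine Finset.sum_eq_zero fun Q _ => ?_
      simp only [ht'd, if_neg hb, zero_mul]
    have hx0 : x ≠ 0 := by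
      intro h0
      refine hsum (Finset.sum_eq_zero fun b _ => ?_)
      by_cases hb : κ b = i
      · rw [hx b b hb hb, if_pos rfl, h0]
      · exact hz b hb
    refine ⟨U, i1, i2, x⁻¹ • t', Submodule.smul_mem _ _ ht', s, hs, fun b d hb hd => ?_⟩
    have h5 : contraction (x⁻¹ • t') s b d = x⁻¹ * contraction t' s b d := by
      unfold contraction
      rw [Finset.mul_sum]
      refine Finset.sum_congr rfl fun Q _ => ?_
      simp only [Pi.smul_apply, smul_eq_mul]
      ring
    rw [h5, hx b d hb hd]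
    split_ifs
    · rw [inv_mul_cancel₀ hx0]
    · rw [mul_zero]
  · exact ⟨Empty, inferInstance, inferInstance, 0, Submodule.zero_mem _, 0,
      Submodule.zero_mem _, fun b c hb _ => absurd ⟨b, hb⟩ hi⟩

/-- **Main theorem.** -/
theorem motivated_iff [CharZero K] [Fintype ι] [DecidableEq ι] [Nonempty M] (hL : IsClifford L)
    (hH : AlgebraicIsHodge κ L 𝒜) (hE : EndomorphismsAlgebraic κ L 𝒜)
    (hodd : ∀ i, (∃ b, κ b = i) → Odd (univ.filter fun b => κ b = i).card)
    (hP : SquareAlgebraic κ 𝒜) :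
    (IsMotivated κ 𝒜 ↔ KugaSatakeAlgebraic L 𝒜) ∧
    (IsMotivated κ 𝒜 ↔ AllAlgebraic κ L 𝒜) ∧
    (NumericalIsHomological 𝒜 → (IsMotivated κ 𝒜 ↔ HasSomeCorrespondence κ 𝒜)) := by
  have h1 : IsMotivated κ 𝒜 → KugaSatakeAlgebraic L 𝒜 := ks_of_motivated hL hH hE hodd hP
  have h2 : KugaSatakeAlgebraic L 𝒜 → AllAlgebraic κ L 𝒜 := fun h S U _ _ _ _ t ht =>
    all_mem hL hE h _ S U rfl t ht
  have h3 : AllAlgebraic κ L 𝒜 → KugaSatakeAlgebraic L 𝒜 := fun h =>
    h Unit Unit _ (killed_ks hL)
  refine ⟨⟨h1, motivated_of_ks hL⟩, ⟨fun h => h2 (h1 h), fun h => motivated_of_ks hL (h3 h)⟩,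
    fun hN => ⟨fun h => ?_, motivated_of_some hH hodd hP hN⟩⟩
  intro b
  refine ⟨Unit, inferInstance, inferInstance, _, h1 h, b, rfl, ?_⟩
  by_contra h0
  have h4 : L b = 0 := by
    ext n m
    by_contra h5
    exact h0 ⟨fun _ => (m, n), h5⟩
  have h5 := hL.1 b
  rw [h4, Matrix.mul_zero] at h5
  exact zero_ne_one h5

end Pool.Agent.R918.KS
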