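import Pool.Agent.R914.K3P.KSDefs

/-!
# Algebraic classes on the powers of a Kuga-Satake variety: definitions

In the intended use `K` is the Kuga-Satake variety of a Hodge structure `T` of K3 type whose
endomorphism field `E` is totally real, and `H = H ^ 1 (K, ℂ)`, with a basis `M`. The space `T ⊗ ℂ` is
the orthogonal direct sum of the eigenspaces of `E`; it has an orthonormal basis `B` of eigenvectors,
and the map `κ` tells to which eigenspace a basis vector belongs. The Clifford algebra of `T` acts on
`H` by the matrices `L b`.
-/

open Finset Function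

universe u

namespace Pool.Agent.R918.KS

open Pool.Agent.R914.K3P

/-- The multilinear forms in matrices `X_j` of size `M` (`j` in `U`), given by their values on the
elementary matrices. -/
abbrev EndForm (K : Type u) (M U : Type) : Type u := (U → M × M) → K

variable {K : Type u} [Field K] {B ι M : Type} [Fintype B] [DecidableEq B] [Fintype M]
  [DecidableEq M]

/-- The form is killed by the Lie algebras `so(V i)` of the blocks, which act on the matrices by
`X ↦ L u L v X - X L u L v`, for different basis vectors `u`, `v` of the same block. -/
def EndKilled (κ : B → ι) (L : B → Matrix M M K) {U : Type} [Fintype U] [DecidableEq U]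
    (t : EndForm K M U) : Prop :=
  ∀ u v : B, κ u = κ v → u ≠ v → ∀ Q : U → M × M,
    ∑ w, ∑ p, ((L u * L v) p (Q w).1 * t (update Q w (p, (Q w).2)) -
      (L u * L v) (Q w).2 p * t (update Q w ((Q w).1, p))) = 0

/-- The composition: the variables in `D` are contracted by the trace form `tr (X Y)`. -/
def endComp {U D U' : Type} [Fintype D] [DecidableEq D] (t : EndForm K M (U ⊕ D))
    (s : EndForm K M (D ⊕ U')) : EndForm K M (U ⊕ U') := fun Q =>
  ∑ R : D → M × M, t (Sum.elim (Q ∘ Sum.inl) R) * s (Sum.elim (Prod.swap ∘ R) (Q ∘ Sum.inr))

/-- The form `tr (X Y Z)` in three matrices. -/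
def endTraceThree (K : Type u) [Field K] (M : Type) [DecidableEq M] : EndForm K M (Fin 3) :=
  fun Q => if (Q 0).2 = (Q 1).1 ∧ (Q 1).2 = (Q 2).1 ∧ (Q 2).2 = (Q 0).1 then 1 else 0

/-- The spaces `A U` of forms are stable under renaming of the variables. -/
def EndStableUnderRenaming (A : ∀ U : Type, Submodule K (EndForm K M U)) : Prop :=
  ∀ {U U' : Type} [Finite U] [Finite U'] (f : U ≃ U') (t : EndForm K M U), t ∈ A U →
    (fun Q => t (Q ∘ f) : EndForm K M U') ∈ A U'

/-- The spaces `A U` of forms are stable under composition. -/
def EndStableUnderComposition (A : ∀ U : Type, Submodule K (EndForm K M U)) : Prop :=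
  ∀ {U D U' : Type} [Finite U] [Fintype D] [DecidableEq D] [Finite U']
    (t : EndForm K M (U ⊕ D)) (s : EndForm K M (D ⊕ U')), t ∈ A (U ⊕ D) → s ∈ A (D ⊕ U') →
    endComp t s ∈ A (U ⊕ U')

/-- A system of spaces of forms `A U` in matrix variables `U` which contains the constants and the form
`tr (X Y Z)` and is stable under renaming of the variables and under composition. In the intended use
`A U` is the space of linear combinations, with complex coefficients, of the classes in
`End(H) ^ ⊗ U` of algebraic cycles on the powers of `K`. -/
structure EndSystem (K : Type u) [Field K] (M : Type) [Fintype M] [DecidableEq M] where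
  /-- the spaces -/
  A : ∀ U : Type, Submodule K (EndForm K M U)
  const : (fun _ => 1 : EndForm K M Empty) ∈ A Empty
  trace : endTraceThree K M ∈ A (Fin 3)
  rename : EndStableUnderRenaming A
  comp : EndStableUnderComposition A

/-- The form `tr (Z X)` in one matrix. -/
def endForm (Z : Matrix M M K) : EndForm K M Unit := fun Q => Z (Q ()).2 (Q ()).1

/-- The endomorphisms are algebraic: the system contains the forms `tr (Z X)` for all matrices `Z`
which commute with the Lie algebras of the blocks. -/
def EndAlgebraic (κ : B → ι) (L : B → Matrix M M K) (𝒜 : EndSystem K M) : Prop :=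
  ∀ Z, IsEnd κ L Z → endForm Z ∈ 𝒜.A Unit

/-- The Hodge conjecture for the powers of `K`: all forms killed by the Lie algebras are
algebraic. -/
def EndAllAlgebraic (κ : B → ι) (L : B → Matrix M M K) (𝒜 : EndSystem K M) : Prop :=
  ∀ (U : Type) [Fintype U] [DecidableEq U] (t : EndForm K M U), EndKilled κ L t → t ∈ 𝒜.A U

/-- The form `∑ b, tr (L b X) tr (L b Y)` in two matrices. -/
def casimirForm (L : B → Matrix M M K) : EndForm K M Bool := fun Q =>
  ∑ b, L b (Q true).2 (Q true).1 * L b (Q false).2 (Q false).1

end Pool.Agent.R918.KS
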