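import Pool.Agent.R918.KsMot2Defs
import Pool.Agent.R918.KsEndDefs

/-!
# The Kuga-Satake variety as a factor of an abelian variety: definitions

In the intended use `A'` is any abelian variety which has the Kuga-Satake variety `K` as a factor up to
isogeny, `H ^ 1 (A', ℂ)` is the sum of the part of basis `M` on which the Lie algebras `so(T_σ)` act by
multiples of the spin representations (it contains `H ^ 1 (K, ℂ)`), and of the part of basis `N` on
which they act by zero.
-/

open Function

universe u

namespace Pool.Agent.R918.KS

open Pool.Agent.R914.K3P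

variable {K : Type u} [Field K] {B ι M : Type} [Fintype B] [DecidableEq B] [Fintype M]
  [DecidableEq M] (N : Type) [Fintype N] [DecidableEq N]

/-- the matrix `Z` of size `M` as a matrix of size `M ⊕ N` -/
def corner (Z : Matrix M M K) : Matrix (M ⊕ N) (M ⊕ N) K := Matrix.fromBlocks Z 0 0 0

/-- The extension of a form in matrices of size `M` to a form in matrices of size `M ⊕ N`, which
depends only on their blocks of size `M`. -/
noncomputable def extendForm {S U : Type} (t : MixedForm K B M S U) :
    MixedForm K B (M ⊕ N) S U := fun J =>
  Function.extend (fun (Q : U → M × M) w => (Sum.inl (Q w).1, Sum.inl (Q w).2)) (t J) 0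

variable {N}

/-- The endomorphisms of the factor are algebraic. -/
def CornerEndomorphismsAlgebraic (κ : B → ι) (L : B → Matrix M M K)
    (𝒜 : MixedSystem K B (M ⊕ N)) : Prop :=
  ∀ Z, IsEnd κ L Z → matrixForm (fun _ : Empty → B => corner N Z) ∈ 𝒜.A Empty Unit

/-- All Hodge (or Tate) classes on the powers of the factor are algebraic. -/
def CornerAllAlgebraic (κ : B → ι) (L : B → Matrix M M K) (𝒜 : MixedSystem K B (M ⊕ N)) : Prop :=
  ∀ (U : Type) [Fintype U] [DecidableEq U] (t : EndForm K M U), EndKilled κ L t →
    extendForm N (fun (_ : Empty → B) Q => t Q) ∈ 𝒜.A Empty U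

end Pool.Agent.R918.KS
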