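import Pool.Agent.R918.Ks13
import Pool.Agent.R918.KsCornerDefs

set_option autoImplicit false
set_option linter.unusedSectionVars false

/-!
# The corner system
-/

open Finset Function Kronecker

universe u

namespace Pool.Agent.R918.KS

open Pool.Agent.R914.K3P

variable {K : Type u} [Field K] {B ι M N : Type} [Fintype B] [DecidableEq B] [Fintype M]
  [DecidableEq M] [Fintype N] [DecidableEq N] {κ : B → ι} {L : B → Matrix M M K}

/-- the inclusion of the indices -/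
def emb (N : Type) {U : Type} (Q : U → M × M) : U → (M ⊕ N) × (M ⊕ N) :=
  fun w => (Sum.inl (Q w).1, Sum.inl (Q w).2)

theorem emb_inj {U : Type} : Injective (emb N : (U → M × M) → _) := by
  intro Q Q' h
  funext w
  have h1 := congrFun h w
  simp only [emb, Prod.mk.injEq, Sum.inl.injEq] at h1
  exact Prod.ext h1.1 h1.2

theorem ext_emb {S U : Type} (t : MixedForm K B M S U) (J : S → B) (Q : U → M × M) :
    extendForm N t J (emb N Q) = t J Q := emb_inj.extend_apply _ _ _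

theorem ext_not {S U : Type} (t : MixedForm K B M S U) (J : S → B) {Q : U → (M ⊕ N) × (M ⊕ N)}
    (h : ¬ ∃ Q', emb N Q' = Q) : extendForm N t J Q = 0 := Function.extend_apply' _ _ _ h

theorem ext_zero {S U : Type} : extendForm N (0 : MixedForm K B M S U) = 0 := by
  funext J Q
  by_cases h : ∃ Q', emb N Q' = Q
  · obtain ⟨Q', rfl⟩ := h
    rw [ext_emb]; rfl
  · rw [ext_not _ _ h]; rfl

theorem ext_add {S U : Type} (t s : MixedForm K B M S U) :
    extendForm N (t + s) = extendForm N t + extendForm N s := by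
  funext J Q
  by_cases h : ∃ Q', emb N Q' = Q
  · obtain ⟨Q', rfl⟩ := h
    rw [Pi.add_apply, Pi.add_apply, ext_emb, ext_emb, ext_emb]; rfl
  · rw [Pi.add_apply, Pi.add_apply, ext_not _ _ h, ext_not _ _ h, ext_not _ _ h, add_zero]

theorem ext_smul {S U : Type} (c : K) (t : MixedForm K B M S U) :
    extendForm N (c • t) = c • extendForm N t := by
  funext J Q
  by_cases h : ∃ Q', emb N Q' = Q
  · obtain ⟨Q', rfl⟩ := h
    rw [Pi.smul_apply, Pi.smul_apply, ext_emb, ext_emb]; rfl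
  · rw [Pi.smul_apply, Pi.smul_apply, ext_not _ _ h, ext_not _ _ h, smul_zero]

/-- the indicator function of `M` -/
def lam (K : Type u) [Field K] (p : M ⊕ N) : K := Sum.elim (fun _ => 1) (fun _ => 0) p

theorem ext_eq {S U : Type} [Fintype U] (f : MixedForm K B (M ⊕ N) S U) :
    extendForm N (fun J Q => f J (emb N Q)) = fun J Q =>
      (∏ w, (lam K (Q w).1 * lam K (Q w).2)) * f J Q := by
  funext J Q
  by_cases h : ∃ Q', emb N Q' = Q
  · obtain ⟨Q', rfl⟩ := h
    rw [ext_emb, Finset.prod_eq_one, one_mul]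
    intro w _
    simp [lam, emb]
  · rw [ext_not _ _ h]
    have h1 : ∃ w, lam K (Q w).1 * lam K (Q w).2 = 0 := by
      by_contra h2
      rw [not_exists] at h2
      have h3 : ∀ w, ∃ x : M × M, (Sum.inl x.1, Sum.inl x.2) = Q w := by
        intro w
        have h4 := h2 w
        rcases h5 : Q w with ⟨a, b⟩
        rw [h5] at h4
        rcases a with a | a
        · rcases b with b | b
          · exact ⟨(a, b), rfl⟩
          · exact absurd (by simp [lam]) h4
        · exact absurd (by simp [lam]) h4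
      choose x hx using h3
      exact h ⟨x, funext hx⟩
    obtain ⟨w, hw⟩ := h1
    rw [Finset.prod_eq_zero (Finset.mem_univ w) hw, zero_mul]

section sys

variable {𝒜 : MixedSystem K B (M ⊕ N)}

/-- the form `tr (F X Y)` -/
theorem left_mem {P S : Type} [Fintype P] [DecidableEq P] {𝒜 : MixedSystem K B P} [Finite S]
    {F : (S → B) → Matrix P P K}
    (hF : matrixForm F ∈ 𝒜.A S Unit) : (fun J Q => F J (Q (Sum.inr ())).2 (Q (Sum.inl ())).1 *
      (if (Q (Sum.inl ())).2 = (Q (Sum.inr ())).1 then 1 else 0) :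
      MixedForm K B P S (Unit ⊕ Unit)) ∈ 𝒜.A S (Unit ⊕ Unit) := by
  have a1 : (fun J Q => matrixForm F (J ∘ Sum.inl) (Q ∘ Sum.inr) :
      MixedForm K B P (S ⊕ Empty) (Empty ⊕ Unit)) ∈ 𝒜.A (S ⊕ Empty) (Empty ⊕ Unit) :=
    ren (Equiv.sumEmpty S Empty).symm (Equiv.emptySum Empty Unit).symm hF fun J Q => rfl
  have a2 : (fun J Q => traceThree K B P (fun x => x.elim)
      ![Q (Sum.inl ()), Q (Sum.inr (Sum.inl ())), Q (Sum.inr (Sum.inr ()))] :
      MixedForm K B P (Empty ⊕ Empty) (Unit ⊕ (Unit ⊕ Unit))) ∈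
      𝒜.A (Empty ⊕ Empty) (Unit ⊕ (Unit ⊕ Unit)) := by
    refine ren (Equiv.sumEmpty Empty Empty).symm
      (⟨fun i => ![Sum.inl (), Sum.inr (Sum.inl ()), Sum.inr (Sum.inr ())] i,
        fun x => Sum.elim (fun _ => 0) (Sum.elim (fun _ => 1) (fun _ => 2)) x,
        fun i => by fin_cases i <;> rfl,
        fun x => by rcases x with x | x | x <;> rfl⟩ : Fin 3 ≃ Unit ⊕ (Unit ⊕ Unit))
      𝒜.trace fun J Q => ?_
    congr 1
    · funext x; exact x.elim
    · funext i; fin_cases i <;> rfl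
  have a3 : (fun J Q => F (J ∘ Sum.inl) (Q (Sum.inr (Sum.inr ()))).2
      (Q (Sum.inr (Sum.inl ()))).1 *
      (if (Q (Sum.inr (Sum.inl ()))).2 = (Q (Sum.inr (Sum.inr ()))).1 then 1 else 0) :
      MixedForm K B P (S ⊕ Empty) (Empty ⊕ (Unit ⊕ Unit))) ∈
      𝒜.A (S ⊕ Empty) (Empty ⊕ (Unit ⊕ Unit)) := by
    refine cmp a1 a2 fun J Q => ?_
    rw [sum_empty_fun, sum_unit_fun, Fintype.sum_eq_single
      ((Q (Sum.inr (Sum.inl ()))).1, (Q (Sum.inr (Sum.inr ()))).2)]
    · simp only [matrixForm, traceThree, comp_apply, Sum.elim_inr, Sum.elim_inl, Prod.swap,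
        Matrix.cons_val_zero, Matrix.cons_val_one, Matrix.cons_val]
      simp
    · intro R hR
      simp only [matrixForm, traceThree, comp_apply, Sum.elim_inr, Sum.elim_inl, Prod.swap,
        Matrix.cons_val_zero, Matrix.cons_val_one, Matrix.cons_val]
      rw [if_neg, mul_zero]
      rintro ⟨h1, -, h3⟩
      exact hR (Prod.ext h1 h3.symm)
  exact ren (Equiv.sumEmpty S Empty) (Equiv.emptySum Empty (Unit ⊕ Unit)) a3 fun J Q => rfl

theorem corner_one (p q : M ⊕ N) : (corner N (1 : Matrix M M K)) p q =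
    if p = q then lam K p else 0 := by
  rcases p with p | p <;> rcases q with q | q <;> simp [corner, lam, Matrix.one_apply]

/-- the form `tr (e X e Y)` -/
theorem eps_mem (h1 : matrixForm (fun _ : Empty → B => corner N (1 : Matrix M M K)) ∈
    𝒜.A Empty Unit) : (fun _ Q => (corner N (1 : Matrix M M K)) (Q (Sum.inr ())).2
      (Q (Sum.inl ())).1 * (corner N (1 : Matrix M M K)) (Q (Sum.inl ())).2 (Q (Sum.inr ())).1 :
      MixedForm K B (M ⊕ N) Empty (Unit ⊕ Unit)) ∈ 𝒜.A Empty (Unit ⊕ Unit) := by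
  have b0 := left_mem h1
  have b1 : (fun _ Q => (corner N (1 : Matrix M M K)) (Q (Sum.inr ())).2 (Q (Sum.inl ())).1 *
      (if (Q (Sum.inl ())).2 = (Q (Sum.inr ())).1 then 1 else 0) :
      MixedForm K B (M ⊕ N) (Empty ⊕ Empty) (Unit ⊕ Unit)) ∈ 𝒜.A (Empty ⊕ Empty) (Unit ⊕ Unit) :=
    ren (Equiv.sumEmpty Empty Empty).symm (Equiv.refl _) b0 fun J Q => rfl
  have b2 : (fun _ Q => (corner N (1 : Matrix M M K)) (Q (Sum.inl ())).2 (Q (Sum.inr ())).1 *
      (if (Q (Sum.inr ())).2 = (Q (Sum.inl ())).1 then 1 else 0) :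
      MixedForm K B (M ⊕ N) (Empty ⊕ Empty) (Unit ⊕ Unit)) ∈ 𝒜.A (Empty ⊕ Empty) (Unit ⊕ Unit) :=
    ren (Equiv.sumEmpty Empty Empty).symm (Equiv.sumComm _ _) b0 fun J Q => rfl
  have b3 : (fun _ Q => (corner N (1 : Matrix M M K)) (Q (Sum.inr ())).2 (Q (Sum.inl ())).1 *
      (corner N (1 : Matrix M M K)) (Q (Sum.inl ())).2 (Q (Sum.inr ())).1 :
      MixedForm K B (M ⊕ N) (Empty ⊕ Empty) (Unit ⊕ Unit)) ∈
      𝒜.A (Empty ⊕ Empty) (Unit ⊕ Unit) := by
    refine cmp b1 b2 fun J Q => ?_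
    rw [sum_empty_fun, sum_unit_fun, Fintype.sum_eq_single
      ((Q (Sum.inl ())).2, (Q (Sum.inr ())).2)]
    · simp only [comp_apply, Sum.elim_inr, Sum.elim_inl, Prod.swap]
      simp
    · intro R hR
      simp only [comp_apply, Sum.elim_inr, Sum.elim_inl, Prod.swap]
      by_cases h2 : (Q (Sum.inl ())).2 = R.1
      · by_cases h3 : (Q (Sum.inr ())).2 = R.2
        · exact (hR (Prod.ext h2.symm h3.symm)).elim
        · rw [if_neg h3, mul_zero, mul_zero]
      · rw [if_neg h2, mul_zero, zero_mul]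
  exact ren (Equiv.sumEmpty Empty Empty) (Equiv.refl _) b3 fun J Q => rfl

/-- compression of one variable -/
theorem var_mem (h1 : matrixForm (fun _ : Empty → B => corner N (1 : Matrix M M K)) ∈
    𝒜.A Empty Unit) {S U : Type} [Finite S] [Finite U] {f : MixedForm K B (M ⊕ N) S (Unit ⊕ U)}
    (hf : f ∈ 𝒜.A S (Unit ⊕ U)) : (fun J Q => lam K (Q (Sum.inl ())).1 * lam K (Q (Sum.inl ())).2 *
      f J Q : MixedForm K B (M ⊕ N) S (Unit ⊕ U)) ∈ 𝒜.A S (Unit ⊕ U) := by
  have b1 : (fun J Q => f (J ∘ Sum.inl) (Q ∘ Equiv.sumComm _ _) :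
      MixedForm K B (M ⊕ N) (S ⊕ Empty) (U ⊕ Unit)) ∈ 𝒜.A (S ⊕ Empty) (U ⊕ Unit) :=
    ren (Equiv.sumEmpty S Empty).symm (Equiv.sumComm _ _) hf fun J Q => rfl
  have b2 : (fun _ Q => (corner N (1 : Matrix M M K)) (Q (Sum.inr ())).2 (Q (Sum.inl ())).1 *
      (corner N (1 : Matrix M M K)) (Q (Sum.inl ())).2 (Q (Sum.inr ())).1 :
      MixedForm K B (M ⊕ N) (Empty ⊕ Empty) (Unit ⊕ Unit)) ∈ 𝒜.A (Empty ⊕ Empty) (Unit ⊕ Unit) :=
    ren (Equiv.sumEmpty Empty Empty).symm (Equiv.refl _) (eps_mem h1) fun J Q => rfl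
  have b3 : (fun J Q => lam K (Q (Sum.inr ())).1 * lam K (Q (Sum.inr ())).2 *
      f (J ∘ Sum.inl) (Q ∘ Equiv.sumComm _ _) :
      MixedForm K B (M ⊕ N) (S ⊕ Empty) (U ⊕ Unit)) ∈ 𝒜.A (S ⊕ Empty) (U ⊕ Unit) := by
    refine cmp b1 b2 fun J Q => ?_
    rw [sum_empty_fun, sum_unit_fun, Fintype.sum_eq_single (Q (Sum.inr ()))]
    · simp only [corner_one, comp_apply, Sum.elim_inr, Sum.elim_inl, Prod.swap, if_true]
      have e : (Sum.elim (Q ∘ Sum.inl) fun _ : Unit => Q (Sum.inr ())) = Q := by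
        funext x
        rcases x with x | x <;> rfl
      rw [e]
      have e2 : (Sum.elim (fun x => J (Sum.inl x)) Empty.elim) ∘ Sum.inl = J ∘ Sum.inl := rfl
      have e3 : (Sum.elim (J ∘ Sum.inl) Empty.elim) ∘ Sum.inl = J ∘ Sum.inl := rfl
      rw [e3]
      ring
    · intro R hR
      simp only [corner_one, comp_apply, Sum.elim_inr, Sum.elim_inl, Prod.swap]
      by_cases h2 : (Q (Sum.inr ())).2 = R.2
      · by_cases h3 : R.1 = (Q (Sum.inr ())).1
        · exact absurd (Prod.ext h3 h2.symm) hR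
        · rw [if_neg h3, mul_zero, mul_zero]
      · rw [if_neg h2, zero_mul, mul_zero]
  refine ren (Equiv.sumEmpty S Empty) (Equiv.sumComm _ _) b3 fun J Q => ?_
  congr 2
  funext x
  rcases x with x | x <;> rfl

theorem trace_corner (h1 : matrixForm (fun _ : Empty → B => corner N (1 : Matrix M M K)) ∈
    𝒜.A Empty Unit) : extendForm N (traceThree K B M) ∈ 𝒜.A Empty (Fin 3) := by
  -- three variables
  let e3 : Fin 3 ≃ Unit ⊕ (Unit ⊕ Unit) :=
    ⟨fun i => ![Sum.inl (), Sum.inr (Sum.inl ()), Sum.inr (Sum.inr ())] i,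
        fun x => Sum.elim (fun _ => 0) (Sum.elim (fun _ => 1) (fun _ => 2)) x,
        fun i => by fin_cases i <;> rfl,
        fun x => by rcases x with x | x | x <;> rfl⟩
  let rot : Unit ⊕ (Unit ⊕ Unit) ≃ Unit ⊕ (Unit ⊕ Unit) :=
    ⟨Sum.elim (fun _ => Sum.inr (Sum.inr ())) (Sum.elim (fun _ => Sum.inl ())
        (fun _ => Sum.inr (Sum.inl ()))),
      Sum.elim (fun _ => Sum.inr (Sum.inl ())) (Sum.elim (fun _ => Sum.inr (Sum.inr ()))
        (fun _ => Sum.inl ())),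
      fun x => by rcases x with x | x | x <;> rfl, fun x => by rcases x with x | x | x <;> rfl⟩
  have c0 : (fun J Q => traceThree K B (M ⊕ N) J (Q ∘ e3)) ∈ 𝒜.A Empty (Unit ⊕ (Unit ⊕ Unit)) :=
    ren (Equiv.refl _) e3 𝒜.trace fun J Q => rfl
  have c1 := var_mem h1 c0
  have c2 := ren (𝒜 := 𝒜) (Equiv.refl _) rot c1 (t' := fun J Q => lam K (Q (rot (Sum.inl ()))).1 *
    lam K (Q (rot (Sum.inl ()))).2 * traceThree K B (M ⊕ N) J ((Q ∘ rot) ∘ e3)) fun J Q => rfl
  have c3 := var_mem h1 c2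
  have c4 := ren (𝒜 := 𝒜) (Equiv.refl _) rot c3 (t' := fun J Q => lam K (Q (rot (Sum.inl ()))).1 *
    lam K (Q (rot (Sum.inl ()))).2 * (lam K (Q (rot (rot (Sum.inl ())))).1 *
    lam K (Q (rot (rot (Sum.inl ())))).2 * traceThree K B (M ⊕ N) J (((Q ∘ rot) ∘ rot) ∘ e3)))
    fun J Q => rfl
  have c5 := var_mem h1 c4
  have c6 := ren (𝒜 := 𝒜) (Equiv.refl _) (rot.trans e3.symm) c5
    (t' := extendForm N (traceThree K B M)) ?_
  · exact c6
  · intro J Q
    have e0 : extendForm N (traceThree K B M) = fun J Q =>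
        (∏ w, (lam K (Q w).1 * lam K (Q w).2)) * traceThree K B (M ⊕ N) J Q := by
      rw [← ext_eq]
      congr 1
      funext J Q
      simp only [traceThree, emb, Sum.inl.injEq]
    rw [e0]
    simp only [Fin.prod_univ_three]
    have f0 : (((((Q ∘ (rot.trans e3.symm)) ∘ rot) ∘ rot)) ∘ e3) = Q := by
      funext i
      fin_cases i <;> rfl
    show _ = lam K (Q _).1 * lam K (Q _).2 * (lam K (Q _).1 * lam K (Q _).2 *
      (lam K (Q _).1 * lam K (Q _).2 * traceThree K B (M ⊕ N) J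
        (((((Q ∘ (rot.trans e3.symm)) ∘ rot) ∘ rot)) ∘ e3)))
    rw [f0]
    have g1 : e3.symm (rot (Sum.inl ())) = 2 := rfl
    have g2 : e3.symm (rot (rot (Sum.inl ()))) = 1 := rfl
    have g3 : e3.symm (rot (rot (rot (Sum.inl ())))) = 0 := rfl
    simp only [Equiv.trans_apply, g1, g2, g3]
    ring

end sys

end Pool.Agent.R918.KS
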