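import Pool.Agent.R918.Ks14

set_option autoImplicit false
set_option linter.unusedSectionVars false

/-!
# Main theorem for a factor of an abelian variety
-/

open Finset Function Kronecker

universe u

namespace Pool.Agent.R918.KS

open Pool.Agent.R914.K3P

variable {K : Type u} [Field K] {B ι M N : Type} [Fintype B] [DecidableEq B] [Fintype M]
  [DecidableEq M] [Fintype N] [DecidableEq N] {κ : B → ι} {L : B → Matrix M M K}
  {𝒜 : MixedSystem K B (M ⊕ N)}

theorem elim_emb {U D : Type} (Q : U → M × M) (R : D → M × M) :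
    Sum.elim (emb N Q) (emb N R) = emb N (Sum.elim Q R) := by
  funext x
  rcases x with x | x <;> rfl

theorem swap_emb {D : Type} (R : D → M × M) : Prod.swap ∘ emb N R = emb N (Prod.swap ∘ R) := rfl

theorem ext_comp {S C S' U D U' : Type} [Fintype C] [DecidableEq C] [Fintype D] [DecidableEq D]
    (t : MixedForm K B M (S ⊕ C) (U ⊕ D)) (s : MixedForm K B M (C ⊕ S') (D ⊕ U')) :
    extendForm N (mixedComp t s) = mixedComp (extendForm N t) (extendForm N s) := by
  funext J Q
  by_cases h : ∃ Q', emb N Q' = Q
  · obtain ⟨Q', rfl⟩ := h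
    rw [ext_emb]
    unfold mixedComp
    refine Finset.sum_congr rfl fun I _ => ?_
    refine Fintype.sum_of_injective (emb N) emb_inj _ _ ?_ ?_
    · intro R hR
      rw [ext_not, zero_mul]
      rintro ⟨R', hR'⟩
      refine hR ⟨R' ∘ Sum.inr, ?_⟩
      funext x
      exact congrFun hR' (Sum.inr x)
    · intro R
      have e1 : (emb N Q') ∘ Sum.inl = emb N (Q' ∘ Sum.inl) := rfl
      have e2 : (emb N Q') ∘ Sum.inr = emb N (Q' ∘ Sum.inr) := rfl
      rw [swap_emb, e1, e2, elim_emb, elim_emb, ext_emb, ext_emb]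
  · rw [ext_not _ _ h]
    unfold mixedComp
    symm
    refine Finset.sum_eq_zero fun I _ => Finset.sum_eq_zero fun R _ => ?_
    by_cases h1 : ∃ Q', emb N Q' = Sum.elim (Q ∘ Sum.inl) R
    · by_cases h2 : ∃ Q', emb N Q' = Sum.elim (Prod.swap ∘ R) (Q ∘ Sum.inr)
      · exfalso
        obtain ⟨Q1, hQ1⟩ := h1
        obtain ⟨Q2, hQ2⟩ := h2
        refine h ⟨Sum.elim (Q1 ∘ Sum.inl) (Q2 ∘ Sum.inr), ?_⟩
        funext x
        rcases x with x | x
        · exact congrFun hQ1 (Sum.inl x)
        · exact congrFun hQ2 (Sum.inr x)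
      · rw [ext_not s _ h2, mul_zero]
    · rw [ext_not t _ h1, zero_mul]

/-- the system of the factor -/
def cornerSys (𝒜 : MixedSystem K B (M ⊕ N))
    (h1 : matrixForm (fun _ : Empty → B => corner N (1 : Matrix M M K)) ∈ 𝒜.A Empty Unit) :
    MixedSystem K B M where
  A S U :=
    { carrier := {t | extendForm N t ∈ 𝒜.A S U}
      zero_mem' := by rw [Set.mem_setOf_eq, ext_zero]; exact Submodule.zero_mem _
      add_mem' := fun {a b} ha hb => by
        rw [Set.mem_setOf_eq, ext_add]; exact Submodule.add_mem _ ha hb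
      smul_mem' := fun c a ha => by
        rw [Set.mem_setOf_eq, ext_smul]; exact Submodule.smul_mem _ _ ha }
  const := by
    show extendForm N _ ∈ 𝒜.A Empty Empty
    refine mem_congr 𝒜.const ?_
    funext J Q
    rw [show Q = emb N (fun x : Empty => x.elim) from funext fun x => x.elim, ext_emb]
  scalar := by
    show extendForm N _ ∈ 𝒜.A Bool Empty
    refine mem_congr 𝒜.scalar ?_
    funext J Q
    rw [show Q = emb N (fun x : Empty => x.elim) from funext fun x => x.elim, ext_emb]
  trace := trace_corner h1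
  rename {S S' U U'} _ _ _ _ e f t ht := by
    refine ren e f ht fun J Q => ?_
    by_cases h : ∃ Q', emb N Q' = Q
    · obtain ⟨Q', rfl⟩ := h
      have e1 : emb N Q' ∘ f = emb N (Q' ∘ f) := rfl
      rw [ext_emb, e1, ext_emb]
    · rw [ext_not _ _ h, ext_not]
      rintro ⟨Q', hQ'⟩
      refine h ⟨Q' ∘ f.symm, ?_⟩
      funext x
      have h2 := congrFun hQ' (f.symm x)
      simp only [comp_apply, Equiv.apply_symm_apply] at h2
      exact h2
  comp {S C S' U D U'} _ _ _ _ _ _ _ _ t s ht hs := by
    show extendForm N (mixedComp t s) ∈ 𝒜.A (S ⊕ S') (U ⊕ U')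
    rw [ext_comp]
    exact 𝒜.comp _ _ ht hs

theorem mem_cornerSys {h1 : matrixForm (fun _ : Empty → B => corner N (1 : Matrix M M K)) ∈
    𝒜.A Empty Unit} {S U : Type} {t : MixedForm K B M S U} :
    t ∈ (cornerSys 𝒜 h1).A S U ↔ extendForm N t ∈ 𝒜.A S U := Iff.rfl

theorem corner_mul (X Y : Matrix M M K) : corner N X * corner N Y = corner N (X * Y) := by
  unfold corner
  rw [Matrix.fromBlocks_multiply]
  simp

theorem update_emb {U : Type} [DecidableEq U] (Q : U → M × M) (w : U) (a b : M) :
    update (emb N Q) w (Sum.inl a, Sum.inl b) = emb N (update Q w (a, b)) := by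
  funext x
  by_cases h : x = w
  · subst h; simp [emb]
  · simp [emb, update_of_ne h]

theorem killed_of_ext {S U : Type} [Fintype S] [DecidableEq S] [Fintype U] [DecidableEq U]
    {t : MixedForm K B M S U}
    (h : MixedKilled κ (fun b => corner N (L b)) (extendForm N t)) : MixedKilled κ L t := by
  intro u v hκ huv J Q
  have h1 := h u v hκ huv J (emb N Q)
  simp only [corner_mul, ext_emb] at h1
  refine Eq.trans ?_ h1
  congr 1
  refine Finset.sum_congr rfl fun w _ => ?_
  rw [Fintype.sum_sum_type]
  have e1 : ∀ x, (emb N Q w).1 = Sum.inl x ↔ (Q w).1 = x := fun x => by simp [emb]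
  have f1 : (emb N Q w).1 = Sum.inl (Q w).1 := rfl
  have f2 : (emb N Q w).2 = Sum.inl (Q w).2 := rfl
  rw [f1, f2]
  simp only [update_emb, ext_emb]
  have e2 : ∀ x : N, (corner N (L u * L v)) (Sum.inr x) (Sum.inl (Q w).1) = 0 := fun x => by
    simp [corner]
  have e3 : ∀ x : N, (corner N (L u * L v)) (Sum.inl (Q w).2) (Sum.inr x) = 0 := fun x => by
    simp [corner]
  simp only [e2, e3, zero_mul, sub_zero, Finset.sum_const_zero, add_zero]
  refine Finset.sum_congr rfl fun p _ => ?_
  simp [corner]

section main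

variable [DecidableEq ι]

/-- **Main theorem.** -/
theorem corner_main [CharZero K] [Fintype ι] [Nonempty M] (hL : IsClifford L)
    (hH : AlgebraicIsHodge κ (fun b => corner N (L b)) 𝒜)
    (hE : CornerEndomorphismsAlgebraic κ L 𝒜)
    (hodd : ∀ i, (∃ b, κ b = i) → Odd (univ.filter fun b => κ b = i).card)
    (hP : SquareAlgebraic κ 𝒜) (h : IsMotivated κ 𝒜) : CornerAllAlgebraic κ L 𝒜 := by
  have h1 : matrixForm (fun _ : Empty → B => corner N (1 : Matrix M M K)) ∈ 𝒜.A Empty Unit :=
    hE 1 isEnd_one
  set 𝒞 := cornerSys 𝒜 h1 with h𝒞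
  have hE' : EndomorphismsAlgebraic κ L 𝒞 := by
    intro Z hZ
    show extendForm N _ ∈ 𝒜.A Empty Unit
    refine mem_congr (hE Z hZ) ?_
    funext J Q
    by_cases h : ∃ Q', emb N Q' = Q
    · obtain ⟨Q', rfl⟩ := h
      rw [ext_emb]
      simp [matrixForm, corner, emb]
    · rw [ext_not _ _ h]
      simp only [matrixForm, corner]
      rcases h5 : Q () with ⟨a, b⟩
      rcases a with a | a
      · rcases b with b | b
        · exact (h ⟨fun _ => (a, b), funext fun x => h5.symm⟩).elim
        · rfl
      · rcases b with b | b <;> rfl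
  have hP' : ∀ i, blockForm K M κ i ∈ 𝒞.A Bool Empty := by
    intro i
    show extendForm N _ ∈ 𝒜.A Bool Empty
    refine mem_congr (hP i) ?_
    funext J Q
    rw [show Q = emb N (fun x : Empty => x.elim) from funext fun x => x.elim, ext_emb]
    rfl
  have hk' : ∀ (S U : Type) [Fintype S] [DecidableEq S] [Fintype U] [DecidableEq U]
      (t : MixedForm K B M S U), t ∈ 𝒞.A S U → MixedKilled κ L t := by
    intro S U _ _ _ _ t ht
    exact killed_of_ext (hH _ _ _ ht)
  have h3 : ∀ i, ∑ b ∈ univ.filter (fun b => κ b = i), kk L b ∈ gen 𝒞 := by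
    intro i
    by_cases hi : ∃ b, κ b = i
    · refine block_gen hL hE' (hodd i hi) ?_
      by_cases hc : (univ.filter fun b => κ b = i).card ≤ 1
      · exact one_mem_idl2_of_le hc
      · have hc3 : 3 ≤ (univ.filter fun b => κ b = i).card := by
          obtain ⟨k, hk⟩ := hodd i hi
          omega
        obtain ⟨U, i1, i2, t, ht, s, hs, hts⟩ := h i
        obtain ⟨v, hv, u, hu, hne⟩ := Finset.one_lt_card.1 (by omega :
          1 < (univ.filter fun b => κ b = i).card)
        rw [Finset.mem_filter] at hu hv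
        have hκ : κ u = κ v := hu.2.trans hv.2.symm
        have hf : (fun J Q => act t s J (emb N Q) : MixedForm K B M (Unit ⊕ Unit) Unit) ∈
            𝒞.A (Unit ⊕ Unit) Unit := by
          show extendForm N _ ∈ 𝒜.A (Unit ⊕ Unit) Unit
          rw [ext_eq (act t s)]
          have b1 : (fun J Q => act t s J (Q ∘ Sum.inl) :
              MixedForm K B (M ⊕ N) (Unit ⊕ Unit) (Unit ⊕ Empty)) ∈
              𝒜.A (Unit ⊕ Unit) (Unit ⊕ Empty) :=
            ren (Equiv.refl _) (Equiv.sumEmpty Unit Empty).symm (act_mem ht hs) fun J Q => rfl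
          refine ren (Equiv.refl _) (Equiv.sumEmpty Unit Empty) (var_mem h1 b1) fun J Q => ?_
          rw [Fintype.prod_unique]
          rfl
        refine one_mem_idl2 hL hE' hodd (hP' i) hf (hk' _ _ _ (asym_mem hf))
          hc3 hv.2 hu.2 hne fun h0 => ?_
        set g : Matrix (M ⊕ N) (M ⊕ N) K := corner N (L u) * corner N (L v) with hg
        have hd : dop g u v t = 0 :=
          (killed_dop.1 (hH _ _ t ht)) u v hκ (Ne.symm hne)
        have g1 := act_lie (s := s) hd v u
        have g2 := act_lie (s := s) hd u v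
        rw [if_pos rfl, if_neg hne, sub_zero, hts u u hu.2 hu.2, if_pos rfl] at g1
        rw [if_neg (Ne.symm hne), if_pos rfl, zero_sub, hts v v hv.2 hv.2, if_pos rfl] at g2
        rw [fm2_asym, sub_eq_zero] at h0
        have g3 : ∀ m n, g m n * act t s (Sum.elim (fun _ => v) (fun _ => u)) (fun _ => (m, n)) =
            g m n * act t s (Sum.elim (fun _ => u) (fun _ => v)) (fun _ => (m, n)) := by
          intro m n
          rw [hg, corner_mul]
          rcases m with m | m
          · rcases n with n | n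
            · congr 1
              exact congrFun (congrFun h0 n) m
            · simp [corner]
          · rcases n with n | n <;> simp [corner]
        simp only [g3] at g1
        rw [g1] at g2
        have g4 : (4 : K) = 0 := by linear_combination -g2
        exact absurd g4 (by norm_num)
    · have h2 : (univ.filter fun b => κ b = i) = ∅ := by
        rw [Finset.filter_eq_empty_iff]
        intro b _ hb
        exact hi ⟨b, hb⟩
      rw [h2, Finset.sum_empty]
      exact Submodule.zero_mem _
  have h4 : ∑ b, kk L b ∈ gen 𝒞 := by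
    rw [← Finset.sum_fiberwise univ κ]
    exact Submodule.sum_mem _ fun i _ => h3 i
  have h5 := end_all hL (esys_endo hE') (esys_casimir h4)
  intro U _ _ t ht
  exact h5 U t ht

end main

end Pool.Agent.R918.KS
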