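import Pool.Agent.R914.K3P.KS

set_option autoImplicit false
set_option linter.unusedSectionVars false

/-!
# Clifford matrices: the expansion of all matrices in words with coefficients in the commutant of the
even part
-/

open Finset Function

universe u

namespace Pool.Agent.R918.KS

open Pool.Agent.R914.K3P

variable {K : Type u} [Field K] {B M : Type} [Fintype B] [DecidableEq B] [Fintype M]
  [DecidableEq M] {L : B → Matrix M M K}

/-- joint eigenvectors of the conjugations -/
def JE (L : B → Matrix M M K) (X : Matrix M M K) (χ : B → K) : Prop :=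
  (∀ b, χ b = 1 ∨ χ b = -1) ∧ ∀ b, L b * X * L b = χ b • X

theorem conj_comm (hL : IsClifford L) (b c : B) (X : Matrix M M K) :
    L b * (L c * X * L c) * L b = L c * (L b * X * L b) * L c := by
  by_cases h : b = c
  · rw [h]
  · have h1 := hL.2 b c h
    have h2 : L b * (L c * X * L c) * L b = (L b * L c) * X * (L c * L b) := by
      simp only [Matrix.mul_assoc]
    have h3 : L c * (L b * X * L b) * L c = (L c * L b) * X * (L b * L c) := by
      simp only [Matrix.mul_assoc]
    rw [h2, h3, h1]
    simp only [neg_mul, mul_neg]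

theorem conj_conj (hL : IsClifford L) (b : B) (X : Matrix M M K) :
    L b * (L b * X * L b) * L b = X := by
  have h2 : L b * (L b * X * L b) * L b = (L b * L b) * X * (L b * L b) := by
    simp only [Matrix.mul_assoc]
  rw [h2, hL.1, Matrix.one_mul, Matrix.mul_one]

theorem span_aux [CharZero K] (hL : IsClifford L) (s : Finset B) : ∀ X : Matrix M M K,
    X ∈ Submodule.span K {Y : Matrix M M K | ∀ b ∈ s, L b * Y * L b = Y ∨ L b * Y * L b = -Y} := by
  induction s using Finset.induction_on with
  | empty => intro X; exact Submodule.subset_span fun b hb => absurd hb (Finset.notMem_empty _)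
  | insert b s hb ih =>
    intro X
    refine (Submodule.span_le.2 ?_ : _ ≤ Submodule.span K {Y : Matrix M M K | ∀ c ∈ insert b s,
      L c * Y * L c = Y ∨ L c * Y * L c = -Y}) (ih X)
    intro Y hY
    have h2 : (2 : K) ≠ 0 := two_ne_zero
    have e : Y = (2 : K)⁻¹ • (Y + L b * Y * L b) + (2 : K)⁻¹ • (Y - L b * Y * L b) := by
      rw [← smul_add]
      have : Y + L b * Y * L b + (Y - L b * Y * L b) = (2 : K) • Y := by rw [two_smul]; abel
      rw [this, smul_smul, inv_mul_cancel₀ h2, one_smul]
    have key : ∀ ε : K, (ε = 1 ∨ ε = -1) → Y + ε • (L b * Y * L b) ∈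
        {Y : Matrix M M K | ∀ c ∈ insert b s, L c * Y * L c = Y ∨ L c * Y * L c = -Y} := by
      intro ε hε c hc
      have hexp : L c * (Y + ε • (L b * Y * L b)) * L c =
          L c * Y * L c + ε • (L c * (L b * Y * L b) * L c) := by
        rw [Matrix.mul_add, Matrix.add_mul, Matrix.mul_smul, Matrix.smul_mul]
      rcases Finset.mem_insert.1 hc with rfl | hcs
      · rw [hexp, conj_conj hL]
        rcases hε with rfl | rfl
        · left; rw [one_smul, one_smul, add_comm]
        · right; rw [neg_one_smul, neg_one_smul]; abel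
      · rw [hexp, conj_comm hL]
        rcases hY c hcs with h | h
        · left; rw [h]
        · right; rw [h, Matrix.mul_neg, Matrix.neg_mul, smul_neg]; abel
    rw [e]
    refine Submodule.add_mem _ (Submodule.smul_mem _ _ (Submodule.subset_span ?_))
      (Submodule.smul_mem _ _ (Submodule.subset_span ?_))
    · have := key 1 (Or.inl rfl)
      rwa [one_smul] at this
    · have := key (-1) (Or.inr rfl)
      rwa [neg_one_smul, ← sub_eq_add_neg] at this

theorem span_je [CharZero K] (hL : IsClifford L) (X : Matrix M M K) :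
    X ∈ Submodule.span K {Y : Matrix M M K | ∃ χ, JE L Y χ} := by
  refine Submodule.span_mono ?_ (span_aux hL Finset.univ X)
  intro Y hY
  classical
  refine ⟨fun b => if L b * Y * L b = Y then 1 else -1, fun b => ?_, fun b => ?_⟩
  · dsimp only
    split_ifs
    · exact Or.inl rfl
    · exact Or.inr rfl
  · dsimp only
    split_ifs with h
    · rw [one_smul, h]
    · rcases hY b (Finset.mem_univ b) with h1 | h1
      · exact absurd h1 h
      · rw [h1, neg_one_smul]

/-- The commutant of the even products of the blocks. -/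
def Dk {ι : Type} (κ : B → ι) (L : B → Matrix M M K) : Submodule K (Matrix M M K) where
  carrier := {Z | IsEnd κ L Z}
  zero_mem' b c _ _ := by rw [Matrix.zero_mul, Matrix.mul_zero]
  add_mem' hx hy b c h h' := by rw [Matrix.add_mul, Matrix.mul_add, hx b c h h', hy b c h h']
  smul_mem' a x hx b c h h' := by rw [Matrix.smul_mul, Matrix.mul_smul, hx b c h h']

theorem mem_Dk {ι : Type} {κ : B → ι} {Z : Matrix M M K} : Z ∈ Dk κ L ↔ IsEnd κ L Z := Iff.rfl

/-- The commutant of all even products. -/
def De (L : B → Matrix M M K) : Submodule K (Matrix M M K) := Dk (fun _ : B => ()) L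

theorem isEnd_of_De {ι : Type} {κ : B → ι} {Z : Matrix M M K} (h : Z ∈ De L) : IsEnd κ L Z :=
  fun u v _ huv => h u v rfl huv

section kap

variable {ι : Type} {κ : B → ι}

/-- joint eigenvectors with constant signs are in the commutant -/
theorem JE.mem_Dk (hL : IsClifford L) {Y : Matrix M M K} {χ : B → K} (h : JE L Y χ)
    (hc : ∀ b c, κ b = κ c → χ b = χ c) : Y ∈ Dk κ L := by
  intro b c hκ hbc
  have h1 : L b * (L c * Y * L c) * L b = Y := by
    rw [h.2 c, Matrix.mul_smul, Matrix.smul_mul, h.2 b, smul_smul, hc c b hκ.symm]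
    rcases h.1 b with h | h <;> rw [h] <;> simp
  have h2 : L b * L c * Y * (L c * L b) = Y := by
    rw [show L b * L c * Y * (L c * L b) = L b * (L c * Y * L c) * L b by
      simp only [Matrix.mul_assoc], h1]
  have h3 : L c * L b * (L b * L c) = 1 := by
    rw [Matrix.mul_assoc, ← Matrix.mul_assoc (L b), hL.1, Matrix.one_mul, hL.1]
  calc Y * (L b * L c) = L b * L c * Y * (L c * L b) * (L b * L c) := by rw [h2]
    _ = L b * L c * Y := by rw [Matrix.mul_assoc _ (L c * L b), h3, Matrix.mul_one]

/-- ... and otherwise they are orthogonal to it. -/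
theorem JE.trace_eq_zero [CharZero K] (hL : IsClifford L) {Y Z : Matrix M M K} {χ : B → K}
    (h : JE L Y χ) (hZ : Z ∈ Dk κ L) {b c : B} (hκ : κ b = κ c) (hbc : χ b ≠ χ c) :
    (Z * Y).trace = 0 := by
  have hne : b ≠ c := fun h => hbc (by rw [h])
  have h1 : L b * (L c * Y * L c) * L b = -Y := by
    rw [h.2 c, Matrix.mul_smul, Matrix.smul_mul, h.2 b, smul_smul]
    rcases h.1 b with h1 | h1 <;> rcases h.1 c with h2 | h2
    · exact absurd (h1.trans h2.symm) hbc
    · rw [h1, h2]; simp
    · rw [h1, h2]; simp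
    · exact absurd (h1.trans h2.symm) hbc
  have h3 : L c * L b * (L b * L c) = 1 := by
    rw [Matrix.mul_assoc, ← Matrix.mul_assoc (L b), hL.1, Matrix.one_mul, hL.1]
  have h2 : (Z * Y).trace = -(Z * Y).trace := by
    calc (Z * Y).trace = ((L c * L b) * (L b * L c) * (Z * Y)).trace := by
            rw [h3, Matrix.one_mul]
      _ = ((L b * L c) * (Z * Y) * (L c * L b)).trace := by
            rw [Matrix.mul_assoc, Matrix.trace_mul_comm]
      _ = (Z * (L b * (L c * Y * L c) * L b)).trace := by
            rw [← Matrix.mul_assoc (L b * L c) Z, ← hZ b c hκ hne]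
            simp only [Matrix.mul_assoc]
      _ = -(Z * Y).trace := by rw [h1, Matrix.mul_neg, Matrix.trace_neg]
  have h4 : (2 : K) * (Z * Y).trace = 0 := by linear_combination h2
  exact (mul_eq_zero.1 h4).resolve_left two_ne_zero

theorem Dk_nondeg [CharZero K] (hL : IsClifford L) {Z : Matrix M M K} (hZ : Z ∈ Dk κ L)
    (h : ∀ W ∈ Dk κ L, (Z * W).trace = 0) : Z = 0 := by
  have h1 : ∀ X : Matrix M M K, (Z * X).trace = 0 := by
    intro X
    have hX := span_je hL X
    induction hX using Submodule.span_induction with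
    | mem Y hY =>
      obtain ⟨χ, hχ⟩ := hY
      by_cases hc : ∀ b c, κ b = κ c → χ b = χ c
      · exact h Y (hχ.mem_Dk hL hc)
      · push Not at hc
        obtain ⟨b, c, hκ, hbc⟩ := hc
        exact hχ.trace_eq_zero hL hZ hκ hbc
    | zero => rw [Matrix.mul_zero, Matrix.trace_zero]
    | add a b _ _ ha hb => rw [Matrix.mul_add, Matrix.trace_add, ha, hb, add_zero]
    | smul c a _ ha => rw [Matrix.mul_smul, Matrix.trace_smul, ha, smul_zero]
  ext i j
  have h2 := h1 (Matrix.single j i 1)
  rw [Matrix.trace_mul_single] at h2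
  simpa using h2

/-- Dual bases of the commutant. -/
theorem exists_dual_Dk [CharZero K] (hL : IsClifford L) :
    ∃ (d : ℕ) (Z W : Fin d → Matrix M M K),
    (∀ a, Z a ∈ Dk κ L) ∧ (∀ a, W a ∈ Dk κ L) ∧
    (∀ Y ∈ Dk κ L, ∑ a, (W a * Y).trace • Z a = Y) ∧
    ∀ a c, (W a * Z c).trace = if a = c then 1 else 0 := by
  classical
  let β : LinearMap.BilinForm K (Dk κ L) :=
    LinearMap.mk₂ K (fun x y : Dk κ L => (x.1 * y.1).trace)
      (fun a b c => by
        show ((a.1 + b.1) * c.1).trace = _
        rw [Matrix.add_mul, Matrix.trace_add])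
      (fun a b c => by
        show ((a • b.1) * c.1).trace = _
        rw [Matrix.smul_mul, Matrix.trace_smul])
      (fun a b c => by
        show (a.1 * (b.1 + c.1)).trace = _
        rw [Matrix.mul_add, Matrix.trace_add])
      (fun a b c => by
        show (b.1 * (a • c.1)).trace = _
        rw [Matrix.mul_smul, Matrix.trace_smul])
  have hβ : ∀ x y, β x y = (x.1 * y.1).trace := fun x y => rfl
  have hnd : β.Nondegenerate := by
    refine ⟨fun x hx => ?_, fun x hx => ?_⟩
    · exact Subtype.ext (Dk_nondeg hL x.2 fun W hW => hx ⟨W, hW⟩)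
    · exact Subtype.ext (Dk_nondeg hL x.2 fun W hW => by
        rw [Matrix.trace_mul_comm]; exact hx ⟨W, hW⟩)
  let b := Module.finBasis K (Dk κ L)
  let b' := β.dualBasis hnd b
  have hdual : ∀ a c, ((b' a).1 * (b c).1).trace = if a = c then 1 else 0 := by
    intro a c
    rw [← hβ, LinearMap.BilinForm.apply_dualBasis_left]
    simp only [eq_comm]
  refine ⟨_, fun a => (b a).1, fun a => (b' a).1, fun a => (b a).2, fun a => (b' a).2, ?_,
    hdual⟩
  intro Y hY
  have h1 : ∀ a, ((b' a).1 * Y).trace = b.repr ⟨Y, hY⟩ a := by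
    intro a
    have h2 : β (b' a) ⟨Y, hY⟩ = b.repr ⟨Y, hY⟩ a := by
      conv_lhs => rw [← b.sum_repr ⟨Y, hY⟩]
      rw [map_sum]
      simp only [map_smul, smul_eq_mul]
      rw [Finset.sum_eq_single a]
      · rw [LinearMap.BilinForm.apply_dualBasis_left, if_pos rfl, mul_one]
      · intro c _ hc
        rw [LinearMap.BilinForm.apply_dualBasis_left, if_neg hc, mul_zero]
      · intro h; exact absurd (Finset.mem_univ _) h
    exact h2
  simp only [h1]
  have h3 := congrArg (Dk κ L).subtype (b.sum_repr ⟨Y, hY⟩)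
  simpa only [map_sum, map_smul, Submodule.subtype_apply] using h3

end kap

theorem JE.mem_De (hL : IsClifford L) {Y : Matrix M M K} {χ : B → K} (h : JE L Y χ)
    (hc : ∀ b c, χ b = χ c) : Y ∈ De L := h.mem_Dk hL fun b c _ => hc b c

theorem exists_dual [CharZero K] (hL : IsClifford L) : ∃ (d : ℕ) (Z W : Fin d → Matrix M M K),
    (∀ a, Z a ∈ De L) ∧ (∀ a, W a ∈ De L) ∧ ∀ Y ∈ De L, ∑ a, (W a * Y).trace • Z a = Y := by
  obtain ⟨d, Z, W, h1, h2, h3, -⟩ := exists_dual_Dk (κ := fun _ : B => ()) hL
  exact ⟨d, Z, W, h1, h2, h3⟩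

end Pool.Agent.R918.KS
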