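import Pool.Agent.R918.Ks2

set_option autoImplicit false
set_option linter.unusedSectionVars false

/-!
# Clifford matrices: the operator `X ↦ ∑ P_T Z_a tr (W_a P_T⁻¹ X)`
-/

open Finset Function

universe u

namespace Pool.Agent.R918.KS

open Pool.Agent.R914.K3P

variable {K : Type u} [Field K] {B M : Type} [Fintype B] [DecidableEq B] [Fintype M]
  [DecidableEq M] {L : B → Matrix M M K}

/-- the inverse word -/
def Pr (L : B → Matrix M M K) {m : ℕ} (T : Fin m → B) : Matrix M M K := P L (T ∘ Fin.rev)

theorem P_snoc {m : ℕ} (T : Fin (m + 1) → B) :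
    P L T = P L (fun j => T j.castSucc) * L (T (Fin.last m)) := by
  unfold P
  rw [List.ofFn_succ', List.concat_eq_append, List.prod_append, List.prod_singleton]

theorem Pr_succ {m : ℕ} (T : Fin (m + 1) → B) :
    Pr L T = Pr L (fun j => T j.succ) * L (T 0) := by
  unfold Pr
  rw [P_snoc]
  congr 2
  · funext j
    simp only [comp_apply]
    congr 1
    rw [Fin.rev_castSucc]
  · simp

theorem P_mul_Pr (hL : IsClifford L) : ∀ {m : ℕ} (T : Fin m → B), P L T * Pr L T = 1 := by
  intro m
  induction m with
  | zero => intro T; unfold Pr; rw [P_zero, P_zero, Matrix.one_mul]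
  | succ m ih =>
    intro T
    rw [P_succ, Pr_succ, Matrix.mul_assoc, ← Matrix.mul_assoc (P L _), ih, Matrix.one_mul, hL.1]

theorem occ_rev {m : ℕ} (T : Fin m → B) (b : B) : occ (T ∘ Fin.rev) b = occ T b := by
  unfold occ
  refine Finset.card_bij (fun j _ => Fin.rev j) (fun j hj => ?_) (fun a _ b _ h => ?_)
    fun j hj => ?_
  · simpa using hj
  · exact Fin.rev_injective h
  · refine ⟨Fin.rev j, ?_, Fin.rev_rev j⟩
    simp only [Finset.mem_filter, Finset.mem_univ, true_and, comp_apply, Fin.rev_rev] at hj ⊢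
    exact hj

theorem conj_P (hL : IsClifford L) {m : ℕ} (T : Fin m → B) (b : B) :
    L b * P L T * L b = (-1 : K) ^ (m + occ T b) • P L T := by
  rw [P_conj hL, Matrix.smul_mul, Matrix.mul_assoc, hL.1, Matrix.mul_one]

/-- multiplication by the inverse word changes the signs -/
theorem JE.mul_Pr (hL : IsClifford L) {X : Matrix M M K} {χ : B → K} (h : JE L X χ) {m : ℕ}
    (T : Fin m → B) : JE L (Pr L T * X) (fun b => (-1 : K) ^ (m + occ T b) * χ b) := by
  refine ⟨fun b => ?_, fun b => ?_⟩
  · dsimp only
    rcases neg_one_pow_eq_or K (m + occ T b) with h1 | h1 <;> rcases h.1 b with h2 | h2 <;>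
      rw [h1, h2] <;> simp
  · have h1 : L b * (Pr L T * X) * L b = (L b * Pr L T * L b) * (L b * X * L b) := by
      have h2 : L b * Pr L T * L b * (L b * X * L b) =
          L b * Pr L T * (L b * L b) * X * L b := by simp only [Matrix.mul_assoc]
      rw [h2, hL.1, Matrix.mul_one]
      simp only [Matrix.mul_assoc]
    rw [h1, h.2 b]
    unfold Pr
    rw [conj_P hL, occ_rev, Matrix.smul_mul, Matrix.mul_smul, smul_smul]

/-- the number of the words which fit to the signs -/
noncomputable def nu (χ : B → K) : K := by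
  classical
  exact ∑ k ∈ range (Fintype.card B + 1), ∑ T : Fin k → B,
    if ∀ b c, (-1 : K) ^ (k + occ T b) * χ b = (-1 : K) ^ (k + occ T c) * χ c then 1 else 0

theorem nu_ne_zero [CharZero K] {χ : B → K} (hχ : ∀ b, χ b = 1 ∨ χ b = -1) : nu χ ≠ 0 := by
  classical
  unfold nu
  have h1 : (∑ k ∈ range (Fintype.card B + 1), ∑ T : Fin k → B,
      if ∀ b c, (-1 : K) ^ (k + occ T b) * χ b = (-1 : K) ^ (k + occ T c) * χ c then (1 : K)
        else 0) = ((∑ k ∈ range (Fintype.card B + 1), ∑ T : Fin k → B,
      if ∀ b c, (-1 : K) ^ (k + occ T b) * χ b = (-1 : K) ^ (k + occ T c) * χ c then 1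
        else 0 : ℕ) : K) := by
    push_cast
    rfl
  rw [h1]
  rw [Nat.cast_ne_zero]
  set s : Finset B := univ.filter fun b => χ b = -1 with hs
  set f : Fin s.card ≃ s := s.equivFin.symm with hf
  set T : Fin s.card → B := fun j => (f j).1 with hT
  have hocc : ∀ b, occ T b = if χ b = -1 then 1 else 0 := by
    intro b
    unfold occ
    split_ifs with hb
    · rw [Finset.card_eq_one]
      have hbs : b ∈ s := by rw [hs, Finset.mem_filter]; exact ⟨Finset.mem_univ _, hb⟩
      refine ⟨f.symm ⟨b, hbs⟩, ?_⟩
      ext j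
      simp only [Finset.mem_filter, Finset.mem_univ, true_and, Finset.mem_singleton, hT]
      rw [Equiv.eq_symm_apply]
      exact ⟨fun h => Subtype.ext h, fun h => by rw [h]⟩
    · rw [Finset.card_eq_zero, Finset.filter_eq_empty_iff]
      intro j _ h
      apply hb
      have h9 : (f j).1 ∈ univ.filter fun b => χ b = -1 := (f j).2
      rw [← h]
      exact (Finset.mem_filter.1 h9).2
  have hval : ∀ b, (-1 : K) ^ (s.card + occ T b) * χ b = (-1 : K) ^ s.card := by
    intro b
    rw [hocc, pow_add]
    rcases hχ b with h | h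
    · have : χ b ≠ -1 := by
        rw [h]
        intro h2
        have h3 : (2 : K) = 0 := by linear_combination h2
        exact two_ne_zero h3
      rw [if_neg this, h]
      simp
    · rw [if_pos h, h]
      simp
  have hk : s.card ∈ range (Fintype.card B + 1) := by
    rw [Finset.mem_range]
    exact Nat.lt_succ_of_le (Finset.card_le_univ s)
  intro h0
  rw [Finset.sum_eq_zero_iff] at h0
  have h2 := h0 _ hk
  rw [Finset.sum_eq_zero_iff] at h2
  have h3 := h2 T (Finset.mem_univ _)
  rw [if_pos (fun b c => by rw [hval, hval])] at h3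
  exact one_ne_zero h3

theorem occ_comp {m : ℕ} (T : Fin m → B) (σ : Equiv.Perm B) (b : B) :
    occ (fun j => σ (T j)) (σ b) = occ T b := by
  unfold occ
  congr 1
  ext j
  simp

theorem nu_perm (χ : B → K) (σ : Equiv.Perm B) : nu (fun b => χ (σ b)) = nu χ := by
  classical
  unfold nu
  refine Finset.sum_congr rfl fun k _ => ?_
  refine Fintype.sum_equiv (Equiv.arrowCongr (Equiv.refl _) σ) _ _ fun T => ?_
  have h1 : ∀ b, occ ((Equiv.arrowCongr (Equiv.refl (Fin k)) σ) T) (σ b) = occ T b := fun b =>
    occ_comp T σ b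
  have h2 : (∀ b c, (-1 : K) ^ (k + occ T b) * χ (σ b) = (-1 : K) ^ (k + occ T c) * χ (σ c)) ↔
      ∀ b c, (-1 : K) ^ (k + occ ((Equiv.arrowCongr (Equiv.refl (Fin k)) σ) T) b) * χ b =
        (-1 : K) ^ (k + occ ((Equiv.arrowCongr (Equiv.refl (Fin k)) σ) T) c) * χ c := by
    constructor
    · intro h b c
      have := h (σ.symm b) (σ.symm c)
      rw [← h1, ← h1, Equiv.apply_symm_apply, Equiv.apply_symm_apply] at this
      exact this
    · intro h b c
      rw [← h1, ← h1]
      exact h _ _
  by_cases h : ∀ b c, (-1 : K) ^ (k + occ T b) * χ (σ b) = (-1 : K) ^ (k + occ T c) * χ (σ c)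
  · rw [if_pos h, if_pos (h2.1 h)]
  · rw [if_neg h, if_neg fun h3 => h (h2.2 h3)]

/-- **The operator**. -/
def Eo (L : B → Matrix M M K) {d : ℕ} (Z W : Fin d → Matrix M M K) :
    Matrix M M K →ₗ[K] Matrix M M K where
  toFun X := ∑ k ∈ range (Fintype.card B + 1), ∑ T : Fin k → B, ∑ a,
    (W a * Pr L T * X).trace • (P L T * Z a)
  map_add' X Y := by
    simp only [Matrix.mul_add, Matrix.trace_add, add_smul, Finset.sum_add_distrib]
  map_smul' c X := by
    simp only [Matrix.mul_smul, Matrix.trace_smul, smul_eq_mul, mul_smul, Finset.smul_sum,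
      RingHom.id_apply]

theorem Eo_apply {d : ℕ} (Z W : Fin d → Matrix M M K) (X : Matrix M M K) :
    Eo L Z W X = ∑ k ∈ range (Fintype.card B + 1), ∑ T : Fin k → B, ∑ a,
      (W a * Pr L T * X).trace • (P L T * Z a) := rfl

section ops

variable {d : ℕ} {Z W : Fin d → Matrix M M K} [CharZero K] (hL : IsClifford L)
  (hZ : ∀ a, Z a ∈ De L) (hW : ∀ a, W a ∈ De L)
  (hd : ∀ Y ∈ De L, ∑ a, (W a * Y).trace • Z a = Y)
include hL hZ hW hd

theorem Eo_je {X : Matrix M M K} {χ : B → K} (h : JE L X χ) : Eo L Z W X = nu χ • X := by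
  classical
  rw [Eo_apply]
  unfold nu
  rw [Finset.sum_smul]
  refine Finset.sum_congr rfl fun k _ => ?_
  rw [Finset.sum_smul]
  refine Finset.sum_congr rfl fun T _ => ?_
  have h1 := h.mul_Pr hL T
  have e1 : ∀ a, (W a * Pr L T * X).trace • (P L T * Z a) =
      P L T * ((W a * (Pr L T * X)).trace • Z a) := fun a => by
    rw [Matrix.mul_smul, Matrix.mul_assoc]
  simp only [e1]
  rw [← Matrix.mul_sum]
  split_ifs with hc
  · rw [hd _ (h1.mem_De hL hc), ← Matrix.mul_assoc, P_mul_Pr hL, Matrix.one_mul, one_smul]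
  · push Not at hc
    obtain ⟨b, c, hbc⟩ := hc
    rw [zero_smul, Finset.sum_eq_zero, Matrix.mul_zero]
    intro a _
    rw [h1.trace_eq_zero (κ := fun _ : B => ()) hL (hW a) rfl hbc, zero_smul]

theorem Eo_bij : Bijective (Eo L Z W) := by
  have hs : Surjective (Eo L Z W) := by
    rw [← LinearMap.range_eq_top, eq_top_iff]
    intro X _
    have hX := span_je hL X
    refine (Submodule.span_le.2 ?_ : _ ≤ LinearMap.range (Eo L Z W)) hX
    rintro Y ⟨χ, hχ⟩
    refine ⟨(nu χ)⁻¹ • Y, ?_⟩
    rw [map_smul, Eo_je hL hZ hW hd hχ, smul_smul, inv_mul_cancel₀ (nu_ne_zero hχ.1), one_smul]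
  exact ⟨LinearMap.injective_iff_surjective.2 hs, hs⟩

theorem Eo_lie {u v : B} (huv : u ≠ v) (X : Matrix M M K) :
    Eo L Z W (L u * L v * X - X * (L u * L v)) =
      L u * L v * Eo L Z W X - Eo L Z W X * (L u * L v) := by
  have hX := span_je hL X
  induction hX using Submodule.span_induction with
  | mem Y hY =>
    obtain ⟨χ, hχ⟩ := hY
    have h1 : L u * L v * Y * (L v * L u) = (χ u * χ v) • Y := by
      have : L u * L v * Y * (L v * L u) = L u * (L v * Y * L v) * L u := by
        simp only [Matrix.mul_assoc]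
      rw [this, hχ.2 v, Matrix.mul_smul, Matrix.smul_mul, hχ.2 u, smul_smul, mul_comm]
    have h3 : L v * L u * (L u * L v) = 1 := by
      rw [Matrix.mul_assoc, ← Matrix.mul_assoc (L u), hL.1, Matrix.one_mul, hL.1]
    have h2 : L u * L v * Y = (χ u * χ v) • (Y * (L u * L v)) := by
      rw [← Matrix.smul_mul, ← h1, Matrix.mul_assoc _ (L v * L u), h3, Matrix.mul_one]
    by_cases hc : χ u = χ v
    · have h4 : χ u * χ v = 1 := by
        rcases hχ.1 v with h | h <;> rw [hc, h] <;> simp
      have h5 : L u * L v * Y = Y * (L u * L v) := by rw [h2, h4, one_smul]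
      rw [h5, sub_self, map_zero, Eo_je hL hZ hW hd hχ, Matrix.mul_smul, Matrix.smul_mul, h5,
        sub_self]
    · -- the signs are exchanged
      have hJ : JE L (L u * L v * Y - Y * (L u * L v)) (fun b => χ (Equiv.swap u v b)) := by
        have h4 : χ u * χ v = -1 := by
          rcases hχ.1 u with h | h <;> rcases hχ.1 v with h' | h'
          · exact absurd (h.trans h'.symm) hc
          · rw [h, h', one_mul]
          · rw [h, h', mul_one]
          · exact absurd (h.trans h'.symm) hc
        have h5 : L u * L v * Y - Y * (L u * L v) = (-2 : K) • (Y * (L u * L v)) := by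
          rw [h2, h4]
          module
        rw [h5]
        refine ⟨fun b => hχ.1 _, fun b => ?_⟩
        have h6 : L b * (Y * (L u * L v)) * L b = χ b • (Y * (L b * (L u * L v) * L b)) := by
          have h7 : L b * (Y * (L u * L v)) * L b = (L b * Y * L b) * (L b * (L u * L v) * L b) := by
            have : L b * Y * L b * (L b * (L u * L v) * L b) =
                L b * Y * (L b * L b) * (L u * L v) * L b := by simp only [Matrix.mul_assoc]
            rw [this, hL.1, Matrix.mul_one]
            simp only [Matrix.mul_assoc]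
          rw [h7, hχ.2 b, Matrix.smul_mul]
        have h8 : χ v = -χ u := by
          rcases hχ.1 u with h | h <;> rcases hχ.1 v with h' | h'
          · exact absurd (h.trans h'.symm) hc
          · rw [h, h']
          · rw [h, h', neg_neg]
          · exact absurd (h.trans h'.symm) hc
        rw [Matrix.mul_smul, Matrix.smul_mul, h6]
        by_cases hbu : b = u
        · subst hbu
          dsimp only
          rw [Equiv.swap_apply_left, h8]
          have : L b * (L b * L v) * L b = -(L b * L v) := by
            rw [← Matrix.mul_assoc, hL.1, Matrix.one_mul, hL.2 v b (Ne.symm huv)]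
          rw [this, Matrix.mul_neg]
          module
        · by_cases hbv : b = v
          · subst hbv
            dsimp only
            rw [Equiv.swap_apply_right]
            have : L b * (L u * L b) * L b = -(L u * L b) := by
              rw [Matrix.mul_assoc, Matrix.mul_assoc, hL.1, Matrix.mul_one, hL.2 b u hbu]
            rw [this, Matrix.mul_neg, h8]
            module
          · dsimp only
            rw [Equiv.swap_apply_of_ne_of_ne hbu hbv]
            have : L b * (L u * L v) * L b = L u * L v := by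
              rw [Matrix.mul_assoc, Matrix.mul_assoc, hL.2 v b (Ne.symm hbv), Matrix.mul_neg,
                Matrix.mul_neg, ← Matrix.mul_assoc (L u), hL.2 u b (Ne.symm hbu),
                Matrix.neg_mul, Matrix.mul_neg, neg_neg, Matrix.mul_assoc, ← Matrix.mul_assoc (L b),
                hL.1, Matrix.one_mul]
            rw [this]
            module
      rw [Eo_je hL hZ hW hd hJ, Eo_je hL hZ hW hd hχ, nu_perm, Matrix.mul_smul, Matrix.smul_mul,
        smul_sub]
  | zero => simp
  | add a b _ _ ha hb =>
    have e : L u * L v * (a + b) - (a + b) * (L u * L v) =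
        (L u * L v * a - a * (L u * L v)) + (L u * L v * b - b * (L u * L v)) := by
      rw [Matrix.mul_add, Matrix.add_mul]; abel
    rw [e, map_add, ha, hb, map_add, Matrix.mul_add, Matrix.add_mul]
    abel
  | smul c a _ ha =>
    have e : L u * L v * (c • a) - (c • a) * (L u * L v) =
        c • (L u * L v * a - a * (L u * L v)) := by
      rw [Matrix.mul_smul, Matrix.smul_mul, smul_sub]
    rw [e, map_smul, ha, map_smul, Matrix.mul_smul, Matrix.smul_mul, smul_sub]

/-- The inverse. -/
theorem exists_inv : ∃ R : Matrix M M K →ₗ[K] Matrix M M K, (∀ X, R (Eo L Z W X) = X) ∧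
    (∀ X, Eo L Z W (R X) = X) ∧ ∀ u v, u ≠ v → ∀ X, R (L u * L v * X - X * (L u * L v)) =
      L u * L v * R X - R X * (L u * L v) := by
  let e := LinearEquiv.ofBijective (Eo L Z W) (Eo_bij hL hZ hW hd)
  have h1 : ∀ X, Eo L Z W (e.symm X) = X := fun X => e.apply_symm_apply X
  have h2 : ∀ X, e.symm (Eo L Z W X) = X := fun X => e.symm_apply_apply X
  refine ⟨e.symm.toLinearMap, h2, h1, fun u v huv X => ?_⟩
  apply (Eo_bij hL hZ hW hd).1
  show Eo L Z W (e.symm _) = Eo L Z W (L u * L v * e.symm X - e.symm X * (L u * L v))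
  rw [h1, Eo_lie hL hZ hW hd huv, h1]

end ops

end Pool.Agent.R918.KS
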