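import Pool.Agent.R918.Ks1
import Pool.Agent.R918.Ks3

set_option autoImplicit false
set_option linter.unusedSectionVars false

/-!
# Mixed forms: derivations, slices, and the main induction
-/

open Finset Function

universe u

namespace Pool.Agent.R918.KS

open Pool.Agent.R914.K3P

variable {K : Type u} [Field K] {B ι M : Type} [Fintype B] [DecidableEq B] [Fintype M]
  [DecidableEq M] {κ : B → ι} {L : B → Matrix M M K} {𝒜 : MixedSystem K B M}

/-- the derivation -/
def dop (g : Matrix M M K) (u v : B) {S U : Type} [Fintype S] [DecidableEq S] [Fintype U]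
    [DecidableEq U] (t : MixedForm K B M S U) : MixedForm K B M S U := fun J Q =>
  2 * ∑ j, ((if J j = v then t (update J j u) Q else 0) -
      (if J j = u then t (update J j v) Q else 0)) +
    ∑ w, ∑ p, (g p (Q w).1 * t J (update Q w (p, (Q w).2)) -
      g (Q w).2 p * t J (update Q w ((Q w).1, p)))

theorem killed_dop {S U : Type} [Fintype S] [DecidableEq S] [Fintype U] [DecidableEq U]
    {t : MixedForm K B M S U} :
    MixedKilled κ L t ↔ ∀ u v, κ u = κ v → u ≠ v → dop (L u * L v) u v t = 0 := by
  constructor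
  · intro h u v h1 h2
    funext J Q
    exact h u v h1 h2 J Q
  · intro h u v h1 h2 J Q
    exact congrFun (congrFun (h u v h1 h2) J) Q

/-- the value at a matrix of the first matrix variable -/
def sl {S U : Type} (t : MixedForm K B M S (Unit ⊕ U)) (X : Matrix M M K) :
    MixedForm K B M S U := fun J Q => ∑ m, ∑ n, X m n * t J (Sum.elim (fun _ => (m, n)) Q)

theorem sl_add {S U : Type} (t : MixedForm K B M S (Unit ⊕ U)) (X Y : Matrix M M K) :
    sl t (X + Y) = sl t X + sl t Y := by
  funext J Q
  simp only [sl, Matrix.add_apply, add_mul, Finset.sum_add_distrib, Pi.add_apply]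

theorem sl_smul {S U : Type} (t : MixedForm K B M S (Unit ⊕ U)) (c : K) (X : Matrix M M K) :
    sl t (c • X) = c • sl t X := by
  funext J Q
  simp only [sl, Matrix.smul_apply, smul_eq_mul, Pi.smul_apply, Finset.mul_sum, mul_assoc]

/-- the slice as a linear map -/
def slL {S U : Type} (t : MixedForm K B M S (Unit ⊕ U)) :
    Matrix M M K →ₗ[K] MixedForm K B M S U where
  toFun := sl t
  map_add' := sl_add t
  map_smul' := sl_smul t

theorem slL_apply {S U : Type} (t : MixedForm K B M S (Unit ⊕ U)) (X : Matrix M M K) :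
    slL t X = sl t X := rfl

theorem sl_zero {S U : Type} (t : MixedForm K B M S (Unit ⊕ U)) : sl t 0 = 0 :=
  (slL t).map_zero

theorem sl_single {S U : Type} (t : MixedForm K B M S (Unit ⊕ U)) (m n : M) (J : S → B)
    (Q : U → M × M) : sl t (Matrix.single m n 1) J Q = t J (Sum.elim (fun _ => (m, n)) Q) := by
  unfold sl
  rw [Finset.sum_eq_single m, Finset.sum_eq_single n]
  · rw [Matrix.single_apply_same, one_mul]
  · intro b _ hb
    rw [Matrix.single_apply_of_ne, zero_mul]
    rintro ⟨-, h⟩; exact hb h.symm
  · intro h; exact absurd (Finset.mem_univ _) h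
  · intro a _ ha
    refine Finset.sum_eq_zero fun b _ => ?_
    rw [Matrix.single_apply_of_ne, zero_mul]
    rintro ⟨h, -⟩; exact ha h.symm
  · intro h; exact absurd (Finset.mem_univ _) h

theorem elim_eta {U : Type} (Q : Unit ⊕ U → M × M) :
    Sum.elim (fun _ => ((Q (Sum.inl ())).1, (Q (Sum.inl ())).2)) (Q ∘ Sum.inr) = Q := by
  funext x
  rcases x with x | x
  · rfl
  · rfl

theorem update_elim_inr {U : Type} [DecidableEq U] (x : M × M) (Q : U → M × M) (w : U)
    (y : M × M) : update (Sum.elim (fun _ : Unit => x) Q) (Sum.inr w) y =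
      Sum.elim (fun _ => x) (update Q w y) := by
  funext z
  rcases z with z | z
  · rw [update_of_ne (by simp)]; rfl
  · by_cases h : z = w
    · subst h; rw [update_self]; simp
    · rw [update_of_ne (by simpa using h)]
      simp [update_of_ne h]

theorem update_elim_inl {U : Type} [DecidableEq U] (x : M × M) (Q : U → M × M)
    (y : M × M) : update (Sum.elim (fun _ : Unit => x) Q) (Sum.inl ()) y =
      Sum.elim (fun _ => y) Q := by
  funext z
  rcases z with z | z
  · simp
  · rw [update_of_ne (by simp)]; rfl

section leib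

variable {S U : Type} [Fintype S] [DecidableEq S] [Fintype U] [DecidableEq U]

theorem sl_dop (g : Matrix M M K) (u v : B) (t : MixedForm K B M S (Unit ⊕ U))
    (X : Matrix M M K) : sl (dop g u v t) X = dop g u v (sl t X) + sl t (g * X - X * g) := by
  funext J Q
  have e1 : sl (dop g u v t) X J Q = ∑ m, ∑ n, X m n * (2 * ∑ j,
      ((if J j = v then t (update J j u) (Sum.elim (fun _ => (m, n)) Q) else 0) -
      (if J j = u then t (update J j v) (Sum.elim (fun _ => (m, n)) Q) else 0))) +
      ∑ m, ∑ n, X m n * (∑ p, (g p m * t J (Sum.elim (fun _ => (p, n)) Q) -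
        g n p * t J (Sum.elim (fun _ => (m, p)) Q))) +
      ∑ m, ∑ n, X m n * (∑ w, ∑ p, (g p (Q w).1 * t J (Sum.elim (fun _ => (m, n))
        (update Q w (p, (Q w).2))) - g (Q w).2 p * t J (Sum.elim (fun _ => (m, n))
        (update Q w ((Q w).1, p))))) := by
    unfold sl dop
    rw [← Finset.sum_add_distrib, ← Finset.sum_add_distrib]
    refine Finset.sum_congr rfl fun m _ => ?_
    rw [← Finset.sum_add_distrib, ← Finset.sum_add_distrib]
    refine Finset.sum_congr rfl fun n _ => ?_
    rw [Fintype.sum_sum_type]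
    simp only [Finset.univ_unique, Finset.sum_singleton, Sum.elim_inl, Sum.elim_inr]
    have a1 : ∀ y, update (Sum.elim (fun _ : Unit => (m, n)) Q) (Sum.inl default) y =
      Sum.elim (fun _ => y) Q := fun y => update_elim_inl _ _ _
    simp only [a1, update_elim_inr]
    ring
  have e2 : ∑ m, ∑ n, X m n * (∑ p, (g p m * t J (Sum.elim (fun _ => (p, n)) Q) -
        g n p * t J (Sum.elim (fun _ => (m, p)) Q))) = sl t (g * X - X * g) J Q := by
    unfold sl
    simp only [Matrix.sub_apply, Matrix.mul_apply, sub_mul, Finset.sum_sub_distrib,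
      Finset.sum_mul, Finset.mul_sum, mul_sub]
    congr 1
    · -- first
      have : ∀ (f : M → M → M → K), ∑ m, ∑ n, ∑ p, f m n p = ∑ p, ∑ n, ∑ m, f m n p := by
        intro f
        rw [Finset.sum_comm]
        conv_rhs => rw [Finset.sum_comm]
        refine Finset.sum_congr rfl fun n _ => ?_
        rw [Finset.sum_comm]
      rw [this]
      refine Finset.sum_congr rfl fun p _ => Finset.sum_congr rfl fun n _ =>
        Finset.sum_congr rfl fun m _ => ?_
      ring
    · refine Finset.sum_congr rfl fun m _ => ?_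
      rw [Finset.sum_comm]
      refine Finset.sum_congr rfl fun p _ => Finset.sum_congr rfl fun n _ => ?_
      ring
  have e3 : dop g u v (sl t X) J Q = ∑ m, ∑ n, X m n * (2 * ∑ j,
      ((if J j = v then t (update J j u) (Sum.elim (fun _ => (m, n)) Q) else 0) -
      (if J j = u then t (update J j v) (Sum.elim (fun _ => (m, n)) Q) else 0))) +
      ∑ m, ∑ n, X m n * (∑ w, ∑ p, (g p (Q w).1 * t J (Sum.elim (fun _ => (m, n))
        (update Q w (p, (Q w).2))) - g (Q w).2 p * t J (Sum.elim (fun _ => (m, n))
        (update Q w ((Q w).1, p))))) := by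
    unfold dop sl
    congr 1
    · simp only [Finset.mul_sum]
      have : ∀ (f : S → M → M → K), ∑ j, ∑ m, ∑ n, f j m n = ∑ m, ∑ n, ∑ j, f j m n := by
        intro f
        rw [Finset.sum_comm]
        exact Finset.sum_congr rfl fun m _ => Finset.sum_comm
      rw [← this]
      refine Finset.sum_congr rfl fun j _ => ?_
      split_ifs <;> simp only [← Finset.sum_sub_distrib, Finset.mul_sum, sub_zero, zero_sub,
        mul_zero, mul_neg, Finset.sum_neg_distrib, Finset.sum_const_zero, mul_sub,
        sub_self] <;>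
      first
      | rfl
      | (refine Finset.sum_congr rfl fun m _ => Finset.sum_congr rfl fun n _ => ?_; ring)
      | (congr 1; refine Finset.sum_congr rfl fun m _ => Finset.sum_congr rfl fun n _ => ?_; ring)
    · simp only [Finset.mul_sum]
      have : ∀ (f : U → M → M → M → K), ∑ m, ∑ n, ∑ w, ∑ p, f w p m n =
          ∑ w, ∑ p, ∑ m, ∑ n, f w p m n := by
        intro f
        have h1 : ∀ w, ∑ p, ∑ m, ∑ n, f w p m n = ∑ m, ∑ n, ∑ p, f w p m n := by
          intro w
          rw [Finset.sum_comm]
          exact Finset.sum_congr rfl fun m _ => Finset.sum_comm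
        simp only [h1]
        rw [Finset.sum_comm]
        conv_rhs => rw [Finset.sum_comm]
        conv_lhs => rw [Finset.sum_comm]
        refine Finset.sum_congr rfl fun m _ => ?_
        rw [Finset.sum_comm]
      rw [this]
      refine Finset.sum_congr rfl fun w _ => Finset.sum_congr rfl fun p _ => ?_
      rw [← Finset.sum_sub_distrib]
      refine Finset.sum_congr rfl fun m _ => ?_
      rw [← Finset.sum_sub_distrib]
      refine Finset.sum_congr rfl fun n _ => ?_
      ring
  rw [e1, e2, Pi.add_apply, Pi.add_apply, e3]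
  ring

end leib

theorem br_single (hL : IsClifford L) {u v : B} (huv : u ≠ v) (x : B) :
    L u * L v * L x - L x * (L u * L v) =
      (2 : K) • ((if x = v then L u else 0) - (if x = u then L v else 0)) := by
  by_cases h1 : x = v
  · subst h1
    rw [if_pos rfl, if_neg (Ne.symm huv), Matrix.mul_assoc, hL.1, Matrix.mul_one,
      ← Matrix.mul_assoc, hL.2 x u (Ne.symm huv), Matrix.neg_mul, Matrix.mul_assoc, hL.1,
      Matrix.mul_one, sub_zero, two_smul]
    abel
  · by_cases h2 : x = u
    · subst h2
      rw [if_neg h1, if_pos rfl, ← Matrix.mul_assoc (L x) (L x), hL.1, Matrix.one_mul,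
        hL.2 x v huv, Matrix.neg_mul, Matrix.mul_assoc, hL.1, Matrix.mul_one, zero_sub, two_smul]
      abel
    · rw [if_neg h1, if_neg h2, sub_zero, smul_zero, Matrix.mul_assoc, hL.2 v x (Ne.symm h1),
        Matrix.mul_neg, ← Matrix.mul_assoc, hL.2 u x (Ne.symm h2), Matrix.neg_mul, neg_neg,
        Matrix.mul_assoc, sub_self]

theorem word_der (hL : IsClifford L) {u v : B} (huv : u ≠ v) : ∀ {k : ℕ} (T : Fin k → B),
    L u * L v * P L T - P L T * (L u * L v) = (2 : K) • ∑ j,
      ((if T j = v then P L (update T j u) else 0) -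
        (if T j = u then P L (update T j v) else 0)) := by
  intro k
  induction k with
  | zero => intro T; simp [P_zero]
  | succ k ih =>
    intro T
    have h1 := ih fun j => T j.succ
    have u1 : ∀ (j : Fin k) (x : B), P L (update T j.succ x) =
        L (T 0) * P L (update (fun j => T j.succ) j x) := by
      intro j x
      rw [P_succ, update_of_ne (Fin.succ_ne_zero j).symm]
      congr 2
      funext i
      by_cases h : i = j
      · subst h; rw [update_self, update_self]
      · rw [update_of_ne h, update_of_ne]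
        intro h2; exact h (Fin.succ_injective _ h2)
    have u2 : ∀ x : B, P L (update T 0 x) = L x * P L (fun j => T j.succ) := by
      intro x
      rw [P_succ, update_self]
      congr 2
    rw [Fin.sum_univ_succ, P_succ]
    simp only [u1, u2]
    have e : L u * L v * (L (T 0) * P L (fun j => T j.succ)) -
        L (T 0) * P L (fun j => T j.succ) * (L u * L v) =
        (L u * L v * L (T 0) - L (T 0) * (L u * L v)) * P L (fun j => T j.succ) +
        L (T 0) * (L u * L v * P L (fun j => T j.succ) - P L (fun j => T j.succ) *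
          (L u * L v)) := by
      rw [Matrix.sub_mul, Matrix.mul_sub]
      simp only [Matrix.mul_assoc]
      abel
    rw [e, br_single hL huv, h1, smul_add, Matrix.smul_mul, Matrix.mul_smul, Matrix.mul_sum]
    congr 2
    · rw [Matrix.sub_mul]
      congr 1 <;> split_ifs <;> simp
    · refine Finset.sum_congr rfl fun j _ => ?_
      rw [Matrix.mul_sub]
      congr 1 <;> split_ifs <;> simp

section step

variable {S U : Type} [Fintype S] [DecidableEq S] [Fintype U] [DecidableEq U]

/-- words in the first matrix variable -/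
def wordForm (L : B → Matrix M M K) (t : MixedForm K B M S (Unit ⊕ U)) (k : ℕ)
    (Z : Matrix M M K) : MixedForm K B M (Fin k ⊕ S) U :=
  fun J Q => sl t (P L (J ∘ Sum.inl) * Z) (J ∘ Sum.inr) Q

theorem update_comp_inl {X Y A : Type} [DecidableEq X] [DecidableEq Y] (J : X ⊕ Y → A) (j : X)
    (a : A) : update J (Sum.inl j) a ∘ Sum.inl = update (J ∘ Sum.inl) j a := by
  funext i
  by_cases h : i = j
  · subst h; simp
  · simp [h]

theorem update_comp_inl' {X Y A : Type} [DecidableEq X] [DecidableEq Y] (J : X ⊕ Y → A) (j : X)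
    (a : A) : update J (Sum.inl j) a ∘ Sum.inr = J ∘ Sum.inr := by
  funext i
  simp

theorem update_comp_inr {X Y A : Type} [DecidableEq X] [DecidableEq Y] (J : X ⊕ Y → A) (j : Y)
    (a : A) : update J (Sum.inr j) a ∘ Sum.inr = update (J ∘ Sum.inr) j a := by
  funext i
  by_cases h : i = j
  · subst h; simp
  · simp [h]

theorem update_comp_inr' {X Y A : Type} [DecidableEq X] [DecidableEq Y] (J : X ⊕ Y → A) (j : Y)
    (a : A) : update J (Sum.inr j) a ∘ Sum.inl = J ∘ Sum.inl := by
  funext i
  simp

theorem wordForm_killed (hL : IsClifford L) {t : MixedForm K B M S (Unit ⊕ U)}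
    (ht : MixedKilled κ L t) (k : ℕ) {Z : Matrix M M K} (hZ : IsEnd κ L Z) :
    MixedKilled κ L (wordForm L t k Z) := by
  rw [killed_dop] at ht ⊢
  intro u v hκ huv
  funext J Q
  set T := J ∘ Sum.inl with hT
  set X := P L T * Z with hX
  have h0 : sl (dop (L u * L v) u v t) X (J ∘ Sum.inr) Q = 0 := by
    rw [ht u v hκ huv]
    simp [sl]
  rw [sl_dop, Pi.add_apply, Pi.add_apply] at h0
  have hX2 : L u * L v * X - X * (L u * L v) = (2 : K) • ∑ j,
      ((if T j = v then P L (update T j u) * Z else 0) -
        (if T j = u then P L (update T j v) * Z else 0)) := by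
    have e : L u * L v * X - X * (L u * L v) =
        (L u * L v * P L T - P L T * (L u * L v)) * Z := by
      rw [hX, Matrix.mul_assoc (P L T) Z, hZ u v hκ huv, Matrix.sub_mul]
      simp only [Matrix.mul_assoc]
    rw [e, word_der hL huv, Matrix.smul_mul, Matrix.sum_mul]
    congr 1
    refine Finset.sum_congr rfl fun j _ => ?_
    rw [Matrix.sub_mul]
    congr 1 <;> split_ifs <;> simp
  have e2 : dop (L u * L v) u v (wordForm L t k Z) J Q =
      dop (L u * L v) u v (sl t X) (J ∘ Sum.inr) Q +
        sl t (L u * L v * X - X * (L u * L v)) (J ∘ Sum.inr) Q := by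
    rw [hX2]
    have e3 : sl t ((2 : K) • ∑ j, ((if T j = v then P L (update T j u) * Z else 0) -
        (if T j = u then P L (update T j v) * Z else 0))) =
        (2 : K) • ∑ j, ((if T j = v then sl t (P L (update T j u) * Z) else 0) -
        (if T j = u then sl t (P L (update T j v) * Z) else 0)) := by
      rw [← slL_apply, map_smul, map_sum]
      congr 1
      refine Finset.sum_congr rfl fun j _ => ?_
      rw [map_sub]
      congr 1 <;> split_ifs <;> simp [slL_apply, sl_zero]
    rw [e3]
    unfold dop
    rw [Fintype.sum_sum_type]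
    have e4 : ∀ Q, wordForm L t k Z J Q = sl t X (J ∘ Sum.inr) Q := fun Q => rfl
    simp only [e4]
    have e5 : (∑ j : Fin k, ((if J (Sum.inl j) = v then wordForm L t k Z (update J (Sum.inl j) u) Q
        else 0) - (if J (Sum.inl j) = u then wordForm L t k Z (update J (Sum.inl j) v) Q else 0))) =
        (∑ j, ((if T j = v then sl t (P L (update T j u) * Z) else 0) -
        (if T j = u then sl t (P L (update T j v) * Z) else 0))) (J ∘ Sum.inr) Q := by
      rw [Finset.sum_apply, Finset.sum_apply]
      refine Finset.sum_congr rfl fun j _ => ?_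
      rw [Pi.sub_apply, Pi.sub_apply]
      unfold wordForm
      simp only [update_comp_inl, update_comp_inl', hT, comp_apply]
      congr 1 <;> split_ifs <;> simp
    have e6 : (∑ j : S, ((if J (Sum.inr j) = v then wordForm L t k Z (update J (Sum.inr j) u) Q
        else 0) - (if J (Sum.inr j) = u then wordForm L t k Z (update J (Sum.inr j) v) Q else 0))) =
        ∑ j, ((if (J ∘ Sum.inr) j = v then sl t X (update (J ∘ Sum.inr) j u) Q else 0) -
        (if (J ∘ Sum.inr) j = u then sl t X (update (J ∘ Sum.inr) j v) Q else 0)) := by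
      refine Finset.sum_congr rfl fun j _ => ?_
      unfold wordForm
      simp only [update_comp_inr, update_comp_inr', comp_apply, hX, hT]
    rw [e5, e6, Pi.smul_apply, Pi.smul_apply, smul_eq_mul]
    ring
  rw [e2, h0]
  rfl

/-- a linear map applied to the first matrix variable -/
def mapForm (R : Matrix M M K →ₗ[K] Matrix M M K) (t : MixedForm K B M S (Unit ⊕ U)) :
    MixedForm K B M S (Unit ⊕ U) :=
  fun J Q => sl t (R (Matrix.single (Q (Sum.inl ())).1 (Q (Sum.inl ())).2 1)) J (Q ∘ Sum.inr)

theorem sl_mapForm (R : Matrix M M K →ₗ[K] Matrix M M K) (t : MixedForm K B M S (Unit ⊕ U))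
    (X : Matrix M M K) : sl (mapForm R t) X = sl t (R X) := by
  have h1 : ∀ m n, sl (mapForm R t) (Matrix.single m n 1) = sl t (R (Matrix.single m n 1)) := by
    intro m n
    funext J Q
    rw [sl_single]
    rfl
  have h2 : slL (mapForm R t) = (slL t).comp R := by
    refine Matrix.ext_linearMap K ?_
    intro m n
    refine LinearMap.ext fun c => ?_
    simp only [LinearMap.comp_apply, Matrix.singleLinearMap_apply, slL_apply]
    have h3 : (Matrix.single m n c : Matrix M M K) = c • Matrix.single m n 1 := by
      rw [Matrix.smul_single, smul_eq_mul, mul_one]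
    rw [h3, sl_smul, h1, map_smul, sl_smul]
  have h3 := LinearMap.congr_fun h2 X
  exact h3

theorem mapForm_killed {R : Matrix M M K →ₗ[K] Matrix M M K}
    (hR : ∀ u v, u ≠ v → ∀ X, R (L u * L v * X - X * (L u * L v)) =
      L u * L v * R X - R X * (L u * L v)) {t : MixedForm K B M S (Unit ⊕ U)}
    (ht : MixedKilled κ L t) : MixedKilled κ L (mapForm R t) := by
  rw [killed_dop] at ht ⊢
  intro u v hκ huv
  funext J Q
  rw [← elim_eta Q, ← sl_single (dop (L u * L v) u v (mapForm R t)), sl_dop, sl_mapForm,
    sl_mapForm, hR u v huv, ← sl_dop, ht u v hκ huv]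
  simp [sl]

theorem killed_rename_matrix {U' : Type} [Fintype U'] [DecidableEq U'] (f : U ≃ U')
    {t : MixedForm K B M S U} (ht : MixedKilled κ L t) :
    MixedKilled κ L (fun J Q => t J (Q ∘ f) : MixedForm K B M S U') := by
  intro u v hκ huv J Q
  have h := ht u v hκ huv J (Q ∘ f)
  refine Eq.trans ?_ h
  congr 1
  refine Fintype.sum_equiv f.symm _ _ fun w => ?_
  have e : ∀ x, update Q w x ∘ f = update (Q ∘ f) (f.symm w) x := by
    intro x
    funext y
    by_cases hy : y = f.symm w
    · subst hy; simp
    · rw [update_of_ne hy, comp_apply, update_of_ne, comp_apply]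
      intro h2; exact hy (by rw [← h2, Equiv.symm_apply_apply])
  simp only [e, comp_apply, Equiv.apply_symm_apply]

end step

/-- **Main theorem.** -/
theorem all_mem [CharZero K] [Fintype ι] [DecidableEq ι] [Nonempty M] (hL : IsClifford L)
    (hE : EndomorphismsAlgebraic κ L 𝒜)
    (hKS : matrixForm (fun J : Unit → B => L (J ())) ∈ 𝒜.A Unit Unit) :
    ∀ (n : ℕ) (S U : Type) [Fintype S] [DecidableEq S] [Fintype U] [DecidableEq U],
      Fintype.card U = n → ∀ t : MixedForm K B M S U, MixedKilled κ L t → t ∈ 𝒜.A S U := by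
  intro n
  induction n with
  | zero =>
    intro S U _ _ _ _ hU t ht
    have hemp : IsEmpty U := Fintype.card_eq_zero_iff.1 hU
    let q : U → M × M := fun x => hemp.elim x
    have hq : ∀ Q : U → M × M, Q = q := fun Q => funext fun x => hemp.elim x
    have h1 : Killed κ (fun J => t J q : Form K B S) := by
      intro u v hκ J
      by_cases huv : u = v
      · subst huv; simp
      · have h := ht u v hκ huv J q
        rw [Finset.univ_eq_empty (α := U), Finset.sum_empty, add_zero] at h
        exact (mul_eq_zero.1 h).resolve_left two_ne_zero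
    have h2 := kugaSatake (vsys 𝒜) hL (algebraic_vsys hE hKS) S _ h1
    rw [mem_vsys] at h2
    refine ren (Equiv.refl S) (Equiv.equivOfIsEmpty Empty U) h2 fun J Q => ?_
    rw [hq Q]
    rfl
  | succ n ih =>
    intro S U _ _ _ _ hU t ht
    -- the set of variables is `Unit ⊕ Fin n`
    have hcard : Fintype.card U = Fintype.card (Unit ⊕ Fin n) := by
      rw [hU, Fintype.card_sum, Fintype.card_unit, Fintype.card_fin, add_comm]
    let f : U ≃ Unit ⊕ Fin n := Fintype.equivOfCardEq hcard
    set t' : MixedForm K B M S (Unit ⊕ Fin n) := fun J Q => t J (Q ∘ f) with ht'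
    have htk : MixedKilled κ L t' := killed_rename_matrix f ht
    suffices h : t' ∈ 𝒜.A S (Unit ⊕ Fin n) by
      refine ren (Equiv.refl S) f.symm h fun J Q => ?_
      rw [ht']
      show t J Q = t J ((Q ∘ f.symm) ∘ f)
      congr 1
      funext x
      simp
    obtain ⟨d, Z, W, hZ, hW, hd⟩ := exists_dual hL
    obtain ⟨R, hR1, hR2, hR3⟩ := exists_inv hL hZ hW hd
    set s := mapForm R t' with hs
    have hsk : MixedKilled κ L s := mapForm_killed hR3 htk
    have hG : ∀ (k : ℕ) (a : Fin d), wordForm L s k (Z a) ∈ 𝒜.A (Fin k ⊕ S) (Fin n) :=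
      fun k a => ih (Fin k ⊕ S) (Fin n) (Fintype.card_fin n) _
        (wordForm_killed hL hsk k (isEnd_of_De (hZ a)))
    have hH : ∀ (k : ℕ) (a : Fin d), matrixForm (fun T : Fin k → B => W a * Pr L T) ∈
        𝒜.A (Fin k) Unit := by
      intro k a
      have h1 := word_mem hE hKS isEnd_one k
      have h2 : matrixForm (fun T : Fin k → B => P L (T ∘ Fin.rev) * 1) ∈ 𝒜.A (Fin k) Unit :=
        ren Fin.revPerm (Equiv.refl Unit) h1 fun J Q => rfl
      have h3 := mul_mem (hE (W a) (isEnd_of_De (hW a))) h2
      refine ren (Equiv.emptySum Empty (Fin k)) (Equiv.refl Unit) h3 fun J Q => ?_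
      simp only [matrixForm, Pr, Matrix.mul_one]
      rfl
    have hterm : ∀ (k : ℕ) (a : Fin d), (fun J Q => ∑ T : Fin k → B,
        matrixForm (fun T : Fin k → B => W a * Pr L T) T (fun _ => Q (Sum.inl ())) *
          wordForm L s k (Z a) (Sum.elim T J) (Q ∘ Sum.inr) :
          MixedForm K B M S (Unit ⊕ Fin n)) ∈ 𝒜.A S (Unit ⊕ Fin n) := by
      intro k a
      have a1 : (fun J Q => matrixForm (fun T : Fin k → B => W a * Pr L T) (J ∘ Sum.inr)
          (Q ∘ Sum.inl) : MixedForm K B M (Empty ⊕ Fin k) (Unit ⊕ Empty)) ∈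
          𝒜.A (Empty ⊕ Fin k) (Unit ⊕ Empty) :=
        ren (Equiv.emptySum Empty (Fin k)).symm (Equiv.sumEmpty Unit Empty).symm (hH k a)
          fun J Q => rfl
      have a2 : (fun J Q => wordForm L s k (Z a) J (Q ∘ Sum.inr) :
          MixedForm K B M (Fin k ⊕ S) (Empty ⊕ Fin n)) ∈ 𝒜.A (Fin k ⊕ S) (Empty ⊕ Fin n) :=
        ren (Equiv.refl _) (Equiv.emptySum Empty (Fin n)).symm (hG k a) fun J Q => rfl
      have a3 := cmp (r := fun J Q => ∑ T : Fin k → B,
        matrixForm (fun T : Fin k → B => W a * Pr L T) T (fun _ => Q (Sum.inl ())) *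
          wordForm L s k (Z a) (Sum.elim T (J ∘ Sum.inr)) (Q ∘ Sum.inr)) a1 a2 fun J Q => by
        refine Finset.sum_congr rfl fun T _ => ?_
        rw [sum_empty_fun]
        rfl
      exact ren (Equiv.emptySum Empty S) (Equiv.refl _) a3 fun J Q => rfl
    have hexp : t' = ∑ k ∈ range (Fintype.card B + 1), ∑ a : Fin d, (fun J Q => ∑ T : Fin k → B,
        matrixForm (fun T : Fin k → B => W a * Pr L T) T (fun _ => Q (Sum.inl ())) *
          wordForm L s k (Z a) (Sum.elim T J) (Q ∘ Sum.inr)) := by
      funext J Q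
      have h1 : t' J Q = sl s (Eo L Z W (Matrix.single (Q (Sum.inl ())).1 (Q (Sum.inl ())).2 1))
          J (Q ∘ Sum.inr) := by
        rw [hs, sl_mapForm, hR1, sl_single, elim_eta]
      rw [h1, Eo_apply, ← slL_apply, map_sum, Finset.sum_apply, Finset.sum_apply,
        Finset.sum_apply, Finset.sum_apply]
      refine Finset.sum_congr rfl fun k _ => ?_
      rw [map_sum, Finset.sum_apply, Finset.sum_apply, Finset.sum_apply, Finset.sum_apply]
      simp only [map_sum, Finset.sum_apply, map_smul, Pi.smul_apply, smul_eq_mul]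
      rw [Finset.sum_comm]
      refine Finset.sum_congr rfl fun a _ => Finset.sum_congr rfl fun T _ => ?_
      rw [Matrix.trace_mul_single]
      simp [matrixForm, wordForm, slL_apply]
    rw [hexp]
    exact Submodule.sum_mem _ fun k _ => Submodule.sum_mem _ fun a _ => hterm k a

end Pool.Agent.R918.KS
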