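import Pool.Agent.R918.Ks4
import Pool.Agent.R918.Ks5

set_option autoImplicit false
set_option linter.unusedSectionVars false

/-!
# One correspondence suffices
-/

open Finset Function

universe u

namespace Pool.Agent.R918.KS

open Pool.Agent.R914.K3P

variable {K : Type u} [Field K] {B ι M : Type} [Fintype B] [DecidableEq B] [Fintype M]
  [DecidableEq M] {κ : B → ι} {L : B → Matrix M M K} {𝒜 : MixedSystem K B M}

theorem eq_matrixForm (f : MixedForm K B M Unit Unit) :
    f = matrixForm (fun J : Unit → B => formMatrix f (J ())) := rfl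

/-- equivariance of the matrices -/
theorem equivariant {f : MixedForm K B M Unit Unit} (hf : MixedKilled κ L f) {u v : B}
    (hκ : κ u = κ v) (huv : u ≠ v) (b : B) :
    L u * L v * formMatrix f b - formMatrix f b * (L u * L v) =
      (2 : K) • ((if b = v then formMatrix f u else 0) - (if b = u then formMatrix f v else 0)) := by
  ext n m
  have h := hf u v hκ huv (fun _ => b) (fun _ => (m, n))
  simp only [Finset.univ_unique, Finset.sum_singleton] at h
  have e1 : ∀ x : B, update (fun _ : Unit => b) default x = fun _ => x := fun x => by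
    funext y; rw [Subsingleton.elim y default, update_self]
  have e2 : ∀ x : M × M, update (fun _ : Unit => (m, n)) default x = fun _ => x := fun x => by
    funext y; rw [Subsingleton.elim y default, update_self]
  simp only [e1, e2] at h
  rw [Finset.sum_sub_distrib] at h
  have e3 : (L u * L v * formMatrix f b - formMatrix f b * (L u * L v)) n m =
      ∑ p, (L u * L v) n p * f (fun _ => b) (fun _ => (m, p)) -
        ∑ p, (L u * L v) p m * f (fun _ => b) (fun _ => (p, n)) := by
    rw [Matrix.sub_apply, Matrix.mul_apply, Matrix.mul_apply]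
    congr 1
    refine Finset.sum_congr rfl fun p _ => ?_
    rw [mul_comm]
    rfl
  have e4 : ((2 : K) • ((if b = v then formMatrix f u else 0) -
      (if b = u then formMatrix f v else 0))) n m =
      2 * ((if b = v then f (fun _ => u) (fun _ => (m, n)) else 0) -
        (if b = u then f (fun _ => v) (fun _ => (m, n)) else 0)) := by
    rw [Matrix.smul_apply, Matrix.sub_apply, smul_eq_mul]
    congr 2 <;> split_ifs <;> rfl
  rw [e3, e4]
  linear_combination -h

theorem pair_alg [CharZero K] {g X Y : Matrix M M K} (hg : g * g = -1)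
    (h1 : g * X - X * g = (2 : K) • Y) (h2 : g * Y - Y * g = -((2 : K) • X)) :
    g * Y = -X ∧ Y * g = X := by
  have a1 : g * (g * X - X * g) = (2 : K) • (g * Y) := by rw [h1, Matrix.mul_smul]
  have a2 : (g * X - X * g) * g = (2 : K) • (Y * g) := by rw [h1, Matrix.smul_mul]
  have a3 : (2 : K) • (g * Y + Y * g) = 0 := by
    rw [smul_add, ← a1, ← a2, Matrix.mul_sub, Matrix.sub_mul, ← Matrix.mul_assoc g g, hg,
      Matrix.mul_assoc X g g, hg, ← Matrix.mul_assoc g X g]
    simp only [Matrix.neg_mul, Matrix.one_mul, Matrix.mul_neg, Matrix.mul_one]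
    abel
  have a4 : g * Y + Y * g = 0 := (smul_eq_zero.1 a3).resolve_left two_ne_zero
  have a5 : Y * g = -(g * Y) := by rw [eq_neg_iff_add_eq_zero, add_comm]; exact a4
  have a6 : (2 : K) • (g * Y) = (2 : K) • (-X) := by
    rw [smul_neg, ← h2, a5, sub_neg_eq_add, two_smul]
  have a7 : g * Y = -X := by
    have := congrArg (fun z => (2 : K)⁻¹ • z) a6
    simpa [smul_smul] using this
  exact ⟨a7, by rw [a5, a7, neg_neg]⟩

theorem sq_pair (hL : IsClifford L) {u v : B} (huv : u ≠ v) :
    L u * L v * (L u * L v) = -1 := by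
  rw [Matrix.mul_assoc, ← Matrix.mul_assoc (L v), hL.2 v u (Ne.symm huv), Matrix.neg_mul,
    Matrix.mul_neg, Matrix.mul_assoc (L u) (L v), hL.1, Matrix.mul_one, hL.1]

/-- the element of the commutant -/
theorem exists_delta [CharZero K] (hL : IsClifford L) {f : MixedForm K B M Unit Unit}
    (hf : MixedKilled κ L f) (b0 : B) : ∃ δ ∈ Dk κ L, ∀ b, κ b = κ b0 →
      formMatrix f b = L b * δ := by
  set F := formMatrix f with hF
  have hpair : ∀ u v, κ u = κ v → u ≠ v → L u * L v * F u = -F v ∧ F u * (L u * L v) = F v := by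
    intro u v hκ huv
    have h1 := equivariant hf hκ huv v
    rw [if_pos rfl, if_neg (Ne.symm huv), sub_zero] at h1
    have h2 := equivariant hf hκ huv u
    rw [if_neg huv, if_pos rfl, zero_sub, smul_neg] at h2
    exact pair_alg (sq_pair hL huv) h1 h2
  have hsame : ∀ b, κ b = κ b0 → L b * F b = L b0 * F b0 := by
    intro b hb
    by_cases h : b = b0
    · rw [h]
    · have h1 := (hpair b b0 hb h).1
      -- `F b0 = - L b L b0 F b`
      have h2 : F b0 = -(L b * L b0 * F b) := by rw [h1, neg_neg]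
      rw [h2, Matrix.mul_neg, hL.2 b b0 h, Matrix.neg_mul, Matrix.mul_neg, neg_neg,
        ← Matrix.mul_assoc, ← Matrix.mul_assoc, hL.1, Matrix.one_mul]
  refine ⟨L b0 * F b0, ?_, fun b hb => ?_⟩
  · have key : ∀ y, κ b0 = κ y → b0 ≠ y → L b0 * F b0 * (L b0 * L y) =
        L b0 * L y * (L b0 * F b0) := by
      intro y hκ hy
      obtain ⟨h1, h2⟩ := hpair b0 y hκ hy
      rw [Matrix.mul_assoc, h2]
      have h3 : L b0 * L y * (L b0 * F b0) = -(L b0 * (L b0 * L y * F b0)) := by
        have : L b0 * L y * (L b0 * F b0) = L b0 * (L y * L b0) * F b0 := by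
          simp only [Matrix.mul_assoc]
        rw [this, hL.2 y b0 (Ne.symm hy), Matrix.mul_neg, Matrix.neg_mul]
        simp only [Matrix.mul_assoc]
      rw [h3, h1, Matrix.mul_neg, neg_neg]
    intro x y hκ hxy
    by_cases hx : x = b0
    · subst hx; exact key y hκ hxy
    by_cases hy : y = b0
    · subst hy
      have h1 := key x hκ.symm (Ne.symm hxy)
      rw [hL.2 x y hxy, Matrix.mul_neg, Matrix.neg_mul, h1]
    · have h1 := equivariant hf hκ hxy b0
      rw [if_neg (Ne.symm hy), if_neg (Ne.symm hx), sub_zero, smul_zero] at h1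
      have h2 : L x * L y * F b0 = F b0 * (L x * L y) := sub_eq_zero.1 h1
      have h3 : L x * L y * L b0 = L b0 * (L x * L y) := by
        rw [Matrix.mul_assoc, hL.2 y b0 hy, Matrix.mul_neg, ← Matrix.mul_assoc,
          hL.2 x b0 hx, Matrix.neg_mul, neg_neg, Matrix.mul_assoc]
      rw [Matrix.mul_assoc, ← h2, ← Matrix.mul_assoc, ← h3, Matrix.mul_assoc]
  · rw [← hsame b hb, ← Matrix.mul_assoc, hL.1, Matrix.one_mul]

/-- the elements which give correspondences -/
def idl (𝒜 : MixedSystem K B M) (κ : B → ι) [DecidableEq ι] (L : B → Matrix M M K) (i : ι) :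
    Submodule K (Matrix M M K) where
  carrier := {Y | matrixForm (fun J : Unit → B => if κ (J ()) = i then L (J ()) * Y else 0) ∈
    𝒜.A Unit Unit}
  zero_mem' := by
    refine mem_congr (Submodule.zero_mem _) ?_
    funext J Q
    simp [matrixForm]
  add_mem' {X Y} hX hY := by
    refine mem_congr (Submodule.add_mem _ hX hY) ?_
    funext J Q
    simp only [matrixForm, Pi.add_apply, Matrix.mul_add]
    split_ifs <;> simp
  smul_mem' c X hX := by
    refine mem_congr (Submodule.smul_mem _ c hX) ?_
    funext J Q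
    simp only [matrixForm, Pi.smul_apply, Matrix.mul_smul]
    split_ifs <;> simp

variable [DecidableEq ι]

theorem mem_idl {i : ι} {Y : Matrix M M K} : Y ∈ idl 𝒜 κ L i ↔
    matrixForm (fun J : Unit → B => if κ (J ()) = i then L (J ()) * Y else 0) ∈
      𝒜.A Unit Unit := Iff.rfl

theorem idl_right (hE : EndomorphismsAlgebraic κ L 𝒜) {i : ι} {Y d : Matrix M M K}
    (hY : Y ∈ idl 𝒜 κ L i) (hd : d ∈ Dk κ L) : Y * d ∈ idl 𝒜 κ L i := by
  rw [mem_idl] at hY ⊢
  refine ren (Equiv.sumEmpty Unit Empty) (Equiv.refl Unit) (mul_mem hY (hE d hd)) fun J Q => ?_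
  simp only [matrixForm, comp_apply]
  have e : (if κ (J ()) = i then L (J ()) * (Y * d) else 0) =
      (if κ (J ()) = i then L (J ()) * Y else 0) * d := by
    split_ifs
    · rw [Matrix.mul_assoc]
    · rw [Matrix.zero_mul]
  rw [e]

theorem idl_left (hL : IsClifford L) (hE : EndomorphismsAlgebraic κ L 𝒜) {i : ι}
    {Y d : Matrix M M K} (hY : Y ∈ idl 𝒜 κ L i) (hd : d ∈ Dk κ L) : d * Y ∈ idl 𝒜 κ L i := by
  by_cases hi : ∃ b, κ b = i
  · obtain ⟨b0, rfl⟩ := hi
    rw [mem_idl] at hY ⊢
    refine ren (Equiv.emptySum Empty Unit) (Equiv.refl Unit)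
      (mul_mem (hE _ (conj_mem hL hd b0)) hY) fun J Q => ?_
    simp only [matrixForm, comp_apply]
    have e : (if κ (J ()) = κ b0 then L (J ()) * (d * Y) else 0) =
        (L b0 * d * L b0) * (if κ (J ()) = κ b0 then L (J ()) * Y else 0) := by
      split_ifs with h
      · by_cases hb : J () = b0
        · rw [hb]
          have : L b0 * d * L b0 * (L b0 * Y) = L b0 * d * (L b0 * L b0) * Y := by
            simp only [Matrix.mul_assoc]
          rw [this, (hL.1 b0), Matrix.mul_one, Matrix.mul_assoc]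
        · have h1 := hd b0 (J ()) h.symm (Ne.symm hb)
          have : L b0 * d * L b0 * (L (J ()) * Y) = L b0 * (d * (L b0 * L (J ()))) * Y := by
            simp only [Matrix.mul_assoc]
          rw [this, h1]
          have : L b0 * (L b0 * L (J ()) * d) * Y = (L b0 * L b0) * (L (J ()) * (d * Y)) := by
            simp only [Matrix.mul_assoc]
          rw [this, hL.1, Matrix.one_mul]
      · rw [Matrix.mul_zero]
    rw [e]
  · rw [mem_idl]
    refine mem_congr (Submodule.zero_mem _) ?_
    funext J Q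
    have : ¬ κ (J ()) = i := fun h => hi ⟨_, h⟩
    simp [matrixForm, this]

/-- restriction of a correspondence to a block -/
theorem restrict_mem {i : ι} (hP : blockForm K M κ i ∈ 𝒜.A Bool Empty)
    {f : MixedForm K B M Unit Unit} (hf : f ∈ 𝒜.A Unit Unit) :
    matrixForm (fun J : Unit → B => if κ (J ()) = i then formMatrix f (J ()) else 0) ∈
      𝒜.A Unit Unit := by
  have a1 : (fun J Q => blockForm K M κ i (fun x => if x = true then J (Sum.inl ()) else
      J (Sum.inr ())) Empty.elim :
      MixedForm K B M (Unit ⊕ Unit) (Empty ⊕ Empty)) ∈ 𝒜.A (Unit ⊕ Unit) (Empty ⊕ Empty) := by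
    refine ren (⟨fun x => if x = true then Sum.inl () else Sum.inr (),
      fun x => Sum.elim (fun _ => true) (fun _ => false) x, fun x => by cases x <;> rfl,
      fun x => by rcases x with x | x <;> rfl⟩ : Bool ≃ Unit ⊕ Unit)
      (Equiv.sumEmpty Empty Empty).symm hP fun J Q => ?_
    congr 1
    · funext x
      cases x <;> rfl
    · funext x
      exact x.elim
  have a2 : (fun J Q => f (J ∘ Sum.inl) (Q ∘ Sum.inr) :
      MixedForm K B M (Unit ⊕ Empty) (Empty ⊕ Unit)) ∈ 𝒜.A (Unit ⊕ Empty) (Empty ⊕ Unit) :=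
    ren (Equiv.sumEmpty Unit Empty).symm (Equiv.emptySum Empty Unit).symm hf fun J Q => rfl
  have a3 : (fun J Q => matrixForm (fun J : Unit → B => if κ (J ()) = i then
      formMatrix f (J ()) else 0) (J ∘ Sum.inl) (Q ∘ Sum.inr) :
      MixedForm K B M (Unit ⊕ Empty) (Empty ⊕ Unit)) ∈ 𝒜.A (Unit ⊕ Empty) (Empty ⊕ Unit) := by
    refine cmp a1 a2 fun J Q => ?_
    rw [sum_unit_fun]
    simp only [sum_empty_fun]
    rw [Fintype.sum_eq_single (J (Sum.inl ()))]
    · simp only [matrixForm, blockForm, comp_apply, Sum.elim_inl, Sum.elim_inr, if_true,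
        Bool.false_eq_true, if_false, true_and]
      split_ifs with h
      · rw [one_mul]
        rfl
      · rw [zero_mul]
        rfl
    · intro x hx
      simp only [blockForm, comp_apply, Sum.elim_inl, Sum.elim_inr, if_true,
        Bool.false_eq_true, if_false]
      rw [if_neg, zero_mul]
      rintro ⟨h, -⟩
      exact hx h.symm
  exact ren (Equiv.sumEmpty Unit Empty) (Equiv.emptySum Empty Unit) a3 fun J Q => rfl

/-- the Kuga-Satake form from its restrictions -/
theorem ks_mem [Fintype ι] (h : ∀ i, (∃ b, κ b = i) → (1 : Matrix M M K) ∈ idl 𝒜 κ L i) :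
    matrixForm (fun J : Unit → B => L (J ())) ∈ 𝒜.A Unit Unit := by
  have h1 : ∀ i, matrixForm (fun J : Unit → B => if κ (J ()) = i then L (J ()) * 1 else 0) ∈
      𝒜.A Unit Unit := by
    intro i
    by_cases hi : ∃ b, κ b = i
    · exact h i hi
    · refine mem_congr (Submodule.zero_mem _) ?_
      funext J Q
      have : ¬ κ (J ()) = i := fun h => hi ⟨_, h⟩
      simp [matrixForm, this]
  refine mem_congr (Submodule.sum_mem _ (t := Finset.univ) fun i _ => h1 i) ?_
  funext J Q
  rw [Finset.sum_apply, Finset.sum_apply, Finset.sum_eq_single (κ (J ()))]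
  · simp [matrixForm]
  · intro i _ hi
    simp [matrixForm, Ne.symm hi]
  · intro h; exact absurd (Finset.mem_univ _) h

/-- the element of the ideal given by a correspondence -/
theorem exists_mem_idl [CharZero K] (hL : IsClifford L) {i : ι}
    (hP : blockForm K M κ i ∈ 𝒜.A Bool Empty) {f : MixedForm K B M Unit Unit}
    (hf : f ∈ 𝒜.A Unit Unit) (hk : MixedKilled κ L f) {b : B} (hb : κ b = i) :
    ∃ δ ∈ Dk κ L, δ ∈ idl 𝒜 κ L i ∧ formMatrix f b = L b * δ := by
  subst hb
  obtain ⟨δ, hδ, h⟩ := exists_delta hL hk b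
  refine ⟨δ, hδ, ?_, h b rfl⟩
  rw [mem_idl]
  refine mem_congr (restrict_mem hP hf) ?_
  funext J Q
  simp only [matrixForm]
  split_ifs with h1
  · rw [h _ h1]
  · rfl

theorem killed_ks (hL : IsClifford L) :
    MixedKilled κ L (matrixForm (fun J : Unit → B => L (J ()))) := by
  intro u v _ huv J Q
  have h1 := br_single hL huv (J ())
  have h2 := congrFun (congrFun h1 (Q ()).2) (Q ()).1
  simp only [Finset.univ_unique, Finset.sum_singleton]
  have e1 : ∀ x : B, update J default x () = x := fun x => by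
    rw [show (() : Unit) = default from rfl, update_self]
  have e2 : ∀ x : M × M, update Q default x () = x := fun x => by
    rw [show (() : Unit) = default from rfl, update_self]
  simp only [matrixForm, e1, e2]
  rw [Finset.sum_sub_distrib]
  have e3 : (L u * L v * L (J ()) - L (J ()) * (L u * L v)) (Q ()).2 (Q ()).1 =
      ∑ p, (L u * L v) (Q ()).2 p * L (J ()) p (Q ()).1 -
        ∑ p, (L u * L v) p (Q ()).1 * L (J ()) (Q ()).2 p := by
    rw [Matrix.sub_apply, Matrix.mul_apply, Matrix.mul_apply]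
    congr 1
    refine Finset.sum_congr rfl fun p _ => mul_comm _ _
  have e4 : ((2 : K) • ((if J () = v then L u else 0) -
      (if J () = u then L v else 0))) (Q ()).2 (Q ()).1 =
      2 * ((if J () = v then L u (Q ()).2 (Q ()).1 else 0) -
        (if J () = u then L v (Q ()).2 (Q ()).1 else 0)) := by
    rw [Matrix.smul_apply, Matrix.sub_apply, smul_eq_mul]
    congr 2 <;> split_ifs <;> rfl
  rw [e3, e4] at h2
  have e5 : ∀ (j : Unit), J j = J () := fun j => rfl
  have e6 : ∀ (j : Unit), Q j = Q () := fun j => rfl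
  simp only [e5, e6]
  linear_combination -h2

theorem block_aux (a c u v : B) (i : ι) (hκ : κ u = κ v) (huv : u ≠ v) :
    ((if a = v then if u = c ∧ κ v = i then (1 : K) else 0 else 0) -
      if a = u then if v = c ∧ κ v = i then (1 : K) else 0 else 0) +
    ((if c = v then if a = u ∧ κ a = i then (1 : K) else 0 else 0) -
      if c = u then if a = v ∧ κ a = i then (1 : K) else 0 else 0) = 0 := by
  have e : (c = v) = (v = c) := propext eq_comm
  have e' : (c = u) = (u = c) := propext eq_comm
  simp only [e, e']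
  by_cases h1 : a = u
  · subst h1
    by_cases h3 : a = c
    · subst h3
      simp [huv, Ne.symm huv]
    · by_cases h4 : v = c <;> by_cases h5 : κ v = i <;>
        simp [huv, h3, h4, h5, hκ]
  · by_cases h2 : a = v
    · subst h2
      by_cases h4 : a = c
      · subst h4
        simp [h1, huv]
      · by_cases h3 : u = c <;> by_cases h5 : κ a = i <;>
          simp [h1, h3, h4, h5]
    · simp [h1, h2]

theorem killed_block (i : ι) : MixedKilled κ L (blockForm K M κ i) := by
  intro u v hκ huv J Q
  rw [Finset.univ_eq_empty (α := Empty), Finset.sum_empty, add_zero, Fintype.sum_bool]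
  have e1 : ∀ x : B, update J true x true = x := fun x => update_self _ _ _
  have e2 : ∀ x : B, update J true x false = J false := fun x => update_of_ne (by simp) _ _
  have e3 : ∀ x : B, update J false x false = x := fun x => update_self _ _ _
  have e4 : ∀ x : B, update J false x true = J true := fun x => update_of_ne (by simp) _ _
  simp only [blockForm, e1, e2, e3, e4, hκ]
  rw [block_aux _ _ u v i hκ huv, mul_zero]

/-- **Main theorem.** -/
theorem one_suffices [CharZero K] [Fintype ι] [Nonempty M] (hL : IsClifford L)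
    (hE : EndomorphismsAlgebraic κ L 𝒜)
    (hodd : ∀ i, (∃ b, κ b = i) → Odd (univ.filter fun b => κ b = i).card)
    (hP : ∀ i, blockForm K M κ i ∈ 𝒜.A Bool Empty)
    (hN : ∀ b0 : B, ∃ f ∈ 𝒜.A Unit Unit, MixedKilled κ L f ∧ ∃ b, κ b = κ b0 ∧
      formMatrix f b ≠ 0) :
    matrixForm (fun J : Unit → B => L (J ())) ∈ 𝒜.A Unit Unit := by
  refine ks_mem (κ := κ) fun i hi => ?_
  obtain ⟨b0, rfl⟩ := hi
  obtain ⟨f, hf, hk, b, hb, hne⟩ := hN b0
  obtain ⟨δ, h1, h2, h3⟩ := exists_mem_idl hL (hP (κ b0)) hf hk hb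
  exact one_mem_ideal hL hodd _ (fun x hx d hd => idl_right hE hx hd)
    (fun x hx d hd => idl_left hL hE hx hd) h2 h1 fun h0 => hne (by rw [h3, h0, Matrix.mul_zero])

theorem one_suffices' [CharZero K] [Fintype ι] [Nonempty M] (hL : IsClifford L)
    (hE : EndomorphismsAlgebraic κ L 𝒜)
    (hP : ∀ i, blockForm K M κ i ∈ 𝒜.A Bool Empty)
    (hN : ∀ b0 : B, ∃ f ∈ 𝒜.A Unit Unit, MixedKilled κ L f ∧ ∃ b, κ b = κ b0 ∧
      IsUnit (formMatrix f b)) :
    matrixForm (fun J : Unit → B => L (J ())) ∈ 𝒜.A Unit Unit := by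
  refine ks_mem (κ := κ) fun i hi => ?_
  obtain ⟨b0, rfl⟩ := hi
  obtain ⟨f, hf, hk, b, hb, hne⟩ := hN b0
  obtain ⟨δ, h1, h2, h3⟩ := exists_mem_idl hL (hP (κ b0)) hf hk hb
  have hδ : IsUnit δ := by
    have h4 : δ = L b * formMatrix f b := by rw [h3, ← Matrix.mul_assoc, hL.1, Matrix.one_mul]
    rw [h4]
    exact (IsUnit.of_mul_eq_one _ (hL.1 b)).mul hne
  obtain ⟨w, rfl⟩ := hδ
  have hinv : (↑w⁻¹ : Matrix M M K) ∈ Dk κ L := by
    intro u v hκ huv
    have h5 := h1 u v hκ huv
    have h6 := congrArg (fun z => (↑w⁻¹ : Matrix M M K) * z * (↑w⁻¹ : Matrix M M K)) h5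
    rw [← Matrix.mul_assoc, Units.inv_mul, Matrix.one_mul] at h6
    rw [h6]
    simp only [Matrix.mul_assoc]
    rw [Units.mul_inv, Matrix.mul_one]
  have h7 := idl_right hE h2 hinv
  rwa [Units.mul_inv] at h7

end Pool.Agent.R918.KS
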