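import Pool.Agent.R918.Ks6
import Pool.Agent.R918.KsEndDefs

set_option autoImplicit false
set_option linter.unusedSectionVars false

/-!
# The powers of the Kuga-Satake variety
-/

open Finset Function

universe u

namespace Pool.Agent.R918.KS

open Pool.Agent.R914.K3P

variable {K : Type u} [Field K] {B ι M : Type} [Fintype B] [DecidableEq B] [Fintype M]
  [DecidableEq M] {κ : B → ι} {L : B → Matrix M M K} {𝒞 : EndSystem K M}

theorem erename {U U' : Type} [Finite U] [Finite U'] (f : U ≃ U') {t : EndForm K M U}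
    (ht : t ∈ 𝒞.A U) {t' : EndForm K M U'} (h : ∀ Q, t' Q = t (Q ∘ f)) : t' ∈ 𝒞.A U' := by
  have h1 := 𝒞.rename f t ht
  convert h1 using 1
  funext Q
  exact h Q

theorem ecomp {U D U' : Type} [Finite U] [Fintype D] [DecidableEq D] [Finite U']
    {t : EndForm K M (U ⊕ D)} {s : EndForm K M (D ⊕ U')} (ht : t ∈ 𝒞.A (U ⊕ D))
    (hs : s ∈ 𝒞.A (D ⊕ U')) {r : EndForm K M (U ⊕ U')}
    (h : ∀ Q, r Q = ∑ R : D → M × M, t (Sum.elim (Q ∘ Sum.inl) R) *
      s (Sum.elim (Prod.swap ∘ R) (Q ∘ Sum.inr))) : r ∈ 𝒞.A (U ⊕ U') := by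
  have h1 := 𝒞.comp t s ht hs
  convert h1 using 1
  funext Q
  exact h Q

/-- vector variables replaced by matrix variables -/
def Phi (L : B → Matrix M M K) {S U : Type} [Fintype S] [DecidableEq S]
    (t : MixedForm K B M S U) : EndForm K M (S ⊕ U) := fun Q =>
  ∑ J : S → B, (∏ j, L (J j) (Q (Sum.inl j)).2 (Q (Sum.inl j)).1) * t J (Q ∘ Sum.inr)

theorem Phi_add {S U : Type} [Fintype S] [DecidableEq S] (t s : MixedForm K B M S U) :
    Phi L (t + s) = Phi L t + Phi L s := by
  funext Q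
  simp only [Phi, Pi.add_apply, mul_add, Finset.sum_add_distrib]

theorem Phi_smul {S U : Type} [Fintype S] [DecidableEq S] (c : K) (t : MixedForm K B M S U) :
    Phi L (c • t) = c • Phi L t := by
  funext Q
  simp only [Phi, Pi.smul_apply, smul_eq_mul, Finset.mul_sum]
  refine Finset.sum_congr rfl fun J _ => ?_
  ring

theorem Phi_zero {S U : Type} [Fintype S] [DecidableEq S] :
    Phi L (0 : MixedForm K B M S U) = 0 := by
  funext Q
  simp [Phi]

/-- the system of mixed forms -/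
def mixA (𝒞 : EndSystem K M) (L : B → Matrix M M K) (S U : Type) :
    Submodule K (MixedForm K B M S U) where
  carrier := {t | ∀ (_ : Fintype S) (_ : DecidableEq S), Phi L t ∈ 𝒞.A (S ⊕ U)}
  zero_mem' i1 i2 := by rw [Phi_zero]; exact Submodule.zero_mem _
  add_mem' {a b} ha hb i1 i2 := by rw [Phi_add]; exact Submodule.add_mem _ (ha i1 i2) (hb i1 i2)
  smul_mem' c a ha i1 i2 := by rw [Phi_smul]; exact Submodule.smul_mem _ _ (ha i1 i2)

theorem mem_mixA {S U : Type} [i1 : Fintype S] [i2 : DecidableEq S] {t : MixedForm K B M S U} :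
    t ∈ mixA 𝒞 L S U ↔ Phi L t ∈ 𝒞.A (S ⊕ U) := by
  constructor
  · intro h; exact h i1 i2
  · intro h j1 j2
    rw [Subsingleton.elim j1 i1, Subsingleton.elim j2 i2]
    exact h

theorem trace_LL [CharZero K] (hL : IsClifford L) (b c : B) :
    (L b * L c).trace = if b = c then (Fintype.card M : K) else 0 := by
  split_ifs with h
  · subst h; rw [hL.1, Matrix.trace_one]
  · have h1 : (L b * L c).trace = -(L b * L c).trace := by
      conv_lhs => rw [hL.2 b c h, Matrix.trace_neg, Matrix.trace_mul_comm]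
    have h2 : (2 : K) * (L b * L c).trace = 0 := by linear_combination h1
    exact (mul_eq_zero.1 h2).resolve_left two_ne_zero

theorem pair_sum [CharZero K] (hL : IsClifford L) {C : Type} [Fintype C] [DecidableEq C]
    (I I' : C → B) : ∑ R : C → M × M, (∏ c, L (I c) (R c).2 (R c).1) *
      (∏ c, L (I' c) (R c).1 (R c).2) = if I = I' then (Fintype.card M : K) ^ Fintype.card C
        else 0 := by
  have h1 : ∀ R : C → M × M, (∏ c, L (I c) (R c).2 (R c).1) * (∏ c, L (I' c) (R c).1 (R c).2) =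
      ∏ c, (fun (c : C) (r : M × M) => L (I c) r.2 r.1 * L (I' c) r.1 r.2) c (R c) := by
    intro R
    rw [← Finset.prod_mul_distrib]
  simp only [h1]
  rw [← Fintype.prod_sum fun (c : C) (r : M × M) => L (I c) r.2 r.1 * L (I' c) r.1 r.2]
  have h2 : ∀ c, ∑ r : M × M, L (I c) r.2 r.1 * L (I' c) r.1 r.2 = (L (I c) * L (I' c)).trace := by
    intro c
    rw [Fintype.sum_prod_type_right]
    simp only [Matrix.trace, Matrix.diag, Matrix.mul_apply]
  simp only [h2, trace_LL hL]
  split_ifs with h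
  · subst h
    simp
  · obtain ⟨c, hc⟩ := Function.ne_iff.1 h
    exact Finset.prod_eq_zero (Finset.mem_univ c) (if_neg hc)

theorem reorder {X1 X2 X3 X4 X5 X6 : Type} [Fintype X1] [Fintype X2] [Fintype X3] [Fintype X4]
    [Fintype X5] [Fintype X6] (f : X1 → X2 → X3 → X4 → X5 → X6 → K) :
    ∑ R, ∑ R', ∑ J, ∑ I, ∑ I', ∑ J', f R R' J I I' J' =
      ∑ J, ∑ J', ∑ I, ∑ I', ∑ R', ∑ R, f R R' J I I' J' := by
  simp only [← Finset.sum_product']
  refine Finset.sum_bij' (fun x _ => (x.2.2.1, x.2.2.2.2.2, x.2.2.2.1, x.2.2.2.2.1, x.2.1, x.1))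
    (fun y _ => (y.2.2.2.2.2, y.2.2.2.2.1, y.1, y.2.2.1, y.2.2.2.1, y.2.1)) ?_ ?_ ?_ ?_ ?_ <;>
    simp

theorem Phi_comp [CharZero K] (hL : IsClifford L) {S C S' U D U' : Type} [Fintype S]
    [DecidableEq S] [Fintype C] [DecidableEq C] [Fintype S'] [DecidableEq S'] [Fintype D]
    [DecidableEq D] (t : MixedForm K B M (S ⊕ C) (U ⊕ D)) (s : MixedForm K B M (C ⊕ S') (D ⊕ U'))
    (Q : S ⊕ S' → M × M) (P : U ⊕ U' → M × M) :
    (Fintype.card M : K) ^ Fintype.card C * Phi L (mixedComp t s) (Sum.elim Q P) =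
      ∑ R : C → M × M, ∑ R' : D → M × M,
        Phi L t (Sum.elim (Sum.elim (Q ∘ Sum.inl) R) (Sum.elim (P ∘ Sum.inl) R')) *
        Phi L s (Sum.elim (Sum.elim (Prod.swap ∘ R) (Q ∘ Sum.inr))
          (Sum.elim (Prod.swap ∘ R') (P ∘ Sum.inr))) := by
  -- abbreviations
  let a : (S → B) → K := fun J => ∏ j, L (J j) (Q (Sum.inl j)).2 (Q (Sum.inl j)).1
  let a' : (S' → B) → K := fun J => ∏ j, L (J j) (Q (Sum.inr j)).2 (Q (Sum.inr j)).1
  have e1 : ∀ (R : C → M × M) (R' : D → M × M),
      Phi L t (Sum.elim (Sum.elim (Q ∘ Sum.inl) R) (Sum.elim (P ∘ Sum.inl) R')) =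
      ∑ J : S → B, ∑ I : C → B, a J * (∏ c, L (I c) (R c).2 (R c).1) *
        t (Sum.elim J I) (Sum.elim (P ∘ Sum.inl) R') := by
    intro R R'
    unfold Phi
    rw [← (Equiv.sumArrowEquivProdArrow S C B).symm.sum_comp, Fintype.sum_prod_type]
    refine Finset.sum_congr rfl fun J _ => Finset.sum_congr rfl fun I _ => ?_
    rw [Fintype.prod_sum_type]
    rfl
  have e2 : ∀ (R : C → M × M) (R' : D → M × M),
      Phi L s (Sum.elim (Sum.elim (Prod.swap ∘ R) (Q ∘ Sum.inr))
          (Sum.elim (Prod.swap ∘ R') (P ∘ Sum.inr))) =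
      ∑ I : C → B, ∑ J : S' → B, (∏ c, L (I c) (R c).1 (R c).2) * a' J *
        s (Sum.elim I J) (Sum.elim (Prod.swap ∘ R') (P ∘ Sum.inr)) := by
    intro R R'
    unfold Phi
    rw [← (Equiv.sumArrowEquivProdArrow C S' B).symm.sum_comp, Fintype.sum_prod_type]
    refine Finset.sum_congr rfl fun J _ => Finset.sum_congr rfl fun I _ => ?_
    rw [Fintype.prod_sum_type]
    rfl
  have e3 : Phi L (mixedComp t s) (Sum.elim Q P) = ∑ J : S → B, ∑ J' : S' → B, ∑ I : C → B,
      ∑ R' : D → M × M, a J * a' J' * (t (Sum.elim J I) (Sum.elim (P ∘ Sum.inl) R') *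
        s (Sum.elim I J') (Sum.elim (Prod.swap ∘ R') (P ∘ Sum.inr))) := by
    unfold Phi
    rw [← (Equiv.sumArrowEquivProdArrow S S' B).symm.sum_comp, Fintype.sum_prod_type]
    refine Finset.sum_congr rfl fun J _ => Finset.sum_congr rfl fun J' _ => ?_
    rw [Fintype.prod_sum_type]
    unfold mixedComp
    rw [Finset.mul_sum]
    refine Finset.sum_congr rfl fun I _ => ?_
    rw [Finset.mul_sum]
    refine Finset.sum_congr rfl fun R' _ => ?_
    rfl
  -- the right hand side
  have e4 : (∑ R : C → M × M, ∑ R' : D → M × M,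
        Phi L t (Sum.elim (Sum.elim (Q ∘ Sum.inl) R) (Sum.elim (P ∘ Sum.inl) R')) *
        Phi L s (Sum.elim (Sum.elim (Prod.swap ∘ R) (Q ∘ Sum.inr))
          (Sum.elim (Prod.swap ∘ R') (P ∘ Sum.inr)))) =
      ∑ J : S → B, ∑ J' : S' → B, ∑ I : C → B, ∑ I' : C → B, ∑ R' : D → M × M,
        (∑ R : C → M × M, (∏ c, L (I c) (R c).2 (R c).1) * (∏ c, L (I' c) (R c).1 (R c).2)) *
        (a J * a' J' * (t (Sum.elim J I) (Sum.elim (P ∘ Sum.inl) R') *
        s (Sum.elim I' J') (Sum.elim (Prod.swap ∘ R') (P ∘ Sum.inr)))) := by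
    have e5 : ∀ (R : C → M × M) (R' : D → M × M),
        Phi L t (Sum.elim (Sum.elim (Q ∘ Sum.inl) R) (Sum.elim (P ∘ Sum.inl) R')) *
        Phi L s (Sum.elim (Sum.elim (Prod.swap ∘ R) (Q ∘ Sum.inr))
          (Sum.elim (Prod.swap ∘ R') (P ∘ Sum.inr))) =
        ∑ J : S → B, ∑ I : C → B, ∑ I' : C → B, ∑ J' : S' → B,
          (∏ c, L (I c) (R c).2 (R c).1) * (∏ c, L (I' c) (R c).1 (R c).2) *
          (a J * a' J' * (t (Sum.elim J I) (Sum.elim (P ∘ Sum.inl) R') *
          s (Sum.elim I' J') (Sum.elim (Prod.swap ∘ R') (P ∘ Sum.inr)))) := by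
      intro R R'
      rw [e1, e2, Finset.sum_mul]
      refine Finset.sum_congr rfl fun J _ => ?_
      rw [Finset.sum_mul]
      refine Finset.sum_congr rfl fun I _ => ?_
      rw [Finset.mul_sum]
      refine Finset.sum_congr rfl fun I' _ => ?_
      rw [Finset.mul_sum]
      refine Finset.sum_congr rfl fun J' _ => ?_
      ring
    simp only [e5]
    rw [reorder]
    refine Finset.sum_congr rfl fun J _ => Finset.sum_congr rfl fun J' _ =>
      Finset.sum_congr rfl fun I _ => Finset.sum_congr rfl fun I' _ =>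
      Finset.sum_congr rfl fun R' _ => ?_
    rw [Finset.sum_mul]
  rw [e3, e4]
  simp only [pair_sum hL]
  rw [Finset.mul_sum]
  refine Finset.sum_congr rfl fun J _ => ?_
  rw [Finset.mul_sum]
  refine Finset.sum_congr rfl fun J' _ => ?_
  rw [Finset.mul_sum]
  refine Finset.sum_congr rfl fun I _ => ?_
  rw [Finset.sum_eq_single I]
  · rw [Finset.mul_sum]
    refine Finset.sum_congr rfl fun R' _ => ?_
    rw [if_pos rfl]
  · intro I' _ hI
    refine Finset.sum_eq_zero fun R' _ => ?_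
    rw [if_neg (Ne.symm hI), zero_mul]
  · intro h; exact absurd (Finset.mem_univ _) h

theorem mix_scalar (hθ : casimirForm L ∈ 𝒞.A Bool) :
    (fun J _ => if J true = J false then 1 else 0 : MixedForm K B M Bool Empty) ∈
      mixA 𝒞 L Bool Empty := by
  rw [mem_mixA]
  refine erename (Equiv.sumEmpty Bool Empty).symm hθ fun Q => ?_
  unfold Phi casimirForm
  rw [← (Equiv.boolArrowEquivProd B).symm.sum_comp, Fintype.sum_prod_type]
  refine Finset.sum_congr rfl fun x _ => ?_
  rw [Finset.sum_eq_single x]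
  · rw [Fintype.prod_bool]
    simp [Equiv.boolArrowEquivProd]
  · intro y _ hy
    simp [Equiv.boolArrowEquivProd, hy]
  · intro h; exact absurd (Finset.mem_univ _) h

theorem mix_rename {S S' U U' : Type} [Finite S] [Finite S'] [Finite U] [Finite U'] (e : S ≃ S')
    (f : U ≃ U') (t : MixedForm K B M S U) (ht : t ∈ mixA 𝒞 L S U) :
    (fun J Q => t (J ∘ e) (Q ∘ f) : MixedForm K B M S' U') ∈ mixA 𝒞 L S' U' := by
  have := Fintype.ofFinite S
  have := Fintype.ofFinite S'
  classical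
  rw [mem_mixA] at ht ⊢
  refine erename (Equiv.sumCongr e f) ht fun Q => ?_
  unfold Phi
  refine Fintype.sum_equiv (Equiv.arrowCongr e.symm (Equiv.refl B)) _ _ fun J => ?_
  congr 1
  · refine (Fintype.prod_equiv e _ _ fun j => ?_).symm
    simp [Equiv.arrowCongr]

theorem mix_comp [CharZero K] [Nonempty M] (hL : IsClifford L) {S C S' U D U' : Type} [Finite S]
    [Fintype C] [DecidableEq C] [Finite S'] [Finite U] [Fintype D] [DecidableEq D] [Finite U']
    (t : MixedForm K B M (S ⊕ C) (U ⊕ D)) (s : MixedForm K B M (C ⊕ S') (D ⊕ U'))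
    (ht : t ∈ mixA 𝒞 L (S ⊕ C) (U ⊕ D)) (hs : s ∈ mixA 𝒞 L (C ⊕ S') (D ⊕ U')) :
    mixedComp t s ∈ mixA 𝒞 L (S ⊕ S') (U ⊕ U') := by
  have := Fintype.ofFinite S
  have := Fintype.ofFinite S'
  classical
  rw [mem_mixA] at ht hs ⊢
  have h1 : (fun Q => Phi L t (Q ∘ Equiv.sumSumSumComm S C U D) :
      EndForm K M ((S ⊕ U) ⊕ (C ⊕ D))) ∈ 𝒞.A ((S ⊕ U) ⊕ (C ⊕ D)) :=
    erename (Equiv.sumSumSumComm S C U D) ht fun Q => rfl
  have h2 : (fun Q => Phi L s (Q ∘ Equiv.sumSumSumComm C S' D U') :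
      EndForm K M ((C ⊕ D) ⊕ (S' ⊕ U'))) ∈ 𝒞.A ((C ⊕ D) ⊕ (S' ⊕ U')) :=
    erename (Equiv.sumSumSumComm C S' D U') hs fun Q => rfl
  have h3 : (fun Q => (Fintype.card M : K) ^ Fintype.card C *
      Phi L (mixedComp t s) (Q ∘ Equiv.sumSumSumComm S S' U U') :
      EndForm K M ((S ⊕ U) ⊕ (S' ⊕ U'))) ∈ 𝒞.A ((S ⊕ U) ⊕ (S' ⊕ U')) := by
    refine ecomp h1 h2 fun Q => ?_
    have e0 : (Q ∘ Equiv.sumSumSumComm S S' U U') = Sum.elim
        (fun x => Q (Equiv.sumSumSumComm S S' U U' (Sum.inl x)))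
        (fun x => Q (Equiv.sumSumSumComm S S' U U' (Sum.inr x))) := by
      funext x
      rcases x with x | x <;> rfl
    rw [e0, Phi_comp hL, ← (Equiv.sumArrowEquivProdArrow C D (M × M)).symm.sum_comp,
      Fintype.sum_prod_type]
    refine Finset.sum_congr rfl fun R _ => Finset.sum_congr rfl fun R' _ => ?_
    congr 1
    · congr 1
      funext x
      rcases x with (x | x) | (x | x) <;> rfl
    · congr 1
      funext x
      rcases x with (x | x) | (x | x) <;> rfl
  have h4 : (fun Q => (Fintype.card M : K) ^ Fintype.card C * Phi L (mixedComp t s) Q :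
      EndForm K M ((S ⊕ S') ⊕ (U ⊕ U'))) ∈ 𝒞.A ((S ⊕ S') ⊕ (U ⊕ U')) := by
    refine erename (Equiv.sumSumSumComm S S' U U').symm h3 fun Q => ?_
    congr 2
    funext x
    rcases x with (x | x) | (x | x) <;> rfl
  have hN : (Fintype.card M : K) ^ Fintype.card C ≠ 0 :=
    pow_ne_zero _ (by exact_mod_cast Fintype.card_ne_zero)
  have h5 := Submodule.smul_mem _ ((Fintype.card M : K) ^ Fintype.card C)⁻¹ h4
  convert h5 using 1
  funext Q
  rw [Pi.smul_apply, smul_eq_mul, inv_mul_cancel_left₀ hN]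

/-- the system of mixed forms -/
def mix [CharZero K] [Nonempty M] (hL : IsClifford L) (hθ : casimirForm L ∈ 𝒞.A Bool) :
    MixedSystem K B M where
  A := mixA 𝒞 L
  const := by
    rw [mem_mixA]
    refine erename (Equiv.sumEmpty Empty Empty).symm 𝒞.const fun Q => ?_
    unfold Phi
    rw [sum_empty_fun, Fintype.prod_empty, one_mul]
  scalar := mix_scalar hθ
  trace := by
    rw [mem_mixA]
    refine erename (Equiv.emptySum Empty (Fin 3)).symm 𝒞.trace fun Q => ?_
    unfold Phi
    rw [sum_empty_fun, Fintype.prod_empty, one_mul]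
    rfl
  rename {_ _ _ _} _ _ _ _ e f t ht := mix_rename e f t ht
  comp {_ _ _ _ _ _} _ _ _ _ _ _ _ _ t s ht hs := mix_comp hL t s ht hs

theorem mix_endo [CharZero K] [Nonempty M] (hL : IsClifford L)
    (hθ : casimirForm L ∈ 𝒞.A Bool) (hE : EndAlgebraic κ L 𝒞) :
    EndomorphismsAlgebraic κ L (mix hL hθ) := by
  intro Z hZ
  show _ ∈ mixA 𝒞 L Empty Unit
  rw [mem_mixA]
  refine erename (Equiv.emptySum Empty Unit).symm (hE Z hZ) fun Q => ?_
  unfold Phi
  rw [sum_empty_fun, Fintype.prod_empty, one_mul]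
  rfl

theorem mix_ks [CharZero K] [Nonempty M] (hL : IsClifford L)
    (hθ : casimirForm L ∈ 𝒞.A Bool) : KugaSatakeAlgebraic L (mix hL hθ) := by
  show _ ∈ mixA 𝒞 L Unit Unit
  rw [mem_mixA]
  refine erename (⟨fun x => if x = true then Sum.inl () else Sum.inr (),
      fun x => Sum.elim (fun _ => true) (fun _ => false) x, fun x => by cases x <;> rfl,
      fun x => by rcases x with x | x <;> rfl⟩ : Bool ≃ Unit ⊕ Unit) hθ fun Q => ?_
  unfold Phi casimirForm
  rw [sum_unit_fun]
  refine Finset.sum_congr rfl fun b _ => ?_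
  rw [Fintype.prod_unique]
  rfl

/-- **Main theorem.** -/
theorem end_all [CharZero K] [Fintype ι] [DecidableEq ι] [Nonempty M] (hL : IsClifford L)
    (hE : EndAlgebraic κ L 𝒞) (hθ : casimirForm L ∈ 𝒞.A Bool) : EndAllAlgebraic κ L 𝒞 := by
  intro U _ _ t ht
  have h1 : MixedKilled κ L (fun _ Q => t Q : MixedForm K B M Empty U) := by
    intro u v hκ huv J Q
    rw [Finset.univ_eq_empty (α := Empty), Finset.sum_empty, mul_zero, zero_add]
    exact ht u v hκ huv Q
  have h2 := all_mem (𝒜 := mix hL hθ) hL (mix_endo hL hθ hE) (mix_ks hL hθ) _ Empty U rfl _ h1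
  have h3 : (fun _ Q => t Q : MixedForm K B M Empty U) ∈ mixA 𝒞 L Empty U := h2
  rw [mem_mixA] at h3
  refine erename (Equiv.emptySum Empty U) h3 fun Q => ?_
  unfold Phi
  rw [sum_empty_fun, Fintype.prod_empty, one_mul]
  rfl

theorem casimir_killed (hL : IsClifford L) : EndKilled κ L (casimirForm L) := by
  intro u v _ huv Q
  have key : ∀ (b : B) (n m : M), ∑ p, ((L u * L v) p m * L b n p - (L u * L v) n p * L b p m) =
      2 * ((if b = u then L v n m else 0) - (if b = v then L u n m else 0)) := by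
    intro b n m
    have h1 := congrFun (congrFun (br_single hL huv b) n) m
    rw [Matrix.sub_apply, Matrix.mul_apply, Matrix.mul_apply, Matrix.smul_apply,
      Matrix.sub_apply, smul_eq_mul] at h1
    rw [Finset.sum_sub_distrib]
    have h2 : ∑ p, (L u * L v) p m * L b n p = ∑ p, L b n p * (L u * L v) p m :=
      Finset.sum_congr rfl fun p _ => mul_comm _ _
    have h3 : (if b = v then L u else 0) n m = if b = v then L u n m else 0 := by
      split_ifs <;> rfl
    have h4 : (if b = u then L v else 0) n m = if b = u then L v n m else 0 := by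
      split_ifs <;> rfl
    rw [h3, h4] at h1
    rw [h2]
    linear_combination -h1
  rw [Fintype.sum_bool]
  have e1 : ∀ x : M × M, update Q true x true = x := fun x => update_self _ _ _
  have e2 : ∀ x : M × M, update Q true x false = Q false := fun x => update_of_ne (by simp) _ _
  have e3 : ∀ x : M × M, update Q false x false = x := fun x => update_self _ _ _
  have e4 : ∀ x : M × M, update Q false x true = Q true := fun x => update_of_ne (by simp) _ _
  simp only [casimirForm, e1, e2, e3, e4]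
  have f1 : ∑ p, ((L u * L v) p (Q true).1 * ∑ b, L b (Q true).2 p * L b (Q false).2 (Q false).1 -
      (L u * L v) (Q true).2 p * ∑ b, L b p (Q true).1 * L b (Q false).2 (Q false).1) =
      ∑ b, (2 * ((if b = u then L v (Q true).2 (Q true).1 else 0) -
        (if b = v then L u (Q true).2 (Q true).1 else 0))) * L b (Q false).2 (Q false).1 := by
    simp only [← key, Finset.sum_mul]
    rw [Finset.sum_comm]
    refine Finset.sum_congr rfl fun p _ => ?_
    rw [Finset.mul_sum, Finset.mul_sum, ← Finset.sum_sub_distrib]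
    refine Finset.sum_congr rfl fun b _ => ?_
    ring
  have f2 : ∑ p, ((L u * L v) p (Q false).1 * ∑ b, L b (Q true).2 (Q true).1 * L b (Q false).2 p -
      (L u * L v) (Q false).2 p * ∑ b, L b (Q true).2 (Q true).1 * L b p (Q false).1) =
      ∑ b, (2 * ((if b = u then L v (Q false).2 (Q false).1 else 0) -
        (if b = v then L u (Q false).2 (Q false).1 else 0))) * L b (Q true).2 (Q true).1 := by
    simp only [← key, Finset.sum_mul]
    rw [Finset.sum_comm]
    refine Finset.sum_congr rfl fun p _ => ?_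
    rw [Finset.mul_sum, Finset.mul_sum, ← Finset.sum_sub_distrib]
    refine Finset.sum_congr rfl fun b _ => ?_
    ring
  rw [f1, f2]
  simp only [mul_sub, sub_mul, Finset.sum_sub_distrib, mul_ite, ite_mul, mul_zero, zero_mul,
    Finset.sum_ite_eq', Finset.mem_univ, if_true]
  ring

end Pool.Agent.R918.KS
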