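import Pool.Agent.R918.KsDefs

/-!
# Kuga-Satake varieties and abelian varieties of spin type: definitions

In the intended use `K` is the Kuga-Satake variety of `X`, with `H ^ 1 (K, ℂ)` of basis `M`, and `A'` is
another abelian variety such that the Clifford algebra of `T ⊗ ℂ` acts on `H ^ 1 (A', ℂ)`, of basis `N`.
-/

universe u

namespace Pool.Agent.R918.KS

open Pool.Agent.R914.K3P

variable {K : Type u} [Field K] {B ι M N : Type} [Fintype B] [DecidableEq B] [Fintype M]
  [DecidableEq M] [Fintype N] [DecidableEq N]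

/-- The action of the vector `b` on `H ^ 1 (K × A') = H ^ 1 (K) ⊕ H ^ 1 (A')`. -/
def both (L : B → Matrix M M K) (Λ : B → Matrix N N K) (b : B) : Matrix (M ⊕ N) (M ⊕ N) K :=
  Matrix.fromBlocks (L b) 0 0 (Λ b)

/-- A map `F` from the basis of `T ⊗ ℂ` to `End H ^ 1 (K × A')`, as the form `tr (F(t) X)`, is an algebraic
correspondence: it is killed by the Lie algebras of the blocks and is in the system. -/
def IsCorrespondence (κ : B → ι) (L : B → Matrix M M K) (𝒜 : MixedSystem K B M)
    (F : B → Matrix M M K) : Prop :=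
  MixedKilled κ L (matrixForm fun J : Unit → B => F (J ())) ∧
    matrixForm (fun J : Unit → B => F (J ())) ∈ 𝒜.A Unit Unit

/-- `T` is a direct summand of `End H ^ 1 (K)`: there are algebraic correspondences `F` from `T` to
`End H ^ 1 (K)` and `X ↦ ∑ c, tr (G c X) c` from `End H ^ 1 (K)` to `T` with composition the identity. -/
def IsSummand (κ : B → ι) (L : B → Matrix M M K) (Λ : B → Matrix N N K)
    (𝒜 : MixedSystem K B (M ⊕ N)) : Prop :=
  ∃ F G : B → Matrix M M K,
    IsCorrespondence κ (both L Λ) 𝒜 (fun b => Matrix.fromBlocks (F b) 0 0 0) ∧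
    IsCorrespondence κ (both L Λ) 𝒜 (fun b => Matrix.fromBlocks (G b) 0 0 0) ∧
    ∀ b c, (F b * G c).trace = if b = c then 1 else 0

/-- For each block there is an algebraic correspondence from `T` to `End H ^ 1 (A')` which is not zero on
the block. -/
def HasCorrespondence (κ : B → ι) (L : B → Matrix M M K) (Λ : B → Matrix N N K)
    (𝒜 : MixedSystem K B (M ⊕ N)) : Prop :=
  ∀ b : B, ∃ F : B → Matrix N N K,
    IsCorrespondence κ (both L Λ) 𝒜 (fun b => Matrix.fromBlocks 0 0 0 (F b)) ∧
    ∃ c, κ c = κ b ∧ F c ≠ 0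

end Pool.Agent.R918.KS
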