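import Pool.Agent.R918.Ks6
import Pool.Agent.R918.KsMotDefs

set_option autoImplicit false
set_option linter.unusedSectionVars false

/-!
# Two modules over the Clifford algebra
-/

open Finset Function

universe u

namespace Pool.Agent.R918.KS

open Pool.Agent.R914.K3P

variable {K : Type u} [Field K] {B ι M N : Type} [Fintype B] [DecidableEq B] [Fintype M]
  [DecidableEq M] [Fintype N] [DecidableEq N] {κ : B → ι} {L : B → Matrix M M K}
  {Λ : B → Matrix N N K}

theorem both_clifford (hL : IsClifford L) (hΛ : IsClifford Λ) : IsClifford (both L Λ) := by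
  constructor
  · intro b
    unfold both
    rw [Matrix.fromBlocks_multiply]
    simp [hL.1, hΛ.1]
  · intro b c h
    unfold both
    rw [Matrix.fromBlocks_multiply, Matrix.fromBlocks_multiply]
    simp only [Matrix.mul_zero, Matrix.zero_mul, add_zero, zero_add]
    rw [hL.2 b c h, hΛ.2 b c h, Matrix.fromBlocks_neg, neg_zero, neg_zero]

theorem both_end {Z : Matrix M M K} {W : Matrix N N K} (hZ : IsEnd κ L Z) (hW : IsEnd κ Λ W) :
    IsEnd κ (both L Λ) (Matrix.fromBlocks Z 0 0 W) := by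
  intro u v hκ huv
  unfold both
  simp only [Matrix.fromBlocks_multiply, Matrix.mul_zero, Matrix.zero_mul, add_zero, zero_add]
  rw [hZ u v hκ huv, hW u v hκ huv]

theorem isEnd_zero : IsEnd κ L (0 : Matrix M M K) := fun u v _ _ => by
  rw [Matrix.zero_mul, Matrix.mul_zero]

theorem killed_of_equivariant {F : B → Matrix M M K}
    (h : ∀ u v, κ u = κ v → u ≠ v → ∀ b, L u * L v * F b - F b * (L u * L v) =
      (2 : K) • ((if b = v then F u else 0) - (if b = u then F v else 0))) :
    MixedKilled κ L (matrixForm (fun J : Unit → B => F (J ()))) := by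
  intro u v hκ huv J Q
  have h1 := h u v hκ huv (J ())
  have h2 := congrFun (congrFun h1 (Q ()).2) (Q ()).1
  simp only [Finset.univ_unique, Finset.sum_singleton]
  have e1 : ∀ x : B, update J default x () = x := fun x => by
    rw [show (() : Unit) = default from rfl, update_self]
  have e2 : ∀ x : M × M, update Q default x () = x := fun x => by
    rw [show (() : Unit) = default from rfl, update_self]
  simp only [matrixForm, e1, e2]
  rw [Finset.sum_sub_distrib]
  have e3 : (L u * L v * F (J ()) - F (J ()) * (L u * L v)) (Q ()).2 (Q ()).1 =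
      ∑ p, (L u * L v) (Q ()).2 p * F (J ()) p (Q ()).1 -
        ∑ p, (L u * L v) p (Q ()).1 * F (J ()) (Q ()).2 p := by
    rw [Matrix.sub_apply, Matrix.mul_apply, Matrix.mul_apply]
    congr 1
    refine Finset.sum_congr rfl fun p _ => mul_comm _ _
  have e4 : ((2 : K) • ((if J () = v then F u else 0) -
      (if J () = u then F v else 0))) (Q ()).2 (Q ()).1 =
      2 * ((if J () = v then F u (Q ()).2 (Q ()).1 else 0) -
        (if J () = u then F v (Q ()).2 (Q ()).1 else 0)) := by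
    rw [Matrix.smul_apply, Matrix.sub_apply, smul_eq_mul]
    congr 2 <;> split_ifs <;> rfl
  rw [e3, e4] at h2
  have e5 : ∀ (j : Unit), J j = J () := fun j => rfl
  have e6 : ∀ (j : Unit), Q j = Q () := fun j => rfl
  simp only [e5, e6]
  linear_combination -h2

theorem equivariant_mul (hL : IsClifford L) {e : Matrix M M K} (he : IsEnd κ L e) :
    ∀ u v, κ u = κ v → u ≠ v → ∀ b, L u * L v * (L b * e) - (L b * e) * (L u * L v) =
      (2 : K) • ((if b = v then L u * e else 0) - (if b = u then L v * e else 0)) := by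
  intro u v hκ huv b
  have h1 := br_single hL huv b
  have h2 : L u * L v * (L b * e) - (L b * e) * (L u * L v) =
      (L u * L v * L b - L b * (L u * L v)) * e := by
    rw [Matrix.mul_assoc (L b) e, he u v hκ huv, Matrix.sub_mul]
    simp only [Matrix.mul_assoc]
  rw [h2, h1, Matrix.smul_mul, Matrix.sub_mul]
  congr 2 <;> split_ifs <;> simp

section main

variable {𝒜 : MixedSystem K B (M ⊕ N)}

theorem corr_mul {M' : Type} [Fintype M'] [DecidableEq M'] {L' : B → Matrix M' M' K}
    {𝒜' : MixedSystem K B M'} (hL : IsClifford L') (hE : EndomorphismsAlgebraic κ L' 𝒜')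
    (h : KugaSatakeAlgebraic L' 𝒜') {e : Matrix M' M' K} (he : IsEnd κ L' e) :
    IsCorrespondence κ L' 𝒜' fun b => L' b * e := by
  refine ⟨killed_of_equivariant (equivariant_mul hL he), ?_⟩
  refine ren (Equiv.sumEmpty Unit Empty) (Equiv.refl Unit) (mul_mem h (hE e he)) fun J Q => ?_
  rfl

theorem summand_of_ks [CharZero K] [Nonempty M] (hL : IsClifford L) (hΛ : IsClifford Λ)
    (hE : EndomorphismsAlgebraic κ (both L Λ) 𝒜) (h : KugaSatakeAlgebraic (both L Λ) 𝒜) :
    IsSummand κ L Λ 𝒜 := by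
  have hN : (Fintype.card M : K) ≠ 0 := by exact_mod_cast Fintype.card_ne_zero
  have key : ∀ c : K, IsCorrespondence κ (both L Λ) 𝒜
      (fun b => Matrix.fromBlocks (c • L b) 0 0 0) := by
    intro c
    have he : IsEnd κ (both L Λ) (Matrix.fromBlocks (c • (1 : Matrix M M K)) 0 0 0) := by
      refine both_end (fun u v _ _ => ?_) isEnd_zero
      rw [Matrix.smul_mul, Matrix.mul_smul, Matrix.one_mul, Matrix.mul_one]
    have h1 := corr_mul (both_clifford hL hΛ) hE h he
    have h2 : (fun b => both L Λ b * Matrix.fromBlocks (c • (1 : Matrix M M K)) 0 0 0) =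
        fun b => Matrix.fromBlocks (c • L b) 0 0 0 := by
      funext b
      unfold both
      rw [Matrix.fromBlocks_multiply]
      simp
    rwa [h2] at h1
  refine ⟨L, fun b => (Fintype.card M : K)⁻¹ • L b, ?_, key _, fun b c => ?_⟩
  · have := key 1
    simpa only [one_smul] using this
  · rw [Matrix.mul_smul, Matrix.trace_smul]
    split_ifs with hbc
    · subst hbc
      rw [hL.1, Matrix.trace_one, smul_eq_mul, inv_mul_cancel₀ hN]
    · have h1 : (L b * L c).trace = -(L b * L c).trace := by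
        conv_lhs => rw [hL.2 b c hbc, Matrix.trace_neg, Matrix.trace_mul_comm]
      have h2 : (2 : K) * (L b * L c).trace = 0 := by linear_combination h1
      rw [(mul_eq_zero.1 h2).resolve_left two_ne_zero, smul_zero]

theorem corr_of_ks [Nonempty N] (hL : IsClifford L) (hΛ : IsClifford Λ)
    (hE : EndomorphismsAlgebraic κ (both L Λ) 𝒜) (h : KugaSatakeAlgebraic (both L Λ) 𝒜) :
    HasCorrespondence κ L Λ 𝒜 := by
  intro b
  refine ⟨Λ, ?_, b, rfl, fun h0 => ?_⟩
  · have he : IsEnd κ (both L Λ) (Matrix.fromBlocks 0 0 0 (1 : Matrix N N K)) :=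
      both_end isEnd_zero isEnd_one
    have h1 := corr_mul (both_clifford hL hΛ) hE h he
    have h2 : (fun b => both L Λ b * Matrix.fromBlocks 0 0 0 (1 : Matrix N N K)) =
        fun b => Matrix.fromBlocks 0 0 0 (Λ b) := by
      funext b
      unfold both
      rw [Matrix.fromBlocks_multiply]
      simp
    rwa [h2] at h1
  · have h1 := hΛ.1 b
    rw [h0, Matrix.mul_zero] at h1
    exact one_ne_zero h1.symm

theorem ks_of_corr [CharZero K] [Fintype ι] [DecidableEq ι] [Nonempty M] (hL : IsClifford L)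
    (hΛ : IsClifford Λ) (hE : EndomorphismsAlgebraic κ (both L Λ) 𝒜)
    (hodd : ∀ i, (∃ b, κ b = i) → Odd (univ.filter fun b => κ b = i).card)
    (hP : SquareAlgebraic κ 𝒜)
    (h : ∀ b : B, ∃ F : B → Matrix (M ⊕ N) (M ⊕ N) K, IsCorrespondence κ (both L Λ) 𝒜 F ∧
      ∃ c, κ c = κ b ∧ F c ≠ 0) : KugaSatakeAlgebraic (both L Λ) 𝒜 := by
  refine one_suffices (both_clifford hL hΛ) hE hodd hP fun b => ?_
  obtain ⟨F, ⟨h1, h2⟩, c, h3, h4⟩ := h b
  exact ⟨_, h2, h1, c, h3, h4⟩

theorem fromBlocks_ne_left {Z : Matrix M M K} (h : Z ≠ 0) :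
    (Matrix.fromBlocks Z 0 0 0 : Matrix (M ⊕ N) (M ⊕ N) K) ≠ 0 := by
  intro h0
  apply h
  have h1 := congrArg Matrix.toBlocks₁₁ h0
  rw [Matrix.toBlocks_fromBlocks₁₁] at h1
  rw [h1]
  rfl

theorem fromBlocks_ne_right {Z : Matrix N N K} (h : Z ≠ 0) :
    (Matrix.fromBlocks 0 0 0 Z : Matrix (M ⊕ N) (M ⊕ N) K) ≠ 0 := by
  intro h0
  apply h
  have h1 := congrArg Matrix.toBlocks₂₂ h0
  rw [Matrix.toBlocks_fromBlocks₂₂] at h1
  rw [h1]
  rfl

/-- **Main theorem.** -/
theorem motivated [CharZero K] [Fintype ι] [DecidableEq ι] [Nonempty M] [Nonempty N]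
    (hL : IsClifford L) (hΛ : IsClifford Λ) (hE : EndomorphismsAlgebraic κ (both L Λ) 𝒜)
    (hodd : ∀ i, (∃ b, κ b = i) → Odd (univ.filter fun b => κ b = i).card)
    (hP : SquareAlgebraic κ 𝒜) :
    (IsSummand κ L Λ 𝒜 ↔ HasCorrespondence κ L Λ 𝒜) ∧
    (IsSummand κ L Λ 𝒜 ↔ AllAlgebraic κ (both L Λ) 𝒜) := by
  have a1 : KugaSatakeAlgebraic (both L Λ) 𝒜 → AllAlgebraic κ (both L Λ) 𝒜 :=
    fun h S U _ _ _ _ t ht => all_mem (both_clifford hL hΛ) hE h _ S U rfl t ht
  have a2 : AllAlgebraic κ (both L Λ) 𝒜 → KugaSatakeAlgebraic (both L Λ) 𝒜 :=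
    fun h => h Unit Unit _ (killed_ks (both_clifford hL hΛ))
  have a3 : IsSummand κ L Λ 𝒜 → KugaSatakeAlgebraic (both L Λ) 𝒜 := by
    rintro ⟨F, G, h1, h2, h3⟩
    refine ks_of_corr hL hΛ hE hodd hP fun b => ⟨_, h1, b, rfl, fromBlocks_ne_left fun h0 => ?_⟩
    have h4 := h3 b b
    rw [h0, Matrix.zero_mul, Matrix.trace_zero, if_pos rfl] at h4
    exact zero_ne_one h4
  have a4 : HasCorrespondence κ L Λ 𝒜 → KugaSatakeAlgebraic (both L Λ) 𝒜 := by
    intro h
    refine ks_of_corr hL hΛ hE hodd hP fun b => ?_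
    obtain ⟨F, h1, c, h2, h3⟩ := h b
    exact ⟨_, h1, c, h2, fromBlocks_ne_right h3⟩
  exact ⟨⟨fun h => corr_of_ks hL hΛ hE (a3 h), fun h => summand_of_ks hL hΛ hE (a4 h)⟩,
    ⟨fun h => a1 (a3 h), fun h => summand_of_ks hL hΛ hE (a2 h)⟩⟩

end main

end Pool.Agent.R918.KS
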