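import Pool.Agent.R918.KsDefs

/-!
# Motivated by the Kuga-Satake variety: definitions
-/

universe u

namespace Pool.Agent.R918.KS

open Pool.Agent.R914.K3P

variable {K : Type u} [Field K] {B ι M : Type} [Fintype B] [DecidableEq B] [Fintype M]
  [DecidableEq M]

/-- Algebraic classes are Hodge classes: the forms of the system are killed by the Lie algebras of the
blocks. -/
def AlgebraicIsHodge (κ : B → ι) (L : B → Matrix M M K) (𝒜 : MixedSystem K B M) : Prop :=
  ∀ (S U : Type) [Fintype S] [DecidableEq S] [Fintype U] [DecidableEq U]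
    (t : MixedForm K B M S U), t ∈ 𝒜.A S U → MixedKilled κ L t

/-- The contraction of the forms `t (b; X_1, ..., X_n)` and `s (c; Y_1, ..., Y_n)` in all matrix
variables, by the trace form. -/
def contraction {U : Type} [Fintype U] [DecidableEq U] (t s : MixedForm K B M Unit U) (b c : B) : K :=
  ∑ Q : U → M × M, t (fun _ => b) Q * s (fun _ => c) (Prod.swap ∘ Q)

/-- For each block `i` the space `V i` is a direct summand of some `End(H) ^ ⊗ U`: there are algebraic
correspondences `t` from the vectors to `End(H) ^ ⊗ U` and `s` back such that the composition is the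
identity on `V i`. -/
def IsMotivated (κ : B → ι) (𝒜 : MixedSystem K B M) : Prop :=
  ∀ i : ι, ∃ (U : Type) (_ : Fintype U) (_ : DecidableEq U), ∃ t ∈ 𝒜.A Unit U, ∃ s ∈ 𝒜.A Unit U,
    ∀ b c, κ b = i → κ c = i → contraction t s b c = if b = c then 1 else 0

/-- For each block there is an algebraic correspondence from the vectors to some `End(H) ^ ⊗ U` which
is not zero on the block. -/
def HasSomeCorrespondence (κ : B → ι) (𝒜 : MixedSystem K B M) : Prop :=
  ∀ b : B, ∃ (U : Type) (_ : Fintype U) (_ : DecidableEq U), ∃ t ∈ 𝒜.A Unit U,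
    ∃ c, κ c = κ b ∧ ∃ Q, t (fun _ => c) Q ≠ 0

/-- Numerical and homological equivalence coincide for the correspondences from the vectors to
`End(H) ^ ⊗ U`. -/
def NumericalIsHomological (𝒜 : MixedSystem K B M) : Prop :=
  ∀ (U : Type) [Fintype U] [DecidableEq U] (t : MixedForm K B M Unit U), t ∈ 𝒜.A Unit U → t ≠ 0 →
    ∃ s ∈ 𝒜.A Unit U, ∑ b, contraction t s b b ≠ 0

end Pool.Agent.R918.KS
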