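import Pool.Agent.R918.Ks7
import Pool.Agent.R918.KsMot2Defs

set_option autoImplicit false
set_option linter.unusedSectionVars false

/-!
# The action of the endomorphisms on a summand
-/

open Finset Function

universe u

namespace Pool.Agent.R918.KS

open Pool.Agent.R914.K3P

variable {K : Type u} [Field K] {B ι P : Type} [Fintype B] [DecidableEq B] [Fintype P]
  [DecidableEq P] {κ : B → ι} {𝒜 : MixedSystem K B P}

/-- the family `R` with the additional value `x` at `w` -/
def pt {U X : Type} [DecidableEq U] (w : U) (x : X) (R : {v : U // v ≠ w} → X) : U → X :=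
  fun v => if h : v = w then x else R ⟨v, h⟩

/-- splitting off one variable -/
def ew {U : Type} [DecidableEq U] (w : U) : U ≃ Unit ⊕ {v : U // v ≠ w} where
  toFun v := if h : v = w then Sum.inl () else Sum.inr ⟨v, h⟩
  invFun := Sum.elim (fun _ => w) (fun v => v.1)
  left_inv v := by by_cases h : v = w <;> simp [h]
  right_inv x := by
    rcases x with x | x
    · simp
    · simp [x.2]

theorem comp_ew {U X : Type} [DecidableEq U] (w : U) (Q : Unit ⊕ {v : U // v ≠ w} → X) :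
    Q ∘ ew w = pt w (Q (Sum.inl ())) (Q ∘ Sum.inr) := by
  funext v
  by_cases h : v = w <;> simp [ew, pt, h]

theorem pt_self {U X : Type} [DecidableEq U] (w : U) (x : X) (R : {v : U // v ≠ w} → X) :
    pt w x R w = x := by simp [pt]

theorem update_pt {U X : Type} [DecidableEq U] (w : U) (x y : X) (R : {v : U // v ≠ w} → X) :
    update (pt w x R) w y = pt w y R := by
  funext v
  by_cases h : v = w
  · subst h; simp [pt]
  · simp [pt, h]

theorem map_pt {U X Y : Type} [DecidableEq U] (f : X → Y) (w : U) (x : X)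
    (R : {v : U // v ≠ w} → X) : f ∘ pt w x R = pt w (f x) (f ∘ R) := by
  funext v
  by_cases h : v = w <;> simp [pt, h]

theorem sum_pt {U X : Type} [Fintype U] [DecidableEq U] [Fintype X] {Y : Type*} [AddCommMonoid Y]
    (w : U) (f : (U → X) → Y) : ∑ Q, f Q = ∑ x, ∑ R, f (pt w x R) := by
  rw [← Fintype.sum_prod_type']
  refine (Fintype.sum_equiv (Equiv.funSplitAt w X).symm _ _ fun x => ?_).symm
  congr 1
  funext v
  by_cases h : v = w
  · subst h; simp [pt, Equiv.funSplitAt, Equiv.piSplitAt]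
  · simp [pt, Equiv.funSplitAt, Equiv.piSplitAt, h]

theorem sum_two {X : Type} [Fintype X] {Y : Type*} [AddCommMonoid Y] (f : (Unit ⊕ Unit → X) → Y) :
    ∑ R, f R = ∑ x, ∑ y, f (Sum.elim (fun _ => x) (fun _ => y)) := by
  rw [← (Equiv.sumArrowEquivProdArrow Unit Unit X).symm.sum_comp, Fintype.sum_prod_type,
    sum_unit_fun]
  refine Finset.sum_congr rfl fun x _ => ?_
  rw [sum_unit_fun]
  rfl

/-- **Multiplication** of two matrix variables. -/
theorem mulvar {S : Type} [Finite S] {g : MixedForm K B P S (Unit ⊕ Unit)}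
    (hg : g ∈ 𝒜.A S (Unit ⊕ Unit)) :
    (fun J Q => ∑ j, g J (Sum.elim (fun _ => ((Q ()).1, j)) (fun _ => (j, (Q ()).2))) :
      MixedForm K B P S Unit) ∈ 𝒜.A S Unit := by
  have a1 : (fun J Q => g (J ∘ Sum.inl) (Q ∘ Sum.inr) :
      MixedForm K B P (S ⊕ Empty) (Empty ⊕ (Unit ⊕ Unit))) ∈
      𝒜.A (S ⊕ Empty) (Empty ⊕ (Unit ⊕ Unit)) :=
    ren (Equiv.sumEmpty S Empty).symm (Equiv.emptySum Empty (Unit ⊕ Unit)).symm hg fun J Q => rfl
  have a2 : (fun J Q => traceThree K B P (fun x => x.elim)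
      ![Q (Sum.inl (Sum.inr ())), Q (Sum.inl (Sum.inl ())), Q (Sum.inr ())] :
      MixedForm K B P (Empty ⊕ Empty) ((Unit ⊕ Unit) ⊕ Unit)) ∈
      𝒜.A (Empty ⊕ Empty) ((Unit ⊕ Unit) ⊕ Unit) := by
    refine ren (Equiv.sumEmpty Empty Empty).symm
      (⟨fun i => ![Sum.inl (Sum.inr ()), Sum.inl (Sum.inl ()), Sum.inr ()] i,
        fun x => Sum.elim (Sum.elim (fun _ => 1) (fun _ => 0)) (fun _ => 2) x,
        fun i => by fin_cases i <;> rfl,
        fun x => by rcases x with (x | x) | x <;> rfl⟩ : Fin 3 ≃ (Unit ⊕ Unit) ⊕ Unit)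
      𝒜.trace fun J Q => ?_
    congr 1
    · funext x; exact x.elim
    · funext i; fin_cases i <;> rfl
  have a3 : (fun J Q => ∑ j, g (J ∘ Sum.inl) (Sum.elim (fun _ => ((Q (Sum.inr ())).1, j))
      (fun _ => (j, (Q (Sum.inr ())).2))) :
      MixedForm K B P (S ⊕ Empty) (Empty ⊕ Unit)) ∈ 𝒜.A (S ⊕ Empty) (Empty ⊕ Unit) := by
    refine cmp a1 a2 fun J Q => ?_
    rw [sum_empty_fun, sum_two]
    simp only [traceThree, comp_apply, Sum.elim_inr, Sum.elim_inl, Prod.swap,
      Matrix.cons_val_zero, Matrix.cons_val_one, Matrix.cons_val]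
    have e0 : ∀ F : P × P → P × P → K, (∀ x y, ¬ (x.1 = (Q (Sum.inr ())).1) → F x y = 0) →
        ∑ x, ∑ y, F x y = ∑ j, ∑ y, F ((Q (Sum.inr ())).1, j) y := by
      intro F hF
      rw [Fintype.sum_prod_type]
      rw [Fintype.sum_eq_single (Q (Sum.inr ())).1]
      intro x hx
      exact Finset.sum_eq_zero fun j _ => Finset.sum_eq_zero fun y _ => hF _ _ hx
    rw [e0]
    · refine Finset.sum_congr rfl fun j _ => ?_
      rw [Fintype.sum_eq_single (j, (Q (Sum.inr ())).2)]
      · simp only [and_self, if_true, mul_one]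
        congr 1
      · intro y hy
        rw [if_neg, mul_zero]
        rintro ⟨h1, -, h3⟩
        exact hy (Prod.ext h1 h3.symm)
    · intro x y hx
      rw [if_neg, mul_zero]
      rintro ⟨-, h2, -⟩
      exact hx h2
  exact ren (Equiv.sumEmpty S Empty) (Equiv.emptySum Empty Unit) a3 fun J Q => rfl

section U

variable {U : Type} [Fintype U] [DecidableEq U]

/-- the partial contraction -/
def pc (t s : MixedForm K B P Unit U) (w : U) (a b : B) (x y : P × P) : K :=
  ∑ R : {v : U // v ≠ w} → P × P, t (fun _ => a) (pt w x R) * s (fun _ => b) (pt w y (Prod.swap ∘ R))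

theorem pc_mem {t s : MixedForm K B P Unit U} (ht : t ∈ 𝒜.A Unit U) (hs : s ∈ 𝒜.A Unit U)
    (w : U) : (fun J Q => pc t s w (J (Sum.inl ())) (J (Sum.inr ())) (Q (Sum.inl ()))
      (Q (Sum.inr ())) : MixedForm K B P (Unit ⊕ Unit) (Unit ⊕ Unit)) ∈
      𝒜.A (Unit ⊕ Unit) (Unit ⊕ Unit) := by
  have a1 : (fun J Q => t (J ∘ Sum.inl) (Q ∘ ew w) :
      MixedForm K B P (Unit ⊕ Empty) (Unit ⊕ {v : U // v ≠ w})) ∈
      𝒜.A (Unit ⊕ Empty) (Unit ⊕ {v : U // v ≠ w}) :=
    ren (Equiv.sumEmpty Unit Empty).symm (ew w) ht fun J Q => rfl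
  have a2 : (fun J Q => s (J ∘ Sum.inr) (Q ∘ (ew w).trans (Equiv.sumComm _ _)) :
      MixedForm K B P (Empty ⊕ Unit) ({v : U // v ≠ w} ⊕ Unit)) ∈
      𝒜.A (Empty ⊕ Unit) ({v : U // v ≠ w} ⊕ Unit) :=
    ren (Equiv.emptySum Empty Unit).symm ((ew w).trans (Equiv.sumComm _ _)) hs fun J Q => rfl
  refine cmp a1 a2 fun J Q => ?_
  rw [sum_empty_fun]
  unfold pc
  refine Finset.sum_congr rfl fun R _ => ?_
  congr 1
  · rw [comp_ew]
    rfl
  · congr 1
    have e : (Sum.elim (Prod.swap ∘ R) (Q ∘ Sum.inr)) ∘ ((ew w).trans (Equiv.sumComm _ _)) =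
        (Sum.elim (Q ∘ Sum.inr) (Prod.swap ∘ R)) ∘ ew w := by
      funext v
      by_cases h : v = w <;> simp [ew, h]
    rw [e, comp_ew]
    rfl

/-- the action of the matrices on the summand -/
def act (t s : MixedForm K B P Unit U) : MixedForm K B P (Unit ⊕ Unit) Unit := fun J Q =>
  ∑ w, ∑ j, (pc t s w (J (Sum.inl ())) (J (Sum.inr ())) ((Q ()).1, j) (j, (Q ()).2) -
    pc t s w (J (Sum.inl ())) (J (Sum.inr ())) (j, (Q ()).2) ((Q ()).1, j))

theorem act_mem {t s : MixedForm K B P Unit U} (ht : t ∈ 𝒜.A Unit U) (hs : s ∈ 𝒜.A Unit U) :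
    act t s ∈ 𝒜.A (Unit ⊕ Unit) Unit := by
  have h1 : ∀ w : U, (fun J Q => ∑ j, pc t s w (J (Sum.inl ())) (J (Sum.inr ())) ((Q ()).1, j)
      (j, (Q ()).2) : MixedForm K B P (Unit ⊕ Unit) Unit) ∈ 𝒜.A (Unit ⊕ Unit) Unit :=
    fun w => mulvar (pc_mem ht hs w)
  have h2 : ∀ w : U, (fun J Q => ∑ j, pc t s w (J (Sum.inl ())) (J (Sum.inr ()))
      (j, (Q ()).2) ((Q ()).1, j) : MixedForm K B P (Unit ⊕ Unit) Unit) ∈
      𝒜.A (Unit ⊕ Unit) Unit := by
    intro w
    have h3 : (fun J Q => pc t s w (J (Sum.inl ())) (J (Sum.inr ())) (Q (Sum.inr ()))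
      (Q (Sum.inl ())) : MixedForm K B P (Unit ⊕ Unit) (Unit ⊕ Unit)) ∈
      𝒜.A (Unit ⊕ Unit) (Unit ⊕ Unit) :=
      ren (Equiv.refl _) (Equiv.sumComm Unit Unit) (pc_mem ht hs w) fun J Q => rfl
    exact mulvar h3
  refine mem_congr (Submodule.sum_mem _ (t := Finset.univ) fun w _ =>
    Submodule.sub_mem _ (h1 w) (h2 w)) ?_
  funext J Q
  rw [Finset.sum_apply, Finset.sum_apply]
  unfold act
  refine Finset.sum_congr rfl fun w _ => ?_
  rw [Pi.sub_apply, Pi.sub_apply, Finset.sum_sub_distrib]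

theorem act_apply (t s : MixedForm K B P Unit U) (a b : B) (X : Matrix P P K) :
    ∑ m, ∑ n, X m n * act t s (Sum.elim (fun _ => a) (fun _ => b)) (fun _ => (m, n)) =
      ∑ Q : U → P × P, (∑ w, ∑ p, (X p (Q w).1 * t (fun _ => a) (update Q w (p, (Q w).2)) -
        X (Q w).2 p * t (fun _ => a) (update Q w ((Q w).1, p)))) *
        s (fun _ => b) (Prod.swap ∘ Q) := by
  have e0 : ∑ Q : U → P × P, (∑ w, ∑ p, (X p (Q w).1 * t (fun _ => a) (update Q w (p, (Q w).2)) -
        X (Q w).2 p * t (fun _ => a) (update Q w ((Q w).1, p)))) *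
        s (fun _ => b) (Prod.swap ∘ Q) = ∑ w, ∑ Q : U → P × P, (∑ p,
        (X p (Q w).1 * t (fun _ => a) (update Q w (p, (Q w).2)) -
        X (Q w).2 p * t (fun _ => a) (update Q w ((Q w).1, p)))) *
        s (fun _ => b) (Prod.swap ∘ Q) := by
    rw [Finset.sum_comm]
    refine Finset.sum_congr rfl fun Q _ => ?_
    rw [Finset.sum_mul]
  rw [e0]
  simp only [Finset.sum_mul]
  simp only [act, Sum.elim_inl, Sum.elim_inr, Finset.mul_sum]
  have e1 : ∀ F : P → P → U → P → K, ∑ m, ∑ n, ∑ w, ∑ j, F m n w j =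
      ∑ w, ∑ m, ∑ n, ∑ j, F m n w j := by
    intro F
    have : ∀ m, ∑ n, ∑ w, ∑ j, F m n w j = ∑ w, ∑ n, ∑ j, F m n w j := fun m => Finset.sum_comm
    simp only [this]
    exact Finset.sum_comm
  rw [e1]
  refine Finset.sum_congr rfl fun w _ => ?_
  rw [sum_pt w]
  simp only [pt_self, update_pt, map_pt]
  -- left hand side
  have l1 : ∑ m, ∑ n, ∑ j, X m n * (pc t s w a b (m, j) (j, n) - pc t s w a b (j, n) (m, j)) =
      ∑ m, ∑ n, ∑ j, X m n * pc t s w a b (m, j) (j, n) -
        ∑ m, ∑ n, ∑ j, X m n * pc t s w a b (j, n) (m, j) := by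
    simp only [mul_sub, Finset.sum_sub_distrib]
  have l2 : ∑ x : P × P, ∑ R : {v : U // v ≠ w} → P × P, ∑ p,
      (X p x.1 * t (fun _ => a) (pt w (p, x.2) R) - X x.2 p * t (fun _ => a) (pt w (x.1, p) R)) *
        s (fun _ => b) (pt w (Prod.swap x) (Prod.swap ∘ R)) =
      ∑ x : P × P, ∑ p, X p x.1 * pc t s w a b (p, x.2) (Prod.swap x) -
        ∑ x : P × P, ∑ p, X x.2 p * pc t s w a b (x.1, p) (Prod.swap x) := by
    rw [← Finset.sum_sub_distrib]
    refine Finset.sum_congr rfl fun x _ => ?_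
    rw [← Finset.sum_sub_distrib, Finset.sum_comm]
    refine Finset.sum_congr rfl fun p _ => ?_
    unfold pc
    rw [Finset.mul_sum, Finset.mul_sum, ← Finset.sum_sub_distrib]
    refine Finset.sum_congr rfl fun R _ => ?_
    ring
  rw [l1, l2]
  congr 1
  · rw [Fintype.sum_prod_type]
    simp only [Prod.swap]
    -- `∑ m n j X m n pc (m, j) (j, n)` and `∑ i j p X p i pc (p, j) (j, i)`
    have e2 : ∀ F : P → P → P → K, ∑ m, ∑ n, ∑ j, F m n j = ∑ n, ∑ j, ∑ m, F m n j := by
      intro F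
      rw [Finset.sum_comm]
      refine Finset.sum_congr rfl fun n _ => ?_
      exact Finset.sum_comm
    rw [e2]
  · rw [Fintype.sum_prod_type]
    simp only [Prod.swap]
    -- `∑ m n j X m n pc (j, n) (m, j)` and `∑ i j p X j p pc (i, p) (j, i)`
    have e2 : ∀ F : P → P → P → K, ∑ m, ∑ n, ∑ j, F m n j = ∑ j, ∑ m, ∑ n, F m n j := by
      intro F
      have : ∀ m, ∑ n, ∑ j, F m n j = ∑ j, ∑ n, F m n j := fun m => Finset.sum_comm
      simp only [this]
      exact Finset.sum_comm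
    rw [e2]

/-- **The value of the action at an element of the Lie algebra.** -/
theorem act_lie {g : Matrix P P K} {u v : B} {t s : MixedForm K B P Unit U}
    (ht : dop g u v t = 0) (a b : B) :
    ∑ m, ∑ n, g m n * act t s (Sum.elim (fun _ => a) (fun _ => b)) (fun _ => (m, n)) =
      -2 * ((if a = v then contraction t s u b else 0) -
        (if a = u then contraction t s v b else 0)) := by
  rw [act_apply]
  have h1 : ∀ Q : U → P × P, ∑ w, ∑ p, (g p (Q w).1 * t (fun _ => a) (update Q w (p, (Q w).2)) -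
      g (Q w).2 p * t (fun _ => a) (update Q w ((Q w).1, p))) =
      -2 * ((if a = v then t (fun _ => u) Q else 0) - (if a = u then t (fun _ => v) Q else 0)) := by
    intro Q
    have h2 := congrFun (congrFun ht (fun _ => a)) Q
    simp only [dop, Finset.univ_unique, Finset.sum_singleton] at h2
    have e1 : ∀ x : B, update (fun _ : Unit => a) default x = fun _ => x := fun x => by
      funext y; rw [Subsingleton.elim y default, update_self]
    simp only [e1] at h2
    have h3 : (0 : MixedForm K B P Unit U) (fun _ => a) Q = 0 := rfl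
    rw [h3] at h2
    linear_combination h2
  simp only [h1]
  unfold contraction
  have h4 : ∀ Q : U → P × P, -2 * ((if a = v then t (fun _ => u) Q else 0) -
      (if a = u then t (fun _ => v) Q else 0)) * s (fun _ => b) (Prod.swap ∘ Q) =
      -2 * (if a = v then t (fun _ => u) Q * s (fun _ => b) (Prod.swap ∘ Q) else 0) -
      -2 * (if a = u then t (fun _ => v) Q * s (fun _ => b) (Prod.swap ∘ Q) else 0) := by
    intro Q
    split_ifs <;> ring
  simp only [h4]
  rw [Finset.sum_sub_distrib, ← Finset.mul_sum, ← Finset.mul_sum, mul_sub]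
  congr 2 <;> split_ifs <;> simp

end U

end Pool.Agent.R918.KS
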