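import Pool.Agent.R914.K3P.KSDefs

/-!
# Algebraic classes on products of powers of `X` and of its Kuga-Satake variety: definitions

In the intended use `X` is a smooth projective variety with a Hodge structure `T` of K3 type whose
endomorphism field `E` is totally real, `K` is the Kuga-Satake variety of `T` and `H = H ^ 1 (K, ℂ)`.
Then `T ⊗ ℂ` is the orthogonal direct sum of the eigenspaces `T_σ` of `E`. An orthonormal basis `B`
of `T ⊗ ℂ` consists of orthonormal bases of the spaces `T_σ`; the map `κ` tells to which space a
basis vector belongs. The Clifford algebra of `T` acts on `H` by the matrices `L b`.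
-/

open Finset Function

universe u

namespace Pool.Agent.R918.KS

open Pool.Agent.R914.K3P

/-- The multilinear forms in vectors `t_j` of the space `K ^ B` (`j` in `S`) and in matrices `X_j`
of size `M` (`j` in `U`): such a form is given by its values on the basis vectors and on the
elementary matrices. -/
abbrev MixedForm (K : Type u) (B M S U : Type) : Type u := (S → B) → (U → M × M) → K

variable {K : Type u} [Field K] {B ι M : Type} [Fintype B] [DecidableEq B] [Fintype M]
  [DecidableEq M]

/-- The form is killed by the Lie algebras `so(V i)` of the blocks: the element given by two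
different basis vectors `u`, `v` of the same block acts on vectors by
`2 x ↦ 2 ((v, x) u - (u, x) v)` and on matrices by `X ↦ L u L v X - X L u L v`. -/
def MixedKilled (κ : B → ι) (L : B → Matrix M M K) {S U : Type} [Fintype S] [DecidableEq S]
    [Fintype U] [DecidableEq U] (t : MixedForm K B M S U) : Prop :=
  ∀ u v : B, κ u = κ v → u ≠ v → ∀ (J : S → B) (Q : U → M × M),
    2 * ∑ j, ((if J j = v then t (update J j u) Q else 0) -
      (if J j = u then t (update J j v) Q else 0)) +
    ∑ w, ∑ p, ((L u * L v) p (Q w).1 * t J (update Q w (p, (Q w).2)) -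
      (L u * L v) (Q w).2 p * t J (update Q w ((Q w).1, p))) = 0

/-- The composition: the variables in `C` are contracted by the scalar product, the variables in
`D` by the trace form `tr (X Y)`. -/
def mixedComp {S C S' U D U' : Type} [Fintype C] [DecidableEq C] [Fintype D] [DecidableEq D]
    (t : MixedForm K B M (S ⊕ C) (U ⊕ D)) (s : MixedForm K B M (C ⊕ S') (D ⊕ U')) :
    MixedForm K B M (S ⊕ S') (U ⊕ U') := fun J Q =>
  ∑ I : C → B, ∑ R : D → M × M, t (Sum.elim (J ∘ Sum.inl) I) (Sum.elim (Q ∘ Sum.inl) R) *
    s (Sum.elim I (J ∘ Sum.inr)) (Sum.elim (Prod.swap ∘ R) (Q ∘ Sum.inr))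

/-- The form `X ↦ tr (F(t) X)` of the vectors `t` and one matrix `X`. -/
def matrixForm {S : Type} (F : (S → B) → Matrix M M K) : MixedForm K B M S Unit :=
  fun J Q => F J (Q ()).2 (Q ()).1

/-- The form `tr (X Y Z)` in three matrices. -/
def traceThree (K : Type u) [Field K] (B M : Type) [DecidableEq M] :
    MixedForm K B M Empty (Fin 3) :=
  fun _ Q => if (Q 0).2 = (Q 1).1 ∧ (Q 1).2 = (Q 2).1 ∧ (Q 2).2 = (Q 0).1 then 1 else 0

/-- The spaces `A S U` of forms are stable under renaming of the variables. -/
def StableUnderRenaming (A : ∀ S U : Type, Submodule K (MixedForm K B M S U)) : Prop :=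
  ∀ {S S' U U' : Type} [Finite S] [Finite S'] [Finite U] [Finite U'] (e : S ≃ S') (f : U ≃ U')
    (t : MixedForm K B M S U), t ∈ A S U →
    (fun J Q => t (J ∘ e) (Q ∘ f) : MixedForm K B M S' U') ∈ A S' U'

/-- The spaces `A S U` of forms are stable under composition. -/
def StableUnderComposition (A : ∀ S U : Type, Submodule K (MixedForm K B M S U)) : Prop :=
  ∀ {S C S' U D U' : Type} [Finite S] [Fintype C] [DecidableEq C] [Finite S'] [Finite U]
    [Fintype D] [DecidableEq D] [Finite U'] (t : MixedForm K B M (S ⊕ C) (U ⊕ D))
    (s : MixedForm K B M (C ⊕ S') (D ⊕ U')), t ∈ A (S ⊕ C) (U ⊕ D) → s ∈ A (C ⊕ S') (D ⊕ U') →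
    mixedComp t s ∈ A (S ⊕ S') (U ⊕ U')

/-- A system of spaces of forms `A S U` in vector variables `S` and matrix variables `U` which
contains the constants, the scalar product and the form `tr (X Y Z)` and is stable under renaming of
the variables and under composition. In the intended use `A S U` is the space of linear
combinations, with complex coefficients, of the classes in `T ^ ⊗ S ⊗ End(H) ^ ⊗ U` of algebraic
cycles on the products of powers of `X` and of `K`. -/
structure MixedSystem (K : Type u) [Field K] (B M : Type) [Fintype B] [DecidableEq B] [Fintype M]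
    [DecidableEq M] where
  /-- the spaces -/
  A : ∀ S U : Type, Submodule K (MixedForm K B M S U)
  const : (fun _ _ => 1 : MixedForm K B M Empty Empty) ∈ A Empty Empty
  scalar : (fun J _ => if J true = J false then 1 else 0 : MixedForm K B M Bool Empty) ∈
    A Bool Empty
  trace : traceThree K B M ∈ A Empty (Fin 3)
  rename : StableUnderRenaming A
  comp : StableUnderComposition A

/-- The endomorphisms are algebraic: the system contains the forms `X ↦ tr (Z X)` for all matrices
`Z` which commute with the Lie algebras of the blocks. -/
def EndomorphismsAlgebraic (κ : B → ι) (L : B → Matrix M M K) (𝒜 : MixedSystem K B M) : Prop :=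
  ∀ Z, IsEnd κ L Z → matrixForm (fun _ : Empty → B => Z) ∈ 𝒜.A Empty Unit

/-- The scalar product of the block `i`. -/
def blockForm (K : Type u) [Field K] (M : Type) (κ : B → ι) [DecidableEq ι] (i : ι) :
    MixedForm K B M Bool Empty :=
  fun J _ => if J true = J false ∧ κ (J true) = i then 1 else 0

/-- The matrix `F(t)` of a form `tr (F(t) X)` in a vector `t` and a matrix `X`, at a basis vector. -/
def formMatrix (f : MixedForm K B M Unit Unit) (b : B) : Matrix M M K :=
  Matrix.of fun n m => f (fun _ => b) (fun _ => (m, n))

/-- The Hodge conjecture for all products of powers of `X` and of its Kuga-Satake variety: all forms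
killed by the Lie algebras of the blocks are algebraic. -/
def AllAlgebraic (κ : B → ι) (L : B → Matrix M M K) (𝒜 : MixedSystem K B M) : Prop :=
  ∀ (S U : Type) [Fintype S] [DecidableEq S] [Fintype U] [DecidableEq U]
    (t : MixedForm K B M S U), MixedKilled κ L t → t ∈ 𝒜.A S U

/-- The Kuga-Satake correspondence, the form `tr (L(t) X)`, is algebraic. -/
def KugaSatakeAlgebraic (L : B → Matrix M M K) (𝒜 : MixedSystem K B M) : Prop :=
  matrixForm (fun J : Unit → B => L (J ())) ∈ 𝒜.A Unit Unit

/-- The Hodge classes in `T ⊗ T` are algebraic. -/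
def SquareAlgebraic (κ : B → ι) [DecidableEq ι] (𝒜 : MixedSystem K B M) : Prop :=
  ∀ i, blockForm K M κ i ∈ 𝒜.A Bool Empty

end Pool.Agent.R918.KS
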