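import Pool.Agent.R918.Asm

set_option autoImplicit false
set_option linter.unusedSectionVars false
set_option linter.unusedVariables false

/-!
# Lie subalgebras of sums of `gl(n)`, `n` even, which generate the algebra of the operators on the
Fock space
-/

open Module

namespace Pool.Agent.R918

variable {k n : ℕ} {U : Type} [AddCommGroup U] [Module ℂ U]
  {a b : Fin k × Fin n → Module.End ℂ U}

/-- the matrices `x` such that `g x g'` acts as an element of `𝔥` -/
noncomputable def SS (a b : Fin k × Fin n → Module.End ℂ U) (𝔥 : Submodule ℂ (Module.End ℂ U))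
    (g g' : Matrix (Fin k × Fin n) (Fin k × Fin n) ℂ) :
    Submodule ℂ (Matrix (Fin k × Fin n) (Fin k × Fin n) ℂ) where
  carrier := {x | rho a b (g * x * g') ∈ 𝔥}
  zero_mem' := by
    change rho a b (g * 0 * g') ∈ 𝔥
    rw [mul_zero, zero_mul, map_zero]; exact 𝔥.zero_mem
  add_mem' := fun {x y} hx hy => by
    change rho a b (g * (x + y) * g') ∈ 𝔥
    rw [mul_add, add_mul, map_add]; exact 𝔥.add_mem hx hy
  smul_mem' := fun c x hx => by
    change rho a b (g * (c • x) * g') ∈ 𝔥
    rw [mul_smul_comm, smul_mul_assoc, map_smul]; exact 𝔥.smul_mem c hx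

theorem single_br {J : Type} [Fintype J] [DecidableEq J] {p q r : J} (hpr : p ≠ r) :
    (Matrix.single p q (1 : ℂ)) * Matrix.single q r 1 - Matrix.single q r 1 * Matrix.single p q 1 =
      Matrix.single p r 1 := by
  rw [Matrix.single_mul_single_same, Matrix.single_mul_single_of_ne _ _ _ _ (Ne.symm hpr), mul_one,
    sub_zero]

theorem single_br' {J : Type} [Fintype J] [DecidableEq J] (p q : J) :
    (Matrix.single p q (1 : ℂ)) * Matrix.single q p 1 - Matrix.single q p 1 * Matrix.single p q 1 =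
      Matrix.single p p 1 - Matrix.single q q 1 := by
  rw [Matrix.single_mul_single_same, Matrix.single_mul_single_same, mul_one]

/-- **Main theorem**: all traceless block diagonal matrices act as elements of `𝔥`. -/
theorem traceless_mem [Nontrivial U] [FiniteDimensional ℂ U] (hcar : Car a b) (hn : Even n)
    {𝔥 : Submodule ℂ (Module.End ℂ U)} (hle : ∀ x ∈ 𝔥, ∃ M, IsBD M ∧ x = rhoh a b M)
    (hbr : ∀ x ∈ 𝔥, ∀ y ∈ 𝔥, x * y - y * x ∈ 𝔥)
    (gen : ∀ σ i j, a (σ, i) * b (σ, j) ∈ Algebra.adjoin ℂ (𝔥 : Set (Module.End ℂ U)))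
    (M : Matrix (Fin k × Fin n) (Fin k × Fin n) ℂ) (hM : IsBD M) (htr : ∀ σ, btr σ M = 0) :
    rho a b M ∈ 𝔥 := by
  rcases Nat.eq_zero_or_pos n with hn0 | hn0
  · have : M = 0 := by
      ext p q
      have := p.2.2
      omega
    rw [this, map_zero]
    exact 𝔥.zero_mem
  have hgood : Good (LL a b 𝔥) :=
    { pos := hn0
      bd := fun x hx => LL_bd hx
      tr := fun x hx σ => LL_btr hn0 hx σ
      br := fun x hx y hy => (LL_br hcar hbr hx hy).1
      irr := fun σ P h1 h2 h3 i => block_irr hcar hle gen σ P h1 h2 h3 i }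
  obtain ⟨g, g', hgbd, hg'bd, hgg', hg'g, hu⟩ := exists_units hcar hn hgood (stable_h hle gen)
  have hmul' : ∀ x y : Matrix (Fin k × Fin n) (Fin k × Fin n) ℂ,
      g * (x * y) * g' = (g * x * g') * (g * y * g') := by
    intro x y
    calc g * (x * y) * g' = g * x * 1 * y * g' := by rw [mul_one]; simp only [mul_assoc]
      _ = g * x * (g' * g) * y * g' := by rw [hg'g]
      _ = (g * x * g') * (g * y * g') := by simp only [mul_assoc]
  have hbrS : ∀ x ∈ SS a b 𝔥 g g', ∀ y ∈ SS a b 𝔥 g g', x * y - y * x ∈ SS a b 𝔥 g g' := by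
    intro x hx y hy
    change rho a b (g * (x * y - y * x) * g') ∈ 𝔥
    rw [mul_sub, sub_mul, hmul', hmul', rho_bracket hcar]
    exact hbr _ hx _ hy
  have hLS : ∀ x y : Matrix (Fin k × Fin n) (Fin k × Fin n) ℂ, g * x * g' ∈ LL a b 𝔥 →
      g * y * g' ∈ LL a b 𝔥 → x * y - y * x ∈ SS a b 𝔥 g g' := by
    intro x y hx hy
    change rho a b (g * (x * y - y * x) * g') ∈ 𝔥
    rw [mul_sub, sub_mul, hmul', hmul']
    exact (LL_br hcar hbr hx hy).2
  -- the steps
  have hstep : ∀ (σ : Fin k) (i : ℕ) (hi : i + 1 < n),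
      Matrix.single ((σ, ⟨i, by omega⟩) : Fin k × Fin n)
          ((σ, ⟨i + 1, hi⟩) : Fin k × Fin n) (1 : ℂ) ∈ SS a b 𝔥 g g' ∧
        Matrix.single ((σ, ⟨i + 1, hi⟩) : Fin k × Fin n)
          ((σ, ⟨i, by omega⟩) : Fin k × Fin n) (1 : ℂ) ∈ SS a b 𝔥 g g' := by
    intro σ i hi
    obtain ⟨h1, h2⟩ := hu σ i hi
    set p : Fin k × Fin n := (σ, ⟨i, by omega⟩) with hp
    set q : Fin k × Fin n := (σ, ⟨i + 1, hi⟩) with hq
    have hpq : p ≠ q := fun h => by
      have h3 := congrArg (fun r : Fin k × Fin n => (r.2 : ℕ)) h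
      simp [hp, hq] at h3
    have hH : g * (Matrix.single p p (1 : ℂ) - Matrix.single q q 1) * g' ∈ LL a b 𝔥 := by
      rw [← single_br' p q, mul_sub, sub_mul, hmul', hmul']
      exact hgood.br _ h1 _ h2
    have e1 : (Matrix.single p p (1 : ℂ) - Matrix.single q q 1) * Matrix.single p q 1 -
        Matrix.single p q 1 * (Matrix.single p p (1 : ℂ) - Matrix.single q q 1) =
          (2 : ℂ) • Matrix.single p q 1 := by
      rw [sub_mul, mul_sub, Matrix.single_mul_single_same, Matrix.single_mul_single_same,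
        Matrix.single_mul_single_of_ne _ _ _ _ (Ne.symm hpq),
        Matrix.single_mul_single_of_ne _ _ _ _ (Ne.symm hpq), mul_one]
      module
    have e2 : (Matrix.single p p (1 : ℂ) - Matrix.single q q 1) * Matrix.single q p 1 -
        Matrix.single q p 1 * (Matrix.single p p (1 : ℂ) - Matrix.single q q 1) =
          (-2 : ℂ) • Matrix.single q p 1 := by
      rw [sub_mul, mul_sub, Matrix.single_mul_single_same, Matrix.single_mul_single_same,
        Matrix.single_mul_single_of_ne _ _ _ _ hpq,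
        Matrix.single_mul_single_of_ne _ _ _ _ hpq, mul_one]
      module
    have f1 := hLS _ _ hH h1
    have f2 := hLS _ _ hH h2
    rw [e1] at f1
    rw [e2] at f2
    constructor
    · have f3 := (SS a b 𝔥 g g').smul_mem (2⁻¹ : ℂ) f1
      rwa [smul_smul, inv_mul_cancel₀ two_ne_zero, one_smul] at f3
    · have f3 := (SS a b 𝔥 g g').smul_mem ((-2)⁻¹ : ℂ) f2
      rwa [smul_smul, inv_mul_cancel₀ (by norm_num), one_smul] at f3
  have hup : ∀ (σ : Fin k) (d : ℕ), ∀ (i : ℕ) (hi : i + (d + 1) < n),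
      Matrix.single ((σ, ⟨i, by omega⟩) : Fin k × Fin n)
          ((σ, ⟨i + (d + 1), hi⟩) : Fin k × Fin n) (1 : ℂ) ∈ SS a b 𝔥 g g' ∧
        Matrix.single ((σ, ⟨i + (d + 1), hi⟩) : Fin k × Fin n)
          ((σ, ⟨i, by omega⟩) : Fin k × Fin n) (1 : ℂ) ∈ SS a b 𝔥 g g' := by
    intro σ d
    induction d with
    | zero => exact fun i hi => hstep σ i hi
    | succ d ih =>
      intro i hi
      obtain ⟨h1, h2⟩ := ih i (by omega)
      obtain ⟨h3, h4⟩ := hstep σ (i + (d + 1)) (by omega)
      have hne : ((σ, ⟨i, by omega⟩) : Fin k × Fin n) ≠ (σ, ⟨i + (d + 1) + 1, hi⟩) := fun h => by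
        have h5 : i = i + (d + 1) + 1 := congrArg (fun r : Fin k × Fin n => (r.2 : ℕ)) h
        omega
      have f1 := hbrS _ h1 _ h3
      have f2 := hbrS _ h4 _ h2
      rw [single_br hne] at f1
      rw [single_br (Ne.symm hne)] at f2
      exact ⟨f1, f2⟩
  have hoff : ∀ (σ : Fin k) (i j : Fin n), i ≠ j →
      Matrix.single ((σ, i) : Fin k × Fin n) ((σ, j) : Fin k × Fin n) (1 : ℂ) ∈
        SS a b 𝔥 g g' := by
    intro σ i j hij
    rcases lt_or_gt_of_ne hij with h | h
    · have h1 := (hup σ ((j : ℕ) - i - 1) i (by have := j.2; have h2 : (i : ℕ) < j := h; omega)).1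
      have h2 : (⟨(i : ℕ) + ((j : ℕ) - i - 1 + 1), by
          have := j.2; have h2 : (i : ℕ) < j := h; omega⟩ : Fin n) = j := Fin.ext (by
        have h2 : (i : ℕ) < j := h
        change (i : ℕ) + ((j : ℕ) - i - 1 + 1) = j
        omega)
      rw [h2] at h1
      exact h1
    · have h1 := (hup σ ((i : ℕ) - j - 1) j (by have := i.2; have h2 : (j : ℕ) < i := h; omega)).2
      have h2 : (⟨(j : ℕ) + ((i : ℕ) - j - 1 + 1), by
          have := i.2; have h2 : (j : ℕ) < i := h; omega⟩ : Fin n) = i := Fin.ext (by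
        have h2 : (j : ℕ) < i := h
        change (j : ℕ) + ((i : ℕ) - j - 1 + 1) = i
        omega)
      rw [h2] at h1
      exact h1
  have hdiag : ∀ (σ : Fin k) (i j : Fin n),
      Matrix.single ((σ, i) : Fin k × Fin n) ((σ, i) : Fin k × Fin n) (1 : ℂ) -
        Matrix.single ((σ, j) : Fin k × Fin n) ((σ, j) : Fin k × Fin n) (1 : ℂ) ∈
          SS a b 𝔥 g g' := by
    intro σ i j
    by_cases hij : i = j
    · rw [hij, sub_self]
      exact Submodule.zero_mem _
    · rw [← single_br' ((σ, i) : Fin k × Fin n) (σ, j)]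
      exact hbrS _ (hoff σ i j hij) _ (hoff σ j i (Ne.symm hij))
  -- all traceless matrices
  have hall : ∀ N : Matrix (Fin k × Fin n) (Fin k × Fin n) ℂ, IsBD N → (∀ σ, btr σ N = 0) →
      N ∈ SS a b 𝔥 g g' := by
    intro N hN hNtr
    have hdec : N = ∑ σ : Fin k, ∑ i : Fin n, ∑ j : Fin n, N (σ, i) (σ, j) •
        (Matrix.single ((σ, i) : Fin k × Fin n) ((σ, j) : Fin k × Fin n) (1 : ℂ) -
          if i = j then Matrix.single ((σ, ⟨0, hn0⟩) : Fin k × Fin n)
            ((σ, ⟨0, hn0⟩) : Fin k × Fin n) (1 : ℂ) else 0) := by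
      have h1 : ∀ σ : Fin k, ∑ i : Fin n, ∑ j : Fin n, N (σ, i) (σ, j) •
          (Matrix.single ((σ, i) : Fin k × Fin n) ((σ, j) : Fin k × Fin n) (1 : ℂ) -
            if i = j then Matrix.single ((σ, ⟨0, hn0⟩) : Fin k × Fin n)
              ((σ, ⟨0, hn0⟩) : Fin k × Fin n) (1 : ℂ) else 0) =
          ∑ i : Fin n, ∑ j : Fin n, N (σ, i) (σ, j) •
            Matrix.single ((σ, i) : Fin k × Fin n) ((σ, j) : Fin k × Fin n) (1 : ℂ) := by
        intro σ
        have h2 : ∀ i : Fin n, ∑ j : Fin n, N (σ, i) (σ, j) •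
            (Matrix.single ((σ, i) : Fin k × Fin n) ((σ, j) : Fin k × Fin n) (1 : ℂ) -
              if i = j then Matrix.single ((σ, ⟨0, hn0⟩) : Fin k × Fin n)
                ((σ, ⟨0, hn0⟩) : Fin k × Fin n) (1 : ℂ) else 0) =
            (∑ j : Fin n, N (σ, i) (σ, j) •
              Matrix.single ((σ, i) : Fin k × Fin n) ((σ, j) : Fin k × Fin n) (1 : ℂ)) -
              N (σ, i) (σ, i) • Matrix.single ((σ, ⟨0, hn0⟩) : Fin k × Fin n)
                ((σ, ⟨0, hn0⟩) : Fin k × Fin n) (1 : ℂ) := by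
          intro i
          simp only [smul_sub, Finset.sum_sub_distrib, smul_ite, smul_zero]
          rw [Finset.sum_ite_eq, if_pos (Finset.mem_univ _)]
        rw [Finset.sum_congr rfl fun i _ => h2 i, Finset.sum_sub_distrib, ← Finset.sum_smul]
        have h3 : ∑ i : Fin n, N (σ, i) (σ, i) = 0 := by
          rw [← hNtr σ, btr_eq]
          unfold pj Matrix.trace
          rw [Fintype.sum_prod_type, Finset.sum_eq_single σ]
          · refine Finset.sum_congr rfl fun i _ => ?_
            rw [Matrix.diag_apply, Matrix.diagonal_mul, if_pos rfl, one_mul]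
          · intro τ _ hτ
            refine Finset.sum_eq_zero fun i _ => ?_
            rw [Matrix.diag_apply, Matrix.diagonal_mul, if_neg hτ, zero_mul]
          · intro h; exact absurd (Finset.mem_univ _) h
        rw [h3, zero_smul, sub_zero]
      rw [Finset.sum_congr rfl fun σ _ => h1 σ]
      ext p q
      rw [Matrix.sum_apply, Finset.sum_eq_single p.1]
      · rw [Matrix.sum_apply, Finset.sum_eq_single p.2]
        · rw [Matrix.sum_apply]
          by_cases hpq : p.1 = q.1
          · rw [Finset.sum_eq_single q.2]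
            · have e1 : ((p.1, p.2) : Fin k × Fin n) = p := rfl
              have e2 : ((p.1, q.2) : Fin k × Fin n) = q := Prod.ext hpq rfl
              rw [e1, e2, Matrix.smul_apply, Matrix.single_apply, if_pos ⟨rfl, rfl⟩, smul_eq_mul,
                mul_one]
            · intro j _ hj
              rw [Matrix.smul_apply, Matrix.single_apply, if_neg (fun h => hj (by rw [← h.2])),
                smul_zero]
            · intro h; exact absurd (Finset.mem_univ _) h
          · rw [hN p q hpq]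
            symm
            refine Finset.sum_eq_zero fun j _ => ?_
            rw [Matrix.smul_apply, Matrix.single_apply, if_neg (fun h => hpq (by rw [← h.2])),
              smul_zero]
        · intro i _ hi
          rw [Matrix.sum_apply]
          refine Finset.sum_eq_zero fun j _ => ?_
          rw [Matrix.smul_apply, Matrix.single_apply, if_neg (fun h => hi (by rw [← h.1])),
            smul_zero]
        · intro h; exact absurd (Finset.mem_univ _) h
      · intro τ _ hτ
        rw [Matrix.sum_apply]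
        refine Finset.sum_eq_zero fun i _ => ?_
        rw [Matrix.sum_apply]
        refine Finset.sum_eq_zero fun j _ => ?_
        rw [Matrix.smul_apply, Matrix.single_apply, if_neg (fun h => hτ (by rw [← h.1])),
          smul_zero]
      · intro h; exact absurd (Finset.mem_univ _) h
    rw [hdec]
    refine Submodule.sum_mem _ fun σ _ => Submodule.sum_mem _ fun i _ => Submodule.sum_mem _
      fun j _ => Submodule.smul_mem _ _ ?_
    by_cases hij : i = j
    · rw [if_pos hij, hij]
      exact hdiag σ j _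
    · rw [if_neg hij, sub_zero]
      exact hoff σ i j hij
  have h1 := hall (g' * M * g) ((hg'bd.mul hM).mul hgbd) (fun σ => by
    rw [btr_comm σ (hg'bd.mul hM) hgbd, ← mul_assoc, hgg', one_mul]
    exact htr σ)
  have h2 : rho a b (g * (g' * M * g) * g') ∈ 𝔥 := h1
  have h3 : g * (g' * M * g) * g' = M := by
    calc g * (g' * M * g) * g' = (g * g') * M * (g * g') := by simp only [mul_assoc]
      _ = M := by rw [hgg', one_mul, mul_one]
  rwa [h3] at h2

/-- the brackets of the elements of the big Lie algebra are in `𝔥` -/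
theorem bracket_mem [Nontrivial U] [FiniteDimensional ℂ U] (hcar : Car a b) (hn : Even n)
    {𝔥 : Submodule ℂ (Module.End ℂ U)} (hle : ∀ x ∈ 𝔥, ∃ M, IsBD M ∧ x = rhoh a b M)
    (hbr : ∀ x ∈ 𝔥, ∀ y ∈ 𝔥, x * y - y * x ∈ 𝔥)
    (gen : ∀ σ i j, a (σ, i) * b (σ, j) ∈ Algebra.adjoin ℂ (𝔥 : Set (Module.End ℂ U)))
    {M N : Matrix (Fin k × Fin n) (Fin k × Fin n) ℂ} (hM : IsBD M) (hN : IsBD N) :
    rhoh a b M * rhoh a b N - rhoh a b N * rhoh a b M ∈ 𝔥 := by
  rw [← rhoh_bracket hcar, rhoh_eq, Matrix.trace_sub, Matrix.trace_mul_comm N M, sub_self,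
    mul_zero, zero_smul, sub_zero]
  exact traceless_mem hcar hn hle hbr gen _ ((hM.mul hN).sub (hN.mul hM))
    fun σ => btr_bracket σ hM hN

theorem rho_vac_univ {J : Type} [Fintype J] [DecidableEq J] {a b : J → Module.End ℂ U}
    (hcar : Car a b) {u : U} (hu : Vac a b Finset.univ u) (M : Matrix J J ℂ) :
    rho a b M u = M.trace • u := by
  rw [rho_apply, Matrix.trace, Finset.sum_smul]
  refine Finset.sum_congr rfl fun p _ => ?_
  rw [Finset.sum_eq_single p]
  · rw [hcar.ab_of_a (hu.1 p (Finset.mem_univ _))]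
    rfl
  · intro q _ hq
    rw [hcar.abne (Ne.symm hq), hu.1 p (Finset.mem_univ _), map_zero, neg_zero, smul_zero]
  · intro h; exact absurd (Finset.mem_univ _) h

/-- **One block**: the Lie algebra is everything. -/
theorem one_block [Nontrivial U] [FiniteDimensional ℂ U] (hk : k = 1) (hcar : Car a b)
    (hn : Even n)
    {𝔥 : Submodule ℂ (Module.End ℂ U)} (hle : ∀ x ∈ 𝔥, ∃ M, IsBD M ∧ x = rhoh a b M)
    (hbr : ∀ x ∈ 𝔥, ∀ y ∈ 𝔥, x * y - y * x ∈ 𝔥)
    (gen : ∀ σ i j, a (σ, i) * b (σ, j) ∈ Algebra.adjoin ℂ (𝔥 : Set (Module.End ℂ U)))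
    (N : Matrix (Fin k × Fin n) (Fin k × Fin n) ℂ) : rhoh a b N ∈ 𝔥 := by
  subst hk
  have hbd : ∀ M : Matrix (Fin 1 × Fin n) (Fin 1 × Fin n) ℂ, IsBD M :=
    fun M p q h => absurd (Subsingleton.elim _ _) h
  have htr : ∀ (M : Matrix (Fin 1 × Fin n) (Fin 1 × Fin n) ℂ) σ, btr σ M = M.trace := by
    intro M σ
    rw [btr_eq]
    have : pj 1 n σ = 1 := by
      unfold pj
      rw [← Matrix.diagonal_one]
      congr 1
      ext p
      rw [if_pos (Subsingleton.elim _ _)]
    rw [this, one_mul]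
  have hmem : ∀ M : Matrix (Fin 1 × Fin n) (Fin 1 × Fin n) ℂ, M.trace = 0 → rhoh a b M ∈ 𝔥 := by
    intro M hM
    rw [rhoh_eq, hM, mul_zero, zero_smul, sub_zero]
    exact traceless_mem hcar hn hle hbr gen M (hbd M) fun σ => by rw [htr, hM]
  rcases Nat.eq_zero_or_pos n with hn0 | hn0
  · refine hmem N ?_
    subst hn0
    simp [Matrix.trace]
  by_cases hex : ∃ M, rhoh a b M ∈ 𝔥 ∧ M.trace ≠ 0
  · obtain ⟨M, hM, hM0⟩ := hex
    have h1 := hmem (N - (N.trace / M.trace) • M) (by
      rw [Matrix.trace_sub, Matrix.trace_smul, smul_eq_mul, div_mul_cancel₀ _ hM0, sub_self])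
    rw [map_sub, map_smul] at h1
    have h2 := 𝔥.add_mem h1 (𝔥.smul_mem (N.trace / M.trace) hM)
    rwa [sub_add_cancel] at h2
  · exfalso
    push Not at hex
    obtain ⟨u0, hu0, hv0⟩ := hcar.exists_vac ∅
    obtain ⟨u1, hu1, hv1⟩ := hcar.exists_vac Finset.univ
    have hst : ∀ x ∈ (𝔥 : Set (Module.End ℂ U)), ∀ u ∈ Submodule.span ℂ {u0 + u1},
        x u ∈ Submodule.span ℂ {u0 + u1} := by
      intro x hx u hu
      obtain ⟨M, -, rfl⟩ := hle x hx
      have hM0 := hex M hx
      obtain ⟨c, rfl⟩ := Submodule.mem_span_singleton.1 hu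
      have h1 : rhoh a b M (u0 + u1) = 0 := by
        rw [rhoh_eq, hM0, mul_zero, zero_smul, sub_zero, map_add, rho_vac_univ hcar hv1, hM0,
          zero_smul, add_zero, rho_apply]
        refine Finset.sum_eq_zero fun p _ => Finset.sum_eq_zero fun q _ => ?_
        rw [hv0.2 q (Finset.notMem_empty q), map_zero, smul_zero]
      rw [map_smul, h1, smul_zero]
      exact Submodule.zero_mem _
    have h1 := Pool.Agent.Y102.SP.kil_adj _ _ hst _ (gen 0 ⟨0, hn0⟩ ⟨0, hn0⟩) (u0 + u1)
      (Submodule.mem_span_singleton_self _)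
    set p : Fin 1 × Fin n := (0, ⟨0, hn0⟩) with hp
    have h2 : (a p * b p) (u0 + u1) = u1 := by
      rw [Module.End.mul_apply, map_add, map_add, hv0.2 p (Finset.notMem_empty p), map_zero,
        zero_add, hcar.ab_of_a (hv1.1 p (Finset.mem_univ _))]
    rw [h2] at h1
    obtain ⟨c, hc⟩ := Submodule.mem_span_singleton.1 h1
    have h3 := congrArg (a p * b p) hc
    rw [map_smul, h2, Module.End.mul_apply, hcar.ab_of_a (hv1.1 p (Finset.mem_univ _))] at h3
    have h4 : c = 1 := by
      have h5 : (c - 1) • u1 = 0 := by rw [sub_smul, h3, one_smul, sub_self]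
      exact sub_eq_zero.1 ((smul_eq_zero.1 h5).resolve_right hu1)
    rw [h4, one_smul] at hc
    exact hu0 (by simpa using hc)

end Pool.Agent.R918
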