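import Pool.Agent.R918.Main

set_option autoImplicit false
set_option linter.unusedSectionVars false
set_option linter.unusedVariables false

/-!
# Particle numbers, their projectors, and the shift operators
-/

open Module

namespace Pool.Agent.R918

section lag

variable {M : Type} [AddCommGroup M] [Module ℂ M]

/-- every vector is a sum of eigenvectors with eigenvalues in `{0,…,n}` -/
def Diag (n : ℕ) (T : Module.End ℂ M) : Prop :=
  ∀ u : M, u ∈ Submodule.span ℂ {v : M | ∃ c : ℕ, c ≤ n ∧ T v = (c : ℂ) • v}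

/-- the projector on an eigenspace -/
noncomputable def lpr (n : ℕ) (T : Module.End ℂ M) (c : ℕ) : Module.End ℂ M :=
  Polynomial.aeval T (Lagrange.basis (Finset.range (n + 1)) (fun i : ℕ => (i : ℂ)) c)

theorem aeval_eig {T : Module.End ℂ M} {v : M} {c : ℂ} (h : T v = c • v) (p : Polynomial ℂ) :
    Polynomial.aeval T p v = p.eval c • v := by
  induction p using Polynomial.induction_on with
  | C r => rw [Polynomial.aeval_C, Module.algebraMap_end_apply, Polynomial.eval_C]
  | add p q hp hq => rw [map_add, LinearMap.add_apply, hp, hq, Polynomial.eval_add, add_smul]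
  | monomial m r ih =>
    rw [pow_succ, ← mul_assoc, map_mul, Polynomial.aeval_X, Module.End.mul_apply, h, map_smul, ih,
      Polynomial.eval_mul_X, smul_smul, mul_comm]

theorem lpr_eig {n : ℕ} {T : Module.End ℂ M} {v : M} {c d : ℕ} (hc : c ≤ n) (hd : d ≤ n)
    (h : T v = (d : ℂ) • v) : lpr n T c v = (if c = d then (1 : ℂ) else 0) • v := by
  unfold lpr
  rw [aeval_eig h]
  congr 1
  have hinj : Set.InjOn (fun i : ℕ => (i : ℂ)) (Finset.range (n + 1) : Set ℕ) :=
    fun x _ y _ hxy => Nat.cast_injective hxy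
  by_cases hcd : c = d
  · subst hcd
    rw [if_pos rfl]
    exact Lagrange.eval_basis_self hinj (Finset.mem_range.2 (by omega))
  · rw [if_neg hcd]
    exact Lagrange.eval_basis_of_ne hcd (Finset.mem_range.2 (by omega))

theorem lpr_sum (n : ℕ) (T : Module.End ℂ M) : ∑ c ∈ Finset.range (n + 1), lpr n T c = 1 := by
  unfold lpr
  rw [← map_sum, Lagrange.sum_basis, map_one]
  · exact fun x _ y _ hxy => Nat.cast_injective hxy
  · exact ⟨0, Finset.mem_range.2 (by omega)⟩

theorem lpr_left {n : ℕ} {T : Module.End ℂ M} (h : Diag n T) {c : ℕ} (hc : c ≤ n) (u : M) :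
    T (lpr n T c u) = (c : ℂ) • lpr n T c u := by
  induction h u using Submodule.span_induction with
  | mem v hv =>
    obtain ⟨d, hd, hv⟩ := hv
    rw [lpr_eig hc hd hv, map_smul, hv]
    by_cases hcd : c = d
    · rw [if_pos hcd, hcd, one_smul, one_smul]
    · rw [if_neg hcd, zero_smul, zero_smul, smul_zero]
  | zero => rw [map_zero, map_zero, smul_zero]
  | add v w _ _ hv hw => rw [map_add, map_add, hv, hw, smul_add]
  | smul r v _ hv => rw [map_smul, map_smul, hv, smul_comm]

theorem lpr_comm {n : ℕ} {T X : Module.End ℂ M} (hX : X * T = T * X) (c : ℕ) :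
    X * lpr n T c = lpr n T c * X := by
  have h1 : ∀ p : Polynomial ℂ, X * Polynomial.aeval T p = Polynomial.aeval T p * X := by
    intro p
    induction p using Polynomial.induction_on with
    | C r => rw [Polynomial.aeval_C, Algebra.commutes]
    | add p q hp hq => rw [map_add, mul_add, add_mul, hp, hq]
    | monomial m r ih =>
      rw [pow_succ, ← mul_assoc, map_mul, Polynomial.aeval_X, ← mul_assoc, ih, mul_assoc, hX,
        mul_assoc]
  exact h1 _

theorem lpr_stable {n : ℕ} {T : Module.End ℂ M} {P : Submodule ℂ M} (hP : ∀ u ∈ P, T u ∈ P)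
    (c : ℕ) : ∀ u ∈ P, lpr n T c u ∈ P := by
  have h1 : ∀ p : Polynomial ℂ, ∀ u ∈ P, Polynomial.aeval T p u ∈ P := by
    intro p
    induction p using Polynomial.induction_on with
    | C r =>
      intro u hu
      rw [Polynomial.aeval_C, Module.algebraMap_end_apply]
      exact P.smul_mem _ hu
    | add p q hp hq =>
      intro u hu
      rw [map_add, LinearMap.add_apply]
      exact P.add_mem (hp u hu) (hq u hu)
    | monomial m r ih =>
      intro u hu
      rw [pow_succ, ← mul_assoc, map_mul, Polynomial.aeval_X, Module.End.mul_apply]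
      exact ih _ (hP u hu)
  exact h1 _

end lag

variable {k n : ℕ} {U : Type} [AddCommGroup U] [Module ℂ U]

section occ

variable {J : Type} [DecidableEq J] {a b : J → Module.End ℂ U}

theorem occ_idem (h : Car a b) (p : J) (u : U) : a p (b p (a p (b p u))) = a p (b p u) := by
  have h1 := h.ab' p p (b p u)
  rw [if_pos rfl, h.bbsq, map_zero, zero_add] at h1
  rw [h1]

theorem occ_comm (h : Car a b) (p q : J) (u : U) :
    a p (b p (a q (b q u))) = a q (b q (a p (b p u))) := by
  by_cases hpq : p = q
  · rw [hpq]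
  · have h1 : b p (a q (b q u)) = -(a q (b p (b q u))) := by
      rw [h.abne (Ne.symm hpq), neg_neg]
    have h2 : b q (a p (b p u)) = -(a p (b q (b p u))) := by
      rw [h.abne hpq, neg_neg]
    rw [h1, h2, map_neg, map_neg, h.aa' p q, h.bb' p q, map_neg, map_neg, neg_neg]

/-- Every vector is a sum of vectors with definite occupation numbers. -/
theorem occ_span [Fintype J] (h : Car a b) (u : U) : u ∈ Submodule.span ℂ
    {v : U | ∀ p, ∃ c : ℕ, c ≤ 1 ∧ a p (b p v) = (c : ℂ) • v} := by
  have h0 : ∀ Q : Finset J, ∀ u : U, u ∈ Submodule.span ℂ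
      {v : U | ∀ p ∈ Q, ∃ c : ℕ, c ≤ 1 ∧ a p (b p v) = (c : ℂ) • v} := by
    intro Q
    induction Q using Finset.induction_on with
    | empty =>
      intro u
      exact Submodule.subset_span fun p hp => absurd hp (Finset.notMem_empty p)
    | insert q Q hq ih =>
      intro u
      induction ih u using Submodule.span_induction with
      | mem v hv =>
        have e1 : v = a q (b q v) + (v - a q (b q v)) := by abel
        rw [e1]
        refine Submodule.add_mem _ (Submodule.subset_span fun p hp => ?_)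
          (Submodule.subset_span fun p hp => ?_)
        · by_cases hpq : p = q
          · subst hpq
            exact ⟨1, le_refl 1, by rw [occ_idem h, Nat.cast_one, one_smul]⟩
          · obtain ⟨c, hc, hv'⟩ := hv p ((Finset.mem_insert.1 hp).resolve_left hpq)
            exact ⟨c, hc, by rw [occ_comm h, hv', map_smul, map_smul]⟩
        · by_cases hpq : p = q
          · subst hpq
            exact ⟨0, zero_le_one, by
              rw [map_sub, map_sub, occ_idem h, sub_self, Nat.cast_zero, zero_smul]⟩
          · obtain ⟨c, hc, hv'⟩ := hv p ((Finset.mem_insert.1 hp).resolve_left hpq)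
            exact ⟨c, hc, by
              rw [map_sub, map_sub, occ_comm h, hv', map_smul, map_smul, smul_sub]⟩
      | zero => exact Submodule.zero_mem _
      | add v w _ _ hv hw => exact Submodule.add_mem _ hv hw
      | smul r v _ hv => exact Submodule.smul_mem _ r hv
  refine Submodule.span_mono ?_ (h0 Finset.univ u)
  exact fun v hv p => hv p (Finset.mem_univ p)

end occ

variable {a b : Fin k × Fin n → Module.End ℂ U}

/-- the particle number of a colour -/
noncomputable def nn (a b : Fin k × Fin n → Module.End ℂ U) (σ : Fin k) : Module.End ℂ U :=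
  ∑ i : Fin n, a (σ, i) * b (σ, i)

theorem nn_apply (σ : Fin k) (u : U) : nn a b σ u = ∑ i : Fin n, a (σ, i) (b (σ, i) u) := by
  unfold nn
  rw [LinearMap.sum_apply]
  rfl

theorem rho_pj (σ : Fin k) : rho a b (pj k n σ) = nn a b σ := by
  refine LinearMap.ext fun u => ?_
  rw [rho_apply, nn_apply, Fintype.sum_prod_type, Finset.sum_eq_single σ]
  · refine Finset.sum_congr rfl fun i _ => ?_
    rw [Finset.sum_eq_single (σ, i)]
    · unfold pj
      rw [Matrix.diagonal_apply_eq, if_pos rfl, one_smul]
    · intro q _ hq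
      unfold pj
      rw [Matrix.diagonal_apply_ne _ (Ne.symm hq), zero_smul]
    · intro h; exact absurd (Finset.mem_univ _) h
  · intro τ _ hτ
    refine Finset.sum_eq_zero fun i _ => Finset.sum_eq_zero fun q _ => ?_
    by_cases hq : (τ, i) = q
    · subst hq
      unfold pj
      rw [Matrix.diagonal_apply_eq, if_neg hτ, zero_smul]
    · unfold pj
      rw [Matrix.diagonal_apply_ne _ hq, zero_smul]
  · intro h; exact absurd (Finset.mem_univ _) h

/-- Every vector is a sum of vectors with definite particle numbers. -/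
theorem nn_span (h : Car a b) (u : U) : u ∈ Submodule.span ℂ
    {v : U | ∀ σ, ∃ c : ℕ, c ≤ n ∧ nn a b σ v = (c : ℂ) • v} := by
  refine Submodule.span_mono (fun v hv σ => ?_) (occ_span h u)
  choose c hc hv using hv
  refine ⟨∑ i : Fin n, c (σ, i), ?_, ?_⟩
  · calc ∑ i : Fin n, c (σ, i) ≤ ∑ i : Fin n, 1 := Finset.sum_le_sum fun i _ => hc (σ, i)
      _ = n := by rw [Finset.sum_const, Finset.card_univ, Fintype.card_fin, smul_eq_mul, mul_one]
  · rw [nn_apply, Nat.cast_sum, Finset.sum_smul]
    exact Finset.sum_congr rfl fun i _ => hv (σ, i)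

theorem nn_diag (h : Car a b) (σ : Fin k) : Diag n (nn a b σ) := by
  intro u
  refine Submodule.span_mono ?_ (nn_span h u)
  exact fun v hv => hv σ

theorem nn_comm (h : Car a b) (σ τ : Fin k) : nn a b σ * nn a b τ = nn a b τ * nn a b σ := by
  have h1 := rho_bracket h (pj k n σ) (pj k n τ)
  rw [pj_comm σ (isBD_pj τ), sub_self, map_zero, rho_pj, rho_pj] at h1
  exact (sub_eq_zero.1 h1.symm)

theorem Car.swap {J : Type} [DecidableEq J] {a b : J → Module.End ℂ U} (h : Car a b) :
    Car b a where
  aa := h.bb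
  bb := h.aa
  ab p q := by
    rw [add_comm, h.ab]
    by_cases hpq : p = q
    · rw [if_pos hpq, if_pos hpq.symm]
    · rw [if_neg hpq, if_neg (Ne.symm hpq)]

theorem nn_swap (h : Car a b) (σ : Fin k) : nn b a σ = (n : ℂ) • 1 - nn a b σ := by
  have h1 : nn b a σ + nn a b σ = (n : ℂ) • 1 := by
    unfold nn
    rw [← Finset.sum_add_distrib]
    have h2 : ∀ i : Fin n, b (σ, i) * a (σ, i) + a (σ, i) * b (σ, i) = 1 := fun i => by
      rw [h.swap.ab, if_pos rfl]
    rw [Finset.sum_congr rfl fun i _ => h2 i, Finset.sum_const, Finset.card_univ,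
      Fintype.card_fin, Nat.cast_smul_eq_nsmul]
  rw [← h1]
  abel

/-- `R` is a derivation with matrix `M` -/
structure Der (a b : Fin k × Fin n → Module.End ℂ U) (R : Module.End ℂ U)
    (M : Matrix (Fin k × Fin n) (Fin k × Fin n) ℂ) : Prop where
  ra : ∀ r, R * a r = a r * R + ∑ p, M p r • a p
  rb : ∀ r, b r * R = R * b r + ∑ q, M r q • b q

theorem der_rho (h : Car a b) (M : Matrix (Fin k × Fin n) (Fin k × Fin n) ℂ) :
    Der a b (rho a b M) M where
  ra r := by
    refine LinearMap.ext fun u => ?_
    rw [Module.End.mul_apply, rho_a h, LinearMap.add_apply, Module.End.mul_apply,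
      LinearMap.sum_apply]
    rfl
  rb r := by
    refine LinearMap.ext fun u => ?_
    rw [Module.End.mul_apply, LinearMap.add_apply, Module.End.mul_apply, rho_b h,
      LinearMap.sum_apply]
    simp only [LinearMap.smul_apply]
    abel

theorem Der.swap {R : Module.End ℂ U} {M : Matrix (Fin k × Fin n) (Fin k × Fin n) ℂ}
    (h : Der a b R M) : Der b a R (-M.transpose) where
  ra r := by
    rw [h.rb r]
    simp only [Matrix.neg_apply, Matrix.transpose_apply, neg_smul, Finset.sum_neg_distrib]
    abel
  rb r := by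
    rw [h.ra r]
    simp only [Matrix.neg_apply, Matrix.transpose_apply, neg_smul, Finset.sum_neg_distrib]
    abel

/-- the shift operator of a colour -/
noncomputable def UU (a b : Fin k × Fin n → Module.End ℂ U) (σ : Fin k) :
    Module.End ℂ (Module.End ℂ U) :=
  ∑ i : Fin n, LinearMap.mulLeft ℂ (a (σ, i)) ∘ₗ LinearMap.mulRight ℂ (b (σ, i))

theorem UU_apply (σ : Fin k) (X : Module.End ℂ U) :
    UU a b σ X = ∑ i : Fin n, a (σ, i) * (X * b (σ, i)) := by
  unfold UU
  rw [LinearMap.sum_apply]
  rfl

theorem UU_lmul {R : Module.End ℂ U} {M : Matrix (Fin k × Fin n) (Fin k × Fin n) ℂ}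
    (h : Der a b R M) (hM : IsBD M) (σ : Fin k) (X : Module.End ℂ U) :
    R * UU a b σ X = UU a b σ (R * X) +
      ∑ i : Fin n, ∑ j : Fin n, M (σ, j) (σ, i) • (a (σ, j) * (X * b (σ, i))) := by
  rw [UU_apply, UU_apply, Finset.mul_sum, ← Finset.sum_add_distrib]
  refine Finset.sum_congr rfl fun i _ => ?_
  rw [← mul_assoc, h.ra, add_mul, Finset.sum_mul, Fintype.sum_prod_type, Finset.sum_eq_single σ]
  · congr 1
  · intro τ _ hτ
    refine Finset.sum_eq_zero fun j _ => ?_
    rw [hM _ _ hτ, zero_smul, zero_mul]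
  · intro h; exact absurd (Finset.mem_univ _) h

theorem UU_rmul {R : Module.End ℂ U} {M : Matrix (Fin k × Fin n) (Fin k × Fin n) ℂ}
    (h : Der a b R M) (hM : IsBD M) (σ : Fin k) (X : Module.End ℂ U) :
    UU a b σ X * R = UU a b σ (X * R) +
      ∑ i : Fin n, ∑ j : Fin n, M (σ, j) (σ, i) • (a (σ, j) * (X * b (σ, i))) := by
  rw [Finset.sum_comm, UU_apply, UU_apply, Finset.sum_mul, ← Finset.sum_add_distrib]
  refine Finset.sum_congr rfl fun i _ => ?_
  rw [mul_assoc, mul_assoc, h.rb, mul_add, mul_add, Finset.mul_sum, Finset.mul_sum,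
    Fintype.sum_prod_type, Finset.sum_eq_single σ]
  · congr 1
    exact Finset.sum_congr rfl fun j _ => by rw [mul_smul_comm, mul_smul_comm]
  · intro τ _ hτ
    refine Finset.sum_eq_zero fun j _ => ?_
    rw [hM _ _ (Ne.symm hτ), zero_smul, mul_zero, mul_zero]
  · intro h; exact absurd (Finset.mem_univ _) h

theorem UU_comm {R : Module.End ℂ U} {M : Matrix (Fin k × Fin n) (Fin k × Fin n) ℂ}
    (h : Der a b R M) (hM : IsBD M) (σ : Fin k) (X : Module.End ℂ U) :
    R * UU a b σ X - UU a b σ X * R = UU a b σ (R * X - X * R) := by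
  rw [UU_lmul h hM, UU_rmul h hM, map_sub]
  abel

theorem sum_pj (σ τ : Fin k) (f : Fin k × Fin n → Fin k × Fin n → Module.End ℂ U) :
    ∑ i : Fin n, ∑ j : Fin n, pj k n τ (σ, j) (σ, i) • f (σ, j) (σ, i) =
      if σ = τ then ∑ i : Fin n, f (σ, i) (σ, i) else 0 := by
  by_cases h : σ = τ
  · rw [if_pos h]
    refine Finset.sum_congr rfl fun i _ => ?_
    rw [Finset.sum_eq_single i]
    · unfold pj
      rw [Matrix.diagonal_apply_eq, if_pos h, one_smul]
    · intro j _ hj
      unfold pj
      rw [Matrix.diagonal_apply_ne _ (fun h => hj (congrArg Prod.snd h)), zero_smul]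
    · intro h; exact absurd (Finset.mem_univ _) h
  · rw [if_neg h]
    refine Finset.sum_eq_zero fun i _ => Finset.sum_eq_zero fun j _ => ?_
    by_cases hij : j = i
    · subst hij
      unfold pj
      rw [Matrix.diagonal_apply_eq, if_neg h, zero_smul]
    · unfold pj
      rw [Matrix.diagonal_apply_ne _ (fun h => hij (congrArg Prod.snd h)), zero_smul]

theorem UU_nn_left (h : Car a b) (σ τ : Fin k) (X : Module.End ℂ U) :
    nn a b τ * UU a b σ X = UU a b σ (nn a b τ * X) + if σ = τ then UU a b σ X else 0 := by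
  have h1 := UU_lmul (der_rho h (pj k n τ)) (isBD_pj τ) σ X
  rw [rho_pj, sum_pj σ τ fun p q => a p * (X * b q)] at h1
  rw [h1, UU_apply σ X]

theorem UU_nn_right (h : Car a b) (σ τ : Fin k) (X : Module.End ℂ U) :
    UU a b σ X * nn a b τ = UU a b σ (X * nn a b τ) + if σ = τ then UU a b σ X else 0 := by
  have h1 := UU_rmul (der_rho h (pj k n τ)) (isBD_pj τ) σ X
  rw [rho_pj, sum_pj σ τ fun p q => a p * (X * b q)] at h1
  rw [h1, UU_apply σ X]

theorem UU_UU (h : Car a b) (σ : Fin k) (X : Module.End ℂ U) :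
    UU a b σ (UU b a σ X) - UU b a σ (UU a b σ X) =
      nn a b σ * X + X * nn a b σ - (n : ℂ) • X := by
  have e1 : ∀ i j : Fin n, a (σ, i) * (b (σ, j) * (X * a (σ, j)) * b (σ, i)) =
      (if i = j then X - X * (b (σ, i) * a (σ, i)) - b (σ, i) * a (σ, i) * X else 0) +
        b (σ, j) * (a (σ, i) * (X * b (σ, i)) * a (σ, j)) := by
    intro i j
    have h1 : a (σ, i) * b (σ, j) = (if i = j then 1 else 0) - b (σ, j) * a (σ, i) := by
      have h2 := h.ab (σ, i) (σ, j)
      by_cases hij : i = j
      · rw [if_pos (by rw [hij])] at h2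
        rw [if_pos hij, ← h2]; abel
      · rw [if_neg (fun h => hij (congrArg Prod.snd h))] at h2
        rw [if_neg hij, ← h2]; abel
    have h2 : a (σ, j) * b (σ, i) = (if i = j then 1 else 0) - b (σ, i) * a (σ, j) := by
      have h2 := h.ab (σ, j) (σ, i)
      by_cases hij : i = j
      · rw [if_pos (by rw [hij])] at h2
        rw [if_pos hij, ← h2]; abel
      · rw [if_neg (fun h => hij (congrArg Prod.snd h).symm)] at h2
        rw [if_neg hij, ← h2]; abel
    have h3 : a (σ, i) * (b (σ, j) * (X * a (σ, j)) * b (σ, i)) =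
        (a (σ, i) * b (σ, j)) * X * (a (σ, j) * b (σ, i)) := by
      simp only [mul_assoc]
    rw [h3, h1, h2]
    by_cases hij : i = j
    · subst hij
      rw [if_pos rfl, if_pos rfl]
      simp only [sub_mul, mul_sub, one_mul, mul_one, mul_assoc]
      abel
    · rw [if_neg hij, if_neg hij]
      simp only [zero_sub, neg_mul, mul_neg, neg_neg, zero_add, mul_assoc]
  rw [UU_apply σ (UU b a σ X), UU_apply σ (UU a b σ X)]
  have e2 : ∀ i, a (σ, i) * (UU b a σ X * b (σ, i)) = ∑ j : Fin n,
      a (σ, i) * (b (σ, j) * (X * a (σ, j)) * b (σ, i)) := fun i => by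
    rw [UU_apply, Finset.sum_mul, Finset.mul_sum]
  have e3 : ∀ j, b (σ, j) * (UU a b σ X * a (σ, j)) = ∑ i : Fin n,
      b (σ, j) * (a (σ, i) * (X * b (σ, i)) * a (σ, j)) := fun j => by
    rw [UU_apply, Finset.sum_mul, Finset.mul_sum]
  rw [Finset.sum_congr rfl fun i _ => e2 i, Finset.sum_congr rfl fun j _ => e3 j,
    Finset.sum_comm (f := fun j i => b (σ, j) * (a (σ, i) * (X * b (σ, i)) * a (σ, j))),
    ← Finset.sum_sub_distrib]
  have e4 : ∀ i : Fin n, (∑ j : Fin n, a (σ, i) * (b (σ, j) * (X * a (σ, j)) * b (σ, i))) -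
      ∑ j : Fin n, b (σ, j) * (a (σ, i) * (X * b (σ, i)) * a (σ, j)) =
        X - X * (b (σ, i) * a (σ, i)) - b (σ, i) * a (σ, i) * X := by
    intro i
    rw [Finset.sum_congr rfl fun j _ => e1 i j, Finset.sum_add_distrib, add_sub_cancel_right,
      Finset.sum_ite_eq, if_pos (Finset.mem_univ _)]
  rw [Finset.sum_congr rfl fun i _ => e4 i, Finset.sum_sub_distrib, Finset.sum_sub_distrib,
    ← Finset.mul_sum, ← Finset.sum_mul, Finset.sum_const, Finset.card_univ, Fintype.card_fin]
  have e5 : ∑ i : Fin n, b (σ, i) * a (σ, i) = (n : ℂ) • 1 - nn a b σ := nn_swap h σ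
  rw [e5, mul_sub, sub_mul, mul_smul_comm, smul_mul_assoc, mul_one, one_mul,
    Nat.cast_smul_eq_nsmul]
  abel

attribute [local instance 100] LieRing.ofAssociativeRing

/-- **The shift is injective below the middle.** -/
theorem UU_inj [FiniteDimensional ℂ U] (h : Car a b) {σ : Fin k} {X : Module.End ℂ U} {c : ℕ}
    (hc : 2 * c < n) (hl : nn a b σ * X = (c : ℂ) • X) (hr : X * nn a b σ = (c : ℂ) • X)
    (h0 : UU a b σ X = 0) : X = 0 := by
  by_contra hX
  let hh : Module.End ℂ (Module.End ℂ U) :=
    LinearMap.mulLeft ℂ (nn a b σ) + LinearMap.mulRight ℂ (nn a b σ) - (n : ℂ) • 1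
  have hhh : ∀ Y, hh Y = nn a b σ * Y + Y * nn a b σ - (n : ℂ) • Y := fun Y => rfl
  have hm : hh X = ((2 * c : ℂ) - n) • X := by
    rw [hhh, hl, hr]
    module
  have hne : ((2 * c : ℂ) - n) ≠ 0 := by
    intro h1
    have h2 : ((2 * c : ℕ) : ℂ) = (n : ℂ) := by
      push_cast
      exact sub_eq_zero.1 h1
    have h3 : 2 * c = n := by exact_mod_cast h2
    omega
  have t : IsSl2Triple hh (UU a b σ) (UU b a σ) :=
    { h_ne_zero := by
        intro h1
        rw [h1, LinearMap.zero_apply] at hm
        exact (smul_ne_zero hne hX) hm.symm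
      lie_e_f := by
        rw [LieRing.of_associative_ring_bracket]
        refine LinearMap.ext fun Y => ?_
        rw [LinearMap.sub_apply, Module.End.mul_apply, Module.End.mul_apply, UU_UU h, hhh]
      lie_h_e_nsmul := by
        rw [LieRing.of_associative_ring_bracket]
        refine LinearMap.ext fun Y => ?_
        rw [LinearMap.sub_apply, Module.End.mul_apply, Module.End.mul_apply, hhh, hhh,
          UU_nn_left h, UU_nn_right h, if_pos rfl, map_sub, map_add, map_smul]
        change _ = (2 : ℕ) • UU a b σ Y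
        rw [two_smul]
        abel
      lie_h_f_nsmul := by
        rw [LieRing.of_associative_ring_bracket]
        refine LinearMap.ext fun Y => ?_
        have h1 := UU_nn_left h.swap σ σ Y
        have h2 := UU_nn_right h.swap σ σ Y
        rw [if_pos rfl, nn_swap h] at h1 h2
        simp only [sub_mul, mul_sub, smul_mul_assoc, mul_smul_comm, one_mul, mul_one, map_sub,
          map_smul] at h1 h2
        have h3 : nn a b σ * UU b a σ Y = UU b a σ (nn a b σ * Y) - UU b a σ Y := by
          have h4 : nn a b σ * UU b a σ Y =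
              (n : ℂ) • UU b a σ Y - ((n : ℂ) • UU b a σ Y - nn a b σ * UU b a σ Y) := by abel
          rw [h4, h1]; abel
        have h5 : UU b a σ Y * nn a b σ = UU b a σ (Y * nn a b σ) - UU b a σ Y := by
          have h4 : UU b a σ Y * nn a b σ =
              (n : ℂ) • UU b a σ Y - ((n : ℂ) • UU b a σ Y - UU b a σ Y * nn a b σ) := by abel
          rw [h4, h2]; abel
        rw [LinearMap.sub_apply, Module.End.mul_apply, Module.End.mul_apply, hhh, hhh,
          h3, h5, map_sub, map_add, map_smul]
        change _ = -((2 : ℕ) • UU b a σ Y)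
        rw [two_smul]
        abel }
  have P : t.HasPrimitiveVectorWith X ((2 * c : ℂ) - n) :=
    { ne_zero := hX
      lie_h := hm
      lie_e := h0 }
  obtain ⟨m, hm'⟩ := P.exists_nat
  have h2 : ((2 * c : ℕ) : ℂ) = ((n + m : ℕ) : ℂ) := by
    push_cast
    rw [← hm']; ring
  have h3 : 2 * c = n + m := by exact_mod_cast h2
  omega

end Pool.Agent.R918
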