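import Pool.Agent.R918.Mid1

set_option autoImplicit false
set_option linter.unusedSectionVars false
set_option linter.unusedVariables false

/-!
# Commutants: from the middle part to the whole Fock space
-/

open Module

namespace Pool.Agent.R918

variable {k n : ℕ} {U : Type} [AddCommGroup U] [Module ℂ U]
  {a b : Fin k × Fin n → Module.End ℂ U}

/-- operators commuting with `𝓡` and the particle numbers, concentrated in the middle for the
colours outside `F` -/
structure TT (a b : Fin k × Fin n → Module.End ℂ U) (𝓡 : Set (Module.End ℂ U))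
    (F : Finset (Fin k)) (X : Module.End ℂ U) : Prop where
  cR : ∀ R ∈ 𝓡, R * X = X * R
  cN : ∀ τ, nn a b τ * X = X * nn a b τ
  mid : ∀ τ, τ ∉ F → (2 : ℂ) • (nn a b τ * X) = (n : ℂ) • X

theorem TT.swap (h : Car a b) {𝓡 : Set (Module.End ℂ U)} {F : Finset (Fin k)}
    {X : Module.End ℂ U} (ht : TT a b 𝓡 F X) : TT b a 𝓡 F X where
  cR := ht.cR
  cN τ := by
    rw [nn_swap h, sub_mul, mul_sub, ht.cN, smul_mul_assoc, mul_smul_comm, one_mul, mul_one]
  mid τ hτ := by
    rw [nn_swap h, sub_mul, smul_mul_assoc, one_mul, smul_sub, ht.mid τ hτ]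
    module

theorem TT.shift (h : Car a b) {𝓡 : Set (Module.End ℂ U)} {F : Finset (Fin k)}
    {X : Module.End ℂ U} (hR : ∀ R ∈ 𝓡, ∃ M, IsBD M ∧ Der a b R M) (ht : TT a b 𝓡 F X)
    {σ : Fin k} (hσ : σ ∈ F) : TT a b 𝓡 F (UU a b σ X) where
  cR R hR' := by
    obtain ⟨M, hM, hd⟩ := hR R hR'
    have h1 := UU_comm hd hM σ X
    rw [ht.cR R hR', sub_self, map_zero] at h1
    exact sub_eq_zero.1 h1
  cN τ := by rw [UU_nn_left h, UU_nn_right h, ht.cN]
  mid τ hτ := by
    have hne : σ ≠ τ := fun he => hτ (he ▸ hσ)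
    rw [UU_nn_left h, if_neg hne, add_zero, ← map_smul, ht.mid τ hτ, map_smul]

theorem low [FiniteDimensional ℂ U] (h : Car a b) {𝓡 : Set (Module.End ℂ U)}
    {F : Finset (Fin k)} {G : Module.End ℂ U}
    (hR : ∀ R ∈ 𝓡, ∃ M, IsBD M ∧ Der a b R M) (hG : ∃ M, IsBD M ∧ Der a b G M)
    (hGN : ∀ τ, nn a b τ * G = G * nn a b τ) {σ : Fin k} (hσ : σ ∈ F) {c : ℕ} (hc : 2 * c < n)
    (H : ∀ X, TT a b 𝓡 F X → nn a b σ * X = ((c + 1 : ℕ) : ℂ) • X → G * X = X * G)
    {X : Module.End ℂ U} (hX : TT a b 𝓡 F X) (hXc : nn a b σ * X = (c : ℂ) • X) :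
    G * X = X * G := by
  have h1 := H _ (hX.shift h hR hσ) (by
    rw [UU_nn_left h, if_pos rfl, hXc, map_smul]
    push_cast
    module)
  obtain ⟨M, hM, hd⟩ := hG
  have h2 := UU_comm hd hM σ X
  rw [h1, sub_self] at h2
  have e1 : nn a b σ * (G * X) = (c : ℂ) • (G * X) := by
    rw [← mul_assoc, hGN, mul_assoc, hXc, mul_smul_comm]
  have e2 : nn a b σ * (X * G) = (c : ℂ) • (X * G) := by
    rw [← mul_assoc, hXc, smul_mul_assoc]
  have e3 : (G * X) * nn a b σ = (c : ℂ) • (G * X) := by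
    rw [mul_assoc, ← hX.cN, hXc, mul_smul_comm]
  have e4 : (X * G) * nn a b σ = (c : ℂ) • (X * G) := by
    rw [mul_assoc, ← hGN, ← mul_assoc, ← hX.cN, hXc, smul_mul_assoc]
  have h3 : G * X - X * G = 0 := UU_inj h hc (by rw [mul_sub, e1, e2, smul_sub])
    (by rw [sub_mul, e3, e4, smul_sub]) h2.symm
  exact sub_eq_zero.1 h3

theorem low_all [FiniteDimensional ℂ U] (h : Car a b) {𝓡 : Set (Module.End ℂ U)}
    {F : Finset (Fin k)} {G : Module.End ℂ U}
    (hR : ∀ R ∈ 𝓡, ∃ M, IsBD M ∧ Der a b R M) (hG : ∃ M, IsBD M ∧ Der a b G M)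
    (hGN : ∀ τ, nn a b τ * G = G * nn a b τ) {σ : Fin k} (hσ : σ ∈ F) {m : ℕ} (hm : 2 * m = n)
    (H : ∀ X, TT a b 𝓡 F X → nn a b σ * X = (m : ℂ) • X → G * X = X * G) :
    ∀ (j c : ℕ), c + j = m → ∀ X, TT a b 𝓡 F X → nn a b σ * X = (c : ℂ) • X →
      G * X = X * G := by
  intro j
  induction j with
  | zero =>
    intro c hc
    rw [add_zero] at hc
    rw [hc]
    exact H
  | succ j ih =>
    intro c hc X hX hXc
    exact low h hR hG hGN hσ (c := c) (by omega) (ih (c + 1) (by omega)) hX hXc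

theorem lpr_mul_left {σ : Fin k} (h : Car a b) {c : ℕ} (hc : c ≤ n) :
    nn a b σ * lpr n (nn a b σ) c = (c : ℂ) • lpr n (nn a b σ) c :=
  LinearMap.ext fun u => lpr_left (nn_diag h σ) hc u

theorem TT.lpr (h : Car a b) {𝓡 : Set (Module.End ℂ U)} {F : Finset (Fin k)}
    {X : Module.End ℂ U} (hRN : ∀ R ∈ 𝓡, ∀ τ, nn a b τ * R = R * nn a b τ)
    (ht : TT a b 𝓡 F X) (σ : Fin k) (c : ℕ) : TT a b 𝓡 F (X * lpr n (nn a b σ) c) where
  cR R hR' := by
    rw [← mul_assoc, ht.cR R hR', mul_assoc, lpr_comm (hRN R hR' σ).symm, mul_assoc]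
  cN τ := by
    rw [← mul_assoc, ht.cN, mul_assoc, lpr_comm (nn_comm h τ σ), mul_assoc]
  mid τ hτ := by
    rw [← mul_assoc, ← smul_mul_assoc, ht.mid τ hτ, smul_mul_assoc]

theorem comm_all [FiniteDimensional ℂ U] (h : Car a b) {𝓡 : Set (Module.End ℂ U)}
    {G : Module.End ℂ U}
    (hR : ∀ R ∈ 𝓡, ∃ M, IsBD M ∧ Der a b R M) (hG : ∃ M, IsBD M ∧ Der a b G M)
    (hRN : ∀ R ∈ 𝓡, ∀ τ, nn a b τ * R = R * nn a b τ)
    (hGN : ∀ τ, nn a b τ * G = G * nn a b τ) {m : ℕ} (hm : 2 * m = n)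
    (base : ∀ X, TT a b 𝓡 ∅ X → G * X = X * G) (F : Finset (Fin k)) :
    ∀ X, TT a b 𝓡 F X → G * X = X * G := by
  induction F using Finset.induction_on with
  | empty => exact base
  | insert σ F hσ ih =>
    have hmem : σ ∈ insert σ F := Finset.mem_insert_self σ F
    have H0 : ∀ X, TT a b 𝓡 (insert σ F) X → nn a b σ * X = (m : ℂ) • X → G * X = X * G := by
      intro X hX hXm
      refine ih X ⟨hX.cR, hX.cN, fun τ hτ => ?_⟩
      by_cases hτσ : τ = σ
      · rw [hτσ, hXm, ← hm, smul_smul]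
        push_cast
        rfl
      · refine hX.mid τ fun h1 => ?_
        rcases Finset.mem_insert.1 h1 with h1 | h1
        · exact hτσ h1
        · exact hτ h1
    have Hlow := low_all h hR hG hGN hmem hm H0
    have hR' : ∀ R ∈ 𝓡, ∃ M, IsBD M ∧ Der b a R M := by
      intro R hR'
      obtain ⟨M, hM, hd⟩ := hR R hR'
      exact ⟨_, fun p q hpq => by
        rw [Matrix.neg_apply, Matrix.transpose_apply, hM q p (Ne.symm hpq), neg_zero], hd.swap⟩
    have hG' : ∃ M, IsBD M ∧ Der b a G M := by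
      obtain ⟨M, hM, hd⟩ := hG
      exact ⟨_, fun p q hpq => by
        rw [Matrix.neg_apply, Matrix.transpose_apply, hM q p (Ne.symm hpq), neg_zero], hd.swap⟩
    have hGN' : ∀ τ, nn b a τ * G = G * nn b a τ := by
      intro τ
      rw [nn_swap h, sub_mul, mul_sub, hGN, smul_mul_assoc, mul_smul_comm, one_mul, mul_one]
    have H0' : ∀ X, TT b a 𝓡 (insert σ F) X → nn b a σ * X = (m : ℂ) • X → G * X = X * G := by
      intro X hX hXm
      refine H0 X (hX.swap h.swap) ?_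
      rw [nn_swap h.swap, sub_mul, hXm, smul_mul_assoc, one_mul, ← hm]
      push_cast
      module
    have Hup := low_all h.swap hR' hG' hGN' hmem hm H0'
    intro X hX
    have h1 : X = ∑ c ∈ Finset.range (n + 1), X * lpr n (nn a b σ) c := by
      rw [← Finset.mul_sum, lpr_sum, mul_one]
    rw [h1, Finset.mul_sum, Finset.sum_mul]
    refine Finset.sum_congr rfl fun c hc => ?_
    have hc' : c ≤ n := by
      have := Finset.mem_range.1 hc
      omega
    have hT := hX.lpr h hRN σ c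
    have hT' : nn a b σ * (X * lpr n (nn a b σ) c) = (c : ℂ) • (X * lpr n (nn a b σ) c) := by
      rw [← mul_assoc, hX.cN, mul_assoc, lpr_mul_left h hc', mul_smul_comm]
    rcases le_total c m with hcm | hcm
    · exact Hlow (m - c) c (by omega) _ hT hT'
    · refine Hup (c - m) (n - c) (by omega) _ (hT.swap h) ?_
      rw [nn_swap h, sub_mul, hT', smul_mul_assoc, one_mul, Nat.cast_sub hc']
      module

theorem nn_rho_comm (h : Car a b) {M : Matrix (Fin k × Fin n) (Fin k × Fin n) ℂ} (hM : IsBD M)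
    (τ : Fin k) : nn a b τ * rho a b M = rho a b M * nn a b τ := by
  have h1 := rho_bracket h (pj k n τ) M
  rw [pj_comm τ hM, sub_self, map_zero, rho_pj] at h1
  exact (sub_eq_zero.1 h1.symm)

/-- **Commutants.** If the operators in the middle part commuting with `L` commute with
`ρ(E)`, then all the operators commuting with `L` and the particle numbers do. -/
theorem comm_L [FiniteDimensional ℂ U] (h : Car a b)
    {L : Submodule ℂ (Matrix (Fin k × Fin n) (Fin k × Fin n) ℂ)} (hbd : ∀ M ∈ L, IsBD M)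
    {m : ℕ} (hm : 2 * m = n) {E : Matrix (Fin k × Fin n) (Fin k × Fin n) ℂ} (hE : IsBD E)
    (base : ∀ X : Module.End ℂ U, (∀ M ∈ L, rho a b M * X = X * rho a b M) →
      (∀ τ, nn a b τ * X = X * nn a b τ) → (∀ τ, (2 : ℂ) • (nn a b τ * X) = (n : ℂ) • X) →
      rho a b E * X = X * rho a b E)
    (X : Module.End ℂ U) (hX : ∀ M ∈ L, rho a b M * X = X * rho a b M)
    (hXn : ∀ τ, nn a b τ * X = X * nn a b τ) : rho a b E * X = X * rho a b E := by
  refine comm_all h (𝓡 := {R | ∃ M ∈ L, R = rho a b M}) ?_ ⟨E, hE, der_rho h E⟩ ?_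
    (nn_rho_comm h hE) hm ?_ Finset.univ X ⟨?_, hXn, fun τ hτ => absurd (Finset.mem_univ τ) hτ⟩
  · rintro _ ⟨M, hM, rfl⟩
    exact ⟨M, hbd M hM, der_rho h M⟩
  · rintro _ ⟨M, hM, rfl⟩ τ
    exact nn_rho_comm h (hbd M hM) τ
  · intro Y hY
    exact base Y (fun M hM => hY.cR _ ⟨M, hM, rfl⟩) hY.cN fun τ =>
      hY.mid τ (Finset.notMem_empty τ)
  · rintro _ ⟨M, hM, rfl⟩
    exact hX M hM

end Pool.Agent.R918
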