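import Pool.Agent.R918.Mid2

set_option autoImplicit false
set_option linter.unusedSectionVars false
set_option linter.unusedVariables false

/-!
# The middle part: commutants, and the radical
-/

open Module

namespace Pool.Agent.R918

variable {k n : ℕ} {U : Type} [AddCommGroup U] [Module ℂ U]
  {a b : Fin k × Fin n → Module.End ℂ U}

theorem btr_sum (σ : Fin k) (M : Matrix (Fin k × Fin n) (Fin k × Fin n) ℂ) :
    btr σ M = ∑ i : Fin n, M (σ, i) (σ, i) := by
  rw [btr_eq]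
  unfold pj Matrix.trace
  rw [Fintype.sum_prod_type, Finset.sum_eq_single σ]
  · refine Finset.sum_congr rfl fun i _ => ?_
    rw [Matrix.diag_apply, Matrix.diagonal_mul, if_pos rfl, one_mul]
  · intro τ _ hτ
    refine Finset.sum_eq_zero fun i _ => ?_
    rw [Matrix.diag_apply, Matrix.diagonal_mul, if_neg hτ, zero_mul]
  · intro h; exact absurd (Finset.mem_univ _) h

theorem isBD_single (σ : Fin k) (i j : Fin n) (c : ℂ) :
    IsBD (Matrix.single ((σ, i) : Fin k × Fin n) ((σ, j) : Fin k × Fin n) c) := by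
  intro p q hpq
  rw [Matrix.single_apply, if_neg]
  rintro ⟨h1, h2⟩
  exact hpq (by rw [← h1, ← h2])

theorem rho_stable {W : Submodule ℂ U} (hst : ∀ σ i j, ∀ w ∈ W, a (σ, i) (b (σ, j) w) ∈ W)
    {E : Matrix (Fin k × Fin n) (Fin k × Fin n) ℂ} (hE : IsBD E) {w : U} (hw : w ∈ W) :
    rho a b E w ∈ W := by
  rw [rho_apply]
  refine W.sum_mem fun p _ => W.sum_mem fun q _ => ?_
  by_cases hpq : p.1 = q.1
  · refine W.smul_mem _ ?_
    have h1 := hst p.1 p.2 q.2 w hw
    have e1 : ((p.1, p.2) : Fin k × Fin n) = p := rfl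
    have e2 : ((p.1, q.2) : Fin k × Fin n) = q := Prod.ext hpq rfl
    rw [e1, e2] at h1
    exact h1
  · rw [hE p q hpq, zero_smul]
    exact W.zero_mem

section scalar

variable {W : Submodule ℂ U}

theorem kill_br (h : Car a b) (hst : ∀ σ i j, ∀ w ∈ W, a (σ, i) (b (σ, j) w) ∈ W)
    {E M : Matrix (Fin k × Fin n) (Fin k × Fin n) ℂ} (hE : IsBD E)
    {c : ℂ} (hc : ∀ w ∈ W, rho a b M w = c • w) :
    ∀ w ∈ W, rho a b (E * M - M * E) w = 0 := by
  intro w hw
  rw [rho_bracket h, LinearMap.sub_apply, Module.End.mul_apply, Module.End.mul_apply, hc w hw,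
    hc _ (rho_stable hst hE hw), map_smul, sub_self]

theorem kill_br0 (h : Car a b) (hst : ∀ σ i j, ∀ w ∈ W, a (σ, i) (b (σ, j) w) ∈ W)
    {E M : Matrix (Fin k × Fin n) (Fin k × Fin n) ℂ} (hE : IsBD E)
    (hc : ∀ w ∈ W, rho a b M w = 0) :
    ∀ w ∈ W, rho a b (E * M - M * E) w = 0 :=
  kill_br h hst hE (c := 0) fun w hw => by rw [hc w hw, zero_smul]

theorem occ_eq (h : Car a b) (hst : ∀ σ i j, ∀ w ∈ W, a (σ, i) (b (σ, j) w) ∈ W)
    {σ : Fin k} {i j : Fin n}
    (h0 : ∀ w ∈ W, rho a b (Matrix.single ((σ, i) : Fin k × Fin n) (σ, j) 1) w = 0) :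
    ∀ w ∈ W, a (σ, j) (b (σ, j) w) = a (σ, i) (b (σ, i) w) := by
  intro w hw
  have h1 := kill_br0 h hst (isBD_single σ j i 1) h0 w hw
  rw [single_br', map_sub, LinearMap.sub_apply, rho_single, rho_single, one_smul, one_smul] at h1
  exact sub_eq_zero.1 h1

theorem no_single (h : Car a b) (hst : ∀ σ i j, ∀ w ∈ W, a (σ, i) (b (σ, j) w) ∈ W)
    (hW0 : W ≠ ⊥) (hmid : ∀ w ∈ W, ∀ τ, (2 : ℂ) • nn a b τ w = (n : ℂ) • w)
    {σ : Fin k} {i j : Fin n} (hij : i ≠ j)
    (h0 : ∀ w ∈ W, rho a b (Matrix.single ((σ, i) : Fin k × Fin n) (σ, j) 1) w = 0) : False := by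
  have hn : (n : ℂ) ≠ 0 := by
    have := i.2
    have h1 : n ≠ 0 := by omega
    exact_mod_cast h1
  have hall : ∀ l : Fin n, ∀ w ∈ W, a (σ, j) (b (σ, j) w) = a (σ, l) (b (σ, l) w) := by
    intro l w hw
    by_cases hlj : l = j
    · rw [hlj]
    · by_cases hli : l = i
      · rw [hli]
        exact occ_eq h hst h0 w hw
      · refine occ_eq h hst ?_ w hw
        intro w hw
        have h1 := kill_br0 h hst (isBD_single σ l i 1) h0 w hw
        have hne : ((σ, l) : Fin k × Fin n) ≠ (σ, j) := fun h => hlj (congrArg Prod.snd h)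
        rw [single_br hne] at h1
        exact h1
  obtain ⟨w, hw, hw0⟩ := (Submodule.ne_bot_iff W).1 hW0
  have h1 : nn a b σ w = (n : ℂ) • a (σ, j) (b (σ, j) w) := by
    rw [nn_apply, Finset.sum_congr rfl fun l _ => (hall l w hw).symm, Finset.sum_const,
      Finset.card_univ, Fintype.card_fin, Nat.cast_smul_eq_nsmul]
  have h2 := hmid w hw σ
  rw [h1, smul_comm] at h2
  have h3 : (2 : ℂ) • a (σ, j) (b (σ, j) w) = w := smul_right_injective _ hn h2
  have h4 := congrArg (fun u => a (σ, j) (b (σ, j) u)) h3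
  simp only [map_smul, occ_idem h] at h4
  have h5 : a (σ, j) (b (σ, j) w) = 0 := by
    have h6 : (2 : ℂ) • a (σ, j) (b (σ, j) w) - a (σ, j) (b (σ, j) w) = 0 := by
      rw [h4, sub_self]
    have h7 : (2 : ℂ) • a (σ, j) (b (σ, j) w) - a (σ, j) (b (σ, j) w) =
        a (σ, j) (b (σ, j) w) := by module
    rw [← h7, h6]
  rw [h5, smul_zero] at h3
  exact hw0 h3.symm

/-- **Only the scalars act as scalars.** -/
theorem eq_zero_of_scalar (h : Car a b) (hst : ∀ σ i j, ∀ w ∈ W, a (σ, i) (b (σ, j) w) ∈ W)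
    (hW0 : W ≠ ⊥) (hmid : ∀ w ∈ W, ∀ τ, (2 : ℂ) • nn a b τ w = (n : ℂ) • w)
    {M : Matrix (Fin k × Fin n) (Fin k × Fin n) ℂ} (hM : IsBD M) (htr : ∀ σ, btr σ M = 0)
    {c : ℂ} (hc : ∀ w ∈ W, rho a b M w = c • w) : M = 0 := by
  have hoff : ∀ (σ : Fin k) (i j : Fin n), i ≠ j → M (σ, i) (σ, j) = 0 := by
    intro σ i j hij
    by_contra hne
    set E : Matrix (Fin k × Fin n) (Fin k × Fin n) ℂ := Matrix.single (σ, j) (σ, i) 1 with hE
    have hpq : ((σ, i) : Fin k × Fin n) ≠ (σ, j) := fun h => hij (congrArg Prod.snd h)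
    have hEE : E * E = 0 := by
      rw [hE, Matrix.single_mul_single_of_ne _ _ _ _ hpq]
    have h1 := kill_br h hst (isBD_single σ j i 1) hc
    have h2 := kill_br0 h hst (isBD_single σ j i 1) h1
    rw [← hE] at h2
    have h3 : E * (E * M - M * E) - (E * M - M * E) * E = (-2 * M (σ, i) (σ, j)) • E := by
      have h4 : E * M * E = M (σ, i) (σ, j) • E := by
        rw [hE, Matrix.single_mul_mul_single, one_mul, mul_one, Matrix.smul_single, smul_eq_mul,
          mul_one]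
      have h5 : E * (E * M - M * E) - (E * M - M * E) * E =
          E * E * M - (E * M * E + E * M * E) + M * (E * E) := by
        simp only [mul_sub, sub_mul, mul_assoc]; abel
      rw [h5, hEE, zero_mul, mul_zero, h4]
      module
    rw [h3] at h2
    refine no_single h hst hW0 hmid (σ := σ) (i := j) (j := i) (Ne.symm hij) fun w hw => ?_
    have h4 := h2 w hw
    rw [map_smul, LinearMap.smul_apply] at h4
    exact (smul_eq_zero.1 h4).resolve_left (mul_ne_zero (by norm_num) hne)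
  have hdg : M = Matrix.diagonal fun p => M p p := by
    ext p q
    by_cases hpq : p = q
    · rw [hpq, Matrix.diagonal_apply_eq]
    · rw [Matrix.diagonal_apply_ne _ hpq]
      by_cases h1 : p.1 = q.1
      · have h2 := hoff p.1 p.2 q.2 fun h2 => hpq (Prod.ext h1 h2)
        have e1 : ((p.1, p.2) : Fin k × Fin n) = p := rfl
        have e2 : ((p.1, q.2) : Fin k × Fin n) = q := Prod.ext h1 rfl
        rw [e1, e2] at h2
        exact h2
      · exact hM p q h1
  have heq : ∀ (σ : Fin k) (i j : Fin n), M (σ, i) (σ, i) = M (σ, j) (σ, j) := by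
    intro σ i j
    by_cases hij : i = j
    · rw [hij]
    · by_contra hne
      have h1 := kill_br h hst (isBD_single σ i j 1) hc
      have h2 : Matrix.single ((σ, i) : Fin k × Fin n) (σ, j) (1 : ℂ) * M -
          M * Matrix.single ((σ, i) : Fin k × Fin n) (σ, j) 1 =
          (M (σ, j) (σ, j) - M (σ, i) (σ, i)) • Matrix.single ((σ, i) : Fin k × Fin n) (σ, j) 1 := by
        rw [hdg]
        ext p q
        rw [Matrix.sub_apply, Matrix.mul_diagonal, Matrix.diagonal_mul, Matrix.smul_apply,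
          smul_eq_mul, Matrix.diagonal_apply_eq, Matrix.diagonal_apply_eq]
        by_cases hp : (σ, i) = p ∧ (σ, j) = q
        · obtain ⟨rfl, rfl⟩ := hp
          ring
        · rw [Matrix.single_apply, if_neg hp]
          ring
      refine no_single h hst hW0 hmid hij (σ := σ) fun w hw => ?_
      have h3 := h1 w hw
      rw [h2, map_smul, LinearMap.smul_apply] at h3
      exact (smul_eq_zero.1 h3).resolve_left fun h4 => hne (sub_eq_zero.1 h4).symm
  rw [hdg]
  ext p q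
  by_cases hpq : p = q
  · subst hpq
    rw [Matrix.diagonal_apply_eq, Matrix.zero_apply]
    have h1 := htr p.1
    rw [btr_sum, Finset.sum_congr rfl fun i _ => heq p.1 i p.2, Finset.sum_const,
      Finset.card_univ, Fintype.card_fin, nsmul_eq_mul] at h1
    have hn : (n : ℂ) ≠ 0 := by
      have := p.2.2
      have h1 : n ≠ 0 := by omega
      exact_mod_cast h1
    exact (mul_eq_zero.1 h1).resolve_left hn
  · rw [Matrix.diagonal_apply_ne _ hpq, Matrix.zero_apply]

end scalar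

variable {H : Type} [AddCommGroup H] [Module ℂ H]

/-- `H` is the middle part of `U` -/
structure MidSet (a b : Fin k × Fin n → Module.End ℂ U) (P : U →ₗ[ℂ] H) (Q : H →ₗ[ℂ] U) :
    Prop where
  pq : ∀ x, P (Q x) = x
  mid : ∀ x τ, (2 : ℂ) • nn a b τ (Q x) = (n : ℂ) • Q x
  qp : ∀ u, (∀ τ, (2 : ℂ) • nn a b τ u = (n : ℂ) • u) → Q (P u) = u

/-- the operator on `H` given by an operator on `U` -/
noncomputable def cmp (P : U →ₗ[ℂ] H) (Q : H →ₗ[ℂ] U) : Module.End ℂ U →ₗ[ℂ] Module.End ℂ H where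
  toFun X := P ∘ₗ X ∘ₗ Q
  map_add' X Y := by
    refine LinearMap.ext fun u => ?_
    rw [LinearMap.add_apply, LinearMap.comp_apply, LinearMap.comp_apply, LinearMap.add_apply,
      map_add]
    rfl
  map_smul' c X := by
    refine LinearMap.ext fun u => ?_
    rw [LinearMap.comp_apply, LinearMap.comp_apply, LinearMap.smul_apply, map_smul]
    rfl

variable {P : U →ₗ[ℂ] H} {Q : H →ₗ[ℂ] U}

theorem cmp_apply (X : Module.End ℂ U) (x : H) : cmp P Q X x = P (X (Q x)) := rfl

theorem MidSet.qpx (hs : MidSet a b P Q) {X : Module.End ℂ U}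
    (hX : ∀ τ, nn a b τ * X = X * nn a b τ) (x : H) : Q (P (X (Q x))) = X (Q x) := by
  refine hs.qp _ fun τ => ?_
  have h1 := LinearMap.congr_fun (hX τ) (Q x)
  rw [Module.End.mul_apply, Module.End.mul_apply] at h1
  rw [h1, ← map_smul, hs.mid, map_smul]

theorem MidSet.cmp_mul (hs : MidSet a b P Q) (X : Module.End ℂ U) {Y : Module.End ℂ U}
    (hY : ∀ τ, nn a b τ * Y = Y * nn a b τ) : cmp P Q (X * Y) = cmp P Q X * cmp P Q Y := by
  refine LinearMap.ext fun x => ?_
  rw [Module.End.mul_apply, cmp_apply, cmp_apply, cmp_apply, hs.qpx hY, Module.End.mul_apply]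

/-- the situation: a Lie algebra of operators on the middle part -/
structure MidHyp (a b : Fin k × Fin n → Module.End ℂ U) (P : U →ₗ[ℂ] H) (Q : H →ₗ[ℂ] U)
    (𝔥 : Submodule ℂ (Module.End ℂ H)) : Prop where
  car : Car a b
  ms : MidSet a b P Q
  hle : ∀ x ∈ 𝔥, ∃ M, IsBD M ∧ (∀ σ, btr σ M = 0) ∧ x = cmp P Q (rho a b M)
  hbr : ∀ x ∈ 𝔥, ∀ y ∈ 𝔥, x * y - y * x ∈ 𝔥
  gen : ∀ σ i j, cmp P Q (a (σ, i) * b (σ, j)) ∈ Algebra.adjoin ℂ (𝔥 : Set (Module.End ℂ H))

/-- the matrices acting as elements of `𝔥` -/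
noncomputable def LM (a b : Fin k × Fin n → Module.End ℂ U) (P : U →ₗ[ℂ] H) (Q : H →ₗ[ℂ] U)
    (𝔥 : Submodule ℂ (Module.End ℂ H)) :
    Submodule ℂ (Matrix (Fin k × Fin n) (Fin k × Fin n) ℂ) where
  carrier := {M | IsBD M ∧ (∀ σ, btr σ M = 0) ∧ cmp P Q (rho a b M) ∈ 𝔥}
  zero_mem' := ⟨IsBD.zero, fun σ => map_zero _, by rw [map_zero, map_zero]; exact 𝔥.zero_mem⟩
  add_mem' h h' := ⟨h.1.add h'.1, fun σ => by rw [map_add, h.2.1, h'.2.1, add_zero],
    by rw [map_add, map_add]; exact 𝔥.add_mem h.2.2 h'.2.2⟩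
  smul_mem' c _ h := ⟨h.1.smul c, fun σ => by rw [map_smul, h.2.1, smul_zero],
    by rw [map_smul, map_smul]; exact 𝔥.smul_mem c h.2.2⟩

variable {𝔥 : Submodule ℂ (Module.End ℂ H)}

namespace MidHyp

variable (h : MidHyp a b P Q 𝔥)
include h

theorem cmp_br {M N : Matrix (Fin k × Fin n) (Fin k × Fin n) ℂ} (hM : IsBD M) (hN : IsBD N) :
    cmp P Q (rho a b (M * N - N * M)) = cmp P Q (rho a b M) * cmp P Q (rho a b N) -
      cmp P Q (rho a b N) * cmp P Q (rho a b M) := by
  rw [rho_bracket h.car, map_sub, h.ms.cmp_mul _ (nn_rho_comm h.car hN),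
    h.ms.cmp_mul _ (nn_rho_comm h.car hM)]

theorem br : ∀ x ∈ LM a b P Q 𝔥, ∀ y ∈ LM a b P Q 𝔥, x * y - y * x ∈ LM a b P Q 𝔥 := by
  intro x hx y hy
  refine ⟨(hx.1.mul hy.1).sub (hy.1.mul hx.1), fun σ => btr_bracket σ hx.1 hy.1, ?_⟩
  rw [h.cmp_br hx.1 hy.1]
  exact h.hbr _ hx.2.2 _ hy.2.2

theorem cmp_rho_mem {E : Matrix (Fin k × Fin n) (Fin k × Fin n) ℂ} (hE : IsBD E) :
    cmp P Q (rho a b E) ∈ Algebra.adjoin ℂ (𝔥 : Set (Module.End ℂ H)) := by
  have h1 : rho a b E = ∑ p, ∑ q, E p q • (a p * b q) := rfl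
  rw [h1, map_sum]
  refine Subalgebra.sum_mem _ fun p _ => ?_
  rw [map_sum]
  refine Subalgebra.sum_mem _ fun q _ => ?_
  rw [map_smul]
  by_cases hpq : p.1 = q.1
  · refine Subalgebra.smul_mem _ ?_ _
    have h1 := h.gen p.1 p.2 q.2
    have e1 : ((p.1, p.2) : Fin k × Fin n) = p := rfl
    have e2 : ((p.1, q.2) : Fin k × Fin n) = q := Prod.ext hpq rfl
    rw [e1, e2] at h1
    exact h1
  · rw [hE p q hpq, zero_smul]
    exact Subalgebra.zero_mem _

theorem base {E : Matrix (Fin k × Fin n) (Fin k × Fin n) ℂ} (hE : IsBD E) (X : Module.End ℂ U)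
    (hX : ∀ M ∈ LM a b P Q 𝔥, rho a b M * X = X * rho a b M)
    (hXn : ∀ τ, nn a b τ * X = X * nn a b τ)
    (hXm : ∀ τ, (2 : ℂ) • (nn a b τ * X) = (n : ℂ) • X) : rho a b E * X = X * rho a b E := by
  have hrE := nn_rho_comm h.car hE
  have h1 : ∀ z ∈ Algebra.adjoin ℂ (𝔥 : Set (Module.End ℂ H)),
      z * cmp P Q X = cmp P Q X * z := by
    intro z hz
    induction hz using Algebra.adjoin_induction with
    | mem z hz =>
      obtain ⟨M, hM, htr, rfl⟩ := h.hle z hz
      rw [← h.ms.cmp_mul _ hXn, ← h.ms.cmp_mul _ (nn_rho_comm h.car hM), hX M ⟨hM, htr, hz⟩]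
    | algebraMap r => rw [Algebra.commutes]
    | add x y _ _ hx hy => rw [add_mul, mul_add, hx, hy]
    | mul x y _ _ hx hy => rw [mul_assoc, hy, ← mul_assoc, hx, mul_assoc]
  have h2 := h1 _ (h.cmp_rho_mem hE)
  rw [← h.ms.cmp_mul _ hXn, ← h.ms.cmp_mul _ hrE, ← sub_eq_zero, ← map_sub] at h2
  set Y := rho a b E * X - X * rho a b E with hY
  have hYn : ∀ τ, nn a b τ * Y = Y * nn a b τ := by
    intro τ
    rw [hY, mul_sub, sub_mul, ← mul_assoc, hrE, mul_assoc, hXn, ← mul_assoc, ← mul_assoc, hXn,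
      mul_assoc X, hrE, ← mul_assoc]
  have hYm : ∀ τ, (2 : ℂ) • (nn a b τ * Y) = (n : ℂ) • Y := by
    intro τ
    rw [hY, mul_sub, smul_sub, smul_sub]
    congr 1
    · rw [← mul_assoc, hrE, mul_assoc, ← mul_smul_comm, hXm, mul_smul_comm]
    · rw [← mul_assoc, ← smul_mul_assoc, hXm, smul_mul_assoc]
  have hY0 : ∀ u, Y u = 0 := by
    intro u
    induction nn_span h.car u using Submodule.span_induction with
    | mem v hv =>
      by_cases hall : ∀ τ, (2 : ℂ) • nn a b τ v = (n : ℂ) • v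
      · have h3 := h.ms.qp v hall
        have h4 := LinearMap.congr_fun h2 (P v)
        rw [cmp_apply, LinearMap.zero_apply, h3] at h4
        have h5 := h.ms.qpx hYn (P v)
        rw [h3, h4, map_zero] at h5
        exact h5.symm
      · push Not at hall
        obtain ⟨τ, hτ⟩ := hall
        obtain ⟨c, -, hc⟩ := hv τ
        have h3 := LinearMap.congr_fun (hYm τ) v
        rw [hYn, LinearMap.smul_apply, Module.End.mul_apply, hc, map_smul,
          LinearMap.smul_apply] at h3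
        by_contra hne
        have h4 : ((2 : ℂ) * c - n) • Y v = 0 := by
          rw [sub_smul, mul_smul, h3, sub_self]
        have h5 := (smul_eq_zero.1 h4).resolve_right hne
        apply hτ
        rw [hc, smul_smul, sub_eq_zero.1 h5]
    | zero => exact map_zero _
    | add v w _ _ hv hw => rw [map_add, hv, hw, add_zero]
    | smul r v _ hv => rw [map_smul, hv, smul_zero]
  exact sub_eq_zero.1 (LinearMap.ext hY0)

end MidHyp

end Pool.Agent.R918
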