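import Mathlib

set_option autoImplicit false
set_option linter.unusedSectionVars false

/-!
# Weyl's theorem on complete reducibility

`L` is a finite dimensional Lie algebra over a field of characteristic zero with nondegenerate Killing
form, `M` a finite dimensional module. Every submodule is the image of an equivariant projection.
-/

open Module LieAlgebra LieModule

attribute [local instance 100] LieRing.ofAssociativeRing

noncomputable section

namespace Pool.Agent.R918.Weyl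

variable {K L : Type*} [Field K] [CharZero K] [LieRing L] [LieAlgebra K L] [FiniteDimensional K L]
  [IsKilling K L]

section casimir

variable {M : Type*} [AddCommGroup M] [Module K M] [LieRingModule L M] [LieModule K L M]
  [FiniteDimensional K M]

theorem toEnd_ad_pow (x y : L) (n : ℕ) :
    toEnd K L M (((ad K L x) ^ n) y) = ((ad K (Module.End K M) (toEnd K L M x)) ^ n)
      (toEnd K L M y) := by
  induction n with
  | zero => rfl
  | succ n ih =>
    rw [pow_succ', pow_succ', Module.End.mul_apply, Module.End.mul_apply, ← ih, ad_apply, ad_apply,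
      LieHom.map_lie]

/-- ideals in a complement of the kernel acting nilpotently vanish -/
theorem nil_bot (J : LieIdeal K L) (hJ : IsCompl (LieModule.ker K L M) J) (I : LieIdeal K L)
    (hI : I ≤ J) (hn : ∀ x ∈ I, IsNilpotent (toEnd K L M x)) : I = ⊥ := by
  have h1 : ∀ x ∈ I, IsNilpotent (ad K L x) := by
    intro x hx
    obtain ⟨n, h2⟩ := LieAlgebra.ad_nilpotent_of_nilpotent (R := K) (hn x hx)
    refine ⟨n + 1, LinearMap.ext fun y => ?_⟩
    have h3 : ((ad K L x) ^ (n + 1)) y ∈ I := by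
      rw [pow_succ', Module.End.mul_apply, ad_apply]
      exact lie_mem_left K L I x _ hx
    have h4 : ((ad K L x) ^ (n + 1)) y ∈ LieModule.ker K L M := by
      rw [LieModule.mem_ker]
      intro m
      have h5 := toEnd_ad_pow (K := K) (M := M) x y (n + 1)
      have h6 : (ad K (Module.End K M) (toEnd K L M x)) ^ (n + 1) = 0 := by
        rw [pow_succ', h2, mul_zero]
      rw [h6, LinearMap.zero_apply] at h5
      exact LinearMap.congr_fun h5 m
    have h6 := hJ.disjoint.le_bot ((LieSubmodule.mem_inf _ _ _).2 ⟨h4, hI h3⟩)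
    exact (LieSubmodule.mem_bot _).1 h6
  have h2 : LieRing.IsNilpotent I := by
    rw [LieAlgebra.isNilpotent_iff_forall (R := K)]
    intro x
    obtain ⟨n, hn⟩ := h1 x x.2
    refine ⟨n, LinearMap.ext fun y => Subtype.ext ?_⟩
    have h3 : ∀ n : ℕ, ((((ad K I x) ^ n) y : I) : L) = ((ad K L (x : L)) ^ n) (y : L) := by
      intro n
      induction n with
      | zero => rfl
      | succ n ih =>
        rw [pow_succ', pow_succ', Module.End.mul_apply, Module.End.mul_apply, ← ih, ad_apply,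
          ad_apply]
        rfl
    rw [h3, hn]
    rfl
  exact HasTrivialRadical.eq_bot_of_isSolvable I

/-- the trace form is nondegenerate on a complement of the kernel -/
theorem trace_nondeg (J : LieIdeal K L) (hJ : IsCompl (LieModule.ker K L M) J) {x : L}
    (hx : x ∈ J) (h : ∀ y ∈ J, traceForm K L M x y = 0) : x = 0 := by
  have hker : ∀ x, ∀ y ∈ LieModule.ker K L M, traceForm K L M x y = 0 := by
    intro x y hy
    have h1 : toEnd K L M y = 0 := LinearMap.ext fun m => (LieModule.mem_ker K L M y).1 hy m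
    rw [traceForm_apply_apply, h1, LinearMap.comp_zero, map_zero]
  have hall : ∀ x, (∀ y ∈ J, traceForm K L M x y = 0) → ∀ y, traceForm K L M x y = 0 := by
    intro x h y
    have h1 : y ∈ LieModule.ker K L M ⊔ J := by
      rw [hJ.sup_eq_top]
      exact LieSubmodule.mem_top _
    obtain ⟨y0, h0, y1, h2, rfl⟩ := (LieSubmodule.mem_sup _ _ _).1 h1
    rw [map_add, hker x y0 h0, h y1 h2, add_zero]
  let R : LieIdeal K L :=
    { carrier := {x | x ∈ J ∧ ∀ y, traceForm K L M x y = 0}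
      zero_mem' := ⟨J.zero_mem, fun y => by rw [map_zero, LinearMap.zero_apply]⟩
      add_mem' := fun {a b} ha hb => ⟨J.add_mem ha.1 hb.1, fun y => by
        rw [map_add, LinearMap.add_apply, ha.2, hb.2, add_zero]⟩
      smul_mem' := fun c a ha => ⟨J.smul_mem c ha.1, fun y => by
        rw [map_smul, LinearMap.smul_apply, ha.2, smul_zero]⟩
      lie_mem := fun {z a} ha => ⟨J.lie_mem ha.1, fun y => by
        rw [← lie_skew, map_neg, LinearMap.neg_apply, traceForm_apply_lie_apply, ha.2, neg_zero]⟩ }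
  have hR : ∀ x, x ∈ R ↔ x ∈ J ∧ ∀ y, traceForm K L M x y = 0 := fun x => Iff.rfl
  have htr : traceForm K R M = 0 := by
    refine LinearMap.ext fun a => LinearMap.ext fun b => ?_
    exact ((hR a).1 a.2).2 b
  have hnil := isNilpotent_derivedSeries_of_traceForm_eq_zero (R := K) (L := R) (M := M) htr
  have hD : ∀ z ∈ (⁅R, R⁆ : LieIdeal K L), IsNilpotent (toEnd K L M z) := by
    intro z hz
    have hzR : z ∈ R := LieSubmodule.lie_le_left R R hz
    have h1 : (⟨z, hzR⟩ : R) ∈ derivedSeries K R 1 := by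
      rw [LieIdeal.derivedSeries_eq_derivedSeriesOfIdeal_comap, LieIdeal.mem_comap]
      exact hz
    have h2 := LieModule.isNilpotent_toEnd_of_isNilpotent K (derivedSeries K R 1) M ⟨⟨z, hzR⟩, h1⟩
    exact h2
  have h1 : (⁅R, R⁆ : LieIdeal K L) = ⊥ :=
    nil_bot J hJ _ ((LieSubmodule.lie_le_left R R).trans fun y hy => ((hR y).1 hy).1) hD
  have h2 : IsLieAbelian R := (LieSubmodule.lie_abelian_iff_lie_self_eq_bot R).2 h1
  have h3 : R = ⊥ := HasTrivialRadical.eq_bot_of_isSolvable R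
  have h4 : x ∈ R := (hR x).2 ⟨hx, hall x h⟩
  rw [h3] at h4
  exact (LieSubmodule.mem_bot _).1 h4

/-- **The Casimir operator.** -/
theorem exists_casimir (hM : ∃ (x : L) (m : M), ⁅x, m⁆ ≠ 0) : ∃ C : Module.End K M,
    LinearMap.trace K M C ≠ 0 ∧ (∀ (x : L) (m : M), C ⁅x, m⁆ = ⁅x, C m⁆) ∧
      ∀ m, C m ∈ Submodule.span K {v | ∃ (x y : L), v = ⁅x, ⁅y, m⁆⁆} := by
  classical
  obtain ⟨J, hJ⟩ := exists_isCompl (LieModule.ker K L M)
  have hne : J ≠ ⊥ := by
    rintro rfl
    obtain ⟨x, m, h⟩ := hM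
    have h1 : LieModule.ker K L M = ⊤ := by
      rw [← hJ.sup_eq_top, sup_bot_eq]
    have h2 : x ∈ LieModule.ker K L M := by
      rw [h1]
      exact LieSubmodule.mem_top _
    exact h ((LieModule.mem_ker K L M x).1 h2 m)
  let B : LinearMap.BilinForm K J := (traceForm K L M).restrict (J : Submodule K L)
  have hB : ∀ x y : J, B x y = traceForm K L M x y := fun x y => rfl
  have hsymm : B.IsSymm := ⟨fun x y => by rw [hB, hB, traceForm_comm]⟩
  have hnd : B.Nondegenerate := by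
    refine hsymm.isRefl.nondegenerate_iff_separatingLeft.2 fun x hx => ?_
    exact Subtype.ext (trace_nondeg J hJ x.2 fun y hy => hx ⟨y, hy⟩)
  let b := Module.finBasis K J
  let b' := B.dualBasis hnd b
  have e1 : ∀ v : J, v = ∑ j, B v (b' j) • b j := by
    intro v
    have h1 := b.sum_repr v
    conv_lhs => rw [← h1]
    refine Finset.sum_congr rfl fun j _ => ?_
    congr 1
    have h2 : B v (b' j) = ∑ i, b.repr v i * B (b i) (b' j) := by
      conv_lhs => rw [← h1]
      rw [map_sum, LinearMap.sum_apply]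
      exact Finset.sum_congr rfl fun i _ => by rw [map_smul, LinearMap.smul_apply, smul_eq_mul]
    rw [h2, Finset.sum_eq_single j]
    · rw [LinearMap.BilinForm.apply_dualBasis_right hnd hsymm, if_pos rfl, mul_one]
    · intro i _ hi
      rw [LinearMap.BilinForm.apply_dualBasis_right hnd hsymm, if_neg hi, mul_zero]
    · intro h
      exact absurd (Finset.mem_univ _) h
  have e2 : ∀ v : J, v = ∑ j, B v (b j) • b' j := by
    intro v
    have h1 := b'.sum_repr v
    conv_lhs => rw [← h1]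
    refine Finset.sum_congr rfl fun j _ => ?_
    congr 1
    exact LinearMap.BilinForm.dualBasis_repr_apply hnd b v j
  let C : Module.End K M := ∑ i, toEnd K L M (b i) * toEnd K L M (b' i)
  have hC : ∀ m, C m = ∑ i, ⁅(b i : L), ⁅(b' i : L), m⁆⁆ := by
    intro m
    change (∑ i, toEnd K L M (b i) * toEnd K L M (b' i)) m = _
    rw [LinearMap.sum_apply]
    rfl
  refine ⟨C, ?_, ?_, ?_⟩
  · have h1 : LinearMap.trace K M C = ∑ i, B (b i) (b' i) := by
      change LinearMap.trace K M (∑ i, toEnd K L M (b i) * toEnd K L M (b' i)) = _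
      rw [map_sum]
      rfl
    have h2 : ∀ i, B (b i) (b' i) = 1 := fun i => by
      rw [LinearMap.BilinForm.apply_dualBasis_right hnd hsymm, if_pos rfl]
    rw [h1, Finset.sum_congr rfl fun i _ => h2 i, Finset.sum_const, Finset.card_univ,
      Fintype.card_fin, nsmul_eq_mul, mul_one]
    intro h3
    have h4 : finrank K J = 0 := by exact_mod_cast h3
    have h5 : Subsingleton J := Module.finrank_zero_iff.1 h4
    refine hne ((LieSubmodule.eq_bot_iff _).2 fun x hx => ?_)
    exact congrArg Subtype.val (Subsingleton.elim (⟨x, hx⟩ : J) 0)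
  · intro x m
    rw [hC, hC, lie_sum]
    -- the brackets of the bases
    let u : Fin (finrank K J) → J := fun i => ⟨⁅x, (b i : L)⁆, J.lie_mem (b i).2⟩
    let u' : Fin (finrank K J) → J := fun i => ⟨⁅x, (b' i : L)⁆, J.lie_mem (b' i).2⟩
    have h1 : ∀ i, ⁅x, ⁅(b i : L), ⁅(b' i : L), m⁆⁆⁆ = ⁅(u i : L), ⁅(b' i : L), m⁆⁆ +
        ⁅(b i : L), ⁅(u' i : L), m⁆⁆ + ⁅(b i : L), ⁅(b' i : L), ⁅x, m⁆⁆⁆ := by
      intro i
      rw [leibniz_lie x (b i : L), leibniz_lie x (b' i : L), lie_add]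
      change ⁅(u i : L), ⁅(b' i : L), m⁆⁆ + (⁅(b i : L), ⁅(u' i : L), m⁆⁆ + _) = _
      rw [add_assoc]
    rw [Finset.sum_congr rfl fun i _ => h1 i, Finset.sum_add_distrib, Finset.sum_add_distrib]
    have h2 : ∑ i, ⁅(u i : L), ⁅(b' i : L), m⁆⁆ =
        ∑ i, ∑ j, B (u i) (b' j) • ⁅(b j : L), ⁅(b' i : L), m⁆⁆ := by
      refine Finset.sum_congr rfl fun i _ => ?_
      conv_lhs => rw [e1 (u i)]
      rw [AddSubmonoidClass.coe_finsetSum, sum_lie]
      refine Finset.sum_congr rfl fun j _ => ?_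
      rw [LieSubmodule.coe_smul, smul_lie]
    have h3 : ∑ i, ⁅(b i : L), ⁅(u' i : L), m⁆⁆ =
        ∑ i, ∑ j, B (u' i) (b j) • ⁅(b i : L), ⁅(b' j : L), m⁆⁆ := by
      refine Finset.sum_congr rfl fun i _ => ?_
      conv_lhs => rw [e2 (u' i)]
      rw [AddSubmonoidClass.coe_finsetSum, sum_lie, lie_sum]
      refine Finset.sum_congr rfl fun j _ => ?_
      rw [LieSubmodule.coe_smul, smul_lie, lie_smul]
    have h4 : ∀ i j, B (u i) (b' j) + B (u' j) (b i) = 0 := by
      intro i j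
      have h5 := traceForm_apply_lie_apply K L M (b i : L) x (b' j : L)
      rw [hB, hB]
      change traceForm K L M ⁅x, (b i : L)⁆ (b' j : L) + traceForm K L M ⁅x, (b' j : L)⁆ (b i : L) = 0
      rw [← lie_skew, map_neg, LinearMap.neg_apply, h5, traceForm_comm K L M ⁅x, (b' j : L)⁆,
        neg_add_cancel]
    have h6 : (∑ i, ⁅(u i : L), ⁅(b' i : L), m⁆⁆) + ∑ i, ⁅(b i : L), ⁅(u' i : L), m⁆⁆ = 0 := by
      rw [h2, h3, Finset.sum_comm, ← Finset.sum_add_distrib]
      refine Finset.sum_eq_zero fun i _ => ?_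
      rw [← Finset.sum_add_distrib]
      refine Finset.sum_eq_zero fun j _ => ?_
      rw [← add_smul, h4 j i, zero_smul]
    rw [h6, zero_add]
  · intro m
    rw [hC]
    exact Submodule.sum_mem _ fun i _ => Submodule.subset_span ⟨_, _, rfl⟩

end casimir

/-! ### Submodules of codimension one -/

section codim

variable {M : Type*} [AddCommGroup M] [Module K M] [LieRingModule L M] [LieModule K L M]
  [FiniteDimensional K M]

theorem step (N : LieSubmodule K L M) (hirr : ∀ P : LieSubmodule K L M, P ≤ N → P = ⊥ ∨ P = N)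
    (hN : ∀ (x : L) (q : M), ⁅x, q⁆ ∈ N) (hne : N ≠ ⊤) :
    ∃ q, q ∉ N ∧ ∀ x : L, ⁅x, q⁆ = 0 := by
  obtain ⟨q0, hq0⟩ : ∃ q, q ∉ N := by
    by_contra h
    push Not at h
    exact hne (eq_top_iff.2 fun q _ => h q)
  by_cases htriv : ∀ (x : L) (n : M), n ∈ N → ⁅x, n⁆ = 0
  · have hbr : ∀ (x y : L) (q : M), ⁅⁅x, y⁆, q⁆ = 0 := fun x y q => by
      rw [lie_lie, htriv x _ (hN y q), htriv y _ (hN x q), sub_zero]
    obtain ⟨J, hJ⟩ := exists_isCompl (LieModule.ker K L M)
    have h1 : (⁅J, J⁆ : LieIdeal K L) = ⊥ := by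
      rw [LieSubmodule.lie_eq_bot_iff]
      intro x hx y hy
      have h2 : ⁅x, y⁆ ∈ LieModule.ker K L M := by
        rw [LieModule.mem_ker]
        exact hbr x y
      have h3 := hJ.disjoint.le_bot ((LieSubmodule.mem_inf _ _ _).2 ⟨h2, J.lie_mem hy⟩)
      exact (LieSubmodule.mem_bot _).1 h3
    have h2 : IsLieAbelian J := (LieSubmodule.lie_abelian_iff_lie_self_eq_bot J).2 h1
    have h3 : J = ⊥ := HasTrivialRadical.eq_bot_of_isSolvable J
    refine ⟨q0, hq0, fun x => ?_⟩
    have h4 : x ∈ LieModule.ker K L M := by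
      have h5 := hJ.sup_eq_top
      rw [h3, sup_bot_eq] at h5
      rw [h5]
      exact LieSubmodule.mem_top _
    exact (LieModule.mem_ker K L M x).1 h4 q0
  push Not at htriv
  obtain ⟨x0, n0, hn0, hx0⟩ := htriv
  obtain ⟨C, hC, hcomm, hspan⟩ := exists_casimir (K := K) (L := L) (M := M) ⟨x0, n0, hx0⟩
  have hCN : ∀ m, C m ∈ N := by
    intro m
    refine (Submodule.span_le (p := (N : Submodule K M))).2 ?_ (hspan m)
    rintro _ ⟨x, y, rfl⟩
    exact hN _ _
  let P : LieSubmodule K L M :=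
    { carrier := {m | m ∈ N ∧ C m = 0}
      zero_mem' := ⟨N.zero_mem, map_zero _⟩
      add_mem' := fun {a b} ha hb => ⟨N.add_mem ha.1 hb.1, by rw [map_add, ha.2, hb.2, add_zero]⟩
      smul_mem' := fun c a ha => ⟨N.smul_mem c ha.1, by rw [map_smul, ha.2, smul_zero]⟩
      lie_mem := fun {x a} ha => ⟨N.lie_mem ha.1, by rw [hcomm, ha.2, lie_zero]⟩ }
  have hP : ∀ m, m ∈ P ↔ m ∈ N ∧ C m = 0 := fun m => Iff.rfl
  rcases hirr P (fun m hm => ((hP m).1 hm).1) with h | h
  · -- the kernel is a complement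
    have hker : LinearMap.ker C ≠ ⊥ := by
      intro hk
      have hinj : Function.Injective C := LinearMap.ker_eq_bot.1 hk
      have hsurj : Function.Surjective C := LinearMap.surjective_of_injective hinj
      obtain ⟨m, hm⟩ := hsurj q0
      exact hq0 (hm ▸ hCN m)
    obtain ⟨q, hq, hq0'⟩ := Submodule.exists_mem_ne_zero_of_ne_bot hker
    have hqN : q ∉ N := by
      intro hqN
      have h1 : q ∈ P := (hP q).2 ⟨hqN, hq⟩
      rw [h] at h1
      exact hq0' ((LieSubmodule.mem_bot _).1 h1)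
    refine ⟨q, hqN, fun x => ?_⟩
    have h1 : ⁅x, q⁆ ∈ P := (hP _).2 ⟨hN x q, by rw [hcomm, LinearMap.mem_ker.1 hq, lie_zero]⟩
    rw [h] at h1
    exact (LieSubmodule.mem_bot _).1 h1
  · exfalso
    have h1 : C * C = 0 := by
      refine LinearMap.ext fun m => ?_
      have h2 : C m ∈ P := by
        rw [h]
        exact hCN m
      exact ((hP _).1 h2).2
    have h2 : IsNilpotent C := ⟨2, by rw [pow_two, h1]⟩
    exact hC (LinearMap.isNilpotent_trace_of_isNilpotent h2).eq_zero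

theorem step_rel (N P : LieSubmodule K L M) (hNP : N < P)
    (hirr : ∀ P' : LieSubmodule K L M, P' ≤ N → P' = ⊥ ∨ P' = N)
    (h : ∀ (x : L), ∀ m ∈ P, ⁅x, m⁆ ∈ N) : ∃ m ∈ P, m ∉ N ∧ ∀ x : L, ⁅x, m⁆ = 0 := by
  have a1 : ∀ P' : LieSubmodule K L P, P' ≤ N.comap P.incl → P' = ⊥ ∨ P' = N.comap P.incl := by
    intro P' hP'
    have h1 : P'.map P.incl ≤ N := by
      rw [LieSubmodule.map_le_iff_le_comap]
      exact hP'
    rcases hirr _ h1 with h2 | h2
    · left
      refine (LieSubmodule.eq_bot_iff _).2 fun m hm => ?_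
      have h3 : P.incl m ∈ P'.map P.incl := LieSubmodule.mem_map_of_mem hm
      rw [h2] at h3
      exact Subtype.ext ((LieSubmodule.mem_bot _).1 h3)
    · right
      refine le_antisymm hP' fun m hm => ?_
      have h3 : P.incl m ∈ P'.map P.incl := by
        rw [h2]
        exact (LieSubmodule.mem_comap).1 hm
      obtain ⟨m', hm', h4⟩ := (LieSubmodule.mem_map _).1 h3
      have h5 : m' = m := Subtype.ext h4
      rwa [← h5]
  have a2 : ∀ (x : L) (q : P), ⁅x, q⁆ ∈ N.comap P.incl := fun x q =>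
    (LieSubmodule.mem_comap).2 (h x q q.2)
  have a3 : N.comap P.incl ≠ ⊤ := by
    intro h1
    refine hNP.not_ge fun m hm => ?_
    have h2 : (⟨m, hm⟩ : P) ∈ N.comap P.incl := by
      rw [h1]
      exact LieSubmodule.mem_top _
    exact (LieSubmodule.mem_comap).1 h2
  obtain ⟨q, hq1, hq2⟩ := step (M := P) (N.comap P.incl) a1 a2 a3
  refine ⟨q, q.2, fun hqN => hq1 ((LieSubmodule.mem_comap).2 hqN), fun x => ?_⟩
  have h1 := congrArg Subtype.val (hq2 x)
  exact h1

theorem descent (N P : LieSubmodule K L M) (hNP : N < P)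
    (h : ∀ (x : L), ∀ m ∈ P, ⁅x, m⁆ ∈ N) : ∃ m ∈ P, m ∉ N ∧ ∀ x : L, ⁅x, m⁆ = 0 := by
  let S : Set (LieSubmodule K L M) := {N0 | N0 ≤ N ∧ ∃ m ∈ P, m ∉ N ∧ ∀ x : L, ⁅x, m⁆ ∈ N0}
  have hS : S.Nonempty := by
    obtain ⟨m, hm, hmN⟩ := SetLike.exists_of_lt hNP
    exact ⟨N, le_rfl, m, hm, hmN, fun x => h x m hm⟩
  obtain ⟨N0, ⟨hN0, m, hm, hmN, hmx⟩, hmin⟩ := WellFounded.has_min
    (LieSubmodule.wellFoundedLT_of_isArtinian K L M).wf S hS
  by_cases h0 : N0 = ⊥
  · refine ⟨m, hm, hmN, fun x => ?_⟩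
    have h1 := hmx x
    rw [h0] at h1
    exact (LieSubmodule.mem_bot _).1 h1
  exfalso
  -- a maximal proper submodule of `N0`
  obtain ⟨N1, hN1, hmax⟩ := WellFounded.has_min
    (LieSubmodule.wellFoundedGT_of_noetherian K L M).wf {N' | N' < N0} ⟨⊥, bot_lt_iff_ne_bot.2 h0⟩
  have hN1' : N1 < N0 := hN1
  let P' : LieSubmodule K L M :=
    { carrier := {y | ∃ c : K, y - c • m ∈ N0}
      zero_mem' := ⟨0, by rw [zero_smul, sub_zero]; exact N0.zero_mem⟩
      add_mem' := by
        rintro a b ⟨c, ha⟩ ⟨d, hb⟩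
        refine ⟨c + d, ?_⟩
        have h1 := N0.add_mem ha hb
        rwa [sub_add_sub_comm, ← add_smul] at h1
      smul_mem' := by
        rintro r a ⟨c, ha⟩
        refine ⟨r * c, ?_⟩
        have h1 := N0.smul_mem r ha
        rwa [smul_sub, smul_smul] at h1
      lie_mem := by
        rintro x a ⟨c, ha⟩
        refine ⟨0, ?_⟩
        rw [zero_smul, sub_zero]
        have h1 : a = (a - c • m) + c • m := by rw [sub_add_cancel]
        rw [h1, lie_add, lie_smul]
        exact N0.add_mem (N0.lie_mem ha) (N0.smul_mem c (hmx x)) }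
  have hP' : ∀ y, y ∈ P' ↔ ∃ c : K, y - c • m ∈ N0 := fun y => Iff.rfl
  have hN0P' : N0 ≤ P' := fun y hy => (hP' y).2 ⟨0, by rw [zero_smul, sub_zero]; exact hy⟩
  have hmP' : m ∈ P' := (hP' m).2 ⟨1, by rw [one_smul, sub_self]; exact N0.zero_mem⟩
  have hLP' : ∀ (x : L), ∀ y ∈ P', ⁅x, y⁆ ∈ N0 := by
    rintro x y ⟨c, hy⟩
    have h1 : y = (y - c • m) + c • m := by rw [sub_add_cancel]
    rw [h1, lie_add, lie_smul]
    exact N0.add_mem (N0.lie_mem hy) (N0.smul_mem c (hmx x))
  let mk := LieSubmodule.Quotient.mk' N1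
  have hmk : ∀ y, mk y = 0 ↔ y ∈ N1 := fun y => LieSubmodule.Quotient.mk_eq_zero'
  have a1 : N0.map mk < P'.map mk := by
    refine lt_of_le_of_ne (LieSubmodule.map_mono hN0P') fun heq => ?_
    have h1 : mk m ∈ N0.map mk := by
      rw [heq]
      exact LieSubmodule.mem_map_of_mem hmP'
    obtain ⟨y, hy, h2⟩ := (LieSubmodule.mem_map _).1 h1
    have h3 : mk (y - m) = 0 := by rw [map_sub, h2, sub_self]
    have h4 : y - m ∈ N0 := hN1'.le ((hmk _).1 h3)
    have h5 := N0.sub_mem hy h4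
    rw [sub_sub_cancel] at h5
    exact hmN (hN0 h5)
  have a2 : ∀ Q : LieSubmodule K L (M ⧸ N1), Q ≤ N0.map mk → Q = ⊥ ∨ Q = N0.map mk := by
    intro Q hQ
    have hle : Q.comap mk ≤ N0 := by
      intro y hy
      obtain ⟨z, hz, h2⟩ := (LieSubmodule.mem_map _).1 (hQ ((LieSubmodule.mem_comap).1 hy))
      have h3 : mk (z - y) = 0 := by rw [map_sub, h2, sub_self]
      have h4 : z - y ∈ N0 := hN1'.le ((hmk _).1 h3)
      have h5 := N0.sub_mem hz h4
      rwa [sub_sub_cancel] at h5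
    have hge : N1 ≤ Q.comap mk := by
      intro y hy
      refine (LieSubmodule.mem_comap).2 ?_
      rw [(hmk y).2 hy]
      exact Q.zero_mem
    have hQeq : (Q.comap mk).map mk = Q := by
      refine le_antisymm (LieSubmodule.map_comap_le _ _) fun z hz => ?_
      obtain ⟨y, rfl⟩ := LieSubmodule.Quotient.surjective_mk' N1 z
      exact LieSubmodule.mem_map_of_mem ((LieSubmodule.mem_comap).2 hz)
    rcases eq_or_lt_of_le hle with h1 | h1
    · right
      rw [← hQeq, h1]
    · left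
      have h2 : Q.comap mk = N1 := by
        by_contra hne
        exact hmax (Q.comap mk) h1 (lt_of_le_of_ne hge (Ne.symm hne))
      rw [← hQeq, h2]
      refine (LieSubmodule.eq_bot_iff _).2 fun z hz => ?_
      obtain ⟨y, hy, rfl⟩ := (LieSubmodule.mem_map _).1 hz
      exact (hmk y).2 hy
  have a3 : ∀ (x : L), ∀ z ∈ P'.map mk, ⁅x, z⁆ ∈ N0.map mk := by
    intro x z hz
    obtain ⟨y, hy, rfl⟩ := (LieSubmodule.mem_map _).1 hz
    rw [← LieModuleHom.map_lie]
    exact LieSubmodule.mem_map_of_mem (hLP' x y hy)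
  obtain ⟨q, hq, hqN, hqx⟩ := step_rel (M := M ⧸ N1) (N0.map mk) (P'.map mk) a1 a2 a3
  obtain ⟨y, hy, rfl⟩ := (LieSubmodule.mem_map _).1 hq
  obtain ⟨c, hc⟩ := (hP' y).1 hy
  have hc0 : c ≠ 0 := by
    rintro rfl
    rw [zero_smul, sub_zero] at hc
    exact hqN (LieSubmodule.mem_map_of_mem hc)
  have hyP : y ∈ P := by
    have h1 := P.add_mem (hNP.le (hN0 hc)) (P.smul_mem c hm)
    rwa [sub_add_cancel] at h1
  have hyN : y ∉ N := by
    intro hyN
    have h1 := N.sub_mem hyN (hN0 hc)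
    rw [sub_sub_cancel] at h1
    have h2 := N.smul_mem c⁻¹ h1
    rw [inv_smul_smul₀ hc0] at h2
    exact hmN h2
  refine hmin N1 ⟨hN1'.le.trans hN0, y, hyP, hyN, fun x => ?_⟩ hN1'
  rw [← hmk, LieModuleHom.map_lie]
  exact hqx x

end codim

/-! ### Projections -/

section proj

variable {M : Type*} [AddCommGroup M] [Module K M] [LieRingModule L M] [LieModule K L M]
  [FiniteDimensional K M]

/-- **Weyl's theorem.** Every submodule is the image of an equivariant projection. -/
theorem exists_projection (N : LieSubmodule K L M) : ∃ f : Module.End K M,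
    (∀ (x : L) (m : M), f ⁅x, m⁆ = ⁅x, f m⁆) ∧ (∀ m, f m ∈ N) ∧ ∀ n ∈ N, f n = n := by
  by_cases hbot : N = ⊥
  · refine ⟨0, fun x m => by rw [LinearMap.zero_apply, LinearMap.zero_apply, lie_zero],
      fun m => N.zero_mem, fun n hn => ?_⟩
    rw [hbot] at hn
    rw [LinearMap.zero_apply, (LieSubmodule.mem_bot _).1 hn]
  let P : LieSubmodule K L (M →ₗ[K] M) :=
    { carrier := {f | (∀ m, f m ∈ N) ∧ ∃ c : K, ∀ n ∈ N, f n = c • n}
      zero_mem' := ⟨fun m => N.zero_mem, 0, fun n _ => by rw [LinearMap.zero_apply, zero_smul]⟩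
      add_mem' := by
        rintro f g ⟨h1, c, h2⟩ ⟨h3, d, h4⟩
        exact ⟨fun m => N.add_mem (h1 m) (h3 m), c + d, fun n hn => by
          rw [LinearMap.add_apply, h2 n hn, h4 n hn, add_smul]⟩
      smul_mem' := by
        rintro r f ⟨h1, c, h2⟩
        exact ⟨fun m => N.smul_mem r (h1 m), r * c, fun n hn => by
          rw [LinearMap.smul_apply, h2 n hn, smul_smul]⟩
      lie_mem := by
        rintro x f ⟨h1, c, h2⟩
        refine ⟨fun m => ?_, 0, fun n hn => ?_⟩
        · rw [LieHom.lie_apply]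
          exact N.sub_mem (N.lie_mem (h1 m)) (h1 _)
        · rw [LieHom.lie_apply, h2 n hn, h2 _ (N.lie_mem hn), lie_smul, sub_self, zero_smul] }
  let N' : LieSubmodule K L (M →ₗ[K] M) :=
    { carrier := {f | (∀ m, f m ∈ N) ∧ ∀ n ∈ N, f n = 0}
      zero_mem' := ⟨fun m => N.zero_mem, fun n _ => LinearMap.zero_apply _⟩
      add_mem' := by
        rintro f g ⟨h1, h2⟩ ⟨h3, h4⟩
        exact ⟨fun m => N.add_mem (h1 m) (h3 m), fun n hn => by
          rw [LinearMap.add_apply, h2 n hn, h4 n hn, add_zero]⟩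
      smul_mem' := by
        rintro r f ⟨h1, h2⟩
        exact ⟨fun m => N.smul_mem r (h1 m), fun n hn => by
          rw [LinearMap.smul_apply, h2 n hn, smul_zero]⟩
      lie_mem := by
        rintro x f ⟨h1, h2⟩
        refine ⟨fun m => ?_, fun n hn => ?_⟩
        · rw [LieHom.lie_apply]
          exact N.sub_mem (N.lie_mem (h1 m)) (h1 _)
        · rw [LieHom.lie_apply, h2 n hn, h2 _ (N.lie_mem hn), lie_zero, sub_self] }
  have hP : ∀ f, f ∈ P ↔ (∀ m, f m ∈ N) ∧ ∃ c : K, ∀ n ∈ N, f n = c • n := fun f => Iff.rfl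
  have hN' : ∀ f, f ∈ N' ↔ (∀ m, f m ∈ N) ∧ ∀ n ∈ N, f n = 0 := fun f => Iff.rfl
  have hlt : N' < P := by
    refine lt_of_le_of_ne (fun f hf => (hP f).2 ⟨((hN' f).1 hf).1, 0, fun n hn => by
      rw [((hN' f).1 hf).2 n hn, zero_smul]⟩) fun heq => ?_
    obtain ⟨g, hg⟩ := (N : Submodule K M).exists_isCompl
    have h1 : (N : Submodule K M).subtype ∘ₗ Submodule.projectionOnto _ _ hg ∈ P := by
      refine (hP _).2 ⟨fun m => (Submodule.projectionOnto _ _ hg m).2, 1, fun n hn => ?_⟩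
      rw [one_smul, LinearMap.comp_apply]
      exact congrArg Subtype.val (Submodule.projectionOnto_apply_left hg ⟨n, hn⟩)
    rw [← heq] at h1
    refine hbot ((LieSubmodule.eq_bot_iff _).2 fun n hn => ?_)
    have h2 := ((hN' _).1 h1).2 n hn
    rw [LinearMap.comp_apply] at h2
    have h3 := congrArg Subtype.val (Submodule.projectionOnto_apply_left hg ⟨n, hn⟩)
    exact h3.symm.trans h2
  have hPN : ∀ (x : L), ∀ f ∈ P, ⁅x, f⁆ ∈ N' := by
    intro x f hf
    obtain ⟨h1, c, h2⟩ := (hP f).1 hf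
    refine (hN' _).2 ⟨fun m => ?_, fun n hn => ?_⟩
    · rw [LieHom.lie_apply]
      exact N.sub_mem (N.lie_mem (h1 m)) (h1 _)
    · rw [LieHom.lie_apply, h2 n hn, h2 _ (N.lie_mem hn), lie_smul, sub_self]
  obtain ⟨f, hf, hfN, hfx⟩ := descent (M := M →ₗ[K] M) N' P hlt hPN
  obtain ⟨h1, c, h2⟩ := (hP f).1 hf
  have hc : c ≠ 0 := by
    rintro rfl
    exact hfN ((hN' f).2 ⟨h1, fun n hn => by rw [h2 n hn, zero_smul]⟩)
  refine ⟨c⁻¹ • f, fun x m => ?_, fun m => N.smul_mem _ (h1 m), fun n hn => ?_⟩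
  · have h3 := LinearMap.congr_fun (hfx x) m
    rw [LieHom.lie_apply, LinearMap.zero_apply, sub_eq_zero] at h3
    rw [LinearMap.smul_apply, LinearMap.smul_apply, ← h3, lie_smul]
  · rw [LinearMap.smul_apply, h2 n hn, inv_smul_smul₀ hc]

end proj

end Pool.Agent.R918.Weyl

end
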