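import Pool.Agent.R918.Mid3
import Pool.Agent.R918.Weyl

set_option autoImplicit false
set_option linter.unusedSectionVars false
set_option linter.unusedVariables false

/-!
# The middle part: semisimplicity, stability and the main theorem
-/

open Module

namespace Pool.Agent.R918

attribute [local instance 100] LieRing.ofAssociativeRing

section act

variable {𝔤 : Type} [LieRing 𝔤] [LieAlgebra ℂ 𝔤] {H : Type} [AddCommGroup H] [Module ℂ H]

/-- the Lie module given by operators -/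
@[reducible] noncomputable def lrm (f : 𝔤 →ₗ[ℂ] Module.End ℂ H)
    (hf : ∀ x y, f ⁅x, y⁆ = f x * f y - f y * f x) : LieRingModule 𝔤 H where
  bracket x m := f x m
  add_lie x y m := by
    rw [map_add, LinearMap.add_apply]
  lie_add x m m' := map_add (f x) m m'
  leibniz_lie x y m := by
    change f x (f y m) = f ⁅x, y⁆ m + f y (f x m)
    rw [hf, LinearMap.sub_apply, Module.End.mul_apply, Module.End.mul_apply, sub_add_cancel]

theorem lrm_module (f : 𝔤 →ₗ[ℂ] Module.End ℂ H)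
    (hf : ∀ x y, f ⁅x, y⁆ = f x * f y - f y * f x) :
    @LieModule ℂ 𝔤 H _ _ _ _ _ (lrm f hf) :=
  letI := lrm f hf
  { smul_lie := fun t x m => by
      change f (t • x) m = t • f x m
      rw [map_smul, LinearMap.smul_apply]
    lie_smul := fun t x m => map_smul (f x) t m }

open LieAlgebra LieModule in
/-- The radical acts by scalars on a nonzero submodule. -/
theorem rad_weight [FiniteDimensional ℂ 𝔤] [FiniteDimensional ℂ H] [Nontrivial H]
    (f : 𝔤 →ₗ[ℂ] Module.End ℂ H) (hf : ∀ x y, f ⁅x, y⁆ = f x * f y - f y * f x) :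
    ∃ W : Submodule ℂ H, W ≠ ⊥ ∧ (∀ x, ∀ w ∈ W, f x w ∈ W) ∧
      ∀ y ∈ radical ℂ 𝔤, ∃ c : ℂ, ∀ w ∈ W, f y w = c • w := by
  letI := lrm f hf
  haveI := lrm_module f hf
  obtain ⟨χ, hχ⟩ := exists_nontrivial_weightSpace_of_isSolvable ℂ (radical ℂ 𝔤) H
  let P' : LieSubmodule ℂ 𝔤 H := weightSpaceOfIsLieTower ℂ H χ
  have hP' : ∀ v : H, v ∈ P' ↔ ∀ y : radical ℂ 𝔤, ⁅y, v⁆ = χ y • v := fun v =>
    mem_weightSpace _ v
  refine ⟨P'.toSubmodule, ?_, fun x w hw => P'.lie_mem hw, fun y hy => ⟨χ ⟨y, hy⟩, fun w hw =>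
    (hP' w).1 hw ⟨y, hy⟩⟩⟩
  obtain ⟨v, hv⟩ := exists_ne (0 : weightSpace H χ)
  intro h0
  have h1 : v.1 ∈ P'.toSubmodule := v.2
  rw [h0, Submodule.mem_bot] at h1
  exact hv (Subtype.ext h1)

open LieAlgebra in
/-- Weyl's theorem in terms of operators. -/
theorem weyl [FiniteDimensional ℂ 𝔤] [IsKilling ℂ 𝔤] [FiniteDimensional ℂ H]
    (f : 𝔤 →ₗ[ℂ] Module.End ℂ H) (hf : ∀ x y, f ⁅x, y⁆ = f x * f y - f y * f x)
    (W : Submodule ℂ H) (hW : ∀ x, ∀ w ∈ W, f x w ∈ W) :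
    ∃ e : Module.End ℂ H, (∀ x, f x * e = e * f x) ∧ (∀ u, e u ∈ W) ∧ ∀ w ∈ W, e w = w := by
  letI := lrm f hf
  haveI := lrm_module f hf
  let W' : LieSubmodule ℂ 𝔤 H :=
    { W with
      lie_mem := fun {x w} hw => hW x w hw }
  obtain ⟨e, h1, h2, h3⟩ := Weyl.exists_projection (K := ℂ) W'
  exact ⟨e, fun x => LinearMap.ext fun m => (h1 x m).symm, h2, h3⟩

end act

variable {k n : ℕ} {U : Type} [AddCommGroup U] [Module ℂ U]
  {a b : Fin k × Fin n → Module.End ℂ U} {H : Type} [AddCommGroup H] [Module ℂ H]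
  {P : U →ₗ[ℂ] H} {Q : H →ₗ[ℂ] U} {𝔥 : Submodule ℂ (Module.End ℂ H)}

/-- the action of the Lie algebra `L` by second quantization -/
noncomputable def lact (a b : Fin k × Fin n → Module.End ℂ U)
    (L : Submodule ℂ (Matrix (Fin k × Fin n) (Fin k × Fin n) ℂ))
    (hbr : ∀ x ∈ L, ∀ y ∈ L, x * y - y * x ∈ L) : LV L hbr →ₗ[ℂ] Module.End ℂ U where
  toFun x := rho a b (LinearMap.toMatrix' x.1)
  map_add' x y := by
    rw [← map_add, ← map_add]; rfl
  map_smul' c x := by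
    rw [RingHom.id_apply, ← map_smul, ← map_smul]; rfl

theorem toMatrix_lie {L : Submodule ℂ (Matrix (Fin k × Fin n) (Fin k × Fin n) ℂ)}
    {hbr : ∀ x ∈ L, ∀ y ∈ L, x * y - y * x ∈ L} (x y : LV L hbr) :
    LinearMap.toMatrix' (⁅x, y⁆ : LV L hbr).1 = LinearMap.toMatrix' x.1 * LinearMap.toMatrix' y.1 -
      LinearMap.toMatrix' y.1 * LinearMap.toMatrix' x.1 := by
  have h1 : (⁅x, y⁆ : LV L hbr).1 = x.1 * y.1 - y.1 * x.1 := rfl
  rw [h1, map_sub, LinearMap.toMatrix'_mul, LinearMap.toMatrix'_mul]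

theorem exists_LV {L : Submodule ℂ (Matrix (Fin k × Fin n) (Fin k × Fin n) ℂ)}
    {hbr : ∀ x ∈ L, ∀ y ∈ L, x * y - y * x ∈ L}
    {M : Matrix (Fin k × Fin n) (Fin k × Fin n) ℂ} (hM : M ∈ L) :
    ∃ x : LV L hbr, LinearMap.toMatrix' x.1 = M := by
  have hx' : Matrix.toLin' M ∈ LV L hbr := by
    rw [mem_LV, LinearMap.toMatrix'_toLin']
    exact hM
  exact ⟨⟨Matrix.toLin' M, hx'⟩, LinearMap.toMatrix'_toLin' M⟩

namespace MidHyp

variable (h : MidHyp a b P Q 𝔥)
include h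

open LieAlgebra in
/-- **The Lie algebra is semisimple.** -/
theorem killing [Nontrivial H] [FiniteDimensional ℂ H] :
    IsKilling ℂ (LV (LM a b P Q 𝔥) h.br) := by
  let f : LV (LM a b P Q 𝔥) h.br →ₗ[ℂ] Module.End ℂ H := cmp P Q ∘ₗ lact a b _ h.br
  have hfx : ∀ x, f x = cmp P Q (rho a b (LinearMap.toMatrix' x.1)) := fun x => rfl
  have hf : ∀ x y, f ⁅x, y⁆ = f x * f y - f y * f x := by
    intro x y
    rw [hfx, hfx, hfx, toMatrix_lie, h.cmp_br x.2.1 y.2.1]
  obtain ⟨W, hW0, hWx, hWy⟩ := rad_weight f hf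
  have hWh : ∀ z ∈ (𝔥 : Set (Module.End ℂ H)), ∀ w ∈ W, z w ∈ W := by
    intro z hz w hw
    obtain ⟨M, hM, htr, rfl⟩ := h.hle z hz
    obtain ⟨x, hx⟩ := exists_LV (hbr := h.br) (show M ∈ LM a b P Q 𝔥 from ⟨hM, htr, hz⟩)
    rw [← hx, ← hfx]
    exact hWx x w hw
  have hWg : ∀ σ i j, ∀ w ∈ W, cmp P Q (a (σ, i) * b (σ, j)) w ∈ W := fun σ i j =>
    Pool.Agent.Y102.SP.kil_adj _ W hWh _ (h.gen σ i j)
  have hmidab : ∀ (σ : Fin k) (i j : Fin n) (τ : Fin k),
      nn a b τ * (a (σ, i) * b (σ, j)) = (a (σ, i) * b (σ, j)) * nn a b τ := by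
    intro σ i j τ
    have h1 := nn_rho_comm h.car (isBD_single σ i j 1) τ
    have h2 : rho a b (Matrix.single ((σ, i) : Fin k × Fin n) (σ, j) 1) = a (σ, i) * b (σ, j) := by
      refine LinearMap.ext fun u => ?_
      rw [rho_single, one_smul, Module.End.mul_apply]
    rw [h2] at h1
    exact h1
  have hst : ∀ σ i j, ∀ w ∈ W.map Q, a (σ, i) (b (σ, j) w) ∈ W.map Q := by
    rintro σ i j _ ⟨w, hw, rfl⟩
    refine ⟨_, hWg σ i j w hw, ?_⟩
    have h1 := h.ms.qpx (hmidab σ i j) w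
    rw [cmp_apply, h1, Module.End.mul_apply]
  have hW0' : W.map Q ≠ ⊥ := by
    obtain ⟨w, hw, hw0⟩ := (Submodule.ne_bot_iff W).1 hW0
    refine (Submodule.ne_bot_iff _).2 ⟨Q w, ⟨w, hw, rfl⟩, fun h1 => hw0 ?_⟩
    rw [← h.ms.pq w, h1, map_zero]
  have hmid : ∀ w ∈ W.map Q, ∀ τ, (2 : ℂ) • nn a b τ w = (n : ℂ) • w := by
    rintro _ ⟨w, hw, rfl⟩ τ
    exact h.ms.mid w τ
  have : HasTrivialRadical ℂ (LV (LM a b P Q 𝔥) h.br) := by
    constructor
    rw [eq_bot_iff]
    intro y hy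
    obtain ⟨c, hc⟩ := hWy y hy
    have h1 : LinearMap.toMatrix' y.1 = 0 := by
      refine eq_zero_of_scalar h.car hst hW0' hmid y.2.1 y.2.2.1 (c := c) ?_
      rintro _ ⟨w, hw, rfl⟩
      have h2 := hc w hw
      rw [hfx, cmp_apply] at h2
      rw [← h.ms.qpx (nn_rho_comm h.car y.2.1) w, h2, map_smul]
    rw [LieSubmodule.mem_bot]
    exact Subtype.ext ((LinearEquiv.map_eq_zero_iff LinearMap.toMatrix').1 h1)
  infer_instance

/-- a projection commuting with the particle numbers -/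
theorem exists_proj [Nontrivial H] [FiniteDimensional ℂ H] [FiniteDimensional ℂ U]
    (W : Submodule ℂ U) (hL : ∀ x ∈ LM a b P Q 𝔥, ∀ u ∈ W, rho a b x u ∈ W)
    (hN : ∀ σ, ∀ u ∈ W, nn a b σ u ∈ W) (F : Finset (Fin k)) :
    ∃ e : Module.End ℂ U, (∀ M ∈ LM a b P Q 𝔥, rho a b M * e = e * rho a b M) ∧
      (∀ τ ∈ F, nn a b τ * e = e * nn a b τ) ∧ (∀ u, e u ∈ W) ∧ ∀ w ∈ W, e w = w := by
  induction F using Finset.induction_on with
  | empty =>
    have := h.killing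
    obtain ⟨e, h1, h2, h3⟩ := weyl (lact a b _ h.br) (fun x y => by
      change rho a b _ = rho a b _ * rho a b _ - rho a b _ * rho a b _
      rw [toMatrix_lie, rho_bracket h.car]) W fun x w hw => hL _ x.2 w hw
    refine ⟨e, fun M hM => ?_, fun τ hτ => absurd hτ (Finset.notMem_empty τ), h2, h3⟩
    obtain ⟨x, hx⟩ := exists_LV (hbr := h.br) hM
    have h4 := h1 x
    change rho a b (LinearMap.toMatrix' x.1) * e = e * rho a b (LinearMap.toMatrix' x.1) at h4
    rw [hx] at h4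
    exact h4
  | insert σ F hσ ih =>
    obtain ⟨e, h1, h2, h3, h4⟩ := ih
    have hd := nn_diag h.car σ
    refine ⟨∑ c ∈ Finset.range (n + 1), lpr n (nn a b σ) c * e * lpr n (nn a b σ) c,
      fun M hM => ?_, fun τ hτ => ?_, fun u => ?_, fun w hw => ?_⟩
    · rw [Finset.mul_sum, Finset.sum_mul]
      refine Finset.sum_congr rfl fun c _ => ?_
      have e1 : rho a b M * lpr n (nn a b σ) c = lpr n (nn a b σ) c * rho a b M :=
        lpr_comm (nn_rho_comm h.car hM.1 σ).symm c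
      rw [← mul_assoc, ← mul_assoc, e1, mul_assoc (lpr n (nn a b σ) c) (rho a b M) e, h1 M hM,
        mul_assoc, mul_assoc e, e1, mul_assoc, mul_assoc]
    · rw [Finset.mul_sum, Finset.sum_mul]
      refine Finset.sum_congr rfl fun c hc => ?_
      have hc' : c ≤ n := by
        have := Finset.mem_range.1 hc
        omega
      by_cases hτσ : τ = σ
      · subst hτσ
        have e1 := lpr_mul_left h.car (σ := τ) hc'
        have e2 : lpr n (nn a b τ) c * nn a b τ = (c : ℂ) • lpr n (nn a b τ) c := by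
          rw [← lpr_comm rfl, e1]
        rw [← mul_assoc, ← mul_assoc, e1, smul_mul_assoc, smul_mul_assoc, mul_assoc _ _ (nn a b τ),
          e2, mul_smul_comm]
      · have hτF : τ ∈ F := (Finset.mem_insert.1 hτ).resolve_left hτσ
        have e1 : nn a b τ * lpr n (nn a b σ) c = lpr n (nn a b σ) c * nn a b τ :=
          lpr_comm (nn_comm h.car τ σ) c
        rw [← mul_assoc, ← mul_assoc, e1, mul_assoc (lpr n (nn a b σ) c) (nn a b τ) e, h2 τ hτF,
          mul_assoc, mul_assoc e, e1, mul_assoc, mul_assoc]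
    · rw [LinearMap.sum_apply]
      refine W.sum_mem fun c _ => ?_
      rw [mul_assoc, Module.End.mul_apply, Module.End.mul_apply]
      exact lpr_stable (hN σ) c _ (h3 _)
    · rw [LinearMap.sum_apply]
      have e1 : ∀ c ∈ Finset.range (n + 1),
          (lpr n (nn a b σ) c * e * lpr n (nn a b σ) c) w = lpr n (nn a b σ) c w := by
        intro c hc
        have hc' : c ≤ n := by
          have := Finset.mem_range.1 hc
          omega
        rw [mul_assoc, Module.End.mul_apply, Module.End.mul_apply,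
          h4 _ (lpr_stable (hN σ) c w hw), lpr_eig hc' hc' (lpr_left hd hc' w), if_pos rfl,
          one_smul]
      rw [Finset.sum_congr rfl e1, ← LinearMap.sum_apply, lpr_sum, Module.End.one_apply]

/-- **Stability.** -/
theorem st [Nontrivial H] [FiniteDimensional ℂ H] [FiniteDimensional ℂ U] {m : ℕ}
    (hm : 2 * m = n) (W : Submodule ℂ U)
    (hL : ∀ x ∈ LM a b P Q 𝔥, ∀ u ∈ W, rho a b x u ∈ W)
    (hN : ∀ σ, ∀ u ∈ W, rho a b (pj k n σ) u ∈ W) :
    ∀ σ i j, ∀ u ∈ W, a (σ, i) (b (σ, j) u) ∈ W := by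
  obtain ⟨e, h1, h2, h3, h4⟩ := h.exists_proj W hL (fun σ u hu => by
    have h5 := hN σ u hu
    rw [rho_pj] at h5
    exact h5) Finset.univ
  intro σ i j u hu
  have h5 := comm_L h.car (L := LM a b P Q 𝔥) (fun M hM => hM.1) hm (isBD_single σ i j 1)
    (fun X hX hXn hXm => h.base (isBD_single σ i j 1) X hX hXn hXm) e h1
    fun τ => h2 τ (Finset.mem_univ τ)
  have h6 := LinearMap.congr_fun h5 u
  rw [Module.End.mul_apply, Module.End.mul_apply, h4 u hu, rho_single, one_smul] at h6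
  rw [h6]
  exact h3 _

end MidHyp

/-- The blocks are irreducible. -/
theorem block_irr' [Nontrivial U] (hcar : Car a b)
    {L : Submodule ℂ (Matrix (Fin k × Fin n) (Fin k × Fin n) ℂ)}
    (st : ∀ W : Submodule ℂ U, (∀ x ∈ L, ∀ u ∈ W, rho a b x u ∈ W) →
      (∀ σ, ∀ u ∈ W, rho a b (pj k n σ) u ∈ W) → ∀ σ i j, ∀ u ∈ W, a (σ, i) (b (σ, j) u) ∈ W)
    (σ : Fin k) (P : Submodule ℂ (Fin k × Fin n → ℂ)) (hPσ : ∀ w ∈ P, ∀ p, p.1 ≠ σ → w p = 0)
    (hP : ∀ x ∈ L, ∀ w ∈ P, x.mulVec w ∈ P) (hP0 : P ≠ ⊥) (i : Fin n) :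
    Pi.single (σ, i) 1 ∈ P := by
  obtain ⟨u, hu0, hu⟩ := hcar.exists_vac ∅
  have hbu : ∀ p, b p u = 0 := fun p => hu.2 p (Finset.notMem_empty p)
  let A : (Fin k × Fin n → ℂ) →ₗ[ℂ] U :=
    { toFun := fun w => ∑ p, w p • a p u
      map_add' := fun v w => by
        simp only [Pi.add_apply, add_smul, Finset.sum_add_distrib]
      map_smul' := fun c w => by
        simp only [Pi.smul_apply, smul_eq_mul, mul_smul, Finset.smul_sum, RingHom.id_apply] }
  have hA : ∀ w, A w = ∑ p, w p • a p u := fun w => rfl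
  have hbA : ∀ q w, b q (A w) = w q • u := by
    intro q w
    rw [hA, map_sum, Finset.sum_eq_single q]
    · rw [map_smul, hcar.ba_of_b (hbu q)]
    · intro p _ hp
      have h1 := hcar.abne hp u
      rw [hbu, map_zero] at h1
      rw [map_smul, neg_eq_zero.1 h1.symm, smul_zero]
    · intro h; exact absurd (Finset.mem_univ _) h
  have hrho : ∀ M w, rho a b M (A w) = A (M.mulVec w) := by
    intro M w
    rw [rho_apply, hA (M.mulVec w)]
    refine Finset.sum_congr rfl fun p _ => ?_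
    rw [Matrix.mulVec, dotProduct, Finset.sum_smul]
    refine Finset.sum_congr rfl fun q _ => ?_
    rw [hbA, map_smul, smul_smul]
  have hpj : ∀ τ, ∀ w ∈ P, (pj k n τ).mulVec w ∈ P := by
    intro τ w hw
    have h1 : (pj k n τ).mulVec w = (if σ = τ then (1 : ℂ) else 0) • w := by
      ext p
      unfold pj
      rw [Matrix.mulVec_diagonal, Pi.smul_apply, smul_eq_mul]
      by_cases hp : p.1 = σ
      · rw [hp]
      · rw [hPσ w hw p hp, mul_zero, mul_zero]
    rw [h1]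
    exact P.smul_mem _ hw
  have h1 := st (P.map A)
    (by
      rintro x hx _ ⟨w, hw, rfl⟩
      rw [hrho]
      exact ⟨_, hP x hx w hw, rfl⟩)
    (by
      rintro τ _ ⟨w, hw, rfl⟩
      rw [hrho]
      exact ⟨_, hpj τ w hw, rfl⟩)
  obtain ⟨w, hw, hw0⟩ := (Submodule.ne_bot_iff P).1 hP0
  obtain ⟨p, hp⟩ : ∃ p, w p ≠ 0 := by
    by_contra hcon
    push Not at hcon
    exact hw0 (funext hcon)
  have hpσ : p.1 = σ := by
    by_contra h
    exact hp (hPσ w hw p h)
  have h2 := h1 σ i p.2 (A w) ⟨w, hw, rfl⟩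
  have hpe : (σ, p.2) = p := Prod.ext hpσ.symm rfl
  rw [hpe, hbA, map_smul] at h2
  obtain ⟨w', hw', h3⟩ := h2
  have h4 : w' = w p • Pi.single (σ, i) 1 := by
    ext q
    have h5 := congrArg (b q) h3
    rw [hbA, map_smul] at h5
    rw [Pi.smul_apply, smul_eq_mul]
    by_cases hq : q = (σ, i)
    · subst hq
      rw [hcar.ba_of_b (hbu _)] at h5
      rw [Pi.single_eq_same, mul_one]
      exact smul_left_injective ℂ hu0 h5
    · have h6 := hcar.abne (Ne.symm hq) u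
      rw [hbu, map_zero] at h6
      rw [neg_eq_zero.1 h6.symm, smul_zero] at h5
      rw [Pi.single_eq_of_ne hq, mul_zero]
      exact (smul_eq_zero.1 h5).resolve_right hu0
  have h5 : Pi.single (σ, i) 1 = (w p)⁻¹ • w' := by
    rw [h4, smul_smul, inv_mul_cancel₀ hp, one_smul]
  rw [h5]
  exact P.smul_mem _ hw'

end Pool.Agent.R918
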