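import Pool.Agent.R918.Mid4

set_option autoImplicit false
set_option linter.unusedSectionVars false
set_option linter.unusedVariables false

/-!
# The middle part: the main theorem
-/

open Module

namespace Pool.Agent.R918

variable {k n : ℕ}

/-- the matrices `x` such that `g x g'` is in `L` -/
noncomputable def SL (L : Submodule ℂ (Matrix (Fin k × Fin n) (Fin k × Fin n) ℂ))
    (g g' : Matrix (Fin k × Fin n) (Fin k × Fin n) ℂ) :
    Submodule ℂ (Matrix (Fin k × Fin n) (Fin k × Fin n) ℂ) where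
  carrier := {x | g * x * g' ∈ L}
  zero_mem' := by
    change g * 0 * g' ∈ L
    rw [mul_zero, zero_mul]; exact L.zero_mem
  add_mem' := fun {x y} hx hy => by
    change g * (x + y) * g' ∈ L
    rw [mul_add, add_mul]; exact L.add_mem hx hy
  smul_mem' := fun c x hx => by
    change g * (c • x) * g' ∈ L
    rw [mul_smul_comm, smul_mul_assoc]; exact L.smul_mem c hx

/-- **All traceless matrices.** -/
theorem all_of_units (hn0 : 0 < n)
    {L : Submodule ℂ (Matrix (Fin k × Fin n) (Fin k × Fin n) ℂ)}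
    (hbr : ∀ x ∈ L, ∀ y ∈ L, x * y - y * x ∈ L)
    {g g' : Matrix (Fin k × Fin n) (Fin k × Fin n) ℂ} (hgbd : IsBD g) (hg'bd : IsBD g')
    (hgg' : g * g' = 1) (hg'g : g' * g = 1)
    (hu : ∀ (σ : Fin k) (i : ℕ) (hi : i + 1 < n),
        g * Matrix.single ((σ, ⟨i, by omega⟩) : Fin k × Fin n)
          ((σ, ⟨i + 1, hi⟩) : Fin k × Fin n) (1 : ℂ) * g' ∈ L ∧
        g * Matrix.single ((σ, ⟨i + 1, hi⟩) : Fin k × Fin n)
          ((σ, ⟨i, by omega⟩) : Fin k × Fin n) (1 : ℂ) * g' ∈ L)
    (M : Matrix (Fin k × Fin n) (Fin k × Fin n) ℂ) (hM : IsBD M) (htr : ∀ σ, btr σ M = 0) :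
    M ∈ L := by
  have hmul' : ∀ x y : Matrix (Fin k × Fin n) (Fin k × Fin n) ℂ,
      g * (x * y) * g' = (g * x * g') * (g * y * g') := by
    intro x y
    calc g * (x * y) * g' = g * x * 1 * y * g' := by rw [mul_one]; simp only [mul_assoc]
      _ = g * x * (g' * g) * y * g' := by rw [hg'g]
      _ = (g * x * g') * (g * y * g') := by simp only [mul_assoc]
  have hbrS : ∀ x ∈ SL L g g', ∀ y ∈ SL L g g', x * y - y * x ∈ SL L g g' := by
    intro x hx y hy
    change g * (x * y - y * x) * g' ∈ L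
    rw [mul_sub, sub_mul, hmul', hmul']
    exact hbr _ hx _ hy
  -- the steps
  have hstep : ∀ (σ : Fin k) (i : ℕ) (hi : i + 1 < n),
      Matrix.single ((σ, ⟨i, by omega⟩) : Fin k × Fin n)
          ((σ, ⟨i + 1, hi⟩) : Fin k × Fin n) (1 : ℂ) ∈ SL L g g' ∧
        Matrix.single ((σ, ⟨i + 1, hi⟩) : Fin k × Fin n)
          ((σ, ⟨i, by omega⟩) : Fin k × Fin n) (1 : ℂ) ∈ SL L g g' := hu
  have hup : ∀ (σ : Fin k) (d : ℕ), ∀ (i : ℕ) (hi : i + (d + 1) < n),
      Matrix.single ((σ, ⟨i, by omega⟩) : Fin k × Fin n)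
          ((σ, ⟨i + (d + 1), hi⟩) : Fin k × Fin n) (1 : ℂ) ∈ SL L g g' ∧
        Matrix.single ((σ, ⟨i + (d + 1), hi⟩) : Fin k × Fin n)
          ((σ, ⟨i, by omega⟩) : Fin k × Fin n) (1 : ℂ) ∈ SL L g g' := by
    intro σ d
    induction d with
    | zero => exact fun i hi => hstep σ i hi
    | succ d ih =>
      intro i hi
      obtain ⟨h1, h2⟩ := ih i (by omega)
      obtain ⟨h3, h4⟩ := hstep σ (i + (d + 1)) (by omega)
      have hne : ((σ, ⟨i, by omega⟩) : Fin k × Fin n) ≠ (σ, ⟨i + (d + 1) + 1, hi⟩) := fun h => by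
        have h5 : i = i + (d + 1) + 1 := congrArg (fun r : Fin k × Fin n => (r.2 : ℕ)) h
        omega
      have f1 := hbrS _ h1 _ h3
      have f2 := hbrS _ h4 _ h2
      rw [single_br hne] at f1
      rw [single_br (Ne.symm hne)] at f2
      exact ⟨f1, f2⟩
  have hoff : ∀ (σ : Fin k) (i j : Fin n), i ≠ j →
      Matrix.single ((σ, i) : Fin k × Fin n) ((σ, j) : Fin k × Fin n) (1 : ℂ) ∈
        SL L g g' := by
    intro σ i j hij
    rcases lt_or_gt_of_ne hij with h | h
    · have h1 := (hup σ ((j : ℕ) - i - 1) i (by have := j.2; have h2 : (i : ℕ) < j := h; omega)).1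
      have h2 : (⟨(i : ℕ) + ((j : ℕ) - i - 1 + 1), by
          have := j.2; have h2 : (i : ℕ) < j := h; omega⟩ : Fin n) = j := Fin.ext (by
        have h2 : (i : ℕ) < j := h
        change (i : ℕ) + ((j : ℕ) - i - 1 + 1) = j
        omega)
      rw [h2] at h1
      exact h1
    · have h1 := (hup σ ((i : ℕ) - j - 1) j (by have := i.2; have h2 : (j : ℕ) < i := h; omega)).2
      have h2 : (⟨(j : ℕ) + ((i : ℕ) - j - 1 + 1), by
          have := i.2; have h2 : (j : ℕ) < i := h; omega⟩ : Fin n) = i := Fin.ext (by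
        have h2 : (j : ℕ) < i := h
        change (j : ℕ) + ((i : ℕ) - j - 1 + 1) = i
        omega)
      rw [h2] at h1
      exact h1
  have hdiag : ∀ (σ : Fin k) (i j : Fin n),
      Matrix.single ((σ, i) : Fin k × Fin n) ((σ, i) : Fin k × Fin n) (1 : ℂ) -
        Matrix.single ((σ, j) : Fin k × Fin n) ((σ, j) : Fin k × Fin n) (1 : ℂ) ∈
          SL L g g' := by
    intro σ i j
    by_cases hij : i = j
    · rw [hij, sub_self]
      exact Submodule.zero_mem _
    · rw [← single_br' ((σ, i) : Fin k × Fin n) (σ, j)]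
      exact hbrS _ (hoff σ i j hij) _ (hoff σ j i (Ne.symm hij))
  -- all traceless matrices
  have hall : ∀ N : Matrix (Fin k × Fin n) (Fin k × Fin n) ℂ, IsBD N → (∀ σ, btr σ N = 0) →
      N ∈ SL L g g' := by
    intro N hN hNtr
    have hdec : N = ∑ σ : Fin k, ∑ i : Fin n, ∑ j : Fin n, N (σ, i) (σ, j) •
        (Matrix.single ((σ, i) : Fin k × Fin n) ((σ, j) : Fin k × Fin n) (1 : ℂ) -
          if i = j then Matrix.single ((σ, ⟨0, hn0⟩) : Fin k × Fin n)
            ((σ, ⟨0, hn0⟩) : Fin k × Fin n) (1 : ℂ) else 0) := by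
      have h1 : ∀ σ : Fin k, ∑ i : Fin n, ∑ j : Fin n, N (σ, i) (σ, j) •
          (Matrix.single ((σ, i) : Fin k × Fin n) ((σ, j) : Fin k × Fin n) (1 : ℂ) -
            if i = j then Matrix.single ((σ, ⟨0, hn0⟩) : Fin k × Fin n)
              ((σ, ⟨0, hn0⟩) : Fin k × Fin n) (1 : ℂ) else 0) =
          ∑ i : Fin n, ∑ j : Fin n, N (σ, i) (σ, j) •
            Matrix.single ((σ, i) : Fin k × Fin n) ((σ, j) : Fin k × Fin n) (1 : ℂ) := by
        intro σ
        have h2 : ∀ i : Fin n, ∑ j : Fin n, N (σ, i) (σ, j) •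
            (Matrix.single ((σ, i) : Fin k × Fin n) ((σ, j) : Fin k × Fin n) (1 : ℂ) -
              if i = j then Matrix.single ((σ, ⟨0, hn0⟩) : Fin k × Fin n)
                ((σ, ⟨0, hn0⟩) : Fin k × Fin n) (1 : ℂ) else 0) =
            (∑ j : Fin n, N (σ, i) (σ, j) •
              Matrix.single ((σ, i) : Fin k × Fin n) ((σ, j) : Fin k × Fin n) (1 : ℂ)) -
              N (σ, i) (σ, i) • Matrix.single ((σ, ⟨0, hn0⟩) : Fin k × Fin n)
                ((σ, ⟨0, hn0⟩) : Fin k × Fin n) (1 : ℂ) := by
          intro i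
          simp only [smul_sub, Finset.sum_sub_distrib, smul_ite, smul_zero]
          rw [Finset.sum_ite_eq, if_pos (Finset.mem_univ _)]
        rw [Finset.sum_congr rfl fun i _ => h2 i, Finset.sum_sub_distrib, ← Finset.sum_smul]
        have h3 : ∑ i : Fin n, N (σ, i) (σ, i) = 0 := by
          rw [← hNtr σ, btr_eq]
          unfold pj Matrix.trace
          rw [Fintype.sum_prod_type, Finset.sum_eq_single σ]
          · refine Finset.sum_congr rfl fun i _ => ?_
            rw [Matrix.diag_apply, Matrix.diagonal_mul, if_pos rfl, one_mul]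
          · intro τ _ hτ
            refine Finset.sum_eq_zero fun i _ => ?_
            rw [Matrix.diag_apply, Matrix.diagonal_mul, if_neg hτ, zero_mul]
          · intro h; exact absurd (Finset.mem_univ _) h
        rw [h3, zero_smul, sub_zero]
      rw [Finset.sum_congr rfl fun σ _ => h1 σ]
      ext p q
      rw [Matrix.sum_apply, Finset.sum_eq_single p.1]
      · rw [Matrix.sum_apply, Finset.sum_eq_single p.2]
        · rw [Matrix.sum_apply]
          by_cases hpq : p.1 = q.1
          · rw [Finset.sum_eq_single q.2]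
            · have e1 : ((p.1, p.2) : Fin k × Fin n) = p := rfl
              have e2 : ((p.1, q.2) : Fin k × Fin n) = q := Prod.ext hpq rfl
              rw [e1, e2, Matrix.smul_apply, Matrix.single_apply, if_pos ⟨rfl, rfl⟩, smul_eq_mul,
                mul_one]
            · intro j _ hj
              rw [Matrix.smul_apply, Matrix.single_apply, if_neg (fun h => hj (by rw [← h.2])),
                smul_zero]
            · intro h; exact absurd (Finset.mem_univ _) h
          · rw [hN p q hpq]
            symm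
            refine Finset.sum_eq_zero fun j _ => ?_
            rw [Matrix.smul_apply, Matrix.single_apply, if_neg (fun h => hpq (by rw [← h.2])),
              smul_zero]
        · intro i _ hi
          rw [Matrix.sum_apply]
          refine Finset.sum_eq_zero fun j _ => ?_
          rw [Matrix.smul_apply, Matrix.single_apply, if_neg (fun h => hi (by rw [← h.1])),
            smul_zero]
        · intro h; exact absurd (Finset.mem_univ _) h
      · intro τ _ hτ
        rw [Matrix.sum_apply]
        refine Finset.sum_eq_zero fun i _ => ?_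
        rw [Matrix.sum_apply]
        refine Finset.sum_eq_zero fun j _ => ?_
        rw [Matrix.smul_apply, Matrix.single_apply, if_neg (fun h => hτ (by rw [← h.1])),
          smul_zero]
      · intro h; exact absurd (Finset.mem_univ _) h
    rw [hdec]
    refine Submodule.sum_mem _ fun σ _ => Submodule.sum_mem _ fun i _ => Submodule.sum_mem _
      fun j _ => Submodule.smul_mem _ _ ?_
    by_cases hij : i = j
    · rw [if_pos hij, hij]
      exact hdiag σ j _
    · rw [if_neg hij, sub_zero]
      exact hoff σ i j hij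
  have h1 := hall (g' * M * g) ((hg'bd.mul hM).mul hgbd) (fun σ => by
    rw [btr_comm σ (hg'bd.mul hM) hgbd, ← mul_assoc, hgg', one_mul]
    exact htr σ)
  have h2 : g * (g' * M * g) * g' ∈ L := h1
  have h3 : g * (g' * M * g) * g' = M := by
    calc g * (g' * M * g) * g' = (g * g') * M * (g * g') := by simp only [mul_assoc]
      _ = M := by rw [hgg', one_mul, mul_one]
  rwa [h3] at h2

variable {U : Type} [AddCommGroup U] [Module ℂ U]
  {a b : Fin k × Fin n → Module.End ℂ U} {H : Type} [AddCommGroup H] [Module ℂ H]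
  {P : U →ₗ[ℂ] H} {Q : H →ₗ[ℂ] U} {𝔥 : Submodule ℂ (Module.End ℂ H)}

/-- **Theorem M.** All the traceless block diagonal matrices act as elements of `𝔥`. -/
theorem MidHyp.all_mem (h : MidHyp a b P Q 𝔥) [Nontrivial H] [FiniteDimensional ℂ H]
    [FiniteDimensional ℂ U] {m : ℕ} (hm : 2 * m = n)
    (M : Matrix (Fin k × Fin n) (Fin k × Fin n) ℂ) (hM : IsBD M) (htr : ∀ σ, btr σ M = 0) :
    cmp P Q (rho a b M) ∈ 𝔥 := by
  rcases Nat.eq_zero_or_pos n with hn0 | hn0
  · have : M = 0 := by
      ext p q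
      have := p.2.2
      omega
    rw [this, map_zero, map_zero]
    exact 𝔥.zero_mem
  have hU : Nontrivial U := by
    obtain ⟨x, hx⟩ := exists_ne (0 : H)
    refine nontrivial_of_ne (Q x) 0 fun h1 => hx ?_
    rw [← h.ms.pq x, h1, map_zero]
  have hst := h.st hm
  have hgood : Good (LM a b P Q 𝔥) :=
    { pos := hn0
      bd := fun x hx => hx.1
      tr := fun x hx => hx.2.1
      br := h.br
      irr := fun σ P h1 h2 h3 i => block_irr' h.car hst σ P h1 h2 h3 i }
  obtain ⟨g, g', hgbd, hg'bd, hgg', hg'g, hu⟩ := exists_units h.car ⟨m, by omega⟩ hgood hst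
  exact (all_of_units hn0 h.br hgbd hg'bd hgg' hg'g hu M hM htr).2.2

end Pool.Agent.R918
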