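import Pool.Agent.R917.MT

set_option autoImplicit false
set_option linter.unusedSectionVars false

/-!
# Replicas: the algebraic hull of a one-parameter group of semisimple matrices
-/

open Matrix

noncomputable section

namespace Pool.Agent.R918

open Pool.Agent.TH119.MX

/-- the characters of the additive group -/
def ech (μ : ℂ) : Multiplicative ℂ →* ℂ where
  toFun t := Complex.exp (t.toAdd * μ)
  map_one' := by
    change Complex.exp (0 * μ) = 1
    rw [zero_mul, Complex.exp_zero]
  map_mul' s t := by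
    change Complex.exp ((s.toAdd + t.toAdd) * μ) = _
    rw [add_mul, Complex.exp_add]

theorem ech_apply (μ t : ℂ) : ech μ (Multiplicative.ofAdd t) = Complex.exp (t * μ) := rfl

theorem ech_inj : Function.Injective ech := by
  intro μ ν h
  have h1 : (fun t : ℂ => Complex.exp (t * μ)) = fun t : ℂ => Complex.exp (t * ν) := by
    funext t
    rw [← ech_apply, ← ech_apply, h]
  have hd : ∀ μ : ℂ, HasDerivAt (fun t : ℂ => Complex.exp (t * μ)) μ 0 := by
    intro μ
    have h2 := ((hasDerivAt_id (0 : ℂ)).mul_const μ).cexp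
    simp only [id, zero_mul, Complex.exp_zero, one_mul] at h2
    exact h2
  have h3 := hd μ
  rw [h1] at h3
  exact h3.unique (hd ν)

theorem sum_exp_zero {ι : Type} (s : Finset ι) (c μ ν : ι → ℂ)
    (h : ∀ t : ℂ, ∑ i ∈ s, c i * Complex.exp (t * μ i) = 0)
    (hν : ∀ i ∈ s, ∀ j ∈ s, μ i = μ j → ν i = ν j) (t : ℂ) :
    ∑ i ∈ s, c i * Complex.exp (t * ν i) = 0 := by
  classical
  have hli : LinearIndependent ℂ (fun m : ℂ => (ech m : Multiplicative ℂ → ℂ)) :=
    (linearIndependent_monoidHom (Multiplicative ℂ) ℂ).comp ech ech_inj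
  have hmap : ∀ i ∈ s, μ i ∈ s.image μ := fun i hi => Finset.mem_image_of_mem μ hi
  have h1 : ∑ m ∈ s.image μ, (∑ i ∈ s.filter (fun i => μ i = m), c i) •
      (ech m : Multiplicative ℂ → ℂ) = 0 := by
    funext u
    have h2 := h u.toAdd
    rw [← Finset.sum_fiberwise_of_maps_to hmap] at h2
    rw [Finset.sum_apply, Pi.zero_apply, ← h2]
    refine Finset.sum_congr rfl fun m _ => ?_
    rw [Pi.smul_apply, smul_eq_mul, Finset.sum_mul]
    refine Finset.sum_congr rfl fun i hi => ?_
    rw [(Finset.mem_filter.1 hi).2]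
    rfl
  have h2 := linearIndependent_iff'.1 hli _ _ h1
  rw [← Finset.sum_fiberwise_of_maps_to hmap]
  refine Finset.sum_eq_zero fun m hm => ?_
  obtain ⟨j, hj, hjm⟩ := Finset.mem_image.1 hm
  have h3 : ∀ i ∈ s.filter (fun i => μ i = m), c i * Complex.exp (t * ν i) =
      c i * Complex.exp (t * ν j) := by
    intro i hi
    obtain ⟨h4, h5⟩ := Finset.mem_filter.1 hi
    rw [hν i h4 j hj (h5.trans hjm.symm)]
  rw [Finset.sum_congr rfl h3, ← Finset.sum_mul, h2 m hm, zero_mul]

variable {B : Type} [Fintype B] [DecidableEq B]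

theorem conj_mul_conj {S S' : Matrix B B ℂ} (h2 : S' * S = 1) (u v : B → ℂ) :
    S * Matrix.diagonal u * S' * (S * Matrix.diagonal v * S') =
      S * Matrix.diagonal (fun i => u i * v i) * S' := by
  calc S * Matrix.diagonal u * S' * (S * Matrix.diagonal v * S')
      = S * Matrix.diagonal u * (S' * S) * Matrix.diagonal v * S' := by
        simp only [Matrix.mul_assoc]
    _ = S * (Matrix.diagonal u * Matrix.diagonal v) * S' := by
        rw [h2, Matrix.mul_one, Matrix.mul_assoc S]
    _ = _ := by rw [Matrix.diagonal_mul_diagonal]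

/-- **Replicas.** -/
theorem replica {F : Subfield ℂ} {H : Set (Matrix B B ℂ)} (hH : AlgGrp F H)
    {S S' : Matrix B B ℂ} (h1 : S * S' = 1) (h2 : S' * S = 1) (x y : B → ℂ)
    (hrel : ∀ α β : B → ℕ, ∑ i, (α i : ℂ) * x i = ∑ i, (β i : ℂ) * x i →
      ∑ i, (α i : ℂ) * y i = ∑ i, (β i : ℂ) * y i)
    (hx : ∀ t : ℂ, S * Matrix.diagonal (fun i => Complex.exp (t * x i)) * S' ∈ H) (t : ℂ) :
    S * Matrix.diagonal (fun i => Complex.exp (t * y i)) * S' ∈ H := by
  obtain ⟨I, -, hI⟩ := hH.alg
  refine (hI _).2 ⟨⟨S * Matrix.diagonal (fun i => Complex.exp (-(t * y i))) * S', ?_, ?_⟩,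
    fun p hp => ?_⟩
  · rw [conj_mul_conj h2]
    have : (fun i => Complex.exp (t * y i) * Complex.exp (-(t * y i))) = fun _ => 1 := by
      funext i
      rw [← Complex.exp_add, add_neg_cancel, Complex.exp_zero]
    rw [this, Matrix.diagonal_one, Matrix.mul_one, h1]
  · rw [conj_mul_conj h2]
    have : (fun i => Complex.exp (-(t * y i)) * Complex.exp (t * y i)) = fun _ => 1 := by
      funext i
      rw [← Complex.exp_add, neg_add_cancel, Complex.exp_zero]
    rw [this, Matrix.diagonal_one, Matrix.mul_one, h1]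
  · let q : MvPolynomial B ℂ := MvPolynomial.bind₁
      (fun b : B × B => ∑ i, MvPolynomial.C (S b.1 i * S' i b.2) * MvPolynomial.X i) p
    have hq : ∀ z : B → ℂ, MvPolynomial.eval z q =
        MvPolynomial.eval (fun b => (S * Matrix.diagonal z * S') b.1 b.2) p := by
      intro z
      have h3 : (fun b : B × B => (S * Matrix.diagonal z * S') b.1 b.2) = fun b : B × B =>
          MvPolynomial.eval z
            (∑ i, MvPolynomial.C (S b.1 i * S' i b.2) * MvPolynomial.X i) := by
        funext b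
        rw [map_sum, Matrix.mul_apply]
        refine Finset.sum_congr rfl fun i _ => ?_
        rw [Matrix.mul_diagonal, map_mul, MvPolynomial.eval_C, MvPolynomial.eval_X]
        ring
      rw [h3]
      exact MvPolynomial.eval₂Hom_bind₁ _ _ _ _
    have hz : ∀ (x : B → ℂ) (t : ℂ), MvPolynomial.eval (fun i => Complex.exp (t * x i)) q =
        ∑ m ∈ q.support, q.coeff m * Complex.exp (t * ∑ i, (m i : ℂ) * x i) := by
      intro x t
      rw [MvPolynomial.eval_eq']
      refine Finset.sum_congr rfl fun m _ => ?_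
      congr 1
      rw [Finset.mul_sum, Complex.exp_sum]
      refine Finset.prod_congr rfl fun i _ => ?_
      rw [← Complex.exp_nat_mul]
      congr 1
      ring
    rw [← hq, hz]
    refine sum_exp_zero q.support (fun m => q.coeff m) (fun m => ∑ i, (m i : ℂ) * x i)
      (fun m => ∑ i, (m i : ℂ) * y i) (fun s => ?_) (fun m _ m' _ h => hrel m m' h) t
    rw [← hz, hq]
    exact ((hI _).1 (hx s)).2 p hp

theorem exp_diag {S S' : Matrix B B ℂ} (h1 : S * S' = 1) (h2 : S' * S = 1) (x : B → ℂ) (t : ℂ) :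
    NormedSpace.exp (t • (S * Matrix.diagonal x * S')) =
      S * Matrix.diagonal (fun i => Complex.exp (t * x i)) * S' := by
  have hS : IsUnit S := ⟨⟨S, S', h1, h2⟩, rfl⟩
  have hinv : S⁻¹ = S' := Matrix.inv_eq_right_inv h1
  have h3 : t • (S * Matrix.diagonal x * S') = S * Matrix.diagonal (fun i => t * x i) * S⁻¹ := by
    rw [hinv, ← Matrix.smul_mul, ← Matrix.mul_smul]
    congr 2
    ext i j
    by_cases hij : i = j
    · rw [hij, Matrix.smul_apply, Matrix.diagonal_apply_eq, Matrix.diagonal_apply_eq, smul_eq_mul]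
    · rw [Matrix.smul_apply, Matrix.diagonal_apply_ne _ hij, Matrix.diagonal_apply_ne _ hij,
        smul_zero]
  rw [h3, Matrix.exp_conj S _ hS, Matrix.exp_diagonal, hinv]
  congr 3
  funext i
  rw [Complex.exp_eq_exp_ℂ]
  exact Pi.coe_exp (fun i => t * x i) i

open Pool.Agent.TH119.MX Pool.Agent.TH119.DR Pool.Agent.W437.HK in
/-- The derivatives of one-parameter groups are in the Lie algebra. -/
theorem stab_of_exp {F : Subfield ℂ} {H : Set (Matrix B B ℂ)} (hH : AlgGrp F H)
    {X : Matrix B B ℂ} (hX : ∀ t : ℂ, NormedSpace.exp (t • X) ∈ H) (d : ℕ) : Stab H d X := by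
  intro w hw h hh
  have h1 : ∀ t, Pool.Agent.R917.FF h X w t = 0 := by
    intro t
    exact hw _ (hH.mul _ hh _ (hX t))
  have h2 := Pool.Agent.R917.hasDerivAt_FF h X w 0
  have h3 : Pool.Agent.R917.FF h X w = fun _ => 0 := funext h1
  rw [h3] at h2
  have h4 := h2.unique (hasDerivAt_const (0 : ℂ) (0 : ℂ))
  unfold Pool.Agent.R917.FF at h4
  rwa [zero_smul, NormedSpace.exp_zero, Matrix.mul_one] at h4

end Pool.Agent.R918

end
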