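import Mathlib

set_option autoImplicit false
set_option linter.unusedSectionVars false
set_option linter.unusedVariables false

/-!
# Skew-symmetric matrices: elements with the adjoint action of a decomposable element
-/

open Module Matrix

noncomputable section

namespace Pool.Agent.R918.Sp

variable {s : ℕ}

/-- The elementary skew-symmetric matrices. -/
def gg (p q : Fin s) : Matrix (Fin s) (Fin s) ℂ := Matrix.single p q 1 - Matrix.single q p 1

theorem gg_skew (p q : Fin s) : (gg p q)ᵀ = -gg p q := by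
  unfold gg
  rw [Matrix.transpose_sub, Matrix.transpose_single, Matrix.transpose_single]
  abel

theorem gg_swap (p q : Fin s) : gg q p = -gg p q := by
  unfold gg
  abel

theorem single_mid (X Y : Matrix (Fin s) (Fin s) ℂ) (a b p q : Fin s) :
    (X * Matrix.single a b (1 : ℂ) * Y) p q = X p a * Y b q := by
  rw [Matrix.mul_apply, Finset.sum_eq_single b]
  · rw [Matrix.mul_single_apply_same, mul_one]
  · intro j _ hj
    rw [Matrix.mul_single_apply_of_ne _ _ _ _ _ hj, zero_mul]
  · intro h; exact absurd (Finset.mem_univ _) h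

theorem gg_mid (X Y : Matrix (Fin s) (Fin s) ℂ) (a b p q : Fin s) :
    (X * gg a b * Y) p q = X p a * Y b q - X p b * Y a q := by
  unfold gg
  rw [Matrix.mul_sub, Matrix.sub_mul, Matrix.sub_apply, single_mid, single_mid]

theorem contr (X Y : Matrix (Fin s) (Fin s) ℂ) (u p : Fin s) :
    ∑ i, (X * gg u i * Y) p i = X p u * Y.trace - (X * Yᵀ) p u := by
  have h1 : ∀ i, (X * gg u i * Y) p i = X p u * Y i i - X p i * Yᵀ i u := fun i =>
    gg_mid X Y u i p i
  rw [Finset.sum_congr rfl fun i _ => h1 i, Finset.sum_sub_distrib, ← Finset.mul_sum,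
    ← Matrix.mul_apply]
  rfl

theorem trace_skew {f : Matrix (Fin s) (Fin s) ℂ} (hf : fᵀ = -f) : f.trace = 0 := by
  have h1 := Matrix.trace_transpose f
  rw [hf, Matrix.trace_neg] at h1
  have h2 : (2 : ℂ) * f.trace = 0 := by linear_combination -h1
  exact (mul_eq_zero.1 h2).resolve_left two_ne_zero

/-- The cubic equation. -/
theorem cubic {f : Matrix (Fin s) (Fin s) ℂ} (hf : fᵀ = -f)
    (h : ∀ A : Matrix (Fin s) (Fin s) ℂ, Aᵀ = -A →
      f * f * f * A - (3 : ℂ) • (f * f * A * f) + (3 : ℂ) • (f * A * (f * f)) - A * (f * f * f) =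
        -(f * A - A * f)) :
    ((s : ℂ) - 8) • (f * f * f) + (3 * (f * f).trace) • f = -((s : ℂ) - 2) • f := by
  have hf3 : (f * f * f)ᵀ = -(f * f * f) := by
    rw [Matrix.transpose_mul, Matrix.transpose_mul, hf]
    simp [Matrix.mul_assoc]
  have hf2 : (f * f)ᵀ = f * f := by
    rw [Matrix.transpose_mul, hf]
    simp
  have t1 := trace_skew hf
  have t3 := trace_skew hf3
  ext p u
  have h1 : ∑ i, (f * f * f * gg u i - (3 : ℂ) • (f * f * gg u i * f) +
      (3 : ℂ) • (f * gg u i * (f * f)) - gg u i * (f * f * f)) p i =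
        ∑ i, (-(f * gg u i - gg u i * f)) p i := by
    refine Finset.sum_congr rfl fun i _ => ?_
    rw [h _ (gg_skew u i)]
  have c1 : ∑ i, (f * f * f * gg u i) p i = ((s : ℂ) - 1) * (f * f * f) p u := by
    have h2 := contr (f * f * f) 1 u p
    rw [Matrix.transpose_one, Matrix.mul_one, Matrix.trace_one, Fintype.card_fin] at h2
    simp only [Matrix.mul_one] at h2
    rw [h2]
    ring
  have c2 : ∑ i, (f * f * gg u i * f) p i = (f * f * f) p u := by
    rw [contr, t1, hf, Matrix.mul_neg, Matrix.neg_apply]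
    ring
  have c3 : ∑ i, (f * gg u i * (f * f)) p i = (f * f).trace * f p u - (f * f * f) p u := by
    rw [contr, hf2, ← Matrix.mul_assoc]
    ring
  have c4 : ∑ i, (gg u i * (f * f * f)) p i = (f * f * f) p u := by
    have h2 := contr 1 (f * f * f) u p
    rw [hf3, t3, Matrix.one_mul, Matrix.neg_apply] at h2
    simp only [Matrix.one_mul] at h2
    rw [h2]
    ring
  have c5 : ∑ i, (f * gg u i) p i = ((s : ℂ) - 1) * f p u := by
    have h2 := contr f 1 u p
    rw [Matrix.transpose_one, Matrix.mul_one, Matrix.trace_one, Fintype.card_fin] at h2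
    simp only [Matrix.mul_one] at h2
    rw [h2]
    ring
  have c6 : ∑ i, (gg u i * f) p i = f p u := by
    have h2 := contr 1 f u p
    rw [hf, t1, Matrix.one_mul, Matrix.neg_apply] at h2
    simp only [Matrix.one_mul] at h2
    rw [h2]
    ring
  simp only [Matrix.sub_apply, Matrix.add_apply, Matrix.smul_apply, Matrix.neg_apply,
    Finset.sum_sub_distrib, Finset.sum_add_distrib, Finset.sum_neg_distrib, smul_eq_mul,
    ← Finset.mul_sum, c1, c2, c3, c4, c5, c6] at h1
  rw [Matrix.add_apply, Matrix.smul_apply, Matrix.smul_apply, Matrix.smul_apply, smul_eq_mul,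
    smul_eq_mul, smul_eq_mul]
  linear_combination h1

/-- A skew-symmetric matrix with `f ^ 3 = - f` and trace of the square `-2` is decomposable. -/
theorem rank_two {f : Matrix (Fin s) (Fin s) ℂ} (hf : fᵀ = -f) (h3 : f * f * f = -f)
    (ht : (f * f).trace = -2) : ∃ u v : Fin s → ℂ, ∀ i j, f i j = u i * v j - v i * u j := by
  let P : Module.End ℂ (Fin s → ℂ) := Matrix.toLin' (-(f * f))
  let R : Submodule ℂ (Fin s → ℂ) := LinearMap.range (Matrix.toLin' f)
  have hPR : ∀ x, P x ∈ R := by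
    intro x
    refine ⟨-(f.mulVec x), ?_⟩
    change f.mulVec (-(f.mulVec x)) = (-(f * f)).mulVec x
    rw [Matrix.mulVec_neg, Matrix.mulVec_mulVec, Matrix.neg_mulVec]
  have hPid : ∀ x ∈ R, P x = x := by
    rintro _ ⟨y, rfl⟩
    change (-(f * f)).mulVec (f.mulVec y) = f.mulVec y
    rw [Matrix.mulVec_mulVec, Matrix.neg_mul, h3, neg_neg]
  have hproj : LinearMap.IsProj R P := ⟨hPR, hPid⟩
  have hfin : finrank ℂ R = 2 := by
    have h1 := LinearMap.IsProj.trace hproj
    rw [Matrix.trace_toLin'_eq, Matrix.trace_neg, ht, neg_neg] at h1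
    exact_mod_cast h1.symm
  let b := Module.finBasisOfFinrankEq ℂ R hfin
  have hcol : ∀ j, ∃ α β : ℂ, ∀ i, f i j = α * (b 0 : Fin s → ℂ) i + β * (b 1 : Fin s → ℂ) i := by
    intro j
    have h1 : f.mulVec (Pi.single j 1) ∈ R := ⟨Pi.single j 1, rfl⟩
    have h2 := b.sum_repr ⟨_, h1⟩
    rw [Fin.sum_univ_two] at h2
    have h4 := congrArg Subtype.val h2
    refine ⟨b.repr ⟨_, h1⟩ 0, b.repr ⟨_, h1⟩ 1, fun i => ?_⟩
    have h5 := congrFun h4 i
    have h6 : (f.mulVec (Pi.single j 1)) i = f i j := by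
      rw [Matrix.mulVec_single_one]
      rfl
    exact h6.symm.trans h5.symm
  choose α β hab using hcol
  obtain ⟨φ0, h00⟩ := LinearMap.exists_extend (b.coord 0)
  obtain ⟨φ1, h11⟩ := LinearMap.exists_extend (b.coord 1)
  have e00 : φ0 (b 0 : Fin s → ℂ) = 1 := by
    have h1 := congrArg (fun F : R →ₗ[ℂ] ℂ => F (b 0)) h00
    refine h1.trans ?_
    simp
  have e01 : φ0 (b 1 : Fin s → ℂ) = 0 := by
    have h1 := congrArg (fun F : R →ₗ[ℂ] ℂ => F (b 1)) h00
    refine h1.trans ?_
    simp
  have e10 : φ1 (b 0 : Fin s → ℂ) = 0 := by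
    have h1 := congrArg (fun F : R →ₗ[ℂ] ℂ => F (b 0)) h11
    refine h1.trans ?_
    simp
  have e11 : φ1 (b 1 : Fin s → ℂ) = 1 := by
    have h1 := congrArg (fun F : R →ₗ[ℂ] ℂ => F (b 1)) h11
    refine h1.trans ?_
    simp
  have hT : ∀ i j, f i j = -f j i := by
    intro i j
    have h1 := congrFun (congrFun hf j) i
    rw [Matrix.transpose_apply, Matrix.neg_apply] at h1
    exact h1
  have hvec : ∀ j, α j • (b 0 : Fin s → ℂ) + β j • (b 1 : Fin s → ℂ) =
      -((b 0 : Fin s → ℂ) j • α + (b 1 : Fin s → ℂ) j • β) := by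
    intro j
    funext i
    rw [Pi.add_apply, Pi.smul_apply, Pi.smul_apply, Pi.neg_apply, Pi.add_apply, Pi.smul_apply,
      Pi.smul_apply, smul_eq_mul, smul_eq_mul, smul_eq_mul, smul_eq_mul, ← hab j i, hT i j,
      hab i j]
    ring
  have hα : ∀ j, α j = -((b 0 : Fin s → ℂ) j * φ0 α + (b 1 : Fin s → ℂ) j * φ0 β) := by
    intro j
    have h1 := congrArg φ0 (hvec j)
    rw [map_add, map_smul, map_smul, map_neg, map_add, map_smul, map_smul, e00, e01] at h1
    simp only [smul_eq_mul] at h1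
    linear_combination h1
  have hβ : ∀ j, β j = -((b 0 : Fin s → ℂ) j * φ1 α + (b 1 : Fin s → ℂ) j * φ1 β) := by
    intro j
    have h1 := congrArg φ1 (hvec j)
    rw [map_add, map_smul, map_smul, map_neg, map_add, map_smul, map_smul, e10, e11] at h1
    simp only [smul_eq_mul] at h1
    linear_combination h1
  refine ⟨fun i => ((φ1 α - φ0 β) / 2) * (b 0 : Fin s → ℂ) i, fun i => (b 1 : Fin s → ℂ) i,
    fun i j => ?_⟩
  have h1 := hT i j
  have h2 := hab j i
  have h4 := hab i j
  rw [hα j, hβ j] at h2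
  rw [hα i, hβ i] at h4
  linear_combination (1 / 2) * h1 + (1 / 2) * h2 - (1 / 2) * h4

end Pool.Agent.R918.Sp

end
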