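import Pool.Agent.R918.SpA

set_option autoImplicit false
set_option linter.unusedSectionVars false
set_option linter.unusedVariables false

/-!
# Automorphisms of the Lie algebra of the skew-symmetric matrices: the trace form
-/

open Module Matrix

noncomputable section

namespace Pool.Agent.R918.Sp

variable {r s : ℕ}

/-- The image of the standard basis under an isomorphism between Lie algebras of skew-symmetric
matrices. -/
structure Aut (f : Fin r → Fin r → Matrix (Fin s) (Fin s) ℂ) : Prop where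
  sk : ∀ a b, (f a b)ᵀ = -f a b
  anti : ∀ a b, f b a = -f a b
  br : ∀ a b c, a ≠ b → b ≠ c → a ≠ c → f a b * f b c - f b c * f a b = f a c
  comm : ∀ a b c d, a ≠ c → a ≠ d → b ≠ c → b ≠ d → f a b * f c d = f c d * f a b
  span : ∀ A : Matrix (Fin s) (Fin s) ℂ, Aᵀ = -A →
    A ∈ Submodule.span ℂ {X | ∃ a b, X = f a b}

variable {f : Fin r → Fin r → Matrix (Fin s) (Fin s) ℂ} (h : Aut f)

namespace Aut

include h

theorem self (a : Fin r) : f a a = 0 := by
  have h1 := h.anti a a
  have h2 : (2 : ℂ) • f a a = 0 := by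
    rw [two_smul]
    nth_rewrite 1 [h1]
    exact neg_add_cancel _
  exact (smul_eq_zero.1 h2).resolve_left two_ne_zero

/-- another form of the bracket relation -/
theorem br' {a b c : Fin r} (h1 : a ≠ b) (h2 : a ≠ c) (h3 : b ≠ c) :
    f a c * f a b - f a b * f a c = f b c := by
  have h4 := h.br c a b (Ne.symm h2) h1 (Ne.symm h3)
  rw [h.anti a c, h.anti b c] at h4
  have h5 : f a c * f a b - f a b * f a c = -(-f a c * f a b - f a b * -f a c) := by
    noncomm_ring
  rw [h5, h4, neg_neg]

theorem tr_adj {a b c : Fin r} (h1 : a ≠ b) (h2 : b ≠ c) (h3 : a ≠ c) :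
    (f a b * f b c).trace = 0 := by
  rw [← h.br' h1 h3 h2, Matrix.mul_sub, Matrix.trace_sub, ← Matrix.mul_assoc, ← Matrix.mul_assoc,
    Matrix.trace_mul_comm (f a b * f a c) (f a b), ← Matrix.mul_assoc, sub_self]

theorem tr_disj (hr : 5 ≤ r) {a b c d : Fin r} (h1 : a ≠ b) (h2 : a ≠ c) (h3 : a ≠ d) (h4 : b ≠ c)
    (h5 : b ≠ d) (h6 : c ≠ d) : (f a b * f c d).trace = 0 := by
  obtain ⟨e, he⟩ : ∃ e : Fin r, e ∉ ({a, b, c, d} : Finset (Fin r)) := by
    by_contra hcon
    push Not at hcon
    have h7 : (Finset.univ : Finset (Fin r)) ⊆ {a, b, c, d} := fun e _ => hcon e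
    have h8 := Finset.card_le_card h7
    have h9 := Finset.card_le_four (a := a) (b := b) (c := c) (d := d)
    rw [Finset.card_univ, Fintype.card_fin] at h8
    omega
  simp only [Finset.mem_insert, Finset.mem_singleton, not_or] at he
  obtain ⟨ea, eb, ec, ed⟩ := he
  rw [← h.br a e b (Ne.symm ea) eb h1, Matrix.sub_mul, Matrix.trace_sub, Matrix.mul_assoc,
    h.comm e b c d ec ed h4 h5, ← Matrix.mul_assoc, Matrix.trace_mul_comm (f a e * f c d) (f e b),
    ← Matrix.mul_assoc, sub_self]

theorem tr_sq {a b c : Fin r} (h1 : a ≠ b) (h2 : b ≠ c) (h3 : a ≠ c) :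
    (f a c * f a c).trace = (f b c * f b c).trace := by
  have e1 : (f a c * (f a b * f b c - f b c * f a b)).trace =
      ((f a c * f a b - f a b * f a c) * f b c).trace := by
    rw [Matrix.mul_sub, Matrix.sub_mul, Matrix.trace_sub, Matrix.trace_sub, Matrix.mul_assoc,
      ← Matrix.mul_assoc (f a c) (f b c) (f a b), Matrix.trace_mul_comm (f a c * f b c) (f a b),
      ← Matrix.mul_assoc, Matrix.mul_assoc (f a b) (f a c) (f b c)]
  rw [h.br a b c h1 h2 h3, h.br' h1 h3 h2] at e1
  exact e1

theorem exists_const (hr : 5 ≤ r) : ∃ c0 : ℂ, ∀ a b c d, (f a b * f c d).trace =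
    c0 * ((if a = c ∧ b = d then 1 else 0) - if a = d ∧ b = c then 1 else 0) := by
  obtain ⟨t, ht⟩ : ∃ t : Fin r → Fin r → ℂ, ∀ a b, t a b = (f a b * f a b).trace :=
    ⟨_, fun a b => rfl⟩
  have hsym : ∀ a b, t a b = t b a := by
    intro a b
    rw [ht, ht, h.anti a b, neg_mul_neg]
  have hst : ∀ a b c, a ≠ b → b ≠ c → a ≠ c → t a c = t b c := by
    intro a b c h1 h2 h3
    rw [ht, ht, h.tr_sq h1 h2 h3]
  let i0 : Fin r := ⟨0, by omega⟩
  let i1 : Fin r := ⟨1, by omega⟩
  have h01 : i0 ≠ i1 := fun h => by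
    have := congrArg Fin.val h
    exact absurd this (by norm_num [i0, i1])
  have hst' : ∀ a b c, b ≠ c → a ≠ c → t a c = t b c := by
    intro a b c h2 h3
    by_cases h1 : a = b
    · rw [h1]
    · exact hst a b c h1 h2 h3
  have hconst : ∀ a b, a ≠ b → t a b = t i0 i1 := by
    intro a b hab
    by_cases h1 : b = i0
    · subst h1
      rw [hst' a i1 i0 (Ne.symm h01) hab, hsym]
    · rw [hst' a i0 b (Ne.symm h1) hab, hsym i0 b, hsym i0 i1]
      exact hst' b i1 i0 (Ne.symm h01) h1
  refine ⟨t i0 i1, fun a b c d => ?_⟩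
  by_cases hab : a = b
  · subst hab
    rw [h.self, Matrix.zero_mul, Matrix.trace_zero]
    by_cases h1 : a = c
    · by_cases h2 : a = d
      · rw [if_pos ⟨h1, h2⟩, if_pos ⟨h2, h1⟩, sub_self, mul_zero]
      · rw [if_neg (fun h => h2 h.2), if_neg (fun h => h2 h.1), sub_self, mul_zero]
    · rw [if_neg (fun h => h1 h.1), if_neg (fun h => h1 h.2), sub_self, mul_zero]
  by_cases hcd : c = d
  · subst hcd
    rw [h.self, Matrix.mul_zero, Matrix.trace_zero, if_neg, sub_self, mul_zero]
    rintro ⟨h1, h2⟩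
    exact hab (h1.trans h2.symm)
  by_cases h1 : a = c
  · subst h1
    by_cases h2 : b = d
    · subst h2
      rw [if_pos ⟨rfl, rfl⟩, if_neg (fun h => hab h.1), sub_zero, mul_one, ← ht, hconst a b hab]
    · rw [if_neg (fun h => h2 h.2), if_neg (fun h => hcd h.1), sub_self, mul_zero, h.anti b a,
        Matrix.neg_mul, Matrix.trace_neg, h.tr_adj (Ne.symm hab) hcd h2, neg_zero]
  · rw [if_neg (fun h => h1 h.1)]
    by_cases h2 : a = d
    · subst h2
      by_cases h3 : b = c
      · subst h3
        rw [if_pos ⟨rfl, rfl⟩, zero_sub, mul_neg, mul_one, h.anti a b, Matrix.mul_neg,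
          Matrix.trace_neg, ← ht, hconst a b hab]
      · rw [if_neg (fun h => h3 h.2), sub_zero, mul_zero, h.anti a c, h.anti b a,
          neg_mul_neg, h.tr_adj (Ne.symm hab) h1 h3]
    · rw [if_neg (fun h => h2 h.1), sub_zero, mul_zero]
      by_cases h3 : b = c
      · subst h3
        exact h.tr_adj hab hcd h2
      · by_cases h4 : b = d
        · subst h4
          rw [h.anti b c, Matrix.mul_neg, Matrix.trace_neg, h.tr_adj hab h3 h1, neg_zero]
        · exact h.tr_disj hr hab h1 h2 h3 h4 hcd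

end Aut

theorem tr_gg (X : Matrix (Fin s) (Fin s) ℂ) (p q : Fin s) :
    (gg p q * X).trace = X q p - X p q := by
  have h1 : ∀ i, (gg p q * X) i i = ((1 : Matrix (Fin s) (Fin s) ℂ) * gg p q * X) i i :=
    fun i => by rw [Matrix.one_mul]
  rw [Matrix.trace]
  simp only [Matrix.diag_apply, h1, gg_mid, Matrix.one_apply]
  rw [Finset.sum_sub_distrib]
  simp

theorem sum_gg {X : Matrix (Fin s) (Fin s) ℂ} (hX : Xᵀ = -X) :
    ∑ p, ∑ q, X p q • gg p q = (2 : ℂ) • X := by
  have h1 : ∀ a b : Fin s, ∑ p, ∑ q, X p q * (if p = a ∧ q = b then (1 : ℂ) else 0) = X a b := by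
    intro a b
    rw [Finset.sum_eq_single a, Finset.sum_eq_single b]
    · rw [if_pos ⟨rfl, rfl⟩, mul_one]
    · intro q _ hq
      rw [if_neg (fun h => hq h.2), mul_zero]
    · intro h; exact absurd (Finset.mem_univ _) h
    · intro p _ hp
      exact Finset.sum_eq_zero fun q _ => by rw [if_neg (fun h => hp h.1), mul_zero]
    · intro h; exact absurd (Finset.mem_univ _) h
  ext a b
  have h2 : ∀ p q, (X p q • gg p q) a b = X p q * (if p = a ∧ q = b then (1 : ℂ) else 0) -
      X p q * (if p = b ∧ q = a then (1 : ℂ) else 0) := by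
    intro p q
    unfold gg
    rw [Matrix.smul_apply, Matrix.sub_apply, Matrix.single_apply, Matrix.single_apply, smul_eq_mul,
      mul_sub]
    congr 2
    by_cases h : q = a ∧ p = b
    · rw [if_pos h, if_pos ⟨h.2, h.1⟩]
    · rw [if_neg h, if_neg (fun h' => h ⟨h'.2, h'.1⟩)]
  rw [Matrix.sum_apply]
  have h3 : ∀ p, (∑ q, X p q • gg p q) a b = ∑ q, (X p q * (if p = a ∧ q = b then (1 : ℂ) else 0) -
      X p q * (if p = b ∧ q = a then (1 : ℂ) else 0)) := by
    intro p
    rw [Matrix.sum_apply]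
    exact Finset.sum_congr rfl fun q _ => h2 p q
  rw [Finset.sum_congr rfl fun p _ => h3 p]
  simp only [Finset.sum_sub_distrib]
  rw [h1 a b, h1 b a, Matrix.smul_apply, smul_eq_mul]
  have h4 := congrFun (congrFun hX a) b
  rw [Matrix.transpose_apply, Matrix.neg_apply] at h4
  rw [h4]
  ring

/-- the constant of the trace form is not zero -/
theorem const_ne (h : Aut f) (hs : 2 ≤ s) {c0 : ℂ}
    (hc : ∀ a b c d, (f a b * f c d).trace =
      c0 * ((if a = c ∧ b = d then 1 else 0) - if a = d ∧ b = c then 1 else 0)) : c0 ≠ 0 := by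
  intro h0
  have key : ∀ X ∈ Submodule.span ℂ {X | ∃ a b, X = f a b},
      ∀ Y ∈ Submodule.span ℂ {X | ∃ a b, X = f a b}, (X * Y).trace = 0 := by
    intro X hX
    induction hX using Submodule.span_induction with
    | mem X hX =>
      obtain ⟨a, b, rfl⟩ := hX
      intro Y hY
      induction hY using Submodule.span_induction with
      | mem Y hY =>
        obtain ⟨c, d, rfl⟩ := hY
        rw [hc, h0, zero_mul]
      | zero => rw [Matrix.mul_zero, Matrix.trace_zero]
      | add x y _ _ hx hy => rw [Matrix.mul_add, Matrix.trace_add, hx, hy, add_zero]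
      | smul c x _ hx => rw [Matrix.mul_smul, Matrix.trace_smul, hx, smul_zero]
    | zero => intro Y _; rw [Matrix.zero_mul, Matrix.trace_zero]
    | add x y _ _ hx hy =>
      intro Y hY
      rw [Matrix.add_mul, Matrix.trace_add, hx Y hY, hy Y hY, add_zero]
    | smul c x _ hx =>
      intro Y hY
      rw [Matrix.smul_mul, Matrix.trace_smul, hx Y hY, smul_zero]
  let p : Fin s := ⟨0, by omega⟩
  let q : Fin s := ⟨1, by omega⟩
  have hpq : p ≠ q := fun h => by
    have := congrArg Fin.val h
    exact absurd this (by norm_num [p, q])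
  have h1 := key (gg p q) (h.span _ (gg_skew p q)) (gg p q) (h.span _ (gg_skew p q))
  rw [tr_gg] at h1
  unfold gg at h1
  simp [Matrix.single_apply, hpq, Ne.symm hpq] at h1
  norm_num at h1

theorem expand (h : Aut f) {c0 : ℂ} (hc0 : c0 ≠ 0)
    (hc : ∀ a b c d, (f a b * f c d).trace =
      c0 * ((if a = c ∧ b = d then 1 else 0) - if a = d ∧ b = c then 1 else 0))
    {X : Matrix (Fin s) (Fin s) ℂ} (hX : Xᵀ = -X) :
    (2 * c0) • X = ∑ a, ∑ b, (X * f a b).trace • f a b := by
  have h1 := h.span X hX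
  clear hX
  induction h1 using Submodule.span_induction with
  | mem X hX =>
    obtain ⟨c, d, rfl⟩ := hX
    have h2 : ∀ c d : Fin r, ∑ a, ∑ b, (c0 * (if c = a ∧ d = b then (1 : ℂ) else 0)) • f a b =
        c0 • f c d := by
      intro c d
      rw [Finset.sum_eq_single c, Finset.sum_eq_single d]
      · rw [if_pos ⟨rfl, rfl⟩, mul_one]
      · intro q _ hq
        rw [if_neg (fun h => hq h.2.symm), mul_zero, zero_smul]
      · intro h; exact absurd (Finset.mem_univ _) h
      · intro p _ hp
        exact Finset.sum_eq_zero fun q _ => by rw [if_neg (fun h => hp h.1.symm), mul_zero, zero_smul]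
      · intro h; exact absurd (Finset.mem_univ _) h
    have h3 : ∀ a b, (f c d * f a b).trace • f a b =
        (c0 * (if c = a ∧ d = b then (1 : ℂ) else 0)) • f a b -
          (c0 * (if d = a ∧ c = b then (1 : ℂ) else 0)) • f a b := by
      intro a b
      rw [hc, ← sub_smul, ← mul_sub]
      congr 3
      by_cases h' : c = b ∧ d = a
      · rw [if_pos h', if_pos ⟨h'.2, h'.1⟩]
      · rw [if_neg h', if_neg (fun h'' => h' ⟨h''.2, h''.1⟩)]
    simp only [h3, Finset.sum_sub_distrib]
    rw [h2 c d, h2 d c, h.anti c d]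
    module
  | zero =>
    rw [smul_zero]
    symm
    refine Finset.sum_eq_zero fun a _ => Finset.sum_eq_zero fun b _ => ?_
    rw [Matrix.zero_mul, Matrix.trace_zero, zero_smul]
  | add x y _ _ hx hy =>
    rw [smul_add, hx, hy, ← Finset.sum_add_distrib]
    refine Finset.sum_congr rfl fun a _ => ?_
    rw [← Finset.sum_add_distrib]
    refine Finset.sum_congr rfl fun b _ => ?_
    rw [Matrix.add_mul, Matrix.trace_add, add_smul]
  | smul c x _ hx =>
    rw [smul_comm, hx, Finset.smul_sum]
    refine Finset.sum_congr rfl fun a _ => ?_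
    rw [Finset.smul_sum]
    refine Finset.sum_congr rfl fun b _ => ?_
    rw [Matrix.smul_mul, Matrix.trace_smul, smul_smul, smul_eq_mul]

/-- Change of the orthogonal basis. -/
theorem complete (h : Aut f) {c0 : ℂ} (hc0 : c0 ≠ 0)
    (hc : ∀ a b c d, (f a b * f c d).trace =
      c0 * ((if a = c ∧ b = d then 1 else 0) - if a = d ∧ b = c then 1 else 0))
    (B : Matrix (Fin s) (Fin s) ℂ →ₗ[ℂ] Matrix (Fin s) (Fin s) ℂ →ₗ[ℂ] ℂ) :
    c0 * ∑ p, ∑ q, B (gg p q) (gg p q) = -2 * ∑ a, ∑ b, B (f a b) (f a b) := by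
  have h1 : ∀ p q, c0 • gg p q = ∑ a, ∑ b, (-f a b p q) • f a b := by
    intro p q
    have h2 := expand h hc0 hc (gg_skew p q)
    have h3 : ∀ a b, (gg p q * f a b).trace = -2 * f a b p q := by
      intro a b
      rw [tr_gg]
      have h4 := congrFun (congrFun (h.sk a b) p) q
      rw [Matrix.transpose_apply, Matrix.neg_apply] at h4
      rw [h4]
      ring
    simp only [h3] at h2
    have h4 : c0 • gg p q = (2⁻¹ : ℂ) • ((2 * c0) • gg p q) := by
      rw [smul_smul]
      congr 1
      ring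
    rw [h4, h2, Finset.smul_sum]
    refine Finset.sum_congr rfl fun a _ => ?_
    rw [Finset.smul_sum]
    refine Finset.sum_congr rfl fun b _ => ?_
    rw [smul_smul]
    congr 1
    ring
  have h2 : ∀ p q, c0 * B (gg p q) (gg p q) = ∑ a, ∑ b, -(f a b p q * B (f a b) (gg p q)) := by
    intro p q
    have h3 : c0 * B (gg p q) (gg p q) = B (c0 • gg p q) (gg p q) := by
      rw [map_smul, LinearMap.smul_apply, smul_eq_mul]
    rw [h3, h1, map_sum, LinearMap.sum_apply]
    refine Finset.sum_congr rfl fun a _ => ?_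
    rw [map_sum, LinearMap.sum_apply]
    refine Finset.sum_congr rfl fun b _ => ?_
    rw [map_smul, LinearMap.smul_apply, smul_eq_mul, neg_mul]
  rw [Finset.mul_sum]
  simp only [Finset.mul_sum, h2]
  have h3 : ∀ a b, ∑ p, ∑ q, f a b p q * B (f a b) (gg p q) = 2 * B (f a b) (f a b) := by
    intro a b
    have h4 : (2 : ℂ) * B (f a b) (f a b) = B (f a b) ((2 : ℂ) • f a b) := by
      rw [map_smul, smul_eq_mul]
    rw [h4, ← sum_gg (h.sk a b), map_sum]
    refine Finset.sum_congr rfl fun p _ => ?_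
    rw [map_sum]
    refine Finset.sum_congr rfl fun q _ => ?_
    rw [map_smul, smul_eq_mul]
  calc ∑ p, ∑ q, ∑ a, ∑ b, -(f a b p q * B (f a b) (gg p q))
      = ∑ p, ∑ a, ∑ b, ∑ q, -(f a b p q * B (f a b) (gg p q)) := by
        refine Finset.sum_congr rfl fun p _ => ?_
        rw [Finset.sum_comm]
        refine Finset.sum_congr rfl fun a _ => ?_
        rw [Finset.sum_comm]
    _ = ∑ a, ∑ b, ∑ p, ∑ q, -(f a b p q * B (f a b) (gg p q)) := by
        rw [Finset.sum_comm]
        refine Finset.sum_congr rfl fun a _ => ?_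
        rw [Finset.sum_comm]
    _ = _ := by
        refine Finset.sum_congr rfl fun a _ => Finset.sum_congr rfl fun b _ => ?_
        simp only [Finset.sum_neg_distrib]
        rw [h3]
        ring

end Pool.Agent.R918.Sp

end
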