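import Pool.Agent.R918.SpB

set_option autoImplicit false
set_option linter.unusedSectionVars false
set_option linter.unusedVariables false

/-!
# Automorphisms of the Lie algebra of the skew-symmetric matrices: the normalization
-/

open Module Matrix

noncomputable section

namespace Pool.Agent.R918.Sp

variable {r s : ℕ}

/-- the trace form -/
def trF (s : ℕ) : Matrix (Fin s) (Fin s) ℂ →ₗ[ℂ] Matrix (Fin s) (Fin s) ℂ →ₗ[ℂ] ℂ :=
  LinearMap.mk₂ ℂ (fun X Y => (X * Y).trace)
    (fun X X' Y => by rw [Matrix.add_mul, Matrix.trace_add])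
    (fun c X Y => by rw [Matrix.smul_mul, Matrix.trace_smul])
    (fun X Y Y' => by rw [Matrix.mul_add, Matrix.trace_add])
    (fun c X Y => by rw [Matrix.mul_smul, Matrix.trace_smul])

theorem trF_apply (X Y : Matrix (Fin s) (Fin s) ℂ) : trF s X Y = (X * Y).trace := rfl

/-- the bracket with `Z` -/
def adM (Z : Matrix (Fin s) (Fin s) ℂ) :
    Matrix (Fin s) (Fin s) ℂ →ₗ[ℂ] Matrix (Fin s) (Fin s) ℂ where
  toFun X := Z * X - X * Z
  map_add' X Y := by rw [Matrix.mul_add, Matrix.add_mul]; abel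
  map_smul' c X := by rw [Matrix.mul_smul, Matrix.smul_mul, RingHom.id_apply, smul_sub]

theorem adM_apply (Z X : Matrix (Fin s) (Fin s) ℂ) : adM Z X = Z * X - X * Z := rfl

theorem sum_offdiag (n : ℕ) : ∑ a : Fin n, ∑ b : Fin n, (1 - if a = b then (1 : ℂ) else 0) =
    (n : ℂ) * n - n := by
  simp only [Finset.sum_sub_distrib, Finset.sum_ite_eq, Finset.mem_univ, if_true,
    Finset.sum_const, Finset.card_univ, Fintype.card_fin, nsmul_eq_mul, mul_one]

theorem gg_self_apply (p q : Fin s) : gg p q p q = 1 - if p = q then (1 : ℂ) else 0 := by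
  unfold gg
  rw [Matrix.sub_apply, Matrix.single_apply, Matrix.single_apply, if_pos ⟨rfl, rfl⟩]
  by_cases h : p = q
  · rw [if_pos ⟨h.symm, h⟩, if_pos h]
  · rw [if_neg (fun h' => h h'.2), if_neg h]


variable {f : Fin r → Fin r → Matrix (Fin s) (Fin s) ℂ}

theorem sizes (h : Aut f) (hr : 5 ≤ r) (hs : 2 ≤ s) : s = r := by
  obtain ⟨c0, hc⟩ := h.exists_const hr
  have hc0 := const_ne h hs hc
  have h1 := complete h hc0 hc (trF s)
  have h2 : ∀ p q : Fin s, trF s (gg p q) (gg p q) =
      -2 * (1 - if p = q then (1 : ℂ) else 0) := by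
    intro p q
    rw [trF_apply, tr_gg, ← gg_self_apply p q]
    have h4 := congrFun (congrFun (gg_skew p q) p) q
    rw [Matrix.transpose_apply, Matrix.neg_apply] at h4
    rw [h4]
    ring
  have h3 : ∀ a b : Fin r, trF s (f a b) (f a b) =
      c0 * (1 - if a = b then (1 : ℂ) else 0) := by
    intro a b
    rw [trF_apply, hc, if_pos ⟨rfl, rfl⟩]
    by_cases hab : a = b
    · rw [if_pos ⟨hab, hab.symm⟩, if_pos hab]
    · rw [if_neg (fun h => hab h.1), if_neg hab]
  simp only [h2, h3, ← Finset.mul_sum, sum_offdiag] at h1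
  have h4 : ((s : ℂ) * s - s) = (r : ℂ) * r - r := by
    have h5 : c0 * ((s : ℂ) * s - s) = c0 * ((r : ℂ) * r - r) := by linear_combination (-1/2) * h1
    exact mul_left_cancel₀ hc0 h5
  have h5 : (s : ℂ) * s + r = (r : ℂ) * r + s := by linear_combination h4
  have h6 : s * s + r = r * r + s := by exact_mod_cast h5
  rcases Nat.lt_trichotomy s r with h7 | h7 | h7
  · exfalso
    obtain ⟨t, rfl⟩ := Nat.exists_eq_add_of_lt h7
    nlinarith
  · exact h7
  · exfalso
    obtain ⟨t, rfl⟩ := Nat.exists_eq_add_of_lt h7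
    nlinarith

theorem tr_gg_gg (X Y : Matrix (Fin s) (Fin s) ℂ) (p q : Fin s) :
    (gg p q * X * gg p q * Y).trace =
      X q p * Y q p - X q q * Y p p - X p p * Y q q + X p q * Y p q := by
  rw [Matrix.mul_assoc, Matrix.mul_assoc, tr_gg, ← Matrix.mul_assoc, gg_mid, gg_mid]
  ring

theorem sum_tr_gg_gg (X Y : Matrix (Fin s) (Fin s) ℂ) :
    ∑ p, ∑ q, (gg p q * X * gg p q * Y).trace =
      2 * (X * Yᵀ).trace - 2 * (X.trace * Y.trace) := by
  have h1 : ∑ p, ∑ q, X p q * Y p q = (X * Yᵀ).trace := by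
    rw [Matrix.trace]
    refine Finset.sum_congr rfl fun p _ => ?_
    rw [Matrix.diag_apply, Matrix.mul_apply]
    rfl
  have h2 : ∑ p, ∑ q, X q p * Y q p = (X * Yᵀ).trace := by
    rw [Finset.sum_comm, h1]
  have h3 : ∑ p, ∑ q, X p p * Y q q = X.trace * Y.trace := by
    rw [Matrix.trace, Matrix.trace, Finset.sum_mul_sum]
    rfl
  have h4 : ∑ p, ∑ q, X q q * Y p p = X.trace * Y.trace := by
    rw [Finset.sum_comm, h3]
  simp only [tr_gg_gg, Finset.sum_add_distrib, Finset.sum_sub_distrib]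
  rw [h1, h2, h3, h4]
  ring

theorem killing_gg {Z : Matrix (Fin s) (Fin s) ℂ} (hZ : Zᵀ = -Z) :
    ∑ p, ∑ q, (adM Z (gg p q) * adM Z (gg p q)).trace = 4 * ((s : ℂ) - 2) * (Z * Z).trace := by
  have h1 : ∀ p q : Fin s, (adM Z (gg p q) * adM Z (gg p q)).trace =
      2 * (gg p q * Z * gg p q * Z).trace - 2 * (gg p q * 1 * gg p q * (Z * Z)).trace := by
    intro p q
    rw [adM_apply]
    obtain ⟨G, hG⟩ : ∃ G, G = gg p q := ⟨_, rfl⟩
    rw [← hG]
    have e1 : (Z * G - G * Z) * (Z * G - G * Z) =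
        Z * (G * Z * G) - Z * (G * (G * Z)) - G * (Z * (Z * G)) + G * Z * G * Z := by
      noncomm_ring
    rw [e1, Matrix.trace_add, Matrix.trace_sub, Matrix.trace_sub, Matrix.trace_mul_comm Z,
      Matrix.trace_mul_comm Z, Matrix.trace_mul_comm G (Z * (Z * G))]
    have e2 : G * (G * Z) * Z = G * 1 * G * (Z * Z) := by noncomm_ring
    have e3 : (Z * (Z * G) * G).trace = (G * 1 * G * (Z * Z)).trace := by
      rw [Matrix.trace_mul_comm (G * 1 * G) (Z * Z)]
      congr 1
      noncomm_ring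
    rw [e2, e3]
    ring
  simp only [h1, Finset.sum_sub_distrib, ← Finset.mul_sum]
  rw [sum_tr_gg_gg, sum_tr_gg_gg, trace_skew hZ, Matrix.trace_one, Fintype.card_fin, hZ,
    Matrix.one_mul, Matrix.transpose_mul, hZ, neg_mul_neg, Matrix.mul_neg, Matrix.trace_neg]
  ring

theorem killing_f (h : Aut f) {c0 : ℂ}
    (hc : ∀ a b c d, (f a b * f c d).trace =
      c0 * ((if a = c ∧ b = d then 1 else 0) - if a = d ∧ b = c then 1 else 0))
    {i j : Fin r} (hij : i ≠ j) :
    ∑ a, ∑ b, (adM (f i j) (f a b) * adM (f i j) (f a b)).trace = 4 * ((r : ℂ) - 2) * c0 := by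
  obtain ⟨x, hx⟩ : ∃ x : Fin r → ℂ, ∀ a, x a = if a = i ∨ a = j then 1 else 0 := ⟨_, fun a => rfl⟩
  have hxi : x i = 1 := by rw [hx, if_pos (Or.inl rfl)]
  have hxj : x j = 1 := by rw [hx, if_pos (Or.inr rfl)]
  have hx0 : ∀ a, a ≠ i → a ≠ j → x a = 0 := fun a h1 h2 => by
    rw [hx, if_neg]
    rintro (h | h)
    · exact h1 h
    · exact h2 h
  have hsq : ∀ a b, a ≠ b → (f a b * f a b).trace = c0 := by
    intro a b hab
    rw [hc, if_pos ⟨rfl, rfl⟩, if_neg (fun h => hab h.1), sub_zero, mul_one]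
  -- the brackets
  have b1 : ∀ b, b ≠ i → b ≠ j → adM (f i j) (f j b) = f i b := fun b h1 h2 => by
    rw [adM_apply]
    exact h.br i j b hij (Ne.symm h2) (Ne.symm h1)
  have b2 : ∀ b, b ≠ i → b ≠ j → adM (f i j) (f i b) = -f j b := fun b h1 h2 => by
    rw [adM_apply, ← h.br' hij (Ne.symm h1) (Ne.symm h2)]
    abel
  have hneg : ∀ a b, (adM (f i j) (f b a) * adM (f i j) (f b a)).trace =
      (adM (f i j) (f a b) * adM (f i j) (f a b)).trace := by
    intro a b
    rw [h.anti a b, map_neg, neg_mul_neg]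
  have key : ∀ a b, (adM (f i j) (f a b) * adM (f i j) (f a b)).trace =
      c0 * (x a - x b) ^ 2 := by
    intro a b
    by_cases hab : a = b
    · subst hab
      rw [h.self, map_zero, Matrix.zero_mul, Matrix.trace_zero, sub_self]
      ring
    by_cases ha : a = i ∨ a = j
    · by_cases hb : b = i ∨ b = j
      · have h0 : adM (f i j) (f a b) = 0 := by
          rcases ha with rfl | rfl <;> rcases hb with rfl | rfl
          · exact absurd rfl hab
          · rw [adM_apply, sub_self]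
          · rw [h.anti b a, adM_apply, Matrix.mul_neg, Matrix.neg_mul, sub_self]
          · exact absurd rfl hab
        rw [h0, Matrix.zero_mul, Matrix.trace_zero, hx, hx, if_pos ha, if_pos hb, sub_self]
        ring
      · push Not at hb
        rcases ha with rfl | rfl
        · rw [b2 b hb.1 hb.2, neg_mul_neg, hsq j b (Ne.symm hb.2), hxi, hx0 b hb.1 hb.2]
          ring
        · rw [b1 b hb.1 hb.2, hsq i b (Ne.symm hb.1), hxj, hx0 b hb.1 hb.2]
          ring
    · push Not at ha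
      by_cases hb : b = i ∨ b = j
      · rw [← hneg]
        rcases hb with rfl | rfl
        · rw [b2 a ha.1 ha.2, neg_mul_neg, hsq j a (Ne.symm ha.2), hxi, hx0 a ha.1 ha.2]
          ring
        · rw [b1 a ha.1 ha.2, hsq i a (Ne.symm ha.1), hxj, hx0 a ha.1 ha.2]
          ring
      · push Not at hb
        rw [adM_apply, h.comm i j a b (Ne.symm ha.1) (Ne.symm hb.1) (Ne.symm ha.2) (Ne.symm hb.2),
          sub_self, Matrix.zero_mul, Matrix.trace_zero, hx0 a ha.1 ha.2, hx0 b hb.1 hb.2]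
        ring
  have hsum : ∑ a, x a = 2 := by
    have h1 : ∀ a, x a = (if a = i then (1 : ℂ) else 0) + if a = j then (1 : ℂ) else 0 := by
      intro a
      by_cases h1 : a = i
      · have h2 : a ≠ j := fun h => hij (h1.symm.trans h)
        rw [hx, if_pos (Or.inl h1), if_pos h1, if_neg h2, add_zero]
      · by_cases h2 : a = j
        · rw [hx, if_pos (Or.inr h2), if_neg h1, if_pos h2, zero_add]
        · rw [hx0 a h1 h2, if_neg h1, if_neg h2, add_zero]
    rw [Finset.sum_congr rfl fun a _ => h1 a, Finset.sum_add_distrib, Finset.sum_ite_eq',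
      Finset.sum_ite_eq', if_pos (Finset.mem_univ _), if_pos (Finset.mem_univ _)]
    norm_num
  have hxx : ∀ a, x a ^ 2 = x a := by
    intro a
    rw [hx]
    split_ifs <;> norm_num
  have hexp : ∀ a b, c0 * (x a - x b) ^ 2 = c0 * x a + c0 * x b - 2 * c0 * (x a * x b) := by
    intro a b
    linear_combination c0 * hxx a + c0 * hxx b
  simp only [key, hexp, Finset.sum_sub_distrib, Finset.sum_add_distrib, ← Finset.mul_sum, hsum,
    Finset.sum_const, Finset.card_univ, Fintype.card_fin, nsmul_eq_mul, ← Finset.sum_mul]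
  ring

/-- the normalization of the trace form -/
theorem const_eq (h : Aut f) (hr : 5 ≤ r) (hs : 2 ≤ s) {c0 : ℂ}
    (hc : ∀ a b c d, (f a b * f c d).trace =
      c0 * ((if a = c ∧ b = d then 1 else 0) - if a = d ∧ b = c then 1 else 0)) : c0 = -2 := by
  have hc0 := const_ne h hs hc
  have hsr := sizes h hr hs
  let i : Fin r := ⟨0, by omega⟩
  let j : Fin r := ⟨1, by omega⟩
  have hij : i ≠ j := fun h => by
    have := congrArg Fin.val h
    exact absurd this (by norm_num [i, j])
  let B : Matrix (Fin s) (Fin s) ℂ →ₗ[ℂ] Matrix (Fin s) (Fin s) ℂ →ₗ[ℂ] ℂ :=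
    (trF s).compl₁₂ (adM (f i j)) (adM (f i j))
  have h1 := complete h hc0 hc B
  have h2 : ∀ X, B X X = (adM (f i j) X * adM (f i j) X).trace := fun X => rfl
  simp only [h2] at h1
  rw [killing_gg (h.sk i j), killing_f h hc hij, hc i j i j, if_pos ⟨rfl, rfl⟩,
    if_neg (fun h => hij h.1), sub_zero, mul_one, hsr] at h1
  have h3 : (4 * ((r : ℂ) - 2) * c0) * c0 = (4 * ((r : ℂ) - 2) * c0) * (-2) := by
    linear_combination h1
  refine mul_left_cancel₀ (mul_ne_zero (mul_ne_zero (by norm_num) ?_) hc0) h3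
  intro h4
  have h5 : (r : ℂ) = 2 := by linear_combination h4
  have h6 : r = 2 := by exact_mod_cast h5
  omega

end Pool.Agent.R918.Sp

end
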