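import Pool.Agent.R918.SpC
import Pool.Agent.Y102.SP.Cl

set_option autoImplicit false
set_option linter.unusedSectionVars false
set_option linter.unusedVariables false

/-!
# Clifford systems and skew-symmetric matrices
-/

open Module Matrix

noncomputable section

namespace Pool.Agent.R918.Sp

open Pool.Agent.Y102.SP

variable {s : ℕ} {U : Type} [AddCommGroup U] [Module ℂ U] {E : Fin s → Module.End ℂ U}

/-- The element of the Clifford algebra given by a matrix. -/
def rc (E : Fin s → Module.End ℂ U) : Matrix (Fin s) (Fin s) ℂ →ₗ[ℂ] Module.End ℂ U where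
  toFun M := (2⁻¹ : ℂ) • ∑ p, ∑ q, M p q • (E p * E q)
  map_add' M N := by
    rw [← smul_add, ← Finset.sum_add_distrib]
    congr 1
    refine Finset.sum_congr rfl fun p _ => ?_
    rw [← Finset.sum_add_distrib]
    refine Finset.sum_congr rfl fun q _ => ?_
    rw [Matrix.add_apply, add_smul]
  map_smul' c M := by
    rw [RingHom.id_apply, smul_comm c (2⁻¹ : ℂ)]
    congr 1
    rw [Finset.smul_sum]
    refine Finset.sum_congr rfl fun p _ => ?_
    rw [Finset.smul_sum]
    refine Finset.sum_congr rfl fun q _ => ?_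
    rw [Matrix.smul_apply, smul_eq_mul, mul_smul]

theorem rc_apply (M : Matrix (Fin s) (Fin s) ℂ) :
    rc E M = (2⁻¹ : ℂ) • ∑ p, ∑ q, M p q • (E p * E q) := rfl

theorem rc_gg (hE : CE E) {a b : Fin s} (hab : a ≠ b) : rc E (gg a b) = E a * E b := by
  have h2 : ∀ c d : Fin s, ∑ p, ∑ q, (if c = p ∧ d = q then (1 : ℂ) else 0) • (E p * E q) =
      E c * E d := by
    intro c d
    rw [Finset.sum_eq_single c, Finset.sum_eq_single d]
    · rw [if_pos ⟨rfl, rfl⟩, one_smul]
    · intro q _ hq
      rw [if_neg (fun h => hq h.2.symm), zero_smul]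
    · intro h; exact absurd (Finset.mem_univ _) h
    · intro p _ hp
      exact Finset.sum_eq_zero fun q _ => by rw [if_neg (fun h => hp h.1.symm), zero_smul]
    · intro h; exact absurd (Finset.mem_univ _) h
  have h3 : ∀ p q, gg a b p q • (E p * E q) =
      (if a = p ∧ b = q then (1 : ℂ) else 0) • (E p * E q) -
        (if b = p ∧ a = q then (1 : ℂ) else 0) • (E p * E q) := by
    intro p q
    unfold gg
    rw [Matrix.sub_apply, Matrix.single_apply, Matrix.single_apply, sub_smul]
  rw [rc_apply]
  simp only [h3, Finset.sum_sub_distrib]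
  rw [h2, h2, hE.anti b a (Ne.symm hab)]
  module

theorem anti_all (hE : CE E) (p q : Fin s) :
    E p * E q + E q * E p = (if p = q then (2 : ℂ) else 0) • (1 : Module.End ℂ U) := by
  by_cases h : p = q
  · subst h
    rw [if_pos rfl, hE.sq, two_smul]
  · rw [if_neg h, hE.anti p q h, zero_smul, neg_add_cancel]

theorem rc_vec (hE : CE E) {M : Matrix (Fin s) (Fin s) ℂ} (hM : Mᵀ = -M) (u : Fin s) :
    rc E M * E u - E u * rc E M = (2 : ℂ) • ∑ p, M p u • E p := by
  have hT : ∀ p q, M q p = -M p q := by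
    intro p q
    have h1 := congrFun (congrFun hM p) q
    rw [Matrix.transpose_apply, Matrix.neg_apply] at h1
    exact h1
  have h1 : ∀ p q, E p * E q * E u - E u * (E p * E q) =
      (if q = u then (2 : ℂ) else 0) • E p - (if p = u then (2 : ℂ) else 0) • E q := by
    intro p q
    have e1 := anti_all hE q u
    have e2 := anti_all hE p u
    have e3 : E p * E q * E u - E u * (E p * E q) =
        E p * (E q * E u + E u * E q) - (E p * E u + E u * E p) * E q := by noncomm_ring
    rw [e3, e1, e2, mul_smul_comm, smul_mul_assoc, mul_one, one_mul]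
  have h2 : rc E M * E u - E u * rc E M =
      (2⁻¹ : ℂ) • ∑ p, ∑ q, M p q • (E p * E q * E u - E u * (E p * E q)) := by
    rw [rc_apply, smul_mul_assoc, mul_smul_comm, ← smul_sub, Finset.sum_mul, Finset.mul_sum,
      ← Finset.sum_sub_distrib]
    congr 1
    refine Finset.sum_congr rfl fun p _ => ?_
    rw [Finset.sum_mul, Finset.mul_sum, ← Finset.sum_sub_distrib]
    refine Finset.sum_congr rfl fun q _ => ?_
    rw [smul_mul_assoc, mul_smul_comm, ← smul_sub]
  have h3 : ∑ p, ∑ q, M p q • ((if q = u then (2 : ℂ) else 0) • E p) =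
      (2 : ℂ) • ∑ p, M p u • E p := by
    rw [Finset.smul_sum]
    refine Finset.sum_congr rfl fun p _ => ?_
    rw [Finset.sum_eq_single u]
    · rw [if_pos rfl, smul_comm]
    · intro q _ hq
      rw [if_neg hq, zero_smul, smul_zero]
    · intro h; exact absurd (Finset.mem_univ _) h
  have h4 : ∑ p, ∑ q, M p q • ((if p = u then (2 : ℂ) else 0) • E q) =
      -((2 : ℂ) • ∑ p, M p u • E p) := by
    rw [Finset.sum_comm, Finset.smul_sum, ← Finset.sum_neg_distrib]
    refine Finset.sum_congr rfl fun q _ => ?_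
    rw [Finset.sum_eq_single u]
    · rw [if_pos rfl, smul_comm, hT q u]
      module
    · intro p _ hp
      rw [if_neg hp, zero_smul, smul_zero]
    · intro h; exact absurd (Finset.mem_univ _) h
  rw [h2]
  simp only [h1, smul_sub, Finset.sum_sub_distrib]
  rw [h3, h4]
  module

theorem rc_br (hE : CE E) {M N : Matrix (Fin s) (Fin s) ℂ} (hM : Mᵀ = -M) (hN : Nᵀ = -N) :
    rc E M * rc E N - rc E N * rc E M = (2 : ℂ) • rc E (M * N - N * M) := by
  have h1 : ∀ p q, rc E M * (E p * E q) - E p * E q * rc E M =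
      ∑ l, ((2 * M l p) • (E l * E q) + (2 * M l q) • (E p * E l)) := by
    intro p q
    have e1 := rc_vec hE hM p
    have e2 := rc_vec hE hM q
    have e3 : rc E M * (E p * E q) - E p * E q * rc E M =
        (rc E M * E p - E p * rc E M) * E q + E p * (rc E M * E q - E q * rc E M) := by
      noncomm_ring
    rw [e3, e1, e2, smul_mul_assoc, mul_smul_comm, Finset.sum_mul, Finset.mul_sum,
      Finset.smul_sum, Finset.smul_sum, ← Finset.sum_add_distrib]
    refine Finset.sum_congr rfl fun l _ => ?_
    rw [smul_mul_assoc, mul_smul_comm, smul_smul, smul_smul]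
  have h2 : rc E M * rc E N - rc E N * rc E M =
      (2⁻¹ : ℂ) • ∑ p, ∑ q, N p q • (rc E M * (E p * E q) - E p * E q * rc E M) := by
    rw [rc_apply N, mul_smul_comm, smul_mul_assoc, ← smul_sub, Finset.mul_sum, Finset.sum_mul,
      ← Finset.sum_sub_distrib]
    congr 1
    refine Finset.sum_congr rfl fun p _ => ?_
    rw [Finset.mul_sum, Finset.sum_mul, ← Finset.sum_sub_distrib]
    refine Finset.sum_congr rfl fun q _ => ?_
    rw [mul_smul_comm, smul_mul_assoc, ← smul_sub]
  have hMT : ∀ l q, M l q = -M q l := by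
    intro l q
    have h1 := congrFun (congrFun hM q) l
    rw [Matrix.transpose_apply, Matrix.neg_apply] at h1
    exact h1
  have h3 : ∑ p, ∑ q, ∑ l, N p q • ((2 * M l p) • (E l * E q)) =
      (2 : ℂ) • ∑ l, ∑ q, (M * N) l q • (E l * E q) := by
    have e1 : ∀ l q, (2 : ℂ) • ((M * N) l q • (E l * E q)) =
        ∑ p, N p q • ((2 * M l p) • (E l * E q)) := by
      intro l q
      rw [Matrix.mul_apply, Finset.sum_smul, Finset.smul_sum]
      refine Finset.sum_congr rfl fun p _ => ?_
      rw [smul_smul, smul_smul]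
      congr 1
      ring
    rw [Finset.smul_sum]
    simp only [Finset.smul_sum, e1]
    rw [Finset.sum_comm]
    calc ∑ q, ∑ p, ∑ l, N p q • ((2 * M l p) • (E l * E q))
        = ∑ q, ∑ l, ∑ p, N p q • ((2 * M l p) • (E l * E q)) :=
          Finset.sum_congr rfl fun q _ => Finset.sum_comm
      _ = _ := Finset.sum_comm
  have h4 : ∑ p, ∑ q, ∑ l, N p q • ((2 * M l q) • (E p * E l)) =
      (2 : ℂ) • ∑ p, ∑ l, (-(N * M)) p l • (E p * E l) := by
    have e1 : ∀ p l, (2 : ℂ) • ((-(N * M)) p l • (E p * E l)) =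
        ∑ q, N p q • ((2 * M l q) • (E p * E l)) := by
      intro p l
      rw [Matrix.neg_apply, Matrix.mul_apply, ← Finset.sum_neg_distrib, Finset.sum_smul,
        Finset.smul_sum]
      refine Finset.sum_congr rfl fun q _ => ?_
      rw [smul_smul, smul_smul, hMT l q]
      congr 1
      ring
    rw [Finset.smul_sum]
    simp only [Finset.smul_sum, e1]
    exact Finset.sum_congr rfl fun p _ => Finset.sum_comm
  have h5 : ∑ p, ∑ q, N p q • (rc E M * (E p * E q) - E p * E q * rc E M) =
      (2 : ℂ) • ∑ p, ∑ q, (M * N - N * M) p q • (E p * E q) := by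
    have h6 : ∀ p q, N p q • (rc E M * (E p * E q) - E p * E q * rc E M) =
        (∑ l, N p q • ((2 * M l p) • (E l * E q))) +
          ∑ l, N p q • ((2 * M l q) • (E p * E l)) := by
      intro p q
      rw [h1, Finset.smul_sum, ← Finset.sum_add_distrib]
      exact Finset.sum_congr rfl fun l _ => smul_add _ _ _
    simp only [h6, Finset.sum_add_distrib]
    rw [h3, h4, ← smul_add, ← Finset.sum_add_distrib]
    congr 1
    refine Finset.sum_congr rfl fun p _ => ?_
    rw [← Finset.sum_add_distrib]
    refine Finset.sum_congr rfl fun q _ => ?_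
    rw [← add_smul, Matrix.sub_apply, Matrix.neg_apply, sub_eq_add_neg]
  rw [h2, h5, rc_apply (M * N - N * M), smul_comm]

theorem rc_mem (hE : CE E) {M : Matrix (Fin s) (Fin s) ℂ} (hM : Mᵀ = -M) : rc E M ∈ soE E := by
  rw [rc_apply]
  refine Submodule.smul_mem _ _ (Submodule.sum_mem _ fun p _ => Submodule.sum_mem _ fun q _ => ?_)
  by_cases h : p = q
  · subst h
    have h1 := congrFun (congrFun hM p) p
    rw [Matrix.transpose_apply, Matrix.neg_apply] at h1
    have h2 : M p p = 0 := by
      have h3 : (2 : ℂ) * M p p = 0 := by linear_combination h1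
      exact (mul_eq_zero.1 h3).resolve_left two_ne_zero
    rw [h2, zero_smul]
    exact Submodule.zero_mem _
  · exact Submodule.smul_mem _ _ (Submodule.subset_span ⟨p, q, h, rfl⟩)

theorem exists_rc (hE : CE E) {x : Module.End ℂ U} (hx : x ∈ soE E) :
    ∃ M : Matrix (Fin s) (Fin s) ℂ, Mᵀ = -M ∧ rc E M = x := by
  unfold soE at hx
  induction hx using Submodule.span_induction with
  | mem x hx =>
    obtain ⟨a, b, hab, rfl⟩ := hx
    exact ⟨gg a b, gg_skew a b, rc_gg hE hab⟩
  | zero => exact ⟨0, by rw [Matrix.transpose_zero, neg_zero], map_zero _⟩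
  | add x y _ _ hx hy =>
    obtain ⟨M, h1, rfl⟩ := hx
    obtain ⟨N, h2, rfl⟩ := hy
    exact ⟨M + N, by rw [Matrix.transpose_add, h1, h2, neg_add], map_add _ _ _⟩
  | smul c x _ hx =>
    obtain ⟨M, h1, rfl⟩ := hx
    exact ⟨c • M, by rw [Matrix.transpose_smul, h1, smul_neg], map_smul _ _ _⟩

theorem rc_inj [Nontrivial U] (hE : CE E) {M : Matrix (Fin s) (Fin s) ℂ} (hM : Mᵀ = -M)
    (h0 : rc E M = 0) : M = 0 := by
  ext p u
  have h1 := rc_vec hE hM u
  rw [h0, zero_mul, mul_zero, sub_zero] at h1
  have h2 : (∑ q, M q u • E q) = 0 := (smul_eq_zero.1 h1.symm).resolve_left two_ne_zero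
  have h3 : (∑ q, M q u • E q) * E p + E p * (∑ q, M q u • E q) =
      (2 * M p u) • (1 : Module.End ℂ U) := by
    rw [Finset.sum_mul, Finset.mul_sum, ← Finset.sum_add_distrib, Finset.sum_eq_single p]
    · rw [smul_mul_assoc, mul_smul_comm, hE.sq]
      module
    · intro q _ hq
      rw [smul_mul_assoc, mul_smul_comm, ← smul_add, anti_all hE, if_neg hq, zero_smul, smul_zero]
    · intro h; exact absurd (Finset.mem_univ _) h
  rw [h2, zero_mul, mul_zero, add_zero] at h3
  have h4 := (smul_eq_zero.1 h3.symm).resolve_right one_ne_zero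
  rw [Matrix.zero_apply]
  exact (mul_eq_zero.1 h4).resolve_left two_ne_zero

/-- The square of a decomposable element. -/
theorem rc_sq (hE : CE E) {M : Matrix (Fin s) (Fin s) ℂ} {u v : Fin s → ℂ}
    (hM : ∀ i j, M i j = u i * v j - v i * u j) :
    rc E M * rc E M = ((M * M).trace / 2) • (1 : Module.End ℂ U) := by
  obtain ⟨d, hd⟩ : ∃ d : (Fin s → ℂ) → (Fin s → ℂ) → ℂ, ∀ u v, d u v = ∑ i, u i * v i :=
    ⟨_, fun u v => rfl⟩
  obtain ⟨w, hw⟩ : ∃ w : (Fin s → ℂ) → Module.End ℂ U, ∀ u, w u = ∑ i, u i • E i :=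
    ⟨_, fun u => rfl⟩
  have hww : ∀ u v, w u * w v + w v * w u = (2 * d u v) • (1 : Module.End ℂ U) := by
    intro u v
    have e1 : w u * w v = ∑ i, ∑ j, (u i * v j) • (E i * E j) := by
      rw [hw, hw, Finset.sum_mul]
      refine Finset.sum_congr rfl fun i _ => ?_
      rw [Finset.mul_sum]
      refine Finset.sum_congr rfl fun j _ => ?_
      rw [smul_mul_smul_comm]
    have e2 : w v * w u = ∑ i, ∑ j, (u i * v j) • (E j * E i) := by
      rw [hw, hw, Finset.sum_mul]
      simp only [Finset.mul_sum]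
      rw [Finset.sum_comm]
      refine Finset.sum_congr rfl fun i _ => ?_
      refine Finset.sum_congr rfl fun j _ => ?_
      rw [smul_mul_smul_comm, mul_comm (v j)]
    rw [e1, e2, ← Finset.sum_add_distrib, hd, Finset.mul_sum, Finset.sum_smul]
    refine Finset.sum_congr rfl fun i _ => ?_
    rw [← Finset.sum_add_distrib, Finset.sum_eq_single i]
    · rw [← smul_add, anti_all hE, if_pos rfl, smul_smul]
      congr 1
      ring
    · intro j _ hj
      rw [← smul_add, anti_all hE, if_neg (Ne.symm hj), zero_smul, smul_zero]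
    · intro h; exact absurd (Finset.mem_univ _) h
  have hrc : rc E M = (2⁻¹ : ℂ) • (w u * w v - w v * w u) := by
    rw [rc_apply]
    congr 1
    have e1 : w u * w v = ∑ i, ∑ j, (u i * v j) • (E i * E j) := by
      rw [hw, hw, Finset.sum_mul]
      refine Finset.sum_congr rfl fun i _ => ?_
      rw [Finset.mul_sum]
      refine Finset.sum_congr rfl fun j _ => ?_
      rw [smul_mul_smul_comm]
    have e2 : w v * w u = ∑ i, ∑ j, (v i * u j) • (E i * E j) := by
      rw [hw, hw, Finset.sum_mul]
      refine Finset.sum_congr rfl fun i _ => ?_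
      rw [Finset.mul_sum]
      refine Finset.sum_congr rfl fun j _ => ?_
      rw [smul_mul_smul_comm]
    rw [e1, e2, ← Finset.sum_sub_distrib]
    refine Finset.sum_congr rfl fun i _ => ?_
    rw [← Finset.sum_sub_distrib]
    refine Finset.sum_congr rfl fun j _ => ?_
    rw [hM, sub_smul]
  have huu : w u * w u = (d u u) • (1 : Module.End ℂ U) := by
    have e1 := hww u u
    rw [← two_smul ℂ (w u * w u), mul_smul] at e1
    exact smul_right_injective _ (two_ne_zero (α := ℂ)) e1
  have hvv : w v * w v = (d v v) • (1 : Module.End ℂ U) := by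
    have e1 := hww v v
    rw [← two_smul ℂ (w v * w v), mul_smul] at e1
    exact smul_right_injective _ (two_ne_zero (α := ℂ)) e1
  have hsq : (w u * w v - w v * w u) * (w u * w v - w v * w u) =
      (4 * (d u v * d u v) - 4 * (d u u * d v v)) • (1 : Module.End ℂ U) := by
    have e1 : (w u * w v - w v * w u) * (w u * w v - w v * w u) =
        (w u * w v + w v * w u) * (w u * w v + w v * w u) -
          (2 : ℂ) • (w u * (w v * w v) * w u) - (2 : ℂ) • (w v * (w u * w u) * w v) := by
      rw [two_smul, two_smul]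
      noncomm_ring
    have e2 : w u * (w v * w v) * w u = (d v v * d u u) • (1 : Module.End ℂ U) := by
      rw [hvv, mul_smul_comm, mul_one, smul_mul_assoc, huu, smul_smul]
    have e3 : w v * (w u * w u) * w v = (d u u * d v v) • (1 : Module.End ℂ U) := by
      rw [huu, mul_smul_comm, mul_one, smul_mul_assoc, hvv, smul_smul]
    rw [e1, hww, e2, e3, smul_mul_smul_comm, one_mul]
    module
  have htr : (M * M).trace = 2 * (d u v * d u v) - 2 * (d u u * d v v) := by
    have e1 : (M * M).trace = ∑ i, ∑ j, (2 * ((u i * v i) * (u j * v j)) -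
        (u i * u i) * (v j * v j) - (v i * v i) * (u j * u j)) := by
      rw [Matrix.trace]
      refine Finset.sum_congr rfl fun i _ => ?_
      rw [Matrix.diag_apply, Matrix.mul_apply]
      refine Finset.sum_congr rfl fun j _ => ?_
      rw [hM, hM]
      ring
    have e2 : ∑ i, ∑ j, (u i * v i) * (u j * v j) = d u v * d u v := by
      rw [hd, Finset.sum_mul_sum]
    have e3 : ∑ i, ∑ j, (u i * u i) * (v j * v j) = d u u * d v v := by
      rw [hd, hd, Finset.sum_mul_sum]
    have e4 : ∑ i, ∑ j, (v i * v i) * (u j * u j) = d u u * d v v := by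
      rw [hd, hd, mul_comm, Finset.sum_mul_sum]
    have e5 : ∑ i, ∑ j, 2 * ((u i * v i) * (u j * v j)) = 2 * (d u v * d u v) := by
      rw [← e2, Finset.mul_sum]
      exact Finset.sum_congr rfl fun i _ => (Finset.mul_sum _ _ _).symm
    rw [e1]
    simp only [Finset.sum_sub_distrib]
    rw [e5, e3, e4]
    ring
  rw [hrc, smul_mul_smul_comm, hsq, smul_smul, htr]
  congr 1
  ring

end Pool.Agent.R918.Sp

end
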