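import Pool.Agent.R918.SpD

set_option autoImplicit false
set_option linter.unusedSectionVars false
set_option linter.unusedVariables false

/-!
# Isomorphisms between orthogonal Lie algebras and spin representations
-/

open Module Matrix

noncomputable section

namespace Pool.Agent.R918.Sp

open Pool.Agent.Y102.SP

section inter

variable {U₁ U₂ : Type} [AddCommGroup U₁] [Module ℂ U₁] [AddCommGroup U₂] [Module ℂ U₂]

theorem exists_hom [Nontrivial U₁] [Nontrivial U₂] : ∃ T : U₁ →ₗ[ℂ] U₂, T ≠ 0 := by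
  obtain ⟨u, hu⟩ := exists_ne (0 : U₁)
  obtain ⟨w, hw⟩ := exists_ne (0 : U₂)
  obtain ⟨φ, hφ⟩ : ∃ φ : Module.Dual ℂ U₁, φ u ≠ 0 := by
    by_contra hcon
    push Not at hcon
    exact hu ((Module.forall_dual_apply_eq_zero_iff ℂ u).1 hcon)
  refine ⟨φ.smulRight w, fun h => ?_⟩
  have h1 := congrArg (fun F : U₁ →ₗ[ℂ] U₂ => F u) h
  simp only [LinearMap.smulRight_apply, LinearMap.zero_apply] at h1
  rcases smul_eq_zero.1 h1 with h2 | h2
  · exact hφ h2
  · exact hw h2

/-- Intertwining maps between two modules over a Clifford algebra. -/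
theorem inter [Nontrivial U₁] [Nontrivial U₂] {ι : Type} [DecidableEq ι] (S : Finset ι)
    (X : ι → Module.End ℂ U₁) (Y : ι → Module.End ℂ U₂) (e : Module.End ℂ U₁)
    (he : ∀ u, e (e u) = u) :
    (∀ a ∈ S, ∀ u, X a (X a u) = -u) →
    (∀ a ∈ S, ∀ b ∈ S, a ≠ b → ∀ u, X a (X b u) = -X b (X a u)) →
    (∀ a ∈ S, ∀ u, Y a (Y a u) = -u) →
    (∀ a ∈ S, ∀ b ∈ S, a ≠ b → ∀ u, Y a (Y b u) = -Y b (Y a u)) →
    (∀ a ∈ S, ∀ u, e (X a u) = -X a (e u)) →
    ∃ T : U₁ →ₗ[ℂ] U₂, T ≠ 0 ∧ ∀ a ∈ S, ∀ u, Y a (T u) = T (X a u) := by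
  induction S using Finset.induction_on with
  | empty =>
    intro _ _ _ _ _
    obtain ⟨T, hT⟩ := exists_hom (U₁ := U₁) (U₂ := U₂)
    exact ⟨T, hT, fun a ha => absurd ha (Finset.notMem_empty a)⟩
  | insert b S hb ih =>
    intro hX hXX hY hYY heX
    have hS : ∀ a ∈ S, a ∈ insert b S := fun a ha => Finset.mem_insert_of_mem ha
    have hbS : b ∈ insert b S := Finset.mem_insert_self _ _
    have hab : ∀ a ∈ S, a ≠ b := fun a ha h => hb (h ▸ ha)
    obtain ⟨T, hT0, hT⟩ := ih (fun a ha => hX a (hS a ha))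
      (fun a ha c hc => hXX a (hS a ha) c (hS c hc)) (fun a ha => hY a (hS a ha))
      (fun a ha c hc => hYY a (hS a ha) c (hS c hc)) (fun a ha => heX a (hS a ha))
    by_cases h0 : T - Y b ∘ₗ T ∘ₗ X b = 0
    · have h1 : ∀ u, T u = Y b (T (X b u)) := by
        intro u
        have h2 := congrArg (fun F : U₁ →ₗ[ℂ] U₂ => F u) h0
        simp only [LinearMap.sub_apply, LinearMap.comp_apply, LinearMap.zero_apply] at h2
        exact sub_eq_zero.1 h2
      have h2 : ∀ u, Y b (T u) = -T (X b u) := by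
        intro u
        have h3 := h1 (X b u)
        rw [hX b hbS, map_neg, map_neg] at h3
        rw [h3, neg_neg]
      refine ⟨T ∘ₗ e ∘ₗ X b, fun h3 => hT0 ?_, fun a ha u => ?_⟩
      · refine LinearMap.ext fun u => ?_
        have h4 := congrArg (fun F : U₁ →ₗ[ℂ] U₂ => F (-X b (e u))) h3
        simp only [LinearMap.comp_apply, LinearMap.zero_apply, map_neg] at h4
        rw [hX b hbS, map_neg, map_neg, neg_neg, he] at h4
        rw [h4, LinearMap.zero_apply, neg_zero]
      · rw [LinearMap.comp_apply, LinearMap.comp_apply, LinearMap.comp_apply,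
          LinearMap.comp_apply]
        rcases Finset.mem_insert.1 ha with rfl | ha
        · rw [h2, ← map_neg, ← heX a hbS]
        · rw [hT a ha, ← neg_neg (X a (e (X b u))), ← heX a (hS a ha),
            hXX a (hS a ha) b hbS (hab a ha), map_neg, map_neg, map_neg, neg_neg]
    · refine ⟨_, h0, fun a ha u => ?_⟩
      simp only [LinearMap.sub_apply, LinearMap.comp_apply, map_sub]
      rcases Finset.mem_insert.1 ha with rfl | ha
      · rw [hY a hbS, hX a hbS, map_neg, map_neg]
        abel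
      · rw [hT a ha, hYY a (hS a ha) b hbS (hab a ha), hT a ha,
          hXX a (hS a ha) b hbS (hab a ha), map_neg, map_neg, neg_neg]

end inter

variable {r s : ℕ} {U₁ U₂ : Type} [AddCommGroup U₁] [Module ℂ U₁] [AddCommGroup U₂] [Module ℂ U₂]

/-- The graph of an isomorphism between two orthogonal Lie algebras. -/
structure Lnk (E : Fin r → Module.End ℂ U₁) (E' : Fin s → Module.End ℂ U₂)
    (L : Submodule ℂ (Module.End ℂ U₁ × Module.End ℂ U₂)) : Prop where
  l1 : ∀ x y, (x, y) ∈ L → x ∈ soE E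
  l2 : ∀ x y, (x, y) ∈ L → y ∈ soE E'
  br : ∀ x y x' y', (x, y) ∈ L → (x', y') ∈ L → (x * x' - x' * x, y * y' - y' * y) ∈ L
  s1 : ∀ x ∈ soE E, ∃ y, (x, y) ∈ L
  s2 : ∀ y ∈ soE E', ∃ x, (x, y) ∈ L
  i2 : ∀ y, (0, y) ∈ L → y = 0

variable {E : Fin r → Module.End ℂ U₁} {E' : Fin s → Module.End ℂ U₂}
  {L : Submodule ℂ (Module.End ℂ U₁ × Module.End ℂ U₂)}

namespace Lnk

variable (h : Lnk E E' L) (hE : CE E) (hE' : CE E') [Nontrivial U₂]
include h hE hE'

theorem uniq {x : Module.End ℂ U₁} {y y' : Module.End ℂ U₂} (h1 : (x, y) ∈ L) (h2 : (x, y') ∈ L) :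
    y = y' := by
  have h3 := L.sub_mem h1 h2
  rw [Prod.mk_sub_mk, sub_self] at h3
  exact sub_eq_zero.1 (h.i2 _ h3)

theorem eq_of {x : Module.End ℂ U₁} {M N : Matrix (Fin s) (Fin s) ℂ} (hM : Mᵀ = -M)
    (hN : Nᵀ = -N) (h1 : (x, rc E' M) ∈ L) (h2 : (x, rc E' N) ∈ L) : M = N := by
  have h3 := h.uniq hE hE' h1 h2
  have h4 : rc E' (M - N) = 0 := by rw [map_sub, h3, sub_self]
  have h5 := rc_inj hE' (by rw [Matrix.transpose_sub, hM, hN]; abel) h4
  exact sub_eq_zero.1 h5

theorem skew_br {M N : Matrix (Fin s) (Fin s) ℂ} (hM : Mᵀ = -M) (hN : Nᵀ = -N) :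
    (M * N - N * M)ᵀ = -(M * N - N * M) := by
  rw [Matrix.transpose_sub, Matrix.transpose_mul, Matrix.transpose_mul, hM, hN, neg_mul_neg,
    neg_mul_neg, neg_sub]

theorem rc_brL {x x' : Module.End ℂ U₁} {M N : Matrix (Fin s) (Fin s) ℂ} (hM : Mᵀ = -M)
    (hN : Nᵀ = -N) (h1 : (x, rc E' M) ∈ L) (h2 : (x', rc E' N) ∈ L) :
    ((2⁻¹ : ℂ) • (x * x' - x' * x), rc E' (M * N - N * M)) ∈ L := by
  have h3 := L.smul_mem (2⁻¹ : ℂ) (h.br _ _ _ _ h1 h2)
  rw [Prod.smul_mk, rc_br hE' hM hN, smul_smul, inv_mul_cancel₀ two_ne_zero, one_smul] at h3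
  exact h3

theorem exists_f : ∃ f : Fin r → Fin r → Matrix (Fin s) (Fin s) ℂ,
    (∀ a b, a ≠ b → (E a * E b, rc E' (f a b)) ∈ L) ∧ (∀ a b, (f a b)ᵀ = -f a b) ∧
      ∀ a, f a a = 0 := by
  have h1 : ∀ a b, ∃ M : Matrix (Fin s) (Fin s) ℂ, (a ≠ b → (E a * E b, rc E' M) ∈ L) ∧ Mᵀ = -M ∧
      (a = b → M = 0) := by
    intro a b
    by_cases hab : a = b
    · exact ⟨0, fun h => absurd hab h, by rw [Matrix.transpose_zero, neg_zero], fun _ => rfl⟩
    · obtain ⟨y, hy⟩ := h.s1 _ (Submodule.subset_span ⟨a, b, hab, rfl⟩)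
      obtain ⟨M, hM, rfl⟩ := exists_rc hE' (h.l2 _ _ hy)
      exact ⟨M, fun _ => hy, hM, fun h => absurd h hab⟩
  choose f hf using h1
  exact ⟨f, fun a b => (hf a b).1, fun a b => (hf a b).2.1, fun a => (hf a a).2.2 rfl⟩

theorem aut {f : Fin r → Fin r → Matrix (Fin s) (Fin s) ℂ}
    (h1 : ∀ a b, a ≠ b → (E a * E b, rc E' (f a b)) ∈ L) (h2 : ∀ a b, (f a b)ᵀ = -f a b)
    (h3 : ∀ a, f a a = 0) : Aut f where
  sk := h2
  anti a b := by
    by_cases hab : a = b
    · subst hab
      rw [h3, neg_zero]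
    · refine h.eq_of hE hE' (h2 b a) (by rw [Matrix.transpose_neg, h2]) (h1 b a (Ne.symm hab)) ?_
      have h4 := L.neg_mem (h1 a b hab)
      rw [Prod.neg_mk] at h4
      rw [map_neg, hE.anti b a (Ne.symm hab)]
      exact h4
  br a b c hab hbc hac := by
    refine h.eq_of hE hE' (h.skew_br hE hE' (h2 a b) (h2 b c)) (h2 a c) ?_ (h1 a c hac)
    have h4 := h.rc_brL hE hE' (h2 a b) (h2 b c) (h1 a b hab) (h1 b c hbc)
    have e1 : E a * E b * (E b * E c) = E a * E c := by
      rw [mul_assoc, ← mul_assoc (E b) (E b), hE.sq, one_mul]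
    have e2 : E b * E c * (E a * E b) = -(E a * E c) := by
      rw [hE.anti a b hab, mul_neg, mul_assoc, ← mul_assoc (E c), hE.anti c b (Ne.symm hbc),
        neg_mul, mul_neg, neg_neg, ← mul_assoc, ← mul_assoc, hE.sq, one_mul,
        hE.anti c a (Ne.symm hac)]
    have e3 : (2⁻¹ : ℂ) • (E a * E b * (E b * E c) - E b * E c * (E a * E b)) = E a * E c := by
      rw [e1, e2]
      module
    rwa [e3] at h4
  comm a b c d hac had hbc hbd := by
    by_cases hab : a = b
    · subst hab
      rw [h3, Matrix.zero_mul, Matrix.mul_zero]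
    by_cases hcd : c = d
    · subst hcd
      rw [h3, Matrix.zero_mul, Matrix.mul_zero]
    have h4 := h.rc_brL hE hE' (h2 a b) (h2 c d) (h1 a b hab) (h1 c d hcd)
    have e1 : E a * E b * (E c * E d) = E c * E d * (E a * E b) := by
      calc E a * E b * (E c * E d) = E a * (E b * E c) * E d := by simp only [mul_assoc]
        _ = -(E a * E c * (E b * E d)) := by
          rw [hE.anti b c hbc]
          simp only [mul_neg, neg_mul, mul_assoc]
        _ = E a * E c * (E d * E b) := by rw [hE.anti b d hbd, mul_neg, neg_neg]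
        _ = -(E c * (E a * E d) * E b) := by
          rw [hE.anti a c hac]
          simp only [neg_mul, mul_assoc]
        _ = E c * E d * (E a * E b) := by
          rw [hE.anti a d had]
          simp only [mul_neg, neg_mul, neg_neg, mul_assoc]
    rw [e1, sub_self, smul_zero] at h4
    have h5 := h.i2 _ h4
    exact sub_eq_zero.1 (rc_inj hE' (h.skew_br hE hE' (h2 a b) (h2 c d)) h5)
  span A hA := by
    have key : ∀ x ∈ soE E, ∃ X ∈ Submodule.span ℂ {X | ∃ a b, X = f a b}, Xᵀ = -X ∧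
        (x, rc E' X) ∈ L := by
      intro x hx
      unfold soE at hx
      induction hx using Submodule.span_induction with
      | mem x hx =>
        obtain ⟨a, b, hab, rfl⟩ := hx
        exact ⟨f a b, Submodule.subset_span ⟨a, b, rfl⟩, h2 a b, h1 a b hab⟩
      | zero => exact ⟨0, Submodule.zero_mem _, by rw [Matrix.transpose_zero, neg_zero], by
          rw [map_zero]; exact L.zero_mem⟩
      | add x y _ _ hx hy =>
        obtain ⟨X, a1, a2, a3⟩ := hx
        obtain ⟨Y, b1, b2, b3⟩ := hy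
        exact ⟨X + Y, Submodule.add_mem _ a1 b1, by rw [Matrix.transpose_add, a2, b2, neg_add], by
          rw [map_add]; exact L.add_mem a3 b3⟩
      | smul c x _ hx =>
        obtain ⟨X, a1, a2, a3⟩ := hx
        exact ⟨c • X, Submodule.smul_mem _ c a1, by rw [Matrix.transpose_smul, a2, smul_neg], by
          rw [map_smul]; exact L.smul_mem c a3⟩
    obtain ⟨x, hx⟩ := h.s2 _ (rc_mem hE' hA)
    obtain ⟨X, a1, a2, a3⟩ := key x (h.l1 _ _ hx)
    rw [h.eq_of hE hE' hA a2 hx a3]
    exact a1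

/-- The images of elements with square `-1`. -/
theorem sq_neg_one (hs8 : s ≠ 8) {x : Module.End ℂ U₁} (hx : x * x = -1)
    {f : Matrix (Fin s) (Fin s) ℂ} (hf : fᵀ = -f) (hxf : (x, rc E' f) ∈ L)
    (ht : (f * f).trace = -2) : rc E' f * rc E' f = -1 := by
  have hcub : ∀ A : Matrix (Fin s) (Fin s) ℂ, Aᵀ = -A →
      f * f * f * A - (3 : ℂ) • (f * f * A * f) + (3 : ℂ) • (f * A * (f * f)) - A * (f * f * f) =
        -(f * A - A * f) := by
    intro A hA
    obtain ⟨w, hw⟩ := h.s2 _ (rc_mem hE' hA)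
    have s1 := h.skew_br hE hE' hf hA
    have s2 := h.skew_br hE hE' hf s1
    have s3 := h.skew_br hE hE' hf s2
    have b1 := h.rc_brL hE hE' hf hA hxf hw
    have b2 := h.rc_brL hE hE' hf s1 hxf b1
    have b3 := h.rc_brL hE hE' hf s2 hxf b2
    have e1 : (2⁻¹ : ℂ) • (x * ((2⁻¹ : ℂ) • (x * ((2⁻¹ : ℂ) • (x * w - w * x)) -
        (2⁻¹ : ℂ) • (x * w - w * x) * x)) - (2⁻¹ : ℂ) • (x * ((2⁻¹ : ℂ) • (x * w - w * x)) -
          (2⁻¹ : ℂ) • (x * w - w * x) * x) * x) = -((2⁻¹ : ℂ) • (x * w - w * x)) := by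
      simp only [mul_smul_comm, smul_mul_assoc, ← smul_sub, smul_smul]
      have e2 : x * (x * (x * w - w * x) - (x * w - w * x) * x) -
          (x * (x * w - w * x) - (x * w - w * x) * x) * x =
            (x * x) * x * w - x * x * w * x - x * x * w * x - x * x * w * x +
              x * w * (x * x) + x * w * (x * x) + x * w * (x * x) - w * (x * x) * x := by
        noncomm_ring
      rw [e2, hx]
      have e3 : (-1 : Module.End ℂ U₁) * x * w - -1 * w * x - -1 * w * x - -1 * w * x +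
          x * w * -1 + x * w * -1 + x * w * -1 - w * -1 * x = -((4 : ℂ) • (x * w - w * x)) := by
        have e4 : (4 : ℂ) • (x * w - w * x) = (4 : ℕ) • (x * w - w * x) := by
          rw [← Nat.cast_smul_eq_nsmul ℂ]
          norm_num
        rw [e4]
        noncomm_ring
      rw [e3, smul_neg, smul_smul]
      norm_num
    rw [e1] at b3
    have b4 := L.neg_mem b1
    rw [Prod.neg_mk, ← map_neg] at b4
    have h5 := h.eq_of hE hE' s3 (by rw [Matrix.transpose_neg, s1]) b3 b4
    rw [← h5]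
    have e5 : (3 : ℂ) • (f * f * A * f) = (3 : ℕ) • (f * f * A * f) := by
      rw [← Nat.cast_smul_eq_nsmul ℂ]
      norm_num
    have e6 : (3 : ℂ) • (f * A * (f * f)) = (3 : ℕ) • (f * A * (f * f)) := by
      rw [← Nat.cast_smul_eq_nsmul ℂ]
      norm_num
    rw [e5, e6]
    noncomm_ring
  have h6 := cubic hf hcub
  rw [ht] at h6
  have h7 : f * f * f = -f := by
    have h8 : ((s : ℂ) - 8) • (f * f * f) = ((s : ℂ) - 8) • (-f) := by
      have h9 : ((s : ℂ) - 8) • (f * f * f) = -((s : ℂ) - 2) • f - (3 * (-2 : ℂ)) • f := by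
        rw [← h6]
        abel
      rw [h9]
      module
    refine smul_right_injective _ ?_ h8
    intro h10
    have h11 : (s : ℂ) = 8 := sub_eq_zero.1 h10
    exact hs8 (by exact_mod_cast h11)
  obtain ⟨u, v, huv⟩ := rank_two hf h7 ht
  rw [rc_sq hE' huv, ht]
  module

/-- **Theorem.** An isomorphism between two orthogonal Lie algebras, of size different from eight,
is compatible with a nonzero map between the spin representations. -/
theorem exists_inter [Nontrivial U₁] (hr : 5 ≤ r) (hs : 2 ≤ s) (hr8 : r ≠ 8) :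
    ∃ T : U₁ →ₗ[ℂ] U₂, T ≠ 0 ∧ ∀ x y, (x, y) ∈ L → ∀ u, y (T u) = T (x u) := by
  obtain ⟨f, h1, h2, h3⟩ := h.exists_f hE hE'
  have ha := h.aut hE hE' h1 h2 h3
  obtain ⟨c0, hc⟩ := ha.exists_const hr
  have hsr := sizes ha hr hs
  rw [const_eq ha hr hs hc] at hc
  have hs8 : s ≠ 8 := by omega
  let o : Fin r := ⟨0, by omega⟩
  have hY2 : ∀ a, a ≠ o → rc E' (f o a) * rc E' (f o a) = -1 := by
    intro a hao
    refine h.sq_neg_one hE hE' hs8 ?_ (h2 o a) (h1 o a (Ne.symm hao)) ?_
    · calc E o * E a * (E o * E a) = E o * (E a * E o) * E a := by simp only [mul_assoc]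
        _ = -1 := by
          rw [hE.anti a o hao, mul_neg, neg_mul, ← mul_assoc, hE.sq, one_mul, hE.sq]
    · rw [hc, if_pos ⟨rfl, rfl⟩, if_neg (fun h => hao h.1.symm)]
      ring
  have hYY : ∀ a b, a ≠ o → b ≠ o → a ≠ b →
      rc E' (f o a) * rc E' (f o b) = -(rc E' (f o b) * rc E' (f o a)) := by
    intro a b hao hbo hab
    obtain ⟨κ, hκ⟩ := IsAlgClosed.exists_pow_nat_eq (1 / 2 : ℂ) (n := 2) (by norm_num)
    have hκ' : κ * κ = 1 / 2 := by rw [← hκ]; ring
    have hsk : (κ • (f o a + f o b))ᵀ = -(κ • (f o a + f o b)) := by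
      rw [Matrix.transpose_smul, Matrix.transpose_add, h2, h2, ← neg_add, smul_neg]
    have e1 : E o * E a * (E o * E a) = -1 := by
      calc E o * E a * (E o * E a) = E o * (E a * E o) * E a := by simp only [mul_assoc]
        _ = -1 := by
          rw [hE.anti a o hao, mul_neg, neg_mul, ← mul_assoc, hE.sq, one_mul, hE.sq]
    have e2 : E o * E b * (E o * E b) = -1 := by
      calc E o * E b * (E o * E b) = E o * (E b * E o) * E b := by simp only [mul_assoc]
        _ = -1 := by
          rw [hE.anti b o hbo, mul_neg, neg_mul, ← mul_assoc, hE.sq, one_mul, hE.sq]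
    have e3 : E o * E a * (E o * E b) = -(E a * E b) := by
      calc E o * E a * (E o * E b) = E o * (E a * E o) * E b := by simp only [mul_assoc]
        _ = _ := by rw [hE.anti a o hao, mul_neg, neg_mul, ← mul_assoc, hE.sq, one_mul]
    have e4 : E o * E b * (E o * E a) = -(E b * E a) := by
      calc E o * E b * (E o * E a) = E o * (E b * E o) * E a := by simp only [mul_assoc]
        _ = _ := by rw [hE.anti b o hbo, mul_neg, neg_mul, ← mul_assoc, hE.sq, one_mul]
    have h4 := h.sq_neg_one hE hE' hs8 (x := κ • (E o * E a + E o * E b)) ?_ hsk ?_ ?_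
    · rw [map_smul, map_add, smul_mul_smul_comm, hκ'] at h4
      have h5 : (rc E' (f o a) + rc E' (f o b)) * (rc E' (f o a) + rc E' (f o b)) =
          (2 : ℂ) • (-1 : Module.End ℂ U₂) := by
        rw [← h4, smul_smul]
        norm_num
      have h6 : (rc E' (f o a) + rc E' (f o b)) * (rc E' (f o a) + rc E' (f o b)) =
          rc E' (f o a) * rc E' (f o a) + rc E' (f o b) * rc E' (f o b) +
            (rc E' (f o a) * rc E' (f o b) + rc E' (f o b) * rc E' (f o a)) := by
        noncomm_ring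
      rw [h6, hY2 a hao, hY2 b hbo, two_smul] at h5
      rw [eq_neg_iff_add_eq_zero]
      exact add_eq_left.1 h5
    · rw [smul_mul_smul_comm, hκ']
      have h5 : (E o * E a + E o * E b) * (E o * E a + E o * E b) =
          E o * E a * (E o * E a) + E o * E b * (E o * E b) +
            (E o * E a * (E o * E b) + E o * E b * (E o * E a)) := by noncomm_ring
      rw [h5, e1, e2, e3, e4, hE.anti a b hab]
      module
    · have h5 := L.smul_mem κ (L.add_mem (h1 o a (Ne.symm hao)) (h1 o b (Ne.symm hbo)))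
      rw [Prod.mk_add_mk, Prod.smul_mk, ← map_add, ← map_smul] at h5
      exact h5
    · rw [Matrix.smul_mul, Matrix.mul_smul, smul_smul, hκ', Matrix.trace_smul, Matrix.add_mul,
        Matrix.mul_add, Matrix.mul_add, Matrix.trace_add, Matrix.trace_add, Matrix.trace_add, hc,
        hc, hc, hc, if_pos ⟨rfl, rfl⟩, if_neg (fun h => hao h.1.symm),
        if_neg (fun h => hab h.2), if_neg (fun h => hbo h.1.symm), if_neg (fun h => hab h.2.symm),
        if_neg (fun h => hao h.1.symm), if_pos ⟨rfl, rfl⟩, if_neg (fun h => hbo h.1.symm),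
        smul_eq_mul]
      ring
  have hEE : ∀ a u, E a (E a u) = u := by
    intro a u
    exact congrArg (fun F : Module.End ℂ U₁ => F u) (hE.sq a)
  have hEA : ∀ a b, a ≠ b → ∀ u, E a (E b u) = -E b (E a u) := by
    intro a b hab u
    exact congrArg (fun F : Module.End ℂ U₁ => F u) (hE.anti a b hab)
  obtain ⟨T, hT0, hT⟩ := inter (Finset.univ.erase o) (fun a => E o * E a)
    (fun a => rc E' (f o a)) (E o) (hEE o)
    (fun a ha u => by
      have hao := Finset.ne_of_mem_erase ha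
      rw [Module.End.mul_apply, Module.End.mul_apply, hEA a o hao, map_neg, hEE, hEE])
    (fun a ha b hb hab u => by
      have hao := Finset.ne_of_mem_erase ha
      have hbo := Finset.ne_of_mem_erase hb
      simp only [Module.End.mul_apply]
      rw [hEA a o hao, hEA b o hbo, map_neg, map_neg, hEE, hEE, hEA a b hab])
    (fun a ha u => congrArg (fun F : Module.End ℂ U₂ => F u) (hY2 a (Finset.ne_of_mem_erase ha)))
    (fun a ha b hb hab u => congrArg (fun F : Module.End ℂ U₂ => F u)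
      (hYY a b (Finset.ne_of_mem_erase ha) (Finset.ne_of_mem_erase hb) hab))
    (fun a ha u => by
      have hao := Finset.ne_of_mem_erase ha
      simp only [Module.End.mul_apply]
      rw [hEA a o hao, map_neg, neg_neg])
  refine ⟨T, hT0, ?_⟩
  have hTo : ∀ a, a ≠ o → ∀ u, rc E' (f o a) (T u) = T (E o (E a u)) := fun a hao u =>
    hT a (Finset.mem_erase.2 ⟨hao, Finset.mem_univ _⟩) u
  have hgen : ∀ a b, a ≠ b → ∀ u, rc E' (f a b) (T u) = T (E a (E b u)) := by
    intro a b hab u
    by_cases hao : a = o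
    · rw [hao]
      exact hTo b (fun h => hab (hao.trans h.symm)) u
    by_cases hbo : b = o
    · rw [hbo, ha.anti o a, map_neg, LinearMap.neg_apply, hTo a hao, hEA a o hao, map_neg]
    have h4 : rc E' (f a b) = -(rc E' (f o a) * rc E' (f o b)) := by
      rw [← ha.br a o b hao (Ne.symm hbo) hab, ha.anti o a]
      have h5 := rc_br hE' (h2 o a) (h2 o b)
      have h6 : -f o a * f o b - f o b * -f o a = -(f o a * f o b - f o b * f o a) := by
        noncomm_ring
      rw [h6, map_neg]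
      congr 1
      rw [hYY b a hbo hao (Ne.symm hab), sub_neg_eq_add, ← two_smul ℂ] at h5
      exact (smul_right_injective _ (two_ne_zero (α := ℂ)) h5).symm
    rw [h4, LinearMap.neg_apply, Module.End.mul_apply, hTo b hbo, hTo a hao, hEA a o hao, map_neg,
      hEE, map_neg, neg_neg]
  have key : ∀ x ∈ soE E, ∃ y, (x, y) ∈ L ∧ ∀ u, y (T u) = T (x u) := by
    intro x hx
    unfold soE at hx
    induction hx using Submodule.span_induction with
    | mem x hx =>
      obtain ⟨a, b, hab, rfl⟩ := hx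
      exact ⟨_, h1 a b hab, hgen a b hab⟩
    | zero => exact ⟨0, L.zero_mem, fun u => by simp⟩
    | add x y _ _ hx hy =>
      obtain ⟨x', a1, a2⟩ := hx
      obtain ⟨y', b1, b2⟩ := hy
      exact ⟨x' + y', L.add_mem a1 b1, fun u => by
        rw [LinearMap.add_apply, LinearMap.add_apply, map_add, a2, b2]⟩
    | smul c x _ hx =>
      obtain ⟨x', a1, a2⟩ := hx
      exact ⟨c • x', L.smul_mem c a1, fun u => by
        rw [LinearMap.smul_apply, LinearMap.smul_apply, map_smul, a2]⟩
  intro x y hxy u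
  obtain ⟨y', h4, h5⟩ := key x (h.l1 _ _ hxy)
  rw [h.uniq hE hE' hxy h4]
  exact h5 u

end Lnk

end Pool.Agent.R918.Sp

end
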