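import Pool.Agent.R918.SpE
import Pool.Agent.Y102.SP.ColMain

set_option autoImplicit false
set_option linter.unusedSectionVars false
set_option linter.unusedVariables false

/-!
# Sums of spin representations of different orthogonal Lie algebras
-/

open Module

noncomputable section

namespace Pool.Agent.R918.Sp

open Pool.Agent.Y102.SP

variable {m : ℕ} {H : Type} [AddCommGroup H] [Module ℂ H] {U : Fin m → Type}
  [∀ i, AddCommGroup (U i)] [∀ i, Module ℂ (U i)]

/-- A decomposition of a space. -/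
structure Dec (P : ∀ i, H →ₗ[ℂ] U i) (Q : ∀ i, U i →ₗ[ℂ] H) : Prop where
  same : ∀ i u, P i (Q i u) = u
  diff : ∀ i j, i ≠ j → ∀ u, P i (Q j u) = 0
  sum : ∀ x, ∑ i, Q i (P i x) = x

variable {P : ∀ i, H →ₗ[ℂ] U i} {Q : ∀ i, U i →ₗ[ℂ] H}

/-- the block of an endomorphism -/
def pb (P : ∀ i, H →ₗ[ℂ] U i) (Q : ∀ i, U i →ₗ[ℂ] H) (i : Fin m) :
    Module.End ℂ H →ₗ[ℂ] Module.End ℂ (U i) where
  toFun x := P i ∘ₗ x ∘ₗ Q i
  map_add' x y := by rw [LinearMap.add_comp, LinearMap.comp_add]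
  map_smul' c x := by rw [LinearMap.smul_comp, LinearMap.comp_smul, RingHom.id_apply]

theorem pb_apply (i : Fin m) (x : Module.End ℂ H) (u : U i) : pb P Q i x u = P i (x (Q i u)) := rfl

/-- the endomorphism with one block -/
def ib (P : ∀ i, H →ₗ[ℂ] U i) (Q : ∀ i, U i →ₗ[ℂ] H) (i : Fin m) :
    Module.End ℂ (U i) →ₗ[ℂ] Module.End ℂ H where
  toFun y := Q i ∘ₗ y ∘ₗ P i
  map_add' x y := by rw [LinearMap.add_comp, LinearMap.comp_add]
  map_smul' c x := by rw [LinearMap.smul_comp, LinearMap.comp_smul, RingHom.id_apply]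

theorem ib_apply (i : Fin m) (y : Module.End ℂ (U i)) (x : H) : ib P Q i y x = Q i (y (P i x)) :=
  rfl

/-- Block diagonal endomorphisms. -/
def Diag (P : ∀ i, H →ₗ[ℂ] U i) (Q : ∀ i, U i →ₗ[ℂ] H) (x : Module.End ℂ H) : Prop :=
  ∀ i u, x (Q i u) = Q i (pb P Q i x u)

section dec

variable (D : Dec P Q)
include D

theorem diag_P {x : Module.End ℂ H} (hx : Diag P Q x) (i : Fin m) (v : H) :
    P i (x v) = pb P Q i x (P i v) := by
  have h1 : x v = ∑ j, Q j (pb P Q j x (P j v)) := by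
    conv_lhs => rw [← D.sum v, map_sum]
    exact Finset.sum_congr rfl fun j _ => hx j _
  rw [h1, map_sum, Finset.sum_eq_single i]
  · rw [D.same]
  · intro j _ hj
    exact D.diff i j (Ne.symm hj) _
  · intro h; exact absurd (Finset.mem_univ _) h

theorem diag_mul {x y : Module.End ℂ H} (hx : Diag P Q x) (hy : Diag P Q y) :
    Diag P Q (x * y) ∧ ∀ i, pb P Q i (x * y) = pb P Q i x * pb P Q i y := by
  have h1 : ∀ i, pb P Q i (x * y) = pb P Q i x * pb P Q i y := by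
    intro i
    refine LinearMap.ext fun u => ?_
    rw [pb_apply, Module.End.mul_apply, hy, hx, D.same, Module.End.mul_apply]
  refine ⟨fun i u => ?_, h1⟩
  rw [h1, Module.End.mul_apply, hy, hx, Module.End.mul_apply]

theorem pb_one (i : Fin m) : pb P Q i 1 = 1 := by
  refine LinearMap.ext fun u => ?_
  rw [pb_apply]
  exact D.same i u

theorem diag_one : Diag P Q 1 := by
  intro i u
  rw [pb_one D]
  rfl

theorem diag_add {x y : Module.End ℂ H} (hx : Diag P Q x) (hy : Diag P Q y) :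
    Diag P Q (x + y) := by
  intro i u
  rw [map_add, LinearMap.add_apply, LinearMap.add_apply, map_add, hx, hy]

theorem diag_smul (c : ℂ) {x : Module.End ℂ H} (hx : Diag P Q x) : Diag P Q (c • x) := by
  intro i u
  rw [map_smul, LinearMap.smul_apply, LinearMap.smul_apply, map_smul, hx]

theorem pb_ib (i : Fin m) (y : Module.End ℂ (U i)) : pb P Q i (ib P Q i y) = y := by
  refine LinearMap.ext fun u => ?_
  rw [pb_apply, ib_apply, D.same, D.same]

theorem pb_ib_ne {i j : Fin m} (hij : i ≠ j) (y : Module.End ℂ (U j)) :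
    pb P Q i (ib P Q j y) = 0 := by
  refine LinearMap.ext fun u => ?_
  rw [pb_apply, ib_apply, D.diff i j hij, LinearMap.zero_apply]

theorem diag_ib (i : Fin m) (y : Module.End ℂ (U i)) : Diag P Q (ib P Q i y) := by
  intro j u
  by_cases hij : i = j
  · subst hij
    rw [pb_ib D, ib_apply, D.same]
  · rw [pb_ib_ne D (Ne.symm hij), ib_apply, D.diff i j hij, map_zero, map_zero,
      LinearMap.zero_apply, map_zero]

theorem ib_mul (i : Fin m) (y z : Module.End ℂ (U i)) :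
    ib P Q i y * ib P Q i z = ib P Q i (y * z) := by
  refine LinearMap.ext fun u => ?_
  rw [Module.End.mul_apply, ib_apply, ib_apply, ib_apply, D.same, Module.End.mul_apply]

theorem sum_ib {x : Module.End ℂ H} (hx : Diag P Q x) : ∑ i, ib P Q i (pb P Q i x) = x := by
  refine LinearMap.ext fun v => ?_
  rw [LinearMap.sum_apply]
  conv_rhs => rw [← D.sum v, map_sum]
  exact Finset.sum_congr rfl fun i _ => by rw [hx, ib_apply]

end dec

variable {r : Fin m → ℕ} {E : ∀ i, Fin (r i) → Module.End ℂ (U i)}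

/-- The sum of the orthogonal Lie algebras. -/
def soB (P : ∀ i, H →ₗ[ℂ] U i) (Q : ∀ i, U i →ₗ[ℂ] H)
    (E : ∀ i, Fin (r i) → Module.End ℂ (U i)) : Submodule ℂ (Module.End ℂ H) :=
  Submodule.span ℂ {x | ∃ i a b, a ≠ b ∧ x = ib P Q i (E i a * E i b)}

theorem soB_prop (D : Dec P Q) {x : Module.End ℂ H} (hx : x ∈ soB P Q E) :
    Diag P Q x ∧ ∀ i, pb P Q i x ∈ soE (E i) := by
  unfold soB at hx
  induction hx using Submodule.span_induction with
  | mem x hx =>
    obtain ⟨i, a, b, hab, rfl⟩ := hx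
    refine ⟨diag_ib D i _, fun j => ?_⟩
    by_cases hij : j = i
    · subst hij
      rw [pb_ib D]
      exact Submodule.subset_span ⟨a, b, hab, rfl⟩
    · rw [pb_ib_ne D hij]
      exact Submodule.zero_mem _
  | zero =>
    refine ⟨fun i u => ?_, fun i => ?_⟩
    · rw [map_zero, LinearMap.zero_apply, LinearMap.zero_apply, map_zero]
    · rw [map_zero]
      exact Submodule.zero_mem _
  | add x y _ _ hx hy =>
    refine ⟨diag_add D hx.1 hy.1, fun i => ?_⟩
    rw [map_add]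
    exact Submodule.add_mem _ (hx.2 i) (hy.2 i)
  | smul c x _ hx =>
    refine ⟨diag_smul D c hx.1, fun i => ?_⟩
    rw [map_smul]
    exact Submodule.smul_mem _ _ (hx.2 i)

/-- The hypotheses on the subalgebra. -/
structure SpHyp (P : ∀ i, H →ₗ[ℂ] U i) (Q : ∀ i, U i →ₗ[ℂ] H)
    (E : ∀ i, Fin (r i) → Module.End ℂ (U i)) (𝔥 : Submodule ℂ (Module.End ℂ H)) : Prop where
  dec : Dec P Q
  ce : ∀ i, CE (E i)
  le : 𝔥 ≤ soB P Q E
  br : ∀ x ∈ 𝔥, ∀ y ∈ 𝔥, x * y - y * x ∈ 𝔥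
  gen : ∀ i a b, a ≠ b → ib P Q i (E i a * E i b) ∈ Algebra.adjoin ℂ (𝔥 : Set (Module.End ℂ H))

namespace SpHyp

variable {𝔥 : Submodule ℂ (Module.End ℂ H)} (h : SpHyp P Q E 𝔥)
include h

theorem diag {x : Module.End ℂ H} (hx : x ∈ 𝔥) : Diag P Q x := (soB_prop h.dec (h.le hx)).1

theorem memE {x : Module.End ℂ H} (hx : x ∈ 𝔥) (i : Fin m) : pb P Q i x ∈ soE (E i) :=
  (soB_prop h.dec (h.le hx)).2 i

theorem pb_br {x y : Module.End ℂ H} (hx : x ∈ 𝔥) (hy : y ∈ 𝔥) (i : Fin m) :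
    pb P Q i (x * y - y * x) = pb P Q i x * pb P Q i y - pb P Q i y * pb P Q i x := by
  rw [map_sub, (diag_mul h.dec (h.diag hx) (h.diag hy)).2, (diag_mul h.dec (h.diag hy) (h.diag hx)).2]

theorem adj {x : Module.End ℂ H} (hx : x ∈ Algebra.adjoin ℂ (𝔥 : Set (Module.End ℂ H)))
    (i : Fin m) : Diag P Q x ∧ pb P Q i x ∈
      Algebra.adjoin ℂ (𝔥.map (pb P Q i) : Set (Module.End ℂ (U i))) := by
  induction hx using Algebra.adjoin_induction with
  | mem x hx => exact ⟨h.diag hx, Algebra.subset_adjoin ⟨x, hx, rfl⟩⟩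
  | algebraMap c =>
    rw [Algebra.algebraMap_eq_smul_one]
    refine ⟨diag_smul h.dec c (diag_one h.dec), ?_⟩
    rw [map_smul, pb_one h.dec]
    exact Subalgebra.smul_mem _ (Subalgebra.one_mem _) c
  | add x y _ _ hx hy =>
    refine ⟨diag_add h.dec hx.1 hy.1, ?_⟩
    rw [map_add]
    exact Subalgebra.add_mem _ hx.2 hy.2
  | mul x y _ _ hx hy =>
    obtain ⟨h1, h2⟩ := diag_mul h.dec hx.1 hy.1
    refine ⟨h1, ?_⟩
    rw [h2]
    exact Subalgebra.mul_mem _ hx.2 hy.2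

variable [∀ i, FiniteDimensional ℂ (U i)] [∀ i, Nontrivial (U i)]

theorem surj (hr : ∀ i, 6 ≤ r i) (i : Fin m) : ∀ y ∈ soE (E i), ∃ x ∈ 𝔥, pb P Q i x = y := by
  have h1 := main (hr i) (h.ce i) (𝔥.map (pb P Q i)) ?_ ?_ ?_
  · intro y hy
    exact Submodule.mem_map.1 (h1 hy)
  · rintro _ ⟨x, hx, rfl⟩
    exact h.memE hx i
  · rintro _ ⟨x, hx, rfl⟩ _ ⟨y, hy, rfl⟩
    exact ⟨x * y - y * x, h.br x hx y hy, h.pb_br hx hy i⟩
  · intro a b
    by_cases hab : a = b
    · subst hab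
      rw [(h.ce i).sq]
      exact Subalgebra.one_mem _
    · have h2 := (h.adj (h.gen i a b hab) i).2
      rwa [pb_ib h.dec] at h2

theorem ideal (hr : ∀ i, 6 ≤ r i) (i j : Fin m) :
    (∀ x ∈ 𝔥, pb P Q j x = 0 → pb P Q i x = 0) ∨
      ∀ y ∈ soE (E i), ∃ x ∈ 𝔥, pb P Q i x = y ∧ pb P Q j x = 0 := by
  have hsurj := h.surj hr i
  have hle : (𝔥 ⊓ LinearMap.ker (pb P Q j)).map (pb P Q i) ≤ soE (E i) := by
    rintro _ ⟨y, hy, rfl⟩
    exact h.memE hy.1 i
  have hid : ∀ x ∈ soE (E i), ∀ y ∈ (𝔥 ⊓ LinearMap.ker (pb P Q j)).map (pb P Q i),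
      x * y - y * x ∈ (𝔥 ⊓ LinearMap.ker (pb P Q j)).map (pb P Q i) := by
    rintro x hx _ ⟨y, hy, rfl⟩
    obtain ⟨y', hy', rfl⟩ := hsurj x hx
    refine ⟨y' * y - y * y', ⟨h.br y' hy' y hy.1, ?_⟩, h.pb_br hy' hy.1 i⟩
    refine LinearMap.mem_ker.2 ?_
    rw [h.pb_br hy' hy.1, LinearMap.mem_ker.1 hy.2, mul_zero, zero_mul, sub_zero]
  rcases so_simple (by have := hr i; omega) (h.ce i) _ hle hid with h1 | h1
  · left
    intro y hy hy0
    have h2 : pb P Q i y ∈ (𝔥 ⊓ LinearMap.ker (pb P Q j)).map (pb P Q i) :=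
      Submodule.mem_map_of_mem (Submodule.mem_inf.2 ⟨hy, LinearMap.mem_ker.2 hy0⟩)
    rw [h1] at h2
    exact (Submodule.mem_bot ℂ).1 h2
  · right
    intro x hx
    rw [← h1] at hx
    obtain ⟨y, hy, rfl⟩ := Submodule.mem_map.1 hx
    exact ⟨y, hy.1, rfl, LinearMap.mem_ker.1 hy.2⟩

theorem not_linked (hr : ∀ i, 6 ≤ r i) {i j : Fin m} (hij : i ≠ j) (h8 : r i ≠ 8)
    (h1 : ∀ x ∈ 𝔥, pb P Q i x = 0 → pb P Q j x = 0) : False := by
  let L : Submodule ℂ (Module.End ℂ (U i) × Module.End ℂ (U j)) :=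
    𝔥.map ((pb P Q i).prod (pb P Q j))
  have hL : ∀ x y, (x, y) ∈ L ↔ ∃ z ∈ 𝔥, pb P Q i z = x ∧ pb P Q j z = y := by
    intro x y
    constructor
    · rintro ⟨z, hz, hz'⟩
      exact ⟨z, hz, congrArg Prod.fst hz', congrArg Prod.snd hz'⟩
    · rintro ⟨z, hz, rfl, rfl⟩
      exact ⟨z, hz, rfl⟩
  have hlnk : Lnk (E i) (E j) L :=
    { l1 := fun x y hxy => by
        obtain ⟨z, hz, rfl, -⟩ := (hL x y).1 hxy
        exact h.memE hz i
      l2 := fun x y hxy => by
        obtain ⟨z, hz, -, rfl⟩ := (hL x y).1 hxy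
        exact h.memE hz j
      br := fun x y x' y' h2 h3 => by
        obtain ⟨z, hz, rfl, rfl⟩ := (hL x y).1 h2
        obtain ⟨z', hz', rfl, rfl⟩ := (hL x' y').1 h3
        exact (hL _ _).2 ⟨z * z' - z' * z, h.br z hz z' hz', h.pb_br hz hz' i, h.pb_br hz hz' j⟩
      s1 := fun x hx => by
        obtain ⟨z, hz, rfl⟩ := h.surj hr i x hx
        exact ⟨_, (hL _ _).2 ⟨z, hz, rfl, rfl⟩⟩
      s2 := fun y hy => by
        obtain ⟨z, hz, rfl⟩ := h.surj hr j y hy
        exact ⟨_, (hL _ _).2 ⟨z, hz, rfl, rfl⟩⟩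
      i2 := fun y hy => by
        obtain ⟨z, hz, h2, rfl⟩ := (hL _ _).1 hy
        exact h1 z hz h2 }
  obtain ⟨T, hT0, hT⟩ := hlnk.exists_inter (h.ce i) (h.ce j) (by have := hr i; omega)
    (by have := hr j; omega) h8
  let T' : Module.End ℂ H := Q j ∘ₗ T ∘ₗ P i
  have hT' : ∀ v, T' v = Q j (T (P i v)) := fun v => rfl
  have hcomm : ∀ x ∈ Algebra.adjoin ℂ (𝔥 : Set (Module.End ℂ H)), ∀ v, x (T' v) = T' (x v) := by
    intro x hx
    induction hx using Algebra.adjoin_induction with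
    | mem x hx =>
      intro v
      rw [hT', hT', h.diag hx, diag_P h.dec (h.diag hx)]
      congr 1
      exact hT _ _ ((hL _ _).2 ⟨x, hx, rfl, rfl⟩) _
    | algebraMap c =>
      intro v
      rw [Algebra.algebraMap_eq_smul_one, LinearMap.smul_apply, LinearMap.smul_apply, map_smul]
      rfl
    | add x y _ _ hx hy =>
      intro v
      rw [LinearMap.add_apply, LinearMap.add_apply, map_add, hx, hy]
    | mul x y _ _ hx hy =>
      intro v
      rw [Module.End.mul_apply, Module.End.mul_apply, hy, hx]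
  let a : Fin (r i) := ⟨0, by have := hr i; omega⟩
  let b : Fin (r i) := ⟨1, by have := hr i; omega⟩
  have hab : a ≠ b := fun h => by
    have := congrArg Fin.val h
    exact absurd this (by norm_num [a, b])
  have hgen := h.gen i a b hab
  have hsq : ib P Q i (E i a * E i b) * ib P Q i (E i a * E i b) = -ib P Q i 1 := by
    rw [ib_mul h.dec]
    have e1 : E i a * E i b * (E i a * E i b) = -1 := by
      calc E i a * E i b * (E i a * E i b) = E i a * (E i b * E i a) * E i b := by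
            simp only [mul_assoc]
        _ = -1 := by
          rw [(h.ce i).anti b a (Ne.symm hab), mul_neg, neg_mul, ← mul_assoc, (h.ce i).sq, one_mul,
            (h.ce i).sq]
    rw [e1, map_neg]
  have he := hcomm _ (Subalgebra.mul_mem _ hgen hgen)
  rw [hsq] at he
  apply hT0
  refine LinearMap.ext fun u => ?_
  have h2 := he (Q i u)
  rw [LinearMap.neg_apply, LinearMap.neg_apply, map_neg, ib_apply, ib_apply, hT', hT',
    Module.End.one_apply, Module.End.one_apply, h.dec.diff i j hij, h.dec.same, h.dec.same,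
    map_zero, neg_zero] at h2
  have h3 := congrArg (P j) h2
  rw [map_zero, map_neg, h.dec.same] at h3
  rw [LinearMap.zero_apply]
  exact neg_eq_zero.1 h3.symm

theorem two (hr : ∀ i, 6 ≤ r i) (h8 : ∀ i j, i ≠ j → r i = 8 → r j ≠ 8) {i j : Fin m}
    (hij : i ≠ j) : ∀ y ∈ soE (E i), ∃ x ∈ 𝔥, pb P Q i x = y ∧ pb P Q j x = 0 := by
  rcases h.ideal hr i j with h1 | h1
  swap
  · exact h1
  exfalso
  have hback : ∀ x ∈ 𝔥, pb P Q i x = 0 → pb P Q j x = 0 := by
    rcases h.ideal hr j i with h2 | h2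
    · exact h2
    exfalso
    let a : Fin (r i) := ⟨0, by have := hr i; omega⟩
    let b : Fin (r i) := ⟨1, by have := hr i; omega⟩
    have hab : a ≠ b := fun h => by
      have := congrArg Fin.val h
      exact absurd this (by norm_num [a, b])
    obtain ⟨y, hy, hyx⟩ := h.surj hr i (E i a * E i b) (Submodule.subset_span ⟨a, b, hab, rfl⟩)
    obtain ⟨y', hy', h4, h5⟩ := h2 (pb P Q j y) (h.memE hy j)
    have h6 := h1 (y - y') (sub_mem hy hy') (by rw [map_sub, h4, sub_self])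
    rw [map_sub, h5, sub_zero, hyx] at h6
    exact ColMain_ne (h.ce i) hab h6
  by_cases h9 : r i = 8
  · exact h.not_linked hr (Ne.symm hij) (h8 i j hij h9) h1
  · exact h.not_linked hr hij h9 hback

theorem ribet (hr : ∀ i, 6 ≤ r i) (h8 : ∀ i j, i ≠ j → r i = 8 → r j ≠ 8) {i : Fin m}
    (S : Finset (Fin m)) : i ∉ S → ∀ y ∈ soE (E i), ∃ x ∈ 𝔥, pb P Q i x = y ∧
      ∀ t ∈ S, pb P Q t x = 0 := by
  classical
  induction S using Finset.induction_on with
  | empty =>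
    intro _ x hx
    obtain ⟨y, hy, hyx⟩ := h.surj hr i x hx
    exact ⟨y, hy, hyx, fun t ht => absurd ht (Finset.notMem_empty t)⟩
  | insert t S htS ih =>
    intro hiS x hx
    have hiS' : i ∉ S := fun h => hiS (Finset.mem_insert_of_mem h)
    have hit : i ≠ t := fun h => hiS (h ▸ Finset.mem_insert_self _ _)
    let K : Submodule ℂ (Module.End ℂ H) := 𝔥 ⊓ ⨅ t' ∈ insert t S, LinearMap.ker (pb P Q t')
    have hK : ∀ y, y ∈ K ↔ y ∈ 𝔥 ∧ ∀ t' ∈ insert t S, pb P Q t' y = 0 := by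
      intro y
      simp only [K, Submodule.mem_inf, Submodule.mem_iInf, LinearMap.mem_ker]
    have hle : Submodule.span ℂ {z | ∃ x ∈ soE (E i), ∃ y ∈ soE (E i), z = x * y - y * x} ≤
        K.map (pb P Q i) := by
      refine Submodule.span_le.2 ?_
      rintro _ ⟨x1, hx1, x2, hx2, rfl⟩
      obtain ⟨y1, hy1, h1, h2⟩ := ih hiS' x1 hx1
      obtain ⟨y2, hy2, h3, h4⟩ := h.two hr h8 hit x2 hx2
      refine ⟨y1 * y2 - y2 * y1, (hK _).2 ⟨h.br y1 hy1 y2 hy2, fun t' ht' => ?_⟩, ?_⟩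
      · rcases Finset.mem_insert.1 ht' with h5 | h5
        · rw [h5, h.pb_br hy1 hy2, h4, mul_zero, zero_mul, sub_zero]
        · rw [h.pb_br hy1 hy2, h2 t' h5, mul_zero, zero_mul, sub_zero]
      · rw [h.pb_br hy1 hy2, h1, h3]
    obtain ⟨y, hy, hyx⟩ := Submodule.mem_map.1 (hle (so_perfect (by have := hr i; omega) (h.ce i) hx))
    exact ⟨y, ((hK y).1 hy).1, hyx, ((hK y).1 hy).2⟩

/-- **Theorem.** A Lie subalgebra of a sum of orthogonal Lie algebras, which act on a sum of spin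
representations, and which generates the same associative algebra, is everything. -/
theorem all (hr : ∀ i, 6 ≤ r i) (h8 : ∀ i j, i ≠ j → r i = 8 → r j ≠ 8) : soB P Q E ≤ 𝔥 := by
  classical
  refine Submodule.span_le.2 ?_
  rintro _ ⟨i, a, b, hab, rfl⟩
  obtain ⟨x, hx, h1, h2⟩ := h.ribet hr h8 (i := i) (Finset.univ.erase i)
    (Finset.notMem_erase _ _) _ (Submodule.subset_span ⟨a, b, hab, rfl⟩)
  have h3 := sum_ib h.dec (h.diag hx)
  rw [Finset.sum_eq_single i (fun t _ ht => by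
    rw [h2 t (Finset.mem_erase.2 ⟨ht, Finset.mem_univ _⟩), map_zero])
    (fun h => absurd (Finset.mem_univ _) h), h1] at h3
  change ib P Q i (E i a * E i b) ∈ 𝔥
  rw [h3]
  exact hx

end SpHyp

end Pool.Agent.R918.Sp

end
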