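import Pool.Agent.R918.SpF

set_option autoImplicit false
set_option linter.unusedSectionVars false
set_option linter.unusedVariables false

/-!
# Isomorphisms between sums of orthogonal Lie algebras: intertwining maps
-/

open Module Matrix

noncomputable section

namespace Pool.Agent.R918.Sp

open Pool.Agent.Y102.SP

section inter

variable {U₁ U₂ : Type} [AddCommGroup U₁] [Module ℂ U₁] [AddCommGroup U₂] [Module ℂ U₂]

/-- Intertwining maps between two modules over a tensor product of Clifford algebras. -/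
theorem inter_col [Nontrivial U₁] [Nontrivial U₂] {ι κ : Type} [DecidableEq ι]
    (S : Finset ι) (c : ι → κ)
    (X : ι → Module.End ℂ U₁) (Y : ι → Module.End ℂ U₂) (e : ι → Module.End ℂ U₁)
    (he : ∀ a u, e a (e a u) = u) :
    (∀ a ∈ S, ∀ u, X a (X a u) = -u) →
    (∀ a ∈ S, ∀ b ∈ S, a ≠ b → c a = c b → ∀ u, X a (X b u) = -X b (X a u)) →
    (∀ a ∈ S, ∀ b ∈ S, c a ≠ c b → ∀ u, X a (X b u) = X b (X a u)) →
    (∀ a ∈ S, ∀ u, Y a (Y a u) = -u) →
    (∀ a ∈ S, ∀ b ∈ S, a ≠ b → c a = c b → ∀ u, Y a (Y b u) = -Y b (Y a u)) →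
    (∀ a ∈ S, ∀ b ∈ S, c a ≠ c b → ∀ u, Y a (Y b u) = Y b (Y a u)) →
    (∀ a ∈ S, ∀ b ∈ S, c a = c b → ∀ u, e b (X a u) = -X a (e b u)) →
    (∀ a ∈ S, ∀ b ∈ S, c a ≠ c b → ∀ u, e b (X a u) = X a (e b u)) →
    ∃ T : U₁ →ₗ[ℂ] U₂, T ≠ 0 ∧ ∀ a ∈ S, ∀ u, Y a (T u) = T (X a u) := by
  induction S using Finset.induction_on with
  | empty =>
    intro _ _ _ _ _ _ _ _
    obtain ⟨T, hT⟩ := exists_hom (U₁ := U₁) (U₂ := U₂)
    exact ⟨T, hT, fun a ha => absurd ha (Finset.notMem_empty a)⟩
  | insert b S hb ih =>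
    intro hX hXX hXc hY hYY hYc heX heXc
    have hS : ∀ a ∈ S, a ∈ insert b S := fun a ha => Finset.mem_insert_of_mem ha
    have hbS : b ∈ insert b S := Finset.mem_insert_self _ _
    have hab : ∀ a ∈ S, a ≠ b := fun a ha h => hb (h ▸ ha)
    obtain ⟨T, hT0, hT⟩ := ih (fun a ha => hX a (hS a ha))
      (fun a ha c hc => hXX a (hS a ha) c (hS c hc)) (fun a ha c hc => hXc a (hS a ha) c (hS c hc))
      (fun a ha => hY a (hS a ha))
      (fun a ha c hc => hYY a (hS a ha) c (hS c hc)) (fun a ha c hc => hYc a (hS a ha) c (hS c hc))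
      (fun a ha c hc => heX a (hS a ha) c (hS c hc))
      (fun a ha c hc => heXc a (hS a ha) c (hS c hc))
    by_cases h0 : T - Y b ∘ₗ T ∘ₗ X b = 0
    · have h1 : ∀ u, T u = Y b (T (X b u)) := by
        intro u
        have h2 := congrArg (fun F : U₁ →ₗ[ℂ] U₂ => F u) h0
        simp only [LinearMap.sub_apply, LinearMap.comp_apply, LinearMap.zero_apply] at h2
        exact sub_eq_zero.1 h2
      have h2 : ∀ u, Y b (T u) = -T (X b u) := by
        intro u
        have h3 := h1 (X b u)
        rw [hX b hbS, map_neg, map_neg] at h3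
        rw [h3, neg_neg]
      refine ⟨T ∘ₗ e b ∘ₗ X b, fun h3 => hT0 ?_, fun a ha u => ?_⟩
      · refine LinearMap.ext fun u => ?_
        have h4 := congrArg (fun F : U₁ →ₗ[ℂ] U₂ => F (-X b (e b u))) h3
        simp only [LinearMap.comp_apply, LinearMap.zero_apply, map_neg] at h4
        rw [hX b hbS, map_neg, map_neg, neg_neg, he] at h4
        rw [h4, LinearMap.zero_apply, neg_zero]
      · rw [LinearMap.comp_apply, LinearMap.comp_apply, LinearMap.comp_apply,
          LinearMap.comp_apply]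
        rcases Finset.mem_insert.1 ha with rfl | ha
        · rw [h2, ← map_neg, ← heX a hbS a hbS rfl]
        · by_cases hc : c a = c b
          · rw [hT a ha, ← neg_neg (X a (e b (X b u))), ← heX a (hS a ha) b hbS hc,
              hXX a (hS a ha) b hbS (hab a ha) hc, map_neg, map_neg, map_neg, neg_neg]
          · rw [hT a ha, ← heXc a (hS a ha) b hbS hc, hXc a (hS a ha) b hbS hc]
    · refine ⟨_, h0, fun a ha u => ?_⟩
      simp only [LinearMap.sub_apply, LinearMap.comp_apply, map_sub]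
      rcases Finset.mem_insert.1 ha with rfl | ha
      · rw [hY a hbS, hX a hbS, map_neg, map_neg]
        abel
      · by_cases hc : c a = c b
        · rw [hT a ha, hYY a (hS a ha) b hbS (hab a ha) hc, hT a ha,
            hXX a (hS a ha) b hbS (hab a ha) hc, map_neg, map_neg, neg_neg]
        · rw [hT a ha, hYc a (hS a ha) b hbS hc, hT a ha, hXc a (hS a ha) b hbS hc]

end inter

variable {r s : ℕ} {U₁ U₂ : Type} [AddCommGroup U₁] [Module ℂ U₁] [AddCommGroup U₂] [Module ℂ U₂]
variable {E : Fin r → Module.End ℂ U₁} {E' : Fin s → Module.End ℂ U₂}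
  {L : Submodule ℂ (Module.End ℂ U₁ × Module.End ℂ U₂)}

/-- The relations between the images of the generators. -/
theorem Lnk.rels (h : Lnk E E' L) (hE : CE E) (hE' : CE E') [Nontrivial U₂] [Nontrivial U₁]
    (hr : 5 ≤ r) (hs : 2 ≤ s) (hr8 : r ≠ 8) (o : Fin r) :
    ∃ y : Fin r → Module.End ℂ U₂, (∀ a, a ≠ o → (E o * E a, y a) ∈ L) ∧
      (∀ a, a ≠ o → y a * y a = -1) ∧
      ∀ a b, a ≠ o → b ≠ o → a ≠ b → y a * y b = -(y b * y a) := by
  obtain ⟨f, h1, h2, h3⟩ := h.exists_f hE hE'
  have ha := h.aut hE hE' h1 h2 h3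
  obtain ⟨c0, hc⟩ := ha.exists_const hr
  have hsr := sizes ha hr hs
  rw [const_eq ha hr hs hc] at hc
  have hs8 : s ≠ 8 := by omega
  have hY2 : ∀ a, a ≠ o → rc E' (f o a) * rc E' (f o a) = -1 := by
    intro a hao
    refine h.sq_neg_one hE hE' hs8 ?_ (h2 o a) (h1 o a (Ne.symm hao)) ?_
    · calc E o * E a * (E o * E a) = E o * (E a * E o) * E a := by simp only [mul_assoc]
        _ = -1 := by
          rw [hE.anti a o hao, mul_neg, neg_mul, ← mul_assoc, hE.sq, one_mul, hE.sq]
    · rw [hc, if_pos ⟨rfl, rfl⟩, if_neg (fun h => hao h.1.symm)]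
      ring
  have hYY : ∀ a b, a ≠ o → b ≠ o → a ≠ b →
      rc E' (f o a) * rc E' (f o b) = -(rc E' (f o b) * rc E' (f o a)) := by
    intro a b hao hbo hab
    obtain ⟨κ, hκ⟩ := IsAlgClosed.exists_pow_nat_eq (1 / 2 : ℂ) (n := 2) (by norm_num)
    have hκ' : κ * κ = 1 / 2 := by rw [← hκ]; ring
    have hsk : (κ • (f o a + f o b))ᵀ = -(κ • (f o a + f o b)) := by
      rw [Matrix.transpose_smul, Matrix.transpose_add, h2, h2, ← neg_add, smul_neg]
    have e1 : E o * E a * (E o * E a) = -1 := by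
      calc E o * E a * (E o * E a) = E o * (E a * E o) * E a := by simp only [mul_assoc]
        _ = -1 := by
          rw [hE.anti a o hao, mul_neg, neg_mul, ← mul_assoc, hE.sq, one_mul, hE.sq]
    have e2 : E o * E b * (E o * E b) = -1 := by
      calc E o * E b * (E o * E b) = E o * (E b * E o) * E b := by simp only [mul_assoc]
        _ = -1 := by
          rw [hE.anti b o hbo, mul_neg, neg_mul, ← mul_assoc, hE.sq, one_mul, hE.sq]
    have e3 : E o * E a * (E o * E b) = -(E a * E b) := by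
      calc E o * E a * (E o * E b) = E o * (E a * E o) * E b := by simp only [mul_assoc]
        _ = _ := by rw [hE.anti a o hao, mul_neg, neg_mul, ← mul_assoc, hE.sq, one_mul]
    have e4 : E o * E b * (E o * E a) = -(E b * E a) := by
      calc E o * E b * (E o * E a) = E o * (E b * E o) * E a := by simp only [mul_assoc]
        _ = _ := by rw [hE.anti b o hbo, mul_neg, neg_mul, ← mul_assoc, hE.sq, one_mul]
    have h4 := h.sq_neg_one hE hE' hs8 (x := κ • (E o * E a + E o * E b)) ?_ hsk ?_ ?_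
    · rw [map_smul, map_add, smul_mul_smul_comm, hκ'] at h4
      have h5 : (rc E' (f o a) + rc E' (f o b)) * (rc E' (f o a) + rc E' (f o b)) =
          (2 : ℂ) • (-1 : Module.End ℂ U₂) := by
        rw [← h4, smul_smul]
        norm_num
      have h6 : (rc E' (f o a) + rc E' (f o b)) * (rc E' (f o a) + rc E' (f o b)) =
          rc E' (f o a) * rc E' (f o a) + rc E' (f o b) * rc E' (f o b) +
            (rc E' (f o a) * rc E' (f o b) + rc E' (f o b) * rc E' (f o a)) := by
        noncomm_ring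
      rw [h6, hY2 a hao, hY2 b hbo, two_smul] at h5
      rw [eq_neg_iff_add_eq_zero]
      exact add_eq_left.1 h5
    · rw [smul_mul_smul_comm, hκ']
      have h5 : (E o * E a + E o * E b) * (E o * E a + E o * E b) =
          E o * E a * (E o * E a) + E o * E b * (E o * E b) +
            (E o * E a * (E o * E b) + E o * E b * (E o * E a)) := by noncomm_ring
      rw [h5, e1, e2, e3, e4, hE.anti a b hab]
      module
    · have h5 := L.smul_mem κ (L.add_mem (h1 o a (Ne.symm hao)) (h1 o b (Ne.symm hbo)))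
      rw [Prod.mk_add_mk, Prod.smul_mk, ← map_add, ← map_smul] at h5
      exact h5
    · rw [Matrix.smul_mul, Matrix.mul_smul, smul_smul, hκ', Matrix.trace_smul, Matrix.add_mul,
        Matrix.mul_add, Matrix.mul_add, Matrix.trace_add, Matrix.trace_add, Matrix.trace_add, hc,
        hc, hc, hc, if_pos ⟨rfl, rfl⟩, if_neg (fun h => hao h.1.symm),
        if_neg (fun h => hab h.2), if_neg (fun h => hbo h.1.symm), if_neg (fun h => hab h.2.symm),
        if_neg (fun h => hao h.1.symm), if_pos ⟨rfl, rfl⟩, if_neg (fun h => hbo h.1.symm),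
        smul_eq_mul]
      ring
  exact ⟨fun a => rc E' (f o a), fun a hao => h1 o a (Ne.symm hao), hY2, hYY⟩

end Pool.Agent.R918.Sp

end
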