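import Pool.Agent.R918.SqA

set_option autoImplicit false
set_option linter.unusedSectionVars false
set_option linter.unusedVariables false

/-!
# Isomorphisms between sums of orthogonal Lie algebras: the colours
-/

open Module Matrix

noncomputable section

namespace Pool.Agent.R918.Sp

open Pool.Agent.Y102.SP

section sub

variable {U : Type} [AddCommGroup U] [Module ℂ U]

/-- The subfamily of one colour. -/
theorem sub_col {N k : ℕ} {E : Fin N → Module.End ℂ U} {c : Fin N → Fin k} (hE : CE E) (s : Fin k) :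
    ∃ (n : ℕ) (e : Fin n ≃ {j : Fin N // c j = s}),
      n = (Finset.univ.filter fun j => c j = s).card ∧ CE (fun a => E (e a).1) ∧
      soE (fun a => E (e a).1) = soS E c s := by
  classical
  have hcard : Fintype.card {j : Fin N // c j = s} = (Finset.univ.filter fun j => c j = s).card :=
    Fintype.card_subtype _
  let e : Fin (Finset.univ.filter fun j => c j = s).card ≃ {j : Fin N // c j = s} :=
    (finCongr hcard.symm).trans (Fintype.equivFin {j : Fin N // c j = s}).symm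
  have hinj : ∀ a b, a ≠ b → (e a).1 ≠ (e b).1 := fun a b hab h => hab (e.injective (Subtype.ext h))
  refine ⟨_, e, rfl, ⟨fun a => hE.sq _, fun a b hab => hE.anti _ _ (hinj a b hab)⟩, ?_⟩
  refine le_antisymm (Submodule.span_mono ?_) (Submodule.span_mono ?_)
  · rintro _ ⟨a, b, hab, rfl⟩
    exact ⟨_, _, hinj a b hab, (e a).2, (e b).2, rfl⟩
  · rintro _ ⟨i, j, hij, hi, hj, rfl⟩
    refine ⟨e.symm ⟨i, hi⟩, e.symm ⟨j, hj⟩, ?_, ?_⟩
    · intro h
      exact hij (congrArg Subtype.val (e.symm.injective h))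
    · simp

/-- brackets with elements of one colour -/
theorem soC_soS {N k : ℕ} {E : Fin N → Module.End ℂ U} {c : Fin N → Fin k} (hE : CE E)
    {s : Fin k} {x w : Module.End ℂ U} (hx : x ∈ soS E c s) (hw : w ∈ soC E c) :
    x * w - w * x ∈ soS E c s := by
  have h1 : x * w - w * x = ∑ t, (x * pS E c t w - pS E c t w * x) := by
    conv_lhs => rw [pS_sum hE hw]
    rw [Finset.mul_sum, Finset.sum_mul, Finset.sum_sub_distrib]
  rw [h1]
  refine Submodule.sum_mem _ fun t _ => ?_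
  by_cases h : s = t
  · subst h
    exact soS_br hE hx (pS_mem hE hw)
  · rw [soS_comm hE h hx (pS_mem hE hw), sub_self]
    exact Submodule.zero_mem _

/-- the centre of the Lie algebra of one colour is zero -/
theorem centreless [FiniteDimensional ℂ U] [Nontrivial U] {N k : ℕ} {E : Fin N → Module.End ℂ U}
    {c : Fin N → Fin k} (hE : CE E)
    {s : Fin k} (hs : 6 ≤ (Finset.univ.filter fun j => c j = s).card) {u : Module.End ℂ U}
    (hu : u ∈ soS E c s) (hu0 : u ≠ 0) : ∃ z ∈ soS E c s, u * z - z * u ≠ 0 := by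
  by_contra hcon
  push Not at hcon
  have a1 : Submodule.span ℂ {u} ≤ soS E c s := by
    rw [Submodule.span_singleton_le_iff_mem]
    exact hu
  have a2 : ∀ x ∈ soS E c s, ∀ y ∈ Submodule.span ℂ {u},
      x * y - y * x ∈ Submodule.span ℂ {u} := by
    intro x hx y hy
    obtain ⟨t, rfl⟩ := Submodule.mem_span_singleton.1 hy
    have h4 := hcon x hx
    have h5 : x * t • u - t • u * x = -(t • (u * x - x * u)) := by
      rw [smul_mul_assoc, mul_smul_comm, smul_sub]
      abel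
    rw [h5, h4, smul_zero, neg_zero]
    exact Submodule.zero_mem _
  rcases ColMain_simple hE hs (Submodule.span ℂ {u}) a1 a2 with h | h
  · exact hu0 ((Submodule.mem_bot ℂ).1 (h ▸ Submodule.mem_span_singleton_self u))
  · have h2 := ColMain_perfect hE hs hu
    have h3 : Submodule.span ℂ {z | ∃ x ∈ soS E c s, ∃ y ∈ soS E c s, z = x * y - y * x} ≤ ⊥ := by
      refine Submodule.span_le.2 ?_
      rintro _ ⟨x, hx, y, hy, rfl⟩
      rw [← h] at hx
      obtain ⟨t, rfl⟩ := Submodule.mem_span_singleton.1 hx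
      have h4 := hcon y hy
      refine (Submodule.mem_bot ℂ).2 ?_
      rw [smul_mul_assoc, mul_smul_comm, ← smul_sub, h4, smul_zero]
    exact hu0 ((Submodule.mem_bot ℂ).1 (h3 h2))

end sub

variable {U₁ U₂ : Type} [AddCommGroup U₁] [Module ℂ U₁] [AddCommGroup U₂] [Module ℂ U₂]
  [FiniteDimensional ℂ U₁] [Nontrivial U₁] [FiniteDimensional ℂ U₂] [Nontrivial U₂]
  {N k N' k' : ℕ}

/-- The graph of an isomorphism between two sums of orthogonal Lie algebras. -/
structure LnkC (E : Fin N → Module.End ℂ U₁) (c : Fin N → Fin k) (E' : Fin N' → Module.End ℂ U₂)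
    (c' : Fin N' → Fin k') (L : Submodule ℂ (Module.End ℂ U₁ × Module.End ℂ U₂)) : Prop where
  l1 : ∀ x y, (x, y) ∈ L → x ∈ soC E c
  l2 : ∀ x y, (x, y) ∈ L → y ∈ soC E' c'
  br : ∀ x y x' y', (x, y) ∈ L → (x', y') ∈ L → (x * x' - x' * x, y * y' - y' * y) ∈ L
  s1 : ∀ x ∈ soC E c, ∃ y, (x, y) ∈ L
  s2 : ∀ y ∈ soC E' c', ∃ x, (x, y) ∈ L
  i1 : ∀ x, (x, 0) ∈ L → x = 0
  i2 : ∀ y, (0, y) ∈ L → y = 0

namespace LnkC

variable {E : Fin N → Module.End ℂ U₁} {c : Fin N → Fin k} {E' : Fin N' → Module.End ℂ U₂}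
  {c' : Fin N' → Fin k'} {L : Submodule ℂ (Module.End ℂ U₁ × Module.End ℂ U₂)}
  (h : LnkC E c E' c' L) (hE : CE E) (hE' : CE E')
  (hc : ∀ i, 6 ≤ (Finset.univ.filter fun j => c j = c i).card)
  (hc' : ∀ i, 6 ≤ (Finset.univ.filter fun j => c' j = c' i).card)
include h hE hE' hc hc'

theorem uniq {x : Module.End ℂ U₁} {y y' : Module.End ℂ U₂} (h1 : (x, y) ∈ L) (h2 : (x, y') ∈ L) :
    y = y' := by
  have h3 := L.sub_mem h1 h2
  rw [Prod.mk_sub_mk, sub_self] at h3
  exact sub_eq_zero.1 (h.i2 _ h3)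

theorem uniq' {x x' : Module.End ℂ U₁} {y : Module.End ℂ U₂} (h1 : (x, y) ∈ L) (h2 : (x', y) ∈ L) :
    x = x' := by
  have h3 := L.sub_mem h1 h2
  rw [Prod.mk_sub_mk, sub_self] at h3
  exact sub_eq_zero.1 (h.i1 _ h3)

/-- the colour corresponding to a colour -/
theorem exists_colour (i0 : Fin N) : ∃ τ : Fin k', 6 ≤ (Finset.univ.filter fun j => c' j = τ).card ∧
    (∀ x y, (x, y) ∈ L → x ∈ soS E c (c i0) → y ∈ soS E' c' τ) ∧
    ∀ y ∈ soS E' c' τ, ∃ x ∈ soS E c (c i0), (x, y) ∈ L := by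
  classical
  obtain ⟨σ, hσ⟩ : ∃ σ, σ = c i0 := ⟨_, rfl⟩
  have hs : 6 ≤ (Finset.univ.filter fun j => c j = σ).card := by rw [hσ]; exact hc i0
  rw [← hσ]
  -- a nonzero element
  obtain ⟨x0, hx0, hx00⟩ : ∃ x0 ∈ soS E c σ, x0 ≠ 0 := by
    obtain ⟨i, hi, j, hj, hij⟩ := Finset.one_lt_card.1 (lt_of_lt_of_le (by norm_num : 1 < 6) hs)
    exact ⟨E i * E j, Submodule.subset_span ⟨i, j, hij, (Finset.mem_filter.1 hi).2,
      (Finset.mem_filter.1 hj).2, rfl⟩, ColMain_ne hE hij⟩
  obtain ⟨y0, hy0⟩ := h.s1 x0 (soS_le σ hx0)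
  have hy00 : y0 ≠ 0 := fun h0 => hx00 (h.i1 _ (h0 ▸ hy0))
  obtain ⟨τ, hτ⟩ : ∃ τ, pS E' c' τ y0 ≠ 0 := by
    by_contra hcon
    push Not at hcon
    apply hy00
    rw [pS_sum hE' (h.l2 _ _ hy0)]
    exact Finset.sum_eq_zero fun t _ => hcon t
  have ht : 6 ≤ (Finset.univ.filter fun j => c' j = τ).card := by
    by_contra hcon
    have h1 : ∀ i, c' i ≠ τ := by
      intro i hi
      apply hcon
      rw [← hi]
      exact hc' i
    exact hτ (ColMain_empty h1 y0)
  have hmap : ∀ x y, (x, y) ∈ L → x ∈ soS E c σ → y ∈ soS E' c' τ := by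
    -- the ideals
    have hideal : ∀ t : Fin k', (∀ x y, (x, y) ∈ L → x ∈ soS E c σ → pS E' c' t y = 0 → x = 0) ∨
        ∀ x ∈ soS E c σ, ∃ y, (x, y) ∈ L ∧ pS E' c' t y = 0 := by
      intro t
      let J : Submodule ℂ (Module.End ℂ U₁) :=
        { carrier := {x | x ∈ soS E c σ ∧ ∃ y, (x, y) ∈ L ∧ pS E' c' t y = 0}
          zero_mem' := ⟨Submodule.zero_mem _, 0, L.zero_mem, map_zero _⟩
          add_mem' := by
            rintro x x' ⟨h1, y, h2, h3⟩ ⟨h4, y', h5, h6⟩
            exact ⟨Submodule.add_mem _ h1 h4, y + y', L.add_mem h2 h5, by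
              rw [map_add, h3, h6, add_zero]⟩
          smul_mem' := by
            rintro a x ⟨h1, y, h2, h3⟩
            exact ⟨Submodule.smul_mem _ a h1, a • y, L.smul_mem a h2, by
              rw [map_smul, h3, smul_zero]⟩ }
      have hJ : ∀ x ∈ soS E c σ, ∀ z ∈ J, x * z - z * x ∈ J := by
        rintro x hx z ⟨hz, y, hy1, hy2⟩
        obtain ⟨y', hy'⟩ := h.s1 x (soS_le σ hx)
        refine ⟨soS_br hE hx hz, _, h.br _ _ _ _ hy' hy1, ?_⟩
        rw [pS_br hE' (h.l2 _ _ hy') (h.l2 _ _ hy1), hy2, mul_zero, zero_mul, sub_zero]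
      rcases ColMain_simple hE hs J (fun x hx => hx.1) hJ with h1 | h1
      · left
        intro x y hxy hx hy
        have h2 : x ∈ J := ⟨hx, y, hxy, hy⟩
        rw [h1] at h2
        exact (Submodule.mem_bot ℂ).1 h2
      · right
        intro x hx
        rw [← h1] at hx
        exact hx.2
    have hother : ∀ t, t ≠ τ → ∀ x ∈ soS E c σ, ∃ y, (x, y) ∈ L ∧ pS E' c' t y = 0 := by
      intro t htτ
      rcases hideal t with h1 | h1
      swap
      · exact h1
      exfalso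
      obtain ⟨z, hz, hz0⟩ := centreless hE' ht (pS_mem hE' (σ := τ) (h.l2 _ _ hy0)) hτ
      obtain ⟨w, hw⟩ := h.s2 z (soS_le τ hz)
      have h2 := h.br _ _ _ _ hy0 hw
      have h3 := soC_soS hE hx0 (h.l1 _ _ hw)
      have h4 : pS E' c' t (y0 * z - z * y0) = 0 := by
        rw [pS_br hE' (h.l2 _ _ hy0) (soS_le τ hz), pS_other hE' htτ hz, mul_zero, zero_mul,
          sub_zero]
      have h5 : pS E' c' τ (y0 * z - z * y0) ≠ 0 := by
        rw [pS_br hE' (h.l2 _ _ hy0) (soS_le τ hz), pS_same hE' hz]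
        exact hz0
      have h6 := h1 _ _ h2 h3 h4
      rw [h6] at h2
      apply h5
      rw [h.i2 _ h2, map_zero]
    intro x y hxy hx
    rw [pS_sum hE' (h.l2 _ _ hxy), Finset.sum_eq_single τ]
    · exact pS_mem hE' (h.l2 _ _ hxy)
    · intro t _ htτ
      obtain ⟨y', h1, h2⟩ := hother t htτ x hx
      rw [h.uniq hE hE' hc hc' hxy h1, h2]
    · intro h1; exact absurd (Finset.mem_univ _) h1
  refine ⟨τ, ht, hmap, ?_⟩
  let I : Submodule ℂ (Module.End ℂ U₂) :=
    { carrier := {y | y ∈ soS E' c' τ ∧ ∃ x ∈ soS E c σ, (x, y) ∈ L}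
      zero_mem' := ⟨Submodule.zero_mem _, 0, Submodule.zero_mem _, L.zero_mem⟩
      add_mem' := by
        rintro y y' ⟨h1, x, h2, h3⟩ ⟨h4, x', h5, h6⟩
        exact ⟨Submodule.add_mem _ h1 h4, x + x', Submodule.add_mem _ h2 h5, L.add_mem h3 h6⟩
      smul_mem' := by
        rintro a y ⟨h1, x, h2, h3⟩
        exact ⟨Submodule.smul_mem _ a h1, a • x, Submodule.smul_mem _ a h2, L.smul_mem a h3⟩ }
  have hI : ∀ z ∈ soS E' c' τ, ∀ y ∈ I, z * y - y * z ∈ I := by
    rintro z hz y ⟨hy, x, hx, hxy⟩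
    obtain ⟨w, hw⟩ := h.s2 z (soS_le τ hz)
    refine ⟨soS_br hE' hz hy, w * x - x * w, ?_, h.br _ _ _ _ hw hxy⟩
    have h1 := Submodule.neg_mem _ (soC_soS hE hx (h.l1 _ _ hw))
    rwa [neg_sub] at h1
  rcases ColMain_simple hE' ht I (fun y hy => hy.1) hI with h1 | h1
  · exfalso
    have h2 : y0 ∈ I := ⟨hmap x0 y0 hy0 hx0, x0, hx0, hy0⟩
    rw [h1] at h2
    exact hy00 ((Submodule.mem_bot ℂ).1 h2)
  · intro y hy
    rw [← h1] at hy
    exact hy.2


/-- The relations between the images of the generators of one colour. -/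
theorem colour_rels (h8 : ∀ i, (Finset.univ.filter fun j => c j = c i).card ≠ 8) (o : Fin N) :
    ∃ y : Fin N → Module.End ℂ U₂, (∀ a, c a = c o → a ≠ o → (E o * E a, y a) ∈ L) ∧
      (∀ a, c a = c o → a ≠ o → y a * y a = -1) ∧
      ∀ a b, c a = c o → c b = c o → a ≠ o → b ≠ o → a ≠ b → y a * y b = -(y b * y a) := by
  classical
  obtain ⟨τ, ht, hmap, hsurj⟩ := h.exists_colour hE hE' hc hc' o
  obtain ⟨n, e, hn, hCE, hso⟩ := sub_col hE (c o)
  obtain ⟨n', e', hn', hCE', hso'⟩ := sub_col hE' τ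
  let L' : Submodule ℂ (Module.End ℂ U₁ × Module.End ℂ U₂) :=
    L ⊓ (soS E c (c o)).comap (LinearMap.fst ℂ _ _)
  have hL' : ∀ x y, (x, y) ∈ L' ↔ (x, y) ∈ L ∧ x ∈ soS E c (c o) := fun x y => Iff.rfl
  have hlnk : Lnk (fun a => E (e a).1) (fun a => E' (e' a).1) L' :=
    { l1 := fun x y hxy => by
        rw [hso]
        exact ((hL' x y).1 hxy).2
      l2 := fun x y hxy => by
        rw [hso']
        exact hmap x y ((hL' x y).1 hxy).1 ((hL' x y).1 hxy).2
      br := fun x y x' y' h1 h2 => by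
        rw [hL'] at h1 h2 ⊢
        exact ⟨h.br _ _ _ _ h1.1 h2.1, soS_br hE h1.2 h2.2⟩
      s1 := fun x hx => by
        rw [hso] at hx
        obtain ⟨y, hy⟩ := h.s1 x (soS_le _ hx)
        exact ⟨y, (hL' x y).2 ⟨hy, hx⟩⟩
      s2 := fun y hy => by
        rw [hso'] at hy
        obtain ⟨x, hx, hxy⟩ := hsurj y hy
        exact ⟨x, (hL' x y).2 ⟨hxy, hx⟩⟩
      i2 := fun y hy => h.i2 y ((hL' 0 y).1 hy).1 }
  have hn6 : 6 ≤ n := hn ▸ hc o
  have hn6' : 6 ≤ n' := hn' ▸ ht
  obtain ⟨y', h1, h2, h3⟩ := hlnk.rels hCE hCE' (by omega) (by omega) (by rw [hn]; exact h8 o)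
    (e.symm ⟨o, rfl⟩)
  have hne : ∀ a (ha : c a = c o), a ≠ o → e.symm ⟨a, ha⟩ ≠ e.symm ⟨o, rfl⟩ := by
    intro a ha hao h4
    exact hao (congrArg Subtype.val (e.symm.injective h4))
  refine ⟨fun a => if ha : c a = c o then y' (e.symm ⟨a, ha⟩) else 0, fun a ha hao => ?_,
    fun a ha hao => ?_, fun a b ha hb hao hbo hab => ?_⟩
  · have h4 := ((hL' _ _).1 (h1 _ (hne a ha hao))).1
    simp only [Equiv.apply_symm_apply] at h4
    simp only [dif_pos ha]
    exact h4
  · simp only [dif_pos ha]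
    exact h2 _ (hne a ha hao)
  · simp only [dif_pos ha, dif_pos hb]
    exact h3 _ _ (hne a ha hao) (hne b hb hbo) fun h4 =>
      hab (congrArg Subtype.val (e.symm.injective h4))

/-- **Theorem.** An isomorphism between two sums of orthogonal Lie algebras, of sizes different from
eight, is compatible with a nonzero map between the spin representations. -/
theorem exists_inter (h8 : ∀ i, (Finset.univ.filter fun j => c j = c i).card ≠ 8) :
    ∃ T : U₁ →ₗ[ℂ] U₂, T ≠ 0 ∧ ∀ x y, (x, y) ∈ L → ∀ u, y (T u) = T (x u) := by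
  classical
  -- the base points
  obtain ⟨o, ho1, ho2⟩ : ∃ o : Fin N → Fin N, (∀ a, c (o a) = c a) ∧
      ∀ a b, c a = c b → o a = o b := by
    rcases Nat.eq_zero_or_pos N with hN | hN
    · subst hN
      exact ⟨id, fun a => a.elim0, fun a => a.elim0⟩
    · have : Nonempty (Fin N) := ⟨⟨0, hN⟩⟩
      refine ⟨fun a => Function.invFun c (c a), fun a => Function.invFun_eq ⟨a, rfl⟩,
        fun a b hab => congrArg (Function.invFun c) hab⟩
  have hoo : ∀ a, o (o a) = o a := fun a => ho2 _ _ (ho1 a)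
  choose y0 hy1 hy2 hy3 using h.colour_rels hE hE' hc hc' h8
  obtain ⟨Y, hY⟩ : ∃ Y : Fin N → Module.End ℂ U₂, ∀ a, Y a = y0 (o a) a := ⟨_, fun a => rfl⟩
  obtain ⟨X, hX⟩ : ∃ X : Fin N → Module.End ℂ U₁, ∀ a, X a = E (o a) * E a := ⟨_, fun a => rfl⟩
  have hXY : ∀ a, a ≠ o a → (X a, Y a) ∈ L := by
    intro a ha
    rw [hX, hY]
    exact hy1 (o a) a (ho1 a).symm ha
  have hEE : ∀ a u, E a (E a u) = u := by
    intro a u
    exact congrArg (fun F : Module.End ℂ U₁ => F u) (hE.sq a)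
  have hEA : ∀ a b, a ≠ b → ∀ u, E a (E b u) = -E b (E a u) := by
    intro a b hab u
    exact congrArg (fun F : Module.End ℂ U₁ => F u) (hE.anti a b hab)
  have hcol : ∀ a b, c a ≠ c b → o a ≠ o b ∧ o a ≠ b ∧ a ≠ o b ∧ a ≠ b := by
    intro a b hab
    refine ⟨fun h1 => hab ?_, fun h1 => hab ?_, fun h1 => hab ?_, fun h1 => hab (by rw [h1])⟩
    · rw [← ho1 a, h1, ho1]
    · rw [← ho1 a, h1]
    · rw [h1, ho1]
  have hXc : ∀ a b, a ≠ o a → b ≠ o b → c a ≠ c b → X a * X b = X b * X a := by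
    intro a b ha hb hab
    obtain ⟨h1, h2, h3, h4⟩ := hcol a b hab
    rw [hX, hX]
    exact Col_comm hE (Ne.symm ha) (Ne.symm h1) (Ne.symm h3) (Ne.symm h2) (Ne.symm h4)
  have hYc : ∀ a b, a ≠ o a → b ≠ o b → c a ≠ c b → Y a * Y b = Y b * Y a := by
    intro a b ha hb hab
    have h1 := h.br _ _ _ _ (hXY a ha) (hXY b hb)
    rw [hXc a b ha hb hab, sub_self] at h1
    exact sub_eq_zero.1 (h.i2 _ h1)
  have hXX : ∀ a b, a ≠ o a → b ≠ o b → a ≠ b → c a = c b → X a * X b = -(E a * E b) := by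
    intro a b ha hb hab hcc
    have hob : o b = o a := (ho2 a b hcc).symm
    rw [hX, hX, hob]
    calc E (o a) * E a * (E (o a) * E b) = E (o a) * (E a * E (o a)) * E b := by
          simp only [mul_assoc]
      _ = _ := by rw [hE.anti a (o a) ha, mul_neg, neg_mul, ← mul_assoc, hE.sq, one_mul]
  have hXX' : ∀ a b, a ≠ o a → b ≠ o b → a ≠ b → c a = c b → X a * X b = -(X b * X a) := by
    intro a b ha hb hab hcc
    rw [hXX a b ha hb hab hcc, hXX b a hb ha (Ne.symm hab) hcc.symm, hE.anti a b hab]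
  have hX2 : ∀ a, a ≠ o a → X a * X a = -1 := by
    intro a ha
    rw [hX]
    calc E (o a) * E a * (E (o a) * E a) = E (o a) * (E a * E (o a)) * E a := by
          simp only [mul_assoc]
      _ = -1 := by
        rw [hE.anti a (o a) ha, mul_neg, neg_mul, ← mul_assoc, hE.sq, one_mul, hE.sq]
  have hYY : ∀ a b, a ≠ o a → b ≠ o b → a ≠ b → c a = c b → Y a * Y b = -(Y b * Y a) := by
    intro a b ha hb hab hcc
    have hob : o b = o a := (ho2 a b hcc).symm
    rw [hY, hY, hob]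
    rw [hob] at hb
    exact hy3 (o a) a b (ho1 a).symm (by rw [ho1, hcc]) ha hb hab
  have hY2 : ∀ a, a ≠ o a → Y a * Y a = -1 := by
    intro a ha
    rw [hY]
    exact hy2 (o a) a (ho1 a).symm ha
  have app : ∀ {V : Type} [AddCommGroup V] [Module ℂ V] {A B : Module.End ℂ V} (u : V), A = B →
      A u = B u := fun u h => by rw [h]
  obtain ⟨T, hT0, hT⟩ := inter_col (Finset.univ.filter fun a => a ≠ o a) c X Y (fun a => E (o a))
    (fun a u => hEE (o a) u)
    (fun a ha u => app u (hX2 a (Finset.mem_filter.1 ha).2))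
    (fun a ha b hb hab hcc u => app u
      (hXX' a b (Finset.mem_filter.1 ha).2 (Finset.mem_filter.1 hb).2 hab hcc))
    (fun a ha b hb hcc u => app u
      (hXc a b (Finset.mem_filter.1 ha).2 (Finset.mem_filter.1 hb).2 hcc))
    (fun a ha u => app u (hY2 a (Finset.mem_filter.1 ha).2))
    (fun a ha b hb hab hcc u => app u
      (hYY a b (Finset.mem_filter.1 ha).2 (Finset.mem_filter.1 hb).2 hab hcc))
    (fun a ha b hb hcc u => app u
      (hYc a b (Finset.mem_filter.1 ha).2 (Finset.mem_filter.1 hb).2 hcc))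
    (fun a ha b hb hcc u => by
      have ha' := (Finset.mem_filter.1 ha).2
      have hob : o b = o a := (ho2 a b hcc).symm
      simp only [hX, hob, Module.End.mul_apply]
      rw [hEE, hEA a (o a) ha', map_neg, hEE, neg_neg])
    (fun a ha b hb hcc u => by
      have ha' := (Finset.mem_filter.1 ha).2
      obtain ⟨h1, h2, h3, h4⟩ := hcol a b hcc
      simp only [hX, Module.End.mul_apply]
      rw [hEA (o b) (o a) (Ne.symm h1), hEA (o b) a (Ne.symm h3), map_neg, neg_neg])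
  refine ⟨T, hT0, ?_⟩
  have hTa : ∀ a, a ≠ o a → ∀ u, Y a (T u) = T (X a u) := fun a ha u =>
    hT a (Finset.mem_filter.2 ⟨Finset.mem_univ _, ha⟩) u
  have key : ∀ x ∈ soC E c, ∃ y, (x, y) ∈ L ∧ ∀ u, y (T u) = T (x u) := by
    intro x hx
    unfold soC at hx
    induction hx using Submodule.span_induction with
    | mem x hx =>
      obtain ⟨i, j, hij, hcc, rfl⟩ := hx
      have hoj : o j = o i := (ho2 i j hcc).symm
      by_cases hi : i = o i
      · have hj : j ≠ o j := by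
          rw [hoj]
          exact fun h1 => hij (hi.trans h1.symm)
        refine ⟨Y j, ?_, fun u => ?_⟩
        · have h1 := hXY j hj
          rw [hX j, hoj, ← hi] at h1
          exact h1
        · rw [hTa j hj, hX j, hoj, ← hi]
      by_cases hj : j = o j
      · refine ⟨-Y i, ?_, fun u => ?_⟩
        · have h1 := L.neg_mem (hXY i hi)
          rw [hX i, Prod.neg_mk, ← hoj, ← hj, ← hE.anti i j hij] at h1
          exact h1
        · rw [LinearMap.neg_apply, hTa i hi, hX i, ← hoj, ← hj, ← map_neg, ← LinearMap.neg_apply,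
            ← hE.anti i j hij]
      · refine ⟨(-(2⁻¹ : ℂ)) • (Y i * Y j - Y j * Y i), ?_, fun u => ?_⟩
        · have h1 := L.smul_mem (-(2⁻¹ : ℂ)) (h.br _ _ _ _ (hXY i hi) (hXY j hj))
          rw [Prod.smul_mk] at h1
          have h2 : (-(2⁻¹ : ℂ)) • (X i * X j - X j * X i) = E i * E j := by
            rw [hXX i j hi hj hij hcc, hXX j i hj hi (Ne.symm hij) hcc.symm, hE.anti j i (Ne.symm hij)]
            module
          rwa [h2] at h1
        · rw [LinearMap.smul_apply, LinearMap.sub_apply, Module.End.mul_apply,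
            Module.End.mul_apply, hTa j hj, hTa i hi, hTa i hi, hTa j hj, ← map_sub, ← map_smul]
          congr 1
          have h2 : (-(2⁻¹ : ℂ)) • (X i * X j - X j * X i) = E i * E j := by
            rw [hXX i j hi hj hij hcc, hXX j i hj hi (Ne.symm hij) hcc.symm, hE.anti j i (Ne.symm hij)]
            module
          rw [← h2]
          rfl
    | zero => exact ⟨0, L.zero_mem, fun u => by simp⟩
    | add x y _ _ hx hy =>
      obtain ⟨x', a1, a2⟩ := hx
      obtain ⟨y', b1, b2⟩ := hy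
      exact ⟨x' + y', L.add_mem a1 b1, fun u => by
        rw [LinearMap.add_apply, LinearMap.add_apply, map_add, a2, b2]⟩
    | smul t x _ hx =>
      obtain ⟨x', a1, a2⟩ := hx
      exact ⟨t • x', L.smul_mem t a1, fun u => by
        rw [LinearMap.smul_apply, LinearMap.smul_apply, map_smul, a2]⟩
  intro x y hxy u
  obtain ⟨y', h4, h5⟩ := key x (h.l1 _ _ hxy)
  rw [h.uniq hE hE' hc hc' hxy h4]
  exact h5 u

end LnkC

end Pool.Agent.R918.Sp

end
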