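import Pool.Agent.R918.SqB

set_option autoImplicit false
set_option linter.unusedSectionVars false
set_option linter.unusedVariables false

/-!
# Sums of spin representations of sums of orthogonal Lie algebras
-/

open Module

noncomputable section

namespace Pool.Agent.R918.Sp

open Pool.Agent.Y102.SP

variable {m : ℕ} {H : Type} [AddCommGroup H] [Module ℂ H] {U : Fin m → Type}
  [∀ i, AddCommGroup (U i)] [∀ i, Module ℂ (U i)]
  {P : ∀ i, H →ₗ[ℂ] U i} {Q : ∀ i, U i →ₗ[ℂ] H} {N k : Fin m → ℕ}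
  {E : ∀ i, Fin (N i) → Module.End ℂ (U i)} {c : ∀ i, Fin (N i) → Fin (k i)}

/-- The sum of the Lie algebras. -/
def soM (P : ∀ i, H →ₗ[ℂ] U i) (Q : ∀ i, U i →ₗ[ℂ] H)
    (E : ∀ i, Fin (N i) → Module.End ℂ (U i)) (c : ∀ i, Fin (N i) → Fin (k i)) :
    Submodule ℂ (Module.End ℂ H) :=
  Submodule.span ℂ {x | ∃ i a b, a ≠ b ∧ c i a = c i b ∧ x = ib P Q i (E i a * E i b)}

theorem soM_prop (D : Dec P Q) {x : Module.End ℂ H} (hx : x ∈ soM P Q E c) :
    Diag P Q x ∧ ∀ i, pb P Q i x ∈ soC (E i) (c i) := by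
  unfold soM at hx
  induction hx using Submodule.span_induction with
  | mem x hx =>
    obtain ⟨i, a, b, hab, hc, rfl⟩ := hx
    refine ⟨diag_ib D i _, fun j => ?_⟩
    by_cases hij : j = i
    · subst hij
      rw [pb_ib D]
      exact Submodule.subset_span ⟨a, b, hab, hc, rfl⟩
    · rw [pb_ib_ne D hij]
      exact Submodule.zero_mem _
  | zero =>
    refine ⟨fun i u => ?_, fun i => ?_⟩
    · rw [map_zero, LinearMap.zero_apply, LinearMap.zero_apply, map_zero]
    · rw [map_zero]; exact Submodule.zero_mem _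
  | add x y _ _ hx hy =>
    refine ⟨diag_add D hx.1 hy.1, fun i => ?_⟩
    rw [map_add]
    exact Submodule.add_mem _ (hx.2 i) (hy.2 i)
  | smul t x _ hx =>
    refine ⟨diag_smul D t hx.1, fun i => ?_⟩
    rw [map_smul]
    exact Submodule.smul_mem _ _ (hx.2 i)

theorem soC_perfect {V : Type} [AddCommGroup V] [Module ℂ V] [FiniteDimensional ℂ V] [Nontrivial V]
    {N k : ℕ} {E : Fin N → Module.End ℂ V} {c : Fin N → Fin k} (hE : CE E)
    (hc : ∀ i, 6 ≤ (Finset.univ.filter fun j => c j = c i).card) :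
    soC E c ≤ Submodule.span ℂ {z | ∃ x ∈ soC E c, ∃ y ∈ soC E c, z = x * y - y * x} := by
  refine Submodule.span_le.2 ?_
  rintro _ ⟨a, b, hab, hcc, rfl⟩
  have h1 := ColMain_perfect hE (hc a) (Submodule.subset_span ⟨a, b, hab, rfl, hcc.symm, rfl⟩)
  refine Submodule.span_mono ?_ h1
  rintro _ ⟨x, hx, y, hy, rfl⟩
  exact ⟨x, soS_le _ hx, y, soS_le _ hy, rfl⟩

/-- The hypotheses on the subalgebra. -/
structure SqHyp (P : ∀ i, H →ₗ[ℂ] U i) (Q : ∀ i, U i →ₗ[ℂ] H)
    (E : ∀ i, Fin (N i) → Module.End ℂ (U i)) (c : ∀ i, Fin (N i) → Fin (k i))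
    (𝔥 : Submodule ℂ (Module.End ℂ H)) : Prop where
  dec : Dec P Q
  ce : ∀ i, CE (E i)
  pos : ∀ i, 0 < N i
  six : ∀ i a, 6 ≤ (Finset.univ.filter fun b => c i b = c i a).card
  le : 𝔥 ≤ soM P Q E c
  br : ∀ x ∈ 𝔥, ∀ y ∈ 𝔥, x * y - y * x ∈ 𝔥
  gen : ∀ i a b, a ≠ b → c i a = c i b →
    ib P Q i (E i a * E i b) ∈ Algebra.adjoin ℂ (𝔥 : Set (Module.End ℂ H))

namespace SqHyp

variable {𝔥 : Submodule ℂ (Module.End ℂ H)} (h : SqHyp P Q E c 𝔥)
include h

theorem diag {x : Module.End ℂ H} (hx : x ∈ 𝔥) : Diag P Q x := (soM_prop h.dec (h.le hx)).1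

theorem memE {x : Module.End ℂ H} (hx : x ∈ 𝔥) (i : Fin m) : pb P Q i x ∈ soC (E i) (c i) :=
  (soM_prop h.dec (h.le hx)).2 i

theorem pb_br {x y : Module.End ℂ H} (hx : x ∈ 𝔥) (hy : y ∈ 𝔥) (i : Fin m) :
    pb P Q i (x * y - y * x) = pb P Q i x * pb P Q i y - pb P Q i y * pb P Q i x := by
  rw [map_sub, (diag_mul h.dec (h.diag hx) (h.diag hy)).2,
    (diag_mul h.dec (h.diag hy) (h.diag hx)).2]

theorem adj {x : Module.End ℂ H} (hx : x ∈ Algebra.adjoin ℂ (𝔥 : Set (Module.End ℂ H)))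
    (i : Fin m) : Diag P Q x ∧ pb P Q i x ∈
      Algebra.adjoin ℂ (𝔥.map (pb P Q i) : Set (Module.End ℂ (U i))) := by
  induction hx using Algebra.adjoin_induction with
  | mem x hx =>
    exact ⟨h.diag hx, Algebra.subset_adjoin (Submodule.mem_map_of_mem hx)⟩
  | algebraMap t =>
    rw [Algebra.algebraMap_eq_smul_one, map_smul, pb_one h.dec]
    exact ⟨diag_smul h.dec t (diag_one h.dec), Subalgebra.smul_mem _ (Subalgebra.one_mem _) t⟩
  | add x y _ _ hx hy =>
    refine ⟨diag_add h.dec hx.1 hy.1, ?_⟩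
    rw [map_add]
    exact Subalgebra.add_mem _ hx.2 hy.2
  | mul x y _ _ hx hy =>
    obtain ⟨h1, h2⟩ := diag_mul h.dec hx.1 hy.1
    refine ⟨h1, ?_⟩
    rw [h2]
    exact Subalgebra.mul_mem _ hx.2 hy.2

variable [∀ i, FiniteDimensional ℂ (U i)] [∀ i, Nontrivial (U i)]

theorem surj (i : Fin m) : ∀ y ∈ soC (E i) (c i), ∃ x ∈ 𝔥, pb P Q i x = y := by
  have h1 := main_col (h.ce i) (h.six i) (𝔥.map (pb P Q i)) ?_ ?_ ?_
  · intro y hy
    exact Submodule.mem_map.1 (h1 hy)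
  · rintro _ ⟨x, hx, rfl⟩
    exact h.memE hx i
  · rintro _ ⟨x, hx, rfl⟩ _ ⟨y, hy, rfl⟩
    exact ⟨x * y - y * x, h.br x hx y hy, h.pb_br hx hy i⟩
  · intro a b hcc
    by_cases hab : a = b
    · subst hab
      rw [(h.ce i).sq]
      exact Subalgebra.one_mem _
    · have h2 := (h.adj (h.gen i a b hab hcc) i).2
      rwa [pb_ib h.dec] at h2

/-- two different generators of one colour -/
theorem exists_pair (i : Fin m) : ∃ a b : Fin (N i), a ≠ b ∧ c i a = c i b := by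
  obtain ⟨a, ha, b, hb, hab⟩ := Finset.one_lt_card.1
    (lt_of_lt_of_le (by norm_num : 1 < 6) (h.six i ⟨0, h.pos i⟩))
  exact ⟨a, b, hab, (Finset.mem_filter.1 ha).2.trans (Finset.mem_filter.1 hb).2.symm⟩

theorem not_linked {i j : Fin m} (hij : i ≠ j)
    (h8 : ∀ a, (Finset.univ.filter fun b => c i b = c i a).card ≠ 8)
    (h1 : ∀ x ∈ 𝔥, pb P Q i x = 0 → pb P Q j x = 0)
    (h1' : ∀ x ∈ 𝔥, pb P Q j x = 0 → pb P Q i x = 0) : False := by
  let L : Submodule ℂ (Module.End ℂ (U i) × Module.End ℂ (U j)) :=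
    𝔥.map ((pb P Q i).prod (pb P Q j))
  have hL : ∀ x y, (x, y) ∈ L ↔ ∃ z ∈ 𝔥, pb P Q i z = x ∧ pb P Q j z = y := by
    intro x y
    constructor
    · rintro ⟨z, hz, hz'⟩
      exact ⟨z, hz, congrArg Prod.fst hz', congrArg Prod.snd hz'⟩
    · rintro ⟨z, hz, rfl, rfl⟩
      exact ⟨z, hz, rfl⟩
  have hlnk : LnkC (E i) (c i) (E j) (c j) L :=
    { l1 := fun x y hxy => by
        obtain ⟨z, hz, rfl, -⟩ := (hL x y).1 hxy
        exact h.memE hz i
      l2 := fun x y hxy => by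
        obtain ⟨z, hz, -, rfl⟩ := (hL x y).1 hxy
        exact h.memE hz j
      br := fun x y x' y' h2 h3 => by
        obtain ⟨z, hz, rfl, rfl⟩ := (hL x y).1 h2
        obtain ⟨z', hz', rfl, rfl⟩ := (hL x' y').1 h3
        exact (hL _ _).2 ⟨z * z' - z' * z, h.br z hz z' hz', h.pb_br hz hz' i, h.pb_br hz hz' j⟩
      s1 := fun x hx => by
        obtain ⟨z, hz, rfl⟩ := h.surj i x hx
        exact ⟨_, (hL _ _).2 ⟨z, hz, rfl, rfl⟩⟩
      s2 := fun y hy => by
        obtain ⟨z, hz, rfl⟩ := h.surj j y hy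
        exact ⟨_, (hL _ _).2 ⟨z, hz, rfl, rfl⟩⟩
      i1 := fun x hx => by
        obtain ⟨z, hz, rfl, h2⟩ := (hL _ _).1 hx
        exact h1' z hz h2
      i2 := fun y hy => by
        obtain ⟨z, hz, h2, rfl⟩ := (hL _ _).1 hy
        exact h1 z hz h2 }
  obtain ⟨T, hT0, hT⟩ := hlnk.exists_inter (h.ce i) (h.ce j) (h.six i) (h.six j) h8
  let T' : Module.End ℂ H := Q j ∘ₗ T ∘ₗ P i
  have hT' : ∀ v, T' v = Q j (T (P i v)) := fun v => rfl
  have hcomm : ∀ x ∈ Algebra.adjoin ℂ (𝔥 : Set (Module.End ℂ H)), ∀ v, x (T' v) = T' (x v) := by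
    intro x hx
    induction hx using Algebra.adjoin_induction with
    | mem x hx =>
      intro v
      rw [hT', hT', h.diag hx, diag_P h.dec (h.diag hx)]
      congr 1
      exact hT _ _ ((hL _ _).2 ⟨x, hx, rfl, rfl⟩) _
    | algebraMap t =>
      intro v
      rw [Algebra.algebraMap_eq_smul_one, LinearMap.smul_apply, LinearMap.smul_apply, map_smul]
      rfl
    | add x y _ _ hx hy =>
      intro v
      rw [LinearMap.add_apply, LinearMap.add_apply, map_add, hx, hy]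
    | mul x y _ _ hx hy =>
      intro v
      rw [Module.End.mul_apply, Module.End.mul_apply, hy, hx]
  obtain ⟨a, b, hab, hcc⟩ := h.exists_pair i
  have hgen := h.gen i a b hab hcc
  have hsq : ib P Q i (E i a * E i b) * ib P Q i (E i a * E i b) = -ib P Q i 1 := by
    rw [ib_mul h.dec]
    have e1 : E i a * E i b * (E i a * E i b) = -1 := by
      calc E i a * E i b * (E i a * E i b) = E i a * (E i b * E i a) * E i b := by
            simp only [mul_assoc]
        _ = -1 := by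
          rw [(h.ce i).anti b a (Ne.symm hab), mul_neg, neg_mul, ← mul_assoc, (h.ce i).sq, one_mul,
            (h.ce i).sq]
    rw [e1, map_neg]
  have he := hcomm _ (Subalgebra.mul_mem _ hgen hgen)
  rw [hsq] at he
  apply hT0
  refine LinearMap.ext fun u => ?_
  have h2 := he (Q i u)
  rw [LinearMap.neg_apply, LinearMap.neg_apply, map_neg, ib_apply, ib_apply, hT', hT',
    Module.End.one_apply, Module.End.one_apply, h.dec.diff i j hij, h.dec.same, h.dec.same,
    map_zero, neg_zero] at h2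
  have h3 := congrArg (P j) h2
  rw [map_zero, map_neg, h.dec.same] at h3
  rw [LinearMap.zero_apply]
  exact neg_eq_zero.1 h3.symm

/-- The dichotomy, which comes from a rational structure. -/
def Dich (_h : SqHyp P Q E c 𝔥) : Prop := ∀ i j, i ≠ j →
  (∀ x ∈ 𝔥, pb P Q j x = 0 → pb P Q i x = 0) ∨
    ∀ y ∈ soC (E i) (c i), ∃ x ∈ 𝔥, pb P Q i x = y ∧ pb P Q j x = 0

variable (hD : h.Dich)
  (h8 : ∀ i j, i ≠ j → (∃ a, (Finset.univ.filter fun b => c i b = c i a).card = 8) →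
    ∀ a, (Finset.univ.filter fun b => c j b = c j a).card ≠ 8)
include hD h8

theorem two {i j : Fin m} (hij : i ≠ j) :
    ∀ y ∈ soC (E i) (c i), ∃ x ∈ 𝔥, pb P Q i x = y ∧ pb P Q j x = 0 := by
  rcases hD i j hij with h1 | h1
  swap
  · exact h1
  exfalso
  have hback : ∀ x ∈ 𝔥, pb P Q i x = 0 → pb P Q j x = 0 := by
    rcases hD j i (Ne.symm hij) with h2 | h2
    · exact h2
    exfalso
    obtain ⟨a, b, hab, hcc⟩ := h.exists_pair i
    obtain ⟨y, hy, hyx⟩ := h.surj i (E i a * E i b) (Submodule.subset_span ⟨a, b, hab, hcc, rfl⟩)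
    obtain ⟨y', hy', h4, h5⟩ := h2 (pb P Q j y) (h.memE hy j)
    have h6 := h1 (y - y') (sub_mem hy hy') (by rw [map_sub, h4, sub_self])
    rw [map_sub, h5, sub_zero, hyx] at h6
    exact ColMain_ne (h.ce i) hab h6
  by_cases h9 : ∃ a, (Finset.univ.filter fun b => c i b = c i a).card = 8
  · exact h.not_linked (Ne.symm hij) (h8 i j hij h9) h1 hback
  · push Not at h9
    exact h.not_linked hij h9 hback h1

theorem ribet {i : Fin m}
    (S : Finset (Fin m)) : i ∉ S → ∀ y ∈ soC (E i) (c i), ∃ x ∈ 𝔥, pb P Q i x = y ∧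
      ∀ t ∈ S, pb P Q t x = 0 := by
  classical
  induction S using Finset.induction_on with
  | empty =>
    intro _ x hx
    obtain ⟨y, hy, hyx⟩ := h.surj i x hx
    exact ⟨y, hy, hyx, fun t ht => absurd ht (Finset.notMem_empty t)⟩
  | insert t S htS ih =>
    intro hiS x hx
    have hiS' : i ∉ S := fun h => hiS (Finset.mem_insert_of_mem h)
    have hit : i ≠ t := fun h => hiS (h ▸ Finset.mem_insert_self _ _)
    let K : Submodule ℂ (Module.End ℂ H) := 𝔥 ⊓ ⨅ t' ∈ insert t S, LinearMap.ker (pb P Q t')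
    have hK : ∀ y, y ∈ K ↔ y ∈ 𝔥 ∧ ∀ t' ∈ insert t S, pb P Q t' y = 0 := by
      intro y
      simp only [K, Submodule.mem_inf, Submodule.mem_iInf, LinearMap.mem_ker]
    have hle : Submodule.span ℂ {z | ∃ x ∈ soC (E i) (c i), ∃ y ∈ soC (E i) (c i),
        z = x * y - y * x} ≤ K.map (pb P Q i) := by
      refine Submodule.span_le.2 ?_
      rintro _ ⟨x1, hx1, x2, hx2, rfl⟩
      obtain ⟨y1, hy1, h1, h2⟩ := ih hiS' x1 hx1
      obtain ⟨y2, hy2, h3, h4⟩ := h.two hD h8 hit x2 hx2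
      refine ⟨y1 * y2 - y2 * y1, (hK _).2 ⟨h.br y1 hy1 y2 hy2, fun t' ht' => ?_⟩, ?_⟩
      · rcases Finset.mem_insert.1 ht' with h5 | h5
        · rw [h5, h.pb_br hy1 hy2, h4, mul_zero, zero_mul, sub_zero]
        · rw [h.pb_br hy1 hy2, h2 t' h5, mul_zero, zero_mul, sub_zero]
      · rw [h.pb_br hy1 hy2, h1, h3]
    obtain ⟨y, hy, hyx⟩ := Submodule.mem_map.1 (hle (soC_perfect (h.ce i) (h.six i) hx))
    exact ⟨y, ((hK y).1 hy).1, hyx, ((hK y).1 hy).2⟩

/-- **Theorem.** A Lie subalgebra of a sum of orthogonal Lie algebras, which act on a sum of spin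
representations, and which generates the same associative algebra, is everything, under a condition
of rationality. -/
theorem all : soM P Q E c ≤ 𝔥 := by
  classical
  refine Submodule.span_le.2 ?_
  rintro _ ⟨i, a, b, hab, hcc, rfl⟩
  obtain ⟨x, hx, h1, h2⟩ := h.ribet hD h8 (i := i) (Finset.univ.erase i)
    (Finset.notMem_erase _ _) _ (Submodule.subset_span ⟨a, b, hab, hcc, rfl⟩)
  have h3 := sum_ib h.dec (h.diag hx)
  rw [Finset.sum_eq_single i (fun t _ ht => by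
    rw [h2 t (Finset.mem_erase.2 ⟨ht, Finset.mem_univ _⟩), map_zero])
    (fun h => absurd (Finset.mem_univ _) h), h1] at h3
  change ib P Q i (E i a * E i b) ∈ 𝔥
  rw [h3]
  exact hx

end SqHyp

end Pool.Agent.R918.Sp

end
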