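import Pool.Agent.R918.SqC
import Pool.Agent.R918.SpG

set_option autoImplicit false
set_option linter.unusedSectionVars false
set_option linter.unusedVariables false

/-!
# Products of abelian varieties of spin type, with real multiplication
-/

open Module Function TensorProduct Matrix

noncomputable section

namespace Pool.Agent.R918.Sp

open Pool.Agent.Y102 Pool.Agent.Y102.SP Pool.Agent.W516.DR Pool.Agent.H204R3.GP

section rational

/-- components of a complex matrix -/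
theorem span_comp {n : ℕ} {S : Submodule ℚ (Module.End ℚ (Fin n → ℚ))}
    {M : Matrix (Fin n) (Fin n) ℂ} (hM : M ∈ Submodule.span ℂ {Y | ∃ X ∈ S, Y = toC X}) :
    ∀ lam : ℂ →ₗ[ℚ] ℚ, ∃ X ∈ S, LinearMap.toMatrix' X = M.map lam := by
  induction hM using Submodule.span_induction with
  | mem M hM =>
    obtain ⟨X, hX, rfl⟩ := hM
    intro lam
    refine ⟨lam 1 • X, S.smul_mem _ hX, ?_⟩
    rw [toC_eq, map_smul]
    ext i j
    rw [Matrix.smul_apply, Matrix.map_apply, Matrix.map_apply, smul_eq_mul,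
      Algebra.algebraMap_eq_smul_one, map_smul, smul_eq_mul, mul_comm]
  | zero =>
    intro lam
    refine ⟨0, S.zero_mem, ?_⟩
    rw [map_zero]
    ext i j
    simp
  | add M M' _ _ h1 h2 =>
    intro lam
    obtain ⟨X, hX, e1⟩ := h1 lam
    obtain ⟨X', hX', e2⟩ := h2 lam
    refine ⟨X + X', S.add_mem hX hX', ?_⟩
    rw [map_add, e1, e2]
    ext i j
    simp
  | smul z M _ h1 =>
    intro lam
    obtain ⟨X, hX, e1⟩ := h1 (lam ∘ₗ LinearMap.mulLeft ℚ z)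
    refine ⟨X, hX, ?_⟩
    rw [e1]
    rfl

theorem cx_comp {n : ℕ} {S : Submodule ℚ (Module.End ℚ (Fin n → ℚ))}
    {x : Module.End ℂ (ℂ ⊗[ℚ] (Fin n → ℚ))} (hx : x ∈ cx S) :
    ∃ M : Matrix (Fin n) (Fin n) ℂ, x = matE n M ∧
      ∀ lam : ℂ →ₗ[ℚ] ℚ, ∃ X ∈ S, LinearMap.toMatrix' X = M.map lam := by
  rw [← map_lie] at hx
  obtain ⟨M, hM, rfl⟩ := Submodule.mem_map.1 hx
  exact ⟨M, rfl, span_comp hM⟩

/-- a complex matrix whose components vanish is zero -/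
theorem eq_zero_of_comp {p q : ℕ} {M : Matrix (Fin p) (Fin q) ℂ}
    (h : ∀ lam : ℂ →ₗ[ℚ] ℚ, M.map lam = 0) : M = 0 := by
  ext i j
  rw [Matrix.zero_apply]
  by_contra hne
  have h1 : ∃ lam : Module.Dual ℚ ℂ, lam (M i j) ≠ 0 := by
    by_contra hcon
    push Not at hcon
    exact hne ((Module.forall_dual_apply_eq_zero_iff ℚ (M i j)).1 hcon)
  obtain ⟨lam, hlam⟩ := h1
  have h2 := congrFun (congrFun (h lam) i) j
  rw [Matrix.map_apply, Matrix.zero_apply] at h2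
  exact hlam h2

/-- components of a product with rational matrices -/
theorem comp_mul {p q s t : ℕ} (A : Matrix (Fin p) (Fin q) ℚ) (M : Matrix (Fin q) (Fin s) ℂ)
    (B : Matrix (Fin s) (Fin t) ℚ) (lam : ℂ →ₗ[ℚ] ℚ) :
    (A.map (algebraMap ℚ ℂ) * M * B.map (algebraMap ℚ ℂ)).map lam = A * M.map lam * B := by
  ext i j
  rw [Matrix.map_apply, Matrix.mul_apply, Matrix.mul_apply, map_sum]
  refine Finset.sum_congr rfl fun b _ => ?_
  rw [Matrix.mul_apply, Matrix.mul_apply, Finset.sum_mul, map_sum, Finset.sum_mul]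
  refine Finset.sum_congr rfl fun a _ => ?_
  rw [Matrix.map_apply, Matrix.map_apply, Matrix.map_apply]
  have h1 : algebraMap ℚ ℂ (A i a) * M a b * algebraMap ℚ ℂ (B b j) =
      (A i a * B b j) • M a b := by
    rw [Algebra.smul_def, map_mul]
    ring
  rw [h1, map_smul, smul_eq_mul]
  ring

end rational

variable {g m : ℕ} {d N k : Fin m → ℕ} {P : ∀ i, Matrix (Fin (d i)) (Fin (2 * g)) ℚ}
    {Q : ∀ i, Matrix (Fin (2 * g)) (Fin (d i)) ℚ}
    {E : ∀ i, Fin (N i) → Matrix (Fin (d i)) (Fin (d i)) ℂ} {c : ∀ i, Fin (N i) → Fin (k i)}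

/-- the matrices with complex entries -/
def Pc (P : ∀ i, Matrix (Fin (d i)) (Fin (2 * g)) ℚ) (i : Fin m) :
    Matrix (Fin (d i)) (Fin (2 * g)) ℂ := (P i).map (algebraMap ℚ ℂ)

/-- the matrices with complex entries -/
def Qc (Q : ∀ i, Matrix (Fin (2 * g)) (Fin (d i)) ℚ) (i : Fin m) :
    Matrix (Fin (2 * g)) (Fin (d i)) ℂ := (Q i).map (algebraMap ℚ ℂ)

theorem pb_matE (i : Fin m) (M : Matrix (Fin (2 * g)) (Fin (2 * g)) ℂ) :
    pb (Pm (Pc P)) (Qm (Qc Q)) i (matE (2 * g) M) =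
      Matrix.toLinAlgEquiv' (Pc P i * M * Qc Q i) := by
  refine LinearMap.ext fun u => ?_
  rw [pb_apply, Qm_apply, matE_eqv, Pm_eqv]
  change (Pc P i).mulVec (M.mulVec ((Qc Q i).mulVec u)) = (Pc P i * M * Qc Q i).mulVec u
  rw [Matrix.mulVec_mulVec, Matrix.mulVec_mulVec, Matrix.mul_assoc]

/-- equality of blocks -/
theorem pb_eq_iff (i : Fin m) (M M' : Matrix (Fin (2 * g)) (Fin (2 * g)) ℂ) :
    pb (Pm (Pc P)) (Qm (Qc Q)) i (matE (2 * g) M) = pb (Pm (Pc P)) (Qm (Qc Q)) i (matE (2 * g) M') ↔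
      Pc P i * M * Qc Q i = Pc P i * M' * Qc Q i := by
  rw [pb_matE, pb_matE]
  exact Matrix.toLinAlgEquiv'.injective.eq_iff

theorem pb_bc (i : Fin m) (X : Module.End ℚ (Fin (2 * g) → ℚ)) :
    pb (Pm (Pc P)) (Qm (Qc Q)) i (X.baseChange ℂ) =
      Matrix.toLinAlgEquiv' ((P i * LinearMap.toMatrix' X * Q i).map (algebraMap ℚ ℂ)) := by
  rw [← matE_toC, pb_matE, toC_eq]
  congr 1
  unfold Pc Qc
  rw [Matrix.map_mul, Matrix.map_mul]

theorem map_cast_inj {p q : ℕ} {A B : Matrix (Fin p) (Fin q) ℚ}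
    (h : A.map (algebraMap ℚ ℂ) = B.map (algebraMap ℚ ℂ)) : A = B := by
  ext i j
  have h1 := congrFun (congrFun h i) j
  rw [Matrix.map_apply, Matrix.map_apply] at h1
  exact (algebraMap ℚ ℂ).injective h1

theorem soM_eq : (Submodule.span ℂ {Y | ∃ i a b, a ≠ b ∧ c i a = c i b ∧
    Y = Qc Q i * (E i a * E i b) * Pc P i}).map (matE (2 * g)).toLinearMap =
      soM (Pm (Pc P)) (Qm (Qc Q)) (Em E) c := by
  rw [Submodule.map_span]
  unfold soM
  congr 1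
  ext x
  constructor
  · rintro ⟨_, ⟨i, a, b, hab, hc, rfl⟩, rfl⟩
    exact ⟨i, a, b, hab, hc, (ib_mat i a b).symm⟩
  · rintro ⟨i, a, b, hab, hc, rfl⟩
    exact ⟨_, ⟨i, a, b, hab, hc, rfl⟩, (ib_mat i a b).symm⟩

theorem ib_mem_soM (i : Fin m) {x : Module.End ℂ (Fin (d i) → ℂ)}
    (hx : x ∈ soC (Em E i) (c i)) : ib (Pm (Pc P)) (Qm (Qc Q)) i x ∈
      soM (Pm (Pc P)) (Qm (Qc Q)) (Em E) c := by
  have h1 : soC (Em E i) (c i) ≤ (soM (Pm (Pc P)) (Qm (Qc Q)) (Em E) c).comap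
      (ib (Pm (Pc P)) (Qm (Qc Q)) i) := by
    refine Submodule.span_le.2 ?_
    rintro _ ⟨a, b, hab, hc, rfl⟩
    exact Submodule.subset_span ⟨i, a, b, hab, hc, rfl⟩
  exact h1 hx

section AV

variable {A : AbVar g} {𝔥 : Submodule ℚ (Module.End ℚ A.H1)}

/-- The Lie algebra of the block `i` is simple. -/
def SimpleBlock (A : AbVar g) (P : ∀ i, Matrix (Fin (d i)) (Fin (2 * g)) ℚ)
    (Q : ∀ i, Matrix (Fin (2 * g)) (Fin (d i)) ℚ) (i : Fin m) : Prop :=
  ∀ I : Submodule ℚ (Matrix (Fin (d i)) (Fin (d i)) ℚ),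
    (∀ Y ∈ I, ∃ X ∈ A.NA, Y = P i * LinearMap.toMatrix' X * Q i) →
    (∀ X ∈ A.NA, ∀ Y ∈ I, P i * LinearMap.toMatrix' X * Q i * Y -
      Y * (P i * LinearMap.toMatrix' X * Q i) ∈ I) →
    (∀ Y ∈ I, Y = 0) ∨ ∀ X ∈ A.NA, P i * LinearMap.toMatrix' X * Q i ∈ I

theorem sqHyp_of (h : A.Full 𝔥) (hB : Blk (Pc P) (Qc Q) E) (hN : ∀ i, 0 < N i)
    (hc : ∀ i a, 6 ≤ (Finset.univ.filter fun b => c i b = c i a).card)
    (hl : cx A.NA = soM (Pm (Pc P)) (Qm (Qc Q)) (Em E) c) :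
    SqHyp (Pm (Pc P)) (Qm (Qc Q)) (Em E) c (cx 𝔥) where
  dec := dec_of hB
  ce := ce_of hB
  pos := hN
  six := hc
  le := by
    intro x hx
    have h1 := cx_mono h.le hx
    rw [hl] at h1
    exact h1
  br := h.cx_br'
  gen := by
    intro i a b hab hcc
    refine h.cx_adjoin _ ?_
    rw [hl]
    exact Submodule.subset_span ⟨i, a, b, hab, hcc, rfl⟩

theorem dich_of (h : A.Full 𝔥) (hB : Blk (Pc P) (Qc Q) E) (hN : ∀ i, 0 < N i)
    (hc : ∀ i a, 6 ≤ (Finset.univ.filter fun b => c i b = c i a).card)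
    (hl : cx A.NA = soM (Pm (Pc P)) (Qm (Qc Q)) (Em E) c) (hs : ∀ i, SimpleBlock A P Q i) :
    (sqHyp_of h hB hN hc hl).Dich := by
  have hne : ∀ i, Nontrivial (Fin (d i) → ℂ) := fun i => by
    have : Nonempty (Fin (d i)) := ⟨⟨0, hB.pos i⟩⟩
    infer_instance
  have hH := sqHyp_of h hB hN hc hl
  intro i j hij
  obtain ⟨lam, hlam⟩ := exists_lam
  have hcast : ∀ {p q : ℕ} (M : Matrix (Fin p) (Fin q) ℚ),
      (M.map (algebraMap ℚ ℂ)).map lam = M := by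
    intro p q M
    ext a b
    rw [Matrix.map_apply, Matrix.map_apply, Algebra.algebraMap_eq_smul_one, map_smul, hlam,
      smul_eq_mul, mul_one]
  -- rational surjectivity
  have hsurj : ∀ X ∈ A.NA, ∃ X' ∈ 𝔥, P i * LinearMap.toMatrix' X' * Q i =
      P i * LinearMap.toMatrix' X * Q i := by
    intro X hX
    have h1 : pb (Pm (Pc P)) (Qm (Qc Q)) i (X.baseChange ℂ) ∈ soC (Em E i) (c i) := by
      refine (soM_prop (dec_of hB) ?_).2 i
      rw [← hl]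
      exact bc_mem hX
    obtain ⟨x, hx, hxX⟩ := hH.surj i _ h1
    obtain ⟨M, rfl, hM⟩ := cx_comp hx
    obtain ⟨X', hX', e1⟩ := hM lam
    refine ⟨X', hX', ?_⟩
    rw [e1]
    rw [← matE_toC, pb_eq_iff] at hxX
    have h2 : (Pc P i * M * Qc Q i).map lam = (Pc P i * toC X * Qc Q i).map lam := by rw [hxX]
    unfold Pc Qc at h2
    rw [comp_mul, comp_mul, toC_eq, hcast] at h2
    exact h2
  -- the ideal
  let I : Submodule ℚ (Matrix (Fin (d i)) (Fin (d i)) ℚ) :=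
    { carrier := {Y | ∃ X ∈ 𝔥, Y = P i * LinearMap.toMatrix' X * Q i ∧
        P j * LinearMap.toMatrix' X * Q j = 0}
      zero_mem' := ⟨0, 𝔥.zero_mem, by rw [map_zero, Matrix.mul_zero, Matrix.zero_mul], by
        rw [map_zero, Matrix.mul_zero, Matrix.zero_mul]⟩
      add_mem' := by
        rintro _ _ ⟨X, hX, rfl, h1⟩ ⟨X', hX', rfl, h2⟩
        refine ⟨X + X', 𝔥.add_mem hX hX', ?_, ?_⟩
        · rw [map_add, Matrix.mul_add, Matrix.add_mul]
        · rw [map_add, Matrix.mul_add, Matrix.add_mul, h1, h2, add_zero]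
      smul_mem' := by
        rintro a _ ⟨X, hX, rfl, h1⟩
        refine ⟨a • X, 𝔥.smul_mem a hX, ?_, ?_⟩
        · rw [map_smul, Matrix.mul_smul, Matrix.smul_mul]
        · rw [map_smul, Matrix.mul_smul, Matrix.smul_mul, h1, smul_zero] }
  have hbr : ∀ (t : Fin m), ∀ X ∈ 𝔥, ∀ X' ∈ 𝔥,
      P t * LinearMap.toMatrix' (X * X' - X' * X) * Q t =
        P t * LinearMap.toMatrix' X * Q t * (P t * LinearMap.toMatrix' X' * Q t) -
          P t * LinearMap.toMatrix' X' * Q t * (P t * LinearMap.toMatrix' X * Q t) := by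
    intro t X hX X' hX'
    have h1 := hH.pb_br (bc_mem hX) (bc_mem hX') t
    rw [← bc_br, pb_bc, pb_bc, pb_bc, ← map_mul, ← map_mul, ← map_sub] at h1
    have h2 := Matrix.toLinAlgEquiv'.injective h1
    refine map_cast_inj ?_
    rw [h2, Matrix.map_sub (algebraMap ℚ ℂ) (fun a b => map_sub _ a b)]
    simp only [Matrix.map_mul]
  have hI1 : ∀ Y ∈ I, ∃ X ∈ A.NA, Y = P i * LinearMap.toMatrix' X * Q i := by
    rintro _ ⟨X, hX, rfl, -⟩
    exact ⟨X, h.le hX, rfl⟩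
  have hI2 : ∀ X ∈ A.NA, ∀ Y ∈ I, P i * LinearMap.toMatrix' X * Q i * Y -
      Y * (P i * LinearMap.toMatrix' X * Q i) ∈ I := by
    rintro X hX _ ⟨X', hX', rfl, h1⟩
    obtain ⟨X'', hX'', h2⟩ := hsurj X hX
    refine ⟨X'' * X' - X' * X'', h.br _ hX'' _ hX', ?_, ?_⟩
    · rw [hbr i X'' hX'' X' hX', h2]
    · rw [hbr j X'' hX'' X' hX', h1, Matrix.mul_zero, Matrix.zero_mul, sub_zero]
  rcases hs i I hI1 hI2 with h0 | h0
  · left
    intro x hx hx0
    obtain ⟨M, rfl, hM⟩ := cx_comp hx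
    rw [pb_matE] at hx0 ⊢
    have h1 : Pc P j * M * Qc Q j = 0 := Matrix.toLinAlgEquiv'.injective (by rw [hx0, map_zero])
    rw [eq_zero_of_comp (M := Pc P i * M * Qc Q i), map_zero]
    intro l
    obtain ⟨X, hX, e1⟩ := hM l
    have h2 : P j * LinearMap.toMatrix' X * Q j = 0 := by
      rw [e1, ← comp_mul]
      change (Pc P j * M * Qc Q j).map l = 0
      rw [h1]
      ext a b
      simp
    have h3 := h0 _ ⟨X, hX, rfl, h2⟩
    rw [e1, ← comp_mul] at h3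
    exact h3
  · right
    have key : ∀ x' ∈ cx A.NA, ∃ x ∈ cx 𝔥, pb (Pm (Pc P)) (Qm (Qc Q)) i x =
        pb (Pm (Pc P)) (Qm (Qc Q)) i x' ∧ pb (Pm (Pc P)) (Qm (Qc Q)) j x = 0 := by
      intro x' hx'
      unfold cx at hx'
      induction hx' using Submodule.span_induction with
      | mem x' hx' =>
        obtain ⟨X', hX', rfl⟩ := hx'
        obtain ⟨X, hX, h1, h2⟩ := h0 X' hX'
        refine ⟨X.baseChange ℂ, bc_mem hX, ?_, ?_⟩
        · rw [pb_bc, ← h1, ← pb_bc]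
        · rw [pb_bc, h2]
          rw [Matrix.map_zero _ (map_zero _), map_zero]
      | zero => exact ⟨0, Submodule.zero_mem _, rfl, map_zero _⟩
      | add a b _ _ ha hb =>
        obtain ⟨x, h1, h2, h3⟩ := ha
        obtain ⟨y, h4, h5, h6⟩ := hb
        exact ⟨x + y, Submodule.add_mem _ h1 h4, by rw [map_add, map_add, h2, h5], by
          rw [map_add, h3, h6, add_zero]⟩
      | smul t a _ ha =>
        obtain ⟨x, h1, h2, h3⟩ := ha
        exact ⟨t • x, Submodule.smul_mem _ t h1, by rw [map_smul, map_smul, h2], by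
          rw [map_smul, h3, smul_zero]⟩
    intro y hy
    have h1 := ib_mem_soM (P := P) (Q := Q) (E := E) (c := c) i hy
    rw [← hl] at h1
    obtain ⟨x, h2, h3, h4⟩ := key _ h1
    exact ⟨x, h2, by rw [h3, pb_ib (dec_of hB)], h4⟩

/-- full subalgebras -/
theorem full_sumC (h : A.Full 𝔥) (hB : Blk (Pc P) (Qc Q) E) (hN : ∀ i, 0 < N i)
    (hc : ∀ i a, 6 ≤ (Finset.univ.filter fun b => c i b = c i a).card)
    (h8 : ∀ i j, i ≠ j → (∃ a, (Finset.univ.filter fun b => c i b = c i a).card = 8) →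
      ∀ a, (Finset.univ.filter fun b => c j b = c j a).card ≠ 8)
    (hl : cx A.NA = soM (Pm (Pc P)) (Qm (Qc Q)) (Em E) c) (hs : ∀ i, SimpleBlock A P Q i) :
    A.NA ≤ 𝔥 := by
  have : ∀ i, Nontrivial (Fin (d i) → ℂ) := fun i => by
    have : Nonempty (Fin (d i)) := ⟨⟨0, hB.pos i⟩⟩
    infer_instance
  intro X hX
  refine mem_of_bc ?_
  have h1 := bc_mem hX
  rw [hl] at h1
  exact (sqHyp_of h hB hN hc hl).all (dich_of h hB hN hc hl hs) h8 h1

/-- the Lie algebra is perfect -/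
theorem soM_perfect (D : Dec (Pm (Pc P)) (Qm (Qc Q))) [∀ i, Nontrivial (Fin (d i) → ℂ)]
    (hE : ∀ i, CE (Em E i))
    (hc : ∀ i a, 6 ≤ (Finset.univ.filter fun b => c i b = c i a).card) :
    soM (Pm (Pc P)) (Qm (Qc Q)) (Em E) c ≤
      Submodule.span ℂ {z | ∃ x ∈ soM (Pm (Pc P)) (Qm (Qc Q)) (Em E) c,
        ∃ y ∈ soM (Pm (Pc P)) (Qm (Qc Q)) (Em E) c, z = x * y - y * x} := by
  refine Submodule.span_le.2 ?_
  rintro _ ⟨i, a, b, hab, hcc, rfl⟩
  have h1 : soC (Em E i) (c i) ≤ (Submodule.span ℂ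
      {z | ∃ x ∈ soM (Pm (Pc P)) (Qm (Qc Q)) (Em E) c,
        ∃ y ∈ soM (Pm (Pc P)) (Qm (Qc Q)) (Em E) c, z = x * y - y * x}).comap
          (ib (Pm (Pc P)) (Qm (Qc Q)) i) := by
    refine (soC_perfect (hE i) (hc i)).trans (Submodule.span_le.2 ?_)
    rintro _ ⟨x, hx, y, hy, rfl⟩
    refine Submodule.subset_span ⟨_, ib_mem_soM i hx, _, ib_mem_soM i hy, ?_⟩
    rw [map_sub, ib_mul D, ib_mul D]
  exact h1 (Submodule.subset_span ⟨a, b, hab, hcc, rfl⟩)

/-- every algebraic group which contains the periods -/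
theorem sum_lieC (hB : Blk (Pc P) (Qc Q) E) (hN : ∀ i, 0 < N i)
    (hc : ∀ i a, 6 ≤ (Finset.univ.filter fun b => c i b = c i a).card)
    (h8 : ∀ i j, i ≠ j → (∃ a, (Finset.univ.filter fun b => c i b = c i a).card = 8) →
      ∀ a, (Finset.univ.filter fun b => c j b = c j a).card ≠ 8)
    (hl : Submodule.span ℂ {Y | ∃ X ∈ A.NA, Y = toC X} =
      Submodule.span ℂ {Y | ∃ i a b, a ≠ b ∧ c i a = c i b ∧
        Y = Qc Q i * (E i a * E i b) * Pc P i})
    (hs : ∀ i, SimpleBlock A P Q i)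
    {H : Set (Matrix (Fin (2 * g)) (Fin (2 * g)) ℂ)} (h : Pool.Agent.R917.Pt A H) :
    A.NA ≤ Pool.Agent.R917.lieQ H ∧ (1 : Module.End ℚ A.H1) ∈ Pool.Agent.R917.lieQ H := by
  have : ∀ i, Nontrivial (Fin (d i) → ℂ) := fun i => by
    have : Nonempty (Fin (d i)) := ⟨⟨0, hB.pos i⟩⟩
    infer_instance
  have hl' : cx A.NA = soM (Pm (Pc P)) (Qm (Qc Q)) (Em E) c := by
    rw [← map_lie, hl, soM_eq]
  refine h.lie (fun hf => full_sumC hf hB hN hc h8 hl' hs) ?_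
  refine Pool.Agent.R917.perfect_of ?_
  rw [hl']
  exact soM_perfect (dec_of hB) (ce_of hB) hc

end AV

end Pool.Agent.R918.Sp

end
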