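import Pool.Agent.R917.MT

set_option autoImplicit false
set_option linter.unusedSectionVars false
set_option linter.unusedVariables false

/-!
# An abelian variety and a small de Rham-Betti object: the linear algebra
-/

open Module Function TensorProduct Matrix

noncomputable section

namespace Pool.Agent.R918.TZ

open Pool.Agent.Y102 Pool.Agent.W516.DR Pool.Agent.H204R3.GP Pool.Agent.W516.KC
  Pool.Agent.H204R3.SP Pool.Agent.TH119.MX Pool.Agent.R917

/-! ### Block triangular matrices -/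

section blocks

variable {B : Type} [Fintype B] [DecidableEq B] {R : Type} [CommRing R] (piece : B → ℕ)

/-- the diagonal block number `j` -/
def bl (j : ℕ) : Matrix B B R →ₗ[R] Matrix B B R where
  toFun Y := Matrix.of fun a b => if piece a = j ∧ piece b = j then Y a b else 0
  map_add' Y Y' := by
    ext a b
    change (if piece a = j ∧ piece b = j then Y a b + Y' a b else 0) =
      (if piece a = j ∧ piece b = j then Y a b else 0) +
        (if piece a = j ∧ piece b = j then Y' a b else 0)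
    split_ifs
    · rfl
    · rw [add_zero]
  map_smul' c Y := by
    ext a b
    change (if piece a = j ∧ piece b = j then c • Y a b else 0) =
      c • (if piece a = j ∧ piece b = j then Y a b else 0)
    split_ifs
    · rfl
    · rw [smul_zero]

theorem bl_apply (j : ℕ) (Y : Matrix B B R) (a b : B) :
    bl piece j Y a b = if piece a = j ∧ piece b = j then Y a b else 0 := rfl

/-- block triangular of depth `t` -/
def Dp (t : ℕ) (Y : Matrix B B R) : Prop := ∀ a b, Y a b ≠ 0 → piece a + t ≤ piece b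

variable {piece}

theorem Dp.mul {s t : ℕ} {Y Y' : Matrix B B R} (h : Dp piece s Y) (h' : Dp piece t Y') :
    Dp piece (s + t) (Y * Y') := by
  intro a b hab
  rw [Matrix.mul_apply] at hab
  obtain ⟨c, -, hc⟩ := Finset.exists_ne_zero_of_sum_ne_zero hab
  have h1 := h a c (left_ne_zero_of_mul hc)
  have h2 := h' c b (right_ne_zero_of_mul hc)
  omega

theorem Dp.sub {t : ℕ} {Y Y' : Matrix B B R} (h : Dp piece t Y) (h' : Dp piece t Y') :
    Dp piece t (Y - Y') := by
  intro a b hab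
  by_cases h1 : Y a b = 0
  · refine h' a b fun h2 => hab ?_
    rw [Matrix.sub_apply, h1, h2, sub_zero]
  · exact h a b h1

theorem Dp.add {t : ℕ} {Y Y' : Matrix B B R} (h : Dp piece t Y) (h' : Dp piece t Y') :
    Dp piece t (Y + Y') := by
  intro a b hab
  by_cases h1 : Y a b = 0
  · refine h' a b fun h2 => hab ?_
    rw [Matrix.add_apply, h1, h2, add_zero]
  · exact h a b h1

theorem Dp.smul {t : ℕ} {Y : Matrix B B R} (c : R) (h : Dp piece t Y) : Dp piece t (c • Y) := by
  intro a b hab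
  refine h a b fun h1 => hab ?_
  rw [Matrix.smul_apply, h1, smul_zero]

theorem Dp.zero {t : ℕ} : Dp piece t (0 : Matrix B B R) := fun a b h => absurd rfl h

theorem Dp.br {s t : ℕ} {Y Y' : Matrix B B R} (h : Dp piece s Y) (h' : Dp piece t Y') :
    Dp piece (s + t) (Y * Y' - Y' * Y) := by
  refine (h.mul h').sub ?_
  rw [add_comm]
  exact h'.mul h

theorem bl_mul {Y Y' : Matrix B B R} (h : Dp piece 0 Y) (h' : Dp piece 0 Y') (j : ℕ) :
    bl piece j (Y * Y') = bl piece j Y * bl piece j Y' := by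
  ext a b
  rw [bl_apply, Matrix.mul_apply, Matrix.mul_apply]
  by_cases hab : piece a = j ∧ piece b = j
  · rw [if_pos hab]
    refine Finset.sum_congr rfl fun c _ => ?_
    rw [bl_apply, bl_apply]
    by_cases hc : piece c = j
    · rw [if_pos ⟨hab.1, hc⟩, if_pos ⟨hc, hab.2⟩]
    · rw [if_neg fun h3 => hc h3.2, zero_mul]
      by_contra h3
      have h4 := h a c (left_ne_zero_of_mul h3)
      have h5 := h' c b (right_ne_zero_of_mul h3)
      omega
  · rw [if_neg hab]
    symm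
    refine Finset.sum_eq_zero fun c _ => ?_
    rw [bl_apply, bl_apply]
    by_cases ha : piece a = j
    · have hb : piece b ≠ j := fun hb => hab ⟨ha, hb⟩
      rw [if_neg (fun h3 : piece c = j ∧ piece b = j => hb h3.2), mul_zero]
    · rw [if_neg (fun h3 : piece a = j ∧ piece c = j => ha h3.1), zero_mul]

theorem bl_br {Y Y' : Matrix B B R} (h : Dp piece 0 Y) (h' : Dp piece 0 Y') (j : ℕ) :
    bl piece j (Y * Y' - Y' * Y) =
      bl piece j Y * bl piece j Y' - bl piece j Y' * bl piece j Y := by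
  rw [map_sub, bl_mul h h', bl_mul h' h]

theorem dp_one {Y : Matrix B B R} (h : Dp piece 0 Y) (h' : ∀ a, bl piece (piece a) Y = 0) :
    Dp piece 1 Y := by
  intro a b hab
  have h1 := h a b hab
  have h2 : piece a ≠ piece b := by
    intro h2
    have h3 := congrFun (congrFun (h' a) a) b
    rw [bl_apply, if_pos ⟨rfl, h2.symm⟩, Matrix.zero_apply] at h3
    exact hab h3
  omega

end blocks

/-! ### Dimensions -/

theorem finrank_le_map_ker {k P S W : Type*} [Field k] [AddCommGroup P] [Module k P]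
    [AddCommGroup S] [Module k S] [AddCommGroup W] [Module k W] [FiniteDimensional k P]
    [FiniteDimensional k S] [FiniteDimensional k W]
    (f : P →ₗ[k] S) (hf : Function.Surjective f) (h : P →ₗ[k] W) :
    finrank k S ≤ finrank k ((LinearMap.ker h).map f) + finrank k (LinearMap.range h) := by
  have h1 := Submodule.finrank_quotient_add_finrank ((LinearMap.ker h).map f)
  let φ : (P ⧸ LinearMap.ker h) →ₗ[k] (S ⧸ (LinearMap.ker h).map f) :=
    Submodule.mapQ _ _ f (Submodule.le_comap_map _ _)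
  have hφ : Function.Surjective φ := by
    intro y
    obtain ⟨s, rfl⟩ := Submodule.Quotient.mk_surjective _ y
    obtain ⟨p, rfl⟩ := hf s
    exact ⟨Submodule.Quotient.mk p, rfl⟩
  have h2 := LinearMap.finrank_le_finrank_of_surjective hφ
  have h3 : finrank k (P ⧸ LinearMap.ker h) = finrank k (LinearMap.range h) :=
    LinearEquiv.finrank_eq h.quotKerEquivRange
  omega

/-! ### The abstract argument -/

section abstract

variable {V : Type} [AddCommGroup V] [Module ℚ V] [FiniteDimensional ℚ V] {B : Type} [Fintype B]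
  [DecidableEq B] {piece : B → ℕ} {P : Submodule ℚ (Module.End ℚ V × Matrix B B ℚ)}
  {S : Submodule ℚ (Module.End ℚ V)} {Z : Submodule ℚ (Matrix B B ℚ)}

/-- all proper ideals have at least the codimension `m` -/
def Large (S : Submodule ℚ (Module.End ℚ V)) (m : ℕ) : Prop :=
  ∀ I : Submodule ℚ (Module.End ℚ V), I ≤ S → (∀ X ∈ I, ∀ Y ∈ S, X * Y - Y * X ∈ I) → I ≠ S →
    finrank ℚ I + m ≤ finrank ℚ S

/-- `P` is a Lie algebra of pairs (with the opposite bracket on the second factor) -/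
structure Goursat (P : Submodule ℚ (Module.End ℚ V × Matrix B B ℚ))
    (S : Submodule ℚ (Module.End ℚ V)) (Z : Submodule ℚ (Matrix B B ℚ)) (piece : B → ℕ) (m : ℕ) :
    Prop where
  fst : ∀ p ∈ P, p.1 ∈ S
  snd : ∀ p ∈ P, p.2 ∈ Z
  br : ∀ p ∈ P, ∀ q ∈ P, (p.1 * q.1 - q.1 * p.1, q.2 * p.2 - p.2 * q.2) ∈ P
  surj : ∀ X ∈ S, ∃ Y, (X, Y) ∈ P
  perf : S ≤ Submodule.span ℚ {T | ∃ X ∈ S, ∃ Y ∈ S, T = X * Y - Y * X}
  dp : ∀ Y ∈ Z, Dp piece 0 Y
  large : Large S m
  small : ∀ j, finrank ℚ (Z.map (bl piece j)) < m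

theorem Goursat.one {m : ℕ} (h : Goursat P S Z piece m) (j : ℕ) {X : Module.End ℚ V}
    (hX : X ∈ S) : ∃ Y, (X, Y) ∈ P ∧ bl piece j Y = 0 := by
  let f : P →ₗ[ℚ] S := LinearMap.codRestrict S ((LinearMap.fst ℚ _ _).comp P.subtype)
    fun p => h.fst p.1 p.2
  have hf : Function.Surjective f := by
    rintro ⟨X, hX⟩
    obtain ⟨Y, hY⟩ := h.surj X hX
    exact ⟨⟨(X, Y), hY⟩, rfl⟩
  let k : P →ₗ[ℚ] Matrix B B ℚ := (bl piece j).comp ((LinearMap.snd ℚ _ _).comp P.subtype)
  have h1 := finrank_le_map_ker f hf k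
  have h2 : LinearMap.range k ≤ Z.map (bl piece j) := by
    rintro _ ⟨p, rfl⟩
    exact Submodule.mem_map_of_mem (h.snd p.1 p.2)
  have h3 := (Submodule.finrank_mono h2).trans_lt (h.small j)
  let I : Submodule ℚ (Module.End ℚ V) := ((LinearMap.ker k).map f).map S.subtype
  have hI : ∀ X, X ∈ I ↔ ∃ Y, (X, Y) ∈ P ∧ bl piece j Y = 0 := by
    intro X
    constructor
    · rintro ⟨⟨X, hX⟩, ⟨⟨⟨X', Y⟩, hp⟩, hk, hfx⟩, rfl⟩
      have h4 : X' = X := congrArg Subtype.val hfx
      subst h4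
      exact ⟨Y, hp, hk⟩
    · rintro ⟨Y, hp, hk⟩
      exact ⟨⟨X, h.fst _ hp⟩, ⟨⟨(X, Y), hp⟩, hk, rfl⟩, rfl⟩
  have hfr : finrank ℚ I = finrank ℚ ((LinearMap.ker k).map f) :=
    (LinearEquiv.finrank_eq (Submodule.equivSubtypeMap S ((LinearMap.ker k).map f))).symm
  have hIS : I = S := by
    by_contra hne
    have h5 := h.large I (fun X hX => ?_) (fun X hX Y hY => ?_) hne
    · omega
    · obtain ⟨Y, hp, -⟩ := (hI X).1 hX
      exact h.fst _ hp
    · obtain ⟨W, hp, hW⟩ := (hI X).1 hX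
      obtain ⟨U, hq⟩ := h.surj Y hY
      refine (hI _).2 ⟨_, h.br _ hp _ hq, ?_⟩
      rw [bl_br (h.dp _ (h.snd _ hq)) (h.dp _ (h.snd _ hp)), hW, mul_zero, zero_mul, sub_zero]
  rw [← hIS] at hX
  exact (hI X).1 hX

/-- from brackets to all elements -/
theorem Goursat.span {m : ℕ} (h : Goursat P S Z piece m) {p : Matrix B B ℚ → Prop} (hp0 : p 0)
    (hpa : ∀ Y Y', p Y → p Y' → p (Y + Y')) (hps : ∀ (c : ℚ) Y, p Y → p (c • Y))
    (hbr : ∀ X ∈ S, ∀ X' ∈ S, ∃ Y, (X * X' - X' * X, Y) ∈ P ∧ p Y) {X : Module.End ℚ V}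
    (hX : X ∈ S) : ∃ Y, (X, Y) ∈ P ∧ p Y := by
  have hX' := h.perf hX
  clear hX
  induction hX' using Submodule.span_induction with
  | mem X hX =>
    obtain ⟨X, hX, X', hX', rfl⟩ := hX
    exact hbr X hX X' hX'
  | zero => exact ⟨0, P.zero_mem, hp0⟩
  | add X X' _ _ hX hX' =>
    obtain ⟨Y, h1, h2⟩ := hX
    obtain ⟨Y', h3, h4⟩ := hX'
    exact ⟨Y + Y', P.add_mem h1 h3, hpa _ _ h2 h4⟩
  | smul c X _ hX =>
    obtain ⟨Y, h1, h2⟩ := hX
    exact ⟨c • Y, P.smul_mem c h1, hps c _ h2⟩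

theorem Goursat.many {m : ℕ} (h : Goursat P S Z piece m) (s : Finset ℕ) :
    ∀ X ∈ S, ∃ Y, (X, Y) ∈ P ∧ ∀ j ∈ s, bl piece j Y = 0 := by
  classical
  induction s using Finset.induction_on with
  | empty =>
    intro X hX
    obtain ⟨Y, hY⟩ := h.surj X hX
    exact ⟨Y, hY, fun j hj => absurd hj (Finset.notMem_empty j)⟩
  | insert i s hi ih =>
    intro X hX
    refine h.span (p := fun Y => ∀ j ∈ insert i s, bl piece j Y = 0) (fun j _ => map_zero _)
      (fun Y Y' h1 h2 j hj => by rw [map_add, h1 j hj, h2 j hj, add_zero])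
      (fun c Y h1 j hj => by rw [map_smul, h1 j hj, smul_zero]) (fun X hX X' hX' => ?_) hX
    obtain ⟨Y, hp, hY⟩ := ih X hX
    obtain ⟨Y', hq, hY'⟩ := h.one i hX'
    refine ⟨_, h.br _ hp _ hq, fun j hj => ?_⟩
    rw [bl_br (h.dp _ (h.snd _ hq)) (h.dp _ (h.snd _ hp))]
    rcases Finset.mem_insert.1 hj with rfl | hj
    · rw [hY', mul_zero, zero_mul, sub_zero]
    · rw [hY j hj, mul_zero, zero_mul, sub_zero]

theorem Goursat.depth {m : ℕ} (h : Goursat P S Z piece m) (t : ℕ) :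
    ∀ X ∈ S, ∃ Y, (X, Y) ∈ P ∧ Dp piece t Y := by
  classical
  have h1 : ∀ X ∈ S, ∃ Y, (X, Y) ∈ P ∧ Dp piece 1 Y := by
    intro X hX
    obtain ⟨Y, hp, hY⟩ := h.many (Finset.univ.image piece) X hX
    exact ⟨Y, hp, dp_one (h.dp _ (h.snd _ hp)) fun a =>
      hY _ (Finset.mem_image_of_mem _ (Finset.mem_univ a))⟩
  induction t with
  | zero =>
    intro X hX
    obtain ⟨Y, hp⟩ := h.surj X hX
    exact ⟨Y, hp, h.dp _ (h.snd _ hp)⟩
  | succ t ih =>
    intro X hX
    refine h.span (p := fun Y => Dp piece (t + 1) Y) Dp.zero (fun Y Y' h1 h2 => h1.add h2)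
      (fun c Y h1 => h1.smul c) (fun X hX X' hX' => ?_) hX
    obtain ⟨Y, hp, hY⟩ := ih X hX
    obtain ⟨Y', hq, hY'⟩ := h1 X' hX'
    refine ⟨_, h.br _ hp _ hq, ?_⟩
    have h2 := hY'.br hY
    rw [add_comm 1 t] at h2
    exact h2

/-- **The first factor is contained in the Lie algebra.** -/
theorem Goursat.main {m : ℕ} (h : Goursat P S Z piece m) : ∀ X ∈ S, (X, 0) ∈ P := by
  intro X hX
  obtain ⟨Y, hp, hY⟩ := h.depth ((Finset.univ.sup piece) + 1) X hX
  have h0 : Y = 0 := by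
    ext a b
    rw [Matrix.zero_apply]
    by_contra hab
    have h1 := hY a b hab
    have h2 : piece b ≤ Finset.univ.sup piece := Finset.le_sup (Finset.mem_univ b)
    omega
  rwa [h0] at hp

end abstract

end Pool.Agent.R918.TZ

end
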