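import Pool.Agent.R918.Times

set_option autoImplicit false
set_option linter.unusedSectionVars false
set_option linter.unusedVariables false

/-!
# An abelian variety and a small de Rham-Betti object: the Lie algebra of the group
-/

open Module Function TensorProduct Matrix

noncomputable section

namespace Pool.Agent.R918.TZ

open Pool.Agent.Y102 Pool.Agent.W516.DR Pool.Agent.H204R3.GP Pool.Agent.W516.KC
  Pool.Agent.H204R3.SP Pool.Agent.TH119.MX Pool.Agent.R917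

variable {g : ℕ} (A : AbVar g) {B : Type} [Fintype B] [DecidableEq B]

/-- rational matrices as complex matrices -/
def cM (Y : Matrix B B ℚ) : Matrix B B ℂ := Y.map (algebraMap ℚ ℂ)

theorem cM_add (Y Y' : Matrix B B ℚ) : cM (Y + Y') = cM Y + cM Y' :=
  Matrix.map_add _ (map_add _) Y Y'

theorem cM_mul (Y Y' : Matrix B B ℚ) : cM (Y * Y') = cM Y * cM Y' := Matrix.map_mul

theorem cM_sub (Y Y' : Matrix B B ℚ) : cM (Y - Y') = cM Y - cM Y' :=
  Matrix.map_sub _ (map_sub _) Y Y'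

theorem cM_smul (c : ℚ) (Y : Matrix B B ℚ) : cM (c • Y) = (c : ℂ) • cM Y := by
  ext i j
  change (algebraMap ℚ ℂ) (c * Y i j) = (c : ℂ) * (algebraMap ℚ ℂ) (Y i j)
  rw [map_mul]
  rfl

theorem cM_zero : cM (0 : Matrix B B ℚ) = 0 := Matrix.map_zero _ (map_zero _)

/-- the block diagonal matrix of a pair -/
def prM (X : Module.End ℚ A.H1) (Y : Matrix B B ℚ) :
    Matrix (Fin (2 * g) ⊕ B) (Fin (2 * g) ⊕ B) ℂ := fromBlocks (toC X)ᵀ 0 0 (cM Y)

theorem prM_add (X X' : Module.End ℚ A.H1) (Y Y' : Matrix B B ℚ) :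
    prM A (X + X') (Y + Y') = prM A X Y + prM A X' Y' := by
  unfold prM
  rw [toC_add, Matrix.transpose_add, cM_add, fromBlocks_add, add_zero, add_zero]

theorem prM_smul (c : ℚ) (X : Module.End ℚ A.H1) (Y : Matrix B B ℚ) :
    prM A (c • X) (c • Y) = (c : ℂ) • prM A X Y := by
  unfold prM
  rw [toC_smul, Matrix.transpose_smul, cM_smul, fromBlocks_smul, smul_zero, smul_zero]

theorem prM_zero : prM A (0 : Module.End ℚ A.H1) (0 : Matrix B B ℚ) = 0 := by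
  unfold prM
  rw [toC_zero, Matrix.transpose_zero, cM_zero, fromBlocks_zero]

theorem prM_br (X X' : Module.End ℚ A.H1) (Y Y' : Matrix B B ℚ) :
    prM A X Y * prM A X' Y' - prM A X' Y' * prM A X Y =
      prM A (X' * X - X * X') (Y * Y' - Y' * Y) := by
  unfold prM
  rw [fromBlocks_multiply, fromBlocks_multiply, sub_eq_add_neg, fromBlocks_neg, fromBlocks_add,
    toC_sub, toC_mul, toC_mul, Matrix.transpose_sub, Matrix.transpose_mul, Matrix.transpose_mul,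
    cM_sub, cM_mul, cM_mul]
  simp [sub_eq_add_neg]

/-- The group contains a point of the torsor of periods of the sum. -/
structure PtZ (Q : Matrix B B ℂ)
    (H : Set (Matrix (Fin (2 * g) ⊕ B) (Fin (2 * g) ⊕ B) ℂ)) : Prop where
  grp : AlgGrp QQ H
  pt : ∃ T T' : Matrix (Fin (2 * g) ⊕ B) (Fin (2 * g) ⊕ B) ℂ, T * T' = 1 ∧
    (∀ i j, T' i j ∈ QA) ∧ fromBlocks (PM A) 0 0 Q * T ∈ H

/-- The components of the logarithmic derivative. -/
def lgZ (Q Q' : Matrix B B ℂ) (D : Derivation QBar ℂ ℂ) (lam : ℂ →ₗ[ℚ] ℚ) : Matrix B B ℚ :=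
  (Q.map D * Q').map lam

theorem cM_lgZ (Q Q' : Matrix B B ℂ) (D : Derivation QBar ℂ ℂ) (lam : ℂ →ₗ[ℚ] ℚ) :
    cM (lgZ Q Q' D lam) = (Q.map D * Q').map (lamF lam) := by
  ext i j
  rfl

variable {A} {Q Q' : Matrix B B ℂ} {H : Set (Matrix (Fin (2 * g) ⊕ B) (Fin (2 * g) ⊕ B) ℂ)}

theorem PtZ.log (h : PtZ A Q H) (hQ : Q * Q' = 1) (hQ' : Q' * Q = 1) (D : Derivation QBar ℂ ℂ)
    (lam : ℂ →ₗ[ℚ] ℚ) (d : ℕ) :
    Stab H d (prM A (Pool.Agent.W516.DR.cmpE lam (XX A.basis D)) (lgZ Q Q' D lam)) := by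
  obtain ⟨P', h1, h2⟩ := exists_inv A
  obtain ⟨T, T', h3, h4, h5⟩ := h.pt
  have e1 : fromBlocks (PM A) 0 0 Q * fromBlocks P' 0 0 Q' = 1 := by
    rw [fromBlocks_multiply]
    simp [h1, hQ]
  have e2 : fromBlocks P' 0 0 Q' * fromBlocks (PM A) 0 0 Q = 1 := by
    rw [fromBlocks_multiply]
    simp [h2, hQ']
  have h6 := h.grp.stab_map (lamF lam)
    (h.grp.stab_der QQ_le_QA (fun x hx => mem_QA.1 hx) e1 e2 h3 h4 h5 (d := d) (derQ D))
  have e3 : ((fromBlocks (PM A) 0 0 Q).map (derQ D) * fromBlocks P' 0 0 Q').map (lamF lam) =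
      prM A (Pool.Agent.W516.DR.cmpE lam (XX A.basis D)) (lgZ Q Q' D lam) := by
    unfold prM
    rw [toC_cmpE A D h2 lam, cM_lgZ]
    have e4 : (fromBlocks (PM A) 0 0 Q).map (derQ D) =
        fromBlocks ((PM A).map D) 0 0 (Q.map D) := by
      rw [fromBlocks_map]
      congr 1
      · ext a b
        exact map_zero (derQ D)
      · ext a b
        exact map_zero (derQ D)
    rw [e4, fromBlocks_multiply, fromBlocks_map]
    have z1 : ∀ {M N : Type}, (0 : Matrix M N ℂ).map (lamF lam) = 0 := by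
      intro M N
      ext a b
      exact map_zero (lamF lam)
    simp [z1]
  rwa [e3] at h6

/-- the rational pairs in the Lie algebra, up to scalars on the first factor -/
def PP (A : AbVar g) (H : Set (Matrix (Fin (2 * g) ⊕ B) (Fin (2 * g) ⊕ B) ℂ))
    (Z : Submodule ℚ (Matrix B B ℚ)) : Submodule ℚ (Module.End ℚ A.H1 × Matrix B B ℚ) where
  carrier := {p | p.1 ∈ A.LA ∧ p.2 ∈ Z ∧
    ∃ c : ℚ, ∀ d, Stab H d (prM A (p.1 + c • (1 : Module.End ℚ A.H1)) p.2)}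
  zero_mem' := ⟨A.LA.zero_mem, Z.zero_mem, 0, fun d => by
    change Stab H d (prM A ((0 : Module.End ℚ A.H1) + (0 : ℚ) • (1 : Module.End ℚ A.H1)) 0)
    rw [zero_smul, add_zero, prM_zero]
    exact Stab.zero⟩
  add_mem' := by
    rintro ⟨X, Y⟩ ⟨X', Y'⟩ ⟨h1, h2, c, hc⟩ ⟨h3, h4, c', hc'⟩
    refine ⟨A.LA.add_mem h1 h3, Z.add_mem h2 h4, c + c', fun d => ?_⟩
    have h5 := (hc d).add (hc' d)
    rw [← prM_add] at h5
    have h6 : X + X' + (c + c') • (1 : Module.End ℚ A.H1) =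
        X + c • (1 : Module.End ℚ A.H1) + (X' + c' • (1 : Module.End ℚ A.H1)) := by
      rw [add_smul]
      abel
    change Stab H d (prM A (X + X' + (c + c') • (1 : Module.End ℚ A.H1)) (Y + Y'))
    rw [h6]
    exact h5
  smul_mem' := by
    rintro a ⟨X, Y⟩ ⟨h1, h2, c, hc⟩
    refine ⟨A.LA.smul_mem a h1, Z.smul_mem a h2, a * c, fun d => ?_⟩
    have h5 := (hc d).smul (a : ℂ)
    rw [← prM_smul] at h5
    have h6 : a • X + (a * c) • (1 : Module.End ℚ A.H1) =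
        a • (X + c • (1 : Module.End ℚ A.H1)) := by
      rw [smul_add, smul_smul]
    change Stab H d (prM A (a • X + (a * c) • (1 : Module.End ℚ A.H1)) (a • Y))
    rw [h6]
    exact h5

variable {Z : Submodule ℚ (Matrix B B ℚ)}

theorem mem_PP {X : Module.End ℚ A.H1} {Y : Matrix B B ℚ} : (X, Y) ∈ PP A H Z ↔
    X ∈ A.LA ∧ Y ∈ Z ∧ ∃ c : ℚ, ∀ d, Stab H d (prM A (X + c • (1 : Module.End ℚ A.H1)) Y) :=
  Iff.rfl

/-- brackets are in the Lie algebra itself -/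
theorem PP_br {X X' : Module.End ℚ A.H1} {Y Y' : Matrix B B ℚ} (h : (X, Y) ∈ PP A H Z)
    (h' : (X', Y') ∈ PP A H Z) (d : ℕ) :
    Stab H d (prM A (X * X' - X' * X) (Y' * Y - Y * Y')) := by
  obtain ⟨-, -, c, hc⟩ := mem_PP.1 h
  obtain ⟨-, -, c', hc'⟩ := mem_PP.1 h'
  have h1 := (hc' d).comm (hc d)
  rw [prM_br] at h1
  have h2 := br_scalar (A := A) X X' c c'
  rw [h2] at h1
  exact h1

/-- the projection -/
def qZ (A : AbVar g) (H : Set (Matrix (Fin (2 * g) ⊕ B) (Fin (2 * g) ⊕ B) ℂ))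
    (Z : Submodule ℚ (Matrix B B ℚ)) : Submodule ℚ (Module.End ℚ A.H1) :=
  (PP A H Z).map (LinearMap.fst ℚ _ _)

theorem mem_qZ {X : Module.End ℚ A.H1} : X ∈ qZ A H Z ↔ ∃ Y, (X, Y) ∈ PP A H Z := by
  unfold qZ
  constructor
  · rintro ⟨⟨X', Y⟩, h1, rfl⟩
    exact ⟨Y, h1⟩
  · rintro ⟨Y, hY⟩
    exact ⟨_, hY, rfl⟩

/-- The conditions on the Lie algebra `Z` of matrices. -/
structure ZZ (Q Q' : Matrix B B ℂ) (Z : Submodule ℚ (Matrix B B ℚ)) : Prop where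
  br : ∀ Y ∈ Z, ∀ Y' ∈ Z, Y * Y' - Y' * Y ∈ Z
  log : ∀ (D : Derivation QBar ℂ ℂ) (lam : ℂ →ₗ[ℚ] ℚ), lgZ Q Q' D lam ∈ Z

theorem PtZ.full (h : PtZ A Q H) (hQ : Q * Q' = 1) (hQ' : Q' * Q = 1) (hZ : ZZ Q Q' Z) :
    A.Full (qZ A H Z) := by
  refine full_of_X0 A (fun X hX => ?_) (fun X hX Y hY => ?_) fun D lam => ?_
  · obtain ⟨Y, hY⟩ := mem_qZ.1 hX
    exact A.LA_le_NA hY.1
  · obtain ⟨V, hV⟩ := mem_qZ.1 hX
    obtain ⟨W, hW⟩ := mem_qZ.1 hY
    refine mem_qZ.2 ⟨W * V - V * W, mem_PP.2 ⟨A.LA_bracket hV.1 hW.1, hZ.br _ hW.2.1 _ hV.2.1, 0,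
      fun d => ?_⟩⟩
    rw [zero_smul, add_zero]
    exact PP_br hV hW d
  · refine mem_qZ.2 ⟨lgZ Q Q' D lam, mem_PP.2 ⟨?_, hZ.log D lam, lam (D tau / (2 * tau)),
      fun d => ?_⟩⟩
    · rw [AbVar.LA_eq]
      exact X0_mem A.basis AbVar.tau_ne D lam
    · rw [X0_eq D lam]
      exact h.log hQ hQ' D lam d

theorem trace_full {𝔮 : Submodule ℚ (Module.End ℚ A.H1)} (h : A.Full 𝔮) :
    Pool.Agent.W516.KC2.TraceNondeg 𝔮 := by
  intro X hX htr
  have h1 := central_of_trace 𝔮 h.semi h.br hX htr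
  have h2 := h.comm X h1
  have h3 : X ∈ A.EA := fun Y hY => h2 Y (A.LA_le_NA hY)
  obtain ⟨M, hM⟩ := A.hodge_end (A.mem_EA.1 h3)
  exact A.trace_sq hM (A.NA_skew (h.le hX)) (htr X hX)

/-- A subspace of the Lie algebra `𝔫` which is contained in `𝔮` up to elements of the centre. -/
theorem split_full {𝔮 : Submodule ℚ (Module.End ℚ A.H1)} (h : A.Full 𝔮)
    (h0 : ∀ (D : Derivation QBar ℂ ℂ) (lam : ℂ →ₗ[ℚ] ℚ), X0 A.basis tau D lam ∈ 𝔮)
    {X : Module.End ℚ A.H1} (hX : X ∈ A.NA)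
    (hk : ∀ φ : MultilinearMap ℚ (fun _ : Fin 2 × Fin 2 => A.H1) ℚ,
      IsDeRhamBettiForm QBar A.dR tau 2 φ → Kills X φ) :
    ∃ Y ∈ 𝔮, ∀ W ∈ A.NA, W * (X - Y) = (X - Y) * W := by
  have hdrb : IsDeRhamBettiForm QBar A.dR tau 2
      (Pool.Agent.W516.KC2.casimir 𝔮 (trace_full h) A.om) := by
    have h1 : IsDeRhamBettiForm QBar (A.basis : Fin g ⊕ Fin g → (A.H1 →ₗ[ℚ] ℂ)) tau 2
        (Pool.Agent.W516.KC2.casimir 𝔮 (trace_full h) A.om) := by
      refine (drb_iff A.basis AbVar.tau_ne (Module.finBasis ℚ A.H1) _).2 fun D lam => ?_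
      exact Pool.Agent.W516.KC2.casimir_kills 𝔮 (trace_full h) A.om
        (A.NA_skew (h.le (h0 D lam))) fun Y hY => h.br _ (h0 D lam) _ hY
    rwa [A.coe_basis] at h1
  obtain ⟨Y, hY, hc⟩ := Pool.Agent.W516.KC2.mem_of_kills_casimir 𝔮 (trace_full h) A.om h.br
    (fun u hu => A.om_nondeg hu) (A.NA_skew hX) (hk _ hdrb)
  exact ⟨Y, hY, h.comm _ hc⟩

/-- brackets of sums with central elements -/
theorem br_split {X X' Y Y' : Module.End ℚ A.H1} (hX : X ∈ A.NA) (hX' : X' ∈ A.NA)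
    (hY : Y ∈ A.NA) (hY' : Y' ∈ A.NA) (h : ∀ W ∈ A.NA, W * (X - Y) = (X - Y) * W)
    (h' : ∀ W ∈ A.NA, W * (X' - Y') = (X' - Y') * W) :
    X * X' - X' * X = Y * Y' - Y' * Y := by
  have e1 := h X' hX'
  have e2 := h' Y hY
  have e3 : X * X' - X' * X = (X - Y) * X' - X' * (X - Y) + (Y * (X' - Y') - (X' - Y') * Y) +
      (Y * Y' - Y' * Y) := by
    simp only [sub_mul, mul_sub]
    abel
  rw [e3, e1, e2, sub_self, sub_self, zero_add, zero_add]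

/-- the derived algebra -/
def dr (M : Submodule ℚ (Module.End ℚ A.H1)) : Submodule ℚ (Module.End ℚ A.H1) :=
  Submodule.span ℚ {T | ∃ X ∈ M, ∃ Y ∈ M, T = X * Y - Y * X}

/-- the derived algebra of a Lie algebra of matrices -/
def drZ (Z : Submodule ℚ (Matrix B B ℚ)) : Submodule ℚ (Matrix B B ℚ) :=
  Submodule.span ℚ {T | ∃ Y ∈ Z, ∃ Y' ∈ Z, T = Y * Y' - Y' * Y}

/-- the strict pairs -/
def PS (A : AbVar g) (H : Set (Matrix (Fin (2 * g) ⊕ B) (Fin (2 * g) ⊕ B) ℂ))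
    (Z : Submodule ℚ (Matrix B B ℚ)) (S : Submodule ℚ (Module.End ℚ A.H1)) :
    Submodule ℚ (Module.End ℚ A.H1 × Matrix B B ℚ) where
  carrier := {p | p.1 ∈ S ∧ p.2 ∈ drZ Z ∧ ∀ d, Stab H d (prM A p.1 p.2)}
  zero_mem' := ⟨S.zero_mem, (drZ Z).zero_mem, fun d => by
    change Stab H d (prM A (0 : Module.End ℚ A.H1) 0)
    rw [prM_zero]
    exact Stab.zero⟩
  add_mem' := by
    rintro ⟨X, Y⟩ ⟨X', Y'⟩ ⟨h1, h2, hc⟩ ⟨h3, h4, hc'⟩
    refine ⟨S.add_mem h1 h3, (drZ Z).add_mem h2 h4, fun d => ?_⟩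
    change Stab H d (prM A (X + X') (Y + Y'))
    rw [prM_add]
    exact (hc d).add (hc' d)
  smul_mem' := by
    rintro a ⟨X, Y⟩ ⟨h1, h2, hc⟩
    refine ⟨S.smul_mem a h1, (drZ Z).smul_mem a h2, fun d => ?_⟩
    change Stab H d (prM A (a • X) (a • Y))
    rw [prM_smul]
    exact (hc d).smul _

theorem mem_PS {S : Submodule ℚ (Module.End ℚ A.H1)} {X : Module.End ℚ A.H1}
    {Y : Matrix B B ℚ} : (X, Y) ∈ PS A H Z S ↔
      X ∈ S ∧ Y ∈ drZ Z ∧ ∀ d, Stab H d (prM A X Y) := Iff.rfl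

theorem drZ_le (hZ : ZZ Q Q' Z) : drZ Z ≤ Z := by
  unfold drZ
  rw [Submodule.span_le]
  rintro _ ⟨Y, hY, Y', hY', rfl⟩
  exact hZ.br Y hY Y' hY'

theorem dr_le {M : Submodule ℚ (Module.End ℚ A.H1)} (hbr : ∀ X ∈ M, ∀ Y ∈ M, X * Y - Y * X ∈ M) :
    dr M ≤ M := by
  unfold dr
  rw [Submodule.span_le]
  rintro _ ⟨X, hX, Y, hY, rfl⟩
  exact hbr X hX Y hY

/-- **The main theorem on Lie algebras.** `M` is the Lie algebra of the de Rham-Betti classes, or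
the Lie algebra of the Hodge classes if the de Rham-Betti classes of degree four are Hodge
classes. -/
theorem main (h : PtZ A Q H) (hQ : Q * Q' = 1) (hQ' : Q' * Q = 1) (hZ : ZZ Q Q' Z)
    {piece : B → ℕ} (hdp : ∀ Y ∈ Z, Dp piece 0 Y) {M : Submodule ℚ (Module.End ℚ A.H1)}
    (hM : M ≤ A.NA) (hbr : ∀ X ∈ M, ∀ Y ∈ M, X * Y - Y * X ∈ M)
    (hperf : dr M ≤ dr (dr M))
    (hk : ∀ X ∈ M, ∀ φ : MultilinearMap ℚ (fun _ : Fin 2 × Fin 2 => A.H1) ℚ,
      IsDeRhamBettiForm QBar A.dR tau 2 φ → Kills X φ)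
    {m : ℕ} (hlarge : Large (dr M) m) (hsmall : ∀ j, finrank ℚ ((drZ Z).map (bl piece j)) < m) :
    ∀ X ∈ dr M, ∀ d, Stab H d (prM A X (0 : Matrix B B ℚ)) := by
  have hf := h.full hQ hQ' hZ
  have h0 : ∀ (D : Derivation QBar ℂ ℂ) (lam : ℂ →ₗ[ℚ] ℚ), X0 A.basis tau D lam ∈ qZ A H Z := by
    intro D lam
    refine mem_qZ.2 ⟨lgZ Q Q' D lam, mem_PP.2 ⟨?_, hZ.log D lam, lam (D tau / (2 * tau)),
      fun d => ?_⟩⟩
    · rw [AbVar.LA_eq]
      exact X0_mem A.basis AbVar.tau_ne D lam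
    · rw [X0_eq D lam]
      exact h.log hQ hQ' D lam d
  have hlift : ∀ X ∈ dr M, ∃ Y, Y ∈ drZ Z ∧ ∀ d, Stab H d (prM A X Y) := by
    intro X hX
    unfold dr at hX
    induction hX using Submodule.span_induction with
    | mem X hX =>
      obtain ⟨X, hX, X', hX', rfl⟩ := hX
      obtain ⟨Y, hY, hc⟩ := split_full hf h0 (hM hX) (hk X hX)
      obtain ⟨Y', hY', hc'⟩ := split_full hf h0 (hM hX') (hk X' hX')
      rw [br_split (hM hX) (hM hX') (hf.le hY) (hf.le hY') hc hc']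
      obtain ⟨V, hV⟩ := mem_qZ.1 hY
      obtain ⟨W, hW⟩ := mem_qZ.1 hY'
      exact ⟨W * V - V * W, Submodule.subset_span ⟨W, hW.2.1, V, hV.2.1, rfl⟩,
        fun d => PP_br hV hW d⟩
    | zero =>
      refine ⟨0, (drZ Z).zero_mem, fun d => ?_⟩
      rw [prM_zero]
      exact Stab.zero
    | add X X' _ _ hX hX' =>
      obtain ⟨Y, h1, h2⟩ := hX
      obtain ⟨Y', h3, h4⟩ := hX'
      refine ⟨Y + Y', (drZ Z).add_mem h1 h3, fun d => ?_⟩
      rw [prM_add]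
      exact (h2 d).add (h4 d)
    | smul c X _ hX =>
      obtain ⟨Y, h1, h2⟩ := hX
      refine ⟨c • Y, (drZ Z).smul_mem c h1, fun d => ?_⟩
      rw [prM_smul]
      exact (h2 d).smul _
  have hG : Goursat (PS A H Z (dr M)) (dr M) (drZ Z) piece m :=
    { fst := fun p hp => hp.1
      snd := fun p hp => hp.2.1
      br := by
        rintro ⟨X, Y⟩ hp ⟨X', Y'⟩ hq
        refine mem_PS.2 ⟨?_, ?_, fun d => ?_⟩
        · exact Submodule.subset_span ⟨X, dr_le hbr hp.1, X', dr_le hbr hq.1, rfl⟩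
        · exact Submodule.subset_span ⟨Y', drZ_le hZ hq.2.1, Y, drZ_le hZ hp.2.1, rfl⟩
        · have h1 := (hq.2.2 d).comm (hp.2.2 d)
          rw [prM_br] at h1
          exact h1
      surj := by
        intro X hX
        obtain ⟨Y, h1, h2⟩ := hlift X hX
        exact ⟨Y, mem_PS.2 ⟨hX, h1, h2⟩⟩
      perf := hperf
      dp := fun Y hY => hdp Y (drZ_le hZ hY)
      large := hlarge
      small := hsmall }
  intro X hX
  exact (mem_PS.1 (hG.main X hX)).2.2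

end Pool.Agent.R918.TZ

end
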