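import Pool.Agent.R918.Times2

set_option autoImplicit false
set_option linter.unusedSectionVars false
set_option linter.unusedVariables false

/-!
# An abelian variety and a small de Rham-Betti object: groups
-/

open Module Function TensorProduct Matrix

noncomputable section

namespace Pool.Agent.R918.TZ

open Pool.Agent.Y102 Pool.Agent.W516.DR Pool.Agent.H204R3.GP Pool.Agent.W516.KC
  Pool.Agent.H204R3.SP Pool.Agent.TH119.MX Pool.Agent.R917

/-! ### The Lie algebra of a group and exponentials -/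

section expo

variable {B : Type} [Fintype B] [DecidableEq B]

/-- If all exponentials are in the group, the matrix is in the Lie algebra. -/
theorem stab_of_exp {H : Set (Matrix B B ℂ)} (hmul : ∀ x ∈ H, ∀ y ∈ H, x * y ∈ H)
    {X : Matrix B B ℂ} (hX : ∀ t : ℂ, NormedSpace.exp (t • X) ∈ H) (d : ℕ) : Stab H d X := by
  intro w hw h hh
  have h0 : FF h X w = fun _ => 0 := by
    funext t
    unfold FF
    exact hw _ (hmul h hh _ (hX t))
  have h1 := hasDerivAt_FF h X w 0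
  rw [h0] at h1
  have h2 := h1.unique (hasDerivAt_const (0 : ℂ) (0 : ℂ))
  unfold FF at h2
  rw [zero_smul, NormedSpace.exp_zero, Matrix.mul_one] at h2
  exact h2

theorem AlgGrp.exp_iff {F : Subfield ℂ} {H : Set (Matrix B B ℂ)} (hH : AlgGrp F H)
    (X : Matrix B B ℂ) : (∀ t : ℂ, NormedSpace.exp (t • X) ∈ H) ↔ ∀ d, Stab H d X :=
  ⟨fun h d => stab_of_exp hH.mul h d, fun h t => exp_mem hH fun d => (h d).smul t⟩

/-- the ring of pairs of matrices -/
def blkHom (N B : Type) [Fintype N] [DecidableEq N] [Fintype B] [DecidableEq B] :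
    Matrix N N ℂ × Matrix B B ℂ →+* Matrix (N ⊕ B) (N ⊕ B) ℂ where
  toFun p := fromBlocks p.1 0 0 p.2
  map_one' := fromBlocks_one
  map_mul' p q := by
    rw [fromBlocks_multiply]
    simp
  map_zero' := fromBlocks_zero
  map_add' p q := by
    rw [fromBlocks_add, add_zero, add_zero]
    rfl

theorem continuous_blkHom (N : Type) [Fintype N] [DecidableEq N] :
    Continuous (blkHom N B) := by
  change Continuous fun p : Matrix N N ℂ × Matrix B B ℂ =>
    fromBlocks p.1 (0 : Matrix N B ℂ) (0 : Matrix B N ℂ) p.2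
  exact Continuous.matrix_fromBlocks continuous_fst continuous_const continuous_const
    continuous_snd

theorem exp_pair {R S U : Type} [NormedRing R] [NormedAlgebra ℂ R] [CompleteSpace R]
    [NormedRing S] [NormedAlgebra ℂ S] [CompleteSpace S] [NormedRing U] [NormedAlgebra ℂ U]
    [CompleteSpace U] (f : R × S →+* U) (hf : Continuous f) (x : R) :
    NormedSpace.exp (f (x, 0)) = f (NormedSpace.exp x, 1) := by
  let _ : NormedAlgebra ℚ R := NormedAlgebra.restrictScalars ℚ ℂ R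
  let _ : NormedAlgebra ℚ S := NormedAlgebra.restrictScalars ℚ ℂ S
  let _ : NormedAlgebra ℚ U := NormedAlgebra.restrictScalars ℚ ℂ U
  have h1 := NormedSpace.map_exp f hf (x, (0 : S))
  have h2 : NormedSpace.exp ((x, 0) : R × S) = (NormedSpace.exp x, 1) := by
    refine Prod.ext ?_ ?_
    · exact Prod.fst_exp (x, (0 : S))
    · refine (Prod.snd_exp (x, (0 : S))).trans ?_
      exact NormedSpace.exp_zero
  rw [h2] at h1
  exact h1.symm

section norms

attribute [local instance] Matrix.linftyOpNormedRing Matrix.linftyOpNormedAlgebra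

theorem exp_fromBlocks {N : Type} [Fintype N] [DecidableEq N] (X : Matrix N N ℂ) :
    NormedSpace.exp (fromBlocks X 0 0 (0 : Matrix B B ℂ)) = fromBlocks (NormedSpace.exp X) 0 0 1 := by
  have c1 : CompleteSpace (Matrix N N ℂ) := FiniteDimensional.complete ℂ _
  have c2 : CompleteSpace (Matrix B B ℂ) := FiniteDimensional.complete ℂ _
  have c3 : CompleteSpace (Matrix (N ⊕ B) (N ⊕ B) ℂ) := FiniteDimensional.complete ℂ _
  exact exp_pair (blkHom N B) (continuous_blkHom N) X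

end norms

end expo

/-! ### The Lie algebra of the second object -/

section second

variable {B : Type} [Fintype B] [DecidableEq B]

/-- The rational Lie algebra of a group, with the condition of being block triangular. -/
def lieZ (H : Set (Matrix B B ℂ)) (piece : B → ℕ) : Submodule ℚ (Matrix B B ℚ) where
  carrier := {Y | (∀ d, Stab H d (cM Y)) ∧ Dp piece 0 Y}
  zero_mem' := ⟨fun d => by rw [cM_zero]; exact Stab.zero, Dp.zero⟩
  add_mem' := fun {Y Y'} h h' => ⟨fun d => by rw [cM_add]; exact (h.1 d).add (h'.1 d),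
    h.2.add h'.2⟩
  smul_mem' := fun c Y h => ⟨fun d => by rw [cM_smul]; exact (h.1 d).smul _, h.2.smul c⟩

theorem mem_lieZ {H : Set (Matrix B B ℂ)} {piece : B → ℕ} {Y : Matrix B B ℚ} :
    Y ∈ lieZ H piece ↔ (∀ d, Stab H d (cM Y)) ∧ Dp piece 0 Y := Iff.rfl

theorem dp_iff {R : Type} [CommRing R] {piece : B → ℕ} {Y : Matrix B B R} :
    Dp piece 0 Y ↔ Y.BlockTriangular piece := by
  constructor
  · intro h a b hab
    by_contra hne
    have := h a b hne
    omega
  · intro h a b hab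
    by_contra hne
    exact hab (h (by omega))

theorem dp_inv {piece : B → ℕ} {Q Q' : Matrix B B ℂ} (h : Dp piece 0 Q) (h1 : Q * Q' = 1)
    (h2 : Q' * Q = 1) : Dp piece 0 Q' := by
  let _ : Invertible Q := ⟨Q', h2, h1⟩
  have h3 : Q⁻¹ = Q' := Matrix.inv_eq_right_inv h1
  rw [dp_iff, ← h3]
  exact Matrix.blockTriangular_inv_of_blockTriangular (dp_iff.1 h)

theorem dp_map {R R' : Type} [CommRing R] [CommRing R'] {piece : B → ℕ} {Y : Matrix B B R}
    (h : Dp piece 0 Y) (f : R → R') (hf : f 0 = 0) : Dp piece 0 (Y.map f) := by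
  intro a b hab
  refine h a b fun h0 => hab ?_
  rw [Matrix.map_apply, h0, hf]

theorem zz_of {H : Set (Matrix B B ℂ)} (hH : AlgGrp QQ H) {piece : B → ℕ} {Q Q' : Matrix B B ℂ}
    (hd : Dp piece 0 Q) (h1 : Q * Q' = 1) (h2 : Q' * Q = 1) {T T' : Matrix B B ℂ}
    (h3 : T * T' = 1) (h4 : ∀ i j, T' i j ∈ QA) (h5 : Q * T ∈ H) : ZZ Q Q' (lieZ H piece) where
  br := by
    rintro Y ⟨hY, hY'⟩ W ⟨hW, hW'⟩
    refine mem_lieZ.2 ⟨fun d => ?_, ?_⟩
    · rw [cM_sub, cM_mul, cM_mul]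
      exact (hY d).comm (hW d)
    · have h6 := hY'.br hW'
      exact h6
  log := by
    intro D lam
    refine mem_lieZ.2 ⟨fun d => ?_, ?_⟩
    · rw [cM_lgZ]
      exact hH.stab_map (lamF lam)
        (hH.stab_der QQ_le_QA (fun x hx => mem_QA.1 hx) h1 h2 h3 h4 h5 (derQ D))
    · unfold lgZ
      refine dp_map ?_ _ (map_zero lam)
      have h6 := (dp_map hd D (map_zero D)).mul (dp_inv hd h1 h2)
      exact h6

/-- brackets of blocks have trace zero, so the dimension is smaller than the square of the size -/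
theorem small_of_card {Z : Submodule ℚ (Matrix B B ℚ)} {piece : B → ℕ}
    (hd : ∀ Y ∈ Z, Dp piece 0 Y) {j m : ℕ} (hm : 0 < m)
    (hj : Nat.card {b : B // piece b = j} ^ 2 ≤ m) : finrank ℚ ((drZ Z).map (bl piece j)) < m := by
  classical
  let S : Submodule ℚ (Matrix B B ℚ) :=
    { carrier := {M | ∀ a b, ¬ (piece a = j ∧ piece b = j) → M a b = 0}
      zero_mem' := fun a b _ => rfl
      add_mem' := fun {M N} h h' a b hab => by
        rw [Matrix.add_apply, h a b hab, h' a b hab, add_zero]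
      smul_mem' := fun c M h a b hab => by rw [Matrix.smul_apply, h a b hab, smul_zero] }
  let C := {b : B // piece b = j}
  have hS : finrank ℚ S ≤ Nat.card C ^ 2 := by
    let f : S →ₗ[ℚ] (C × C → ℚ) :=
      { toFun := fun M p => M.1 p.1.1 p.2.1
        map_add' := fun M N => rfl
        map_smul' := fun c M => rfl }
    have hf : Function.Injective f := by
      rw [injective_iff_map_eq_zero]
      intro M hM
      refine Subtype.ext (Matrix.ext fun a b => ?_)
      by_cases hab : piece a = j ∧ piece b = j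
      · exact congrFun hM (⟨a, hab.1⟩, ⟨b, hab.2⟩)
      · exact M.2 a b hab
    have h1 := LinearMap.finrank_le_finrank_of_injective hf
    rw [Module.finrank_fintype_fun_eq_card, Fintype.card_prod] at h1
    rw [Nat.card_eq_fintype_card, sq]
    exact h1
  have hle : (drZ Z).map (bl piece j) ≤ S := by
    rintro _ ⟨Y, -, rfl⟩ a b hab
    rw [bl_apply, if_neg hab]
  have htr : ∀ M ∈ (drZ Z).map (bl piece j), Matrix.trace M = 0 := by
    rintro _ ⟨Y, hY, rfl⟩
    unfold drZ at hY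
    induction hY using Submodule.span_induction with
    | mem Y hY =>
      obtain ⟨Y, hY, Y', hY', rfl⟩ := hY
      rw [bl_br (hd Y hY) (hd Y' hY'), Matrix.trace_sub, Matrix.trace_mul_comm, sub_self]
    | zero => rw [map_zero, Matrix.trace_zero]
    | add Y Y' _ _ hY hY' => rw [map_add, Matrix.trace_add, hY, hY', add_zero]
    | smul c Y _ hY => rw [map_smul, Matrix.trace_smul, hY, smul_zero]
  rcases isEmpty_or_nonempty C with hC | ⟨⟨b, hb⟩⟩
  · have h1 : S = ⊥ := by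
      rw [eq_bot_iff]
      intro M hM
      refine (Submodule.mem_bot ℚ).2 (Matrix.ext fun a b => ?_)
      exact hM a b fun h => hC.elim ⟨a, h.1⟩
    have h2 := Submodule.finrank_mono hle
    rw [h1, finrank_bot] at h2
    omega
  · have hlt : (drZ Z).map (bl piece j) < S := by
      refine lt_of_le_of_ne hle fun heq => ?_
      have h1 : Matrix.single b b (1 : ℚ) ∈ S := by
        intro a c hac
        rw [Matrix.single_apply, if_neg]
        rintro ⟨rfl, rfl⟩
        exact hac ⟨hb, hb⟩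
      rw [← heq] at h1
      have h2 := htr _ h1
      rw [Matrix.trace_single_eq_same] at h2
      exact one_ne_zero h2
    have h3 := Submodule.finrank_lt_finrank_of_lt hlt
    have hj' : Nat.card C ^ 2 ≤ m := hj
    omega

end second

/-! ### The conclusion -/

section concl

variable {g : ℕ} {A : AbVar g} {B : Type} [Fintype B] [DecidableEq B]

theorem MA_perfect (A : AbVar g) : dr A.MA ≤ dr (dr A.MA) := by
  have hbr : ∀ X ∈ A.MA, ∀ Y ∈ A.MA, X * Y - Y * X ∈ A.MA := fun X hX Y hY => A.MA_bracket hX hY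
  let CM : Submodule ℚ (Module.End ℚ A.H1) :=
    { carrier := {X | X ∈ A.MA ∧ ∀ Y ∈ A.MA, Y * X = X * Y}
      zero_mem' := ⟨A.MA.zero_mem, fun Y _ => by rw [mul_zero, zero_mul]⟩
      add_mem' := fun {P Q} hP hQ => ⟨A.MA.add_mem hP.1 hQ.1, fun X hX => by
        rw [mul_add, add_mul, hP.2 X hX, hQ.2 X hX]⟩
      smul_mem' := fun c P hP => ⟨A.MA.smul_mem c hP.1, fun X hX => by
        rw [mul_smul_comm, smul_mul_assoc, hP.2 X hX]⟩ }
  have hle : A.MA ≤ CM ⊔ dr A.MA := by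
    refine A.MA_le (fun X hX Y hY => ?_) fun X hX hc => ?_
    · exact Submodule.mem_sup_right (Submodule.subset_span ⟨X, hX, Y, hY, rfl⟩)
    · exact Submodule.mem_sup_left ⟨hX, hc⟩
  conv_lhs => unfold dr
  rw [Submodule.span_le]
  rintro _ ⟨X, hX, Y, hY, rfl⟩
  obtain ⟨Z, hZ, d, hd, rfl⟩ := Submodule.mem_sup.1 (hle hX)
  obtain ⟨Z', hZ', d', hd', rfl⟩ := Submodule.mem_sup.1 (hle hY)
  refine Submodule.subset_span ⟨d, hd, d', hd', ?_⟩
  have e1 := hZ.2 Z' hZ'.1
  have e2 := hZ.2 d' (dr_le hbr hd')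
  have e3 := hZ'.2 d (dr_le hbr hd)
  rw [add_mul, mul_add, mul_add, add_mul, mul_add, mul_add, e1, ← e2, e3]
  abel

/-- The exponentials of the complex Lie algebra are in the group. -/
theorem exp_mem_of {H : Set (Matrix (Fin (2 * g) ⊕ B) (Fin (2 * g) ⊕ B) ℂ)} (hH : AlgGrp QQ H)
    {S : Submodule ℚ (Module.End ℚ A.H1)}
    (hS : ∀ X ∈ S, ∀ d, Stab H d (prM A X (0 : Matrix B B ℚ))) {X : Matrix _ _ ℂ}
    (hX : X ∈ Submodule.span ℂ {Y | ∃ X ∈ S, Y = toC X}) :
    fromBlocks (NormedSpace.exp Xᵀ) 0 0 (1 : Matrix B B ℂ) ∈ H := by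
  rw [← exp_fromBlocks]
  refine exp_mem hH fun d => ?_
  induction hX using Submodule.span_induction with
  | mem X hX =>
    obtain ⟨X, hX, rfl⟩ := hX
    have h1 := hS X hX d
    unfold prM at h1
    rwa [cM_zero] at h1
  | zero =>
    rw [Matrix.transpose_zero, fromBlocks_zero]
    exact Stab.zero
  | add X Y _ _ hX hY =>
    have h1 := hX.add hY
    rwa [fromBlocks_add, add_zero, add_zero, add_zero, ← Matrix.transpose_add] at h1
  | smul c X _ hX =>
    have h1 := hX.smul c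
    rwa [fromBlocks_smul, smul_zero, smul_zero, smul_zero, ← Matrix.transpose_smul] at h1

/-- The inverse of a matrix of algebraic numbers. -/
theorem alg_inv' {R : Type} [Fintype R] [DecidableEq R] {T : Matrix R R ℂ}
    (hT : ∀ i j, IsAlgebraic ℚ (T i j)) (hdet : T.det ≠ 0) :
    ∃ T' : Matrix R R ℂ, T * T' = 1 ∧ ∀ i j, T' i j ∈ QA := by
  let K : IntermediateField ℚ ℂ := algebraicClosure ℚ ℂ
  let S : Matrix R R K := Matrix.of fun i j => ⟨T i j, mem_algebraicClosure_iff.2 (hT i j)⟩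
  have hS : S.map (algebraMap K ℂ) = T := by
    ext i j
    rfl
  have hdS : S.det ≠ 0 := by
    intro h0
    apply hdet
    rw [← hS, ← RingHom.mapMatrix_apply, ← RingHom.map_det, h0, map_zero]
  refine ⟨(S⁻¹).map (algebraMap K ℂ), ?_, fun i j => ?_⟩
  · rw [← hS, ← Matrix.map_mul, Matrix.mul_nonsing_inv _ (isUnit_iff_ne_zero.2 hdS),
      Matrix.map_one _ (map_zero _) (map_one _)]
  · rw [Matrix.map_apply]
    exact (S⁻¹ i j).2

/-- the set of the matrices of a group -/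
def mats {R : Type} [Fintype R] [DecidableEq R] (G : Subgroup (GL R ℂ)) : Set (Matrix R R ℂ) :=
  {M | ∃ x ∈ G, (x : Matrix R R ℂ) = M}

theorem ptZ_of {Q : Matrix B B ℂ} {G : Subgroup (GL (Fin (2 * g) ⊕ B) ℂ)}
    (hG : AlgGrp QQ (mats G)) {T : Matrix ((Fin g ⊕ Fin g) ⊕ B) (Fin (2 * g) ⊕ B) ℂ}
    (hT : ∀ i j, IsAlgebraic ℚ (T i j)) {x : GL (Fin (2 * g) ⊕ B) ℂ} (hx : x ∈ G)
    (hxT : (x : Matrix _ _ ℂ) = fromBlocks (perMat A) 0 0 Q * T) : PtZ A Q (mats G) := by
  let e : (Fin g ⊕ Fin g) ⊕ B ≃ Fin (2 * g) ⊕ B := Equiv.sumCongr (eqv g) (Equiv.refl B)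
  have h0 : fromBlocks (PM A) 0 0 Q = (fromBlocks (perMat A) 0 0 Q).submatrix id e.symm := by
    unfold PM
    ext i j
    rcases i with i | i <;> rcases j with j | j <;> rfl
  have h1 : fromBlocks (PM A) 0 0 Q * T.submatrix e.symm id =
      fromBlocks (perMat A) 0 0 Q * T := by
    rw [h0, Matrix.submatrix_mul_equiv, Matrix.submatrix_id_id]
  have h2 : (T.submatrix e.symm id).det ≠ 0 := by
    intro h0
    have h3 : (x : Matrix (Fin (2 * g) ⊕ B) (Fin (2 * g) ⊕ B) ℂ).det = 0 := by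
      rw [hxT, ← h1, Matrix.det_mul, h0, mul_zero]
    exact (Matrix.GeneralLinearGroup.det x).ne_zero h3
  obtain ⟨T', h3, h4⟩ := alg_inv' (T := T.submatrix e.symm id) (fun i j => hT _ _) h2
  exact ⟨hG, _, T', h3, h4, ⟨x, hx, by rw [hxT, h1]⟩⟩

/-- **The conclusion.** -/
theorem concl {Q : Matrix B B ℂ} {piece : B → ℕ} (hd : Dp piece 0 Q)
    {GZ : Subgroup (GL B ℂ)} (hGZ : AlgGrp QQ (mats GZ)) {TZ : Matrix B B ℂ}
    (hTZ : ∀ i j, IsAlgebraic ℚ (TZ i j)) {xZ : GL B ℂ} (hxZ : xZ ∈ GZ)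
    (hxTZ : (xZ : Matrix B B ℂ) = Q * TZ)
    {G : Subgroup (GL (Fin (2 * g) ⊕ B) ℂ)} (hG : AlgGrp QQ (mats G))
    {T : Matrix ((Fin g ⊕ Fin g) ⊕ B) (Fin (2 * g) ⊕ B) ℂ}
    (hT : ∀ i j, IsAlgebraic ℚ (T i j)) {x : GL (Fin (2 * g) ⊕ B) ℂ} (hx : x ∈ G)
    (hxT : (x : Matrix _ _ ℂ) = fromBlocks (perMat A) 0 0 Q * T) {m : ℕ} (hm : 0 < m)
    (hsmall : ∀ j, Nat.card {b : B // piece b = j} ^ 2 ≤ m ∨
      finrank ℚ ((drZ (lieZ (mats GZ) piece)).map (bl piece j)) < m)
    {M : Submodule ℚ (Module.End ℚ A.H1)} (hM : M ≤ A.NA)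
    (hbr : ∀ X ∈ M, ∀ Y ∈ M, X * Y - Y * X ∈ M) (hperf : dr M ≤ dr (dr M))
    (hk : ∀ X ∈ M, ∀ φ : MultilinearMap ℚ (fun _ : Fin 2 × Fin 2 => A.H1) ℚ,
      IsDeRhamBettiForm QBar A.dR tau 2 φ → Kills X φ)
    (hlarge : Large (dr M) m) {X : Matrix _ _ ℂ}
    (hX : X ∈ Submodule.span ℂ {Y | ∃ X ∈ dr M, Y = toC X}) :
    ∃ y ∈ G, (y : Matrix (Fin (2 * g) ⊕ B) (Fin (2 * g) ⊕ B) ℂ) =
      fromBlocks (NormedSpace.exp Xᵀ) 0 0 1 := by
  have hdet : Q.det ≠ 0 ∧ TZ.det ≠ 0 := by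
    have h1 := (Matrix.GeneralLinearGroup.det xZ).ne_zero
    have h2 : ((Matrix.GeneralLinearGroup.det xZ : ℂˣ) : ℂ) = Q.det * TZ.det := by
      rw [← Matrix.det_mul, ← hxTZ]
      rfl
    rw [h2] at h1
    exact ⟨left_ne_zero_of_mul h1, right_ne_zero_of_mul h1⟩
  have hQ1 : Q * Q⁻¹ = 1 := Matrix.mul_nonsing_inv _ (isUnit_iff_ne_zero.2 hdet.1)
  have hQ2 : Q⁻¹ * Q = 1 := Matrix.nonsing_inv_mul _ (isUnit_iff_ne_zero.2 hdet.1)
  obtain ⟨TZ', h3, h4⟩ := alg_inv' hTZ hdet.2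
  have hZ := zz_of hGZ hd hQ1 hQ2 h3 h4 ⟨xZ, hxZ, hxTZ⟩
  have hpt := ptZ_of (A := A) hG hT hx hxT
  have hdp : ∀ Y ∈ lieZ (mats GZ) piece, Dp piece 0 Y := fun Y hY => hY.2
  have h5 := main hpt hQ1 hQ2 hZ hdp hM hbr hperf hk hlarge fun j => by
    rcases hsmall j with h | h
    · exact small_of_card hdp hm h
    · exact h
  exact exp_mem_of hG h5 hX

end concl

end Pool.Agent.R918.TZ

end
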