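import Pool.Agent.R918.Times3

set_option autoImplicit false
set_option linter.unusedSectionVars false
set_option linter.unusedVariables false

/-!
# An abelian variety and a small de Rham-Betti object: the complex structure
-/

open Module Function TensorProduct Matrix

noncomputable section

namespace Pool.Agent.R918.TZ

open Pool.Agent.Y102 Pool.Agent.W516.DR Pool.Agent.H204R3.GP Pool.Agent.W516.KC
  Pool.Agent.H204R3.SP Pool.Agent.TH119.MX Pool.Agent.R917

variable {g : ℕ} {A : AbVar g} {B : Type} [Fintype B] [DecidableEq B]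

theorem hm_I_mem (A : AbVar g) : (hm A Complex.I)ᵀ ∈
    Submodule.span ℂ {Y | ∃ X ∈ A.MA, Y = toC X} := by
  classical
  obtain ⟨s, hs⟩ := exists_coords (fun p : Fin (2 * g) × Fin (2 * g) =>
    A.lam.repr (Complex.I • A.lam p.1) p.2)
  let f : Basis.ofVectorSpaceIndex ℚ ℝ → (ℝ →ₗ[ℚ] ℚ) := fun k => (Basis.ofVectorSpace ℚ ℝ).coord k
  have h1 : (hm A Complex.I)ᵀ = ∑ k ∈ s, ((Basis.ofVectorSpace ℚ ℝ k : ℝ) : ℂ) •
      (toC (A.cmpE (f k) AbVar.JJ)) := by
    ext i j
    rw [Matrix.sum_apply, Matrix.transpose_apply, hm_apply]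
    have h2 := hs (j, i)
    rw [h2]
    push_cast
    refine Finset.sum_congr rfl fun k _ => ?_
    rw [Matrix.smul_apply, smul_eq_mul, mul_comm]
    congr 1
    unfold toC
    rw [Matrix.of_apply, AbVar.cmpE_apply]
    have h3 : A.per (Pi.single j 1) = A.lam j := by
      have h4 := A.per_bas j
      unfold AbVar.bas at h4
      rwa [Pi.basisFun_apply] at h4
    rw [h3]
    rfl
  rw [h1]
  exact Submodule.sum_mem _ fun k _ =>
    Submodule.smul_mem _ _ (Submodule.subset_span ⟨_, A.J_mem (f k), rfl⟩)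

/-- The circle. -/
theorem circle_of {G : Subgroup (GL (Fin (2 * g) ⊕ B) ℂ)}
    (h : ∀ X ∈ Submodule.span ℂ {Y | ∃ X ∈ A.MA, Y = toC X},
      ∃ y ∈ G, (y : Matrix (Fin (2 * g) ⊕ B) (Fin (2 * g) ⊕ B) ℂ) =
        fromBlocks (NormedSpace.exp Xᵀ) 0 0 1) {z : ℂ} (hz : ‖z‖ = 1) :
    ∃ y ∈ G, (y : Matrix (Fin (2 * g) ⊕ B) (Fin (2 * g) ⊕ B) ℂ) =
      fromBlocks (hm A z) 0 0 1 := by
  have hz0 : z ≠ 0 := by
    rintro rfl
    rw [norm_zero] at hz
    exact zero_ne_one hz
  obtain ⟨y, hy, h1⟩ := h (((Complex.log z).im : ℂ) • (hm A Complex.I)ᵀ)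
    (Submodule.smul_mem _ _ (hm_I_mem A))
  refine ⟨y, hy, ?_⟩
  have h2 : (Complex.log z).re = 0 := by
    rw [Complex.log_re, hz, Real.log_one]
  have h3 : hm A z = NormedSpace.exp (((Complex.log z).im : ℂ) • hm A Complex.I) := by
    conv_lhs => rw [← Complex.exp_log hz0]
    rw [hm_exp, hm_eq, h2, Complex.ofReal_zero, zero_smul, zero_add]
  rw [h1, h3, Matrix.transpose_smul, Matrix.transpose_transpose]

/-- dimension of the blocks -/
theorem finrank_blocks {H : Set (Matrix B B ℂ)} {piece : B → ℕ} {j m : ℕ}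
    {P : Matrix B B ℚ → Prop} (hP : ∀ Y, Y ∈ lieZ H piece ↔ P Y)
    (h : finrank ℚ (Submodule.span ℚ {M : Matrix {b // piece b = j} {b // piece b = j} ℚ |
      ∃ Y Y' : Matrix B B ℚ, P Y ∧ P Y' ∧
        M = (Y * Y' - Y' * Y).submatrix Subtype.val Subtype.val}) < m) :
    finrank ℚ ((drZ (lieZ H piece)).map (bl piece j)) < m := by
  classical
  let e : Matrix {b // piece b = j} {b // piece b = j} ℚ →ₗ[ℚ] Matrix B B ℚ :=
    { toFun := fun M => Matrix.of fun a b =>
        if h : piece a = j ∧ piece b = j then M ⟨a, h.1⟩ ⟨b, h.2⟩ else 0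
      map_add' := fun M M' => by
        ext a b
        rw [Matrix.add_apply, Matrix.of_apply, Matrix.of_apply, Matrix.of_apply]
        split_ifs
        · rfl
        · rw [add_zero]
      map_smul' := fun c M => by
        ext a b
        rw [RingHom.id_apply, Matrix.smul_apply, Matrix.of_apply, Matrix.of_apply]
        split_ifs
        · rfl
        · rw [smul_zero] }
  have he : ∀ Y : Matrix B B ℚ, e (Y.submatrix Subtype.val Subtype.val) = bl piece j Y := by
    intro Y
    ext a b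
    change (if h : piece a = j ∧ piece b = j then _ else (0 : ℚ)) = _
    rw [bl_apply]
    by_cases hab : piece a = j ∧ piece b = j
    · rw [dif_pos hab, if_pos hab]
      rfl
    · rw [dif_neg hab, if_neg hab]
  have hle : (drZ (lieZ H piece)).map (bl piece j) ≤
      (Submodule.span ℚ {M : Matrix {b // piece b = j} {b // piece b = j} ℚ |
        ∃ Y Y' : Matrix B B ℚ, P Y ∧ P Y' ∧
          M = (Y * Y' - Y' * Y).submatrix Subtype.val Subtype.val}).map e := by
    unfold drZ
    rw [Submodule.map_span, Submodule.map_span, Submodule.span_le]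
    rintro _ ⟨_, ⟨Y, hY, Y', hY', rfl⟩, rfl⟩
    refine Submodule.subset_span ⟨_, ⟨Y, Y', (hP Y).1 hY, (hP Y').1 hY', rfl⟩, ?_⟩
    exact he _
  exact ((Submodule.finrank_mono hle).trans (Submodule.finrank_map_le _ _)).trans_lt h

end Pool.Agent.R918.TZ

end
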