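import Pool.Agent.R918.Times4
import Pool.Agent.R917.SpinPt

set_option autoImplicit false
set_option linter.unusedSectionVars false
set_option linter.unusedVariables false

/-!
# Ideals of the Lie algebras of spin type
-/

open Module Function TensorProduct Matrix

noncomputable section

namespace Pool.Agent.R918.TZ

open Pool.Agent.Y102 Pool.Agent.W516.DR Pool.Agent.H204R3.GP Pool.Agent.W516.KC
  Pool.Agent.H204R3.SP Pool.Agent.TH119.MX Pool.Agent.R917

section spin

open Pool.Agent.Y102.SP

variable {U : Type} [AddCommGroup U] [Module ℂ U] [FiniteDimensional ℂ U] [Nontrivial U]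
  {N k : ℕ} {E : Fin N → Module.End ℂ U} {c : Fin N → Fin k}

/-- the pairs of indices of one colour -/
abbrev Prs (c : Fin N → Fin k) (s : Fin k) : Type :=
  {p : Fin N × Fin N // p.1 < p.2 ∧ c p.1 = s ∧ c p.2 = s}

theorem card_prs {r : ℕ} {s : Fin k} (hs : (Finset.univ.filter fun j => c j = s).card = r) :
    2 * Fintype.card (Prs c s) = r * (r - 1) := by
  classical
  let S := Finset.univ.filter fun j => c j = s
  have h1 := S.offDiag_card
  let P := Finset.univ.filter fun p : Fin N × Fin N => p.1 < p.2 ∧ c p.1 = s ∧ c p.2 = s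
  let P' := Finset.univ.filter fun p : Fin N × Fin N => p.2 < p.1 ∧ c p.1 = s ∧ c p.2 = s
  have h2 : Fintype.card (Prs c s) = P.card := Fintype.card_subtype _
  have h3 : P'.card = P.card := by
    refine Finset.card_bij' (fun p _ => (p.2, p.1)) (fun p _ => (p.2, p.1)) ?_ ?_ ?_ ?_
    · intro p hp
      have h := (Finset.mem_filter.1 hp).2
      exact Finset.mem_filter.2 ⟨Finset.mem_univ _, h.1, h.2.2, h.2.1⟩
    · intro p hp
      have h := (Finset.mem_filter.1 hp).2
      exact Finset.mem_filter.2 ⟨Finset.mem_univ _, h.1, h.2.2, h.2.1⟩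
    · intro p _
      rfl
    · intro p _
      rfl
  have h4 : S.offDiag = P ∪ P' := by
    ext p
    simp only [S, P, P', Finset.mem_offDiag, Finset.mem_union, Finset.mem_filter,
      Finset.mem_univ, true_and]
    constructor
    · rintro ⟨ha, hb, hne⟩
      rcases lt_or_gt_of_ne hne with h | h
      · exact Or.inl ⟨h, ha, hb⟩
      · exact Or.inr ⟨h, ha, hb⟩
    · rintro (⟨h, ha, hb⟩ | ⟨h, ha, hb⟩)
      · exact ⟨ha, hb, h.ne⟩
      · exact ⟨ha, hb, h.ne'⟩
  have h5 : Disjoint P P' := by
    rw [Finset.disjoint_left]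
    intro p hp hp'
    have ha := (Finset.mem_filter.1 hp).2.1
    have hb := (Finset.mem_filter.1 hp').2.1
    exact absurd ha (not_lt.2 hb.le)
  rw [h4, Finset.card_union_of_disjoint h5, h3] at h1
  have h6 : S.card = r := hs
  rw [h6] at h1
  rw [h2, Nat.mul_sub_one]
  omega

theorem indep_prs (hE : CE E) (s : Fin k) :
    LinearIndependent ℂ (fun p : Prs c s => E p.1.1 * E p.1.2) := by
  classical
  rw [Fintype.linearIndependent_iff]
  intro x hx p0
  have h1 : ∑ p : Prs c s, x p * bil (E p.1.1 * E p.1.2 * E p0.1.2 -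
      E p0.1.2 * (E p.1.1 * E p.1.2)) (E p0.1.1) = 0 := by
    have h2 : ∀ p : Prs c s, x p * bil (E p.1.1 * E p.1.2 * E p0.1.2 -
        E p0.1.2 * (E p.1.1 * E p.1.2)) (E p0.1.1) =
        (BilB.flip (E p0.1.1)) (x p • (E p.1.1 * E p.1.2) * E p0.1.2 -
          E p0.1.2 * (x p • (E p.1.1 * E p.1.2))) := by
      intro p
      rw [LinearMap.flip_apply, BilB_apply, smul_mul_assoc, mul_smul_comm, ← smul_sub,
        bil_smul_left]
    rw [Finset.sum_congr rfl fun p _ => h2 p, ← map_sum, Finset.sum_sub_distrib,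
      ← Finset.sum_mul, ← Finset.mul_sum, hx, zero_mul, mul_zero, sub_zero, map_zero]
  have h3 : ∀ p : Prs c s, x p * bil (E p.1.1 * E p.1.2 * E p0.1.2 -
      E p0.1.2 * (E p.1.1 * E p.1.2)) (E p0.1.1) = if p = p0 then 4 * x p0 else 0 := by
    intro p
    rw [Cl_br hE p.2.1.ne]
    by_cases ha : p0.1.2 = p.1.2
    · rw [if_pos ha, if_neg (fun h => absurd (h.symm.trans ha) p.2.1.ne), sub_zero,
        bil_smul_left, hE.bil]
      by_cases hb : p.1.1 = p0.1.1
      · have hp : p = p0 := Subtype.ext (Prod.ext hb ha.symm)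
        rw [if_pos hb, if_pos hp, hp]
        ring
      · have hp : p ≠ p0 := fun h => hb (by rw [h])
        rw [if_neg hb, if_neg hp]
        ring
    · have hp : p ≠ p0 := fun h => ha (by rw [h])
      rw [if_neg ha, if_neg hp, zero_sub]
      by_cases hb : p0.1.2 = p.1.1
      · have hc : p.1.2 ≠ p0.1.1 := by
          intro h
          have h4 := p.2.1
          rw [h, ← hb] at h4
          exact absurd h4 (not_lt.2 p0.2.1.le)
        rw [if_pos hb, ← neg_smul, bil_smul_left, hE.bil, if_neg hc]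
        ring
      · rw [if_neg hb, neg_zero]
        have h5 := bil_smul_left (0 : ℂ) (0 : Module.End ℂ U) (E p0.1.1)
        rw [zero_smul, zero_mul] at h5
        rw [h5, mul_zero]
  rw [Finset.sum_congr rfl fun p _ => h3 p, Finset.sum_ite_eq' Finset.univ p0,
    if_pos (Finset.mem_univ _)] at h1
  exact (mul_eq_zero.1 h1).resolve_left (by norm_num)

theorem finrank_soS (hE : CE E) {r : ℕ} {s : Fin k}
    (hs : (Finset.univ.filter fun j => c j = s).card = r) :
    r * (r - 1) ≤ 2 * finrank ℂ (soS E c s) := by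
  classical
  rw [← card_prs hs]
  have h1 := finrank_span_eq_card (indep_prs (c := c) hE s)
  have h2 : Submodule.span ℂ (Set.range fun p : Prs c s => E p.1.1 * E p.1.2) ≤ soS E c s := by
    rw [Submodule.span_le]
    rintro _ ⟨p, rfl⟩
    exact Submodule.subset_span ⟨p.1.1, p.1.2, p.2.1.ne, p.2.2.1, p.2.2.2, rfl⟩
  have h3 := Submodule.finrank_mono h2
  omega

theorem large_soC (hE : CE E) {r : ℕ} (hr : 6 ≤ r)
    (hc : ∀ s, (Finset.univ.filter fun j => c j = s).card = r) {J : Submodule ℂ (Module.End ℂ U)}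
    (hJ : J ≤ soC E c) (hid : ∀ x ∈ J, ∀ y ∈ soC E c, x * y - y * x ∈ J) (hne : J ≠ soC E c) :
    2 * finrank ℂ J + r * (r - 1) ≤ 2 * finrank ℂ (soC E c) := by
  obtain ⟨s, hs⟩ : ∃ s, ¬ soS E c s ≤ J := by
    by_contra h
    push Not at h
    refine hne (le_antisymm hJ ?_)
    unfold soC
    rw [Submodule.span_le]
    rintro _ ⟨i, j, hij, hc', rfl⟩
    exact h (c i) (Submodule.subset_span ⟨i, j, hij, rfl, hc'.symm, rfl⟩)
  have h0 : ∀ x ∈ soS E c s, ∀ y ∈ J ⊓ soS E c s, x * y - y * x ∈ J ⊓ soS E c s := by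
    intro x hx y hy
    refine ⟨?_, soS_br hE hx hy.2⟩
    rw [← neg_sub]
    exact J.neg_mem (hid y hy.1 x (soS_le s hx))
  have h1 : J ⊓ soS E c s = ⊥ := by
    rcases ColMain_simple hE (by rw [hc]; exact hr) (J ⊓ soS E c s) inf_le_right h0 with h | h
    · exact h
    · exact absurd (h ▸ inf_le_left) hs
  have h2 := Submodule.finrank_sup_add_finrank_inf_eq J (soS E c s)
  rw [h1, finrank_bot, add_zero] at h2
  have h3 := Submodule.finrank_mono (sup_le hJ (soS_le (E := E) (c := c) s))
  have h4 := finrank_soS (c := c) hE (hc s)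
  omega

end spin

section cx

variable {W : Type} [AddCommGroup W] [Module ℚ W] [FiniteDimensional ℚ W]

theorem cmpE_bc (lam : ℂ →ₗ[ℚ] ℚ) (z : ℂ) (X : Module.End ℚ W) :
    cmpE lam (z • X.baseChange ℂ) = lam z • X := by
  ext w
  rw [cmpE_apply, LinearMap.smul_apply, LinearMap.baseChange_tmul, TensorProduct.smul_tmul',
    cmp_tmul, smul_eq_mul, mul_one, LinearMap.smul_apply]

theorem finrank_cx (S : Submodule ℚ (Module.End ℚ W)) : finrank ℂ (cx S) = finrank ℚ S := by
  classical
  let b := Module.finBasis ℚ S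
  have h1 : LinearIndependent ℂ fun i => ((b i : Module.End ℚ W)).baseChange ℂ := by
    rw [Fintype.linearIndependent_iff]
    intro z hz i
    refine eq_zero_of_dual (k := ℚ) fun lam => ?_
    have h2 := congrArg (cmpE lam) hz
    have h3 : cmpE lam (∑ i, z i • ((b i : Module.End ℚ W)).baseChange ℂ) =
        ∑ i, lam (z i) • (b i : Module.End ℚ W) := by
      have h4 : ∀ s : Finset (Fin (finrank ℚ S)),
          cmpE lam (∑ i ∈ s, z i • ((b i : Module.End ℚ W)).baseChange ℂ) =
            ∑ i ∈ s, lam (z i) • (b i : Module.End ℚ W) := by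
        intro s
        induction s using Finset.induction_on with
        | empty =>
          rw [Finset.sum_empty, Finset.sum_empty]
          ext w
          rw [cmpE_apply, LinearMap.zero_apply, map_zero, LinearMap.zero_apply]
        | insert a s ha ih =>
          rw [Finset.sum_insert ha, Finset.sum_insert ha, ← ih, ← cmpE_bc]
          ext w
          rw [LinearMap.add_apply, cmpE_apply, cmpE_apply, cmpE_apply, LinearMap.add_apply,
            map_add]
      exact h4 Finset.univ
    rw [h3] at h2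
    have h5 : cmpE lam (0 : Module.End ℂ (ℂ ⊗[ℚ] W)) = 0 := by
      ext w
      rw [cmpE_apply, LinearMap.zero_apply, map_zero, LinearMap.zero_apply]
    rw [h5] at h2
    have h6 : ∑ i, lam (z i) • b i = 0 := by
      refine Subtype.ext ?_
      rw [Submodule.coe_sum, Submodule.coe_zero, ← h2]
      exact Finset.sum_congr rfl fun i _ => rfl
    exact (Fintype.linearIndependent_iff.1 b.linearIndependent) _ h6 i
  have h2 : cx S = Submodule.span ℂ (Set.range fun i => ((b i : Module.End ℚ W)).baseChange ℂ) := by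
    refine le_antisymm (Submodule.span_le.2 ?_) (Submodule.span_le.2 ?_)
    · rintro _ ⟨X, hX, rfl⟩
      have h3 := b.sum_repr ⟨X, hX⟩
      have h4 : X = ∑ i, b.repr ⟨X, hX⟩ i • (b i : Module.End ℚ W) := by
        have h5 := congrArg Subtype.val h3
        rw [Submodule.coe_sum] at h5
        exact h5.symm
      have h6 : X.baseChange ℂ = ∑ i, ((b.repr ⟨X, hX⟩ i : ℚ) : ℂ) •
          ((b i : Module.End ℚ W)).baseChange ℂ := by
        have h7 : ∀ s : Finset (Fin (finrank ℚ S)),
            (∑ i ∈ s, b.repr ⟨X, hX⟩ i • (b i : Module.End ℚ W)).baseChange ℂ =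
              ∑ i ∈ s, ((b.repr ⟨X, hX⟩ i : ℚ) : ℂ) • ((b i : Module.End ℚ W)).baseChange ℂ := by
          intro s
          induction s using Finset.induction_on with
          | empty => rw [Finset.sum_empty, Finset.sum_empty, LinearMap.baseChange_zero]
          | insert a s ha ih =>
            rw [Finset.sum_insert ha, Finset.sum_insert ha, LinearMap.baseChange_add, ih,
              LinearMap.baseChange_smul]
            congr 1
        conv_lhs => rw [h4]
        exact h7 Finset.univ
      rw [h6]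
      exact Submodule.sum_mem _ fun i _ => Submodule.smul_mem _ _ (Submodule.subset_span ⟨i, rfl⟩)
    · rintro _ ⟨i, rfl⟩
      exact bc_mem (b i).2
  rw [h2, finrank_span_eq_card h1, Fintype.card_fin]

theorem large_of_cx {S : Submodule ℚ (Module.End ℚ W)} {m : ℕ}
    (h : ∀ J : Submodule ℂ (Module.End ℂ (ℂ ⊗[ℚ] W)), J ≤ cx S →
      (∀ x ∈ J, ∀ y ∈ cx S, x * y - y * x ∈ J) → J ≠ cx S → finrank ℂ J + m ≤ finrank ℂ (cx S)) :
    Large S m := by
  intro I hI hid hne
  rw [← finrank_cx I, ← finrank_cx S]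
  refine h (cx I) (cx_mono hI) ?_ fun heq => hne (le_antisymm hI fun X hX => ?_)
  · intro x hx
    induction hx using Submodule.span_induction with
    | mem x hx =>
      obtain ⟨X, hX, rfl⟩ := hx
      intro y hy
      induction hy using Submodule.span_induction with
      | mem y hy =>
        obtain ⟨Y, hY, rfl⟩ := hy
        rw [← bc_br]
        exact bc_mem (hid X hX Y hY)
      | zero =>
        rw [mul_zero, zero_mul, sub_zero]
        exact Submodule.zero_mem _
      | add a b _ _ ha hb =>
        rw [mul_add, add_mul, add_sub_add_comm]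
        exact Submodule.add_mem _ ha hb
      | smul z a _ ha =>
        rw [mul_smul_comm, smul_mul_assoc, ← smul_sub]
        exact Submodule.smul_mem _ _ ha
    | zero =>
      intro y _
      rw [mul_zero, zero_mul, sub_zero]
      exact Submodule.zero_mem _
    | add a b _ _ ha hb =>
      intro y hy
      rw [mul_add, add_mul, add_sub_add_comm]
      exact Submodule.add_mem _ (ha y hy) (hb y hy)
    | smul z a _ ha =>
      intro y hy
      rw [mul_smul_comm, smul_mul_assoc, ← smul_sub]
      exact Submodule.smul_mem _ _ (ha y hy)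
  · refine mem_of_bc ?_
    rw [heq]
    exact bc_mem hX

end cx

section spinAb

variable {g : ℕ} {A : AbVar g}

theorem spin_data {N k r : ℕ} {E : Fin N → Matrix (Fin (2 * g)) (Fin (2 * g)) ℂ} {c : Fin N → Fin k}
    (hr : 6 ≤ r) (h1 : ∀ i, E i * E i = 1) (h2 : ∀ i j, i ≠ j → E i * E j = -(E j * E i))
    (hc : ∀ σ, (Finset.univ.filter fun j => c j = σ).card = r)
    (hl : Submodule.span ℂ {Y | ∃ X ∈ A.NA, Y = toC X} =
      Submodule.span ℂ {Y | ∃ i j, i ≠ j ∧ c i = c j ∧ Y = E i * E j}) :
    A.NA ≤ A.LA ∧ A.NA ≤ dr A.NA ∧ Large A.NA (r * (r - 1) / 2) := by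
  have hE : SP.CE (fun i => matE (2 * g) (E i)) := ⟨fun i => by rw [← map_mul, h1, map_one],
    fun i j hij => by rw [← map_mul, h2 i j hij, map_neg, map_mul]⟩
  have hcx : cx A.NA = SP.soC (fun i => matE (2 * g) (E i)) c := by
    rw [← map_lie, hl, Submodule.map_span]
    unfold SP.soC
    congr 1
    ext Y
    constructor
    · rintro ⟨_, ⟨i, j, a, b, rfl⟩, rfl⟩
      exact ⟨i, j, a, b, map_mul (matE (2 * g)) _ _⟩
    · rintro ⟨i, j, a, b, rfl⟩
      exact ⟨_, ⟨i, j, a, b, rfl⟩, map_mul (matE (2 * g)) _ _⟩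
  refine ⟨A.full_LA.of_spinMat (by omega) (by omega) h1 h2 hc hl, ?_, ?_⟩
  · refine perfect_of ?_
    rcases subsingleton_or_nontrivial (ℂ ⊗[ℚ] A.H1) with hs | hn
    · intro X _
      have h0 : X = 0 := by
        refine LinearMap.ext fun x => ?_
        exact Subsingleton.elim _ _
      rw [h0]
      exact Submodule.zero_mem _
    · rw [hcx]
      exact SP.soC_perfect hE fun i => by rw [hc]; omega
  · refine large_of_cx ?_
    rcases subsingleton_or_nontrivial (ℂ ⊗[ℚ] A.H1) with hs | hn
    · intro J hJ _ hne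
      have h0 : ∀ X : Module.End ℂ (ℂ ⊗[ℚ] A.H1), X = 0 := fun X =>
        LinearMap.ext fun x => Subsingleton.elim _ _
      refine absurd (le_antisymm hJ fun X _ => ?_) hne
      rw [h0 X]
      exact J.zero_mem
    · intro J hJ hid hne
      have h3 : 2 * finrank ℂ J + r * (r - 1) ≤ 2 * finrank ℂ (cx A.NA) := by
        rw [hcx] at hJ hid hne ⊢
        exact large_soC hE hr hc hJ hid hne
      have h4 : 2 * (r * (r - 1) / 2) ≤ r * (r - 1) := Nat.mul_div_le _ _
      omega

end spinAb

end Pool.Agent.R918.TZ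

end
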