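import Pool.Agent.R918.Cen

set_option autoImplicit false
set_option linter.unusedSectionVars false
set_option linter.unusedVariables false

/-!
# Algebraic groups which contain the periods: Lie algebras with a centre
-/

open Module Function TensorProduct Matrix

noncomputable section

namespace Pool.Agent.R918

open Pool.Agent.Y102 Pool.Agent.W516.DR Pool.Agent.H204R3.GP

variable {g : ℕ} {A : AbVar g}

/-- There is a generic element. -/
theorem exists_generic {𝔠 : Submodule ℚ (Module.End ℚ A.H1)} (h𝔠 : 𝔠 ≤ A.ZA) {n : ℕ}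
    (χ : Fin n → (A.ZA →ₗ[ℚ] ℂ)) :
    ∃ R : A.ZA, (R : Module.End ℚ A.H1) ∈ 𝔠 ∧ ∀ i j, χ i R = χ j R →
      ∀ R' : A.ZA, (R' : Module.End ℚ A.H1) ∈ 𝔠 → χ i R' = χ j R' := by
  classical
  obtain ⟨P, hP⟩ : ∃ P : Fin n → Fin n → Prop, ∀ i j, P i j ↔
      ¬∀ R' : A.ZA, (R' : Module.End ℚ A.H1) ∈ 𝔠 → χ i R' = χ j R' := ⟨_, fun i j => Iff.rfl⟩
  obtain ⟨K, hKdef⟩ : ∃ K : {p : Fin n × Fin n // P p.1 p.2} → Subspace ℚ 𝔠,
      ∀ p (R : 𝔠), R ∈ K p ↔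
        χ p.1.1 ⟨R, h𝔠 R.2⟩ = χ p.1.2 ⟨R, h𝔠 R.2⟩ :=
    ⟨fun p => LinearMap.ker ((χ p.1.1 - χ p.1.2) ∘ₗ Submodule.inclusion h𝔠),
      fun p R => sub_eq_zero⟩
  have hK : ∀ p, K p ≠ ⊤ := by
    rintro ⟨⟨i, j⟩, hij⟩ htop
    refine (hP i j).1 hij fun R hR => ?_
    have h2 : (⟨R, hR⟩ : 𝔠) ∈ K ⟨⟨i, j⟩, hij⟩ := by rw [htop]; trivial
    exact (hKdef _ _).1 h2
  by_contra hne
  push Not at hne
  have hcov : ⋃ p, (K p : Set 𝔠) = Set.univ := by
    rw [Set.eq_univ_iff_forall]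
    intro R
    obtain ⟨i, j, h1, R', h2, h3⟩ := hne ⟨R.1, h𝔠 R.2⟩ R.2
    exact Set.mem_iUnion.2 ⟨⟨(i, j), (hP i j).2 fun h4 => h3 (h4 R' h2)⟩, (hKdef _ _).2 h1⟩
  obtain ⟨p, hp⟩ := Subspace.exists_eq_top_of_iUnion_eq_univ (k := ℚ) (E := 𝔠) (p := K) hcov
  exact hK p hp

/-- **The centre**: if the centre of the Lie algebra is rigid, it is in the Lie algebra of every
algebraic group which contains the periods. -/
theorem centre_mem {H : Set (Matrix (Fin (2 * g)) (Fin (2 * g)) ℂ)} (h : Pool.Agent.R917.Pt A H)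
    (hrig : ∀ X ∈ A.CN, (∀ T : Module.End ℚ A.H1,
      (∀ Y ∈ A.NA, ∀ Z ∈ A.NA, T * (Y * Z - Z * Y) = (Y * Z - Z * Y) * T) → T * X = X * T →
      ∀ Z ∈ A.CN, T * Z = Z * T) → ∀ Y ∈ A.CN, Dom X Y) : A.CN ≤ Pool.Agent.R917.lieQ H := by
  have hf := h.full
  obtain ⟨n, b, χ, hb⟩ := A.exists_basis
  obtain ⟨X, ⟨⟨_, c, hc⟩, hX2⟩, hX⟩ := exists_generic
    (𝔠 := Pool.Agent.R917.qq A H ⊓ A.CN) (inf_le_right.trans A.CN_le_ZA) χ
  intro Y hY
  refine mem_of_dom h.grp hX2 hc hY (hrig X hX2 (fun T hT hTX Z hZ => ?_) Y hY)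
  have h0 : ∀ d ∈ der (Pool.Agent.R917.qq A H), T * d = d * T := by
    intro d hd
    unfold der at hd
    induction hd using Submodule.span_induction with
    | mem z hz =>
      obtain ⟨x, hx, y, hy, rfl⟩ := hz
      exact hT x (hf.le hx) y (hf.le hy)
    | zero => rw [mul_zero, zero_mul]
    | add a b _ _ ha hb => rw [mul_add, add_mul, ha, hb]
    | smul c a _ ha => rw [mul_smul_comm, smul_mul_assoc, ha]
  have h1 : ∀ P ∈ Pool.Agent.R917.qq A H, P * T = T * P := by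
    intro P hP
    obtain ⟨Z', hZ', d, hd, rfl, hc'⟩ := hf.dec hP
    have hZC : Z' ∈ A.CN :=
      ⟨hf.le hZ', fun Y hY => hf.comm Z' (fun X hX => (hc' X hX).symm) Y hY⟩
    have e1 : T * Z' = Z' * T :=
      A.comm_of_generic hb (X := X) (R := ⟨Z', A.CN_le_ZA hZC⟩)
        (fun i j hij => hX i j hij ⟨Z', A.CN_le_ZA hZC⟩ ⟨hZ', hZC⟩) hTX
    rw [add_mul, mul_add, e1, h0 d hd]
  exact (hf.comm T h1 Z hZ.1).symm

theorem dom_self {W : Type} [AddCommGroup W] [Module ℚ W] (X : Module.End ℚ W) : Dom X X := by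
  intro r v x y h0 hx hy hs
  rw [← hs]
  refine Finset.sum_congr rfl fun k _ => ?_
  have h1 : (y k - x k) • v k = 0 := by rw [sub_smul, ← hx, ← hy, sub_self]
  exact sub_eq_zero.1 ((smul_eq_zero.1 h1).resolve_right (h0 k))

theorem centre_mem_of_le {H : Set (Matrix (Fin (2 * g)) (Fin (2 * g)) ℂ)}
    (h : Pool.Agent.R917.Pt A H) (hle : A.NA ≤ Pool.Agent.R917.qq A H) :
    A.CN ≤ Pool.Agent.R917.lieQ H := by
  intro X hX
  obtain ⟨_, c, hc⟩ := hle hX.1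
  exact mem_of_dom h.grp hX hc hX (dom_self X)

/-- From the derived algebra and the centre to the group. -/
theorem lie_of_der {H : Set (Matrix (Fin (2 * g)) (Fin (2 * g)) ℂ)} (h : Pool.Agent.R917.Pt A H)
    (hd : ∀ X ∈ A.NA, ∀ Y ∈ A.NA, X * Y - Y * X ∈ Pool.Agent.R917.qq A H)
    (hc : A.CN ≤ Pool.Agent.R917.lieQ H) :
    A.NA ≤ Pool.Agent.R917.lieQ H ∧ (1 : Module.End ℚ A.H1) ∈ Pool.Agent.R917.lieQ H := by
  have h2 : A.NA ≤ Pool.Agent.R917.qq A H ⊔ A.CN :=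
    le_of_trace A.NA A.trace_NA (fun X hX Y hY => A.NA_bracket hX hY)
      (fun X hX hc htr => A.NA_pos hX hc htr)
      (fun X hX Y hY => Submodule.mem_sup_left (hd X hX Y hY))
      fun X hX hc => Submodule.mem_sup_right ⟨hX, hc⟩
  have h3 : ∀ X ∈ A.NA, ∀ Y ∈ A.NA, X * Y - Y * X ∈ Pool.Agent.R917.lieQ H := by
    intro X hX Y hY
    obtain ⟨q, hq, z, hz, rfl⟩ := Submodule.mem_sup.1 (h2 hX)
    obtain ⟨q', hq', z', hz', rfl⟩ := Submodule.mem_sup.1 (h2 hY)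
    have e1 := hz.2 q' hq'.1
    have e2 := hz.2 z' hz'.1
    have e3 := hz'.2 q hq.1
    have e4 : (q + z) * (q' + z') - (q' + z') * (q + z) = q * q' - q' * q := by
      rw [add_mul, mul_add, mul_add, add_mul, mul_add, mul_add, e1, e2, e3]
      abel
    rw [e4]
    exact Pool.Agent.R917.qq_br hq hq'
  have h4 : A.NA ≤ Pool.Agent.R917.lieQ H :=
    le_of_trace A.NA A.trace_NA (fun X hX Y hY => A.NA_bracket hX hY)
      (fun X hX hc htr => A.NA_pos hX hc htr) h3 fun X hX hcc => hc ⟨hX, hcc⟩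
  refine ⟨h4, ?_⟩
  obtain ⟨D, lam, hne⟩ := Pool.Agent.R917.exists_der
  have h5 : X0 A.basis tau D lam ∈ Pool.Agent.R917.lieQ H := h4 (A.LA_le_NA (by
    rw [AbVar.LA_eq]
    exact X0_mem A.basis AbVar.tau_ne D lam))
  have h6 := (Pool.Agent.R917.lieQ H).sub_mem (h.cmp_mem D lam) h5
  rw [← Pool.Agent.R917.X0_eq D lam, add_sub_cancel_left] at h6
  have h7 := (Pool.Agent.R917.lieQ H).smul_mem (lam (D tau / (2 * tau)))⁻¹ h6
  rwa [smul_smul, inv_mul_cancel₀ hne, one_smul] at h7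

end Pool.Agent.R918

end
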